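import Pool.Agent.Hyp.DefC

/-!
# Module AlCh: martingale differences of a character

**PROOF.** Product structure: for a function `F(b) = ∏ i, F_i (b i)` of the bits the average is
`∏ i, (F_i true + F_i false)/2` (`Finset.prod_univ_sum` / `Fintype.piFinset_univ`).  With
`θ i = a / 2^(i+1)`, `e θ = exp (2πi θ)`:
`avC_b (sg (glue n x b n) * ch a (glue n x b)) = (∏ over i < n of (if x i then e (θ i) else 1)) *
((e (θ n) - 1)/2) * ∏ over i > n of ((e (θ i) + 1)/2)`,
so `‖DC (ch a) n x‖ = |sin (π θ n)| * ∏ over i > n of |cos (π θ i)|` (`|e θ - 1|/2 = |sin π θ|`,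
`|e θ + 1|/2 = |cos π θ|`), independent of `x`; `al (ch a) n` is its square.
* `al_le_one`, `al_nonneg`: clear.
* `al_le_hi`: `|sin (π θ n)| ≤ π |a| / 2^(n+1)` and `π^2 < 10`: `al ≤ (10/4) a^2 / 4^n`.
* `al_le_lo`: the identity `sin φ = 2^k sin (φ/2^k) ∏ over 1 ≤ j ≤ k of cos (φ/2^j)` with
  `φ = π a / 2^(n+1)`, `k = A - 1 - n`: `∏ over i > n of cos (π θ i) * 2^k * sin (π a / 2^A) = sin φ`.
  `|sin (π a/2^A)| ≥ 2 |a| / 2^A` for `|a| ≤ 2^(A-1)` (`Real.mul_abs_le_abs_sin` / `Real.mul_le_sin`: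
  `(2/π) x ≤ sin x` on `[0, π/2]`).  So `al ≤ (1 / (2^(A-1-n) * 2 |a| / 2^A))^2 = (2^n / |a|)^2
  = 4^n / a^2`.
-/

set_option autoImplicit false

namespace Pool.Agent.Hyp

open Finset

theorem al_nonneg {A : ℕ} (f : Bits A → ℂ) (n : Fin A) : 0 ≤ al f n :=
  av_nonneg fun _ => sq_nonneg _

/-- the average of a product function -/
theorem avC_prod_bits {A : ℕ} (F : Fin A → Bool → ℂ) :
    avC (fun b : Bits A => ∏ i, F i (b i)) = ∏ i, ((F i true + F i false) / 2) := by
  unfold avC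
  have h1 : (∑ b : Bits A, ∏ i, F i (b i)) = ∏ i, (F i true + F i false) := by
    have h2 := Finset.prod_univ_sum (fun _ : Fin A => (Finset.univ : Finset Bool)) F
    rw [Fintype.piFinset_univ] at h2
    rw [← h2]
    exact Finset.prod_congr rfl fun i _ => Fintype.sum_bool _
  rw [h1, Finset.prod_div_distrib]
  congr 1
  simp [Bits]

/-- the factors of the norm of the martingale difference -/
noncomputable def cfac (a : ℤ) (n i : ℕ) : ℝ :=
  if i < n then 1 else if i = n then |Real.sin (Real.pi * a / 2 ^ (i + 1))|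
    else |Real.cos (Real.pi * a / 2 ^ (i + 1))|

theorem cfac_nonneg (a : ℤ) (n i : ℕ) : 0 ≤ cfac a n i := by
  unfold cfac
  split_ifs
  · exact zero_le_one
  · exact abs_nonneg _
  · exact abs_nonneg _

theorem cfac_le_one (a : ℤ) (n i : ℕ) : cfac a n i ≤ 1 := by
  unfold cfac
  split_ifs
  · exact le_rfl
  · exact Real.abs_sin_le_one _
  · exact Real.abs_cos_le_one _

theorem exp_eq_phi (a : ℤ) (i : ℕ) :
    Complex.exp (2 * Real.pi * Complex.I * a / 2 ^ (i + 1)) =
      Complex.exp ((2 * ((Real.pi * a / 2 ^ (i + 1) : ℝ) : ℂ)) * Complex.I) := by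
  congr 1
  push_cast
  ring

theorem norm_exp_I_real (φ : ℝ) : ‖Complex.cos φ + Complex.sin φ * Complex.I‖ = 1 := by
  rw [← Complex.exp_mul_I]
  exact Complex.norm_exp_ofReal_mul_I φ

theorem norm_sub_one (φ : ℝ) :
    ‖(Complex.exp ((2 * (φ : ℂ)) * Complex.I) - 1) / 2‖ = |Real.sin φ| := by
  have h1 : (Complex.exp ((2 * (φ : ℂ)) * Complex.I) - 1) / 2 =
      ((Real.sin φ : ℝ) : ℂ) * Complex.I * (Complex.cos φ + Complex.sin φ * Complex.I) := by
    rw [Complex.exp_mul_I, Complex.cos_two_mul, Complex.sin_two_mul, Complex.ofReal_sin]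
    have h2 := Complex.sin_sq_add_cos_sq (φ : ℂ)
    have h3 : Complex.I * Complex.I = -1 := Complex.I_mul_I
    linear_combination (-Complex.sin φ ^ 2) * h3 + h2
  rw [h1, norm_mul, norm_mul, norm_exp_I_real, Complex.norm_I, Complex.norm_real, Real.norm_eq_abs]
  ring

theorem norm_add_one (φ : ℝ) :
    ‖(Complex.exp ((2 * (φ : ℂ)) * Complex.I) + 1) / 2‖ = |Real.cos φ| := by
  have h1 : (Complex.exp ((2 * (φ : ℂ)) * Complex.I) + 1) / 2 =
      ((Real.cos φ : ℝ) : ℂ) * (Complex.cos φ + Complex.sin φ * Complex.I) := by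
    rw [Complex.exp_mul_I, Complex.cos_two_mul, Complex.sin_two_mul, Complex.ofReal_cos]
    ring
  rw [h1, norm_mul, norm_exp_I_real, Complex.norm_real, Real.norm_eq_abs, mul_one]

/-- the norm of the martingale difference of a character -/
theorem norm_DC_ch {A : ℕ} (a : ℤ) (n : Fin A) (x : Bits A) :
    ‖DC (fun x : Bits A => ch a x) n x‖ = ∏ i : Fin A, cfac a n i := by
  classical
  let E : Fin A → ℂ := fun i => Complex.exp (2 * Real.pi * Complex.I * a / 2 ^ ((i : ℕ) + 1))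
  let F : Fin A → Bool → ℂ := fun i t =>
    if i < n then (if x i then E i else 1)
    else if i = n then (sg t : ℂ) * (if t then E i else 1) else (if t then E i else 1)
  have h1 : ∀ b : Bits A, (sg (glue n x b n) : ℂ) * ch a (glue n x b) = ∏ i, F i (b i) := by
    intro b
    have hg : glue (n : ℕ) x b n = b n := by
      unfold glue
      rw [if_neg (lt_irrefl _)]
    rw [hg]
    unfold ch
    rw [← Finset.mul_prod_erase Finset.univ _ (Finset.mem_univ n),
      ← Finset.mul_prod_erase Finset.univ (fun i => F i (b i)) (Finset.mem_univ n), ← mul_assoc]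
    congr 1
    · rw [hg]
      simp only [F, lt_irrefl, if_false, if_true, E]
    · refine Finset.prod_congr rfl fun i hi => ?_
      have hin : i ≠ n := (Finset.mem_erase.mp hi).1
      simp only [F, E, if_neg hin]
      by_cases h : i < n
      · rw [if_pos h, glue_apply_lt (by exact_mod_cast h)]
      · rw [if_neg h]
        have : glue (n : ℕ) x b i = b i := by
          unfold glue
          rw [if_neg (by exact_mod_cast h)]
        rw [this]
  unfold DC
  rw [norm_mul, Complex.norm_real, Real.norm_eq_abs, abs_sg, one_mul]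
  have h2 : (fun b => (sg (glue n x b n) : ℂ) * (fun x : Bits A => ch a x) (glue n x b)) =
      fun b : Bits A => ∏ i, F i (b i) := funext h1
  rw [h2, avC_prod_bits, norm_prod]
  refine Finset.prod_congr rfl fun i _ => ?_
  unfold cfac
  by_cases h : i < n
  · rw [if_pos (by exact_mod_cast h : (i : ℕ) < n)]
    simp only [F, if_pos h]
    have h3 : ((if x i = true then E i else 1) + (if x i = true then E i else 1)) / 2 =
        (if x i = true then E i else 1 : ℂ) := by ring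
    rw [h3]
    split_ifs
    · simp only [E]
      rw [exp_eq_phi]
      have : (2 * ((Real.pi * a / 2 ^ ((i : ℕ) + 1) : ℝ) : ℂ)) * Complex.I =
          ((2 * (Real.pi * a / 2 ^ ((i : ℕ) + 1)) : ℝ) : ℂ) * Complex.I := by
        push_cast
        ring
      rw [this, Complex.norm_exp_ofReal_mul_I]
    · exact norm_one
  · rw [if_neg (by exact_mod_cast h : ¬ (i : ℕ) < n)]
    by_cases h' : i = n
    · rw [if_pos (by rw [h'])]
      simp only [F, if_neg h, if_pos h', E, sg, if_true, Bool.false_eq_true, if_false]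
      rw [exp_eq_phi, ← norm_sub_one]
      congr 1
      push_cast
      ring
    · rw [if_neg (fun h'' => h' (Fin.ext h''))]
      simp only [F, if_neg h, if_neg h', E, if_true, Bool.false_eq_true, if_false]
      rw [exp_eq_phi, ← norm_add_one]

theorem al_ch {A : ℕ} (a : ℤ) (n : Fin A) :
    al (fun x : Bits A => ch a x) n = (∏ i : Fin A, cfac a n i) ^ 2 := by
  unfold al
  rw [av_congr (fun x => by rw [norm_DC_ch]), av_const]

theorem prod_cfac_nonneg {A : ℕ} (a : ℤ) (n : Fin A) : 0 ≤ ∏ i : Fin A, cfac a n i :=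
  Finset.prod_nonneg fun i _ => cfac_nonneg a n i

theorem prod_cfac_le {A : ℕ} (a : ℤ) (n : Fin A) :
    ∏ i : Fin A, cfac a n i ≤ |Real.sin (Real.pi * a / 2 ^ ((n : ℕ) + 1))| := by
  classical
  rw [← Finset.mul_prod_erase Finset.univ _ (Finset.mem_univ n)]
  have h1 : cfac a n n = |Real.sin (Real.pi * a / 2 ^ ((n : ℕ) + 1))| := by
    unfold cfac
    rw [if_neg (lt_irrefl _), if_pos rfl]
  rw [h1]
  exact mul_le_of_le_one_right (abs_nonneg _)
    (Finset.prod_le_one (fun i _ => cfac_nonneg a n i) fun i _ => cfac_le_one a n i)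

theorem al_le_one {A : ℕ} (a : ℤ) (n : Fin A) : al (fun x : Bits A => ch a x) n ≤ 1 := by
  rw [al_ch]
  exact pow_le_one₀ (prod_cfac_nonneg a n)
    (Finset.prod_le_one (fun i _ => cfac_nonneg a n i) fun i _ => cfac_le_one a n i)

theorem al_le_hi {A : ℕ} (a : ℤ) (n : Fin A) :
    al (fun x : Bits A => ch a x) n ≤ 5 / 2 * (a : ℝ) ^ 2 / 4 ^ (n : ℕ) := by
  rw [al_ch]
  have h1 : ∏ i : Fin A, cfac a n i ≤ |Real.pi * a / 2 ^ ((n : ℕ) + 1)| :=
    (prod_cfac_le a n).trans Real.abs_sin_le_abs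
  have h2 := pow_le_pow_left₀ (prod_cfac_nonneg a n) h1 2
  refine h2.trans ?_
  rw [sq_abs]
  have hpi : Real.pi ^ 2 ≤ 10 := by
    have h3 := Real.pi_lt_d2
    have h4 := Real.pi_pos
    nlinarith
  have h5 : (2 : ℝ) ^ ((n : ℕ) + 1) ^ 1 = 2 ^ (n : ℕ) * 2 := by
    rw [pow_one, pow_succ]
  have h6 : (4 : ℝ) ^ (n : ℕ) = (2 ^ (n : ℕ)) ^ 2 := by
    rw [← pow_mul, mul_comm, pow_mul]
    norm_num
  rw [h6, pow_succ (2 : ℝ) (n : ℕ)]
  have hp : (0 : ℝ) < 2 ^ (n : ℕ) := by positivity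
  rw [div_pow, mul_pow, mul_pow, div_le_div_iff₀ (by positivity) (by positivity)]
  have h7 : 0 ≤ (a : ℝ) ^ 2 * ((2 : ℝ) ^ (n : ℕ)) ^ 2 := by positivity
  have h8 := mul_le_mul_of_nonneg_right hpi h7
  nlinarith

/-- the telescoping identity -/
theorem prod_telescope (a : ℤ) (n k : ℕ) (hk : n + 1 ≤ k) :
    (∏ i ∈ Finset.range k, cfac a n i) * |Real.sin (Real.pi * a / 2 ^ k)| * 2 ^ (k - (n + 1)) =
      |Real.sin (Real.pi * a / 2 ^ (n + 1))| ^ 2 := by
  induction k, hk using Nat.le_induction with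
  | base =>
    rw [Finset.prod_range_succ, Nat.sub_self, pow_zero, mul_one]
    have h1 : ∏ i ∈ Finset.range n, cfac a n i = 1 := by
      refine Finset.prod_eq_one fun i hi => ?_
      unfold cfac
      rw [if_pos (Finset.mem_range.mp hi)]
    have h2 : cfac a n n = |Real.sin (Real.pi * a / 2 ^ (n + 1))| := by
      unfold cfac
      rw [if_neg (lt_irrefl _), if_pos rfl]
    rw [h1, h2]
    ring
  | succ k hk ih =>
    rw [← ih, Finset.prod_range_succ]
    have h1 : cfac a n k = |Real.cos (Real.pi * a / 2 ^ (k + 1))| := by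
      unfold cfac
      rw [if_neg (by omega), if_neg (by omega)]
    have h2 : |Real.sin (Real.pi * a / 2 ^ k)| =
        2 * |Real.sin (Real.pi * a / 2 ^ (k + 1))| * |Real.cos (Real.pi * a / 2 ^ (k + 1))| := by
      have h3 : Real.pi * a / 2 ^ k = 2 * (Real.pi * a / 2 ^ (k + 1)) := by
        rw [pow_succ]
        field_simp
      rw [h3, Real.sin_two_mul, abs_mul, abs_mul, abs_two]
    have h4 : k + 1 - (n + 1) = (k - (n + 1)) + 1 := by omega
    rw [h1, h2, h4, pow_succ]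
    ring

theorem al_le_lo {A : ℕ} {a : ℤ} (h0 : a ≠ 0) (ha : 2 * |a| ≤ 2 ^ A) (n : Fin A) :
    al (fun x : Bits A => ch a x) n ≤ 4 ^ (n : ℕ) / (a : ℝ) ^ 2 := by
  rw [al_ch]
  set P := ∏ i : Fin A, cfac a n i with hP
  have hP0 : 0 ≤ P := prod_cfac_nonneg a n
  have h1 := prod_telescope a n A n.2
  rw [← Fin.prod_univ_eq_prod_range (fun i => cfac a n i) A, ← hP] at h1
  have haR : 2 * |(a : ℝ)| ≤ 2 ^ A := by exact_mod_cast ha
  have h2A : (0 : ℝ) < 2 ^ A := by positivity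
  have habs : 0 < |(a : ℝ)| := abs_pos.mpr (by exact_mod_cast h0)
  have hle : |Real.pi * a / 2 ^ A| ≤ Real.pi / 2 := by
    rw [abs_div, abs_mul, abs_of_pos Real.pi_pos, abs_of_pos h2A, div_le_div_iff₀ h2A two_pos]
    have := mul_le_mul_of_nonneg_left haR Real.pi_pos.le
    linarith
  have h3 := Real.mul_abs_le_abs_sin hle
  have h4 : 2 / Real.pi * |Real.pi * a / 2 ^ A| = 2 * |(a : ℝ)| / 2 ^ A := by
    rw [abs_div, abs_mul, abs_of_pos Real.pi_pos, abs_of_pos h2A]
    have := Real.pi_pos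
    field_simp
  rw [h4] at h3
  have h5 : P * (2 * |(a : ℝ)| / 2 ^ A) * 2 ^ (A - ((n : ℕ) + 1)) ≤ 1 := by
    calc P * (2 * |(a : ℝ)| / 2 ^ A) * 2 ^ (A - ((n : ℕ) + 1))
        ≤ P * |Real.sin (Real.pi * a / 2 ^ A)| * 2 ^ (A - ((n : ℕ) + 1)) := by gcongr
      _ = |Real.sin (Real.pi * a / 2 ^ ((n : ℕ) + 1))| ^ 2 := h1
      _ ≤ 1 := pow_le_one₀ (abs_nonneg _) (Real.abs_sin_le_one _)
  have h6 : (2 : ℝ) ^ A = 2 ^ (A - ((n : ℕ) + 1)) * (2 ^ (n : ℕ) * 2) := by
    rw [← pow_succ, ← pow_add]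
    congr 1
    have := n.2
    omega
  have h7 : P * (2 * |(a : ℝ)| / 2 ^ A) * 2 ^ (A - ((n : ℕ) + 1)) =
      P * |(a : ℝ)| / 2 ^ (n : ℕ) := by
    rw [h6]
    have : (2 : ℝ) ^ (A - ((n : ℕ) + 1)) ≠ 0 := by positivity
    have : (2 : ℝ) ^ (n : ℕ) ≠ 0 := by positivity
    field_simp
  rw [h7, div_le_one (by positivity)] at h5
  have h8 : (4 : ℝ) ^ (n : ℕ) = (2 ^ (n : ℕ)) ^ 2 := by
    rw [← pow_mul, mul_comm, pow_mul]
    norm_num
  have h9 : (0 : ℝ) < (a : ℝ) ^ 2 := by positivity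
  rw [h8, le_div_iff₀ h9, ← sq_abs (a : ℝ), ← mul_pow]
  exact pow_le_pow_left₀ (by positivity) h5 2

end Pool.Agent.Hyp
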