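import Pool.Agent.Hyp.AlCh

/-!
# Module AlSum: weighted sums of the energies of a character

**PROOF.** `α n = al (ch a) n` satisfies `0 ≤ α n ≤ 1` (`al_nonneg`, `al_le_one`),
`α n ≤ 5/2 a^2/4^n` (`al_le_hi`) and `α n ≤ 4^n / a^2` (`al_le_lo`).
* `al_sum_neg`: for `2^n ≤ |a|`: `α n / 2^n ≤ 2^n / a^2`, the sum of these is `≤ 2 |a| / a^2 = 2/|a|`
  (geometric series: the sum of the `2^n` with `2^n ≤ |a|` is `≤ 2 |a|`); for `2^n > |a|`:
  `α n / 2^n ≤ 1/2^n`, the sum of the `1/2^n` with `2^n > |a|` is `≤ 2 / |a|`.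
* `al_sum_pos`: for `2^n ≤ |a|`: `α n 2^n ≤ 2^n`, sum `≤ 2 |a|`; for `2^n > |a|`:
  `α n 2^n ≤ (5/2) a^2 / 2^n`, sum `≤ 5 |a|`.
(With `L = Nat.log 2 |a|`, `2^L ≤ |a| < 2^(L+1)`, the two cases are `n ≤ L` and `n ≥ L + 1`.)
-/

set_option autoImplicit false

namespace Pool.Agent.Hyp

open Finset

private theorem geo_low (N : ℕ) : ∑ n ∈ range N, (2 : ℝ) ^ n ≤ 2 ^ N := by
  induction N with
  | zero => simp
  | succ N ih =>
    rw [sum_range_succ, pow_succ]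
    linarith

private theorem sum_low (A L : ℕ) {u : ℝ} (hu : 0 ≤ u) :
    ∑ n ∈ range A, (if n ≤ L then u * 2 ^ n else 0) ≤ u * 2 ^ (L + 1) := by
  rw [← sum_filter]
  have h1 : (range A).filter (fun n => n ≤ L) ⊆ range (L + 1) := by
    intro n hn
    rw [mem_filter] at hn
    rw [mem_range]
    omega
  refine (sum_le_sum_of_subset_of_nonneg h1 fun n _ _ => by positivity).trans ?_
  rw [← mul_sum]
  exact mul_le_mul_of_nonneg_left (geo_low _) hu

private theorem sum_high (A L : ℕ) {v : ℝ} :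
    ∑ n ∈ range A, (if n ≤ L then 0 else v / 2 ^ n) + v / 2 ^ (max L (A - 1)) = v / 2 ^ L := by
  induction A with
  | zero => simp
  | succ A ih =>
    rw [sum_range_succ]
    by_cases h : A ≤ L
    · rw [if_pos h, add_zero]
      have e1 : max L (A - 1) = L := by omega
      have e2 : max L (A + 1 - 1) = L := by omega
      rw [e1] at ih
      rw [e2]
      exact ih
    · rw [if_neg h]
      have e1 : max L (A - 1) = A - 1 := by omega
      have e2 : max L (A + 1 - 1) = A := by omega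
      rw [e1] at ih
      rw [e2]
      have e3 : A = (A - 1) + 1 := by omega
      have e4 : v / 2 ^ A + v / 2 ^ A = v / 2 ^ (A - 1) := by
        conv_lhs => rw [e3, pow_succ]
        field_simp
        norm_num
      linarith

private theorem sum_both (A L : ℕ) {u v : ℝ} (hu : 0 ≤ u) (hv : 0 ≤ v) :
    ∑ n : Fin A, (if (n : ℕ) ≤ L then u * 2 ^ (n : ℕ) else v / 2 ^ (n : ℕ))
      ≤ u * 2 ^ (L + 1) + v / 2 ^ L := by
  rw [Fin.sum_univ_eq_sum_range (fun n => if n ≤ L then u * 2 ^ n else v / 2 ^ n)]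
  have h1 : ∀ n ∈ range A, (if n ≤ L then u * 2 ^ n else v / 2 ^ n) =
      (if n ≤ L then u * 2 ^ n else 0) + (if n ≤ L then 0 else v / 2 ^ n) := by
    intro n _
    split_ifs <;> simp
  rw [sum_congr rfl h1, sum_add_distrib]
  have h2 := sum_low A L hu
  have h3 := sum_high A L (v := v)
  have h4 : 0 ≤ v / 2 ^ (max L (A - 1)) := by positivity
  linarith

private theorem log_facts {a : ℤ} (h0 : a ≠ 0) :
    ∃ L : ℕ, (2 : ℝ) ^ L ≤ |(a : ℝ)| ∧ |(a : ℝ)| ≤ 2 ^ (L + 1) := by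
  have h1 : a.natAbs ≠ 0 := Int.natAbs_ne_zero.mpr h0
  refine ⟨Nat.log 2 a.natAbs, ?_, ?_⟩
  · have h2 := Nat.pow_log_le_self 2 h1
    have h3 : ((2 ^ Nat.log 2 a.natAbs : ℕ) : ℝ) ≤ (a.natAbs : ℝ) := by exact_mod_cast h2
    rw [Nat.cast_natAbs, Int.cast_abs] at h3
    push_cast at h3
    exact h3
  · have h2 := (Nat.lt_pow_succ_log_self (b := 2) (by norm_num) a.natAbs).le
    have h3 : (a.natAbs : ℝ) ≤ ((2 ^ (Nat.log 2 a.natAbs).succ : ℕ) : ℝ) := by exact_mod_cast h2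
    rw [Nat.cast_natAbs, Int.cast_abs] at h3
    push_cast at h3
    exact h3

theorem al_sum_neg {A : ℕ} {a : ℤ} (h0 : a ≠ 0) (ha : 2 * |a| ≤ 2 ^ A) :
    ∑ n : Fin A, al (fun x : Bits A => ch a x) n / 2 ^ (n : ℕ) ≤ 4 / |(a : ℝ)| := by
  obtain ⟨L, hL1, hL2⟩ := log_facts h0
  have hapos : 0 < |(a : ℝ)| := lt_of_lt_of_le (by positivity) hL1
  obtain ⟨b, hb⟩ : ∃ b : ℝ, b = |(a : ℝ)| := ⟨_, rfl⟩
  have hab : (a : ℝ) ^ 2 = b ^ 2 := by rw [hb, sq_abs]
  rw [← hb] at hL1 hL2 hapos ⊢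
  have hterm : ∀ n : Fin A, al (fun x : Bits A => ch a x) n / 2 ^ (n : ℕ) ≤
      (if (n : ℕ) ≤ L then 1 / b ^ 2 * 2 ^ (n : ℕ) else 1 / 2 ^ (n : ℕ)) := by
    intro n
    have hp : (0 : ℝ) < 2 ^ (n : ℕ) := by positivity
    split_ifs with h
    · rw [div_le_iff₀ hp]
      refine (al_le_lo h0 ha n).trans (le_of_eq ?_)
      rw [hab]
      have : (4 : ℝ) ^ (n : ℕ) = 2 ^ (n : ℕ) * 2 ^ (n : ℕ) := by
        rw [← mul_pow]
        norm_num
      rw [this]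
      ring
    · exact div_le_div_of_nonneg_right (al_le_one a n) hp.le
  refine (sum_le_sum fun n _ => hterm n).trans ?_
  refine (sum_both A L (by positivity) (by norm_num)).trans ?_
  have h1 : 1 / b ^ 2 * 2 ^ (L + 1) ≤ 2 / b := by
    have e : (2 : ℝ) ^ (L + 1) = 2 ^ L * 2 := pow_succ _ _
    rw [e, div_mul_eq_mul_div, one_mul, div_le_div_iff₀ (by positivity) hapos]
    nlinarith
  have h2 : 1 / (2 : ℝ) ^ L ≤ 2 / b := by
    rw [div_le_div_iff₀ (by positivity) hapos]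
    rw [pow_succ] at hL2
    linarith
  have h3 : 4 / b = 2 / b + 2 / b := by ring
  linarith

theorem al_sum_pos {A : ℕ} {a : ℤ} (h0 : a ≠ 0) :
    ∑ n : Fin A, al (fun x : Bits A => ch a x) n * 2 ^ (n : ℕ) ≤ 7 * |(a : ℝ)| := by
  obtain ⟨L, hL1, hL2⟩ := log_facts h0
  have hapos : 0 < |(a : ℝ)| := lt_of_lt_of_le (by positivity) hL1
  obtain ⟨b, hb⟩ : ∃ b : ℝ, b = |(a : ℝ)| := ⟨_, rfl⟩
  have hab : (a : ℝ) ^ 2 = b ^ 2 := by rw [hb, sq_abs]
  rw [← hb] at hL1 hL2 hapos ⊢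
  have hterm : ∀ n : Fin A, al (fun x : Bits A => ch a x) n * 2 ^ (n : ℕ) ≤
      (if (n : ℕ) ≤ L then 1 * 2 ^ (n : ℕ) else (5 / 2 * b ^ 2) / 2 ^ (n : ℕ)) := by
    intro n
    have hp : (0 : ℝ) < 2 ^ (n : ℕ) := by positivity
    split_ifs with h
    · exact mul_le_mul_of_nonneg_right (al_le_one a n) hp.le
    · refine (mul_le_mul_of_nonneg_right (al_le_hi a n) hp.le).trans (le_of_eq ?_)
      rw [hab]
      have : (4 : ℝ) ^ (n : ℕ) = 2 ^ (n : ℕ) * 2 ^ (n : ℕ) := by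
        rw [← mul_pow]
        norm_num
      rw [this]
      field_simp
  refine (sum_le_sum fun n _ => hterm n).trans ?_
  refine (sum_both A L (by norm_num) (by positivity)).trans ?_
  have h1 : 1 * (2 : ℝ) ^ (L + 1) ≤ 2 * b := by
    rw [pow_succ]
    linarith
  have h2 : (5 / 2 * b ^ 2) / 2 ^ L ≤ 5 * b := by
    rw [div_le_iff₀ (by positivity)]
    rw [pow_succ] at hL2
    nlinarith
  linarith

end Pool.Agent.Hyp
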