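import Pool.Agent.Hyp.DefR

/-!
# Module PhiB: bounds for the profile

**PROOF.** `Φ` is continuous with compact support, so bounded by some `D1`, and `Φ s = 0` for
`|s| > S`, so `|s| ‖Φ s‖ ≤ S D1`.  `deriv Φ` is continuous with compact support, so bounded by some
`D2`, and the mean value inequality (`Convex.norm_image_sub_le_of_norm_deriv_le` on `univ`, or
`HasCompactSupport`-Lipschitz lemma `ContDiff.lipschitzWith_of_hasCompactSupport`) gives
`‖Φ s - Φ 0‖ ≤ D2 |s|`.  `D = max` of the three (and `0`).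
-/

set_option autoImplicit false

namespace Pool.Agent.Hyp

theorem phi_bounds {Φ : ℝ → ℂ} (hΦ : ContDiff ℝ (⊤ : ℕ∞) Φ) (hc : HasCompactSupport Φ) :
    ∃ D : ℝ, 0 ≤ D ∧ (∀ s, 0 ≤ s → ‖Φ s‖ ≤ D) ∧ (∀ s, 0 ≤ s → s * ‖Φ s‖ ≤ D) ∧
      (∀ s, 0 ≤ s → ‖Φ s - Φ 0‖ ≤ D * s) := by
  obtain ⟨D1, hD1⟩ := hc.exists_bound_of_continuous hΦ.continuous
  have hid : Continuous fun s : ℝ => (s : ℂ) * Φ s :=
    Complex.continuous_ofReal.mul hΦ.continuous
  have hc2 : HasCompactSupport fun s : ℝ => (s : ℂ) * Φ s := hc.mul_left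
  obtain ⟨D2, hD2⟩ := hc2.exists_bound_of_continuous hid
  have hder : Continuous (deriv Φ) := hΦ.continuous_deriv (by simp)
  obtain ⟨D3, hD3⟩ := hc.deriv.exists_bound_of_continuous hder
  have hdiff : Differentiable ℝ Φ := hΦ.differentiable (by simp)
  have h1 : 0 ≤ D1 := (norm_nonneg _).trans (hD1 0)
  have h2 : 0 ≤ D2 := (norm_nonneg _).trans (hD2 0)
  have h3 : 0 ≤ D3 := (norm_nonneg _).trans (hD3 0)
  refine ⟨D1 + D2 + D3, by positivity, fun s _ => ?_, fun s hs => ?_, fun s hs => ?_⟩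
  · linarith [hD1 s]
  · have h4 := hD2 s
    rw [norm_mul, Complex.norm_real, Real.norm_eq_abs, abs_of_nonneg hs] at h4
    linarith
  · have h5 := Convex.norm_image_sub_le_of_norm_deriv_le (f := Φ) (s := Set.univ) (C := D3)
      (x := 0) (y := s) (fun x _ => hdiff x) (fun x _ => hD3 x) convex_univ
      (Set.mem_univ _) (Set.mem_univ _)
    rw [sub_zero, Real.norm_eq_abs, abs_of_nonneg hs] at h5
    nlinarith

end Pool.Agent.Hyp
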