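import Pool.Agent.Hyp.HBk
import Pool.Agent.Hyp.PhiB

/-!
# Module AllM: the maximal function over all dyadic scales

`wg ξ = log (e + log (e + |log (ξ₁² ξ₂²)|))`.

**PROOF of `bl_le`.** Let `v = ξ₁² ξ₂²`, `κ = kap ξ`, `L = |log v|` (natural logarithm).  If `v > 0`:
`2^κ ≤ v < 2^(κ+1)`, so `κ log 2 ≤ log v < (κ + 1) log 2` and `|κ| ≤ L / log 2 + 1 ≤ 2 L + 1`.  With
`l = bl ξ ≥ 1`: `2^(2^l) ≤ |κ| ≤ 2 L + 1 ≤ 2 (e + L)`, so `2^l log 2 ≤ log 2 + log (e + L)`, and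
`(2^l - 1) log 2 ≤ log (e + L)`, `2^(l-1) log 2 ≤ log (e + L)`, `(l - 1) log 2 + log log 2 ≤
log log (e + L) ≤ wg ξ`; `log log 2 ≥ -0.4`, `wg ξ ≥ 1`, so
`l + 1 ≤ 2 + (wg ξ + 0.4)/log 2 ≤ 5 wg ξ` (crude).  If `l = 0`: `1 ≤ wg ξ`.  If `v = 0`: `κ = 0`,
`l = 0`.
**PROOF of `all_main`.** `symb Φ (2^k) = rs Φ k + Φ 0 * hs k`, so by `mt_add`, `mt_smul`
`MT (symb Φ (2^k)) f = MT (rs Φ k) f + Φ 0 • MT (hs k) f` and for a.e. `x` (countably many null sets)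
`(⨆ k, ‖MT (symb Φ (2^k)) f x‖ₑ)^2 ≤ 2 (⨆ k, ‖MT (rs Φ k) f x‖ₑ)^2 + 2 ‖Φ 0‖ₑ^2 (⨆ k, ‖MT (hs k) f x‖ₑ)^2`.
`sqf`, `hb_all`, `1 ≤ bl ξ + 1 ≤ 5 wg ξ` (`bl_le`), `‖f‖ₑ^2 = ∫⁻ ‖𝓕 f‖ₑ^2` (`lp_sq`,
`lp_sq_fourier`).
-/

set_option autoImplicit false

namespace Pool.Agent.Hyp

open MeasureTheory FourierTransform ENNReal

/-- the weight -/
noncomputable def wg (ξ : E2) : ℝ :=
  Real.log (Real.exp 1 + Real.log (Real.exp 1 + |Real.log ((ξ 0) ^ 2 * (ξ 1) ^ 2)|))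

namespace AllMAux

theorem one_le_log_exp_add {t : ℝ} (ht : 0 ≤ t) : 1 ≤ Real.log (Real.exp 1 + t) := by
  have h1 : Real.log (Real.exp 1) ≤ Real.log (Real.exp 1 + t) :=
    Real.log_le_log (Real.exp_pos 1) (by linarith)
  rwa [Real.log_exp] at h1

/-- logarithms to base two -/
theorem kap_natAbs_le {v : ℝ} (hv : 0 < v) :
    ((Int.log 2 v).natAbs : ℝ) ≤ 2 * |Real.log v| + 1 := by
  have hl2 : (1 / 2 : ℝ) ≤ Real.log 2 := by linarith [Real.log_two_gt_d9]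
  have h1 : ((2 : ℕ) : ℝ) ^ (Int.log 2 v) ≤ v := Int.zpow_log_le_self (by norm_num) hv
  have h2 : v < ((2 : ℕ) : ℝ) ^ (Int.log 2 v + 1) := Int.lt_zpow_succ_log_self (by norm_num) v
  have h3 : (Int.log 2 v : ℝ) * Real.log 2 ≤ Real.log v := by
    have := Real.log_le_log (by positivity) h1
    rw [Real.log_zpow] at this
    simpa using this
  have h4 : Real.log v ≤ ((Int.log 2 v : ℝ) + 1) * Real.log 2 := by
    have := Real.log_le_log hv h2.le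
    rw [Real.log_zpow] at this
    push_cast at this
    exact this
  have h5 := le_abs_self (Real.log v)
  have h6 := neg_abs_le (Real.log v)
  have h0 := abs_nonneg (Real.log v)
  rw [Nat.cast_natAbs, Int.cast_abs, abs_le]
  constructor
  · by_contra hcon
    push Not at hcon
    have h7 : ((Int.log 2 v : ℝ) + 1) * Real.log 2 < (-(2 * |Real.log v|)) * Real.log 2 := by
      apply mul_lt_mul_of_pos_right _ (by linarith)
      linarith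
    nlinarith
  · by_contra hcon
    push Not at hcon
    have h7 : (2 * |Real.log v| + 1) * Real.log 2 < (Int.log 2 v : ℝ) * Real.log 2 :=
      mul_lt_mul_of_pos_right hcon (by linarith)
    nlinarith

theorem sb_le {k : ℤ} {L : ℝ} (hL : 0 ≤ L) (hk : (k.natAbs : ℝ) ≤ 2 * L + 1) :
    (sb k : ℝ) + 1 ≤ 5 * Real.log (Real.exp 1 + Real.log (Real.exp 1 + L)) := by
  have hA : 1 ≤ Real.log (Real.exp 1 + L) := one_le_log_exp_add hL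
  have hw : 1 ≤ Real.log (Real.exp 1 + Real.log (Real.exp 1 + L)) :=
    one_le_log_exp_add (by linarith)
  have he : (1 : ℝ) ≤ Real.exp 1 := Real.one_le_exp (by norm_num)
  have hl2 : (1 / 2 : ℝ) ≤ Real.log 2 := by linarith [Real.log_two_gt_d9]
  have hl2' : Real.log 2 ≤ 1 := by linarith [Real.log_two_lt_d9]
  rcases Nat.eq_zero_or_pos (sb k) with h0 | h0
  · rw [h0]
    push_cast
    linarith
  obtain ⟨l, hl⟩ : ∃ l, sb k = l + 1 := ⟨sb k - 1, by omega⟩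
  have hm : Nat.log 2 k.natAbs ≠ 0 := by
    intro h
    unfold sb at hl
    rw [h] at hl
    simp at hl
  have hN : k.natAbs ≠ 0 := by
    intro h
    rw [h] at hm
    simp at hm
  have h1 : 2 ^ (l + 1) ≤ Nat.log 2 k.natAbs := by
    rw [← hl]
    exact Nat.pow_log_le_self 2 hm
  have h2 : 2 ^ (Nat.log 2 k.natAbs) ≤ k.natAbs := Nat.pow_log_le_self 2 hN
  have h3 : 2 ^ (2 ^ (l + 1)) ≤ k.natAbs := (Nat.pow_le_pow_right (by norm_num) h1).trans h2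
  have h4 : (2 : ℝ) ^ (2 ^ (l + 1)) ≤ 2 * (Real.exp 1 + L) := by
    have : ((2 ^ (2 ^ (l + 1)) : ℕ) : ℝ) ≤ (k.natAbs : ℝ) := by exact_mod_cast h3
    push_cast at this
    linarith
  have h5 : (2 : ℝ) ^ (l + 1) * Real.log 2 ≤ Real.log 2 + Real.log (Real.exp 1 + L) := by
    have := Real.log_le_log (by positivity) h4
    rw [Real.log_pow, Real.log_mul (by norm_num) (by positivity)] at this
    push_cast at this
    exact this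
  have hpow : (1 : ℝ) ≤ 2 ^ l := one_le_pow₀ (by norm_num)
  have h6 : (2 : ℝ) ^ l * Real.log 2 ≤ Real.log (Real.exp 1 + L) := by
    rw [pow_succ] at h5
    nlinarith
  have h7 : (2 : ℝ) ^ l ≤ 2 * (Real.exp 1 + Real.log (Real.exp 1 + L)) := by
    nlinarith
  have h8 : (l : ℝ) * Real.log 2 ≤
      Real.log 2 + Real.log (Real.exp 1 + Real.log (Real.exp 1 + L)) := by
    have := Real.log_le_log (by positivity) h7
    rw [Real.log_pow, Real.log_mul (by norm_num) (by positivity)] at this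
    exact this
  have h9 : (l : ℝ) ≤ 1 + 2 * Real.log (Real.exp 1 + Real.log (Real.exp 1 + L)) := by
    by_contra hcon
    push Not at hcon
    have := mul_lt_mul_of_pos_right hcon (show (0 : ℝ) < Real.log 2 by linarith)
    nlinarith
  rw [hl]
  push_cast
  linarith

theorem sq_add_le (a b : ℝ≥0∞) : (a + b) ^ 2 ≤ 4 * (a ^ 2 + b ^ 2) := by
  rcases le_total a b with h | h
  · calc (a + b) ^ 2 ≤ (b + b) ^ 2 := by gcongr
      _ = 4 * b ^ 2 := by ring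
      _ ≤ 4 * (a ^ 2 + b ^ 2) := by gcongr; exact le_add_self
  · calc (a + b) ^ 2 ≤ (a + a) ^ 2 := by gcongr
      _ = 4 * a ^ 2 := by ring
      _ ≤ 4 * (a ^ 2 + b ^ 2) := by gcongr; exact le_self_add

theorem hs_measurable (k : ℤ) : Measurable (hs k) := by
  have h : MeasurableSet {ξ : E2 | kap ξ < k} :=
    kap_measurable (measurableSet_Iio (a := k))
  exact Measurable.ite h measurable_const measurable_const

theorem hs_le (k : ℤ) (ξ : E2) : ‖hs k ξ‖ ≤ 1 := by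
  unfold hs
  split_ifs <;> simp

end AllMAux

open AllMAux

theorem one_le_wg (ξ : E2) : 1 ≤ wg ξ := by
  unfold wg
  apply one_le_log_exp_add
  have := one_le_log_exp_add (abs_nonneg (Real.log ((ξ 0) ^ 2 * (ξ 1) ^ 2)))
  linarith

theorem bl_le (ξ : E2) : (bl ξ : ℝ) + 1 ≤ 5 * wg ξ := by
  unfold bl wg
  apply sb_le (abs_nonneg _)
  unfold kap
  rcases (by positivity : 0 ≤ (ξ 0) ^ 2 * (ξ 1) ^ 2).eq_or_lt with h | h
  · rw [← h]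
    simp
  · exact kap_natAbs_le h

theorem all_main {Φ : ℝ → ℂ} (hΦ : ContDiff ℝ (⊤ : ℕ∞) Φ) (hc : HasCompactSupport Φ) :
    ∃ C : ℝ, 0 ≤ C ∧ ∀ f : Lp ℂ 2 (volume : Measure E2),
      ∫⁻ x : E2, (⨆ k : ℤ, ‖MT (symb Φ (2 ^ k)) f x‖ₑ) ^ 2 ≤
        ENNReal.ofReal C * ∫⁻ ξ : E2, ENNReal.ofReal (wg ξ ^ 8) *
          ‖(𝓕 f : Lp ℂ 2 (volume : Measure E2)) ξ‖ₑ ^ 2 := by
  obtain ⟨D, hD0, h1, h2, h3⟩ := phi_bounds hΦ hc
  obtain ⟨C, hC0, hC⟩ := hb_all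
  refine ⟨4 * (6 * D ^ 2 + ‖Φ 0‖ ^ 2 * (C * 5 ^ 8)), by positivity, fun f => ?_⟩
  obtain ⟨I, hI⟩ : ∃ I : ℝ≥0∞, I = ∫⁻ ξ : E2, ENNReal.ofReal (wg ξ ^ 8) *
      ‖(𝓕 f : Lp ℂ 2 (volume : Measure E2)) ξ‖ₑ ^ 2 := ⟨_, rfl⟩
  rw [← hI]
  -- decomposition of the operators
  have hdec : ∀ k : ℤ, MT (symb Φ (2 ^ k)) f = MT (rs Φ k) f + Φ 0 • MT (hs k) f := by
    intro k
    have e1 : symb Φ (2 ^ k) = fun ξ => rs Φ k ξ + Φ 0 * hs k ξ := by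
      funext ξ
      unfold rs
      ring
    rw [← mt_smul (hs_measurable k) (hs_le k) (Φ 0) f, e1]
    have hr : ∀ ξ, ‖rs Φ k ξ‖ ≤ 2 * D + ‖Φ 0‖ := fun ξ =>
      (rs_le h1 k ξ).trans (by linarith [norm_nonneg (Φ 0)])
    have hh : ∀ ξ, ‖Φ 0 * hs k ξ‖ ≤ 2 * D + ‖Φ 0‖ := fun ξ => by
      rw [norm_mul]
      have := mul_le_mul_of_nonneg_left (hs_le k ξ) (norm_nonneg (Φ 0))
      linarith
    exact mt_add (rs_measurable hΦ.continuous k) ((hs_measurable k).const_mul (Φ 0)) hr hh f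
  have hae : ∀ᵐ x : E2, ∀ k : ℤ, MT (symb Φ (2 ^ k)) f x =
      MT (rs Φ k) f x + Φ 0 * MT (hs k) f x := by
    rw [ae_all_iff]
    intro k
    rw [hdec k]
    filter_upwards [Lp.coeFn_add (MT (rs Φ k) f) (Φ 0 • MT (hs k) f),
      Lp.coeFn_smul (Φ 0) (MT (hs k) f)] with x e1 e2
    rw [e1, Pi.add_apply, e2, Pi.smul_apply, smul_eq_mul]
  have hpt : ∀ᵐ x : E2, (⨆ k : ℤ, ‖MT (symb Φ (2 ^ k)) f x‖ₑ) ^ 2 ≤
      4 * ((⨆ k : ℤ, ‖MT (rs Φ k) f x‖ₑ) ^ 2 +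
        ‖Φ 0‖ₑ ^ 2 * (⨆ k : ℤ, ‖MT (hs k) f x‖ₑ) ^ 2) := by
    filter_upwards [hae] with x hx
    have h4 : (⨆ k : ℤ, ‖MT (symb Φ (2 ^ k)) f x‖ₑ) ≤
        (⨆ k : ℤ, ‖MT (rs Φ k) f x‖ₑ) + ‖Φ 0‖ₑ * (⨆ k : ℤ, ‖MT (hs k) f x‖ₑ) := by
      apply iSup_le
      intro k
      rw [hx k]
      refine (enorm_add_le _ _).trans ?_
      rw [enorm_mul]
      gcongr
      · exact le_iSup (fun k : ℤ => ‖MT (rs Φ k) f x‖ₑ) k
      · exact le_iSup (fun k : ℤ => ‖MT (hs k) f x‖ₑ) k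
    calc (⨆ k : ℤ, ‖MT (symb Φ (2 ^ k)) f x‖ₑ) ^ 2
        ≤ ((⨆ k : ℤ, ‖MT (rs Φ k) f x‖ₑ) + ‖Φ 0‖ₑ * (⨆ k : ℤ, ‖MT (hs k) f x‖ₑ)) ^ 2 := by
          gcongr
      _ ≤ _ := sq_add_le _ _
      _ = _ := by rw [mul_pow]
  have hmeas : Measurable fun x : E2 => (⨆ k : ℤ, ‖MT (rs Φ k) f x‖ₑ) ^ 2 := by
    apply Measurable.pow_const
    apply Measurable.iSup
    intro k
    exact (Lp.stronglyMeasurable (MT (rs Φ k) f)).enorm
  have h5 : ∫⁻ x : E2, (⨆ k : ℤ, ‖MT (symb Φ (2 ^ k)) f x‖ₑ) ^ 2 ≤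
      4 * ((∫⁻ x : E2, (⨆ k : ℤ, ‖MT (rs Φ k) f x‖ₑ) ^ 2) +
        ‖Φ 0‖ₑ ^ 2 * ∫⁻ x : E2, (⨆ k : ℤ, ‖MT (hs k) f x‖ₑ) ^ 2) := by
    refine (lintegral_mono_ae hpt).trans_eq ?_
    rw [lintegral_const_mul' _ _ (by simp), lintegral_add_left hmeas,
      lintegral_const_mul' _ _ (by simp)]
  have h6 : ∫⁻ x : E2, (⨆ k : ℤ, ‖MT (rs Φ k) f x‖ₑ) ^ 2 ≤ ENNReal.ofReal (6 * D ^ 2) * I := by
    refine (sqf hΦ.continuous h1 h2 h3 f).trans ?_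
    gcongr
    rw [lp_sq, lp_sq_fourier, hI]
    apply lintegral_mono
    intro ξ
    have : (1 : ℝ≥0∞) ≤ ENNReal.ofReal (wg ξ ^ 8) := by
      rw [← ENNReal.ofReal_one]
      exact ENNReal.ofReal_le_ofReal (one_le_pow₀ (one_le_wg ξ))
    calc ‖(𝓕 f : Lp ℂ 2 (volume : Measure E2)) ξ‖ₑ ^ 2
        = 1 * ‖(𝓕 f : Lp ℂ 2 (volume : Measure E2)) ξ‖ₑ ^ 2 := by rw [one_mul]
      _ ≤ ENNReal.ofReal (wg ξ ^ 8) * ‖(𝓕 f : Lp ℂ 2 (volume : Measure E2)) ξ‖ₑ ^ 2 := by gcongr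
  have h7 : ∫⁻ x : E2, (⨆ k : ℤ, ‖MT (hs k) f x‖ₑ) ^ 2 ≤
      ENNReal.ofReal (C * 5 ^ 8) * I := by
    refine (hC f).trans ?_
    rw [ENNReal.ofReal_mul hC0, mul_assoc]
    gcongr
    rw [hI, ← lintegral_const_mul' _ _ (by simp)]
    apply lintegral_mono
    intro ξ
    have h8 : ((bl ξ : ℝ≥0∞) + 1) ^ 8 ≤ ENNReal.ofReal (5 ^ 8) * ENNReal.ofReal (wg ξ ^ 8) := by
      rw [← ENNReal.ofReal_mul (by positivity), ← mul_pow,
        ENNReal.ofReal_pow (by linarith [one_le_wg ξ])]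
      gcongr
      have e : ((bl ξ : ℝ≥0∞) + 1) = ENNReal.ofReal ((bl ξ : ℝ) + 1) := by
        rw [ENNReal.ofReal_add (by positivity) (by norm_num), ENNReal.ofReal_natCast,
          ENNReal.ofReal_one]
      rw [e]
      exact ENNReal.ofReal_le_ofReal (bl_le ξ)
    show ((bl ξ : ℝ≥0∞) + 1) ^ 8 * ‖(𝓕 f : Lp ℂ 2 (volume : Measure E2)) ξ‖ₑ ^ 2 ≤
      ENNReal.ofReal (5 ^ 8) * (ENNReal.ofReal (wg ξ ^ 8) *
        ‖(𝓕 f : Lp ℂ 2 (volume : Measure E2)) ξ‖ₑ ^ 2)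
    rw [← mul_assoc]
    gcongr
  refine h5.trans ?_
  have e9 : ENNReal.ofReal (4 * (6 * D ^ 2 + ‖Φ 0‖ ^ 2 * (C * 5 ^ 8))) * I =
      4 * (ENNReal.ofReal (6 * D ^ 2) * I + ‖Φ 0‖ₑ ^ 2 * (ENNReal.ofReal (C * 5 ^ 8) * I)) := by
    rw [ENNReal.ofReal_mul (by norm_num), ENNReal.ofReal_add (by positivity) (by positivity),
      ENNReal.ofReal_mul (p := ‖Φ 0‖ ^ 2) (by positivity), ENNReal.ofReal_pow (norm_nonneg _),
      ofReal_norm]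
    have : ENNReal.ofReal 4 = 4 := by
      rw [show (4 : ℝ) = ((4 : ℕ) : ℝ) by norm_num, ENNReal.ofReal_natCast]
      rfl
    rw [this]
    ring
  rw [e9]
  gcongr

end Pool.Agent.Hyp
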