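import Pool.Agent.Hyp.Mom2

/-!
# Module Apriori: the a priori bound

**PROOF.** `TT c K x y ^8 ≤ ∑ k ∈ K, SS c 0 k x y ^8` (`TT_le`-type argument: `exists_TT` if `K` is
nonempty; both sides `0` if `K = ∅`).  `SS c 0 k = FF (rc c 0 k)` (`SS_eq_FF`), so `fmom` (`q = 4`):
`av2 (SS^8) = av2 ((FF^2)^4) ≤ (16 * 4^4)^4 av2 (VV (rc c 0 k)^4) ≤ (4096)^4 av2 (VV c ^4)`
(`VW_eq_VV`, `VW_le_VV`) `≤ 4096^4 (32 * 16)^4 av2 w = 2^84 av2 w` (`Mom`, `p = 4`).
-/

set_option autoImplicit false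

namespace Pool.Agent.Hyp

open Finset

theorem Apriori_one {A : ℕ} {c : Coef A} (hc : AdC c) {w : Bits A → Bits A → ℝ}
    (hM : Mom c w) (k : ℕ) :
    av2 (fun x y => SS c 0 k x y ^ 8) ≤ 2 ^ 84 * av2 w := by
  have h1 := fmom (rc_adc hc 0 k) 4
  have h2 : av2 (fun x y => SS c 0 k x y ^ 8) = av2 (fun x y => (FF (rc c 0 k) x y ^ 2) ^ 4) := by
    refine av2_congr fun x y => ?_
    rw [SS_eq_FF]
    ring
  have h3 : av2 (fun x y => VV (rc c 0 k) x y ^ 4) ≤ av2 (fun x y => VV c x y ^ 4) := by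
    refine av2_mono fun x y => ?_
    rw [← VW_eq_VV]
    exact pow_le_pow_left₀ (VW_nonneg c 0 k x y) (VW_le_VV c 0 k x y) 4
  have h4 := hM 4 (by norm_num)
  rw [h2]
  refine h1.trans ?_
  have h5 : (0 : ℝ) ≤ (16 * ((4 : ℕ) : ℝ) ^ 4) ^ 4 := by positivity
  refine (mul_le_mul_of_nonneg_left (h3.trans h4) h5).trans ?_
  refine le_of_eq ?_
  norm_num
  ring

theorem apriori {A : ℕ} {c : Coef A} (hc : AdC c) {w : Bits A → Bits A → ℝ} (hw : Ind w)
    (hM : Mom c w) (K : Finset ℕ) :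
    av2 (fun x y => TT c K x y ^ 8) ≤ K.card * 2 ^ 84 * av2 w := by
  have h1 : ∀ x y, TT c K x y ^ 8 ≤ ∑ k ∈ K, SS c 0 k x y ^ 8 := by
    intro x y
    rcases K.eq_empty_or_nonempty with rfl | hK
    · rw [TT_empty]
      simp
    · obtain ⟨k, hk, hk'⟩ := exists_TT c hK x y
      rw [hk', Even.pow_abs (by decide)]
      exact Finset.single_le_sum (f := fun k => SS c 0 k x y ^ 8)
        (fun i _ => Even.pow_nonneg (by decide) _) hk
  refine (av2_mono h1).trans ?_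
  rw [av2_sum K (fun k x y => SS c 0 k x y ^ 8)]
  refine (Finset.sum_le_sum fun k _ => Apriori_one hc hM k).trans ?_
  rw [Finset.sum_const, nsmul_eq_mul]
  exact le_of_eq (by ring)

end Pool.Agent.Hyp
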