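import Pool.Agent.Hyp.Tail2

/-!
# Module BadM: measure of the bad set of the fixed windows

**PROOF.** Union bound: the indicator function of `Bad2 c K ρ` is at most the sum over
`k' ∈ insert 0 K` and `k ∈ K` of the indicator functions of
`1 ≤ |SS c k' k x y| ∧ VW c k' k x y ≤ ρ^2`; `tail2` for each of the at most
`(K.card + 1) * K.card` pairs (`Finset.card_insert_le`); `av2_sum`.
-/

set_option autoImplicit false

namespace Pool.Agent.Hyp

open Finset Classical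

theorem bad2_le {A : ℕ} {c : Coef A} (hc : AdC c) {w : Bits A → Bits A → ℝ} (hw : Ind w)
    (hs : Sup c w) (K : Finset ℕ) {ρ : ℝ} (hρ : 0 < ρ) :
    av2 (fun x y => if Bad2 c K ρ x y then (1 : ℝ) else 0) ≤
      ((K.card : ℝ) + 1) * K.card * (4 * Real.exp (-(1 / (2 * ρ)))) * av2 w := by
  have h1 : av2 (fun x y => if Bad2 c K ρ x y then (1 : ℝ) else 0) ≤
      av2 (fun x y => ∑ k' ∈ insert 0 K, ∑ k ∈ K,
        if 1 ≤ |SS c k' k x y| ∧ VW c k' k x y ≤ ρ ^ 2 then (1 : ℝ) else 0) := by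
    refine av2_mono fun x y => ?_
    have h0 : ∀ k' k : ℕ, (0 : ℝ) ≤
        (if 1 ≤ |SS c k' k x y| ∧ VW c k' k x y ≤ ρ ^ 2 then (1 : ℝ) else 0) := fun k' k => by
      split_ifs <;> norm_num
    by_cases h : Bad2 c K ρ x y
    · rw [if_pos h]
      obtain ⟨k', hk', k, hk, h2⟩ := h
      have h3 : (1 : ℝ) = (if 1 ≤ |SS c k' k x y| ∧ VW c k' k x y ≤ ρ ^ 2 then (1 : ℝ) else 0) :=
        (if_pos h2).symm
      calc (1 : ℝ) = (if 1 ≤ |SS c k' k x y| ∧ VW c k' k x y ≤ ρ ^ 2 then (1 : ℝ) else 0) := h3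
        _ ≤ ∑ k ∈ K, (if 1 ≤ |SS c k' k x y| ∧ VW c k' k x y ≤ ρ ^ 2 then (1 : ℝ) else 0) :=
          single_le_sum (f := fun k => if 1 ≤ |SS c k' k x y| ∧ VW c k' k x y ≤ ρ ^ 2 then
            (1 : ℝ) else 0) (fun k _ => h0 k' k) hk
        _ ≤ _ := single_le_sum (f := fun k' => ∑ k ∈ K,
            if 1 ≤ |SS c k' k x y| ∧ VW c k' k x y ≤ ρ ^ 2 then (1 : ℝ) else 0)
            (fun k' _ => sum_nonneg fun k _ => h0 k' k) hk'
    · rw [if_neg h]
      exact sum_nonneg fun k' _ => sum_nonneg fun k _ => h0 k' k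
  refine h1.trans ?_
  rw [av2_sum]
  have hB : 0 ≤ 4 * Real.exp (-(1 / (2 * ρ))) * av2 w := by
    refine mul_nonneg (by positivity) (av2_nonneg fun x y => ?_)
    rcases hw x y with h | h <;> rw [h]
    exact zero_le_one
  have h2 : ∀ k' ∈ insert 0 K, av2 (fun x y => ∑ k ∈ K,
        if 1 ≤ |SS c k' k x y| ∧ VW c k' k x y ≤ ρ ^ 2 then (1 : ℝ) else 0) ≤
      K.card * (4 * Real.exp (-(1 / (2 * ρ))) * av2 w) := by
    intro k' _
    rw [av2_sum]
    have h3 : ∀ k ∈ K, av2 (fun x y =>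
        if 1 ≤ |SS c k' k x y| ∧ VW c k' k x y ≤ ρ ^ 2 then (1 : ℝ) else 0) ≤
      4 * Real.exp (-(1 / (2 * ρ))) * av2 w := fun k _ => by
      convert tail2 hc hw hs k' k hρ
    refine (sum_le_card_nsmul _ _ _ h3).trans ?_
    rw [nsmul_eq_mul]
  refine (sum_le_card_nsmul _ _ _ h2).trans ?_
  rw [nsmul_eq_mul]
  have h4 : ((insert 0 K).card : ℝ) ≤ (K.card : ℝ) + 1 := by
    exact_mod_cast card_insert_le 0 K
  have h5 : 0 ≤ (K.card : ℝ) * (4 * Real.exp (-(1 / (2 * ρ))) * av2 w) :=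
    mul_nonneg (by positivity) hB
  calc ((insert 0 K).card : ℝ) * ((K.card : ℝ) * (4 * Real.exp (-(1 / (2 * ρ))) * av2 w))
      ≤ ((K.card : ℝ) + 1) * ((K.card : ℝ) * (4 * Real.exp (-(1 / (2 * ρ))) * av2 w)) :=
        mul_le_mul_of_nonneg_right h4 h5
    _ = _ := by ring

end Pool.Agent.Hyp
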