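import Mathlib

/-!
# The hyperbolic cross maximal operator: the finite dyadic model, one parameter

Strings of `A` bits with the uniform measure.  `av` is the average, `ce n f` the conditional
average given the first `n` bits, `Adp n h` says that `h` depends only on the first `n` bits.
-/

set_option autoImplicit false

namespace Pool.Agent.Hyp

open Finset

/-- average over a finite type -/
noncomputable def av {α : Type} [Fintype α] (f : α → ℝ) : ℝ := (∑ x, f x) / (Fintype.card α : ℝ)

/-- strings of `A` bits -/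
abbrev Bits (A : ℕ) := Fin A → Bool

/-- the first `n` bits of `x`, the other bits of `b` -/
def glue {A : ℕ} (n : ℕ) (x b : Bits A) : Bits A := fun i => if (i : ℕ) < n then x i else b i

/-- the sign of a bit -/
noncomputable def sg (b : Bool) : ℝ := if b then 1 else -1

/-- `h` depends only on the first `n` bits -/
def Adp {A : ℕ} {β : Type} (n : ℕ) (h : Bits A → β) : Prop := ∀ x b, h (glue n x b) = h x

/-- conditional average given the first `n` bits -/
noncomputable def ce {A : ℕ} (n : ℕ) (f : Bits A → ℝ) (x : Bits A) : ℝ :=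
  av fun b => f (glue n x b)

/-! ## averages -/

section av

variable {α β : Type} [Fintype α] [Fintype β]

theorem av_add (f g : α → ℝ) : av (fun x => f x + g x) = av f + av g := by
  unfold av
  rw [Finset.sum_add_distrib, add_div]

theorem av_sub (f g : α → ℝ) : av (fun x => f x - g x) = av f - av g := by
  unfold av
  rw [Finset.sum_sub_distrib, sub_div]

theorem av_const_mul (c : ℝ) (f : α → ℝ) : av (fun x => c * f x) = c * av f := by
  unfold av
  rw [← Finset.mul_sum, mul_div_assoc]

theorem av_mul_const (c : ℝ) (f : α → ℝ) : av (fun x => f x * c) = av f * c := by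
  unfold av
  rw [← Finset.sum_mul]
  ring

theorem av_div_const (c : ℝ) (f : α → ℝ) : av (fun x => f x / c) = av f / c := by
  simp only [div_eq_mul_inv]
  exact av_mul_const c⁻¹ f

theorem av_neg (f : α → ℝ) : av (fun x => - f x) = - av f := by
  unfold av
  rw [Finset.sum_neg_distrib, neg_div]

theorem av_sum {ι : Type} (s : Finset ι) (f : ι → α → ℝ) :
    av (fun x => ∑ i ∈ s, f i x) = ∑ i ∈ s, av (f i) := by
  unfold av
  rw [Finset.sum_comm, Finset.sum_div]

theorem av_mono {f g : α → ℝ} (h : ∀ x, f x ≤ g x) : av f ≤ av g := by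
  unfold av
  exact div_le_div_of_nonneg_right (Finset.sum_le_sum fun x _ => h x) (Nat.cast_nonneg _)

theorem av_nonneg {f : α → ℝ} (h : ∀ x, 0 ≤ f x) : 0 ≤ av f := by
  unfold av
  exact div_nonneg (Finset.sum_nonneg fun x _ => h x) (Nat.cast_nonneg _)

theorem av_congr {f g : α → ℝ} (h : ∀ x, f x = g x) : av f = av g := by
  have : f = g := funext h
  rw [this]

theorem av_const [Nonempty α] (c : ℝ) : av (fun _ : α => c) = c := by
  unfold av
  rw [Finset.sum_const, Finset.card_univ, nsmul_eq_mul]
  have : (Fintype.card α : ℝ) ≠ 0 := by exact_mod_cast Fintype.card_ne_zero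
  field_simp

theorem av_zero : av (fun _ : α => (0 : ℝ)) = 0 := by
  unfold av
  simp

theorem av_comm (f : α → β → ℝ) :
    av (fun x => av fun y => f x y) = av (fun y => av fun x => f x y) := by
  unfold av
  rw [← Finset.sum_div, ← Finset.sum_div, Finset.sum_comm]
  ring

theorem av_prod (f : α × β → ℝ) : av f = av (fun x => av fun y => f (x, y)) := by
  unfold av
  rw [Fintype.sum_prod_type, ← Finset.sum_div, Fintype.card_prod]
  push_cast
  rw [div_div, mul_comm]

theorem abs_av_le (f : α → ℝ) : |av f| ≤ av fun x => |f x| := by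
  unfold av
  rw [abs_div, abs_of_nonneg (Nat.cast_nonneg (Fintype.card α) : (0 : ℝ) ≤ _)]
  exact div_le_div_of_nonneg_right (Finset.abs_sum_le_sum_abs _ _) (Nat.cast_nonneg _)

theorem av_equiv (e : α ≃ β) (f : β → ℝ) : av (fun x => f (e x)) = av f := by
  unfold av
  rw [Equiv.sum_comp e f, Fintype.card_congr e]

/-- Jensen: powers of averages -/
theorem av_pow_le (f : α → ℝ) (hf : ∀ x, 0 ≤ f x) (p : ℕ) :
    av f ^ (p + 1) ≤ av fun x => f x ^ (p + 1) := by
  unfold av
  by_cases h0 : Fintype.card α = 0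
  · rw [h0]
    simp
  · have hpos : (0 : ℝ) < Fintype.card α := by exact_mod_cast Nat.pos_of_ne_zero h0
    have h := pow_sum_div_card_le_sum_pow (s := (Finset.univ : Finset α)) (f := f)
      (fun x _ => hf x) p
    rw [Finset.card_univ] at h
    rw [div_pow]
    rw [div_le_iff₀ (by positivity)] at h ⊢
    calc (∑ x, f x) ^ (p + 1) ≤ (∑ x, f x ^ (p + 1)) * (Fintype.card α : ℝ) ^ p := h
      _ = (∑ x, f x ^ (p + 1)) / (Fintype.card α : ℝ) * (Fintype.card α : ℝ) ^ (p + 1) := by
          rw [pow_succ]
          field_simp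

end av

/-! ## gluing -/

section glue

variable {A : ℕ}

theorem glue_glue_le {n m : ℕ} (h : n ≤ m) (x b b' : Bits A) :
    glue n (glue m x b) b' = glue n x b' := by
  funext i
  unfold glue
  split_ifs with h1 h2
  · rfl
  · omega
  · rfl

theorem glue_glue_ge {n m : ℕ} (h : n ≤ m) (x b b' : Bits A) :
    glue m (glue n x b) b' = glue n x (glue m b b') := by
  funext i
  unfold glue
  split_ifs with h1 h2 h3
  · rfl
  · rfl
  · omega
  · rfl

theorem glue_self (n : ℕ) (x : Bits A) : glue n x x = x := by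
  funext i
  unfold glue
  simp

theorem glue_of_ge {n : ℕ} (h : A ≤ n) (x b : Bits A) : glue n x b = x := by
  funext i
  unfold glue
  rw [if_pos (lt_of_lt_of_le i.2 h)]

theorem glue_apply_lt {n : ℕ} {i : Fin A} (h : (i : ℕ) < n) (x b : Bits A) :
    glue n x b i = x i := by
  unfold glue
  rw [if_pos h]

theorem Adp.mono {β : Type} {n m : ℕ} (h : n ≤ m) {f : Bits A → β} (hf : Adp n f) : Adp m f := by
  intro x b
  rw [← hf (glue m x b) x, glue_glue_le h, hf]

theorem adp_of_ge {β : Type} {n : ℕ} (h : A ≤ n) (f : Bits A → β) : Adp n f := by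
  intro x b
  rw [glue_of_ge h]

theorem adp_const {β : Type} (n : ℕ) (c : β) : Adp n (fun _ : Bits A => c) := fun _ _ => rfl

theorem adp_bit {n : ℕ} {i : Fin A} (h : (i : ℕ) < n) : Adp n (fun x : Bits A => x i) :=
  fun x b => glue_apply_lt h x b

theorem Adp.comp {β γ : Type} {n : ℕ} {f : Bits A → β} (hf : Adp n f) (g : β → γ) :
    Adp n (fun x => g (f x)) := fun x b => by simp only [hf x b]

theorem Adp.comp2 {β γ δ : Type} {n : ℕ} {f : Bits A → β} {f' : Bits A → γ} (hf : Adp n f)
    (hf' : Adp n f') (g : β → γ → δ) : Adp n (fun x => g (f x) (f' x)) :=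
  fun x b => by simp only [hf x b, hf' x b]

theorem Adp.sum {ι : Type} {n : ℕ} (s : Finset ι) {f : ι → Bits A → ℝ}
    (hf : ∀ i ∈ s, Adp n (f i)) : Adp n (fun x => ∑ i ∈ s, f i x) :=
  fun x b => Finset.sum_congr rfl fun i hi => hf i hi x b

/-- the average over glued strings: `(x, b) ↦ glue n x b` pushes the product measure to the
uniform measure -/
theorem av_glue (n : ℕ) (f : Bits A → ℝ) : av (fun x => av fun b => f (glue n x b)) = av f := by
  -- the involution `(x, b) ↦ (glue n x b, glue n b x)`
  let e : Bits A × Bits A ≃ Bits A × Bits A :=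
    { toFun := fun p => (glue n p.1 p.2, glue n p.2 p.1)
      invFun := fun p => (glue n p.1 p.2, glue n p.2 p.1)
      left_inv := by
        intro p
        ext i
        · simp only [glue]; split_ifs <;> rfl
        · simp only [glue]; split_ifs <;> rfl
      right_inv := by
        intro p
        ext i
        · simp only [glue]; split_ifs <;> rfl
        · simp only [glue]; split_ifs <;> rfl }
  have h1 : av (fun x => av fun b => f (glue n x b)) = av (fun p : Bits A × Bits A => f (e p).1) :=
    (av_prod (fun p : Bits A × Bits A => f (e p).1)).symm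
  rw [h1, av_equiv e (fun p => f p.1), av_prod]
  simp only [av_const]

end glue

/-! ## conditional averages -/

section ce

variable {A : ℕ}

theorem ce_adp (n : ℕ) (f : Bits A → ℝ) : Adp n (ce n f) := by
  intro x b
  unfold ce
  simp only [glue_glue_le (le_refl n)]

theorem av_ce (n : ℕ) (f : Bits A → ℝ) : av (ce n f) = av f := av_glue n f

theorem ce_mul_adp {n : ℕ} {h : Bits A → ℝ} (hh : Adp n h) (f : Bits A → ℝ) (x : Bits A) :
    ce n (fun x => h x * f x) x = h x * ce n f x := by
  unfold ce
  rw [← av_const_mul]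
  exact av_congr fun b => by simp only [hh x b]

theorem av_mul_ce {n : ℕ} {h : Bits A → ℝ} (hh : Adp n h) (f : Bits A → ℝ) :
    av (fun x => h x * ce n f x) = av (fun x => h x * f x) := by
  rw [← av_ce n (fun x => h x * f x)]
  exact av_congr fun x => (ce_mul_adp hh f x).symm

theorem ce_of_adp {n : ℕ} {f : Bits A → ℝ} (hf : Adp n f) (x : Bits A) : ce n f x = f x := by
  unfold ce
  rw [av_congr (fun b => hf x b), av_const]

theorem ce_of_ge {n : ℕ} (h : A ≤ n) (f : Bits A → ℝ) (x : Bits A) : ce n f x = f x :=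
  ce_of_adp (adp_of_ge h f) x

theorem ce_mono {n : ℕ} {f g : Bits A → ℝ} (h : ∀ x, f x ≤ g x) (x : Bits A) :
    ce n f x ≤ ce n g x := av_mono fun _ => h _

theorem ce_nonneg {n : ℕ} {f : Bits A → ℝ} (h : ∀ x, 0 ≤ f x) (x : Bits A) : 0 ≤ ce n f x :=
  av_nonneg fun _ => h _

theorem ce_add (n : ℕ) (f g : Bits A → ℝ) (x : Bits A) :
    ce n (fun x => f x + g x) x = ce n f x + ce n g x := av_add _ _

theorem ce_sub (n : ℕ) (f g : Bits A → ℝ) (x : Bits A) :
    ce n (fun x => f x - g x) x = ce n f x - ce n g x := av_sub _ _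

theorem ce_const_mul (n : ℕ) (c : ℝ) (f : Bits A → ℝ) (x : Bits A) :
    ce n (fun x => c * f x) x = c * ce n f x := av_const_mul c _

theorem ce_sum {ι : Type} (n : ℕ) (s : Finset ι) (f : ι → Bits A → ℝ) (x : Bits A) :
    ce n (fun x => ∑ i ∈ s, f i x) x = ∑ i ∈ s, ce n (f i) x := av_sum s _

theorem abs_ce_le (n : ℕ) (f : Bits A → ℝ) (x : Bits A) : |ce n f x| ≤ ce n (fun x => |f x|) x :=
  abs_av_le _

/-- tower property -/
theorem ce_ce (n m : ℕ) (f : Bits A → ℝ) (x : Bits A) :
    ce n (ce m f) x = ce (min n m) f x := by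
  rcases le_total m n with h | h
  · rw [min_eq_right h]
    exact ce_of_adp (Adp.mono h (ce_adp m f)) x
  · rw [min_eq_left h]
    unfold ce
    simp only [glue_glue_ge h]
    exact av_glue m (fun b => f (glue n x b))

theorem ce_pow_le (n : ℕ) {f : Bits A → ℝ} (hf : ∀ x, 0 ≤ f x) (p : ℕ) (x : Bits A) :
    ce n f x ^ (p + 1) ≤ ce n (fun x => f x ^ (p + 1)) x := av_pow_le _ (fun _ => hf _) p

/-- flipping the bit `n` -/
theorem av_sg (n : Fin A) (Φ : Bits A → ℝ → ℝ) (hΦ : ∀ s, Adp n (fun x => Φ x s)) :
    av (fun x => Φ x (sg (x n))) = av (fun x => (Φ x 1 + Φ x (-1)) / 2) := by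
  let e : Bits A ≃ Bits A :=
    { toFun := fun x => Function.update x n (!(x n))
      invFun := fun x => Function.update x n (!(x n))
      left_inv := by intro x; simp
      right_inv := by intro x; simp }
  have he : ∀ x s, Φ (e x) s = Φ x s := by
    intro x s
    have h1 : glue n x (e x) = e x := by
      funext i
      simp only [glue, e, Equiv.coe_fn_mk]
      split_ifs with h
      · rw [Function.update_of_ne]
        rintro rfl
        omega
      · rfl
    have := hΦ s x (e x)
    rw [h1] at this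
    exact this
  have hs : ∀ x, sg ((e x) n) = - sg (x n) := by
    intro x
    simp only [e, Equiv.coe_fn_mk, Function.update_self, sg]
    cases x n <;> simp
  have h2 : av (fun x => Φ x (sg (x n))) = av (fun x => Φ x (- sg (x n))) := by
    rw [← av_equiv e (fun x => Φ x (sg (x n)))]
    exact av_congr fun x => by simp only [he, hs]
  have h3 : av (fun x => Φ x (sg (x n))) =
      av (fun x => (Φ x (sg (x n)) + Φ x (- sg (x n))) / 2) := by
    rw [av_div_const, av_add, ← h2]
    ring
  rw [h3]
  refine av_congr fun x => ?_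
  unfold sg
  cases x n
  · simp [add_comm]
  · simp

theorem sg_sq (b : Bool) : sg b ^ 2 = 1 := by
  unfold sg
  cases b <;> simp

theorem abs_sg (b : Bool) : |sg b| = 1 := by
  unfold sg
  cases b <;> simp

theorem av_sg_mul (n : Fin A) {h : Bits A → ℝ} (hh : Adp n h) :
    av (fun x => sg (x n) * h x) = 0 := by
  rw [av_sg n (fun x s => s * h x) (fun s x b => by simp only [hh x b])]
  rw [av_congr (g := fun _ => 0) (fun x => by ring), av_zero]

/-- the conditional average of a martingale difference vanishes -/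
theorem ce_sg_mul {m : ℕ} (n : Fin A) (hm : m ≤ n) {h : Bits A → ℝ} (hh : Adp n h) (x : Bits A) :
    ce m (fun x => sg (x n) * h x) x = 0 := by
  unfold ce
  have h1 : ∀ b : Bits A, glue m x b n = b n := by
    intro b
    unfold glue
    rw [if_neg (by omega)]
  simp only [h1]
  refine av_sg_mul n (h := fun b => h (glue m x b)) ?_
  intro b b'
  have h2 : glue m x (glue n b b') = glue n (glue m x b) b' := (glue_glue_ge hm x b b').symm
  simp only [h2]
  exact hh _ _

/-- a martingale difference is not changed by `ce m`, `n < m` -/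
theorem ce_sg_mul_of_lt {m : ℕ} (n : Fin A) (hm : (n : ℕ) < m) {h : Bits A → ℝ} (hh : Adp n h)
    (x : Bits A) : ce m (fun x => sg (x n) * h x) x = sg (x n) * h x := by
  refine ce_of_adp ?_ x
  intro x b
  simp only [glue_apply_lt hm, Adp.mono hm.le hh x b]

end ce

/-! ## elementary inequalities -/

/-- Young's inequality for natural exponents -/
theorem young_nat (p : ℕ) {u v : ℝ} (hu : 0 ≤ u) (hv : 0 ≤ v) :
    (p + 1) * (u * v ^ p) ≤ u ^ (p + 1) + p * v ^ (p + 1) := by
  induction p with
  | zero => simp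
  | succ p ih =>
    -- `(p+2) u v^(p+1) ≤ u^(p+2) + (p+1) v^(p+2)`
    have h1 : 0 ≤ (u - v) * (u ^ (p + 1) - v ^ (p + 1)) := by
      rcases le_total u v with h | h
      · have := pow_le_pow_left₀ hu h (p + 1)
        nlinarith
      · have := pow_le_pow_left₀ hv h (p + 1)
        nlinarith
    have h2 := mul_le_mul_of_nonneg_right ih hv
    push_cast
    have e1 : (u - v) * (u ^ (p + 1) - v ^ (p + 1)) =
        u ^ (p + 1 + 1) - u * v ^ (p + 1) - v * u ^ (p + 1) + v ^ (p + 1 + 1) := by ring
    have e2 : ((p : ℝ) + 1) * (u * v ^ p) * v = ((p : ℝ) + 1) * (u * v ^ (p + 1)) := by ring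
    have e3 : (u ^ (p + 1) + (p : ℝ) * v ^ (p + 1)) * v =
        v * u ^ (p + 1) + p * v ^ (p + 1 + 1) := by ring
    rw [e1] at h1
    rw [e2, e3] at h2
    linarith

/-- closing argument: `E b^(p+1) ≤ E u b^p` implies `E b^(p+1) ≤ E u^(p+1)` -/
theorem close_le {α : Type} [Fintype α] (p : ℕ) {u b : α → ℝ} (hu : ∀ x, 0 ≤ u x)
    (hb : ∀ x, 0 ≤ b x) (h : av (fun x => b x ^ (p + 1)) ≤ av (fun x => u x * b x ^ p)) :
    av (fun x => b x ^ (p + 1)) ≤ av (fun x => u x ^ (p + 1)) := by
  have h1 : (p + 1 : ℝ) * av (fun x => u x * b x ^ p) ≤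
      av (fun x => u x ^ (p + 1)) + p * av (fun x => b x ^ (p + 1)) := by
    rw [← av_const_mul, ← av_const_mul, ← av_add]
    exact av_mono fun x => young_nat p (hu x) (hb x)
  have h2 : (p + 1 : ℝ) * av (fun x => b x ^ (p + 1)) ≤
      (p + 1 : ℝ) * av (fun x => u x * b x ^ p) :=
    mul_le_mul_of_nonneg_left h (by positivity)
  linarith

/-- Hölder's inequality in the form in which it is used -/
theorem holder_le {α : Type} [Fintype α] (p : ℕ) {u b : α → ℝ} (hu : ∀ x, 0 ≤ u x)
    (hb : ∀ x, 0 ≤ b x) {s t W : ℝ} (hs : 0 < s) (ht : 0 < t)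
    (h1 : av (fun x => u x ^ (p + 1)) ≤ s ^ (p + 1) * W)
    (h2 : av (fun x => b x ^ (p + 1)) ≤ t ^ (p + 1) * W) :
    av (fun x => u x * b x ^ p) ≤ s * t ^ p * W := by
  have h3 : (p + 1 : ℝ) * av (fun x => (u x / s) * (b x / t) ^ p) ≤
      av (fun x => (u x / s) ^ (p + 1)) + p * av (fun x => (b x / t) ^ (p + 1)) := by
    rw [← av_const_mul, ← av_const_mul, ← av_add]
    exact av_mono fun x => young_nat p (div_nonneg (hu x) hs.le) (div_nonneg (hb x) ht.le)
  have e1 : av (fun x => (u x / s) ^ (p + 1)) = av (fun x => u x ^ (p + 1)) / s ^ (p + 1) := by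
    rw [← av_div_const]
    exact av_congr fun x => by rw [div_pow]
  have e2 : av (fun x => (b x / t) ^ (p + 1)) = av (fun x => b x ^ (p + 1)) / t ^ (p + 1) := by
    rw [← av_div_const]
    exact av_congr fun x => by rw [div_pow]
  have e3 : av (fun x => (u x / s) * (b x / t) ^ p) = av (fun x => u x * b x ^ p) / (s * t ^ p) := by
    rw [← av_div_const]
    exact av_congr fun x => by rw [div_pow]; field_simp
  have f1 : av (fun x => u x ^ (p + 1)) / s ^ (p + 1) ≤ W := by
    rw [div_le_iff₀ (by positivity)]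
    linarith
  have f2 : av (fun x => b x ^ (p + 1)) / t ^ (p + 1) ≤ W := by
    rw [div_le_iff₀ (by positivity)]
    linarith
  rw [e1, e2, e3] at h3
  have h4 : (p + 1 : ℝ) * (av (fun x => u x * b x ^ p) / (s * t ^ p)) ≤ (p + 1 : ℝ) * W := by
    have := mul_le_mul_of_nonneg_left f2 (Nat.cast_nonneg p : (0 : ℝ) ≤ p)
    linarith
  have h5 := le_of_mul_le_mul_left h4 (by positivity)
  rw [div_le_iff₀ (by positivity)] at h5
  linarith

end Pool.Agent.Hyp
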