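import Pool.Agent.Hyp.Base

/-!
# The hyperbolic cross maximal operator: the finite dyadic model, two parameters

A function on pairs of strings of `A` bits is `f = ∑ sg (x n) sg (y m) c n m x y` where `c n m`
depends only on the first `n` bits of `x` and the first `m` bits of `y` (`AdC c`).  The level of
the term `(n, m)` is `n + m`; `SS c k' k` is the sum of the terms with levels in `[k', k)`,
`VW c k' k` the square function of this window, `VV c` the full square function and `TT c K` the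
maximum of `|SS c 0 k|` over the finite set `K` of times `k`.
-/

set_option autoImplicit false

namespace Pool.Agent.Hyp

open Finset

variable {A : ℕ}

/-- average over both variables -/
noncomputable def av2 (f : Bits A → Bits A → ℝ) : ℝ := av fun x => av fun y => f x y

/-- conditional average given `n` bits of `x` and `m` bits of `y` -/
noncomputable def ce2 (n m : ℕ) (f : Bits A → Bits A → ℝ) (x y : Bits A) : ℝ :=
  av fun b => av fun b' => f (glue n x b) (glue m y b')

/-- `f` depends only on the first `n` bits of `x` and the first `m` bits of `y` -/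
def Adp2 (n m : ℕ) (f : Bits A → Bits A → ℝ) : Prop :=
  ∀ x y b b', f (glue n x b) (glue m y b') = f x y

/-- coefficients -/
abbrev Coef (A : ℕ) := Fin A → Fin A → Bits A → Bits A → ℝ

/-- adapted coefficients -/
def AdC (c : Coef A) : Prop := ∀ n m : Fin A, Adp2 (n : ℕ) (m : ℕ) (c n m)

/-- the term `(n, m)` -/
noncomputable def dd (c : Coef A) (n m : Fin A) (x y : Bits A) : ℝ :=
  sg (x n) * sg (y m) * c n m x y

/-- the sum over the window `[k', k)` of levels -/
noncomputable def SS (c : Coef A) (k' k : ℕ) (x y : Bits A) : ℝ :=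
  ∑ n : Fin A, ∑ m : Fin A, if k' ≤ (n : ℕ) + m ∧ (n : ℕ) + m < k then dd c n m x y else 0

/-- the square function of the window `[k', k)` -/
noncomputable def VW (c : Coef A) (k' k : ℕ) (x y : Bits A) : ℝ :=
  ∑ n : Fin A, ∑ m : Fin A, if k' ≤ (n : ℕ) + m ∧ (n : ℕ) + m < k then c n m x y ^ 2 else 0

/-- the full square function -/
noncomputable def VV (c : Coef A) (x y : Bits A) : ℝ := ∑ n : Fin A, ∑ m : Fin A, c n m x y ^ 2

/-- the full sum -/
noncomputable def FF (c : Coef A) (x y : Bits A) : ℝ := ∑ n : Fin A, ∑ m : Fin A, dd c n m x y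

/-- the `x`-martingale differences without the sign -/
noncomputable def GG (c : Coef A) (n : Fin A) (x y : Bits A) : ℝ :=
  ∑ m : Fin A, sg (y m) * c n m x y

/-- the maximal function of the times in `K` -/
noncomputable def TT (c : Coef A) (K : Finset ℕ) (x y : Bits A) : ℝ :=
  ⨆ k : K, |SS c 0 (k : ℕ) x y|

/-- `w` is an indicator function -/
def Ind (w : Bits A → Bits A → ℝ) : Prop := ∀ x y, w x y = 0 ∨ w x y = 1

/-- the coefficients are supported in the set with indicator function `w` -/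
def Sup (c : Coef A) (w : Bits A → Bits A → ℝ) : Prop := ∀ n m x y, c n m x y ≠ 0 → w x y = 1

/-- moments of the square function -/
def Mom (c : Coef A) (w : Bits A → Bits A → ℝ) : Prop :=
  ∀ p : ℕ, 1 ≤ p → av2 (fun x y => VV c x y ^ p) ≤ (32 * (p : ℝ) ^ 2) ^ p * av2 w

/-- restriction of the coefficients to a window -/
noncomputable def rc (c : Coef A) (k' k : ℕ) : Coef A := fun n m x y =>
  if k' ≤ (n : ℕ) + m ∧ (n : ℕ) + m < k then c n m x y else 0

/-- exchange of the two variables -/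
def swp (c : Coef A) : Coef A := fun n m x y => c m n y x

/-! ## averages in two variables -/

theorem av2_add (f g : Bits A → Bits A → ℝ) :
    av2 (fun x y => f x y + g x y) = av2 f + av2 g := by
  unfold av2
  rw [← av_add]
  exact av_congr fun x => av_add _ _

theorem av2_sub (f g : Bits A → Bits A → ℝ) :
    av2 (fun x y => f x y - g x y) = av2 f - av2 g := by
  unfold av2
  rw [← av_sub]
  exact av_congr fun x => av_sub _ _

theorem av2_const_mul (t : ℝ) (f : Bits A → Bits A → ℝ) :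
    av2 (fun x y => t * f x y) = t * av2 f := by
  unfold av2
  rw [← av_const_mul]
  exact av_congr fun x => av_const_mul _ _

theorem av2_sum {ι : Type} (s : Finset ι) (f : ι → Bits A → Bits A → ℝ) :
    av2 (fun x y => ∑ i ∈ s, f i x y) = ∑ i ∈ s, av2 (f i) := by
  unfold av2
  rw [← av_sum]
  exact av_congr fun x => av_sum _ _

theorem av2_mono {f g : Bits A → Bits A → ℝ} (h : ∀ x y, f x y ≤ g x y) : av2 f ≤ av2 g :=
  av_mono fun x => av_mono fun y => h x y

theorem av2_nonneg {f : Bits A → Bits A → ℝ} (h : ∀ x y, 0 ≤ f x y) : 0 ≤ av2 f :=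
  av_nonneg fun x => av_nonneg fun y => h x y

theorem av2_congr {f g : Bits A → Bits A → ℝ} (h : ∀ x y, f x y = g x y) : av2 f = av2 g :=
  av_congr fun x => av_congr fun y => h x y

theorem av2_const (t : ℝ) : av2 (fun _ _ : Bits A => t) = t := by
  unfold av2
  simp only [av_const]

theorem av2_zero : av2 (fun _ _ : Bits A => (0 : ℝ)) = 0 := av2_const 0

theorem av2_comm (f : Bits A → Bits A → ℝ) : av2 (fun x y => f y x) = av2 f := by
  unfold av2
  exact av_comm _

/-- `av2` as an average over pairs -/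
theorem av2_eq (f : Bits A → Bits A → ℝ) : av2 f = av fun p : Bits A × Bits A => f p.1 p.2 :=
  (av_prod (fun p : Bits A × Bits A => f p.1 p.2)).symm

theorem av2_close_le (p : ℕ) {u b : Bits A → Bits A → ℝ} (hu : ∀ x y, 0 ≤ u x y)
    (hb : ∀ x y, 0 ≤ b x y)
    (h : av2 (fun x y => b x y ^ (p + 1)) ≤ av2 (fun x y => u x y * b x y ^ p)) :
    av2 (fun x y => b x y ^ (p + 1)) ≤ av2 (fun x y => u x y ^ (p + 1)) := by
  rw [av2_eq, av2_eq] at h ⊢
  exact close_le (α := Bits A × Bits A) p (u := fun x => u x.1 x.2) (b := fun x => b x.1 x.2)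
    (fun x => hu x.1 x.2) (fun x => hb x.1 x.2) h

theorem av2_holder_le (p : ℕ) {u b : Bits A → Bits A → ℝ} (hu : ∀ x y, 0 ≤ u x y)
    (hb : ∀ x y, 0 ≤ b x y) {s t W : ℝ} (hs : 0 < s) (ht : 0 < t)
    (h1 : av2 (fun x y => u x y ^ (p + 1)) ≤ s ^ (p + 1) * W)
    (h2 : av2 (fun x y => b x y ^ (p + 1)) ≤ t ^ (p + 1) * W) :
    av2 (fun x y => u x y * b x y ^ p) ≤ s * t ^ p * W := by
  rw [av2_eq] at h1 h2 ⊢
  exact holder_le (α := Bits A × Bits A) p (u := fun x => u x.1 x.2) (b := fun x => b x.1 x.2)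
    (fun x => hu x.1 x.2) (fun x => hb x.1 x.2) hs ht h1 h2

/-! ## conditional averages in two variables -/

theorem ce2_eq (n m : ℕ) (f : Bits A → Bits A → ℝ) (x y : Bits A) :
    ce2 n m f x y = ce n (fun x' => ce m (fun y' => f x' y') y) x := rfl

theorem ce2_eq' (n m : ℕ) (f : Bits A → Bits A → ℝ) (x y : Bits A) :
    ce2 n m f x y = ce m (fun y' => ce n (fun x' => f x' y') x) y := by
  unfold ce2 ce
  exact av_comm _

theorem Adp2.left {n m : ℕ} {f : Bits A → Bits A → ℝ} (hf : Adp2 n m f) (y : Bits A) :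
    Adp n (fun x => f x y) := by
  intro x b
  have := hf x y b y
  rwa [glue_self] at this

theorem Adp2.right {n m : ℕ} {f : Bits A → Bits A → ℝ} (hf : Adp2 n m f) (x : Bits A) :
    Adp m (f x) := by
  intro y b'
  have := hf x y x b'
  rwa [glue_self] at this

theorem Adp2.mk {n m : ℕ} {f : Bits A → Bits A → ℝ} (h1 : ∀ y, Adp n (fun x => f x y))
    (h2 : ∀ x, Adp m (f x)) : Adp2 n m f := by
  intro x y b b'
  rw [h2 (glue n x b) y b']
  exact h1 y x b

theorem Adp2.mono {n m n' m' : ℕ} (hn : n ≤ n') (hm : m ≤ m') {f : Bits A → Bits A → ℝ}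
    (hf : Adp2 n m f) : Adp2 n' m' f :=
  Adp2.mk (fun y => Adp.mono hn (hf.left y)) (fun x => Adp.mono hm (hf.right x))

theorem ce2_adp (n m : ℕ) (f : Bits A → Bits A → ℝ) : Adp2 n m (ce2 n m f) := by
  intro x y b b'
  unfold ce2
  simp only [glue_glue_le (le_refl n), glue_glue_le (le_refl m)]

theorem av2_ce2 (n m : ℕ) (f : Bits A → Bits A → ℝ) : av2 (ce2 n m f) = av2 f := by
  unfold av2
  have h1 : ∀ x, av (fun y => ce2 n m f x y) = ce n (fun x' => av (f x')) x := by
    intro x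
    simp only [ce2_eq']
    rw [av_ce m (fun y' => ce n (fun x' => f x' y') x)]
    unfold ce
    rw [av_comm]
  rw [av_congr h1, av_ce]

theorem ce2_mul_adp {n m : ℕ} {h : Bits A → Bits A → ℝ} (hh : Adp2 n m h)
    (f : Bits A → Bits A → ℝ) (x y : Bits A) :
    ce2 n m (fun x y => h x y * f x y) x y = h x y * ce2 n m f x y := by
  unfold ce2
  rw [← av_const_mul]
  refine av_congr fun b => ?_
  rw [← av_const_mul]
  exact av_congr fun b' => by simp only [hh x y b b']

theorem av2_mul_ce2 {n m : ℕ} {h : Bits A → Bits A → ℝ} (hh : Adp2 n m h)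
    (f : Bits A → Bits A → ℝ) :
    av2 (fun x y => h x y * ce2 n m f x y) = av2 (fun x y => h x y * f x y) := by
  rw [← av2_ce2 n m (fun x y => h x y * f x y)]
  exact av2_congr fun x y => (ce2_mul_adp hh f x y).symm

theorem ce2_of_adp {n m : ℕ} {f : Bits A → Bits A → ℝ} (hf : Adp2 n m f) (x y : Bits A) :
    ce2 n m f x y = f x y := by
  unfold ce2
  simp only [hf x y, av_const]

theorem ce2_mono {n m : ℕ} {f g : Bits A → Bits A → ℝ} (h : ∀ x y, f x y ≤ g x y)
    (x y : Bits A) : ce2 n m f x y ≤ ce2 n m g x y := av_mono fun _ => av_mono fun _ => h _ _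

theorem ce2_nonneg {n m : ℕ} {f : Bits A → Bits A → ℝ} (h : ∀ x y, 0 ≤ f x y)
    (x y : Bits A) : 0 ≤ ce2 n m f x y := av_nonneg fun _ => av_nonneg fun _ => h _ _

theorem ce2_add (n m : ℕ) (f g : Bits A → Bits A → ℝ) (x y : Bits A) :
    ce2 n m (fun x y => f x y + g x y) x y = ce2 n m f x y + ce2 n m g x y := by
  unfold ce2
  rw [← av_add]
  exact av_congr fun _ => av_add _ _

theorem ce2_sub (n m : ℕ) (f g : Bits A → Bits A → ℝ) (x y : Bits A) :
    ce2 n m (fun x y => f x y - g x y) x y = ce2 n m f x y - ce2 n m g x y := by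
  unfold ce2
  rw [← av_sub]
  exact av_congr fun _ => av_sub _ _

theorem ce2_const (n m : ℕ) (t : ℝ) (x y : Bits A) : ce2 n m (fun _ _ => t) x y = t := by
  unfold ce2
  simp only [av_const]

/-! ## windows -/

theorem rc_adc {c : Coef A} (hc : AdC c) (k' k : ℕ) : AdC (rc c k' k) := by
  intro n m x y b b'
  unfold rc
  rw [hc n m x y b b']

theorem swp_adc {c : Coef A} (hc : AdC c) : AdC (swp c) := fun n m x y b b' =>
  hc m n y x b' b

theorem VV_nonneg (c : Coef A) (x y : Bits A) : 0 ≤ VV c x y :=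
  Finset.sum_nonneg fun _ _ => Finset.sum_nonneg fun _ _ => sq_nonneg _

theorem VW_nonneg (c : Coef A) (k' k : ℕ) (x y : Bits A) : 0 ≤ VW c k' k x y := by
  refine Finset.sum_nonneg fun _ _ => Finset.sum_nonneg fun _ _ => ?_
  split_ifs
  · exact sq_nonneg _
  · exact le_rfl

theorem SS_eq_FF (c : Coef A) (k' k : ℕ) (x y : Bits A) : SS c k' k x y = FF (rc c k' k) x y := by
  unfold SS FF dd rc
  refine Finset.sum_congr rfl fun n _ => Finset.sum_congr rfl fun m _ => ?_
  split_ifs
  · rfl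
  · rw [mul_zero]

theorem VW_eq_VV (c : Coef A) (k' k : ℕ) (x y : Bits A) : VW c k' k x y = VV (rc c k' k) x y := by
  unfold VW VV rc
  refine Finset.sum_congr rfl fun n _ => Finset.sum_congr rfl fun m _ => ?_
  split_ifs
  · rfl
  · rw [zero_pow two_ne_zero]

theorem VW_le_VV (c : Coef A) (k' k : ℕ) (x y : Bits A) : VW c k' k x y ≤ VV c x y := by
  unfold VW VV
  refine Finset.sum_le_sum fun n _ => Finset.sum_le_sum fun m _ => ?_
  split_ifs
  · exact le_rfl
  · exact sq_nonneg _

theorem VW_mono (c : Coef A) {j' j k' k : ℕ} (h' : k' ≤ j') (h : j ≤ k) (x y : Bits A) :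
    VW c j' j x y ≤ VW c k' k x y := by
  unfold VW
  refine Finset.sum_le_sum fun n _ => Finset.sum_le_sum fun m _ => ?_
  by_cases h1 : j' ≤ (n : ℕ) + m ∧ (n : ℕ) + m < j
  · rw [if_pos h1, if_pos ⟨h'.trans h1.1, lt_of_lt_of_le h1.2 h⟩]
  · rw [if_neg h1]
    split_ifs
    · exact sq_nonneg _
    · exact le_rfl

theorem SS_split (c : Coef A) {k1 k2 k3 : ℕ} (h1 : k1 ≤ k2) (h2 : k2 ≤ k3) (x y : Bits A) :
    SS c k1 k3 x y = SS c k1 k2 x y + SS c k2 k3 x y := by
  unfold SS
  rw [← Finset.sum_add_distrib]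
  refine Finset.sum_congr rfl fun n _ => ?_
  rw [← Finset.sum_add_distrib]
  refine Finset.sum_congr rfl fun m _ => ?_
  by_cases h3 : (n : ℕ) + m < k2
  · by_cases h4 : k1 ≤ (n : ℕ) + m
    · rw [if_pos ⟨h4, lt_of_lt_of_le h3 h2⟩, if_pos ⟨h4, h3⟩, if_neg (fun h => by omega), add_zero]
    · rw [if_neg (fun h => h4 h.1), if_neg (fun h => h4 h.1), if_neg (fun h => by omega), add_zero]
  · by_cases h5 : (n : ℕ) + m < k3
    · rw [if_pos ⟨by omega, h5⟩, if_neg (fun h => h3 h.2), if_pos ⟨by omega, h5⟩, zero_add]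
    · rw [if_neg (fun h => h5 h.2), if_neg (fun h => h3 h.2), if_neg (fun h => h5 h.2), zero_add]

theorem SS_self (c : Coef A) (k : ℕ) (x y : Bits A) : SS c k k x y = 0 := by
  unfold SS
  refine Finset.sum_eq_zero fun n _ => Finset.sum_eq_zero fun m _ => ?_
  rw [if_neg (fun h => by omega)]

theorem VW_self (c : Coef A) (k : ℕ) (x y : Bits A) : VW c k k x y = 0 := by
  unfold VW
  refine Finset.sum_eq_zero fun n _ => Finset.sum_eq_zero fun m _ => ?_
  rw [if_neg (fun h => by omega)]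

theorem dd_eq_zero {c : Coef A} {w : Bits A → Bits A → ℝ} (hs : Sup c w) {x y : Bits A}
    (h : w x y ≠ 1) (n m : Fin A) : c n m x y = 0 := by
  by_contra hc
  exact h (hs n m x y hc)

theorem SS_eq_zero {c : Coef A} {w : Bits A → Bits A → ℝ} (hs : Sup c w) {x y : Bits A}
    (h : w x y ≠ 1) (k' k : ℕ) : SS c k' k x y = 0 := by
  unfold SS dd
  refine Finset.sum_eq_zero fun n _ => Finset.sum_eq_zero fun m _ => ?_
  rw [dd_eq_zero hs h, mul_zero, ite_self]

theorem VV_eq_zero {c : Coef A} {w : Bits A → Bits A → ℝ} (hs : Sup c w) {x y : Bits A}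
    (h : w x y ≠ 1) : VV c x y = 0 := by
  unfold VV
  refine Finset.sum_eq_zero fun n _ => Finset.sum_eq_zero fun m _ => ?_
  rw [dd_eq_zero hs h, zero_pow two_ne_zero]

/-! ## the maximal function -/

theorem le_TT (c : Coef A) {K : Finset ℕ} {k : ℕ} (hk : k ∈ K) (x y : Bits A) :
    |SS c 0 k x y| ≤ TT c K x y := by
  unfold TT
  exact le_ciSup (f := fun k : K => |SS c 0 (k : ℕ) x y|) (Set.finite_range _).bddAbove ⟨k, hk⟩

theorem TT_empty (c : Coef A) (x y : Bits A) : TT c ∅ x y = 0 := by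
  unfold TT
  have : IsEmpty (↥(∅ : Finset ℕ)) := ⟨fun k => absurd k.2 (Finset.notMem_empty _)⟩
  exact Real.iSup_of_isEmpty _

theorem exists_TT (c : Coef A) {K : Finset ℕ} (hK : K.Nonempty) (x y : Bits A) :
    ∃ k ∈ K, TT c K x y = |SS c 0 k x y| := by
  obtain ⟨k0, hk0⟩ := hK
  have : Nonempty K := ⟨⟨k0, hk0⟩⟩
  obtain ⟨k, hk⟩ := exists_eq_ciSup_of_finite (f := fun k : K => |SS c 0 (k : ℕ) x y|)
  exact ⟨k, k.2, hk.symm⟩

theorem TT_nonneg (c : Coef A) (K : Finset ℕ) (x y : Bits A) : 0 ≤ TT c K x y :=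
  Real.iSup_nonneg fun _ => abs_nonneg _

theorem TT_le (c : Coef A) (K : Finset ℕ) (x y : Bits A) {B : ℝ} (hB : 0 ≤ B)
    (h : ∀ k ∈ K, |SS c 0 k x y| ≤ B) : TT c K x y ≤ B :=
  Real.iSup_le (fun k => h k k.2) hB

theorem TT_eq_zero {c : Coef A} {w : Bits A → Bits A → ℝ} (hs : Sup c w) {x y : Bits A}
    (h : w x y ≠ 1) (K : Finset ℕ) : TT c K x y = 0 := by
  refine le_antisymm (TT_le c K x y le_rfl fun k _ => ?_) (TT_nonneg c K x y)
  rw [SS_eq_zero hs h, abs_zero]

end Pool.Agent.Hyp
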