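import Pool.Agent.Hyp.Defs

/-!
# Module Bessel: the Haar coefficients of a function

**PROOF.** `c = coefF f` is adapted (`coefF_adc`).
(1) `av2 (f x y * dd c n m x y) = av2 (c n m x y ^2)`: `dd c n m = sg (x n) sg (y m) c n m`,
`av2 (c n m x y * (sg (x n) sg (y m) f x y)) = av2 (c n m x y * ce2 n m (sg sg f) x y)`
(`av2_mul_ce2`), and `ce2 n m (sg sg f) = c n m`.
(2) `av2 (dd c n m x y * dd c n' m' x y)` is `av2 (c n m ^2)` if `(n, m) = (n', m')` (`sg_sq`) and `0`
otherwise: if e.g. `n < n'` then for fixed `y` the function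
`sg (x n) sg (y m) c n m x y sg (y m') c n' m' x y` of `x` is adapted to `n'` (`adp_bit`, `Adp.mono`)
and `av_sg_mul` gives `0`; if `n = n'`, `m ≠ m'` the same in `y` (the product of the two signs of
`x n` is `1`).
So with `F = FF c`: `av2 (f F) = av2 (VV c)`, `av2 (F^2) = av2 (VV c)` and
`0 ≤ av2 ((f - F)^2) = av2 (f^2) - 2 av2 (VV c) + av2 (VV c)`.
-/

set_option autoImplicit false

namespace Pool.Agent.Hyp

open Finset

theorem Bessel_orth1 {A : ℕ} {c : Coef A} (hc : AdC c) {n n' : Fin A} (m m' : Fin A)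
    (h : n < n') : av2 (fun x y => dd c n m x y * dd c n' m' x y) = 0 := by
  unfold av2
  rw [av_comm]
  have h1 : ∀ y, av (fun x => dd c n m x y * dd c n' m' x y) = 0 := by
    intro y
    rw [av_congr (g := fun x => sg (x n') *
      (sg (x n) * (sg (y m) * c n m x y) * (sg (y m') * c n' m' x y)))
      (fun x => by unfold dd; ring)]
    refine av_sg_mul n' ?_
    intro x b
    have e1 : (glue (n' : ℕ) x b) n = x n := glue_apply_lt h x b
    have e2 : c n m (glue (n' : ℕ) x b) y = c n m x y :=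
      (Adp.mono (Fin.le_def.1 h.le) ((hc n m).left y)) x b
    have e3 : c n' m' (glue (n' : ℕ) x b) y = c n' m' x y := (hc n' m').left y x b
    simp only [e1, e2, e3]
  rw [av_congr h1, av_zero]

theorem Bessel_orth2 {A : ℕ} {c : Coef A} (hc : AdC c) (n n' : Fin A) {m m' : Fin A}
    (h : m < m') : av2 (fun x y => dd c n m x y * dd c n' m' x y) = 0 := by
  unfold av2
  have h1 : ∀ x, av (fun y => dd c n m x y * dd c n' m' x y) = 0 := by
    intro x
    rw [av_congr (g := fun y => sg (y m') *
      (sg (y m) * (sg (x n) * c n m x y) * (sg (x n') * c n' m' x y)))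
      (fun y => by unfold dd; ring)]
    refine av_sg_mul m' ?_
    intro y b
    have e1 : (glue (m' : ℕ) y b) m = y m := glue_apply_lt h y b
    have e2 : c n m x (glue (m' : ℕ) y b) = c n m x y :=
      (Adp.mono (Fin.le_def.1 h.le) ((hc n m).right x)) y b
    have e3 : c n' m' x (glue (m' : ℕ) y b) = c n' m' x y := (hc n' m').right x y b
    simp only [e1, e2, e3]
  rw [av_congr h1, av_zero]

theorem Bessel_orth {A : ℕ} {c : Coef A} (hc : AdC c) {n n' m m' : Fin A}
    (h : n' ≠ n ∨ m' ≠ m) : av2 (fun x y => dd c n m x y * dd c n' m' x y) = 0 := by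
  rcases h with h | h
  · rcases lt_or_gt_of_ne h with h | h
    · rw [av2_congr (g := fun x y => dd c n' m' x y * dd c n m x y) (fun x y => mul_comm _ _)]
      exact Bessel_orth1 hc m' m h
    · exact Bessel_orth1 hc m m' h
  · rcases lt_or_gt_of_ne h with h | h
    · rw [av2_congr (g := fun x y => dd c n' m' x y * dd c n m x y) (fun x y => mul_comm _ _)]
      exact Bessel_orth2 hc n' n h
    · exact Bessel_orth2 hc n n' h

theorem Bessel_self {A : ℕ} (c : Coef A) (n m : Fin A) :
    av2 (fun x y => dd c n m x y * dd c n m x y) = av2 (fun x y => c n m x y ^ 2) := by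
  refine av2_congr fun x y => ?_
  have e : dd c n m x y * dd c n m x y = sg (x n) ^ 2 * sg (y m) ^ 2 * c n m x y ^ 2 := by
    unfold dd
    ring
  rw [e, sg_sq, sg_sq]
  ring

theorem Bessel_dd_FF {A : ℕ} {c : Coef A} (hc : AdC c) (n m : Fin A) :
    av2 (fun x y => dd c n m x y * FF c x y) = av2 (fun x y => c n m x y ^ 2) := by
  have h1 : ∀ x y, dd c n m x y * FF c x y =
      ∑ n' : Fin A, ∑ m' : Fin A, dd c n m x y * dd c n' m' x y := by
    intro x y
    unfold FF
    rw [Finset.mul_sum]
    exact Finset.sum_congr rfl fun n' _ => by rw [Finset.mul_sum]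
  rw [av2_congr h1, av2_sum Finset.univ
    (fun n' x y => ∑ m' : Fin A, dd c n m x y * dd c n' m' x y)]
  have h2 : ∀ n' : Fin A, av2 (fun x y => ∑ m' : Fin A, dd c n m x y * dd c n' m' x y) =
      ∑ m' : Fin A, av2 (fun x y => dd c n m x y * dd c n' m' x y) := fun n' =>
    av2_sum Finset.univ (fun m' x y => dd c n m x y * dd c n' m' x y)
  rw [Finset.sum_congr rfl fun n' _ => h2 n', Finset.sum_eq_single n, Finset.sum_eq_single m]
  · exact Bessel_self c n m
  · intro m' _ hm
    exact Bessel_orth hc (Or.inr hm)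
  · intro h
    exact absurd (Finset.mem_univ _) h
  · intro n' _ hn
    exact Finset.sum_eq_zero fun m' _ => Bessel_orth hc (Or.inl hn)
  · intro h
    exact absurd (Finset.mem_univ _) h

theorem Bessel_VV {A : ℕ} (c : Coef A) :
    av2 (VV c) = ∑ n : Fin A, ∑ m : Fin A, av2 (fun x y => c n m x y ^ 2) := by
  have h1 : av2 (VV c) = av2 (fun x y => ∑ n : Fin A, ∑ m : Fin A, c n m x y ^ 2) := rfl
  rw [h1, av2_sum Finset.univ (fun n x y => ∑ m : Fin A, c n m x y ^ 2)]
  exact Finset.sum_congr rfl fun n _ => av2_sum Finset.univ (fun m x y => c n m x y ^ 2)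

theorem Bessel_sum_FF {A : ℕ} (c : Coef A) (g : Bits A → Bits A → ℝ) :
    av2 (fun x y => g x y * FF c x y) =
      ∑ n : Fin A, ∑ m : Fin A, av2 (fun x y => g x y * dd c n m x y) := by
  have h1 : ∀ x y, g x y * FF c x y =
      ∑ n' : Fin A, ∑ m' : Fin A, g x y * dd c n' m' x y := by
    intro x y
    unfold FF
    rw [Finset.mul_sum]
    exact Finset.sum_congr rfl fun n' _ => by rw [Finset.mul_sum]
  rw [av2_congr h1, av2_sum Finset.univ
    (fun n' x y => ∑ m' : Fin A, g x y * dd c n' m' x y)]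
  exact Finset.sum_congr rfl fun n' _ => av2_sum Finset.univ (fun m' x y => g x y * dd c n' m' x y)

theorem Bessel_f_dd {A : ℕ} (f : Bits A → Bits A → ℝ) (n m : Fin A) :
    av2 (fun x y => f x y * dd (coefF f) n m x y) = av2 (fun x y => coefF f n m x y ^ 2) := by
  have h1 : ∀ x y, f x y * dd (coefF f) n m x y =
      coefF f n m x y * (sg (x n) * sg (y m) * f x y) := by
    intro x y
    unfold dd
    ring
  have h2 := av2_mul_ce2 (coefF_adc f n m) (fun x y => sg (x n) * sg (y m) * f x y)
  rw [av2_congr h1, ← h2]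
  refine av2_congr fun x y => ?_
  rw [pow_two]
  rfl

theorem bessel {A : ℕ} (f : Bits A → Bits A → ℝ) :
    av2 (VV (coefF f)) ≤ av2 (fun x y => f x y ^ 2) := by
  have hc := coefF_adc f
  have h1 : av2 (fun x y => f x y * FF (coefF f) x y) = av2 (VV (coefF f)) := by
    rw [Bessel_sum_FF, Bessel_VV]
    exact Finset.sum_congr rfl fun n _ => Finset.sum_congr rfl fun m _ => Bessel_f_dd f n m
  have h2 : av2 (fun x y => FF (coefF f) x y * FF (coefF f) x y) = av2 (VV (coefF f)) := by
    rw [Bessel_sum_FF, Bessel_VV]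
    refine Finset.sum_congr rfl fun n _ => Finset.sum_congr rfl fun m _ => ?_
    rw [av2_congr (g := fun x y => dd (coefF f) n m x y * FF (coefF f) x y)
      (fun x y => mul_comm _ _)]
    exact Bessel_dd_FF hc n m
  have h3 : 0 ≤ av2 (fun x y => (f x y - FF (coefF f) x y) ^ 2) :=
    av2_nonneg fun x y => sq_nonneg _
  have h4 : av2 (fun x y => (f x y - FF (coefF f) x y) ^ 2) =
      av2 (fun x y => f x y ^ 2) - 2 * av2 (fun x y => f x y * FF (coefF f) x y) +
        av2 (fun x y => FF (coefF f) x y * FF (coefF f) x y) := by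
    rw [← av2_const_mul, ← av2_sub, ← av2_add]
    exact av2_congr fun x y => by ring
  rw [h4, h1, h2] at h3
  linarith

end Pool.Agent.Hyp
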