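import Pool.Agent.Hyp.DefM

/-!
# Module Blk: combinatorics of the blocks

`sb k = ⌊log₂ ⌊log₂ |k|⌋⌋` (natural logarithms to base 2, `Nat.log 2 0 = Nat.log 2 1 = 0`).

**PROOF of `sb_lt`.** `Nat.log` is monotone, so `|a| ≥ |b|` would give `sb a ≥ sb b`.
**PROOF of `blk_card`.** If `sb k = l` then `Nat.log 2 (Nat.log 2 |k|) < l + 1`, so
`Nat.log 2 |k| < 2^(l+1)` and `|k| < 2^(2^(l+1))` (`Nat.lt_pow_iff_log_lt`,
`Nat.lt_pow_succ_log_self`).  So `#K + 3 ≤ 2 * 2^(2^(l+1)) + 3 ≤ 2^(2^(l+1) + 2)`,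
`log (#K + 3) ≤ 2^(l+1) + 2 ≤ 2^(l+2)`, `log log (#K+3) ≤ l + 2`, `1 + log log ≤ l + 3 ≤ 4 (l + 1)`.
**PROOF of `hs_split`.** Let `l = sb k`, `j = bl ξ = sb (kap ξ)`, `κ = kap ξ`.  If `j < l` then
`|κ| < |k|` (`sb_lt`), so `κ < k` iff `0 < k`, and the right side is `[0 < k]`.  If `j = l` the right
side is `[κ < k]`.  If `l < j ≤ J` then `|k| < |κ|`, so `κ < k` iff `κ < 0`, the right side is
`[κ < 0]`; the same if `J < j`.
-/

set_option autoImplicit false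

namespace Pool.Agent.Hyp

open Finset

theorem sb_lt {a b : ℤ} (h : sb a < sb b) : a.natAbs < b.natAbs := by
  by_contra hc
  push Not at hc
  have h1 : sb b ≤ sb a := Nat.log_mono_right (Nat.log_mono_right hc)
  omega

theorem blk_card {l : ℕ} {K : Finset ℤ} (hK : ∀ k ∈ K, sb k = l) :
    1 + Real.log (Real.log ((K.card : ℝ) + 3)) ≤ 4 * ((l : ℝ) + 1) := by
  have hM : ∀ k ∈ K, k.natAbs < 2 ^ (2 ^ (l + 1)) := by
    intro k hk
    have h1 : Nat.log 2 (Nat.log 2 k.natAbs) < l + 1 := by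
      have h2 : Nat.log 2 (Nat.log 2 k.natAbs) = l := hK k hk
      omega
    have h2 : Nat.log 2 k.natAbs < 2 ^ (l + 1) :=
      (Nat.lt_pow_succ_log_self (by norm_num) _).trans_le
        (Nat.pow_le_pow_right (by norm_num) h1)
    exact (Nat.lt_pow_succ_log_self (by norm_num) _).trans_le
        (Nat.pow_le_pow_right (by norm_num) h2)
  have hsub : K ⊆ Finset.Ioo (-((2 ^ (2 ^ (l + 1)) : ℕ) : ℤ)) ((2 ^ (2 ^ (l + 1)) : ℕ) : ℤ) := by
    intro k hk
    have := hM k hk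
    rw [Finset.mem_Ioo]
    omega
  have hcard : K.card ≤ 2 * 2 ^ (2 ^ (l + 1)) := by
    have h1 := Finset.card_le_card hsub
    rw [Int.card_Ioo] at h1
    omega
  have h4 : (4 : ℕ) ≤ 2 ^ (2 ^ (l + 1)) := by
    have h1 : 2 ≤ 2 ^ (l + 1) := by
      calc 2 = 2 ^ 1 := by norm_num
        _ ≤ 2 ^ (l + 1) := Nat.pow_le_pow_right (by norm_num) (by omega)
    calc 4 = 2 ^ 2 := by norm_num
      _ ≤ 2 ^ (2 ^ (l + 1)) := Nat.pow_le_pow_right (by norm_num) h1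
  have h5 : K.card + 3 ≤ 2 ^ (2 ^ (l + 1) + 2) := by
    rw [pow_add]
    omega
  have h6 : (K.card : ℝ) + 3 ≤ 2 ^ (2 ^ (l + 1) + 2) := by exact_mod_cast h5
  have hlog2 : Real.log 2 ≤ 1 := by
    have := Real.log_two_lt_d9
    linarith
  have h7 : Real.log ((K.card : ℝ) + 3) ≤ 2 ^ (l + 1) + 2 := by
    have h8 : Real.log ((K.card : ℝ) + 3) ≤ Real.log (2 ^ (2 ^ (l + 1) + 2)) :=
      Real.log_le_log (by positivity) h6
    rw [Real.log_pow] at h8
    push_cast at h8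
    refine h8.trans ?_
    exact mul_le_of_le_one_right (by positivity) hlog2
  have h9 : (2 : ℝ) ^ (l + 1) + 2 ≤ 2 ^ (l + 2) := by
    have h10 : (1 : ℝ) ≤ 2 ^ l := one_le_pow₀ (by norm_num)
    rw [pow_add, pow_add]
    linarith
  have h11 : 0 < Real.log ((K.card : ℝ) + 3) := by
    refine Real.log_pos ?_
    have : (0 : ℝ) ≤ (K.card : ℝ) := Nat.cast_nonneg _
    linarith
  have h12 : Real.log (Real.log ((K.card : ℝ) + 3)) ≤ (l : ℝ) + 2 := by
    have h13 := Real.log_le_log h11 (h7.trans h9)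
    rw [Real.log_pow] at h13
    push_cast at h13
    refine h13.trans ?_
    exact mul_le_of_le_one_right (by positivity) hlog2
  have hl0 : (0 : ℝ) ≤ (l : ℝ) := Nat.cast_nonneg _
  linarith

theorem hs_split (J : ℕ) {k : ℤ} (hk : sb k ≤ J) (ξ : E2) :
    hs k ξ = hs k ξ * pb (sb k) ξ + (if 0 < k then ∑ j ∈ range (sb k), pb j ξ else 0) +
      ∑ j ∈ Finset.Ioc (sb k) J, pm j ξ + gt J ξ := by
  have h1 : ∑ j ∈ range (sb k), pb j ξ = if bl ξ < sb k then 1 else 0 := by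
    unfold pb
    rw [Finset.sum_ite_eq]
    simp only [Finset.mem_range]
  have h2 : ∑ j ∈ Finset.Ioc (sb k) J, pm j ξ =
      if (sb k < bl ξ ∧ bl ξ ≤ J) ∧ kap ξ < 0 then 1 else 0 := by
    unfold pm
    by_cases hκ : kap ξ < 0
    · simp only [hκ, and_true]
      rw [Finset.sum_ite_eq]
      simp only [Finset.mem_Ioc]
    · simp [hκ]
  rw [h1, h2]
  unfold hs pb gt
  rcases lt_trichotomy (bl ξ) (sb k) with h | h | h
  · have h3 : (kap ξ).natAbs < k.natAbs := sb_lt h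
    rw [if_neg (show ¬ (bl ξ = sb k) by omega), if_pos h,
      if_neg (show ¬ ((sb k < bl ξ ∧ bl ξ ≤ J) ∧ kap ξ < 0) by omega),
      if_neg (show ¬ (J < bl ξ ∧ kap ξ < 0) by omega)]
    by_cases hk0 : 0 < k
    · rw [if_pos (show kap ξ < k by omega), if_pos hk0]
      ring
    · rw [if_neg (show ¬ kap ξ < k by omega), if_neg hk0]
      ring
  · rw [if_pos h, if_neg (show ¬ (bl ξ < sb k) by omega),
      if_neg (show ¬ ((sb k < bl ξ ∧ bl ξ ≤ J) ∧ kap ξ < 0) by omega),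
      if_neg (show ¬ (J < bl ξ ∧ kap ξ < 0) by omega)]
    simp
  · have h3 : k.natAbs < (kap ξ).natAbs := sb_lt h
    rw [if_neg (show ¬ (bl ξ = sb k) by omega), if_neg (show ¬ (bl ξ < sb k) by omega)]
    by_cases hκ : kap ξ < 0
    · rw [if_pos (show kap ξ < k by omega)]
      by_cases hJ : bl ξ ≤ J
      · rw [if_pos (⟨⟨h, hJ⟩, hκ⟩ : (sb k < bl ξ ∧ bl ξ ≤ J) ∧ kap ξ < 0),
          if_neg (show ¬ (J < bl ξ ∧ kap ξ < 0) by omega)]
        simp
      · rw [if_neg (show ¬ ((sb k < bl ξ ∧ bl ξ ≤ J) ∧ kap ξ < 0) by omega),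
          if_pos (show J < bl ξ ∧ kap ξ < 0 by omega)]
        simp
    · rw [if_neg (show ¬ kap ξ < k by omega),
        if_neg (show ¬ ((sb k < bl ξ ∧ bl ξ ≤ J) ∧ kap ξ < 0) by omega),
        if_neg (show ¬ (J < bl ξ ∧ kap ξ < 0) by omega)]
      simp

end Pool.Agent.Hyp
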