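import Pool.Agent.Hyp.DefC

/-!
# Module ChPos: positions, translations and orthogonality of the characters

**PROOF of `exists_pos`.** Let `v x = ∑ i : Fin A, (if x i then 2^(A-1-i) else 0)`, a natural number
`< 2^A` (`≤ ∑ 2^(A-1-i) = 2^A - 1`).  `v` is injective (uniqueness of binary digits; e.g. by
induction on the first bit where `x, x'` differ, or induction on `A` with `Fin.cons`; or
`Nat.ofBits`/`Finset.sum_two_pow`-type lemmas), and both types have `2^A` elements, so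
`Fintype.bijective_iff_injective_and_card` gives the equivalence `e`.  Since
`2^(A-1-i) / 2^A = 1 / 2^(i+1)`, `exp (2πi a v(x) / 2^A) = ∏ i, exp (2πi a x_i / 2^(i+1))`
(`Complex.exp_sum`).
**PROOF of `exists_shift`.** `σ x = e.symm (e x + e τ)` (addition in `Fin (2^A)`, i.e. modulo `2^A`);
`((e x + e τ : Fin (2^A)) : ℕ) = (e x + e τ) % 2^A` differs from `e x + e τ` by a multiple of `2^A`
and `exp (2πi a N) = 1` for integers `a N`.
**PROOF of `avC_ch`.** `ch a` is a product of functions of the bits; the average is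
`∏ i, (exp (2πi a / 2^(i+1)) + 1)/2` (`Finset.prod_univ_sum`, `Fintype.piFinset`; or via
`exists_pos`: `∑ over s < 2^A of exp (2πi a s/2^A)` is a geometric sum with ratio `≠ 1`, which is
`0`).  For `0 < |a| < 2^A` it vanishes.
**PROOF of `parseval`.** Expand `‖∑‖^2`; `ch a x * conj (ch b x) = ch (a - b) x`; if `ξ ≠ ξ'` in `F`
then `0 < |ξ.1 - ξ'.1| < 2^A` or `0 < |ξ.2 - ξ'.2| < 2^A`; `avC_ch`.
-/

set_option autoImplicit false

namespace Pool.Agent.Hyp

open Finset

/-- the position of a string of bits -/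
def posv (A : ℕ) (x : Bits A) : ℕ := ∑ i : Fin A, if x i then 2 ^ (A - 1 - (i : ℕ)) else 0

theorem posv_succ (A : ℕ) (x : Bits (A + 1)) :
    posv (A + 1) x = (if x 0 then 2 ^ A else 0) + posv A (fun i => x i.succ) := by
  unfold posv
  rw [Fin.sum_univ_succ]
  have h1 : A + 1 - 1 - ((0 : Fin (A + 1)) : ℕ) = A := by simp
  have h2 : ∀ i : Fin A, A + 1 - 1 - ((i.succ : Fin (A + 1)) : ℕ) = A - 1 - (i : ℕ) := by
    intro i
    rw [Fin.val_succ]
    omega
  rw [h1]
  simp only [h2]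

theorem posv_lt (A : ℕ) (x : Bits A) : posv A x < 2 ^ A := by
  induction A with
  | zero => simp [posv]
  | succ A ih =>
    rw [posv_succ, pow_succ]
    have := ih (fun i => x i.succ)
    split_ifs <;> omega

theorem posv_inj (A : ℕ) (x y : Bits A) (h : posv A x = posv A y) : x = y := by
  induction A with
  | zero => exact Subsingleton.elim _ _
  | succ A ih =>
    rw [posv_succ, posv_succ] at h
    have h1 := posv_lt A (fun i => x i.succ)
    have h2 := posv_lt A (fun i => y i.succ)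
    have h0 : x 0 = y 0 := by
      rcases hx : x 0 with _ | _ <;> rcases hy : y 0 with _ | _
      · rfl
      · simp only [hx, hy, if_true, Bool.false_eq_true, if_false] at h
        omega
      · simp only [hx, hy, if_true, Bool.false_eq_true, if_false] at h
        omega
      · rfl
    have h3 : posv A (fun i => x i.succ) = posv A (fun i => y i.succ) := by
      rw [h0] at h
      omega
    have h4 := ih _ _ h3
    funext i
    refine Fin.cases h0 (fun j => ?_) i
    exact congrFun h4 j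

theorem ch_eq_posv {A : ℕ} (a : ℤ) (x : Bits A) :
    ch a x = Complex.exp (2 * Real.pi * Complex.I * a * (posv A x : ℂ) / 2 ^ A) := by
  unfold ch
  have h1 : ∀ i : Fin A, (if x i then
      Complex.exp (2 * Real.pi * Complex.I * a / 2 ^ ((i : ℕ) + 1)) else 1) =
      Complex.exp (if x i then 2 * Real.pi * Complex.I * a / 2 ^ ((i : ℕ) + 1) else 0) := by
    intro i
    split_ifs
    · rfl
    · rw [Complex.exp_zero]
  simp only [h1]
  rw [← Complex.exp_sum]
  congr 1
  unfold posv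
  push_cast
  rw [Finset.mul_sum, Finset.sum_div]
  refine Finset.sum_congr rfl fun i _ => ?_
  split_ifs
  · have hi : (i : ℕ) < A := i.2
    have h2 : (2 : ℂ) ^ A = 2 ^ (A - 1 - (i : ℕ)) * 2 ^ ((i : ℕ) + 1) := by
      rw [← pow_add]
      congr 1
      omega
    have h3 : (2 : ℂ) ^ (A - 1 - (i : ℕ)) ≠ 0 := pow_ne_zero _ two_ne_zero
    have h4 : (2 : ℂ) ^ ((i : ℕ) + 1) ≠ 0 := pow_ne_zero _ two_ne_zero
    rw [h2]
    field_simp
  · simp

theorem exists_pos (A : ℕ) : ∃ e : Bits A ≃ Fin (2 ^ A), ∀ (a : ℤ) (x : Bits A),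
    ch a x = Complex.exp (2 * Real.pi * Complex.I * a * ((e x : ℕ) : ℂ) / 2 ^ A) := by
  have hb : Function.Bijective (fun x : Bits A => (⟨posv A x, posv_lt A x⟩ : Fin (2 ^ A))) := by
    rw [Fintype.bijective_iff_injective_and_card]
    constructor
    · intro x y h
      exact posv_inj A x y (by simpa using h)
    · simp
  refine ⟨Equiv.ofBijective _ hb, fun a x => ?_⟩
  exact ch_eq_posv a x

theorem exists_shift {A : ℕ} (τ : Bits A) : ∃ σ : Bits A ≃ Bits A, ∀ (a : ℤ) (x : Bits A),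
    ch a (σ x) = ch a x * ch a τ := by
  obtain ⟨e, he⟩ := exists_pos A
  refine ⟨e.trans ((Equiv.addRight (e τ)).trans e.symm), fun a x => ?_⟩
  rw [he, he, he, ← Complex.exp_add]
  have h1 : e ((e.trans ((Equiv.addRight (e τ)).trans e.symm)) x) = e x + e τ := by simp
  rw [h1, Fin.val_add]
  have h2 := Nat.div_add_mod ((e x : ℕ) + (e τ : ℕ)) (2 ^ A)
  generalize hq : ((e x : ℕ) + (e τ : ℕ)) / 2 ^ A = q at h2
  generalize hr : ((e x : ℕ) + (e τ : ℕ)) % 2 ^ A = r at h2 ⊢
  have h3 : ((e x : ℕ) : ℂ) + ((e τ : ℕ) : ℂ) = 2 ^ A * (q : ℂ) + (r : ℂ) := by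
    exact_mod_cast h2.symm
  have h4 : (2 * Real.pi * Complex.I * a * ((e x : ℕ) : ℂ) / 2 ^ A +
      2 * Real.pi * Complex.I * a * ((e τ : ℕ) : ℂ) / 2 ^ A : ℂ) =
      2 * Real.pi * Complex.I * a * (r : ℂ) / 2 ^ A + ((a * q : ℤ) : ℂ) * (2 * Real.pi * Complex.I) := by
    rw [← add_div, ← mul_add, h3]
    have : (2 : ℂ) ^ A ≠ 0 := pow_ne_zero _ two_ne_zero
    push_cast
    field_simp
    ring
  rw [h4, Complex.exp_add, Complex.exp_int_mul_two_pi_mul_I, mul_one]

theorem ch_mul_conj {A : ℕ} (a b : ℤ) (x : Bits A) :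
    ch a x * (starRingEnd ℂ) (ch b x) = ch (a - b) x := by
  rw [ch_eq_posv, ch_eq_posv, ch_eq_posv, ← Complex.exp_conj, ← Complex.exp_add]
  congr 1
  simp only [map_div₀, map_mul, map_ofNat, Complex.conj_I, Complex.conj_ofReal, map_intCast,
    map_natCast, map_pow]
  push_cast
  ring

theorem avC_ch {A : ℕ} {a : ℤ} (h0 : a ≠ 0) (ha : |a| < 2 ^ A) :
    avC (fun x : Bits A => ch a x) = 0 := by
  obtain ⟨e, he⟩ := exists_pos A
  unfold avC
  simp only [he]
  have hne : (2 : ℂ) ^ A ≠ 0 := pow_ne_zero _ two_ne_zero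
  set z : ℂ := Complex.exp (2 * Real.pi * Complex.I * a / 2 ^ A) with hz
  have h1 : ∀ x : Bits A, Complex.exp (2 * Real.pi * Complex.I * a * ((e x : ℕ) : ℂ) / 2 ^ A) =
      z ^ ((e x : ℕ)) := by
    intro x
    rw [hz, ← Complex.exp_nat_mul]
    congr 1
    ring
  simp only [h1]
  have h2 : ∑ x : Bits A, z ^ ((e x : ℕ)) = ∑ s : Fin (2 ^ A), z ^ (s : ℕ) :=
    Equiv.sum_comp e (fun s : Fin (2 ^ A) => z ^ (s : ℕ))
  rw [h2, Fin.sum_univ_eq_sum_range (fun s => z ^ s)]
  have h3 : z ^ (2 ^ A) = 1 := by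
    rw [hz, ← Complex.exp_nat_mul]
    have : ((2 ^ A : ℕ) : ℂ) * (2 * Real.pi * Complex.I * a / 2 ^ A) =
        (a : ℂ) * (2 * Real.pi * Complex.I) := by
      push_cast
      field_simp
    rw [this, Complex.exp_int_mul_two_pi_mul_I]
  have h4 : z ≠ 1 := by
    intro h
    rw [hz, Complex.exp_eq_one_iff] at h
    obtain ⟨n, hn⟩ := h
    have h5 : (a : ℂ) = n * 2 ^ A := by
      have hpi : (2 * Real.pi * Complex.I : ℂ) ≠ 0 := Complex.two_pi_I_ne_zero
      have h6 : (2 * Real.pi * Complex.I : ℂ) * a = (2 * Real.pi * Complex.I) * (n * 2 ^ A) := by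
        rw [div_eq_iff hne] at hn
        rw [hn]
        ring
      exact mul_left_cancel₀ hpi h6
    have h7 : a = n * 2 ^ A := by exact_mod_cast h5
    rw [h7, abs_mul] at ha
    have h8 : n ≠ 0 := by
      rintro rfl
      apply h0
      rw [h7, zero_mul]
    have h9 : 1 ≤ |n| := Int.one_le_abs h8
    have h10 : |(2 : ℤ) ^ A| = 2 ^ A := abs_of_pos (by positivity)
    rw [h10] at ha
    have h11 : (0 : ℤ) < 2 ^ A := by positivity
    nlinarith
  rw [geom_sum_eq h4, h3, sub_self, zero_div, zero_div]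

theorem avC_ch_zero {A : ℕ} : avC (fun x : Bits A => ch 0 x) = 1 := by
  have h : ∀ x : Bits A, ch 0 x = 1 := by
    intro x
    rw [ch_eq_posv]
    simp
  simp only [h]
  exact avC_const 1

theorem ofReal_av {α : Type} [Fintype α] (f : α → ℝ) :
    ((av f : ℝ) : ℂ) = avC fun x => (f x : ℂ) := by
  unfold av avC
  push_cast
  rfl

theorem parseval {A : ℕ} (F : Finset (ℤ × ℤ))
    (hF : ∀ ξ ∈ F, 2 * |ξ.1| < 2 ^ A ∧ 2 * |ξ.2| < 2 ^ A) (u : ℤ × ℤ → ℂ) :
    av2 (fun x y : Bits A => ‖∑ ξ ∈ F, u ξ * (ch ξ.1 x * ch ξ.2 y)‖ ^ 2) =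
      ∑ ξ ∈ F, ‖u ξ‖ ^ 2 := by
  have key : ((av2 (fun x y : Bits A => ‖∑ ξ ∈ F, u ξ * (ch ξ.1 x * ch ξ.2 y)‖ ^ 2) : ℝ) : ℂ) =
      ((∑ ξ ∈ F, ‖u ξ‖ ^ 2 : ℝ) : ℂ) := by
    unfold av2
    rw [ofReal_av]
    simp only [ofReal_av]
    have h1 : ∀ x y : Bits A, (((‖∑ ξ ∈ F, u ξ * (ch ξ.1 x * ch ξ.2 y)‖ ^ 2 : ℝ)) : ℂ) =
        ∑ ξ ∈ F, ∑ η ∈ F, (u ξ * (starRingEnd ℂ) (u η) * ch (ξ.1 - η.1) x) *
          ch (ξ.2 - η.2) y := by
      intro x y
      rw [Complex.ofReal_pow, ← Complex.mul_conj', map_sum, Finset.sum_mul_sum]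
      refine Finset.sum_congr rfl fun ξ _ => Finset.sum_congr rfl fun η _ => ?_
      rw [← ch_mul_conj ξ.1 η.1 x, ← ch_mul_conj ξ.2 η.2 y, map_mul, map_mul]
      ring
    simp only [h1, avC_sum, avC_const_mul, avC_mul_const]
    push_cast
    refine Finset.sum_congr rfl fun ξ hξ => ?_
    rw [Finset.sum_eq_single ξ]
    · rw [sub_self, sub_self, avC_ch_zero, mul_one, mul_one, Complex.mul_conj']
    · intro η hη hne
      have h2 := hF ξ hξ
      have h3 := hF η hη
      by_cases h4 : ξ.1 - η.1 = 0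
      · have h5 : ξ.2 - η.2 ≠ 0 := by
          intro h5
          apply hne
          exact Prod.ext (by omega) (by omega)
        have h6 : |ξ.2 - η.2| < 2 ^ A := by
          have := abs_sub ξ.2 η.2
          omega
        rw [avC_ch h5 h6]
        ring
      · have h6 : |ξ.1 - η.1| < 2 ^ A := by
          have := abs_sub ξ.1 η.1
          omega
        rw [avC_ch h4 h6]
        ring
    · intro h
      exact absurd hξ h
  exact_mod_cast key

end Pool.Agent.Hyp
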