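import Pool.Agent.Hyp.Defs

/-!
# Module Combine: summation of the pieces

**PROOF.** Write `s j = l 16^j`, `W j = av2 (w j)`, `a j = s j * W j`.  For `i ≤ j`, `D = j - i`:
claim `av2 (T i * T j) ≤ B 2^(-D) (a i / 4 + 3 a j / 4)`.
Pointwise `T i T j = T i T j w j` (if `w j ≠ 1` then `T j = 0`, `w j = 0`).  With
`μ = 2^D`, `ν = 4^(-D) / (B s i)`, `ν' = 1 / (B s j)`:
`2 T i T j w j ≤ μ T i ^2 w j + μ⁻¹ T j ^2`, `2 T i ^2 w j ≤ ν T i ^4 + ν⁻¹ w j` (`w j ^2 = w j`),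
`2 T j ^2 ≤ ν' T j ^4 + ν'⁻¹ w j` (where `w j = 0`, `T j = 0`).  Hence
`av2 (T i T j) ≤ (μ ν / 4) av2 (T i ^4) + (μ ν⁻¹ / 4) W j + (μ⁻¹ ν' / 4) av2 (T j ^4)
+ (μ⁻¹ ν'⁻¹ / 4) W j`, and with `av2 (T i ^4) ≤ B^2 (s i)^2 W i`, `s j = 16^D s i`:
`μ ν B^2 (s i)^2 = 2^(-D) B s i`; `μ ν⁻¹ = 2^D 4^D B s i = 8^D 16^(-D) B s j = 2^(-D) B s j`;
`μ⁻¹ ν' B^2 (s j)^2 = 2^(-D) B s j`; `μ⁻¹ ν'⁻¹ = 2^(-D) B s j`.  This is the claim.
Sum: `(∑ T j)^2 = ∑ T i ^2 + 2 ∑ over i < j of T i T j`.  The diagonal terms give `B ∑ a i` (`D = 0`),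
the others `2 B ∑ over i < j of 2^(-(j-i)) (a i / 4 + 3 a j / 4) ≤ 2 B (1/4 + 3/4) ∑ a j` because
`∑ over d ≥ 1 of 2^(-d) ≤ 1`.  Total `≤ 3 B ∑ a j ≤ 4 B ∑ a j`.  (Or by induction on `J`:
the increment is `≤ B (∑ i < J, 2^(-(J-i)) a i / 2 + 5/2 a J)`.)
-/

set_option autoImplicit false

namespace Pool.Agent.Hyp

open Finset

/-- the pointwise inequality -/
theorem cmb_pt {t u W μ ν ν' : ℝ} (hμ : 0 < μ) (hν : 0 < ν) (hν' : 0 < ν')
    (hW : W = 0 ∨ W = 1) (hu : W ≠ 1 → u = 0) :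
    t * u ≤ (μ * ν / 4) * t ^ 4 + (μ * ν⁻¹ / 4) * W + (μ⁻¹ * ν' / 4) * u ^ 4 +
      (μ⁻¹ * ν'⁻¹ / 4) * W := by
  rcases hW with h | h
  · rw [hu (by rw [h]; norm_num), h]
    have : 0 ≤ (μ * ν / 4) * t ^ 4 := by positivity
    simpa using this
  · rw [h]
    have h1 : t * u ≤ μ * t ^ 2 / 2 + μ⁻¹ * u ^ 2 / 2 := by
      have h2 : 0 ≤ μ⁻¹ * (μ * t - u) ^ 2 := by positivity
      have h3 : μ⁻¹ * (μ * t - u) ^ 2 = μ * t ^ 2 - 2 * (t * u) + μ⁻¹ * u ^ 2 := by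
        field_simp
        ring
      rw [h3] at h2
      linarith
    have hsq : ∀ {v s : ℝ}, 0 < v → s ^ 2 ≤ v * s ^ 4 / 2 + v⁻¹ / 2 := by
      intro v s hv
      have h2 : 0 ≤ v⁻¹ * (v * s ^ 2 - 1) ^ 2 := by positivity
      have h3 : v⁻¹ * (v * s ^ 2 - 1) ^ 2 = v * s ^ 4 - 2 * s ^ 2 + v⁻¹ := by
        field_simp
        ring
      rw [h3] at h2
      linarith
    have h4 := mul_le_mul_of_nonneg_left (hsq hν (s := t)) hμ.le
    have h5 := mul_le_mul_of_nonneg_left (hsq hν' (s := u)) (inv_pos.2 hμ).le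
    calc t * u ≤ μ * t ^ 2 / 2 + μ⁻¹ * u ^ 2 / 2 := h1
      _ ≤ μ * (ν * t ^ 4 / 2 + ν⁻¹ / 2) / 2 + μ⁻¹ * (ν' * u ^ 4 / 2 + ν'⁻¹ / 2) / 2 := by
          linarith
      _ = _ := by ring

/-- the correlations of the pieces -/
theorem cmb_pair {A : ℕ} (T w : ℕ → Bits A → Bits A → ℝ)
    (hw : ∀ j, Ind (w j)) (hTw : ∀ j x y, w j x y ≠ 1 → T j x y = 0) {B l : ℝ} (hB : 0 < B)
    (hl : 0 < l)
    (h4 : ∀ j, av2 (fun x y => T j x y ^ 4) ≤ B ^ 2 * (l * 16 ^ j) ^ 2 * av2 (w j))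
    {i j : ℕ} (hij : i ≤ j) :
    av2 (fun x y => T i x y * T j x y) ≤ B * (2 ^ i / 2 ^ j) *
      (l * 16 ^ i * av2 (w i) / 4 + 3 * (l * 16 ^ j * av2 (w j)) / 4) := by
  obtain ⟨D, rfl⟩ := Nat.exists_eq_add_of_le hij
  set μ : ℝ := 2 ^ D with hμ
  set ν : ℝ := 1 / (4 ^ D * (B * (l * 16 ^ i))) with hν
  set ν' : ℝ := 1 / (B * (l * 16 ^ (i + D))) with hν'
  have hμ0 : 0 < μ := by positivity
  have hν0 : 0 < ν := by positivity
  have hν'0 : 0 < ν' := by positivity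
  have h1 : av2 (fun x y => T i x y * T (i + D) x y) ≤
      (μ * ν / 4) * av2 (fun x y => T i x y ^ 4) + (μ * ν⁻¹ / 4) * av2 (w (i + D)) +
        (μ⁻¹ * ν' / 4) * av2 (fun x y => T (i + D) x y ^ 4) +
        (μ⁻¹ * ν'⁻¹ / 4) * av2 (w (i + D)) := by
    rw [← av2_const_mul, ← av2_const_mul, ← av2_const_mul, ← av2_const_mul, ← av2_add,
      ← av2_add, ← av2_add]
    exact av2_mono fun x y => cmb_pt hμ0 hν0 hν'0 (hw _ x y) (hTw _ x y)
  have h2 := mul_le_mul_of_nonneg_left (h4 i) (by positivity : 0 ≤ μ * ν / 4)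
  have h3 := mul_le_mul_of_nonneg_left (h4 (i + D)) (by positivity : 0 ≤ μ⁻¹ * ν' / 4)
  refine h1.trans ((add_le_add_left (add_le_add (add_le_add_left h2 _) h3) _).trans
    (le_of_eq ?_))
  have e2 : (2 : ℝ) ^ i / 2 ^ (i + D) = 1 / 2 ^ D := by
    rw [pow_add]; field_simp
  rw [e2, hμ, hν, hν']
  have h16 : (16 : ℝ) ^ (i + D) = 16 ^ i * (2 ^ D * 2 ^ D * (2 ^ D * 2 ^ D)) := by
    rw [pow_add, ← mul_pow, ← mul_pow]; norm_num
  have h4D : (4 : ℝ) ^ D = 2 ^ D * 2 ^ D := by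
    rw [← mul_pow]; norm_num
  rw [h16, h4D]
  have hp2 : (2 : ℝ) ^ D ≠ 0 := by positivity
  have hp16 : (16 : ℝ) ^ i ≠ 0 := by positivity
  have hB' : B ≠ 0 := hB.ne'
  have hl' : l ≠ 0 := hl.ne'
  generalize (2 : ℝ) ^ D = p at *
  generalize (16 : ℝ) ^ i = q at *
  generalize av2 (w i) = wi
  generalize av2 (w (i + D)) = wj
  field_simp
  ring

theorem combine {A : ℕ} (T w : ℕ → Bits A → Bits A → ℝ) (hT : ∀ j x y, 0 ≤ T j x y)
    (hw : ∀ j, Ind (w j)) (hTw : ∀ j x y, w j x y ≠ 1 → T j x y = 0) {B l : ℝ} (hB : 0 < B)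
    (hl : 0 < l) (J : ℕ)
    (h4 : ∀ j, av2 (fun x y => T j x y ^ 4) ≤ B ^ 2 * (l * 16 ^ j) ^ 2 * av2 (w j)) :
    av2 (fun x y => (∑ j ∈ range J, T j x y) ^ 2) ≤
      4 * B * ∑ j ∈ range J, l * 16 ^ j * av2 (w j) := by
  set a : ℕ → ℝ := fun j => l * 16 ^ j * av2 (w j) with ha
  have ha0 : ∀ j, 0 ≤ a j := by
    intro j
    have : 0 ≤ av2 (w j) := av2_nonneg fun x y => by
      rcases hw j x y with h | h <;> rw [h]
      norm_num
    simp only [ha]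
    positivity
  have hpair : ∀ {i j : ℕ}, i ≤ j → av2 (fun x y => T i x y * T j x y) ≤
      B * (2 ^ i / 2 ^ j) * (a i / 4 + 3 * a j / 4) := fun h =>
    cmb_pair T w hw hTw hB hl h4 h
  have key : ∀ J : ℕ, av2 (fun x y => (∑ j ∈ range J, T j x y) ^ 2) ≤
      B * (3 * (∑ j ∈ range J, a j) - (∑ j ∈ range J, 2 ^ j * a j) / 2 ^ J) := by
    intro J
    induction J with
    | zero => simp [av2_zero]
    | succ J ih =>
      have e1 : av2 (fun x y => (∑ j ∈ range (J + 1), T j x y) ^ 2) =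
          av2 (fun x y => (∑ j ∈ range J, T j x y) ^ 2) +
            2 * (∑ i ∈ range J, av2 (fun x y => T i x y * T J x y)) +
            av2 (fun x y => T J x y * T J x y) := by
        rw [← av2_sum, ← av2_const_mul, ← av2_add, ← av2_add]
        refine av2_congr fun x y => ?_
        rw [sum_range_succ, ← sum_mul]
        ring
      have e2 : ∑ i ∈ range J, av2 (fun x y => T i x y * T J x y) ≤
          B * ((∑ i ∈ range J, 2 ^ i * a i) / 2 ^ J / 4 + 3 / 4 * a J) := by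
        have h1 : ∑ i ∈ range J, av2 (fun x y => T i x y * T J x y) ≤
            ∑ i ∈ range J, B * (2 ^ i / 2 ^ J) * (a i / 4 + 3 * a J / 4) :=
          sum_le_sum fun i hi => hpair (mem_range.1 hi).le
        have h2 : ∑ i ∈ range J, B * (2 ^ i / 2 ^ J) * (a i / 4 + 3 * a J / 4) =
            B * ((∑ i ∈ range J, 2 ^ i * a i) / 2 ^ J / 4 +
              3 / 4 * a J * ((∑ i ∈ range J, (2 : ℝ) ^ i) / 2 ^ J)) := by
          rw [sum_div, sum_div, sum_div, mul_sum, ← sum_add_distrib, mul_sum]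
          exact sum_congr rfl fun i _ => by ring
        have h3 : (∑ i ∈ range J, (2 : ℝ) ^ i) / 2 ^ J ≤ 1 := by
          rw [div_le_one (by positivity), geom_sum_eq (by norm_num)]
          norm_num
        have h4 : 3 / 4 * a J * ((∑ i ∈ range J, (2 : ℝ) ^ i) / 2 ^ J) ≤ 3 / 4 * a J * 1 :=
          mul_le_mul_of_nonneg_left h3 (by have := ha0 J; positivity)
        rw [h2] at h1
        refine h1.trans (mul_le_mul_of_nonneg_left ?_ hB.le)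
        linarith
      have e3 : av2 (fun x y => T J x y * T J x y) ≤ B * a J := by
        have := hpair (le_refl J)
        rw [div_self (by positivity : (2 : ℝ) ^ J ≠ 0)] at this
        refine this.trans (le_of_eq ?_)
        ring
      rw [e1, sum_range_succ, sum_range_succ]
      have e4 : (∑ j ∈ range J, 2 ^ j * a j + 2 ^ J * a J) / 2 ^ (J + 1) =
          (∑ j ∈ range J, 2 ^ j * a j) / 2 ^ J / 2 + a J / 2 := by
        rw [pow_succ]; field_simp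
      rw [e4]
      nlinarith [ih, e2, e3]
  have hP : 0 ≤ (∑ j ∈ range J, 2 ^ j * a j) / 2 ^ J :=
    div_nonneg (sum_nonneg fun j _ => mul_nonneg (by positivity) (ha0 j)) (by positivity)
  have hS : 0 ≤ ∑ j ∈ range J, a j := sum_nonneg fun j _ => ha0 j
  refine (key J).trans ?_
  have : B * (3 * (∑ j ∈ range J, a j) - (∑ j ∈ range J, 2 ^ j * a j) / 2 ^ J) ≤
      B * (4 * ∑ j ∈ range J, a j) := by
    apply mul_le_mul_of_nonneg_left _ hB.le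
    linarith
  refine this.trans (le_of_eq ?_)
  ring

end Pool.Agent.Hyp
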