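import Pool.Agent.Hyp.Defs

/-!
# Module Decomp: the coefficients are the sum of their pieces

**PROOF of `decomp`.** For `s ≤ s'`, `dens c s' ≤ dens c s` pointwise (`ce2_mono`), so
`[1/2 ≤ dens s ∧ dens s' < 1/2] = [1/2 ≤ dens s] - [1/2 ≤ dens s']` as numbers `0, 1`, and the sum
over `j < J` telescopes: `∑ j < J, piece c (l 16^j) (l 16^(j+1)) n m x y =
([1/2 ≤ dens c l n m x y] - [1/2 ≤ dens c (l 16^J) n m x y]) * c n m x y`.
Choice of `l`: if `c n m x y ≠ 0` then, `c n m` being adapted, `VV c ≥ c n m x y ^2` at all points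
`(glue n x b, glue m y b')`; the types are finite, so there is `l > 0` with `l < c n m x y ^2`
whenever `c n m x y ≠ 0` (e.g. half of the minimum of the nonzero values; `l = 1` if there are none);
then `dens c l n m x y = 1` (average of the constant `1`).
Choice of `J`: `VV c` takes finitely many values; `VV c ≤ l 16^J` everywhere for some `J`
(`16^J → ∞`), and then `dens c (l 16^J) = 0`.

**PROOF of `sum_level_le`.** The terms with `l 16^j < v` are `j < j0`, a geometric sum which is at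
most `16/15` times its last term `< v`.  (Induction on `J`: claim
`∑ j < J, l 16^j [l 16^j < v] ≤ (16/15) v` - e.g. prove the stronger `≤ (16/15) min v (l 16^J)`
or use: if `l 16^(J-1) < v` then the sum is `≤ ∑ j < J, l 16^j ≤ (16/15) l 16^(J-1)`, otherwise drop
the last term.)
-/

set_option autoImplicit false

namespace Pool.Agent.Hyp

open Finset

private theorem dc_dens_anti {A : ℕ} (c : Coef A) {s s' : ℝ} (h : s ≤ s') (n m : ℕ) (x y : Bits A) :
    dens c s' n m x y ≤ dens c s n m x y := by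
  unfold dens
  apply ce2_mono
  intro x y
  split_ifs with h1 h2 h2
  · exact le_rfl
  · exact absurd (lt_of_le_of_lt h h1) h2
  · exact zero_le_one
  · exact le_rfl

private theorem dc_piece {A : ℕ} (c : Coef A) {s s' : ℝ} (h : s ≤ s') (n m : Fin A) (x y : Bits A) :
    piece c s s' n m x y = (if 1 / 2 ≤ dens c s n m x y then (1 : ℝ) else 0) * c n m x y -
      (if 1 / 2 ≤ dens c s' n m x y then (1 : ℝ) else 0) * c n m x y := by
  have h1 := dc_dens_anti c h n m x y
  unfold piece
  by_cases h2 : 1 / 2 ≤ dens c s n m x y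
  · by_cases h3 : 1 / 2 ≤ dens c s' n m x y
    · rw [if_neg (fun h4 => absurd h4.2 (not_lt.mpr h3)), if_pos h2, if_pos h3]
      ring
    · rw [if_pos ⟨h2, not_le.mp h3⟩, if_pos h2, if_neg h3]
      ring
  · have h3 : ¬ 1 / 2 ≤ dens c s' n m x y := fun h4 => h2 (h4.trans h1)
    rw [if_neg (fun h4 => h2 h4.1), if_neg h2, if_neg h3]
    ring

private theorem dc_low {A : ℕ} (c : Coef A) : ∃ l : ℝ, 0 < l ∧
    ∀ n m x y, c n m x y ≠ 0 → l < c n m x y ^ 2 := by
  have h1 : ∀ᶠ l in nhdsWithin (0 : ℝ) (Set.Ioi 0), ∀ t : Fin A × Fin A × Bits A × Bits A,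
      c t.1 t.2.1 t.2.2.1 t.2.2.2 ≠ 0 → l < c t.1 t.2.1 t.2.2.1 t.2.2.2 ^ 2 := by
    rw [Filter.eventually_all]
    intro t
    by_cases ht : c t.1 t.2.1 t.2.2.1 t.2.2.2 = 0
    · exact Filter.Eventually.of_forall fun l h => absurd ht h
    · have hpos : 0 < c t.1 t.2.1 t.2.2.1 t.2.2.2 ^ 2 := by positivity
      filter_upwards [(eventually_lt_nhds hpos).filter_mono nhdsWithin_le_nhds] with l hl _
      exact hl
  obtain ⟨l, hl, hl0⟩ := (h1.and self_mem_nhdsWithin).exists
  exact ⟨l, hl0, fun n m x y h => hl (n, m, x, y) h⟩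

private theorem dc_high {A : ℕ} (c : Coef A) {l : ℝ} (hl : 0 < l) : ∃ J : ℕ,
    ∀ x y, VV c x y ≤ l * 16 ^ J := by
  have h1 : Filter.Tendsto (fun J : ℕ => l * (16 : ℝ) ^ J) Filter.atTop Filter.atTop :=
    Filter.Tendsto.const_mul_atTop hl (tendsto_pow_atTop_atTop_of_one_lt (by norm_num))
  have h2 : ∀ᶠ J : ℕ in Filter.atTop, ∀ t : Bits A × Bits A, VV c t.1 t.2 ≤ l * 16 ^ J := by
    rw [Filter.eventually_all]
    intro t
    exact h1.eventually_ge_atTop _
  obtain ⟨J, hJ⟩ := h2.exists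
  exact ⟨J, fun x y => hJ (x, y)⟩

private theorem dc_dens_one {A : ℕ} {c : Coef A} (hc : AdC c) {l : ℝ} {n m : Fin A} {x y : Bits A}
    (h : l < c n m x y ^ 2) : dens c l n m x y = 1 := by
  unfold dens ce2
  have h1 : ∀ b b' : Bits A, (if l < VV c (glue n x b) (glue m y b') then (1 : ℝ) else 0) = 1 := by
    intro b b'
    rw [if_pos]
    refine lt_of_lt_of_le h ?_
    rw [← hc n m x y b b']
    unfold VV
    calc c n m (glue n x b) (glue m y b') ^ 2
        ≤ ∑ m' : Fin A, c n m' (glue n x b) (glue m y b') ^ 2 :=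
          Finset.single_le_sum (f := fun m' => c n m' (glue n x b) (glue m y b') ^ 2)
            (fun i _ => sq_nonneg _) (Finset.mem_univ m)
      _ ≤ ∑ n' : Fin A, ∑ m' : Fin A, c n' m' (glue n x b) (glue m y b') ^ 2 :=
          Finset.single_le_sum
            (f := fun n' => ∑ m' : Fin A, c n' m' (glue n x b) (glue m y b') ^ 2)
            (fun i _ => Finset.sum_nonneg fun j _ => sq_nonneg _) (Finset.mem_univ n)
  simp only [h1, av_const]

private theorem dc_dens_zero {A : ℕ} {c : Coef A} {s : ℝ} (h : ∀ x y, VV c x y ≤ s) (n m : ℕ)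
    (x y : Bits A) : dens c s n m x y = 0 := by
  unfold dens
  have h1 : (fun x y : Bits A => if s < VV c x y then (1 : ℝ) else 0) = fun _ _ => 0 := by
    funext x y
    rw [if_neg (not_lt.mpr (h x y))]
  rw [h1, ce2_const]

theorem decomp {A : ℕ} {c : Coef A} (hc : AdC c) :
    ∃ l : ℝ, 0 < l ∧ ∃ J : ℕ, ∀ n m x y,
      c n m x y = ∑ j ∈ range J, piece c (l * 16 ^ j) (l * 16 ^ (j + 1)) n m x y := by
  obtain ⟨l, hl, hlow⟩ := dc_low c
  obtain ⟨J, hJ⟩ := dc_high c hl
  refine ⟨l, hl, J, fun n m x y => ?_⟩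
  have h1 : ∀ j ∈ range J, piece c (l * 16 ^ j) (l * 16 ^ (j + 1)) n m x y =
      (fun j : ℕ => (if 1 / 2 ≤ dens c (l * 16 ^ j) n m x y then (1 : ℝ) else 0) * c n m x y) j -
      (fun j : ℕ => (if 1 / 2 ≤ dens c (l * 16 ^ j) n m x y then (1 : ℝ) else 0) * c n m x y)
        (j + 1) := by
    intro j _
    apply dc_piece
    apply mul_le_mul_of_nonneg_left _ hl.le
    exact pow_le_pow_right₀ (by norm_num) (Nat.le_succ j)
  rw [Finset.sum_congr rfl h1, Finset.sum_range_sub']
  by_cases hc0 : c n m x y = 0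
  · rw [hc0]
    ring
  · have h2 : dens c (l * 16 ^ 0) n m x y = 1 := by
      rw [pow_zero, mul_one]
      exact dc_dens_one hc (hlow n m x y hc0)
    rw [h2, dc_dens_zero hJ, if_pos (by norm_num), if_neg (by norm_num)]
    ring

theorem sum_level_le {l : ℝ} (hl : 0 < l) (J : ℕ) {v : ℝ} (hv : 0 ≤ v) :
    ∑ j ∈ range J, l * 16 ^ j * (if l * 16 ^ j < v then (1 : ℝ) else 0) ≤ 2 * v := by
  have key : ∑ j ∈ range J, l * 16 ^ j * (if l * 16 ^ j < v then (1 : ℝ) else 0) ≤
      l * 16 ^ J / 15 ∧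
      ∑ j ∈ range J, l * 16 ^ j * (if l * 16 ^ j < v then (1 : ℝ) else 0) ≤ 16 / 15 * v := by
    induction J with
    | zero =>
      rw [Finset.range_zero, Finset.sum_empty]
      constructor
      · positivity
      · positivity
    | succ J ih =>
      obtain ⟨h1, h2⟩ := ih
      rw [Finset.sum_range_succ]
      have h3 : 0 < l * 16 ^ J := by positivity
      have h4 : l * 16 ^ (J + 1) = 16 * (l * 16 ^ J) := by ring
      by_cases h5 : l * 16 ^ J < v
      · rw [if_pos h5, h4]
        constructor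
        · linarith
        · linarith
      · rw [if_neg h5, h4]
        constructor
        · linarith
        · linarith
  linarith [key.2]

end Pool.Agent.Hyp
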