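import Pool.Agent.Hyp.VDoob

/-!
# Module Msf: the strong maximal function on L2, enlarged level sets

**PROOF of `msf_sq`.** `msf g x y = mx (fun x' => mx (g x') y) x`.  `vdoob` with `ι = Unit`, `q = 1`
is `av (mx g ^2) ≤ 4 av (g ^2)`.  For fixed `y` apply it to `x' ↦ mx (g x') y ≥ 0`
(`mx_nonneg`), average over `y`, exchange (`av_comm`), and for fixed `x` apply it to `g x`.
**PROOF of `wt_av`.** With `h x y = if s < VV c x y then 1 else 0`: `wt c s x y ≤ 4 msf h x y ^2`
(if `1/2 ≤ msf h` then `4 msf^2 ≥ 1`), and `h^2 = h`; so `av2 wt ≤ 4 * 16 * av2 h`.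
-/

set_option autoImplicit false

namespace Pool.Agent.Hyp

open Finset

private theorem Msf_doob {A : ℕ} (g : Bits A → ℝ) (hg : ∀ x, 0 ≤ g x) :
    av (fun x => mx g x ^ 2) ≤ 4 * av (fun x => g x ^ 2) := by
  have h := vdoob (ι := Unit) (fun _ => g) (fun _ => hg) 1
  simpa using h

theorem msf_sq {A : ℕ} (g : Bits A → Bits A → ℝ) (hg : ∀ x y, 0 ≤ g x y) :
    av2 (fun x y => msf g x y ^ 2) ≤ 16 * av2 (fun x y => g x y ^ 2) := by
  unfold av2
  calc av (fun x => av fun y => msf g x y ^ 2)
      = av (fun y => av fun x => msf g x y ^ 2) := av_comm _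
    _ ≤ av (fun y => 4 * av fun x => mx (fun y' => g x y') y ^ 2) := by
        refine av_mono fun y => ?_
        exact Msf_doob (fun x' => mx (fun y' => g x' y') y)
          (fun x' => mx_nonneg (fun y' => hg x' y') y)
    _ = 4 * av (fun x => av fun y => mx (fun y' => g x y') y ^ 2) := by
        rw [av_const_mul, av_comm]
    _ ≤ 4 * av (fun x => 4 * av fun y => g x y ^ 2) := by
        refine mul_le_mul_of_nonneg_left (av_mono fun x => ?_) (by norm_num)
        exact Msf_doob (fun y' => g x y') (fun y' => hg x y')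
    _ = 16 * av (fun x => av fun y => g x y ^ 2) := by
        rw [av_const_mul]
        ring

theorem wt_av {A : ℕ} (c : Coef A) (s : ℝ) :
    av2 (wt c s) ≤ 64 * av2 (fun x y => if s < VV c x y then 1 else 0) := by
  have h0 : ∀ x y, (0 : ℝ) ≤ (if s < VV c x y then 1 else 0) := fun x y => by
    split_ifs <;> norm_num
  have h1 : av2 (wt c s) ≤
      av2 (fun x y => 4 * msf (fun x y => if s < VV c x y then 1 else 0) x y ^ 2) := by
    refine av2_mono fun x y => ?_
    unfold wt
    split_ifs with h
    · nlinarith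
    · positivity
  rw [av2_const_mul] at h1
  have h2 := msf_sq (fun x y => if s < VV c x y then (1 : ℝ) else 0) h0
  have h3 : av2 (fun x y => (if s < VV c x y then (1 : ℝ) else 0) ^ 2) =
      av2 (fun x y => if s < VV c x y then 1 else 0) := by
    refine av2_congr fun x y => ?_
    split_ifs <;> norm_num
  rw [h3] at h2
  linarith

end Pool.Agent.Hyp
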