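import Pool.Agent.Hyp.DDoob

set_option autoImplicit false

/-!
# Module PieceM: the pieces of the level set decomposition

Definitions `dens`, `piece`, `wt` in `Defs.lean`.

**PROOF of `piece_sup`.** If `piece c s s' n m x y ≠ 0` then
`1/2 ≤ dens c s n m x y = ce2 n m h x y ≤ msf h x y` (`ce2_le_msf`), `h` the indicator function of
`s < VV c`; so `wt c s x y = 1`.
**PROOF of `piece_mom`.** Let `pc = piece c s s'` (adapted, `piece_adc`), `h n m x y =
pc n m x y ^2 * (if VV c x y ≤ s' then 1 else 0)`.  By `ce2_mul_adp` (`pc n m ^2` is adapted)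
`ce2 n m (h n m) x y = pc n m x y ^2 * ce2 n m (1_{VV ≤ s'}) x y` and
`ce2 n m (1_{VV ≤ s'}) x y = 1 - dens c s' n m x y > 1/2` if `pc n m x y ≠ 0` (`ce2_sub`,
`ce2_const`; `1_{V ≤ s'} = 1 - 1_{s' < V}`).  So `pc n m x y ^2 ≤ 2 ce2 n m (h n m) x y` and
`VV pc x y ≤ 2 ∑ n ∑ m ce2 n m (h n m) x y`.  `ddoob2`:
`av2 (VV pc ^p) ≤ 2^p p^(2p) av2 ((∑ n ∑ m h n m)^p)`.  Finally `∑ n ∑ m h n m x y` is
`≤ VV c x y ≤ s'` if `VV c x y ≤ s'` (because `pc n m ^2 ≤ c n m ^2`) and `0` otherwise; it is `0` if
`wt c s x y = 0` (`piece_sup`).  So its `p`-th power (`p ≥ 1`) is `≤ s'^p wt c s x y`.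
`2^p p^(2p) s'^p = (2 s' p^2)^p`.
-/

namespace Pool.Agent.Hyp

open Finset

theorem wt_ind {A : ℕ} (c : Coef A) (s : ℝ) : Ind (wt c s) := by
  intro x y
  unfold wt
  split_ifs
  · exact Or.inr rfl
  · exact Or.inl rfl

theorem piece_sup {A : ℕ} (c : Coef A) (s s' : ℝ) : Sup (piece c s s') (wt c s) := by
  intro n m x y h
  unfold piece at h
  split_ifs at h with h1
  · unfold wt
    rw [if_pos]
    exact h1.1.trans (ce2_le_msf _ _ _ _ _)
  · exact absurd rfl h

theorem piece_point {A : ℕ} {c : Coef A} (hc : AdC c) (s s' : ℝ) (n m : Fin A) (x y : Bits A) :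
    piece c s s' n m x y ^ 2 ≤ 2 * ce2 n m (fun x y => piece c s s' n m x y ^ 2 *
      (if VV c x y ≤ s' then 1 else 0)) x y := by
  have hadp : Adp2 (n : ℕ) (m : ℕ) (fun x y => piece c s s' n m x y ^ 2) := by
    intro x y b b'
    simp only [piece_adc hc s s' n m x y b b']
  rw [ce2_mul_adp hadp]
  have h1 : ce2 n m (fun x y => if VV c x y ≤ s' then (1 : ℝ) else 0) x y =
      1 - dens c s' n m x y := by
    have e : (fun x y => if VV c x y ≤ s' then (1 : ℝ) else 0) =
        fun x y => 1 - (if s' < VV c x y then 1 else 0) := by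
      funext x y
      by_cases h : VV c x y ≤ s'
      · rw [if_pos h, if_neg (not_lt.2 h), sub_zero]
      · rw [if_neg h, if_pos (not_le.1 h), sub_self]
    rw [e, ce2_sub, ce2_const]
    rfl
  rw [h1]
  by_cases h2 : 1 / 2 ≤ dens c s n m x y ∧ dens c s' n m x y < 1 / 2
  · have h3 := sq_nonneg (piece c s s' n m x y)
    nlinarith [h2.2]
  · have h3 : piece c s s' n m x y = 0 := by
      unfold piece
      rw [if_neg h2]
    rw [h3]
    simp

theorem piece_mom {A : ℕ} {c : Coef A} (hc : AdC c) (s s' : ℝ) (hs' : 0 ≤ s') (p : ℕ)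
    (hp : 1 ≤ p) :
    av2 (fun x y => VV (piece c s s') x y ^ p) ≤ (2 * s' * (p : ℝ) ^ 2) ^ p * av2 (wt c s) := by
  obtain ⟨h, hh⟩ : ∃ h : Fin A → Fin A → Bits A → Bits A → ℝ, h = fun n m x y =>
    piece c s s' n m x y ^ 2 * (if VV c x y ≤ s' then 1 else 0) := ⟨_, rfl⟩
  have h0 : ∀ n m x y, 0 ≤ h n m x y := by
    intro n m x y
    rw [hh]
    refine mul_nonneg (sq_nonneg _) ?_
    split_ifs
    · exact zero_le_one
    · exact le_rfl
  have hpt : ∀ x y, VV (piece c s s') x y ≤ 2 * ∑ n : Fin A, ∑ m : Fin A, ce2 n m (h n m) x y := by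
    intro x y
    unfold VV
    rw [mul_sum]
    refine sum_le_sum fun n _ => ?_
    rw [mul_sum]
    refine sum_le_sum fun m _ => ?_
    rw [hh]
    exact piece_point hc s s' n m x y
  have step1 : av2 (fun x y => VV (piece c s s') x y ^ p) ≤
      2 ^ p * av2 (fun x y => (∑ n : Fin A, ∑ m : Fin A, ce2 n m (h n m) x y) ^ p) := by
    rw [← av2_const_mul]
    refine av2_mono fun x y => ?_
    rw [← mul_pow]
    exact pow_le_pow_left₀ (VV_nonneg _ x y) (hpt x y) p
  have step2 := ddoob2 h h0 p
  have hpt2 : ∀ x y, (∑ n, ∑ m, h n m x y) ^ p ≤ s' ^ p * wt c s x y := by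
    intro x y
    rcases wt_ind c s x y with hw | hw
    · have hz : ∀ n m, h n m x y = 0 := by
        intro n m
        rw [hh]
        have : piece c s s' n m x y = 0 := by
          by_contra hcon
          have := piece_sup c s s' n m x y hcon
          rw [hw] at this
          exact zero_ne_one this
        simp only [this]
        ring
      simp only [hz, sum_const_zero, hw, mul_zero]
      rw [zero_pow (by omega)]
    · rw [hw, mul_one]
      refine pow_le_pow_left₀ (sum_nonneg fun n _ => sum_nonneg fun m _ => h0 n m x y) ?_ p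
      by_cases hV : VV c x y ≤ s'
      · refine le_trans ?_ hV
        unfold VV
        refine sum_le_sum fun n _ => sum_le_sum fun m _ => ?_
        rw [hh]
        simp only [if_pos hV, mul_one]
        unfold piece
        split_ifs
        · exact le_rfl
        · rw [zero_pow two_ne_zero]
          exact sq_nonneg _
      · have hz : ∀ n m, h n m x y = 0 := by
          intro n m
          rw [hh]
          simp only [if_neg hV, mul_zero]
        simp only [hz, sum_const_zero]
        exact hs'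
  have step3 : av2 (fun x y => (∑ n, ∑ m, h n m x y) ^ p) ≤ s' ^ p * av2 (wt c s) := by
    rw [← av2_const_mul]
    exact av2_mono hpt2
  calc av2 (fun x y => VV (piece c s s') x y ^ p)
      ≤ 2 ^ p * ((p : ℝ) ^ (2 * p) * (s' ^ p * av2 (wt c s))) := by
        refine step1.trans (mul_le_mul_of_nonneg_left (step2.trans ?_) (by positivity))
        exact mul_le_mul_of_nonneg_left step3 (by positivity)
    _ = (2 * s' * (p : ℝ) ^ 2) ^ p * av2 (wt c s) := by
        rw [mul_pow, mul_pow, pow_mul]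
        ring

end Pool.Agent.Hyp
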