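import Pool.Agent.Hyp.PropA
import Pool.Agent.Hyp.PieceM
import Pool.Agent.Hyp.Msf
import Pool.Agent.Hyp.Decomp
import Pool.Agent.Hyp.Combine

/-!
# Module Core: the maximal inequality in the finite model

**PROOF.** Take `l, J` from `decomp hc`, `s j = l 16^j`, `pc j = piece c (s j) (s (j+1))`,
`w j = wt c (s j)`.  `SS` is additive in the coefficients, so
`SS c 0 k x y = ∑ j < J, SS (pc j) 0 k x y` and `TT c K x y ≤ ∑ j < J, TT (pc j) K x y` (`TT_le`,
`le_TT`).  Let `c' j n m x y = pc j n m x y / √(s j)`.  It is adapted, supported in `w j`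
(`piece_sup`), `VV (c' j) = VV (pc j) / s j`, so by `piece_mom` (`s' = 16 s j`)
`av2 (VV (c' j)^p) ≤ (32 p^2)^p av2 (w j)`: `Mom (c' j) (w j)`.  `propA` gives
`av2 (TT (c' j) K ^4) ≤ 10^40 r^16 av2 (w j)`, and `TT (pc j) K = √(s j) TT (c' j) K`, so
`av2 (TT (pc j) K ^4) ≤ B^2 (s j)^2 av2 (w j)` with `B = 10^20 r^8`.  `TT (pc j) K x y = 0` if
`w j x y ≠ 1` (`TT_eq_zero`).  `combine` gives
`av2 (TT c K ^2) ≤ 4 B ∑ j < J, s j av2 (w j) ≤ 256 B ∑ j < J, s j av2 (1_{s j < VV c})` (`wt_av`)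
`= 256 B av2 (∑ j < J, s j 1_{s j < VV c}) ≤ 512 B av2 (VV c)` (`sum_level_le`).
`512 * 10^20 ≤ 10^23`.
-/

set_option autoImplicit false

namespace Pool.Agent.Hyp

open Finset Classical

private def scl {A : ℕ} (t : ℝ) (c : Coef A) : Coef A := fun n m x y => t * c n m x y

private theorem scl_adc {A : ℕ} {c : Coef A} (hc : AdC c) (t : ℝ) : AdC (scl t c) := by
  intro n m x y b b'
  unfold scl
  rw [hc n m x y b b']

private theorem scl_sup {A : ℕ} {c : Coef A} {w : Bits A → Bits A → ℝ} (hs : Sup c w) (t : ℝ) :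
    Sup (scl t c) w := by
  intro n m x y h
  exact hs n m x y (right_ne_zero_of_mul h)

private theorem scl_VV {A : ℕ} (t : ℝ) (c : Coef A) (x y : Bits A) :
    VV (scl t c) x y = t ^ 2 * VV c x y := by
  unfold VV scl
  rw [Finset.mul_sum]
  refine Finset.sum_congr rfl fun n _ => ?_
  rw [Finset.mul_sum]
  exact Finset.sum_congr rfl fun m _ => by ring

private theorem scl_SS {A : ℕ} (t : ℝ) (c : Coef A) (k' k : ℕ) (x y : Bits A) :
    SS (scl t c) k' k x y = t * SS c k' k x y := by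
  unfold SS dd scl
  rw [Finset.mul_sum]
  refine Finset.sum_congr rfl fun n _ => ?_
  rw [Finset.mul_sum]
  refine Finset.sum_congr rfl fun m _ => ?_
  split_ifs
  · ring
  · rw [mul_zero]

private theorem scl_TT {A : ℕ} {t : ℝ} (ht : 0 ≤ t) (c : Coef A) (K : Finset ℕ) (x y : Bits A) :
    TT (scl t c) K x y = t * TT c K x y := by
  unfold TT
  rw [Real.mul_iSup_of_nonneg ht]
  congr 1
  funext k
  rw [scl_SS, abs_mul, abs_of_nonneg ht]

private theorem core_SS {A : ℕ} {c : Coef A} {J : ℕ} {pc : ℕ → Coef A}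
    (h : ∀ n m x y, c n m x y = ∑ j ∈ range J, pc j n m x y) (k' k : ℕ) (x y : Bits A) :
    SS c k' k x y = ∑ j ∈ range J, SS (pc j) k' k x y := by
  unfold SS dd
  symm
  rw [Finset.sum_comm]
  refine Finset.sum_congr rfl fun n _ => ?_
  rw [Finset.sum_comm]
  refine Finset.sum_congr rfl fun m _ => ?_
  by_cases h1 : k' ≤ (n : ℕ) + m ∧ (n : ℕ) + m < k
  · simp only [if_pos h1]
    rw [h, Finset.mul_sum]
  · simp only [if_neg h1]
    rw [Finset.sum_const_zero]

private theorem core_TT {A : ℕ} {c : Coef A} {J : ℕ} {pc : ℕ → Coef A}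
    (h : ∀ n m x y, c n m x y = ∑ j ∈ range J, pc j n m x y) (K : Finset ℕ) (x y : Bits A) :
    TT c K x y ≤ ∑ j ∈ range J, TT (pc j) K x y := by
  have h0 : 0 ≤ ∑ j ∈ range J, TT (pc j) K x y :=
    Finset.sum_nonneg fun j _ => TT_nonneg (pc j) K x y
  refine TT_le c K x y h0 fun k hk => ?_
  rw [core_SS h]
  refine (Finset.abs_sum_le_sum_abs (fun j => SS (pc j) 0 k x y) (range J)).trans ?_
  exact Finset.sum_le_sum fun j _ => le_TT (pc j) hk x y

/-- the fourth moment of the maximal function of a piece -/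
private theorem core_piece {A : ℕ} {c : Coef A} (hc : AdC c) (K : Finset ℕ) (r : ℕ) (hr : 1 ≤ r)
    (hK : Real.log (K.card + 3) ≤ Real.exp r) {s : ℝ} (hs : 0 < s) :
    av2 (fun x y => TT (piece c s (16 * s)) K x y ^ 4) ≤
      (10 ^ 20 * (r : ℝ) ^ 8) ^ 2 * s ^ 2 * av2 (wt c s) := by
  set t : ℝ := (Real.sqrt s)⁻¹ with ht
  have ht0 : 0 ≤ t := inv_nonneg.2 (Real.sqrt_nonneg s)
  have ht2 : t ^ 2 = s⁻¹ := by rw [ht, inv_pow, Real.sq_sqrt hs.le]
  have ht4 : t ^ 4 = (s ^ 2)⁻¹ := by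
    have : t ^ 4 = (t ^ 2) ^ 2 := by ring
    rw [this, ht2, inv_pow]
  have hM : Mom (scl t (piece c s (16 * s))) (wt c s) := by
    intro p hp
    have h1 := piece_mom hc s (16 * s) (by positivity) p hp
    have h2 : av2 (fun x y => VV (scl t (piece c s (16 * s))) x y ^ p) =
        (s⁻¹) ^ p * av2 (fun x y => VV (piece c s (16 * s)) x y ^ p) := by
      rw [← av2_const_mul]
      refine av2_congr fun x y => ?_
      rw [scl_VV, ht2, mul_pow]
    rw [h2]
    calc (s⁻¹) ^ p * av2 (fun x y => VV (piece c s (16 * s)) x y ^ p)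
        ≤ (s⁻¹) ^ p * ((2 * (16 * s) * (p : ℝ) ^ 2) ^ p * av2 (wt c s)) :=
          mul_le_mul_of_nonneg_left h1 (by positivity)
      _ = (32 * (p : ℝ) ^ 2) ^ p * av2 (wt c s) := by
          rw [← mul_assoc, ← mul_pow]
          congr 2
          field_simp
          ring
  have h3 := propA (scl_adc (piece_adc hc s (16 * s)) t) (wt_ind c s)
    (scl_sup (piece_sup c s (16 * s)) t) hM K r hr hK
  have h4 : av2 (fun x y => TT (scl t (piece c s (16 * s))) K x y ^ 4) =
      (s ^ 2)⁻¹ * av2 (fun x y => TT (piece c s (16 * s)) K x y ^ 4) := by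
    rw [← av2_const_mul]
    refine av2_congr fun x y => ?_
    rw [scl_TT ht0, mul_pow, ht4]
  rw [h4, inv_mul_le_iff₀ (by positivity)] at h3
  refine h3.trans (le_of_eq ?_)
  ring

theorem core {A : ℕ} {c : Coef A} (hc : AdC c) (K : Finset ℕ) (r : ℕ) (hr : 1 ≤ r)
    (hK : Real.log (K.card + 3) ≤ Real.exp r) :
    av2 (fun x y => TT c K x y ^ 2) ≤ 10 ^ 23 * (r : ℝ) ^ 8 * av2 (VV c) := by
  obtain ⟨l, hl, J, hdec⟩ := decomp hc
  have hr1 : (1 : ℝ) ≤ r := by exact_mod_cast hr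
  set B : ℝ := 10 ^ 20 * (r : ℝ) ^ 8 with hBdef
  have hB : 0 < B := by positivity
  have e16 : ∀ j : ℕ, l * 16 ^ (j + 1) = 16 * (l * 16 ^ j) := fun j => by ring
  have hcomb := combine (fun j => TT (piece c (l * 16 ^ j) (l * 16 ^ (j + 1))) K)
    (fun j => wt c (l * 16 ^ j)) (fun j x y => TT_nonneg _ _ _ _) (fun j => wt_ind c _)
    (fun j x y h => TT_eq_zero (piece_sup c _ _) h K) hB hl J (fun j => by
      rw [e16]
      exact core_piece hc K r hr hK (by positivity))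
  have h1 : av2 (fun x y => TT c K x y ^ 2) ≤
      av2 (fun x y => (∑ j ∈ range J, TT (piece c (l * 16 ^ j) (l * 16 ^ (j + 1))) K x y) ^ 2) := by
    refine av2_mono fun x y => ?_
    exact pow_le_pow_left₀ (TT_nonneg c K x y) (core_TT hdec K x y) 2
  have h2 : ∑ j ∈ range J, l * 16 ^ j * av2 (wt c (l * 16 ^ j)) ≤
      ∑ j ∈ range J, l * 16 ^ j * (64 * av2 (fun x y => if l * 16 ^ j < VV c x y then 1 else 0)) :=
    Finset.sum_le_sum fun j _ => mul_le_mul_of_nonneg_left (wt_av c _) (by positivity)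
  have h3 : ∑ j ∈ range J, l * 16 ^ j *
      (64 * av2 (fun x y => if l * 16 ^ j < VV c x y then 1 else 0)) =
      64 * av2 (fun x y => ∑ j ∈ range J, l * 16 ^ j *
        (if l * 16 ^ j < VV c x y then (1 : ℝ) else 0)) := by
    rw [av2_sum, Finset.mul_sum]
    refine Finset.sum_congr rfl fun j _ => ?_
    rw [av2_const_mul]
    ring
  have h4 : av2 (fun x y => ∑ j ∈ range J, l * 16 ^ j *
      (if l * 16 ^ j < VV c x y then (1 : ℝ) else 0)) ≤ 2 * av2 (VV c) := by
    rw [← av2_const_mul]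
    exact av2_mono fun x y => sum_level_le hl J (VV_nonneg c x y)
  have h5 : 0 ≤ av2 (VV c) := av2_nonneg fun x y => VV_nonneg c x y
  calc av2 (fun x y => TT c K x y ^ 2)
      ≤ 4 * B * ∑ j ∈ range J, l * 16 ^ j * av2 (wt c (l * 16 ^ j)) := h1.trans hcomb
    _ ≤ 4 * B * (64 * (2 * av2 (VV c))) := by
        refine mul_le_mul_of_nonneg_left ?_ (by positivity)
        refine h2.trans (h3.le.trans ?_)
        exact mul_le_mul_of_nonneg_left h4 (by norm_num)
    _ = 512 * B * av2 (VV c) := by ring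
    _ ≤ 10 ^ 23 * (r : ℝ) ^ 8 * av2 (VV c) := by
        refine mul_le_mul_of_nonneg_right ?_ h5
        rw [hBdef]
        have : (0 : ℝ) ≤ (r : ℝ) ^ 8 := by positivity
        nlinarith

end Pool.Agent.Hyp
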