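import Pool.Agent.Hyp.Defs

/-!
# The hyperbolic cross maximal operator: complex valued functions and characters

`SC f j` is the hyperbolic partial sum (levels `n + m < j`) of a complex valued function `f` of two
strings of bits; `DC f n` the `n`-th martingale difference of a function of one string; `ch a` the
character `x ↦ e (a t(x))`, `t(x) = ∑ x_i 2^(-i-1)`, written as a product over the bits.
-/

set_option autoImplicit false

namespace Pool.Agent.Hyp

open Finset

variable {A : ℕ}

/-- average of a complex valued function -/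
noncomputable def avC {α : Type} [Fintype α] (f : α → ℂ) : ℂ := (∑ x, f x) / (Fintype.card α : ℂ)

/-- `n`-th martingale difference of a function of one string -/
noncomputable def DC (f : Bits A → ℂ) (n : Fin A) (x : Bits A) : ℂ :=
  (sg (x n) : ℂ) * avC fun b => (sg (glue n x b n) : ℂ) * f (glue n x b)

/-- the term `(n, m)` of a function of two strings -/
noncomputable def cdd (f : Bits A → Bits A → ℂ) (n m : Fin A) (x y : Bits A) : ℂ :=
  (sg (x n) : ℂ) * (sg (y m) : ℂ) * avC fun b => avC fun b' =>
    (sg (glue n x b n) : ℂ) * (sg (glue m y b' m) : ℂ) * f (glue n x b) (glue m y b')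

/-- hyperbolic partial sum of a complex valued function -/
noncomputable def SC (f : Bits A → Bits A → ℂ) (j : ℕ) (x y : Bits A) : ℂ :=
  ∑ n : Fin A, ∑ m : Fin A, if (n : ℕ) + m < j then cdd f n m x y else 0

/-- energy of the `n`-th martingale difference -/
noncomputable def al (f : Bits A → ℂ) (n : Fin A) : ℝ := av fun x => ‖DC f n x‖ ^ 2

/-- the character with frequency `a` -/
noncomputable def ch (a : ℤ) (x : Bits A) : ℂ :=
  ∏ i : Fin A, if x i then Complex.exp (2 * Real.pi * Complex.I * a / 2 ^ ((i : ℕ) + 1)) else 1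

/-- the time of the martingale sums which corresponds to `T_{2^k}` -/
def jk (k : ℤ) : ℕ := (k / 2).toNat

theorem avC_re {α : Type} [Fintype α] (f : α → ℂ) : (avC f).re = av fun x => (f x).re := by
  unfold avC av
  rw [← Complex.ofReal_natCast, Complex.div_ofReal_re, Complex.re_sum]

theorem avC_im {α : Type} [Fintype α] (f : α → ℂ) : (avC f).im = av fun x => (f x).im := by
  unfold avC av
  rw [← Complex.ofReal_natCast, Complex.div_ofReal_im, Complex.im_sum]

theorem avC_const_mul {α : Type} [Fintype α] (c : ℂ) (f : α → ℂ) :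
    avC (fun x => c * f x) = c * avC f := by
  unfold avC
  rw [← Finset.mul_sum, mul_div_assoc]

theorem avC_mul_const {α : Type} [Fintype α] (c : ℂ) (f : α → ℂ) :
    avC (fun x => f x * c) = avC f * c := by
  unfold avC
  rw [← Finset.sum_mul]
  ring

theorem avC_add {α : Type} [Fintype α] (f g : α → ℂ) :
    avC (fun x => f x + g x) = avC f + avC g := by
  unfold avC
  rw [Finset.sum_add_distrib, add_div]

theorem avC_sum {α ι : Type} [Fintype α] (s : Finset ι) (f : ι → α → ℂ) :
    avC (fun x => ∑ i ∈ s, f i x) = ∑ i ∈ s, avC (f i) := by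
  unfold avC
  rw [Finset.sum_comm, Finset.sum_div]

theorem avC_const {α : Type} [Fintype α] [Nonempty α] (c : ℂ) : avC (fun _ : α => c) = c := by
  unfold avC
  rw [Finset.sum_const, Finset.card_univ, nsmul_eq_mul]
  have : (Fintype.card α : ℂ) ≠ 0 := by exact_mod_cast Fintype.card_ne_zero
  field_simp

theorem cdd_re (f : Bits A → Bits A → ℂ) (n m : Fin A) (x y : Bits A) :
    (cdd f n m x y).re = dd (coefF (fun x y => (f x y).re)) n m x y := by
  unfold cdd dd coefF ce2
  rw [← Complex.ofReal_mul, Complex.re_ofReal_mul, avC_re]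
  congr 1
  refine av_congr fun b => ?_
  rw [avC_re]
  refine av_congr fun b' => ?_
  rw [← Complex.ofReal_mul, Complex.re_ofReal_mul]

theorem cdd_im (f : Bits A → Bits A → ℂ) (n m : Fin A) (x y : Bits A) :
    (cdd f n m x y).im = dd (coefF (fun x y => (f x y).im)) n m x y := by
  unfold cdd dd coefF ce2
  rw [← Complex.ofReal_mul, Complex.im_ofReal_mul, avC_im]
  congr 1
  refine av_congr fun b => ?_
  rw [avC_im]
  refine av_congr fun b' => ?_
  rw [← Complex.ofReal_mul, Complex.im_ofReal_mul]

theorem SC_re (f : Bits A → Bits A → ℂ) (j : ℕ) (x y : Bits A) :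
    (SC f j x y).re = SS (coefF (fun x y => (f x y).re)) 0 j x y := by
  unfold SC SS
  rw [Complex.re_sum]
  refine Finset.sum_congr rfl fun n _ => ?_
  rw [Complex.re_sum]
  refine Finset.sum_congr rfl fun m _ => ?_
  by_cases h : (n : ℕ) + m < j
  · rw [if_pos h, if_pos ⟨Nat.zero_le _, h⟩, cdd_re]
  · rw [if_neg h, if_neg (fun h' => h h'.2), Complex.zero_re]

theorem SC_im (f : Bits A → Bits A → ℂ) (j : ℕ) (x y : Bits A) :
    (SC f j x y).im = SS (coefF (fun x y => (f x y).im)) 0 j x y := by
  unfold SC SS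
  rw [Complex.im_sum]
  refine Finset.sum_congr rfl fun n _ => ?_
  rw [Complex.im_sum]
  refine Finset.sum_congr rfl fun m _ => ?_
  by_cases h : (n : ℕ) + m < j
  · rw [if_pos h, if_pos ⟨Nat.zero_le _, h⟩, cdd_im]
  · rw [if_neg h, if_neg (fun h' => h h'.2), Complex.zero_im]

theorem SC_zero (f : Bits A → Bits A → ℂ) (x y : Bits A) : SC f 0 x y = 0 := by
  unfold SC
  refine Finset.sum_eq_zero fun n _ => Finset.sum_eq_zero fun m _ => ?_
  rw [if_neg (Nat.not_lt_zero _)]

theorem cdd_sum {ι : Type} (F : Finset ι) (p : ι → ℂ) (f : ι → Bits A → Bits A → ℂ)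
    (n m : Fin A) (x y : Bits A) :
    cdd (fun x y => ∑ i ∈ F, p i * f i x y) n m x y = ∑ i ∈ F, p i * cdd (f i) n m x y := by
  unfold cdd
  simp only [Finset.mul_sum, avC_sum]
  refine Finset.sum_congr rfl fun i _ => ?_
  have : ∀ b b', (sg (glue n x b n) : ℂ) * (sg (glue m y b' m) : ℂ) *
      (p i * f i (glue n x b) (glue m y b')) =
      p i * ((sg (glue n x b n) : ℂ) * (sg (glue m y b' m) : ℂ) *
        f i (glue n x b) (glue m y b')) := fun b b' => by ring
  simp only [this, avC_const_mul]
  ring

/-- linearity of the partial sums -/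
theorem SC_sum {ι : Type} (F : Finset ι) (p : ι → ℂ) (f : ι → Bits A → Bits A → ℂ)
    (j : ℕ) (x y : Bits A) :
    SC (fun x y => ∑ i ∈ F, p i * f i x y) j x y = ∑ i ∈ F, p i * SC (f i) j x y := by
  unfold SC
  have h1 : ∀ n m : Fin A,
      (if (n : ℕ) + m < j then cdd (fun x y => ∑ i ∈ F, p i * f i x y) n m x y else 0) =
      ∑ i ∈ F, p i * (if (n : ℕ) + m < j then cdd (f i) n m x y else 0) := by
    intro n m
    by_cases h : (n : ℕ) + m < j
    · simp only [if_pos h, cdd_sum]
    · simp only [if_neg h, mul_zero, Finset.sum_const_zero]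
  simp only [h1]
  have h2 : ∀ n : Fin A, ∑ m : Fin A, ∑ i ∈ F,
      p i * (if (n : ℕ) + m < j then cdd (f i) n m x y else 0) =
      ∑ i ∈ F, p i * ∑ m : Fin A, (if (n : ℕ) + m < j then cdd (f i) n m x y else 0) := by
    intro n
    rw [Finset.sum_comm]
    exact Finset.sum_congr rfl fun i _ => by rw [Finset.mul_sum]
  simp only [h2]
  rw [Finset.sum_comm]
  exact Finset.sum_congr rfl fun i _ => by rw [Finset.mul_sum]

/-- partial sums of a product -/
theorem cdd_prod (f g : Bits A → ℂ) (n m : Fin A) (x y : Bits A) :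
    cdd (fun x y => f x * g y) n m x y = DC f n x * DC g m y := by
  unfold cdd DC
  have : ∀ b b', (sg (glue n x b n) : ℂ) * (sg (glue m y b' m) : ℂ) *
      (f (glue n x b) * g (glue m y b')) =
      ((sg (glue n x b n) : ℂ) * f (glue n x b)) *
        ((sg (glue m y b' m) : ℂ) * g (glue m y b')) := fun b b' => by ring
  simp only [this, avC_const_mul, avC_mul_const]
  ring

theorem SC_prod (f g : Bits A → ℂ) (j : ℕ) (x y : Bits A) :
    SC (fun x y => f x * g y) j x y =
      ∑ n : Fin A, ∑ m : Fin A, if (n : ℕ) + m < j then DC f n x * DC g m y else 0 := by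
  unfold SC
  simp only [cdd_prod]

theorem norm_ch (a : ℤ) (x : Bits A) : ‖ch a x‖ = 1 := by
  unfold ch
  rw [norm_prod]
  refine Finset.prod_eq_one fun i _ => ?_
  split_ifs
  · have : (2 * Real.pi * Complex.I * a / 2 ^ ((i : ℕ) + 1) : ℂ) =
        ((2 * Real.pi * a / 2 ^ ((i : ℕ) + 1) : ℝ) : ℂ) * Complex.I := by
      push_cast
      ring
    rw [this, Complex.norm_exp_ofReal_mul_I]
  · exact norm_one

end Pool.Agent.Hyp
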