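import Pool.Agent.Hyp.Core
import Pool.Agent.Hyp.Bessel
import Pool.Agent.Hyp.DefC

/-!
# Module CoreC: the maximal inequality for complex valued functions

**PROOF.** `‖SC f j x y‖^2 = (re)^2 + (im)^2` with `re = SS (coefF (re f)) 0 j x y` (`SC_re`), `im`
similarly (`SC_im`), so `(⨆ j : K, ‖SC f j x y‖)^2 ≤ TT (coefF (re f)) K x y ^2 +
TT (coefF (im f)) K x y ^2` (`le_TT`; for `K = ∅` the left side is `0`).  `core` for the two coefficient
families (`coefF_adc`), `bessel`, and `(re f)^2 + (im f)^2 = ‖f‖^2`.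
-/

set_option autoImplicit false

namespace Pool.Agent.Hyp

open Finset

theorem CoreC_norm_sq (z : ℂ) : ‖z‖ ^ 2 = z.re ^ 2 + z.im ^ 2 := by
  rw [← Complex.normSq_eq_norm_sq, Complex.normSq_apply]
  ring

theorem CoreC_ptw {A : ℕ} (f : Bits A → Bits A → ℂ) (K : Finset ℕ) (x y : Bits A) :
    (⨆ j : K, ‖SC f j x y‖) ^ 2 ≤ TT (coefF (fun x y => (f x y).re)) K x y ^ 2 +
      TT (coefF (fun x y => (f x y).im)) K x y ^ 2 := by
  set a := TT (coefF (fun x y => (f x y).re)) K x y with ha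
  set b := TT (coefF (fun x y => (f x y).im)) K x y with hb
  have h0 : 0 ≤ a ^ 2 + b ^ 2 := by positivity
  have h1 : (⨆ j : K, ‖SC f j x y‖) ≤ Real.sqrt (a ^ 2 + b ^ 2) := by
    refine Real.iSup_le (fun j => ?_) (Real.sqrt_nonneg _)
    refine Real.le_sqrt_of_sq_le ?_
    rw [CoreC_norm_sq, SC_re, SC_im]
    have h2 := le_TT (coefF (fun x y => (f x y).re)) j.2 x y
    have h3 := le_TT (coefF (fun x y => (f x y).im)) j.2 x y
    rw [← ha] at h2
    rw [← hb] at h3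
    have h4 := pow_le_pow_left₀ (abs_nonneg _) h2 2
    have h5 := pow_le_pow_left₀ (abs_nonneg _) h3 2
    rw [sq_abs] at h4 h5
    exact add_le_add h4 h5
  have h6 : 0 ≤ ⨆ j : K, ‖SC f j x y‖ := Real.iSup_nonneg fun _ => norm_nonneg _
  calc (⨆ j : K, ‖SC f j x y‖) ^ 2 ≤ Real.sqrt (a ^ 2 + b ^ 2) ^ 2 := pow_le_pow_left₀ h6 h1 2
    _ = a ^ 2 + b ^ 2 := Real.sq_sqrt h0

theorem coreC {A : ℕ} (f : Bits A → Bits A → ℂ) (K : Finset ℕ) (r : ℕ) (hr : 1 ≤ r)
    (hK : Real.log (K.card + 3) ≤ Real.exp r) :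
    av2 (fun x y => (⨆ j : K, ‖SC f j x y‖) ^ 2) ≤
      10 ^ 23 * (r : ℝ) ^ 8 * av2 (fun x y => ‖f x y‖ ^ 2) := by
  have h0 : (0 : ℝ) ≤ 10 ^ 23 * (r : ℝ) ^ 8 := by positivity
  have h1 := core (coefF_adc fun x y => (f x y).re) K r hr hK
  have h2 := core (coefF_adc fun x y => (f x y).im) K r hr hK
  have h3 := bessel fun x y => (f x y).re
  have h4 := bessel fun x y => (f x y).im
  have h5 : av2 (fun x y => ‖f x y‖ ^ 2) =
      av2 (fun x y => (f x y).re ^ 2) + av2 (fun x y => (f x y).im ^ 2) := by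
    rw [← av2_add]
    exact av2_congr fun x y => CoreC_norm_sq (f x y)
  calc av2 (fun x y => (⨆ j : K, ‖SC f j x y‖) ^ 2)
      ≤ av2 (fun x y => TT (coefF (fun x y => (f x y).re)) K x y ^ 2 +
          TT (coefF (fun x y => (f x y).im)) K x y ^ 2) := av2_mono fun x y => CoreC_ptw f K x y
    _ = av2 (fun x y => TT (coefF (fun x y => (f x y).re)) K x y ^ 2) +
          av2 (fun x y => TT (coefF (fun x y => (f x y).im)) K x y ^ 2) := av2_add _ _
    _ ≤ 10 ^ 23 * (r : ℝ) ^ 8 * av2 (fun x y => (f x y).re ^ 2) +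
          10 ^ 23 * (r : ℝ) ^ 8 * av2 (fun x y => (f x y).im ^ 2) :=
        add_le_add (h1.trans (mul_le_mul_of_nonneg_left h3 h0))
          (h2.trans (mul_le_mul_of_nonneg_left h4 h0))
    _ = 10 ^ 23 * (r : ℝ) ^ 8 * av2 (fun x y => ‖f x y‖ ^ 2) := by
        rw [h5]
        ring

end Pool.Agent.Hyp
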