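import Pool.Agent.Hyp.Defs

/-!
# Module Cosh: the exponential inequality for vector valued dyadic martingales

`bm c x = ∑ n, sg (x n) * c n x` (`Defs.lean`), `av` the average, `av_sg` (flipping of one bit) is in
`Base.lean`.

**PROOF of `cosh_step`.** Put `p = √(∑ (a i + c i)^2)`, `q = √(∑ (a i - c i)^2)`, `α = √(∑ a i ^2)`,
`β = √(∑ c i ^ 2)`.  Then `p^2 + q^2 = 2 (α^2 + β^2)` and `|p^2 - q^2| = 4 |∑ a i c i| ≤ 4 α β`
(Cauchy-Schwarz).  With `P = (α + β)^2`, `Q = (α - β)^2`: `p^2 + q^2 = P + Q`, `|p^2 - q^2| ≤ P - Q`,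
all four nonnegative.  Hence for every `k`: `(p^2)^k + (q^2)^k ≤ P^k + Q^k` (write
`p^2, q^2 = S ± t`, `P, Q = S ± T` with `0 ≤ |t| ≤ T ≤ S`; `(S + t)^k + (S - t)^k` is nondecreasing
in `|t|`: e.g. from `2 ∑ over even j of choose k j S^(k-j) t^j` or from convexity of `u ↦ u^k` on
`[0, ∞)`: both `S + t` and `S - t` are convex combinations
`S ± t = θ (S ± T) + (1 - θ) (S ∓ T)` with the same `θ = (1 + t / T) / 2`).  Sum the power series
`Real.hasSum_cosh : cosh x = ∑ x^(2k) / (2k)!` with `x = l p` etc. (`(l p)^(2k) = l^(2k) (p^2)^k`):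
`cosh (l p) + cosh (l q) ≤ cosh (l (α + β)) + cosh (l (α - β)) = 2 cosh (l α) cosh (l β)` and
`cosh (l β) ≤ exp (l^2 β^2 / 2)` (`Real.cosh_le_exp_half_sq`).

**PROOF of `cosh_av`.** For `k ≤ A` put
`Z k x = cosh (l √(∑ i, (∑ n with n < k, sg (x n) c i n x)^2)) * exp (-(l^2 (∑ i, ∑ n with n < k, c i n x ^2)/2))`.
`Z 0 = 1`, `Z A` is the function of the statement; `av (Z (k+1)) ≤ av (Z k)`: with `n = k` as an
element of `Fin A`, `Z (k+1) x = Φ x (sg (x n))` where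
`Φ x s = cosh (l √(∑ i, (a i x + s c i n x)^2)) * exp (- l^2 (Q x + ∑ i, c i n x ^2) / 2)`,
`a i x = ∑ n' < k, sg (x n') c i n' x` and `Q` depend only on the first `k` bits.  By `av_sg`
`av (Z (k+1)) = av ((Φ x 1 + Φ x (-1)) / 2)` and by `cosh_step` (and `exp (u) exp (-u) = 1`) this is
`≤ av (Z k)`.
-/

set_option autoImplicit false

namespace Pool.Agent.Hyp

open Finset

theorem cosh_pow_le (k : ℕ) {u v P Q : ℝ} (hQ : 0 ≤ Q) (hPQ : Q ≤ P) (hs : u + v = P + Q)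
    (h1 : Q ≤ u) (h2 : u ≤ P) : u ^ k + v ^ k ≤ P ^ k + Q ^ k := by
  rcases hPQ.eq_or_lt with h | h
  · have hu : u = P := le_antisymm h2 (h ▸ h1)
    have hv : v = Q := by linarith
    rw [hu, hv]
  · have hd : 0 < P - Q := sub_pos.mpr h
    obtain ⟨θ, hθ⟩ : ∃ θ, θ = (u - Q) / (P - Q) := ⟨_, rfl⟩
    have h0 : 0 ≤ θ := by rw [hθ]; exact div_nonneg (by linarith) hd.le
    have h1' : θ ≤ 1 := by rw [hθ, div_le_one hd]; linarith
    have hθ2 : θ * (P - Q) = u - Q := by rw [hθ]; field_simp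
    have hu : u = θ * P + (1 - θ) * Q := by linarith
    have hv : v = (1 - θ) * P + θ * Q := by linarith
    have c1 := (convexOn_pow k).2 (x := P) (y := Q) (show P ∈ Set.Ici (0 : ℝ) from hQ.trans hPQ)
      (show Q ∈ Set.Ici (0 : ℝ) from hQ) h0 (sub_nonneg.mpr h1') (by ring)
    have c2 := (convexOn_pow k).2 (x := P) (y := Q) (show P ∈ Set.Ici (0 : ℝ) from hQ.trans hPQ)
      (show Q ∈ Set.Ici (0 : ℝ) from hQ) (sub_nonneg.mpr h1') h0 (by ring)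
    simp only [smul_eq_mul] at c1 c2
    rw [← hu] at c1
    rw [← hv] at c2
    linarith

theorem cosh_sum_le {l p q r t : ℝ} (hs : p ^ 2 + q ^ 2 = r ^ 2 + t ^ 2) (ht : t ^ 2 ≤ r ^ 2)
    (h1 : t ^ 2 ≤ p ^ 2) (h2 : p ^ 2 ≤ r ^ 2) :
    Real.cosh (l * p) + Real.cosh (l * q) ≤ Real.cosh (l * r) + Real.cosh (l * t) := by
  refine hasSum_le (fun k => ?_) ((Real.hasSum_cosh (l * p)).add (Real.hasSum_cosh (l * q)))
    ((Real.hasSum_cosh (l * r)).add (Real.hasSum_cosh (l * t)))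
  have h := cosh_pow_le k (sq_nonneg t) ht hs h1 h2
  have e : ∀ y : ℝ, (l * y) ^ (2 * k) = l ^ (2 * k) * (y ^ 2) ^ k := by
    intro y
    rw [mul_pow, pow_mul y]
  rw [e, e, e, e, ← add_div, ← add_div, ← mul_add, ← mul_add]
  refine div_le_div_of_nonneg_right (mul_le_mul_of_nonneg_left h ?_) (Nat.cast_nonneg _)
  rw [pow_mul]
  positivity

theorem cosh_step {ι : Type} [Fintype ι] (a c : ι → ℝ) (l : ℝ) :
    (Real.cosh (l * √(∑ i, (a i + c i) ^ 2)) + Real.cosh (l * √(∑ i, (a i - c i) ^ 2))) / 2 ≤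
      Real.cosh (l * √(∑ i, a i ^ 2)) * Real.exp (l ^ 2 * (∑ i, c i ^ 2) / 2) := by
  obtain ⟨X, hX⟩ : ∃ X, X = ∑ i, a i ^ 2 := ⟨_, rfl⟩
  obtain ⟨Y, hY⟩ : ∃ Y, Y = ∑ i, c i ^ 2 := ⟨_, rfl⟩
  obtain ⟨Z, hZ⟩ : ∃ Z, Z = ∑ i, a i * c i := ⟨_, rfl⟩
  have hX0 : 0 ≤ X := by rw [hX]; exact Finset.sum_nonneg fun i _ => sq_nonneg _
  have hY0 : 0 ≤ Y := by rw [hY]; exact Finset.sum_nonneg fun i _ => sq_nonneg _
  have e1 : ∑ i, (a i + c i) ^ 2 = X + Y + 2 * Z := by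
    rw [hX, hY, hZ, ← Finset.sum_add_distrib, Finset.mul_sum, ← Finset.sum_add_distrib]
    exact Finset.sum_congr rfl fun i _ => by ring
  have e2 : ∑ i, (a i - c i) ^ 2 = X + Y - 2 * Z := by
    rw [hX, hY, hZ, ← Finset.sum_add_distrib, Finset.mul_sum, ← Finset.sum_sub_distrib]
    exact Finset.sum_congr rfl fun i _ => by ring
  have p0 : 0 ≤ X + Y + 2 * Z := by rw [← e1]; exact Finset.sum_nonneg fun i _ => sq_nonneg _
  have q0 : 0 ≤ X + Y - 2 * Z := by rw [← e2]; exact Finset.sum_nonneg fun i _ => sq_nonneg _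
  have hCS : Z ^ 2 ≤ X * Y := by
    rw [hX, hY, hZ]
    exact Finset.sum_mul_sq_le_sq_mul_sq _ _ _
  have hα := Real.sq_sqrt hX0
  have hβ := Real.sq_sqrt hY0
  have hα0 := Real.sqrt_nonneg X
  have hβ0 := Real.sqrt_nonneg Y
  have hZab : |Z| ≤ √X * √Y := by
    refine abs_le_of_sq_le_sq ?_ (by positivity)
    rw [mul_pow, hα, hβ]
    exact hCS
  obtain ⟨z1, z2⟩ := abs_le.mp hZab
  rw [e1, e2, ← hX, ← hY]
  have key := cosh_sum_le (l := l) (p := √(X + Y + 2 * Z)) (q := √(X + Y - 2 * Z))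
    (r := √X + √Y) (t := √X - √Y) (by
      rw [Real.sq_sqrt p0, Real.sq_sqrt q0]
      nlinarith) (by nlinarith) (by rw [Real.sq_sqrt p0]; nlinarith)
    (by rw [Real.sq_sqrt p0]; nlinarith)
  rw [mul_add, mul_sub, Real.cosh_add, Real.cosh_sub] at key
  have h3 : Real.cosh (l * √Y) ≤ Real.exp (l ^ 2 * Y / 2) := by
    have := Real.cosh_le_exp_half_sq (l * √Y)
    rwa [mul_pow, hβ] at this
  have h4 : 0 < Real.cosh (l * √X) := Real.cosh_pos _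
  have h5 := mul_le_mul_of_nonneg_left h3 h4.le
  linarith

/-- the sums up to k -/
noncomputable def coshS {A : ℕ} (c : Fin A → Bits A → ℝ) (k : ℕ) (x : Bits A) : ℝ :=
  ∑ n ∈ (univ : Finset (Fin A)).filter (fun n : Fin A => (n : ℕ) < k), sg (x n) * c n x

/-- the sums of the squares up to k -/
noncomputable def coshT {A : ℕ} (c : Fin A → Bits A → ℝ) (k : ℕ) (x : Bits A) : ℝ :=
  ∑ n ∈ (univ : Finset (Fin A)).filter (fun n : Fin A => (n : ℕ) < k), c n x ^ 2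

theorem coshS_adp {A : ℕ} {c : Fin A → Bits A → ℝ} (hc : ∀ n : Fin A, Adp (n : ℕ) (c n)) (k : ℕ) :
    Adp k (coshS c k) := by
  refine Adp.sum _ fun n hn => ?_
  rw [mem_filter] at hn
  exact (adp_bit hn.2).comp2 (Adp.mono hn.2.le (hc n)) (fun b t => sg b * t)

theorem coshT_adp {A : ℕ} {c : Fin A → Bits A → ℝ} (hc : ∀ n : Fin A, Adp (n : ℕ) (c n)) (k : ℕ) :
    Adp k (coshT c k) := by
  refine Adp.sum _ fun n hn => ?_
  rw [mem_filter] at hn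
  exact (Adp.mono hn.2.le (hc n)).comp (fun t => t ^ 2)

theorem cosh_filter {A : ℕ} {k : ℕ} (hk : k < A) :
    (univ : Finset (Fin A)).filter (fun n : Fin A => (n : ℕ) < k + 1) =
      insert ⟨k, hk⟩ ((univ : Finset (Fin A)).filter (fun n : Fin A => (n : ℕ) < k)) := by
  ext n
  rw [mem_insert, mem_filter, mem_filter, Fin.ext_iff]
  simp only [mem_univ, true_and]
  omega

theorem coshS_succ {A : ℕ} (c : Fin A → Bits A → ℝ) {k : ℕ} (hk : k < A) (x : Bits A) :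
    coshS c (k + 1) x = coshS c k x + sg (x ⟨k, hk⟩) * c ⟨k, hk⟩ x := by
  unfold coshS
  rw [cosh_filter hk, sum_insert (by simp), add_comm]

theorem coshT_succ {A : ℕ} (c : Fin A → Bits A → ℝ) {k : ℕ} (hk : k < A) (x : Bits A) :
    coshT c (k + 1) x = coshT c k x + c ⟨k, hk⟩ x ^ 2 := by
  unfold coshT
  rw [cosh_filter hk, sum_insert (by simp), add_comm]

/-- the supermartingale -/
noncomputable def coshZ {A : ℕ} {ι : Type} [Fintype ι] (c : ι → Fin A → Bits A → ℝ) (l : ℝ)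
    (k : ℕ) (x : Bits A) : ℝ :=
  Real.cosh (l * √(∑ i, coshS (c i) k x ^ 2)) *
    Real.exp (-(l ^ 2 * (∑ i, coshT (c i) k x) / 2))

theorem coshZ_succ {A : ℕ} {ι : Type} [Fintype ι] (c : ι → Fin A → Bits A → ℝ)
    (hc : ∀ i (n : Fin A), Adp (n : ℕ) (c i n)) (l : ℝ) {k : ℕ} (hk : k < A) :
    av (coshZ c l (k + 1)) ≤ av (coshZ c l k) := by
  obtain ⟨Φ, hΦ⟩ : ∃ Φ : Bits A → ℝ → ℝ, Φ = fun x s =>
      Real.cosh (l * √(∑ i, (coshS (c i) k x + s * c i ⟨k, hk⟩ x) ^ 2)) *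
        Real.exp (-(l ^ 2 * (∑ i, (coshT (c i) k x + c i ⟨k, hk⟩ x ^ 2)) / 2)) := ⟨_, rfl⟩
  have h1 : ∀ x, coshZ c l (k + 1) x = Φ x (sg (x ⟨k, hk⟩)) := by
    intro x
    rw [hΦ]
    unfold coshZ
    simp only [coshS_succ _ hk, coshT_succ _ hk]
  have h2 : ∀ s, Adp ((⟨k, hk⟩ : Fin A) : ℕ) (fun x => Φ x s) := by
    intro s x b
    rw [hΦ]
    have e1 : ∀ i, coshS (c i) k (glue k x b) = coshS (c i) k x :=
      fun i => coshS_adp (hc i) k x b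
    have e2 : ∀ i, coshT (c i) k (glue k x b) = coshT (c i) k x :=
      fun i => coshT_adp (hc i) k x b
    have e3 : ∀ i, c i ⟨k, hk⟩ (glue k x b) = c i ⟨k, hk⟩ x := fun i => hc i ⟨k, hk⟩ x b
    simp only [e1, e2, e3]
  rw [av_congr h1, av_sg ⟨k, hk⟩ Φ h2]
  refine av_mono fun x => ?_
  have h3 := cosh_step (fun i => coshS (c i) k x) (fun i => c i ⟨k, hk⟩ x) l
  have e4 : Φ x 1 = Real.cosh (l * √(∑ i, (coshS (c i) k x + c i ⟨k, hk⟩ x) ^ 2)) *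
      Real.exp (-(l ^ 2 * (∑ i, (coshT (c i) k x + c i ⟨k, hk⟩ x ^ 2)) / 2)) := by
    rw [hΦ]
    simp only [one_mul]
  have e5 : Φ x (-1) = Real.cosh (l * √(∑ i, (coshS (c i) k x - c i ⟨k, hk⟩ x) ^ 2)) *
      Real.exp (-(l ^ 2 * (∑ i, (coshT (c i) k x + c i ⟨k, hk⟩ x ^ 2)) / 2)) := by
    rw [hΦ]
    simp only [neg_mul, one_mul, ← sub_eq_add_neg]
  rw [e4, e5]
  have e6 : Real.exp (l ^ 2 * (∑ i, c i ⟨k, hk⟩ x ^ 2) / 2) *
      Real.exp (-(l ^ 2 * (∑ i, (coshT (c i) k x + c i ⟨k, hk⟩ x ^ 2)) / 2)) =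
      Real.exp (-(l ^ 2 * (∑ i, coshT (c i) k x) / 2)) := by
    rw [← Real.exp_add, Finset.sum_add_distrib]
    congr 1
    ring
  have h7 := mul_le_mul_of_nonneg_right h3
    (Real.exp_pos (-(l ^ 2 * (∑ i, (coshT (c i) k x + c i ⟨k, hk⟩ x ^ 2)) / 2))).le
  rw [mul_assoc, e6] at h7
  unfold coshZ
  refine le_trans (le_of_eq ?_) h7
  ring

theorem coshZ_le {A : ℕ} {ι : Type} [Fintype ι] (c : ι → Fin A → Bits A → ℝ)
    (hc : ∀ i (n : Fin A), Adp (n : ℕ) (c i n)) (l : ℝ) (k : ℕ) (hk : k ≤ A) :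
    av (coshZ c l k) ≤ 1 := by
  induction k with
  | zero =>
    have h1 : ∀ x : Bits A, coshZ c l 0 x = 1 := by
      intro x
      unfold coshZ coshS coshT
      simp
    rw [av_congr h1, av_const]
  | succ k ih => exact (coshZ_succ c hc l hk).trans (ih (Nat.le_of_succ_le hk))

theorem cosh_av {A : ℕ} {ι : Type} [Fintype ι] (c : ι → Fin A → Bits A → ℝ)
    (hc : ∀ i (n : Fin A), Adp (n : ℕ) (c i n)) (l : ℝ) :
    av (fun x => Real.cosh (l * √(∑ i, bm (c i) x ^ 2)) *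
      Real.exp (-(l ^ 2 * (∑ i, ∑ n, c i n x ^ 2) / 2))) ≤ 1 := by
  have h := coshZ_le c hc l A le_rfl
  have hf : (univ : Finset (Fin A)).filter (fun n : Fin A => (n : ℕ) < A) = univ :=
    Finset.filter_true_of_mem fun (n : Fin A) _ => n.2
  have h1 : ∀ x : Bits A, coshZ c l A x = Real.cosh (l * √(∑ i, bm (c i) x ^ 2)) *
      Real.exp (-(l ^ 2 * (∑ i, ∑ n, c i n x ^ 2) / 2)) := by
    intro x
    unfold coshZ coshS coshT bm
    rw [hf]
  rw [av_congr h1] at h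
  exact h

end Pool.Agent.Hyp
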