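import Pool.Agent.Hyp.DefC

/-!
# Module DCs: martingale differences of complex valued functions of one string

`DC f n x = sg (x n) * avC_b (sg ((glue n x b) n) * f (glue n x b))`; put
`D' n x = avC_b (sg ((glue n x b) n) * f (glue n x b))`, which is adapted to `n`
(`glue_glue_le`), so `DC f n x = sg (x n) * D' n x`.

**PROOF of `dc_sum`.** Let `E n x = avC_b (f (glue n x b))` (`E 0 = avC f`, `E A x = f x`:
`glue_of_ge`; `glue 0 x b = b`).  Claim `DC f n x = E (n+1) x - E n x`, then telescope
(`Fin.sum_univ_eq_sum_range`, `Finset.sum_range_sub`).  For the claim: `glue (n+1) x b` and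
`glue n x b` agree except possibly at the bit `n` (where the first has `x n`, the second `b n`).
Averaging over `b` and flipping the bit `n` of `b`: with `P = avC_b f (glue n x b with bit n := true)`,
`Q` the same with `false`: `E n x = (P + Q)/2`, `D' n x = (P - Q)/2`, `E (n+1) x = P` or `Q` according
to `x n`.  (Use the involution `b ↦ Function.update b n (!b n)` as in `av_sg` of `Base.lean`, or real
and imaginary parts and `av_sg`.)

**PROOF of `dc_orth1`.** `DC f n x * conj (DC f n' x)` for `n ≠ n'`, say `n < n'`: it is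
`sg (x n') * h x` with `h = sg (x n) D' n x conj (D' n' x)` adapted to `n'`; its average vanishes
(flip the bit `n'`; `av_sg_mul` for real and imaginary parts).

**PROOF of `dc_orth`.** Expand `‖∑‖^2 = ∑ ∑ z conj z'`; the average of
`(DC f n x conj (DC f n' x)) (DC g m y conj (DC g m' y))` is the product of the averages, which
vanishes unless `n = n'` and `m = m'` (`dc_orth1`), and then it is `al f n * al g m`.
-/

set_option autoImplicit false

namespace Pool.Agent.Hyp

open Finset

/-- flip the bit `n` -/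
def dcsFl {A : ℕ} (n : Fin A) (b : Bits A) : Bits A := Function.update b n (!(b n))

theorem dcs_fl_fl {A : ℕ} (n : Fin A) (b : Bits A) : dcsFl n (dcsFl n b) = b := by
  unfold dcsFl
  simp

theorem dcs_flip {A : ℕ} (n : Fin A) (G : Bits A → ℂ) :
    avC G = avC fun b => (G b + G (dcsFl n b)) / 2 := by
  let e : Bits A ≃ Bits A :=
    { toFun := dcsFl n
      invFun := dcsFl n
      left_inv := dcs_fl_fl n
      right_inv := dcs_fl_fl n }
  have h1 : ∑ b, G (dcsFl n b) = ∑ b, G b := Equiv.sum_comp e G
  unfold avC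
  congr 1
  rw [← sum_div, sum_add_distrib, h1]
  ring

/-- the string `glue n x b` with the bit `n` replaced by `s` -/
def dcsSt {A : ℕ} (n : Fin A) (x b : Bits A) (s : Bool) : Bits A :=
  Function.update (glue (n : ℕ) x b) n s

theorem dcs_glue {A : ℕ} (n : Fin A) (x b : Bits A) : glue (n : ℕ) x b = dcsSt n x b (b n) := by
  unfold dcsSt
  funext i
  by_cases h : i = n
  · subst h
    rw [Function.update_self]
    unfold glue
    rw [if_neg (lt_irrefl _)]
  · rw [Function.update_of_ne h]

theorem dcs_glue_fl {A : ℕ} (n : Fin A) (x b : Bits A) :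
    glue (n : ℕ) x (dcsFl n b) = dcsSt n x b (!(b n)) := by
  unfold dcsSt dcsFl
  funext i
  by_cases h : i = n
  · subst h
    rw [Function.update_self]
    unfold glue
    rw [if_neg (lt_irrefl _), Function.update_self]
  · rw [Function.update_of_ne h]
    unfold glue
    rw [Function.update_of_ne h]

theorem dcs_glue_succ {A : ℕ} (n : Fin A) (x b : Bits A) :
    glue ((n : ℕ) + 1) x b = dcsSt n x b (x n) := by
  unfold dcsSt
  funext i
  by_cases h : i = n
  · subst h
    rw [Function.update_self]
    unfold glue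
    rw [if_pos (Nat.lt_succ_self _)]
  · rw [Function.update_of_ne h]
    unfold glue
    have : (i : ℕ) ≠ (n : ℕ) := fun h' => h (Fin.ext h')
    by_cases h2 : (i : ℕ) < n
    · rw [if_pos h2, if_pos (by omega)]
    · rw [if_neg h2, if_neg (by omega)]

theorem dcs_glue_bit {A : ℕ} (n : Fin A) (x b : Bits A) : glue (n : ℕ) x b n = b n := by
  unfold glue
  rw [if_neg (lt_irrefl _)]

/-- a martingale difference is a difference of conditional averages -/
theorem dcs_DC {A : ℕ} (f : Bits A → ℂ) (n : Fin A) (x : Bits A) :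
    DC f n x = (avC fun b => f (glue ((n : ℕ) + 1) x b)) - avC fun b => f (glue (n : ℕ) x b) := by
  unfold DC
  rw [dcs_flip n (fun b => (sg (glue (n : ℕ) x b n) : ℂ) * f (glue (n : ℕ) x b)),
    dcs_flip n (fun b => f (glue (n : ℕ) x b)), ← avC_const_mul]
  unfold avC
  rw [← sub_div, ← sum_sub_distrib]
  congr 1
  refine sum_congr rfl fun b _ => ?_
  beta_reduce
  rw [dcs_glue_bit n x b, dcs_glue_bit n x (dcsFl n b), dcs_glue_fl, dcs_glue n x b,
    dcs_glue_succ]
  have hfl : dcsFl n b n = !(b n) := by unfold dcsFl; rw [Function.update_self]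
  rw [hfl]
  unfold sg
  cases hx : x n <;> cases hb : b n <;> simp <;> ring

theorem dc_sum {A : ℕ} (f : Bits A → ℂ) (x : Bits A) : f x = avC f + ∑ n : Fin A, DC f n x := by
  have h1 : ∑ n : Fin A, DC f n x = ∑ n ∈ range A,
      ((avC fun b => f (glue (n + 1) x b)) - avC fun b => f (glue n x b)) := by
    rw [← Fin.sum_univ_eq_sum_range
      (fun n => (avC fun b => f (glue (n + 1) x b)) - avC fun b => f (glue n x b)) A]
    exact sum_congr rfl fun n _ => dcs_DC f n x
  rw [h1, sum_range_sub (fun n => avC fun b => f (glue n x b))]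
  have h2 : (avC fun b => f (glue A x b)) = f x := by
    simp only [glue_of_ge (le_refl A)]
    exact avC_const _
  have h3 : (avC fun b => f (glue 0 x b)) = avC f := by
    have : ∀ b : Bits A, glue 0 x b = b := by
      intro b
      funext i
      unfold glue
      rw [if_neg (Nat.not_lt_zero _)]
    simp only [this]
  rw [h2, h3]
  ring

/-- the adapted part of a martingale difference -/
noncomputable def dcsD {A : ℕ} (f : Bits A → ℂ) (n : Fin A) (x : Bits A) : ℂ :=
  avC fun b => (sg (glue n x b n) : ℂ) * f (glue n x b)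

theorem dcs_eq {A : ℕ} (f : Bits A → ℂ) (n : Fin A) (x : Bits A) :
    DC f n x = (sg (x n) : ℂ) * dcsD f n x := rfl

theorem dcs_adp {A : ℕ} (f : Bits A → ℂ) (n : Fin A) : Adp (n : ℕ) (dcsD f n) := by
  intro x b
  unfold dcsD
  simp only [glue_glue_le (le_refl (n : ℕ))]

theorem dcs_av_zero {A : ℕ} (n : Fin A) {h : Bits A → ℂ} (hh : Adp (n : ℕ) h) :
    avC (fun x => (sg (x n) : ℂ) * h x) = 0 := by
  apply Complex.ext
  · rw [avC_re, Complex.zero_re]
    simp only [Complex.re_ofReal_mul]
    exact av_sg_mul n (hh.comp Complex.re)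
  · rw [avC_im, Complex.zero_im]
    simp only [Complex.im_ofReal_mul]
    exact av_sg_mul n (hh.comp Complex.im)

theorem dc_orth1 {A : ℕ} (f : Bits A → ℂ) {n n' : Fin A} (h : n ≠ n') :
    avC (fun x => DC f n x * (starRingEnd ℂ) (DC f n' x)) = 0 := by
  rcases lt_or_gt_of_ne h with h1 | h1
  · have e : ∀ x, DC f n x * (starRingEnd ℂ) (DC f n' x) =
        (sg (x n') : ℂ) * ((sg (x n) : ℂ) * dcsD f n x * (starRingEnd ℂ) (dcsD f n' x)) := by
      intro x
      rw [dcs_eq, dcs_eq, map_mul, Complex.conj_ofReal]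
      ring
    simp only [e]
    refine dcs_av_zero n' ?_
    have h2 : (n : ℕ) < n' := h1
    intro x b
    simp only [glue_apply_lt h2, (dcs_adp f n).mono h2.le x b, dcs_adp f n' x b]
  · have e : ∀ x, DC f n x * (starRingEnd ℂ) (DC f n' x) =
        (sg (x n) : ℂ) * ((sg (x n') : ℂ) * dcsD f n x * (starRingEnd ℂ) (dcsD f n' x)) := by
      intro x
      rw [dcs_eq, dcs_eq, map_mul, Complex.conj_ofReal]
      ring
    simp only [e]
    refine dcs_av_zero n ?_
    have h2 : (n' : ℕ) < n := h1
    intro x b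
    simp only [glue_apply_lt h2, (dcs_adp f n').mono h2.le x b, dcs_adp f n x b]

/-- orthogonality with constant coefficients -/
theorem dcs_orthc {A : ℕ} (f : Bits A → ℂ) (c : Fin A → ℂ) :
    av (fun x => ‖∑ n : Fin A, c n * DC f n x‖ ^ 2) = ∑ n : Fin A, ‖c n‖ ^ 2 * al f n := by
  have hn : ∀ z : ℂ, ‖z‖ ^ 2 = (z * (starRingEnd ℂ) z).re := by
    intro z
    rw [Complex.mul_conj']
    norm_cast
  have h1 : av (fun x => ‖∑ n : Fin A, c n * DC f n x‖ ^ 2) =
      (avC fun x => (∑ n : Fin A, c n * DC f n x) *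
        (starRingEnd ℂ) (∑ n : Fin A, c n * DC f n x)).re := by
    rw [avC_re]
    exact av_congr fun x => hn _
  have h2 : (avC fun x => (∑ n : Fin A, c n * DC f n x) *
        (starRingEnd ℂ) (∑ n : Fin A, c n * DC f n x)) =
      ∑ n : Fin A, ∑ n' : Fin A, (c n * (starRingEnd ℂ) (c n')) *
        avC (fun x => DC f n x * (starRingEnd ℂ) (DC f n' x)) := by
    simp only [map_sum, sum_mul_sum, avC_sum]
    refine sum_congr rfl fun n _ => sum_congr rfl fun n' _ => ?_
    rw [← avC_const_mul]
    congr 1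
    funext x
    rw [map_mul]
    ring
  rw [h1, h2, Complex.re_sum]
  refine sum_congr rfl fun n _ => ?_
  rw [sum_eq_single n]
  · rw [Complex.mul_conj', ← Complex.ofReal_pow, Complex.re_ofReal_mul, avC_re]
    congr 1
    unfold al
    exact av_congr fun x => (hn _).symm
  · intro n' _ hne
    rw [dc_orth1 f (Ne.symm hne), mul_zero]
  · intro h
    exact absurd (mem_univ _) h

theorem dc_orth {A : ℕ} (f g : Bits A → ℂ) (Λ : Fin A → Fin A → Prop) [∀ n m, Decidable (Λ n m)] :
    av2 (fun x y => ‖∑ n : Fin A, ∑ m : Fin A, if Λ n m then DC f n x * DC g m y else 0‖ ^ 2) =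
      ∑ n : Fin A, ∑ m : Fin A, if Λ n m then al f n * al g m else 0 := by
  have h1 : ∀ x y, (∑ n : Fin A, ∑ m : Fin A, if Λ n m then DC f n x * DC g m y else 0) =
      ∑ m : Fin A, (∑ n : Fin A, (if Λ n m then (1 : ℂ) else 0) * DC f n x) * DC g m y := by
    intro x y
    rw [sum_comm]
    refine sum_congr rfl fun m _ => ?_
    rw [sum_mul]
    refine sum_congr rfl fun n _ => ?_
    by_cases h : Λ n m
    · rw [if_pos h, if_pos h, one_mul]
    · rw [if_neg h, if_neg h, zero_mul, zero_mul]
  unfold av2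
  simp only [h1, dcs_orthc g, av_sum, av_mul_const, dcs_orthc f]
  rw [sum_comm]
  refine sum_congr rfl fun m _ => ?_
  rw [sum_mul]
  refine sum_congr rfl fun n _ => ?_
  by_cases h : Λ n m
  · rw [if_pos h, if_pos h, norm_one, one_pow, one_mul]
  · rw [if_neg h, if_neg h, norm_zero, zero_pow two_ne_zero, zero_mul, zero_mul]

end Pool.Agent.Hyp
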