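import Pool.Agent.Hyp.Defs

/-!
# Module DDoob: the dual maximal inequality (one and two parameters)

**PROOF of `ddoob1`.** `p = 0` is trivial.  Let `p = q + 1`, `S t x = ∑ n with n < t, ce n (h n) x`,
`S A = S`.  For `n : Fin A`, `t = n`: `S (t+1) = S t + ce n (h n)`, both terms nonnegative, so
`S (t+1)^(q+1) - S t ^(q+1) ≤ (q+1) S (t+1)^q ce n (h n)`.  `S (t+1)` is a sum of functions `ce n' _`
with `n' ≤ n`, hence adapted to `n` (`ce_adp`, `Adp.mono`), and `av_mul_ce` gives
`av (S (t+1)^q ce n (h n)) = av (S (t+1)^q h n) ≤ av (S A ^q h n)`.  Sum over `n`: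
`av (S^(q+1)) ≤ av (((q+1) ∑ n, h n) S^q)`; `close_le` gives the claim.

**PROOF of `ddoob2`.** For fixed `y`, `∑ n, ∑ m, ce2 n m (h n m) x y = ∑ n, ce n (H n) x` with
`H n x' = ∑ m, ce m (fun y' => h n m x' y') y` (`ce2_eq`, `ce_sum`), so `ddoob1` in `x` (then average
over `y`, `av_comm`) gives the bound
`p^p av2 ((∑ n, ∑ m, ce m (fun y' => h n m x y') y)^p)`.  For fixed `x` this is
`∑ m, ce m (fun y' => ∑ n, h n m x y') y` (`Finset.sum_comm`, `ce_sum`); apply `ddoob1` in `y`.
-/

set_option autoImplicit false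

namespace Pool.Agent.Hyp

open Finset

/-- the partial sums -/
private noncomputable def ddS {A : ℕ} (h : Fin A → Bits A → ℝ) (t : ℕ) (x : Bits A) : ℝ :=
  ∑ n : Fin A, if (n : ℕ) < t then ce n (h n) x else 0

private theorem ddS_zero {A : ℕ} (h : Fin A → Bits A → ℝ) (x : Bits A) : ddS h 0 x = 0 := by
  unfold ddS
  simp

private theorem ddS_top {A : ℕ} (h : Fin A → Bits A → ℝ) (x : Bits A) :
    ddS h A x = ∑ n : Fin A, ce n (h n) x := by
  unfold ddS
  apply sum_congr rfl
  intro n _
  rw [if_pos n.2]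

private theorem ddS_succ {A : ℕ} (h : Fin A → Bits A → ℝ) (n : Fin A) (x : Bits A) :
    ddS h ((n : ℕ) + 1) x = ddS h n x + ce n (h n) x := by
  unfold ddS
  have h1 : ∀ k : Fin A, (if (k : ℕ) < (n : ℕ) + 1 then ce k (h k) x else 0) =
      (if (k : ℕ) < (n : ℕ) then ce k (h k) x else 0) + if k = n then ce k (h k) x else 0 := by
    intro k
    by_cases hk : k = n
    · subst hk
      simp
    · have hk' : (k : ℕ) ≠ n := fun e => hk (Fin.ext e)
      by_cases hlt : (k : ℕ) < n
      · rw [if_pos (by omega), if_pos hlt, if_neg hk, add_zero]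
      · rw [if_neg (by omega), if_neg hlt, if_neg hk, add_zero]
  rw [sum_congr rfl (fun k _ => h1 k), sum_add_distrib]
  congr 1
  simp

private theorem ddS_nonneg {A : ℕ} {h : Fin A → Bits A → ℝ} (h0 : ∀ n x, 0 ≤ h n x) (t : ℕ)
    (x : Bits A) : 0 ≤ ddS h t x := by
  unfold ddS
  apply sum_nonneg
  intro n _
  split_ifs
  · exact ce_nonneg (h0 n) x
  · exact le_rfl

private theorem ddS_le {A : ℕ} {h : Fin A → Bits A → ℝ} (h0 : ∀ n x, 0 ≤ h n x) (t : ℕ)
    (x : Bits A) : ddS h t x ≤ ddS h A x := by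
  unfold ddS
  apply sum_le_sum
  intro n _
  rw [if_pos n.2]
  split_ifs
  · exact le_rfl
  · exact ce_nonneg (h0 n) x

private theorem ddS_adp {A : ℕ} (h : Fin A → Bits A → ℝ) (n : Fin A) :
    Adp (n : ℕ) (ddS h ((n : ℕ) + 1)) := by
  unfold ddS
  apply Adp.sum
  intro k _
  by_cases hk : (k : ℕ) < (n : ℕ) + 1
  · simp only [if_pos hk]
    exact Adp.mono (by omega) (ce_adp (k : ℕ) (h k))
  · simp only [if_neg hk]
    exact adp_const _ _

theorem ddoob1 {A : ℕ} (h : Fin A → Bits A → ℝ) (h0 : ∀ n x, 0 ≤ h n x) (p : ℕ) :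
    av (fun x => (∑ n : Fin A, ce n (h n) x) ^ p) ≤
      (p : ℝ) ^ p * av (fun x => (∑ n, h n x) ^ p) := by
  rcases p with _ | q
  · simp
  · have hS0 := fun (t : ℕ) (x : Bits A) => ddS_nonneg h0 t x
    -- telescoping
    have htel : ∀ x : Bits A, ddS h A x ^ (q + 1) ≤
        ∑ n : Fin A, ((q : ℝ) + 1) * (ddS h ((n : ℕ) + 1) x ^ q * ce n (h n) x) := by
      intro x
      have h1 : ∑ n : Fin A, (ddS h ((n : ℕ) + 1) x ^ (q + 1) - ddS h (n : ℕ) x ^ (q + 1)) =
          ddS h A x ^ (q + 1) := by
        rw [Fin.sum_univ_eq_sum_range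
          (fun n : ℕ => ddS h (n + 1) x ^ (q + 1) - ddS h n x ^ (q + 1)) A,
          Finset.sum_range_sub (fun n : ℕ => ddS h n x ^ (q + 1)) A, ddS_zero]
        simp
      rw [← h1]
      apply sum_le_sum
      intro n _
      have h2 := young_nat q (hS0 n x) (hS0 ((n : ℕ) + 1) x)
      have h3 : ce n (h n) x = ddS h ((n : ℕ) + 1) x - ddS h n x := by
        rw [ddS_succ]; ring
      rw [h3]
      have e1 : ddS h ((n : ℕ) + 1) x ^ (q + 1) = ddS h ((n : ℕ) + 1) x ^ q *
        ddS h ((n : ℕ) + 1) x := pow_succ _ _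
      nlinarith [h2, e1]
    have hb : av (fun x => ddS h A x ^ (q + 1)) ≤
        av (fun x => (((q : ℝ) + 1) * ∑ n, h n x) * ddS h A x ^ q) := by
      calc av (fun x => ddS h A x ^ (q + 1)) ≤ av (fun x =>
            ∑ n : Fin A, ((q : ℝ) + 1) * (ddS h ((n : ℕ) + 1) x ^ q * ce n (h n) x)) :=
            av_mono htel
        _ = ∑ n : Fin A, ((q : ℝ) + 1) *
            av (fun x => ddS h ((n : ℕ) + 1) x ^ q * ce n (h n) x) := by
            rw [av_sum]
            apply sum_congr rfl
            intro n _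
            exact av_const_mul _ _
        _ = ∑ n : Fin A, ((q : ℝ) + 1) * av (fun x => ddS h ((n : ℕ) + 1) x ^ q * h n x) := by
            apply sum_congr rfl
            intro n _
            congr 1
            exact av_mul_ce ((ddS_adp h n).comp (fun s => s ^ q)) (h n)
        _ ≤ ∑ n : Fin A, ((q : ℝ) + 1) * av (fun x => ddS h A x ^ q * h n x) := by
            apply sum_le_sum
            intro n _
            apply mul_le_mul_of_nonneg_left _ (by positivity)
            apply av_mono
            intro x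
            exact mul_le_mul_of_nonneg_right
              (pow_le_pow_left₀ (hS0 _ x) (ddS_le h0 _ x) q) (h0 n x)
        _ = av (fun x => ∑ n : Fin A, ((q : ℝ) + 1) * (ddS h A x ^ q * h n x)) := by
            rw [av_sum]
            apply sum_congr rfl
            intro n _
            exact (av_const_mul _ _).symm
        _ = _ := by
            apply av_congr
            intro x
            rw [mul_sum, sum_mul]
            apply sum_congr rfl
            intro n _
            ring
    have hfin := close_le q (u := fun x => ((q : ℝ) + 1) * ∑ n, h n x) (b := ddS h A)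
      (fun x => mul_nonneg (by positivity) (sum_nonneg fun n _ => h0 n x)) (hS0 A) hb
    have e1 : av (fun x => (∑ n : Fin A, ce n (h n) x) ^ (q + 1)) =
        av (fun x => ddS h A x ^ (q + 1)) := by
      apply av_congr
      intro x
      rw [ddS_top]
    have e2 : av (fun x => (((q : ℝ) + 1) * ∑ n, h n x) ^ (q + 1)) =
        ((q : ℝ) + 1) ^ (q + 1) * av (fun x => (∑ n, h n x) ^ (q + 1)) := by
      rw [← av_const_mul]
      apply av_congr
      intro x
      rw [mul_pow]
    rw [e1]
    push_cast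
    rw [← e2]
    exact hfin

theorem ddoob2 {A : ℕ} (h : Fin A → Fin A → Bits A → Bits A → ℝ) (h0 : ∀ n m x y, 0 ≤ h n m x y)
    (p : ℕ) :
    av2 (fun x y => (∑ n : Fin A, ∑ m : Fin A, ce2 n m (h n m) x y) ^ p) ≤
      (p : ℝ) ^ (2 * p) * av2 (fun x y => (∑ n, ∑ m, h n m x y) ^ p) := by
  have h1 : ∀ x y, (∑ n : Fin A, ∑ m : Fin A, ce2 n m (h n m) x y) =
      ∑ n : Fin A, ce n (fun x' => ∑ m : Fin A, ce m (fun y' => h n m x' y') y) x := by
    intro x y
    apply sum_congr rfl
    intro n _
    rw [ce_sum]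
    rfl
  have h2 : ∀ x y, (∑ n : Fin A, ∑ m : Fin A, ce m (fun y' => h n m x y') y) =
      ∑ m : Fin A, ce m (fun y' => ∑ n : Fin A, h n m x y') y := by
    intro x y
    rw [sum_comm]
    apply sum_congr rfl
    intro m _
    rw [ce_sum]
  calc av2 (fun x y => (∑ n : Fin A, ∑ m : Fin A, ce2 n m (h n m) x y) ^ p)
      = av fun y => av fun x =>
        (∑ n : Fin A, ce n (fun x' => ∑ m : Fin A, ce m (fun y' => h n m x' y') y) x) ^ p := by
        unfold av2
        rw [av_comm]
        apply av_congr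
        intro y
        apply av_congr
        intro x
        rw [h1]
    _ ≤ av fun y => (p : ℝ) ^ p * av fun x =>
        (∑ n : Fin A, ∑ m : Fin A, ce m (fun y' => h n m x y') y) ^ p := by
        apply av_mono
        intro y
        exact ddoob1 (fun n x' => ∑ m : Fin A, ce m (fun y' => h n m x' y') y)
          (fun n x => sum_nonneg fun m _ => ce_nonneg (fun y' => h0 n m x y') y) p
    _ = (p : ℝ) ^ p * av fun x => av fun y =>
        (∑ m : Fin A, ce m (fun y' => ∑ n : Fin A, h n m x y') y) ^ p := by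
        rw [av_const_mul, av_comm]
        congr 1
        apply av_congr
        intro x
        apply av_congr
        intro y
        rw [h2]
    _ ≤ (p : ℝ) ^ p * av fun x => ((p : ℝ) ^ p * av fun y =>
        (∑ m : Fin A, ∑ n : Fin A, h n m x y) ^ p) := by
        apply mul_le_mul_of_nonneg_left _ (by positivity)
        apply av_mono
        intro x
        exact ddoob1 (fun m y' => ∑ n : Fin A, h n m x y')
          (fun m y => sum_nonneg fun n _ => h0 n m x y) p
    _ = (p : ℝ) ^ (2 * p) * av2 (fun x y => (∑ n, ∑ m, h n m x y) ^ p) := by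
        rw [av_const_mul, ← mul_assoc, ← pow_add, two_mul]
        congr 1
        unfold av2
        apply av_congr
        intro x
        apply av_congr
        intro y
        rw [sum_comm]

end Pool.Agent.Hyp
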