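import Pool.Agent.Hyp.DefR

/-!
# The hyperbolic cross maximal operator over all dyadic scales: definitions

`MT μ` is the multiplier operator on `L²` with symbol `μ`; `kap ξ = ⌊log₂ (ξ₁² ξ₂²)⌋`; `hs k` the symbol
of the sharp hyperbolic cross `kap < k`; `bl ξ = ⌊log₂ log₂ |kap ξ|⌋` the number of the (doubly
exponential) block of `ξ`, `pb j`, `pm j`, `gt J` the symbols of the blocks.
-/

set_option autoImplicit false

namespace Pool.Agent.Hyp

open MeasureTheory FourierTransform

open Classical in
/-- the multiplier operator with symbol `μ` -/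
noncomputable def MT (μ : E2 → ℂ) (f : Lp ℂ 2 (volume : Measure E2)) :
    Lp ℂ 2 (volume : Measure E2) :=
  if h : MemLp (fun ξ => μ ξ * (𝓕 f : Lp ℂ 2 (volume : Measure E2)) ξ) 2 volume
  then 𝓕⁻ (h.toLp _) else 0

/-- the dyadic scale of a frequency -/
noncomputable def kap (ξ : E2) : ℤ := Int.log 2 ((ξ 0) ^ 2 * (ξ 1) ^ 2)

/-- the symbol of the sharp hyperbolic cross -/
noncomputable def hs (k : ℤ) (ξ : E2) : ℂ := if kap ξ < k then 1 else 0

/-- the number of the block of an integer -/
def sb (k : ℤ) : ℕ := Nat.log 2 (Nat.log 2 k.natAbs)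

/-- the number of the block of a frequency -/
noncomputable def bl (ξ : E2) : ℕ := sb (kap ξ)

/-- symbol of the block `j` -/
noncomputable def pb (j : ℕ) (ξ : E2) : ℂ := if bl ξ = j then 1 else 0

/-- symbol of the low frequency part of the block `j` -/
noncomputable def pm (j : ℕ) (ξ : E2) : ℂ := if bl ξ = j ∧ kap ξ < 0 then 1 else 0

/-- symbol of the low frequency parts of the blocks after `J` -/
noncomputable def gt (J : ℕ) (ξ : E2) : ℂ := if J < bl ξ ∧ kap ξ < 0 then 1 else 0

/-- the error symbol of the comparison with the sharp hyperbolic cross -/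
noncomputable def rs (Φ : ℝ → ℂ) (k : ℤ) (ξ : E2) : ℂ := symb Φ (2 ^ k) ξ - Φ 0 * hs k ξ

end Pool.Agent.Hyp
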