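import Mathlib

/-!
# The hyperbolic cross maximal operator: definitions for the transfer to the plane

`rnd h` rounds down to the lattice `h ℤ²`, `ex x ξ = e (x · ξ)`, `fi g` is the inverse Fourier integral
of `g`, `fd h g` its Riemann sum of mesh `h`, written as the integral of a step function.
-/

set_option autoImplicit false

namespace Pool.Agent.Hyp

open MeasureTheory FourierTransform

/-- rounding down to the lattice `h ℤ²` -/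
noncomputable def rnd (h : ℝ) (ξ : ℝ × ℝ) : ℝ × ℝ := (h * ⌊ξ.1 / h⌋, h * ⌊ξ.2 / h⌋)

/-- the exponential `e (x · ξ)` -/
noncomputable def ex (x ξ : ℝ × ℝ) : ℂ :=
  Complex.exp (2 * Real.pi * Complex.I * ((x.1 : ℂ) * ξ.1 + (x.2 : ℂ) * ξ.2))

/-- the inverse Fourier integral -/
noncomputable def fi (g : ℝ × ℝ → ℂ) (x : ℝ × ℝ) : ℂ := ∫ ξ, g ξ * ex x ξ

/-- its Riemann sum of mesh `h` -/
noncomputable def fd (h : ℝ) (g : ℝ × ℝ → ℂ) (x : ℝ × ℝ) : ℂ := ∫ ξ, g (rnd h ξ) * ex x (rnd h ξ)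

/-- the symbol of `T_t` in coordinates -/
noncomputable def sy (Φ : ℝ → ℂ) (t : ℝ) (ξ : ℝ × ℝ) : ℂ := Φ (ξ.1 ^ 2 * ξ.2 ^ 2 / t)

/-- the plane -/
abbrev E2 := EuclideanSpace ℝ (Fin 2)

/-- the symbol `m_t` of `T_t` -/
noncomputable def symb (Φ : ℝ → ℂ) (t : ℝ) (ξ : E2) : ℂ := Φ ((ξ 0) ^ 2 * (ξ 1) ^ 2 / t)

/-- `g = T_t f`: both are in `L²` and `ĝ = m_t f̂` -/
def IsT (Φ : ℝ → ℂ) (t : ℝ) (f g : Lp ℂ 2 (volume : Measure E2)) : Prop :=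
  ((𝓕 g : Lp ℂ 2 (volume : Measure E2)) : E2 → ℂ) =ᵐ[volume]
    fun ξ => symb Φ t ξ * ((𝓕 f : Lp ℂ 2 (volume : Measure E2)) : E2 → ℂ) ξ

theorem norm_ex (x ξ : ℝ × ℝ) : ‖ex x ξ‖ = 1 := by
  unfold ex
  have : (2 * Real.pi * Complex.I * ((x.1 : ℂ) * ξ.1 + (x.2 : ℂ) * ξ.2) : ℂ) =
      ((2 * Real.pi * (x.1 * ξ.1 + x.2 * ξ.2) : ℝ) : ℂ) * Complex.I := by
    push_cast
    ring
  rw [this, Complex.norm_exp_ofReal_mul_I]

theorem rnd_sub_le {h : ℝ} (hh : 0 < h) (ξ : ℝ × ℝ) : ‖rnd h ξ - ξ‖ ≤ h := by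
  have key : ∀ t : ℝ, |h * ⌊t / h⌋ - t| ≤ h := by
    intro t
    have h1 := Int.floor_le (t / h)
    have h2 := Int.lt_floor_add_one (t / h)
    rw [le_div_iff₀ hh] at h1
    rw [div_lt_iff₀ hh] at h2
    rw [abs_le]
    constructor <;> nlinarith
  rw [Prod.norm_def]
  exact max_le (key ξ.1) (key ξ.2)

end Pool.Agent.Hyp
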