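import Pool.Agent.Hyp.Base2

/-!
# The hyperbolic cross maximal operator: definitions used by all modules

Overview of the proof (finite model).  `f = ∑ sg (x n) sg (y m) c n m x y`, `V = ∑ c n m ^ 2`,
`S_k` the sum over `n + m < k`, `K` a finite set of times.  Theorem (`Core`):
`E max_(k in K) |S_k|^2 ≤ C r ^ 8 E V` as soon as `log log (#K + 3) ≤ r`.

1. Level sets of `V` (Chang, Fefferman, Gundy, Stein): `c` is a sum of pieces, the square function
   of a piece has moments as if it were bounded (`Mom`).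
2. For one piece (`Mom c w`): random marks with rate `X c_R ^ 2` cut the times into windows of small
   energy; at the times of the marks `|S|` is bounded by a power of `r` (net estimate), in windows of
   small energy `|S| < 1` outside a set of probability `exp (-1 / (2 ρ))` for every pair of times.
3. The pieces are summed with fourth moments.
-/

set_option autoImplicit false

namespace Pool.Agent.Hyp

open Finset

variable {A : ℕ}

/-- the martingale with differences `sg (x n) * c n x` -/
noncomputable def bm (c : Fin A → Bits A → ℝ) (x : Bits A) : ℝ := ∑ n : Fin A, sg (x n) * c n x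

/-- the martingale maximal function (of a nonnegative function) -/
noncomputable def mx (g : Bits A → ℝ) (x : Bits A) : ℝ := ⨆ n : Fin (A + 1), ce n g x

/-- the iterated (strong) maximal function (of a nonnegative function) -/
noncomputable def msf (g : Bits A → Bits A → ℝ) (x y : Bits A) : ℝ :=
  mx (fun x' => mx (fun y' => g x' y') y) x

/-- a cell: a pair `(n, m)` and a rectangle, given by representatives of the first `n` bits of `x`
and of the first `m` bits of `y` -/
abbrev Cell (A : ℕ) := Fin A × Fin A × Bits A × Bits A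

/-- the cell of type `(n, m)` which contains `(x, y)` -/
def cell (n m : Fin A) (x y : Bits A) : Cell A :=
  (n, m, glue n x (fun _ => false), glue m y (fun _ => false))

/-- the next time of `K` after `l` (`l` itself if there is none) -/
noncomputable def nx (K : Finset ℕ) (l : ℕ) : ℕ :=
  if ∃ k ∈ K, l ≤ k then sInf {k | k ∈ K ∧ l ≤ k} else l

/-- the time `k` is good at `(x, y)` for the set `M` of marks: the energy up to time `k` is small or
there is a mark at a level before `k` with small energy between -/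
def Good (c : Coef A) (ρ : ℝ) (M : Finset (Cell A)) (k : ℕ) (x y : Bits A) : Prop :=
  VW c 0 k x y ≤ ρ ^ 2 ∨
    ∃ n m : Fin A, cell n m x y ∈ M ∧ (n : ℕ) + m < k ∧ VW c ((n : ℕ) + m + 1) k x y ≤ ρ ^ 2

/-- the bad set of the marks -/
def Bad1 (c : Coef A) (w : Bits A → Bits A → ℝ) (K : Finset ℕ) (ρ : ℝ) (M : Finset (Cell A))
    (x y : Bits A) : Prop := w x y = 1 ∧ ∃ k ∈ K, ¬ Good c ρ M k x y

/-- the bad set of the fixed windows -/
def Bad2 (c : Coef A) (K : Finset ℕ) (ρ : ℝ) (x y : Bits A) : Prop :=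
  ∃ k' ∈ insert 0 K, ∃ k ∈ K, 1 ≤ |SS c k' k x y| ∧ VW c k' k x y ≤ ρ ^ 2

/-- conditional density of the set `V > s` -/
noncomputable def dens (c : Coef A) (s : ℝ) (n m : ℕ) (x y : Bits A) : ℝ :=
  ce2 n m (fun x y => if s < VV c x y then 1 else 0) x y

/-- the piece of `c` of the cells which meet `V > s` in at least one half and `V > s'` in less than
one half -/
noncomputable def piece (c : Coef A) (s s' : ℝ) : Coef A := fun n m x y =>
  if 1 / 2 ≤ dens c s n m x y ∧ dens c s' n m x y < 1 / 2 then c n m x y else 0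

/-- the enlarged level set -/
noncomputable def wt (c : Coef A) (s : ℝ) (x y : Bits A) : ℝ :=
  if 1 / 2 ≤ msf (fun x y => if s < VV c x y then 1 else 0) x y then 1 else 0

/-- the Haar coefficients of a function -/
noncomputable def coefF (f : Bits A → Bits A → ℝ) : Coef A := fun n m x y =>
  ce2 n m (fun x y => sg (x n) * sg (y m) * f x y) x y

/-! ## the maximal functions -/

theorem le_mx (g : Bits A → ℝ) (n : ℕ) (x : Bits A) : ce n g x ≤ mx g x := by
  rcases Nat.lt_or_ge n (A + 1) with h | h
  · exact le_ciSup (f := fun n : Fin (A + 1) => ce n g x) (Set.finite_range _).bddAbove ⟨n, h⟩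
  · have h1 : ce n g x = ce A g x := by
      rw [ce_of_ge (by omega), ce_of_ge le_rfl]
    rw [h1]
    exact le_ciSup (f := fun n : Fin (A + 1) => ce n g x) (Set.finite_range _).bddAbove
      ⟨A, Nat.lt_succ_self A⟩

theorem le_mx_self (g : Bits A → ℝ) (x : Bits A) : g x ≤ mx g x := by
  rw [← ce_of_ge (le_refl A) g x]
  exact le_mx g A x

theorem exists_mx (g : Bits A → ℝ) (x : Bits A) : ∃ n ≤ A, mx g x = ce n g x := by
  obtain ⟨k, hk⟩ := exists_eq_ciSup_of_finite (f := fun n : Fin (A + 1) => ce n g x)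
  exact ⟨k, Nat.le_of_lt_succ k.2, hk.symm⟩

theorem mx_nonneg {g : Bits A → ℝ} (hg : ∀ x, 0 ≤ g x) (x : Bits A) : 0 ≤ mx g x :=
  Real.iSup_nonneg fun _ => ce_nonneg hg x

theorem mx_mono {g g' : Bits A → ℝ} (h : ∀ x, g x ≤ g' x) (x : Bits A) : mx g x ≤ mx g' x := by
  obtain ⟨n, _, h1⟩ := exists_mx g x
  rw [h1]
  exact (ce_mono h x).trans (le_mx g' n x)

theorem ce2_le_msf (g : Bits A → Bits A → ℝ) (n m : ℕ) (x y : Bits A) :
    ce2 n m g x y ≤ msf g x y := by
  rw [ce2_eq]
  exact (ce_mono (fun x' => le_mx (fun y' => g x' y') m y) x).trans (le_mx _ n x)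

theorem msf_nonneg {g : Bits A → Bits A → ℝ} (hg : ∀ x y, 0 ≤ g x y) (x y : Bits A) :
    0 ≤ msf g x y := mx_nonneg (fun _ => mx_nonneg (fun _ => hg _ _) _) x

/-! ## times and cells -/

theorem le_nx (K : Finset ℕ) (l : ℕ) : l ≤ nx K l := by
  unfold nx
  split_ifs with h
  · obtain ⟨k, hk, hl⟩ := h
    have := Nat.sInf_mem (s := {k | k ∈ K ∧ l ≤ k}) ⟨k, hk, hl⟩
    exact this.2
  · exact le_rfl

theorem nx_mem {K : Finset ℕ} {l k : ℕ} (hk : k ∈ K) (hl : l ≤ k) : nx K l ∈ K := by
  unfold nx
  rw [if_pos ⟨k, hk, hl⟩]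
  exact (Nat.sInf_mem (s := {k | k ∈ K ∧ l ≤ k}) ⟨k, hk, hl⟩).1

theorem nx_le {K : Finset ℕ} {l k : ℕ} (hk : k ∈ K) (hl : l ≤ k) : nx K l ≤ k := by
  unfold nx
  rw [if_pos ⟨k, hk, hl⟩]
  exact Nat.sInf_le (s := {k | k ∈ K ∧ l ≤ k}) ⟨hk, hl⟩

theorem cell_inj {n m n' m' : Fin A} {x y x' y' : Bits A} (h : cell n m x y = cell n' m' x' y') :
    n = n' ∧ m = m' := by
  unfold cell at h
  simp only [Prod.mk.injEq] at h
  exact ⟨h.1, h.2.1⟩

/-- an adapted function takes the same value at the representative of the cell -/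
theorem adc_cell {c : Coef A} (hc : AdC c) (n m : Fin A) (x y : Bits A) :
    c n m (cell n m x y).2.2.1 (cell n m x y).2.2.2 = c n m x y := hc n m x y _ _

/-! ## functions of the coefficients -/

theorem FF_eq_bm (c : Coef A) (x y : Bits A) : FF c x y = bm (fun n x' => GG c n x' y) x := by
  unfold FF bm GG dd
  refine Finset.sum_congr rfl fun n _ => ?_
  rw [Finset.mul_sum]
  exact Finset.sum_congr rfl fun m _ => by ring

theorem GG_eq_bm (c : Coef A) (n : Fin A) (x y : Bits A) :
    GG c n x y = bm (fun m y' => c n m x y') y := rfl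

/-- `GG` is adapted in `x` -/
theorem GG_adp {c : Coef A} (hc : AdC c) (n : Fin A) (y : Bits A) :
    Adp (n : ℕ) (fun x => GG c n x y) := by
  intro x b
  unfold GG
  exact Finset.sum_congr rfl fun m _ => by
    have := (hc n m).left y x b
    simp only at this
    rw [this]

theorem Adp.ce_param {n t : ℕ} {f : Bits A → Bits A → ℝ} (hf : ∀ y, Adp n (fun x => f x y))
    (y : Bits A) : Adp n (fun x => ce t (fun y' => f x y') y) := by
  intro x b
  unfold ce
  exact av_congr fun b' => hf _ x b

theorem VV_adp_of_zero {c : Coef A} (hc : AdC c) {N M : ℕ}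
    (h : ∀ n m : Fin A, (N ≤ n ∨ M ≤ m) → ∀ x y, c n m x y = 0) : Adp2 N M (VV c) := by
  intro x y b b'
  unfold VV
  refine Finset.sum_congr rfl fun n _ => Finset.sum_congr rfl fun m _ => ?_
  by_cases h1 : N ≤ n ∨ M ≤ m
  · rw [h n m h1, h n m h1]
  · push Not at h1
    rw [(hc n m).mono h1.1.le h1.2.le x y b b']

theorem coefF_adc (f : Bits A → Bits A → ℝ) : AdC (coefF f) := fun n m => ce2_adp n m _

theorem piece_adc {c : Coef A} (hc : AdC c) (s s' : ℝ) : AdC (piece c s s') := by
  intro n m x y b b'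
  unfold piece dens
  rw [ce2_adp n m _ x y b b', ce2_adp n m _ x y b b', hc n m x y b b']

end Pool.Agent.Hyp
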