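import Pool.Agent.Hyp.DefR

/-!
# Module Dens: smooth compactly supported functions are dense in `L²`

**PROOF.** `(𝓕 f : Lp)` is approximated in `L²` by smooth functions with compact support
(`MeasureTheory.MemLp.exists_hasCompactSupport_eLpNorm_sub_le` gives a continuous one; a smooth one:
`MeasureTheory.Lp.dense_hasCompactSupport_contDiff` if available, or multiply a Schwartz function
(`SchwartzMap.denseRange_toLpCLM`) by smooth cut-off functions, or `ContDiffBump` convolution); such a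
function is a Schwartz function `ψ` (`HasCompactSupport.toSchwartzMap` or its current name).
`‖f - 𝓕⁻ (ψ.toLp 2)‖ = ‖𝓕 f - ψ.toLp 2‖` (`Lp.norm_fourier_eq`,
`FourierTransform.fourier_fourierInv_eq`).
-/

set_option autoImplicit false

namespace Pool.Agent.Hyp

open MeasureTheory FourierTransform SchwartzMap

theorem dens_schwartz (f : Lp ℂ 2 (volume : Measure E2)) {ε : ℝ} (hε : 0 < ε) :
    ∃ ψ : 𝓢(E2, ℂ), HasCompactSupport ψ ∧
      ‖f - (𝓕⁻ (ψ.toLp 2) : Lp ℂ 2 (volume : Measure E2))‖ ≤ ε := by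
  set F : Lp ℂ 2 (volume : Measure E2) := 𝓕 f with hF
  obtain ⟨g, hg1, hg2, hg3⟩ := MemLp.exist_eLpNorm_sub_le (μ := (volume : Measure E2))
    (p := 2) ENNReal.ofNat_ne_top (by norm_num) (Lp.memLp F) hε
  refine ⟨hg1.toSchwartzMap hg2, hg1, ?_⟩
  have h1 : ‖F - (hg1.toSchwartzMap hg2).toLp 2 (volume : Measure E2)‖ ≤ ε := by
    have hae : (F : E2 → ℂ) - ((hg1.toSchwartzMap hg2).toLp 2 (volume : Measure E2) : E2 → ℂ)
        =ᵐ[volume] (F : E2 → ℂ) - g := by
      filter_upwards [(hg1.toSchwartzMap hg2).coeFn_toLp 2 (volume : Measure E2)]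
      simp
    rw [← dist_eq_norm, Lp.dist_def, eLpNorm_congr_ae hae]
    exact ENNReal.toReal_le_of_le_ofReal hε.le hg3
  have h2 : 𝓕 (f - (𝓕⁻ ((hg1.toSchwartzMap hg2).toLp 2 (volume : Measure E2)) : Lp ℂ 2 (volume : Measure E2))) =
      F - (hg1.toSchwartzMap hg2).toLp 2 (volume : Measure E2) := by
    rw [sub_eq_add_neg, FourierAdd.fourier_add]
    have h3 : 𝓕 (-(𝓕⁻ ((hg1.toSchwartzMap hg2).toLp 2 (volume : Measure E2)) : Lp ℂ 2 (volume : Measure E2))) =
        - (hg1.toSchwartzMap hg2).toLp 2 (volume : Measure E2) := by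
      have h4 : (-(𝓕⁻ ((hg1.toSchwartzMap hg2).toLp 2 (volume : Measure E2)) : Lp ℂ 2 (volume : Measure E2))) =
          (-1 : ℂ) • (𝓕⁻ ((hg1.toSchwartzMap hg2).toLp 2 (volume : Measure E2)) : Lp ℂ 2 (volume : Measure E2)) := by
        rw [neg_one_smul]
      rw [h4, FourierSMul.fourier_smul, fourier_fourierInv_eq, neg_one_smul]
    rw [h3, ← sub_eq_add_neg, hF]
  rw [← Lp.norm_fourier_eq, h2]
  exact h1

end Pool.Agent.Hyp
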