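import Pool.Agent.Hyp.DefC

/-!
# Module MSum: the sum over the times of the error bounds (scalar)

`jk k = (k / 2).toNat` (floor division).  `v ≥ 1` stands for `|a b|`.

**PROOF.** Basic fact (B): for real `x > 0` and a finite set `J` of integers
`∑ over j ∈ J with 2^j ≤ x of 2^j / x ≤ 2` and `∑ over j ∈ J with 2^j > x of x / 2^j ≤ 2` (geometric
series: if `2^L ≤ x < 2^(L+1)` the terms are `≤ 2^(j-L)`, `j ≤ L`, resp. `≤ 2^(L+1-j)`, `j > L`).
(1) `2^k ≤ v^2`: `s = v^2/2^k ≥ 1`, `‖Φ s‖^2 ≤ D * (D / s) = D^2 2^k / v^2`; sum over `k` `≤ 2 D^2` by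
(B) with `x = v^2`: contribution `≤ 4 D^2`.
(2) `2^k ≤ v^2` and `j = jk k ≥ 1`: then `k ≥ 2`, `4^j ≤ 2^k ≤ v^2`, so `2^j ≤ v`; every `j` comes from
at most two `k`; (B): `∑ 2^j / v ≤ 2 * 2`; contribution `≤ 2 D^2 * 16 * 4 = 128 D^2`
(`‖Φ 0‖ ≤ D`).
(3) `2^k > v^2` (so `k ≥ 1`): `‖Φ s - Φ 0‖^2 ≤ (2 D) (D s) = 2 D^2 v^2 / 2^k`; (B): contribution
`≤ 2 * 2 D^2 * 2 = 8 D^2`.
(4) `2^k > v^2`: `2^(2j+1) ≥ 2^k > v^2` with `j = jk k`, so `2^(j+1) > v`, and
`v / 2^j = 2 v / 2^(j+1)`; every `j` comes from at most two `k`; (B) for `j + 1`: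
`∑ v/2^j ≤ 2 * 2 * 2 = 8`; contribution `≤ 2 D^2 * 49 * 8 = 784 D^2`.
Total `≤ 924 D^2`.
-/

set_option autoImplicit false

namespace Pool.Agent.Hyp

open Finset

/-- the bound for the error of the time `k` at a frequency with `|a b| = v` -/
noncomputable def mbd (Φ : ℝ → ℂ) (k : ℤ) (v : ℝ) : ℝ :=
  if (2 : ℝ) ^ k ≤ v ^ 2 then
    2 * ‖Φ (v ^ 2 / 2 ^ k)‖ ^ 2 +
      2 * ‖Φ 0‖ ^ 2 * (if jk k = 0 then 0 else 16 * 2 ^ (jk k) / v)
  else
    2 * ‖Φ (v ^ 2 / 2 ^ k) - Φ 0‖ ^ 2 + 2 * ‖Φ 0‖ ^ 2 * (49 * v / 2 ^ (jk k))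

theorem MSum_geo (J : Finset ℤ) : ∀ x : ℝ, 0 < x → (∀ j ∈ J, (2 : ℝ) ^ j ≤ x) →
    ∑ j ∈ J, (2 : ℝ) ^ j ≤ 2 * x := by
  classical
  induction J using Finset.induction_on_max with
  | empty =>
    intro x hx _
    rw [Finset.sum_empty]
    linarith
  | insert a s has ih =>
    intro x hx h
    have hna : a ∉ s := fun hc => lt_irrefl a (has a hc)
    rw [Finset.sum_insert hna]
    have h1 : (2 : ℝ) ^ a ≤ x := h a (Finset.mem_insert_self a s)
    have h2 : (0 : ℝ) < 2 ^ a := by positivity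
    have h3 := ih ((2 : ℝ) ^ a / 2) (by linarith) (by
      intro j hj
      have h4 : j ≤ a - 1 := by
        have := has j hj
        omega
      have h5 : (2 : ℝ) ^ j ≤ 2 ^ (a - 1) := zpow_le_zpow_right₀ (by norm_num) h4
      rw [zpow_sub_one₀ (by norm_num)] at h5
      linarith)
    linarith

theorem MSum_geo' (J : Finset ℤ) (x : ℝ) (hx : 0 < x) (h : ∀ j ∈ J, x ≤ (2 : ℝ) ^ j) :
    ∑ j ∈ J, x / (2 : ℝ) ^ j ≤ 2 := by
  classical
  have h1 := MSum_geo (J.image fun j => -j) (1 / x) (by positivity) (by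
    intro j hj
    obtain ⟨i, hi, rfl⟩ := Finset.mem_image.1 hj
    rw [zpow_neg, ← one_div]
    exact one_div_le_one_div_of_le hx (h i hi))
  rw [Finset.sum_image (fun a _ b _ hab => neg_injective hab)] at h1
  have h2 : ∑ j ∈ J, x / (2 : ℝ) ^ j = x * ∑ j ∈ J, (2 : ℝ) ^ (-j) := by
    rw [Finset.mul_sum]
    refine Finset.sum_congr rfl fun j _ => ?_
    rw [zpow_neg, div_eq_mul_inv]
  rw [h2]
  have h3 := mul_le_mul_of_nonneg_left h1 hx.le
  have h4 : x * (2 * (1 / x)) = 2 := by field_simp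
  linarith

theorem MSum_fib (S : Finset ℤ) (hS : ∀ k ∈ S, 0 ≤ k) (g : ℤ → ℝ) (B : ℝ)
    (h : ∀ J : Finset ℤ, (∀ j ∈ J, ∃ k ∈ S, j = (jk k : ℤ)) → ∑ j ∈ J, g j ≤ B) :
    ∑ k ∈ S, g (jk k : ℤ) ≤ 2 * B := by
  classical
  have key : ∀ T ⊆ S, (∀ k ∈ T, ∀ l ∈ T, k % 2 = l % 2) → ∑ k ∈ T, g (jk k : ℤ) ≤ B := by
    intro T hT hpar
    have h1 : ∑ k ∈ T, g (jk k : ℤ) = ∑ j ∈ T.image (fun k => (jk k : ℤ)), g j := by
      rw [Finset.sum_image]
      intro a ha b hb hab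
      have h2 := hS a (hT ha)
      have h3 := hS b (hT hb)
      have h4 := hpar a ha b hb
      unfold jk at hab
      simp only at hab
      omega
    rw [h1]
    apply h
    intro j hj
    obtain ⟨k, hk, rfl⟩ := Finset.mem_image.1 hj
    exact ⟨k, hT hk, rfl⟩
  rw [← Finset.sum_filter_add_sum_filter_not S (fun k => k % 2 = 0)]
  have h1 := key (S.filter fun k => k % 2 = 0) (Finset.filter_subset _ _) (by
    intro k hk l hl
    have h1 := (Finset.mem_filter.1 hk).2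
    have h2 := (Finset.mem_filter.1 hl).2
    omega)
  have h2 := key (S.filter fun k => ¬ k % 2 = 0) (Finset.filter_subset _ _) (by
    intro k hk l hl
    have h1 := (Finset.mem_filter.1 hk).2
    have h2 := (Finset.mem_filter.1 hl).2
    omega)
  linarith

theorem msum {Φ : ℝ → ℂ} {D : ℝ} (h1 : ∀ s, 0 ≤ s → ‖Φ s‖ ≤ D) (h2 : ∀ s, 0 ≤ s → s * ‖Φ s‖ ≤ D)
    (h3 : ∀ s, 0 ≤ s → ‖Φ s - Φ 0‖ ≤ D * s) (K : Finset ℤ) {v : ℝ} (hv : 1 ≤ v) :
    ∑ k ∈ K, mbd Φ k v ≤ 1000 * D ^ 2 := by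
  classical
  have hD : 0 ≤ D := (norm_nonneg _).trans (h1 0 le_rfl)
  have hv0 : 0 < v := by linarith
  have hv2 : 0 < v ^ 2 := by positivity
  have hP0 : ‖Φ 0‖ ^ 2 ≤ D ^ 2 := pow_le_pow_left₀ (norm_nonneg _) (h1 0 le_rfl) 2
  rw [← Finset.sum_filter_add_sum_filter_not K (fun k => (2 : ℝ) ^ k ≤ v ^ 2)]
  set K1 := K.filter (fun k => (2 : ℝ) ^ k ≤ v ^ 2) with hK1
  set K2 := K.filter (fun k => ¬ (2 : ℝ) ^ k ≤ v ^ 2) with hK2
  -- part 1
  have hA : ∑ k ∈ K1, mbd Φ k v ≤ 132 * D ^ 2 := by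
    have e1 : ∀ k ∈ K1, mbd Φ k v ≤ 2 * D ^ 2 / v ^ 2 * (2 : ℝ) ^ k +
        32 * D ^ 2 / v * (if jk k = 0 then 0 else (2 : ℝ) ^ ((jk k : ℕ) : ℤ)) := by
      intro k hk
      have hk1 := (Finset.mem_filter.1 hk).2
      have h2k : (0 : ℝ) < 2 ^ k := by positivity
      unfold mbd
      rw [if_pos hk1]
      have hs : 0 < v ^ 2 / 2 ^ k := by positivity
      have e2 : ‖Φ (v ^ 2 / 2 ^ k)‖ ^ 2 ≤ D ^ 2 / v ^ 2 * (2 : ℝ) ^ k := by
        have e3 := h1 _ hs.le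
        have e4 := h2 _ hs.le
        have e5 : (v ^ 2 / 2 ^ k) * ‖Φ (v ^ 2 / 2 ^ k)‖ ^ 2 ≤ D ^ 2 := by
          calc (v ^ 2 / 2 ^ k) * ‖Φ (v ^ 2 / 2 ^ k)‖ ^ 2
              = ((v ^ 2 / 2 ^ k) * ‖Φ (v ^ 2 / 2 ^ k)‖) * ‖Φ (v ^ 2 / 2 ^ k)‖ := by ring
            _ ≤ D * D := mul_le_mul e4 e3 (norm_nonneg _) hD
            _ = D ^ 2 := by ring
        rw [mul_comm, ← le_div_iff₀ hs] at e5
        refine e5.trans (le_of_eq ?_)
        field_simp
      have e6 : 2 * ‖Φ 0‖ ^ 2 * (if jk k = 0 then 0 else 16 * 2 ^ (jk k) / v) ≤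
          32 * D ^ 2 / v * (if jk k = 0 then 0 else (2 : ℝ) ^ ((jk k : ℕ) : ℤ)) := by
        split_ifs with h0
        · simp
        · rw [zpow_natCast]
          have e7 : 0 ≤ 16 * (2 : ℝ) ^ (jk k) / v := by positivity
          calc 2 * ‖Φ 0‖ ^ 2 * (16 * 2 ^ (jk k) / v) ≤ 2 * D ^ 2 * (16 * 2 ^ (jk k) / v) := by
                apply mul_le_mul_of_nonneg_right _ e7
                linarith
            _ = _ := by ring
      have e8 : 2 * (D ^ 2 / v ^ 2 * (2 : ℝ) ^ k) = 2 * D ^ 2 / v ^ 2 * (2 : ℝ) ^ k := by ring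
      linarith
    refine (Finset.sum_le_sum e1).trans ?_
    rw [Finset.sum_add_distrib, ← Finset.mul_sum, ← Finset.mul_sum]
    have e2 := MSum_geo K1 (v ^ 2) hv2 (fun j hj => (Finset.mem_filter.1 hj).2)
    have e3 : 2 * D ^ 2 / v ^ 2 * ∑ k ∈ K1, (2 : ℝ) ^ k ≤ 4 * D ^ 2 := by
      refine (mul_le_mul_of_nonneg_left e2 (by positivity)).trans (le_of_eq ?_)
      field_simp
      ring
    have e4 : ∑ k ∈ K1, (if jk k = 0 then 0 else (2 : ℝ) ^ ((jk k : ℕ) : ℤ)) ≤ 4 * v := by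
      have e5 : ∑ k ∈ K1, (if jk k = 0 then 0 else (2 : ℝ) ^ ((jk k : ℕ) : ℤ)) =
          ∑ k ∈ K1.filter (fun k => ¬ jk k = 0), (2 : ℝ) ^ ((jk k : ℕ) : ℤ) := by
        refine Eq.symm ((Finset.sum_filter _ _).trans (Finset.sum_congr rfl fun k _ => ?_))
        by_cases h0 : jk k = 0
        · rw [if_pos h0, if_neg (fun hc => hc h0)]
        · rw [if_neg h0, if_pos h0]
      rw [e5]
      have e6 := MSum_fib (K1.filter (fun k => ¬ jk k = 0)) (by
          intro k hk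
          have h0 := (Finset.mem_filter.1 hk).2
          unfold jk at h0
          omega) (fun j => (2 : ℝ) ^ j) (2 * v) (by
          intro J hJ
          apply MSum_geo J v hv0
          intro j hj
          obtain ⟨k, hk, rfl⟩ := hJ j hj
          obtain ⟨hk1, h0⟩ := Finset.mem_filter.1 hk
          have hk2 := (Finset.mem_filter.1 hk1).2
          have h5 : 2 * (jk k : ℤ) ≤ k := by
            unfold jk at h0 ⊢
            omega
          have h6 : ((2 : ℝ) ^ (jk k : ℤ)) ^ 2 ≤ v ^ 2 := by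
            refine le_trans ?_ hk2
            rw [← zpow_natCast, ← zpow_mul]
            exact zpow_le_zpow_right₀ (by norm_num) (by push_cast; linarith)
          exact (pow_le_pow_iff_left₀ (by positivity) hv0.le two_ne_zero).1 h6)
      linarith
    have e7 : 32 * D ^ 2 / v * ∑ k ∈ K1, (if jk k = 0 then 0 else (2 : ℝ) ^ ((jk k : ℕ) : ℤ)) ≤
        128 * D ^ 2 := by
      refine (mul_le_mul_of_nonneg_left e4 (by positivity)).trans (le_of_eq ?_)
      field_simp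
      ring
    linarith
  have hB : ∑ k ∈ K2, mbd Φ k v ≤ 792 * D ^ 2 := by
    have e1 : ∀ k ∈ K2, mbd Φ k v ≤ 4 * D ^ 2 * (v ^ 2 / (2 : ℝ) ^ k) +
        196 * D ^ 2 * (v / (2 : ℝ) ^ (((jk k : ℕ) : ℤ) + 1)) := by
      intro k hk
      have hk1 := (Finset.mem_filter.1 hk).2
      have h2k : (0 : ℝ) < 2 ^ k := by positivity
      unfold mbd
      rw [if_neg hk1]
      have hs : 0 < v ^ 2 / 2 ^ k := by positivity
      have e2 : ‖Φ (v ^ 2 / 2 ^ k) - Φ 0‖ ^ 2 ≤ 2 * D ^ 2 * (v ^ 2 / (2 : ℝ) ^ k) := by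
        have e3 := h3 _ hs.le
        have e4 : ‖Φ (v ^ 2 / 2 ^ k) - Φ 0‖ ≤ 2 * D := by
          refine (norm_sub_le _ _).trans ?_
          have e5 := h1 _ hs.le
          have e6 := h1 0 le_rfl
          linarith
        calc ‖Φ (v ^ 2 / 2 ^ k) - Φ 0‖ ^ 2
            = ‖Φ (v ^ 2 / 2 ^ k) - Φ 0‖ * ‖Φ (v ^ 2 / 2 ^ k) - Φ 0‖ := by ring
          _ ≤ (2 * D) * (D * (v ^ 2 / 2 ^ k)) := mul_le_mul e4 e3 (norm_nonneg _) (by linarith)
          _ = _ := by ring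
      have e6 : 2 * ‖Φ 0‖ ^ 2 * (49 * v / 2 ^ (jk k)) ≤
          196 * D ^ 2 * (v / (2 : ℝ) ^ (((jk k : ℕ) : ℤ) + 1)) := by
        rw [zpow_add_one₀ (by norm_num), zpow_natCast]
        have e7 : 0 ≤ 49 * v / (2 : ℝ) ^ (jk k) := by positivity
        calc 2 * ‖Φ 0‖ ^ 2 * (49 * v / 2 ^ (jk k)) ≤ 2 * D ^ 2 * (49 * v / 2 ^ (jk k)) := by
              apply mul_le_mul_of_nonneg_right _ e7
              linarith
          _ = _ := by
              field_simp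
              ring
      linarith
    refine (Finset.sum_le_sum e1).trans ?_
    rw [Finset.sum_add_distrib, ← Finset.mul_sum, ← Finset.mul_sum]
    have e2 := MSum_geo' K2 (v ^ 2) hv2 (fun j hj => (not_le.1 (Finset.mem_filter.1 hj).2).le)
    have e4 : ∑ k ∈ K2, v / (2 : ℝ) ^ (((jk k : ℕ) : ℤ) + 1) ≤ 4 := by
      have e6 := MSum_fib K2 (by
          intro k hk
          have h0 := not_le.1 (Finset.mem_filter.1 hk).2
          by_contra hc
          have h5 : (2 : ℝ) ^ k ≤ 2 ^ (0 : ℤ) := zpow_le_zpow_right₀ (by norm_num) (by omega)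
          rw [zpow_zero] at h5
          nlinarith) (fun j => v / (2 : ℝ) ^ (j + 1)) 2 (by
          intro J hJ
          have e7 := MSum_geo' (J.image fun j => j + 1) v hv0 (by
            intro j hj
            obtain ⟨i, hi, rfl⟩ := Finset.mem_image.1 hj
            obtain ⟨k, hk, rfl⟩ := hJ i hi
            have hk2 := not_le.1 (Finset.mem_filter.1 hk).2
            have h5 : k ≤ ((jk k : ℤ) + 1) * 2 := by
              unfold jk
              omega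
            have h6 : v ^ 2 ≤ ((2 : ℝ) ^ ((jk k : ℤ) + 1)) ^ 2 := by
              refine hk2.le.trans ?_
              rw [← zpow_natCast, ← zpow_mul]
              exact zpow_le_zpow_right₀ (by norm_num) (by push_cast; linarith)
            exact (pow_le_pow_iff_left₀ hv0.le (by positivity) two_ne_zero).1 h6)
          rw [Finset.sum_image (fun a _ b _ hab => by simpa using hab)] at e7
          exact e7)
      linarith
    have e5 : 4 * D ^ 2 * ∑ k ∈ K2, v ^ 2 / (2 : ℝ) ^ k ≤ 8 * D ^ 2 := by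
      have := mul_le_mul_of_nonneg_left e2 (by positivity : 0 ≤ 4 * D ^ 2)
      linarith
    have e6 : 196 * D ^ 2 * ∑ k ∈ K2, v / (2 : ℝ) ^ (((jk k : ℕ) : ℤ) + 1) ≤ 784 * D ^ 2 := by
      have := mul_le_mul_of_nonneg_left e4 (by positivity : 0 ≤ 196 * D ^ 2)
      linarith
    linarith
  nlinarith [sq_nonneg D]

end Pool.Agent.Hyp
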