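import Pool.Agent.Hyp.DCs
import Pool.Agent.Hyp.ChPos
import Pool.Agent.Hyp.AlSum

/-!
# Module MkB: the error of one character

Put `E x y = ch a x * ch b y`, `S j x y = SC E j x y = ∑ n ∑ m [n + m < j] DC (ch a) n x DC (ch b) m y`
(`SC_prod`), `α n = al (ch a) n`, `β m = al (ch b) m`.

**PROOF of `mk_lo`.** `‖z E - z0 S‖^2 ≤ 2 ‖z‖^2 ‖E‖^2 + 2 ‖z0‖^2 ‖S‖^2`, `‖E‖ = 1` (`norm_ch`),
`av2 ‖S‖^2 = ∑ n ∑ m [n + m < j] α n β m` (`dc_orth`), which is `0` for `j = 0` and otherwise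
`≤ ∑ n ∑ m 2^(j - n - m) α n β m = 2^j (∑ α n / 2^n)(∑ β m / 2^m) ≤ 16 * 2^j / (|a| |b|)`
(`al_sum_neg`).
**PROOF of `mk_hi`.** `z E - z0 S = (z - z0) E + z0 (E - S)`.  By `dc_sum` and `avC_ch`
(`0 < |a| < 2^A`) `ch a x = ∑ n, DC (ch a) n x`, so `E - S = ∑ n ∑ m [¬ (n + m < j)] DC DC` and
`av2 ‖E - S‖^2 = ∑ n ∑ m [j ≤ n + m] α n β m ≤ ∑ n ∑ m 2^(n+m-j) α n β m ≤ 49 |a| |b| / 2^j`
(`al_sum_pos`).
-/

set_option autoImplicit false

namespace Pool.Agent.Hyp

open Finset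

theorem MkB_sq (p q : ℂ) : ‖p - q‖ ^ 2 ≤ 2 * ‖p‖ ^ 2 + 2 * ‖q‖ ^ 2 := by
  have h1 := norm_sub_le p q
  have h2 : ‖p - q‖ ^ 2 ≤ (‖p‖ + ‖q‖) ^ 2 := pow_le_pow_left₀ (norm_nonneg _) h1 2
  nlinarith [sq_nonneg (‖p‖ - ‖q‖)]

theorem MkB_sq' (p q : ℂ) : ‖p + q‖ ^ 2 ≤ 2 * ‖p‖ ^ 2 + 2 * ‖q‖ ^ 2 := by
  have := MkB_sq p (-q)
  rwa [sub_neg_eq_add, norm_neg] at this

/-- average of a bound of the form constant plus multiple of the square of a function -/
theorem MkB_av {A : ℕ} (u v : ℝ) (G : Bits A → Bits A → ℝ) :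
    av2 (fun x y => u + v * G x y) = u + v * av2 G := by
  rw [av2_add, av2_const, av2_const_mul]

/-- product form of a double sum -/
theorem MkB_double {A : ℕ} (t : ℝ) (f g : Fin A → ℝ) :
    ∑ n : Fin A, ∑ m : Fin A, t * (f n * g m) = t * ((∑ n : Fin A, f n) * ∑ m : Fin A, g m) := by
  rw [Finset.sum_mul_sum, Finset.mul_sum]
  exact Finset.sum_congr rfl fun n _ => by rw [Finset.mul_sum]

theorem mk_lo {A : ℕ} {a b : ℤ} (ha0 : a ≠ 0) (hb0 : b ≠ 0) (ha : 2 * |a| < 2 ^ A)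
    (hb : 2 * |b| < 2 ^ A) (z z0 : ℂ) (j : ℕ) :
    av2 (fun x y : Bits A => ‖z * (ch a x * ch b y) -
        z0 * SC (fun x y => ch a x * ch b y) j x y‖ ^ 2) ≤
      2 * ‖z‖ ^ 2 + 2 * ‖z0‖ ^ 2 * (if j = 0 then 0 else 16 * 2 ^ j / (|(a : ℝ)| * |(b : ℝ)|)) := by
  have ha' : 0 < |(a : ℝ)| := abs_pos.2 (by exact_mod_cast ha0)
  have hb' : 0 < |(b : ℝ)| := abs_pos.2 (by exact_mod_cast hb0)
  have h1 : ∀ x y : Bits A, ‖z * (ch a x * ch b y) -
        z0 * SC (fun x y => ch a x * ch b y) j x y‖ ^ 2 ≤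
      2 * ‖z‖ ^ 2 + 2 * ‖z0‖ ^ 2 * ‖∑ n : Fin A, ∑ m : Fin A,
        if (n : ℕ) + m < j then DC (fun x : Bits A => ch a x) n x *
          DC (fun y : Bits A => ch b y) m y else 0‖ ^ 2 := by
    intro x y
    have e1 := SC_prod (fun x : Bits A => ch a x) (fun y : Bits A => ch b y) j x y
    have e2 := MkB_sq (z * (ch a x * ch b y)) (z0 * SC (fun x y => ch a x * ch b y) j x y)
    rw [norm_mul z, norm_mul z0, norm_mul (ch a x), norm_ch, norm_ch, mul_one, mul_one,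
      mul_pow ‖z0‖] at e2
    rw [← e1]
    linarith
  refine (av2_mono h1).trans ?_
  rw [MkB_av, dc_orth (fun x : Bits A => ch a x) (fun y : Bits A => ch b y)
    (fun n m => (n : ℕ) + m < j)]
  have hz : 0 ≤ 2 * ‖z0‖ ^ 2 := by positivity
  refine add_le_add le_rfl (mul_le_mul_of_nonneg_left ?_ hz)
  by_cases hj : j = 0
  · rw [if_pos hj]
    refine le_of_eq (Finset.sum_eq_zero fun n _ => Finset.sum_eq_zero fun m _ => ?_)
    rw [if_neg (by omega)]
  · rw [if_neg hj]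
    have h2 : ∀ n m : Fin A, (if (n : ℕ) + m < j then al (fun x : Bits A => ch a x) n *
        al (fun y : Bits A => ch b y) m else 0) ≤
        2 ^ j * ((al (fun x : Bits A => ch a x) n / 2 ^ (n : ℕ)) *
          (al (fun y : Bits A => ch b y) m / 2 ^ (m : ℕ))) := by
      intro n m
      have k1 := al_nonneg (fun x : Bits A => ch a x) n
      have k2 := al_nonneg (fun y : Bits A => ch b y) m
      have k3 : 2 ^ j * ((al (fun x : Bits A => ch a x) n / 2 ^ (n : ℕ)) *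
          (al (fun y : Bits A => ch b y) m / 2 ^ (m : ℕ))) =
          (2 ^ j / 2 ^ ((n : ℕ) + m)) * (al (fun x : Bits A => ch a x) n *
          al (fun y : Bits A => ch b y) m) := by
        rw [pow_add]
        field_simp
      rw [k3]
      split_ifs with h
      · have k4 : (1 : ℝ) ≤ 2 ^ j / 2 ^ ((n : ℕ) + m) := by
          rw [one_le_div (by positivity)]
          exact pow_le_pow_right₀ (by norm_num) h.le
        have k5 := mul_nonneg k1 k2
        nlinarith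
      · positivity
    calc _ ≤ ∑ n : Fin A, ∑ m : Fin A, 2 ^ j * ((al (fun x : Bits A => ch a x) n / 2 ^ (n : ℕ)) *
          (al (fun y : Bits A => ch b y) m / 2 ^ (m : ℕ))) :=
          Finset.sum_le_sum fun n _ => Finset.sum_le_sum fun m _ => h2 n m
      _ = 2 ^ j * ((∑ n : Fin A, al (fun x : Bits A => ch a x) n / 2 ^ (n : ℕ)) *
          ∑ m : Fin A, al (fun y : Bits A => ch b y) m / 2 ^ (m : ℕ)) :=
          MkB_double (2 ^ j) _ _
      _ ≤ 2 ^ j * ((4 / |(a : ℝ)|) * (4 / |(b : ℝ)|)) := by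
          refine mul_le_mul_of_nonneg_left ?_ (by positivity)
          refine mul_le_mul (al_sum_neg ha0 ha.le) (al_sum_neg hb0 hb.le) ?_ (by positivity)
          exact Finset.sum_nonneg fun m _ => div_nonneg (al_nonneg _ m) (by positivity)
      _ = 16 * 2 ^ j / (|(a : ℝ)| * |(b : ℝ)|) := by
          field_simp
          norm_num

theorem mk_hi {A : ℕ} {a b : ℤ} (ha0 : a ≠ 0) (hb0 : b ≠ 0) (ha : 2 * |a| < 2 ^ A)
    (hb : 2 * |b| < 2 ^ A) (z z0 : ℂ) (j : ℕ) :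
    av2 (fun x y : Bits A => ‖z * (ch a x * ch b y) -
        z0 * SC (fun x y => ch a x * ch b y) j x y‖ ^ 2) ≤
      2 * ‖z - z0‖ ^ 2 + 2 * ‖z0‖ ^ 2 * (49 * (|(a : ℝ)| * |(b : ℝ)|) / 2 ^ j) := by
  have ha' : 0 < |(a : ℝ)| := abs_pos.2 (by exact_mod_cast ha0)
  have hb' : 0 < |(b : ℝ)| := abs_pos.2 (by exact_mod_cast hb0)
  have hcha : ∀ x : Bits A, ch a x = ∑ n : Fin A, DC (fun x : Bits A => ch a x) n x := by
    intro x
    have h1 := dc_sum (fun x : Bits A => ch a x) x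
    rw [avC_ch ha0 (by have := abs_nonneg a; omega), zero_add] at h1
    exact h1
  have hchb : ∀ x : Bits A, ch b x = ∑ n : Fin A, DC (fun x : Bits A => ch b x) n x := by
    intro x
    have h1 := dc_sum (fun x : Bits A => ch b x) x
    rw [avC_ch hb0 (by have := abs_nonneg b; omega), zero_add] at h1
    exact h1
  have hdiff : ∀ x y : Bits A, ch a x * ch b y - SC (fun x y => ch a x * ch b y) j x y =
      ∑ n : Fin A, ∑ m : Fin A, if ¬ ((n : ℕ) + m < j) then DC (fun x : Bits A => ch a x) n x *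
          DC (fun y : Bits A => ch b y) m y else 0 := by
    intro x y
    rw [SC_prod (fun x : Bits A => ch a x) (fun y : Bits A => ch b y) j x y, hcha x, hchb y,
      Finset.sum_mul_sum, ← Finset.sum_sub_distrib]
    refine Finset.sum_congr rfl fun n _ => ?_
    rw [← Finset.sum_sub_distrib]
    refine Finset.sum_congr rfl fun m _ => ?_
    by_cases h : (n : ℕ) + m < j
    · rw [if_pos h, if_neg (not_not.2 h), sub_self]
    · rw [if_neg h, if_pos h, sub_zero]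
  have h1 : ∀ x y : Bits A, ‖z * (ch a x * ch b y) -
        z0 * SC (fun x y => ch a x * ch b y) j x y‖ ^ 2 ≤
      2 * ‖z - z0‖ ^ 2 + 2 * ‖z0‖ ^ 2 * ‖∑ n : Fin A, ∑ m : Fin A,
        if ¬ ((n : ℕ) + m < j) then DC (fun x : Bits A => ch a x) n x *
          DC (fun y : Bits A => ch b y) m y else 0‖ ^ 2 := by
    intro x y
    have e0 : z * (ch a x * ch b y) - z0 * SC (fun x y => ch a x * ch b y) j x y =
        (z - z0) * (ch a x * ch b y) +
          z0 * (ch a x * ch b y - SC (fun x y => ch a x * ch b y) j x y) := by ring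
    have e2 := MkB_sq' ((z - z0) * (ch a x * ch b y))
      (z0 * (ch a x * ch b y - SC (fun x y => ch a x * ch b y) j x y))
    rw [← e0, norm_mul (z - z0), norm_mul z0, norm_mul (ch a x), norm_ch, norm_ch, mul_one,
      mul_one, mul_pow ‖z0‖, hdiff x y] at e2
    linarith
  refine (av2_mono h1).trans ?_
  rw [MkB_av, dc_orth (fun x : Bits A => ch a x) (fun y : Bits A => ch b y)
    (fun n m => ¬ ((n : ℕ) + m < j))]
  have hz : 0 ≤ 2 * ‖z0‖ ^ 2 := by positivity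
  refine add_le_add le_rfl (mul_le_mul_of_nonneg_left ?_ hz)
  have h2 : ∀ n m : Fin A, (if ¬ ((n : ℕ) + m < j) then al (fun x : Bits A => ch a x) n *
      al (fun y : Bits A => ch b y) m else 0) ≤
      (2 ^ j)⁻¹ * ((al (fun x : Bits A => ch a x) n * 2 ^ (n : ℕ)) *
        (al (fun y : Bits A => ch b y) m * 2 ^ (m : ℕ))) := by
    intro n m
    have k1 := al_nonneg (fun x : Bits A => ch a x) n
    have k2 := al_nonneg (fun y : Bits A => ch b y) m
    have k3 : (2 ^ j : ℝ)⁻¹ * ((al (fun x : Bits A => ch a x) n * 2 ^ (n : ℕ)) *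
        (al (fun y : Bits A => ch b y) m * 2 ^ (m : ℕ))) =
        (2 ^ ((n : ℕ) + m) / 2 ^ j) * (al (fun x : Bits A => ch a x) n *
        al (fun y : Bits A => ch b y) m) := by
      rw [pow_add]
      field_simp
    rw [k3]
    by_cases h : (n : ℕ) + m < j
    · rw [if_neg (not_not.2 h)]
      positivity
    · rw [if_pos h]
      push Not at h
      have k4 : (1 : ℝ) ≤ 2 ^ ((n : ℕ) + m) / 2 ^ j := by
        rw [one_le_div (by positivity)]
        exact pow_le_pow_right₀ (by norm_num) h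
      have k5 := mul_nonneg k1 k2
      nlinarith
  calc _ ≤ ∑ n : Fin A, ∑ m : Fin A, (2 ^ j)⁻¹ * ((al (fun x : Bits A => ch a x) n * 2 ^ (n : ℕ)) *
        (al (fun y : Bits A => ch b y) m * 2 ^ (m : ℕ))) :=
        Finset.sum_le_sum fun n _ => Finset.sum_le_sum fun m _ => h2 n m
    _ = (2 ^ j)⁻¹ * ((∑ n : Fin A, al (fun x : Bits A => ch a x) n * 2 ^ (n : ℕ)) *
        ∑ m : Fin A, al (fun y : Bits A => ch b y) m * 2 ^ (m : ℕ)) :=
        MkB_double _ _ _
    _ ≤ (2 ^ j)⁻¹ * ((7 * |(a : ℝ)|) * (7 * |(b : ℝ)|)) := by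
        refine mul_le_mul_of_nonneg_left ?_ (by positivity)
        refine mul_le_mul (al_sum_pos ha0) (al_sum_pos hb0) ?_ (by positivity)
        exact Finset.sum_nonneg fun m _ => mul_nonneg (al_nonneg _ m) (by positivity)
    _ = 49 * (|(a : ℝ)| * |(b : ℝ)|) / 2 ^ j := by
        field_simp
        norm_num

end Pool.Agent.Hyp
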