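import Pool.Agent.Hyp.CoreC
import Pool.Agent.Hyp.MkB
import Pool.Agent.Hyp.MSum

/-!
# Module DiscB: the maximal inequality on the finite torus (bit form)

Write `e ξ x y = ch ξ.1 x * ch ξ.2 y`, `m k ξ = Φ (ξ.1^2 ξ.2^2 / 2^k)`,
`G x y = (⨆ k : K, ‖∑ ξ ∈ F, m k ξ p ξ e ξ x y‖)^2`.

**PROOF of `disc_off`.** Put `P = ∑ ‖p ξ‖^2`, `K' = K.image jk` (`K'.card ≤ K.card`).
For `τ = (τ1, τ2)` let `q ξ = p ξ * e ξ τ1 τ2` (`‖q ξ‖ = ‖p ξ‖`) and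
`f x y = ∑ ξ ∈ F, q ξ * e ξ x y`.  With the equivalences `σ1, σ2` of `exists_shift`,
`G (σ1 x) (σ2 y) = (⨆ k, ‖∑ ξ m k ξ q ξ e ξ x y‖)^2`, and `av2 G = av2 (G (σ1 x) (σ2 y))` (`av_equiv`
in both variables).  Put `u k ξ x y = m k ξ * e ξ x y - Φ 0 * SC (e ξ) (jk k) x y`; then by `SC_sum`
`∑ ξ m k ξ q ξ e ξ x y = Φ 0 * SC f (jk k) x y + ∑ ξ q ξ u k ξ x y`, so
`(⨆ k, ‖..‖)^2 ≤ 2 ‖Φ 0‖^2 (⨆ j : K', ‖SC f j x y‖)^2 + 2 ∑ k ∈ K, ‖∑ ξ q ξ u k ξ x y‖^2`.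
Average over `(x, y)`, then over `τ`:
* `coreC` (`log (K'.card + 3) ≤ log (K.card + 3)`) and `parseval`: `av2 ‖f‖^2 = ∑ ‖q ξ‖^2 = P`; first
  term `≤ 2 D^2 10^23 r^8 P`.
* For fixed `(x, y)`: `av over τ` of `‖∑ ξ p ξ u k ξ x y * e ξ τ1 τ2‖^2 = ∑ ξ ‖p ξ‖^2 ‖u k ξ x y‖^2`
  (`parseval` in the variables `τ1, τ2`).  Then average over `(x, y)` (exchange of the averages,
  `av_comm`): second term `≤ 2 ∑ ξ ‖p ξ‖^2 ∑ k ∈ K, av2 ‖u k ξ‖^2`, and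
  `av2 ‖u k ξ‖^2 ≤ mbd Φ k (|ξ.1| |ξ.2|)` by `mk_lo` / `mk_hi` (note
  `ξ.1^2 ξ.2^2 = (|ξ.1| |ξ.2|)^2`), so `∑ k ≤ 1000 D^2` (`msum`, `v = |ξ.1||ξ.2| ≥ 1`).
Total `≤ (2 * 10^23 r^8 + 2000) D^2 P ≤ 10^24 D^2 r^8 P`.

**PROOF of `discB`.** Split `F` in `F0 = {ξ.1 = 0 or ξ.2 = 0}` and `F1` the rest.  For `ξ ∈ F0`,
`m k ξ = Φ 0`, so the sum over `F0` is `Φ 0 * ∑ ξ ∈ F0, p ξ e ξ x y`, with square average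
`≤ D^2 ∑ ξ ∈ F0, ‖p ξ‖^2` (`parseval`).  `(a + b)^2 ≤ 2 a^2 + 2 b^2` and `disc_off` for `F1`.
-/

set_option autoImplicit false

namespace Pool.Agent.Hyp

open Finset

private theorem DiscB_ptw {ι : Type} [Fintype ι] (g a b : ι → ℂ) {M : ℝ} (hM : 0 ≤ M)
    (hg : ∀ k, g k = a k + b k) (ha : ∀ k, ‖a k‖ ≤ M) :
    (⨆ k, ‖g k‖) ^ 2 ≤ 2 * M ^ 2 + 2 * ∑ k, ‖b k‖ ^ 2 := by
  have hs : 0 ≤ ∑ k, ‖b k‖ ^ 2 := Finset.sum_nonneg fun k _ => by positivity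
  rcases isEmpty_or_nonempty ι with h | h
  · rw [Real.iSup_of_isEmpty]
    nlinarith [sq_nonneg M]
  · obtain ⟨k, hk⟩ := exists_eq_ciSup_of_finite (f := fun k => ‖g k‖)
    rw [← hk]
    have h1 : ‖g k‖ ≤ M + ‖b k‖ := by
      rw [hg k]
      exact (norm_add_le _ _).trans (add_le_add (ha k) le_rfl)
    have h2 : ‖b k‖ ^ 2 ≤ ∑ k, ‖b k‖ ^ 2 :=
      Finset.single_le_sum (f := fun k => ‖b k‖ ^ 2) (fun i _ => by positivity)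
        (Finset.mem_univ k)
    have h3 : ‖g k‖ ^ 2 ≤ (M + ‖b k‖) ^ 2 := pow_le_pow_left₀ (norm_nonneg _) h1 2
    nlinarith [sq_nonneg (M - ‖b k‖)]

private theorem DiscB_exch {A : ℕ} (f : Bits A → Bits A → Bits A → Bits A → ℝ) :
    av2 (fun a b => av2 (fun x y => f a b x y)) =
      av2 (fun x y => av2 (fun a b => f a b x y)) := by
  rw [av2_eq, av2_eq (fun x y => av2 (fun a b => f a b x y))]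
  have e1 : ∀ p : Bits A × Bits A, av2 (fun x y => f p.1 p.2 x y) =
      av fun q : Bits A × Bits A => f p.1 p.2 q.1 q.2 := fun p => av2_eq _
  have e2 : ∀ q : Bits A × Bits A, av2 (fun a b => f a b q.1 q.2) =
      av fun p : Bits A × Bits A => f p.1 p.2 q.1 q.2 := fun q => av2_eq _
  rw [av_congr e1, av_congr e2]
  exact av_comm (fun (p q : Bits A × Bits A) => f p.1 p.2 q.1 q.2)

private theorem DiscB_shift {A : ℕ} (σ1 σ2 : Bits A ≃ Bits A) (G : Bits A → Bits A → ℝ) :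
    av2 (fun x y => G (σ1 x) (σ2 y)) = av2 G := by
  have h1 : ∀ x, av (fun y => G (σ1 x) (σ2 y)) = av (fun y => G (σ1 x) y) := fun x =>
    av_equiv σ2 (fun y => G (σ1 x) y)
  show av (fun x => av fun y => G (σ1 x) (σ2 y)) = av (fun x => av fun y => G x y)
  rw [av_congr h1]
  exact av_equiv σ1 (fun x => av fun y => G x y)

/-- the difference between the multiplier and the truncated martingale -/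
private noncomputable def DiscB_u {A : ℕ} (Φ : ℝ → ℂ) (k : ℤ) (ξ : ℤ × ℤ) (x y : Bits A) : ℂ :=
  Φ ((ξ.1 : ℝ) ^ 2 * (ξ.2 : ℝ) ^ 2 / 2 ^ (k : ℤ)) * (ch ξ.1 x * ch ξ.2 y) -
    Φ 0 * SC (fun x y => ch ξ.1 x * ch ξ.2 y) (jk k) x y

private theorem DiscB_u_le {Φ : ℝ → ℂ} {A : ℕ} (k : ℤ) {ξ : ℤ × ℤ}
    (hF : 2 * |ξ.1| < 2 ^ A ∧ 2 * |ξ.2| < 2 ^ A) (hF0 : ξ.1 ≠ 0 ∧ ξ.2 ≠ 0) :
    av2 (fun x y : Bits A => ‖DiscB_u Φ k ξ x y‖ ^ 2) ≤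
      mbd Φ k (|(ξ.1 : ℝ)| * |(ξ.2 : ℝ)|) := by
  have hv : (ξ.1 : ℝ) ^ 2 * (ξ.2 : ℝ) ^ 2 = (|(ξ.1 : ℝ)| * |(ξ.2 : ℝ)|) ^ 2 := by
    rw [mul_pow, sq_abs, sq_abs]
  unfold DiscB_u mbd
  rw [hv]
  split_ifs with h
  · exact (mk_lo hF0.1 hF0.2 hF.1 hF.2 _ _ _).trans (le_of_eq (by
      simp [*]))
  · exact (mk_lo hF0.1 hF0.2 hF.1 hF.2 _ _ _).trans (le_of_eq (by
      simp [*]))
  · exact mk_hi hF0.1 hF0.2 hF.1 hF.2 _ _ _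

private theorem DiscB_second {Φ : ℝ → ℂ} {D : ℝ} (h1 : ∀ s, 0 ≤ s → ‖Φ s‖ ≤ D)
    (h2 : ∀ s, 0 ≤ s → s * ‖Φ s‖ ≤ D) (h3 : ∀ s, 0 ≤ s → ‖Φ s - Φ 0‖ ≤ D * s) (A : ℕ)
    (K : Finset ℤ)
    (F : Finset (ℤ × ℤ)) (hF : ∀ ξ ∈ F, 2 * |ξ.1| < 2 ^ A ∧ 2 * |ξ.2| < 2 ^ A)
    (hF0 : ∀ ξ ∈ F, ξ.1 ≠ 0 ∧ ξ.2 ≠ 0) (p : ℤ × ℤ → ℂ) :
    av2 (fun a b : Bits A => av2 (fun x y : Bits A => ∑ k : K,
      ‖∑ ξ ∈ F, (p ξ * DiscB_u Φ k ξ x y) * (ch ξ.1 a * ch ξ.2 b)‖ ^ 2)) ≤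
      1000 * D ^ 2 * ∑ ξ ∈ F, ‖p ξ‖ ^ 2 := by
  rw [DiscB_exch (fun a b x y => ∑ k : K,
      ‖∑ ξ ∈ F, (p ξ * DiscB_u Φ k ξ x y) * (ch ξ.1 a * ch ξ.2 b)‖ ^ 2)]
  have e1 : ∀ x y : Bits A, av2 (fun a b : Bits A => ∑ k : K,
      ‖∑ ξ ∈ F, (p ξ * DiscB_u Φ k ξ x y) * (ch ξ.1 a * ch ξ.2 b)‖ ^ 2) =
      ∑ k : K, ∑ ξ ∈ F, ‖p ξ‖ ^ 2 * ‖DiscB_u Φ k ξ x y‖ ^ 2 := by
    intro x y
    rw [av2_sum]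
    refine Finset.sum_congr rfl fun k _ => ?_
    rw [parseval F hF]
    refine Finset.sum_congr rfl fun ξ _ => ?_
    rw [norm_mul, mul_pow]
  rw [av2_congr e1, av2_sum]
  have e2 : ∀ k ∈ (Finset.univ : Finset K),
      av2 (fun x y : Bits A => ∑ ξ ∈ F, ‖p ξ‖ ^ 2 * ‖DiscB_u Φ k ξ x y‖ ^ 2) ≤
        ∑ ξ ∈ F, ‖p ξ‖ ^ 2 * mbd Φ k (|(ξ.1 : ℝ)| * |(ξ.2 : ℝ)|) := by
    intro k _
    rw [av2_sum]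
    refine Finset.sum_le_sum fun ξ hξ => ?_
    rw [av2_const_mul]
    exact mul_le_mul_of_nonneg_left (DiscB_u_le _ (hF ξ hξ) (hF0 ξ hξ)) (by positivity)
  refine (Finset.sum_le_sum e2).trans ?_
  rw [Finset.sum_comm, Finset.mul_sum]
  refine Finset.sum_le_sum fun ξ hξ => ?_
  rw [← Finset.mul_sum]
  have hv : (1 : ℝ) ≤ |(ξ.1 : ℝ)| * |(ξ.2 : ℝ)| := by
    have ha : (1 : ℝ) ≤ |(ξ.1 : ℝ)| := by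
      rw [← Int.cast_abs]; exact_mod_cast Int.one_le_abs (hF0 ξ hξ).1
    have hb : (1 : ℝ) ≤ |(ξ.2 : ℝ)| := by
      rw [← Int.cast_abs]; exact_mod_cast Int.one_le_abs (hF0 ξ hξ).2
    nlinarith
  have e3 : ∑ k : K, mbd Φ k (|(ξ.1 : ℝ)| * |(ξ.2 : ℝ)|) ≤ 1000 * D ^ 2 := by
    have := Finset.sum_coe_sort K (fun k => mbd Φ k (|(ξ.1 : ℝ)| * |(ξ.2 : ℝ)|))
    rw [this]
    exact msum h1 h2 h3 K hv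
  calc ‖p ξ‖ ^ 2 * ∑ k : K, mbd Φ k (|(ξ.1 : ℝ)| * |(ξ.2 : ℝ)|)
      ≤ ‖p ξ‖ ^ 2 * (1000 * D ^ 2) := mul_le_mul_of_nonneg_left e3 (by positivity)
    _ = 1000 * D ^ 2 * ‖p ξ‖ ^ 2 := by ring

theorem disc_off {Φ : ℝ → ℂ} {D : ℝ} (h1 : ∀ s, 0 ≤ s → ‖Φ s‖ ≤ D)
    (h2 : ∀ s, 0 ≤ s → s * ‖Φ s‖ ≤ D) (h3 : ∀ s, 0 ≤ s → ‖Φ s - Φ 0‖ ≤ D * s) (A : ℕ)
    (K : Finset ℤ) (r : ℕ) (hr : 1 ≤ r) (hK : Real.log (K.card + 3) ≤ Real.exp r)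
    (F : Finset (ℤ × ℤ)) (hF : ∀ ξ ∈ F, 2 * |ξ.1| < 2 ^ A ∧ 2 * |ξ.2| < 2 ^ A)
    (hF0 : ∀ ξ ∈ F, ξ.1 ≠ 0 ∧ ξ.2 ≠ 0) (p : ℤ × ℤ → ℂ) :
    av2 (fun x y : Bits A => (⨆ k : K, ‖∑ ξ ∈ F,
        Φ ((ξ.1 : ℝ) ^ 2 * (ξ.2 : ℝ) ^ 2 / 2 ^ (k : ℤ)) * p ξ * (ch ξ.1 x * ch ξ.2 y)‖) ^ 2) ≤
      10 ^ 24 * D ^ 2 * (r : ℝ) ^ 8 * ∑ ξ ∈ F, ‖p ξ‖ ^ 2 := by
  have hD : 0 ≤ D := (norm_nonneg _).trans (h1 0 le_rfl)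
  set P : ℝ := ∑ ξ ∈ F, ‖p ξ‖ ^ 2 with hP
  have hP0 : 0 ≤ P := Finset.sum_nonneg fun ξ _ => by positivity
  set G : Bits A → Bits A → ℝ := fun x y : Bits A => (⨆ k : K, ‖∑ ξ ∈ F,
        Φ ((ξ.1 : ℝ) ^ 2 * (ξ.2 : ℝ) ^ 2 / 2 ^ (k : ℤ)) * p ξ * (ch ξ.1 x * ch ξ.2 y)‖) ^ 2 with hG
  have key : ∀ a b : Bits A, av2 G ≤ 2 * D ^ 2 * (10 ^ 23 * (r : ℝ) ^ 8 * P) +
      2 * av2 (fun x y : Bits A => ∑ k : K,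
      ‖∑ ξ ∈ F, (p ξ * DiscB_u Φ k ξ x y) * (ch ξ.1 a * ch ξ.2 b)‖ ^ 2) := by
    intro a b
    obtain ⟨σ1, hσ1⟩ := exists_shift a
    obtain ⟨σ2, hσ2⟩ := exists_shift b
    set q : ℤ × ℤ → ℂ := fun ξ => p ξ * (ch ξ.1 a * ch ξ.2 b) with hq
    set f : Bits A → Bits A → ℂ := fun x y => ∑ ξ ∈ F, q ξ * (ch ξ.1 x * ch ξ.2 y) with hf
    have hcard : (K.image jk).card ≤ K.card := Finset.card_image_le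
    have hK' : Real.log ((K.image jk).card + 3) ≤ Real.exp r := by
      refine le_trans (Real.log_le_log (by positivity) ?_) hK
      have : ((K.image jk).card : ℝ) ≤ K.card := by exact_mod_cast hcard
      linarith
    have hcore := coreC f (K.image jk) r hr hK'
    have hpar : av2 (fun x y => ‖f x y‖ ^ 2) = P := by
      rw [hf]
      rw [parseval F hF q, hP]
      refine Finset.sum_congr rfl fun ξ _ => ?_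
      rw [hq]
      simp only [norm_mul, norm_ch, mul_one]
    rw [hpar] at hcore
    rw [← DiscB_shift σ1 σ2 G]
    have hpt : ∀ x y : Bits A, G (σ1 x) (σ2 y) ≤
        2 * D ^ 2 * (⨆ j : K.image jk, ‖SC f j x y‖) ^ 2 + 2 * ∑ k : K,
        ‖∑ ξ ∈ F, (p ξ * DiscB_u Φ k ξ x y) * (ch ξ.1 a * ch ξ.2 b)‖ ^ 2 := by
      intro x y
      set S : ℝ := ⨆ j : K.image jk, ‖SC f j x y‖ with hS
      have hS0 : 0 ≤ S := Real.iSup_nonneg fun j => norm_nonneg _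
      have hle : ∀ k : K, ‖SC f (jk k) x y‖ ≤ S := by
        intro k
        have hmem : jk (k : ℤ) ∈ K.image jk := Finset.mem_image_of_mem _ k.2
        exact le_ciSup (f := fun j : K.image jk => ‖SC f j x y‖)
          (Set.finite_range _).bddAbove ⟨jk k, hmem⟩
      have := DiscB_ptw (ι := K) (fun k => ∑ ξ ∈ F,
          Φ ((ξ.1 : ℝ) ^ 2 * (ξ.2 : ℝ) ^ 2 / 2 ^ (k : ℤ)) * p ξ *
            (ch ξ.1 (σ1 x) * ch ξ.2 (σ2 y)))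
        (fun k => Φ 0 * SC f (jk k) x y)
        (fun k => ∑ ξ ∈ F, (p ξ * DiscB_u Φ k ξ x y) * (ch ξ.1 a * ch ξ.2 b))
        (M := D * S) (mul_nonneg hD hS0) ?_ ?_
      · refine this.trans (le_of_eq ?_)
        ring
      · intro k
        have hsum : SC f (jk k) x y =
            ∑ ξ ∈ F, q ξ * SC (fun x y => ch ξ.1 x * ch ξ.2 y) (jk k) x y :=
          SC_sum F q (fun ξ x y => ch ξ.1 x * ch ξ.2 y) (jk k) x y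
        rw [hsum, Finset.mul_sum, ← Finset.sum_add_distrib]
        refine Finset.sum_congr rfl fun ξ _ => ?_
        rw [hσ1, hσ2, hq]
        unfold DiscB_u
        ring
      · intro k
        rw [norm_mul]
        exact mul_le_mul (h1 0 le_rfl) (hle k) (norm_nonneg _) hD
    refine (av2_mono hpt).trans ?_
    rw [av2_add, av2_const_mul, av2_const_mul]
    refine add_le_add (mul_le_mul_of_nonneg_left hcore (by positivity)) le_rfl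
  have h4 := DiscB_second h1 h2 h3 A K F hF hF0 p
  have h5 : av2 G ≤ 2 * D ^ 2 * (10 ^ 23 * (r : ℝ) ^ 8 * P) + 2 * (1000 * D ^ 2 * P) := by
    have h6 : av2 (fun _ _ : Bits A => av2 G) = av2 G := av2_const _
    rw [← h6]
    refine (av2_mono (f := fun _ _ : Bits A => av2 G) key).trans ?_
    rw [av2_add, av2_const, av2_const_mul]
    linarith
  have hr8 : (1 : ℝ) ≤ (r : ℝ) ^ 8 := one_le_pow₀ (by exact_mod_cast hr)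
  have hDP : 0 ≤ D ^ 2 * P := mul_nonneg (sq_nonneg D) hP0
  nlinarith [mul_le_mul_of_nonneg_left hr8 hDP]

theorem discB {Φ : ℝ → ℂ} {D : ℝ} (h1 : ∀ s, 0 ≤ s → ‖Φ s‖ ≤ D)
    (h2 : ∀ s, 0 ≤ s → s * ‖Φ s‖ ≤ D) (h3 : ∀ s, 0 ≤ s → ‖Φ s - Φ 0‖ ≤ D * s) (A : ℕ)
    (K : Finset ℤ) (r : ℕ) (hr : 1 ≤ r) (hK : Real.log (K.card + 3) ≤ Real.exp r)
    (F : Finset (ℤ × ℤ)) (hF : ∀ ξ ∈ F, 2 * |ξ.1| < 2 ^ A ∧ 2 * |ξ.2| < 2 ^ A)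
    (p : ℤ × ℤ → ℂ) :
    av2 (fun x y : Bits A => (⨆ k : K, ‖∑ ξ ∈ F,
        Φ ((ξ.1 : ℝ) ^ 2 * (ξ.2 : ℝ) ^ 2 / 2 ^ (k : ℤ)) * p ξ * (ch ξ.1 x * ch ξ.2 y)‖) ^ 2) ≤
      10 ^ 25 * D ^ 2 * (r : ℝ) ^ 8 * ∑ ξ ∈ F, ‖p ξ‖ ^ 2 := by
  classical
  have hD : 0 ≤ D := (norm_nonneg _).trans (h1 0 le_rfl)
  set F0 : Finset (ℤ × ℤ) := F.filter (fun ξ => ¬ (ξ.1 ≠ 0 ∧ ξ.2 ≠ 0)) with hF0
  set F1 : Finset (ℤ × ℤ) := F.filter (fun ξ => ξ.1 ≠ 0 ∧ ξ.2 ≠ 0) with hF1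
  have hoff := disc_off h1 h2 h3 A K r hr hK F1
    (fun ξ hξ => hF ξ (Finset.mem_of_mem_filter ξ hξ)) (fun ξ hξ => (Finset.mem_filter.1 hξ).2) p
  have hpar := parseval (A := A) F0 (fun ξ hξ => hF ξ (Finset.mem_of_mem_filter ξ hξ)) p
  have hsplit : ∑ ξ ∈ F, ‖p ξ‖ ^ 2 = ∑ ξ ∈ F1, ‖p ξ‖ ^ 2 + ∑ ξ ∈ F0, ‖p ξ‖ ^ 2 :=
    (Finset.sum_filter_add_sum_filter_not F (fun ξ => ξ.1 ≠ 0 ∧ ξ.2 ≠ 0) _).symm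
  set P0 : ℝ := ∑ ξ ∈ F0, ‖p ξ‖ ^ 2 with hP0
  set P1 : ℝ := ∑ ξ ∈ F1, ‖p ξ‖ ^ 2 with hP1
  have hP00 : 0 ≤ P0 := Finset.sum_nonneg fun ξ _ => by positivity
  have hP10 : 0 ≤ P1 := Finset.sum_nonneg fun ξ _ => by positivity
  have hpt : ∀ x y : Bits A, (⨆ k : K, ‖∑ ξ ∈ F,
        Φ ((ξ.1 : ℝ) ^ 2 * (ξ.2 : ℝ) ^ 2 / 2 ^ (k : ℤ)) * p ξ * (ch ξ.1 x * ch ξ.2 y)‖) ^ 2 ≤
      2 * (⨆ k : K, ‖∑ ξ ∈ F1,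
        Φ ((ξ.1 : ℝ) ^ 2 * (ξ.2 : ℝ) ^ 2 / 2 ^ (k : ℤ)) * p ξ * (ch ξ.1 x * ch ξ.2 y)‖) ^ 2 +
      2 * D ^ 2 * ‖∑ ξ ∈ F0, p ξ * (ch ξ.1 x * ch ξ.2 y)‖ ^ 2 := by
    intro x y
    set S : ℝ := ⨆ k : K, ‖∑ ξ ∈ F1,
        Φ ((ξ.1 : ℝ) ^ 2 * (ξ.2 : ℝ) ^ 2 / 2 ^ (k : ℤ)) * p ξ * (ch ξ.1 x * ch ξ.2 y)‖ with hS
    set T : ℝ := ‖∑ ξ ∈ F0, p ξ * (ch ξ.1 x * ch ξ.2 y)‖ with hT
    have hS0 : 0 ≤ S := Real.iSup_nonneg fun j => norm_nonneg _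
    have hT0 : 0 ≤ T := norm_nonneg _
    have hb : (⨆ k : K, ‖∑ ξ ∈ F,
        Φ ((ξ.1 : ℝ) ^ 2 * (ξ.2 : ℝ) ^ 2 / 2 ^ (k : ℤ)) * p ξ * (ch ξ.1 x * ch ξ.2 y)‖) ≤
        S + D * T := by
      refine Real.iSup_le (fun k => ?_) (by positivity)
      have e0 : ∑ ξ ∈ F0,
          Φ ((ξ.1 : ℝ) ^ 2 * (ξ.2 : ℝ) ^ 2 / 2 ^ ((k : ℤ))) * p ξ * (ch ξ.1 x * ch ξ.2 y) =
          Φ 0 * ∑ ξ ∈ F0, p ξ * (ch ξ.1 x * ch ξ.2 y) := by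
        rw [Finset.mul_sum]
        refine Finset.sum_congr rfl fun ξ hξ => ?_
        have h0 : (ξ.1 : ℝ) ^ 2 * (ξ.2 : ℝ) ^ 2 / 2 ^ ((k : ℤ)) = 0 := by
          have := (Finset.mem_filter.1 hξ).2
          rw [not_and_or, not_not, not_not] at this
          rcases this with h | h <;> simp [h]
        rw [h0]
        ring
      have e1 : ∑ ξ ∈ F,
          Φ ((ξ.1 : ℝ) ^ 2 * (ξ.2 : ℝ) ^ 2 / 2 ^ ((k : ℤ))) * p ξ * (ch ξ.1 x * ch ξ.2 y) =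
          (∑ ξ ∈ F1,
          Φ ((ξ.1 : ℝ) ^ 2 * (ξ.2 : ℝ) ^ 2 / 2 ^ ((k : ℤ))) * p ξ * (ch ξ.1 x * ch ξ.2 y)) +
          Φ 0 * ∑ ξ ∈ F0, p ξ * (ch ξ.1 x * ch ξ.2 y) := by
        rw [← e0]
        exact (Finset.sum_filter_add_sum_filter_not F (fun ξ => ξ.1 ≠ 0 ∧ ξ.2 ≠ 0) _).symm
      rw [e1]
      refine (norm_add_le _ _).trans (add_le_add ?_ ?_)
      · exact le_ciSup (f := fun k : K => ‖∑ ξ ∈ F1,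
          Φ ((ξ.1 : ℝ) ^ 2 * (ξ.2 : ℝ) ^ 2 / 2 ^ ((k : ℤ))) * p ξ * (ch ξ.1 x * ch ξ.2 y)‖)
          (Set.finite_range _).bddAbove k
      · rw [norm_mul]
        exact mul_le_mul_of_nonneg_right (h1 0 le_rfl) (norm_nonneg _)
    have h0 : 0 ≤ (⨆ k : K, ‖∑ ξ ∈ F,
        Φ ((ξ.1 : ℝ) ^ 2 * (ξ.2 : ℝ) ^ 2 / 2 ^ (k : ℤ)) * p ξ * (ch ξ.1 x * ch ξ.2 y)‖) :=
      Real.iSup_nonneg fun j => norm_nonneg _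
    have h5 := pow_le_pow_left₀ h0 hb 2
    nlinarith [sq_nonneg (S - D * T)]
  refine (av2_mono hpt).trans ?_
  rw [av2_add, av2_const_mul, av2_const_mul, hpar, hsplit]
  have hr8 : (1 : ℝ) ≤ (r : ℝ) ^ 8 := one_le_pow₀ (by exact_mod_cast hr)
  have hDP : 0 ≤ D ^ 2 * P0 := mul_nonneg (sq_nonneg D) hP00
  have hDP1 : 0 ≤ D ^ 2 * P1 := mul_nonneg (sq_nonneg D) hP10
  have hx1 := mul_le_mul_of_nonneg_left hr8 hDP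
  have hx2 := mul_le_mul_of_nonneg_left hr8 hDP1
  have hx3 : 0 ≤ D ^ 2 * P1 * (r : ℝ) ^ 8 := by positivity
  nlinarith [hoff, hx1, hx2]

end Pool.Agent.Hyp
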