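import Pool.Agent.Hyp.DiscB

/-!
# Module DiscZ: the maximal inequality on the finite torus (integer form)

**PROOF.** Apply `discB` with `p' ξ = p ξ * exp (2πi (ξ.1 s0 + ξ.2 t0) / 2^A)` (`‖p' ξ‖ = ‖p ξ‖`).
With `e` from `exists_pos A`: `ch ξ.1 x * ch ξ.2 y = exp (2πi (ξ.1 * e x + ξ.2 * e y)/2^A)`;
`av2 g = (∑ x, ∑ y, g x y) / (2^A)^2` (`Fintype.card (Bits A) = 2^A`), and the double sum over
`Bits A` is the double sum over `Fin (2^A)` (`Equiv.sum_comp`), i.e. over `range (2^A)`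
(`Finset.sum_range`).  `(2^A)^2 = 4^A`.
-/

set_option autoImplicit false

namespace Pool.Agent.Hyp

open Finset

private theorem DiscZ_card (A : ℕ) : (Fintype.card (Bits A) : ℝ) = 2 ^ A := by
  rw [show Fintype.card (Bits A) = 2 ^ A by simp [Bits]]
  push_cast
  rfl

private theorem DiscZ_av2 {A : ℕ} (e : Bits A ≃ Fin (2 ^ A)) (H : ℕ → ℕ → ℝ) :
    ∑ s ∈ range (2 ^ A), ∑ t ∈ range (2 ^ A), H s t =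
      4 ^ A * av2 (fun x y : Bits A => H (e x) (e y)) := by
  have h1 : ∑ s ∈ range (2 ^ A), ∑ t ∈ range (2 ^ A), H s t =
      ∑ x : Bits A, ∑ y : Bits A, H (e x) (e y) := by
    rw [Finset.sum_range, ← Equiv.sum_comp e]
    refine Finset.sum_congr rfl fun x _ => ?_
    rw [Finset.sum_range, ← Equiv.sum_comp e]
  rw [h1]
  unfold av2 av
  rw [← Finset.sum_div, DiscZ_card, div_div]
  have h2 : (2 : ℝ) ^ A * 2 ^ A = 4 ^ A := by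
    rw [← mul_pow]
    norm_num
  have h3 : (4 : ℝ) ^ A ≠ 0 := by positivity
  rw [h2, mul_div_cancel₀ _ h3]

private theorem DiscZ_norm (A : ℕ) (m : ℤ) :
    ‖Complex.exp (2 * Real.pi * Complex.I * (m : ℂ) / 2 ^ A)‖ = 1 := by
  have h : (2 * Real.pi * Complex.I * (m : ℂ) / 2 ^ A : ℂ) =
      ((2 * Real.pi * (m : ℝ) / 2 ^ A : ℝ) : ℂ) * Complex.I := by
    push_cast
    ring
  rw [h, Complex.norm_exp_ofReal_mul_I]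

theorem discZ {Φ : ℝ → ℂ} {D : ℝ} (h1 : ∀ s, 0 ≤ s → ‖Φ s‖ ≤ D)
    (h2 : ∀ s, 0 ≤ s → s * ‖Φ s‖ ≤ D) (h3 : ∀ s, 0 ≤ s → ‖Φ s - Φ 0‖ ≤ D * s) (A : ℕ)
    (K : Finset ℤ) (r : ℕ) (hr : 1 ≤ r) (hK : Real.log (K.card + 3) ≤ Real.exp r)
    (F : Finset (ℤ × ℤ)) (hF : ∀ ξ ∈ F, 2 * |ξ.1| < 2 ^ A ∧ 2 * |ξ.2| < 2 ^ A)
    (p : ℤ × ℤ → ℂ) (s0 t0 : ℤ) :
    ∑ s ∈ range (2 ^ A), ∑ t ∈ range (2 ^ A), (⨆ k : K, ‖∑ ξ ∈ F,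
        Φ ((ξ.1 : ℝ) ^ 2 * (ξ.2 : ℝ) ^ 2 / 2 ^ (k : ℤ)) * p ξ *
          Complex.exp (2 * Real.pi * Complex.I *
            ((ξ.1 : ℂ) * (s + s0) + (ξ.2 : ℂ) * (t + t0)) / 2 ^ A)‖) ^ 2 ≤
      10 ^ 25 * D ^ 2 * (r : ℝ) ^ 8 * 4 ^ A * ∑ ξ ∈ F, ‖p ξ‖ ^ 2 := by
  obtain ⟨e, he⟩ := exists_pos A
  let p' : ℤ × ℤ → ℂ := fun ξ => p ξ *
    Complex.exp (2 * Real.pi * Complex.I * (((ξ.1 * s0 + ξ.2 * t0 : ℤ)) : ℂ) / 2 ^ A)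
  have hp' : ∀ ξ, ‖p' ξ‖ = ‖p ξ‖ := fun ξ => by
    show ‖p ξ * Complex.exp _‖ = _
    rw [norm_mul, DiscZ_norm, mul_one]
  have hB := discB h1 h2 h3 A K r hr hK F hF p'
  have hP : ∑ ξ ∈ F, ‖p' ξ‖ ^ 2 = ∑ ξ ∈ F, ‖p ξ‖ ^ 2 :=
    Finset.sum_congr rfl fun ξ _ => by rw [hp']
  rw [hP] at hB
  rw [DiscZ_av2 e (fun s t => (⨆ k : K, ‖∑ ξ ∈ F,
        Φ ((ξ.1 : ℝ) ^ 2 * (ξ.2 : ℝ) ^ 2 / 2 ^ (k : ℤ)) * p ξ *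
          Complex.exp (2 * Real.pi * Complex.I *
            ((ξ.1 : ℂ) * (s + s0) + (ξ.2 : ℂ) * (t + t0)) / 2 ^ A)‖) ^ 2)]
  have hcongr : av2 (fun x y : Bits A => (⨆ k : K, ‖∑ ξ ∈ F,
        Φ ((ξ.1 : ℝ) ^ 2 * (ξ.2 : ℝ) ^ 2 / 2 ^ (k : ℤ)) * p ξ *
          Complex.exp (2 * Real.pi * Complex.I *
            ((ξ.1 : ℂ) * (((e x : ℕ) : ℂ) + s0) + (ξ.2 : ℂ) * (((e y : ℕ) : ℂ) + t0)) /
              2 ^ A)‖) ^ 2) =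
      av2 (fun x y : Bits A => (⨆ k : K, ‖∑ ξ ∈ F,
        Φ ((ξ.1 : ℝ) ^ 2 * (ξ.2 : ℝ) ^ 2 / 2 ^ (k : ℤ)) * p' ξ * (ch ξ.1 x * ch ξ.2 y)‖) ^ 2) := by
    refine av2_congr fun x y => ?_
    congr 1
    refine iSup_congr fun k => ?_
    congr 1
    refine Finset.sum_congr rfl fun ξ _ => ?_
    show _ = _ * (p ξ * Complex.exp _) * (ch ξ.1 x * ch ξ.2 y)
    rw [he, he, ← Complex.exp_add]
    rw [show ∀ a b c d : ℂ, a * (b * c) * d = a * b * (c * d) from fun a b c d => by ring,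
      ← Complex.exp_add]
    congr 2
    push_cast
    ring
  rw [hcongr]
  calc 4 ^ A * _ ≤ 4 ^ A * (10 ^ 25 * D ^ 2 * (r : ℝ) ^ 8 * ∑ ξ ∈ F, ‖p ξ‖ ^ 2) :=
        mul_le_mul_of_nonneg_left hB (by positivity)
    _ = 10 ^ 25 * D ^ 2 * (r : ℝ) ^ 8 * 4 ^ A * ∑ ξ ∈ F, ‖p ξ‖ ^ 2 := by ring

end Pool.Agent.Hyp
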