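import Pool.Agent.Hyp.LimC

/-!
# Module EuM: the same on the Euclidean plane, with the Fourier transform of Mathlib

**PROOF.** Let `e : E2 ≃ᵐ ℝ × ℝ`, `e ξ = (ξ 0, ξ 1)`, the composition of
`EuclideanSpace.volume_preserving_measurableEquiv (Fin 2)` (or its current name) and
`MeasureTheory.volume_preserving_finTwoArrow ℝ`; it preserves the volume and is a homeomorphism.
Apply `lim_main` to `ψ ∘ e.symm`.  `𝓕⁻ g x = ∫ ξ, exp (2πi ⟪ξ, x⟫) • g ξ`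
(`Real.fourierInv_eq'`), `⟪ξ, x⟫ = ξ 0 * x 0 + ξ 1 * x 1`, so
`𝓕⁻ (symb Φ t · ψ) x = fi (sy Φ t · (ψ ∘ e.symm)) (e x)` by the change of variables
(`MeasurePreserving.integral_comp'`), and both `∫⁻` and `∫ ‖ψ‖^2` are transferred in the same way.
-/

set_option autoImplicit false

namespace Pool.Agent.Hyp

open MeasureTheory ENNReal FourierTransform

/-- the coordinates of the plane, as a measurable equivalence -/
noncomputable def eqE : E2 ≃ᵐ ℝ × ℝ :=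
  (MeasurableEquiv.toLp 2 (Fin 2 → ℝ)).symm.trans MeasurableEquiv.finTwoArrow

/-- the coordinates of the plane, as a homeomorphism -/
noncomputable def hoE : E2 ≃ₜ ℝ × ℝ :=
  (EuclideanSpace.equiv (Fin 2) ℝ).toHomeomorph.trans Homeomorph.finTwoArrow

theorem eqE_apply (ξ : E2) : eqE ξ = (ξ 0, ξ 1) := rfl

theorem hoE_apply (ξ : E2) : hoE ξ = (ξ 0, ξ 1) := rfl

theorem eqE_pres : MeasurePreserving eqE (volume : Measure E2) (volume : Measure (ℝ × ℝ)) :=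
  (volume_preserving_finTwoArrow ℝ).comp
    (EuclideanSpace.volume_preserving_symm_measurableEquiv_toLp (Fin 2))

theorem eu_main {Φ : ℝ → ℂ} (hΦ : Continuous Φ) {D : ℝ} (h1 : ∀ s, 0 ≤ s → ‖Φ s‖ ≤ D)
    (h2 : ∀ s, 0 ≤ s → s * ‖Φ s‖ ≤ D) (h3 : ∀ s, 0 ≤ s → ‖Φ s - Φ 0‖ ≤ D * s)
    (K : Finset ℤ) (r : ℕ) (hr : 1 ≤ r) (hK : Real.log (K.card + 3) ≤ Real.exp r)
    {ψ : E2 → ℂ} (hψ : Continuous ψ) (hc : HasCompactSupport ψ) :
    ∫⁻ x : E2, ENNReal.ofReal ((⨆ k : K,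
        ‖𝓕⁻ (fun ξ : E2 => symb Φ (2 ^ (k : ℤ)) ξ * ψ ξ) x‖) ^ 2) ≤
      ENNReal.ofReal (10 ^ 25 * D ^ 2 * (r : ℝ) ^ 8 * ∫ ξ : E2, ‖ψ ξ‖ ^ 2) := by
  set g : ℝ × ℝ → ℂ := fun p => ψ (hoE.symm p) with hg
  have hgc : Continuous g := hψ.comp hoE.symm.continuous
  have hgs : HasCompactSupport g := hc.comp_homeomorph hoE.symm
  have hge : ∀ ξ : E2, g (eqE ξ) = ψ ξ := by
    intro ξ
    rw [hg, eqE_apply, ← hoE_apply]
    simp
  have key := lim_main hΦ h1 h2 h3 K r hr hK hgc hgs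
  have hF : ∀ (t : ℝ) (x : E2), 𝓕⁻ (fun ξ : E2 => symb Φ t ξ * ψ ξ) x =
      fi (fun ξ => sy Φ t ξ * g ξ) (eqE x) := by
    intro t x
    rw [Real.fourierInv_eq']
    unfold fi
    rw [← eqE_pres.integral_comp' (g := fun ξ => sy Φ t ξ * g ξ * ex (eqE x) ξ)]
    refine integral_congr_ae (Filter.Eventually.of_forall fun ξ => ?_)
    simp only [hge]
    unfold symb sy ex
    rw [eqE_apply, eqE_apply, smul_eq_mul, mul_comm]
    congr 2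
    simp only [PiLp.inner_apply, Fin.sum_univ_two, RCLike.inner_apply, conj_trivial]
    push_cast
    ring
  have hL : ∫⁻ x : E2, ENNReal.ofReal ((⨆ k : K,
        ‖𝓕⁻ (fun ξ : E2 => symb Φ (2 ^ (k : ℤ)) ξ * ψ ξ) x‖) ^ 2) =
      ∫⁻ x : ℝ × ℝ, ENNReal.ofReal ((⨆ k : K,
        ‖fi (fun ξ => sy Φ (2 ^ (k : ℤ)) ξ * g ξ) x‖) ^ 2) := by
    rw [← eqE_pres.lintegral_comp_emb eqE.measurableEmbedding]
    simp only [hF]
  have hR : ∫ ξ : E2, ‖ψ ξ‖ ^ 2 = ∫ ξ : ℝ × ℝ, ‖g ξ‖ ^ 2 := by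
    rw [← eqE_pres.integral_comp' (g := fun ξ => ‖g ξ‖ ^ 2)]
    simp only [hge]
  rw [hL, hR]
  exact key

end Pool.Agent.Hyp
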