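import Pool.Agent.Hyp.HKf
import Pool.Agent.Hyp.Blk

/-!
# Module HBk: sharp hyperbolic crosses, all scales

**PROOF of `hb_finite`.** Let `K` be finite, `J = sup of sb k, k ∈ K`, `F = 𝓕 f`,
`I = ∫⁻ (1 + bl ξ)^8 ‖F ξ‖ₑ^2`.  By `hs_split`, `mt_add`, `mt_sum`, `mt_comp`, for `k ∈ K`, `l = sb k`:
`MT (hs k) f = MT (hs k) (MT (pb l) f) + (if 0 < k then ∑ j < l, MT (pb j) f else 0)
  + ∑ j ∈ Ioc l J, MT (pm j) f + MT (gt J) f`, so for a.e. `x` (finitely many null sets)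
`‖MT (hs k) f x‖ₑ ≤ ‖MT (hs k) (MT (pb l) f) x‖ₑ + ∑ j ∈ range (J+1), ‖MT (pb j) f x‖ₑ +
  ∑ j ∈ range (J+1), ‖MT (pm j) f x‖ₑ + ‖MT (gt J) f x‖ₑ`.
Take the supremum over `k ∈ K` and squares (`(a+b+c+d)^2 ≤ 4 (a^2+b^2+c^2+d^2)`):
(a) `(⨆ k ∈ K, ‖MT (hs k) (MT (pb (sb k)) f) x‖ₑ)^2 ≤ ∑ l ≤ J, (⨆ k ∈ K with sb k = l, ‖MT (hs k)
(MT (pb l) f) x‖ₑ)^2`; integral `≤ ∑ l, ofReal (C (4 (l+1))^8) ‖MT (pb l) f‖ₑ^2` (`hk_finite`,
`blk_card`) and `‖MT (pb l) f‖ₑ^2 = ∫⁻ [bl ξ = l] ‖F‖ₑ^2` (`mt_norm`, `lp_sq`), so the sum is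
`≤ ofReal (C 4^8) I`.
(b) `(∑ j, a j)^2 ≤ 2 ∑ j, (j+1)^2 (a j)^2` (Cauchy-Schwarz, `∑ 1/(j+1)^2 ≤ 2`); integral
`≤ 2 ∑ j (j+1)^2 ∫⁻ [bl = j] ‖F‖ₑ^2 ≤ 2 I`.  (c) the same with `pm` (`‖pm j‖ ≤ ‖pb j‖`).
(d) `∫⁻ ‖MT (gt J) f‖ₑ^2 ≤ ∫⁻ ‖F‖ₑ^2 ≤ I`.
Total `≤ 4 (C 4^8 + 5) I`.
**PROOF of `hb_all`.** `K = Finset.Icc (-M) M`, `M → ∞`: the suprema over `K` increase to the supremum
over `ℤ`; monotone convergence (`lintegral_iSup`, measurability of `x ↦ ‖MT (hs k) f x‖ₑ`: `Lp`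
functions are strongly measurable, `Lp.stronglyMeasurable`).
-/

set_option autoImplicit false

namespace Pool.Agent.Hyp

open MeasureTheory FourierTransform ENNReal

/-! ## auxiliary lemmas -/

theorem hbk_iSup_sq {ι : Sort*} (u : ι → ℝ≥0∞) (S : ℝ≥0∞) (h : ∀ i, u i ^ 2 ≤ S) :
    (⨆ i, u i) ^ 2 ≤ S := by
  have h1 : ⨆ i, u i ≤ S ^ (1 / 2 : ℝ) := by
    refine iSup_le fun i => ?_
    have h2 : (u i ^ 2) ^ (1 / 2 : ℝ) ≤ S ^ (1 / 2 : ℝ) := ENNReal.rpow_le_rpow (h i) (by norm_num)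
    have h3 : (u i ^ 2) ^ (1 / 2 : ℝ) = u i := by
      rw [← ENNReal.rpow_natCast, ← ENNReal.rpow_mul]
      norm_num
    rwa [h3] at h2
  calc (⨆ i, u i) ^ 2 ≤ (S ^ (1 / 2 : ℝ)) ^ 2 := by gcongr
    _ = S := by
      rw [← ENNReal.rpow_natCast, ← ENNReal.rpow_mul]
      norm_num

theorem hbk_add_sq (a b : ℝ≥0∞) : (a + b) ^ 2 ≤ 2 * a ^ 2 + 2 * b ^ 2 := by
  have h := ENNReal.rpow_add_le_mul_rpow_add_rpow a b (p := 2) (by norm_num)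
  have h1 : (2 : ℝ) - 1 = 1 := by norm_num
  rw [h1, ENNReal.rpow_one] at h
  have h2 : ∀ z : ℝ≥0∞, z ^ (2 : ℝ) = z ^ 2 := fun z => by
    rw [← ENNReal.rpow_natCast]
    norm_num
  rw [h2, h2, h2, mul_add] at h
  exact h

theorem hbk_four_sq (a b c d : ℝ≥0∞) :
    (a + b + c + d) ^ 2 ≤ 4 * (a ^ 2 + b ^ 2 + c ^ 2 + d ^ 2) := by
  have h1 : (a + b + c + d) ^ 2 ≤ 2 * (a + b) ^ 2 + 2 * (c + d) ^ 2 := by
    rw [add_assoc (a + b)]
    exact hbk_add_sq _ _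
  calc (a + b + c + d) ^ 2 ≤ 2 * (a + b) ^ 2 + 2 * (c + d) ^ 2 := h1
    _ ≤ 2 * (2 * a ^ 2 + 2 * b ^ 2) + 2 * (2 * c ^ 2 + 2 * d ^ 2) := by
      gcongr
      · exact hbk_add_sq _ _
      · exact hbk_add_sq _ _
    _ = 4 * (a ^ 2 + b ^ 2 + c ^ 2 + d ^ 2) := by ring

theorem hbk_cs_nn (a : ℕ → NNReal) (n : ℕ) :
    (∑ j ∈ Finset.range n, a j) ^ 2 ≤ 2 * ∑ j ∈ Finset.range n, ((j : NNReal) + 1) ^ 2 * a j ^ 2 := by
  have h1 := Finset.sum_mul_sq_le_sq_mul_sq (Finset.range n)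
    (fun j : ℕ => ((j : NNReal) + 1)⁻¹) (fun j : ℕ => ((j : NNReal) + 1) * a j)
  have h2 : ∑ j ∈ Finset.range n, ((j : NNReal) + 1)⁻¹ * (((j : NNReal) + 1) * a j) =
      ∑ j ∈ Finset.range n, a j := by
    refine Finset.sum_congr rfl fun j _ => ?_
    rw [← mul_assoc, inv_mul_cancel₀ (by positivity), one_mul]
  rw [h2] at h1
  have h3 : ∑ j ∈ Finset.range n, (((j : NNReal) + 1)⁻¹) ^ 2 ≤ 2 := by
    rw [← NNReal.coe_le_coe]
    push_cast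
    have h4 := sum_Ioo_inv_sq_le (α := ℝ) 0 (n + 1)
    have h5 : ∑ i ∈ Finset.Ioo 0 (n + 1), ((i : ℝ) ^ 2)⁻¹ =
        ∑ j ∈ Finset.range n, (((j : ℝ) + 1)⁻¹) ^ 2 := by
      have h6 : Finset.Ioo 0 (n + 1) = Finset.Ico 1 (n + 1) := by
        ext i
        simp only [Finset.mem_Ioo, Finset.mem_Ico]
        omega
      rw [h6, Finset.sum_Ico_eq_sum_range]
      refine Finset.sum_congr (by simp) fun j _ => ?_
      push_cast
      rw [inv_pow, add_comm]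
    rw [h5] at h4
    simpa using h4
  calc (∑ j ∈ Finset.range n, a j) ^ 2
      ≤ (∑ j ∈ Finset.range n, (((j : NNReal) + 1)⁻¹) ^ 2) *
        ∑ j ∈ Finset.range n, (((j : NNReal) + 1) * a j) ^ 2 := h1
    _ ≤ 2 * ∑ j ∈ Finset.range n, (((j : NNReal) + 1) * a j) ^ 2 := by gcongr
    _ = _ := by
      congr 1
      exact Finset.sum_congr rfl fun j _ => mul_pow _ _ _

theorem hbk_cs (a : ℕ → ℝ≥0∞) (n : ℕ) :
    (∑ j ∈ Finset.range n, a j) ^ 2 ≤ 2 * ∑ j ∈ Finset.range n, ((j : ℝ≥0∞) + 1) ^ 2 * a j ^ 2 := by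
  by_cases h : ∃ j ∈ Finset.range n, a j = ∞
  · obtain ⟨j, hj, hj'⟩ := h
    have h1 : ((j : ℝ≥0∞) + 1) ^ 2 * a j ^ 2 ≤
        ∑ j ∈ Finset.range n, ((j : ℝ≥0∞) + 1) ^ 2 * a j ^ 2 :=
      Finset.single_le_sum (f := fun j : ℕ => ((j : ℝ≥0∞) + 1) ^ 2 * a j ^ 2)
        (fun _ _ => zero_le) hj
    have h2 : ((j : ℝ≥0∞) + 1) ^ 2 * a j ^ 2 = ∞ := by
      rw [hj']
      rw [ENNReal.top_pow (by norm_num), ENNReal.mul_top]
      positivity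
    rw [h2, top_le_iff] at h1
    rw [h1, ENNReal.mul_top (by norm_num)]
    exact le_top
  · push Not at h
    have h1 := hbk_cs_nn (fun j => (a j).toNNReal) n
    have h2 : ∀ j ∈ Finset.range n, ((a j).toNNReal : ℝ≥0∞) = a j := fun j hj =>
      ENNReal.coe_toNNReal (h j hj)
    have h3 : ((∑ j ∈ Finset.range n, (a j).toNNReal : NNReal) : ℝ≥0∞) =
        ∑ j ∈ Finset.range n, a j := by
      rw [ENNReal.ofNNReal_finsetSum]
      exact Finset.sum_congr rfl h2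
    have h4 : ((∑ j ∈ Finset.range n, ((j : NNReal) + 1) ^ 2 * (a j).toNNReal ^ 2 : NNReal) :
        ℝ≥0∞) = ∑ j ∈ Finset.range n, ((j : ℝ≥0∞) + 1) ^ 2 * a j ^ 2 := by
      rw [ENNReal.ofNNReal_finsetSum]
      refine Finset.sum_congr rfl fun j hj => ?_
      rw [ENNReal.coe_mul, ENNReal.coe_pow, ENNReal.coe_pow, h2 j hj]
      norm_cast
    rw [← h3, ← h4]
    exact_mod_cast h1

theorem bl_measurable : Measurable bl :=
  (Measurable.of_discrete (f := sb)).comp kap_measurable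

theorem pb_measurable (j : ℕ) : Measurable (pb j) := by
  unfold pb
  exact Measurable.ite (bl_measurable (MeasurableSet.singleton j)) measurable_const
    measurable_const

theorem pm_measurable (j : ℕ) : Measurable (pm j) := by
  unfold pm
  exact Measurable.ite ((bl_measurable (MeasurableSet.singleton j)).inter
    (kap_measurable (MeasurableSet.of_discrete (s := {k : ℤ | k < 0})))) measurable_const
    measurable_const

theorem gt_measurable (J : ℕ) : Measurable (gt J) := by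
  unfold gt
  exact Measurable.ite ((bl_measurable (MeasurableSet.of_discrete (s := {k : ℕ | J < k}))).inter
    (kap_measurable (MeasurableSet.of_discrete (s := {k : ℤ | k < 0})))) measurable_const
    measurable_const

theorem hbk_ite_le (p : Prop) [Decidable p] : ‖(if p then 1 else 0 : ℂ)‖ ≤ 1 := by
  split_ifs <;> simp

theorem hs_le (k : ℤ) (ξ : E2) : ‖hs k ξ‖ ≤ 1 := hbk_ite_le _
theorem pb_le (j : ℕ) (ξ : E2) : ‖pb j ξ‖ ≤ 1 := hbk_ite_le _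
theorem pm_le (j : ℕ) (ξ : E2) : ‖pm j ξ‖ ≤ 1 := hbk_ite_le _
theorem gt_le (J : ℕ) (ξ : E2) : ‖gt J ξ‖ ≤ 1 := hbk_ite_le _

/-- the decomposition of the multiplier operators -/
theorem hbk_split (J : ℕ) {k : ℤ} (hk : sb k ≤ J) (f : Lp ℂ 2 (volume : Measure E2)) :
    MT (hs k) f = MT (hs k) (MT (pb (sb k)) f) +
      (if 0 < k then ∑ j ∈ Finset.range (sb k), MT (pb j) f else 0) +
      ∑ j ∈ Finset.Ioc (sb k) J, MT (pm j) f + MT (gt J) f := by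
  have e : hs k = fun ξ => hs k ξ * pb (sb k) ξ +
      (if 0 < k then ∑ j ∈ Finset.range (sb k), pb j ξ else 0) +
      ∑ j ∈ Finset.Ioc (sb k) J, pm j ξ + gt J ξ := funext fun ξ => hs_split J hk ξ
  -- the four symbols
  set A : E2 → ℂ := fun ξ => hs k ξ * pb (sb k) ξ with hA
  set B : E2 → ℂ := fun ξ => if 0 < k then ∑ j ∈ Finset.range (sb k), pb j ξ else 0 with hB
  set G : E2 → ℂ := fun ξ => ∑ j ∈ Finset.Ioc (sb k) J, pm j ξ with hG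
  have mA : Measurable A := (hs_measurable k).mul (pb_measurable _)
  have mS : Measurable fun ξ : E2 => ∑ j ∈ Finset.range (sb k), pb j ξ :=
    Finset.measurable_sum _ fun j _ => pb_measurable j
  have mB : Measurable B := by
    by_cases h0 : 0 < k
    · simp only [hB, h0, if_true]
      exact mS
    · simp only [hB, h0, if_false]
      exact measurable_const
  have mG : Measurable G := Finset.measurable_sum _ fun j _ => pm_measurable j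
  have lA : ∀ ξ, ‖A ξ‖ ≤ 1 := fun ξ => by
    rw [hA]
    simp only [norm_mul]
    exact mul_le_one₀ (hs_le k ξ) (norm_nonneg _) (pb_le _ ξ)
  have lS : ∀ ξ : E2, ‖∑ j ∈ Finset.range (sb k), pb j ξ‖ ≤ J := fun ξ => by
    refine (norm_sum_le _ _).trans ?_
    calc ∑ j ∈ Finset.range (sb k), ‖pb j ξ‖ ≤ ∑ j ∈ Finset.range (sb k), (1 : ℝ) :=
          Finset.sum_le_sum fun j _ => pb_le j ξ
      _ = sb k := by simp
      _ ≤ J := by exact_mod_cast hk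
  have lB : ∀ ξ, ‖B ξ‖ ≤ J := fun ξ => by
    by_cases h0 : 0 < k
    · simp only [hB, h0, if_true]
      exact lS ξ
    · simp [hB, h0]
  have lG : ∀ ξ, ‖G ξ‖ ≤ J := fun ξ => by
    refine (norm_sum_le _ _).trans ?_
    calc ∑ j ∈ Finset.Ioc (sb k) J, ‖pm j ξ‖ ≤ ∑ j ∈ Finset.Ioc (sb k) J, (1 : ℝ) :=
          Finset.sum_le_sum fun j _ => pm_le j ξ
      _ = ((J - sb k : ℕ) : ℝ) := by simp
      _ ≤ J := by exact_mod_cast Nat.sub_le _ _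
  have hJ0 : (0 : ℝ) ≤ J := Nat.cast_nonneg J
  have eA : MT A f = MT (hs k) (MT (pb (sb k)) f) :=
    (mt_comp (hs_measurable k) (pb_measurable _) (hs_le k) (pb_le _) f).symm
  have eB : MT B f = if 0 < k then ∑ j ∈ Finset.range (sb k), MT (pb j) f else 0 := by
    by_cases h0 : 0 < k
    · simp only [hB, h0, if_true]
      exact mt_sum _ pb_measurable pb_le f
    · simp only [hB, h0, if_false]
      have h1 := mt_smul (μ := fun _ => 0) measurable_const (D := 0) (by simp) 0 f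
      simpa using h1
  have eG : MT G f = ∑ j ∈ Finset.Ioc (sb k) J, MT (pm j) f :=
    mt_sum _ pm_measurable pm_le f
  have s1 : MT (fun ξ => A ξ + B ξ) f = MT A f + MT B f :=
    mt_add (D := 1 + J) mA mB (fun ξ => (lA ξ).trans (by linarith))
      (fun ξ => (lB ξ).trans (by linarith)) f
  have s2 : MT (fun ξ => (A ξ + B ξ) + G ξ) f = MT (fun ξ => A ξ + B ξ) f + MT G f :=
    mt_add (D := 1 + J) (mA.add mB) mG
      (fun ξ => (norm_add_le _ _).trans (add_le_add (lA ξ) (lB ξ)))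
      (fun ξ => (lG ξ).trans (by linarith)) f
  have s3 : MT (fun ξ => (A ξ + B ξ + G ξ) + gt J ξ) f =
      MT (fun ξ => A ξ + B ξ + G ξ) f + MT (gt J) f :=
    mt_add (D := 1 + J + J) ((mA.add mB).add mG) (gt_measurable J)
      (fun ξ => (norm_add_le _ _).trans
        (add_le_add ((norm_add_le _ _).trans (add_le_add (lA ξ) (lB ξ))) (lG ξ)))
      (fun ξ => (gt_le J ξ).trans (by linarith)) f
  have e' : MT (hs k) f = MT (fun ξ => (A ξ + B ξ + G ξ) + gt J ξ) f := by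
    conv_lhs => rw [e]
  rw [e', s3, s2, s1, eA, eB, eG]

theorem hbk_ae (J : ℕ) {k : ℤ} (hk : sb k ≤ J) (f : Lp ℂ 2 (volume : Measure E2)) :
    ∀ᵐ x : E2, ‖MT (hs k) f x‖ₑ ≤ ‖MT (hs k) (MT (pb (sb k)) f) x‖ₑ +
      ∑ j ∈ Finset.range (J + 1), ‖MT (pb j) f x‖ₑ +
      ∑ j ∈ Finset.range (J + 1), ‖MT (pm j) f x‖ₑ + ‖MT (gt J) f x‖ₑ := by
  have e := hbk_split J hk f
  set P := MT (hs k) (MT (pb (sb k)) f) with hP
  set Q : Lp ℂ 2 (volume : Measure E2) :=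
    (if 0 < k then ∑ j ∈ Finset.range (sb k), MT (pb j) f else 0) with hQ
  set R : Lp ℂ 2 (volume : Measure E2) := ∑ j ∈ Finset.Ioc (sb k) J, MT (pm j) f with hR
  have hQx : ∀ᵐ x : E2, ‖Q x‖ₑ ≤ ∑ j ∈ Finset.range (J + 1), ‖MT (pb j) f x‖ₑ := by
    by_cases h0 : 0 < k
    · have h1 : Q = ∑ j ∈ Finset.range (sb k), MT (pb j) f := by rw [hQ, if_pos h0]
      rw [h1]
      filter_upwards [Lp.coeFn_finsetSum (Finset.range (sb k)) fun j => MT (pb j) f] with x hx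
      rw [hx, Finset.sum_apply]
      refine (enorm_sum_le _ _).trans ?_
      exact Finset.sum_le_sum_of_subset (Finset.range_mono (by omega))
    · have h1 : Q = 0 := by rw [hQ, if_neg h0]
      rw [h1]
      filter_upwards [Lp.coeFn_zero ℂ 2 (volume : Measure E2)] with x hx
      rw [hx]
      simp
  have hRx : ∀ᵐ x : E2, ‖R x‖ₑ ≤ ∑ j ∈ Finset.range (J + 1), ‖MT (pm j) f x‖ₑ := by
    filter_upwards [Lp.coeFn_finsetSum (Finset.Ioc (sb k) J) fun j => MT (pm j) f] with x hx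
    rw [hR, hx, Finset.sum_apply]
    refine (enorm_sum_le _ _).trans ?_
    refine Finset.sum_le_sum_of_subset fun j hj => ?_
    simp only [Finset.mem_Ioc, Finset.mem_range] at hj ⊢
    omega
  filter_upwards [Lp.coeFn_add (P + Q + R) (MT (gt J) f), Lp.coeFn_add (P + Q) R,
    Lp.coeFn_add P Q, hQx, hRx] with x h1 h2 h3 h4 h5
  rw [e, h1, Pi.add_apply, h2, Pi.add_apply, h3, Pi.add_apply]
  calc ‖P x + Q x + R x + MT (gt J) f x‖ₑ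
      ≤ ‖P x + Q x + R x‖ₑ + ‖MT (gt J) f x‖ₑ := enorm_add_le _ _
    _ ≤ ‖P x + Q x‖ₑ + ‖R x‖ₑ + ‖MT (gt J) f x‖ₑ := by gcongr; exact enorm_add_le _ _
    _ ≤ ‖P x‖ₑ + ‖Q x‖ₑ + ‖R x‖ₑ + ‖MT (gt J) f x‖ₑ := by gcongr; exact enorm_add_le _ _
    _ ≤ _ := by gcongr

/-- weighted sums over the blocks -/
theorem hbk_block (f : Lp ℂ 2 (volume : Measure E2)) (n : ℕ) (w : ℕ → ℝ≥0∞)
    (hw : ∀ l, w l ≤ ((l : ℝ≥0∞) + 1) ^ 8) :
    ∑ l ∈ Finset.range n, w l * ∫⁻ ξ : E2, ‖pb l ξ‖ₑ ^ 2 *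
        ‖(𝓕 f : Lp ℂ 2 (volume : Measure E2)) ξ‖ₑ ^ 2 ≤
      ∫⁻ ξ : E2, ((bl ξ : ℝ≥0∞) + 1) ^ 8 *
        ‖(𝓕 f : Lp ℂ 2 (volume : Measure E2)) ξ‖ₑ ^ 2 := by
  have mF : Measurable fun ξ : E2 => ‖(𝓕 f : Lp ℂ 2 (volume : Measure E2)) ξ‖ₑ ^ 2 :=
    (Lp.stronglyMeasurable _).enorm.pow_const 2
  have mp : ∀ l, Measurable fun ξ : E2 => ‖pb l ξ‖ₑ ^ 2 *
      ‖(𝓕 f : Lp ℂ 2 (volume : Measure E2)) ξ‖ₑ ^ 2 := fun l =>
    ((pb_measurable l).enorm.pow_const 2).mul mF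
  have h1 : ∑ l ∈ Finset.range n, w l * ∫⁻ ξ : E2, ‖pb l ξ‖ₑ ^ 2 *
        ‖(𝓕 f : Lp ℂ 2 (volume : Measure E2)) ξ‖ₑ ^ 2 =
      ∫⁻ ξ : E2, ∑ l ∈ Finset.range n, w l * (‖pb l ξ‖ₑ ^ 2 *
        ‖(𝓕 f : Lp ℂ 2 (volume : Measure E2)) ξ‖ₑ ^ 2) := by
    rw [lintegral_finsetSum _ fun l _ => (mp l).const_mul _]
    exact Finset.sum_congr rfl fun l _ => (lintegral_const_mul _ (mp l)).symm
  rw [h1]
  refine lintegral_mono fun ξ => ?_
  have h2 : ∑ l ∈ Finset.range n, w l * (‖pb l ξ‖ₑ ^ 2 *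
        ‖(𝓕 f : Lp ℂ 2 (volume : Measure E2)) ξ‖ₑ ^ 2) ≤
      ∑ l ∈ Finset.range n, if bl ξ = l then w l *
        ‖(𝓕 f : Lp ℂ 2 (volume : Measure E2)) ξ‖ₑ ^ 2 else 0 := by
    refine Finset.sum_le_sum fun l _ => ?_
    unfold pb
    split_ifs <;> simp
  refine h2.trans ?_
  rw [Finset.sum_ite_eq]
  split_ifs
  · gcongr
    exact hw _
  · exact zero_le

theorem hbk_meas (K : Finset ℤ) (g : ℤ → Lp ℂ 2 (volume : Measure E2)) :
    Measurable fun x : E2 => (⨆ k ∈ K, ‖g k x‖ₑ) ^ 2 := by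
  refine Measurable.pow_const ?_ 2
  exact Measurable.iSup fun k => Measurable.iSup fun _ => (Lp.stronglyMeasurable _).enorm

theorem hb_finite : ∃ C : ℝ, 0 ≤ C ∧ ∀ (K : Finset ℤ) (f : Lp ℂ 2 (volume : Measure E2)),
    ∫⁻ x : E2, (⨆ k ∈ K, ‖MT (hs k) f x‖ₑ) ^ 2 ≤
      ENNReal.ofReal C * ∫⁻ ξ : E2, ((bl ξ : ℝ≥0∞) + 1) ^ 8 *
        ‖(𝓕 f : Lp ℂ 2 (volume : Measure E2)) ξ‖ₑ ^ 2 := by
  obtain ⟨C, hC, h⟩ := hk_finite
  refine ⟨4 * (C * 4 ^ 8 + 5), by positivity, fun K f => ?_⟩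
  set J := K.sup sb with hJ
  have hkJ : ∀ k ∈ K, sb k ≤ J := fun k hk => Finset.le_sup hk
  set I := ∫⁻ ξ : E2, ((bl ξ : ℝ≥0∞) + 1) ^ 8 *
        ‖(𝓕 f : Lp ℂ 2 (volume : Measure E2)) ξ‖ₑ ^ 2 with hI
  set P : E2 → ℝ≥0∞ := fun x => ∑ l ∈ Finset.range (J + 1),
    (⨆ k ∈ K.filter (fun k => sb k = l), ‖MT (hs k) (MT (pb l) f) x‖ₑ) ^ 2 with hP
  set Q : E2 → ℝ≥0∞ := fun x => ∑ j ∈ Finset.range (J + 1),
    ((j : ℝ≥0∞) + 1) ^ 2 * ‖MT (pb j) f x‖ₑ ^ 2 with hQ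
  set R : E2 → ℝ≥0∞ := fun x => ∑ j ∈ Finset.range (J + 1),
    ((j : ℝ≥0∞) + 1) ^ 2 * ‖MT (pm j) f x‖ₑ ^ 2 with hR
  set G : E2 → ℝ≥0∞ := fun x => ‖MT (gt J) f x‖ₑ ^ 2 with hG
  have key : ∀ᵐ x : E2, (⨆ k ∈ K, ‖MT (hs k) f x‖ₑ) ^ 2 ≤
      4 * (P x + 2 * Q x + 2 * R x + G x) := by
    have h1 : ∀ᵐ x : E2, ∀ k ∈ K, ‖MT (hs k) f x‖ₑ ≤ ‖MT (hs k) (MT (pb (sb k)) f) x‖ₑ +
        ∑ j ∈ Finset.range (J + 1), ‖MT (pb j) f x‖ₑ +
        ∑ j ∈ Finset.range (J + 1), ‖MT (pm j) f x‖ₑ + ‖MT (gt J) f x‖ₑ :=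
      (Filter.eventually_all_finset K).2 fun k hk => hbk_ae J (hkJ k hk) f
    filter_upwards [h1] with x hx
    have h2 : ⨆ k ∈ K, ‖MT (hs k) f x‖ₑ ≤ (⨆ k ∈ K, ‖MT (hs k) (MT (pb (sb k)) f) x‖ₑ) +
        ∑ j ∈ Finset.range (J + 1), ‖MT (pb j) f x‖ₑ +
        ∑ j ∈ Finset.range (J + 1), ‖MT (pm j) f x‖ₑ + ‖MT (gt J) f x‖ₑ := by
      refine iSup₂_le fun k hk => (hx k hk).trans ?_
      gcongr
      exact le_iSup₂ (f := fun (k : ℤ) (_ : k ∈ K) => ‖MT (hs k) (MT (pb (sb k)) f) x‖ₑ) k hk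
    have h3 : (⨆ k ∈ K, ‖MT (hs k) (MT (pb (sb k)) f) x‖ₑ) ^ 2 ≤ P x := by
      refine hbk_iSup_sq _ _ fun k => hbk_iSup_sq _ _ fun hk => ?_
      have h4 : ‖MT (hs k) (MT (pb (sb k)) f) x‖ₑ ^ 2 ≤
          (⨆ k' ∈ K.filter (fun k' => sb k' = sb k), ‖MT (hs k') (MT (pb (sb k)) f) x‖ₑ) ^ 2 := by
        gcongr
        exact le_iSup₂ (f := fun (k' : ℤ) (_ : k' ∈ K.filter (fun k' => sb k' = sb k)) =>
          ‖MT (hs k') (MT (pb (sb k)) f) x‖ₑ) k (Finset.mem_filter.2 ⟨hk, rfl⟩)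
      refine h4.trans ?_
      exact Finset.single_le_sum (f := fun l : ℕ =>
        (⨆ k' ∈ K.filter (fun k' => sb k' = l), ‖MT (hs k') (MT (pb l) f) x‖ₑ) ^ 2)
        (fun _ _ => zero_le) (Finset.mem_range.2 (Nat.lt_succ_of_le (hkJ k hk)))
    calc (⨆ k ∈ K, ‖MT (hs k) f x‖ₑ) ^ 2
        ≤ ((⨆ k ∈ K, ‖MT (hs k) (MT (pb (sb k)) f) x‖ₑ) +
        ∑ j ∈ Finset.range (J + 1), ‖MT (pb j) f x‖ₑ +
        ∑ j ∈ Finset.range (J + 1), ‖MT (pm j) f x‖ₑ + ‖MT (gt J) f x‖ₑ) ^ 2 := by gcongr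
      _ ≤ 4 * ((⨆ k ∈ K, ‖MT (hs k) (MT (pb (sb k)) f) x‖ₑ) ^ 2 +
        (∑ j ∈ Finset.range (J + 1), ‖MT (pb j) f x‖ₑ) ^ 2 +
        (∑ j ∈ Finset.range (J + 1), ‖MT (pm j) f x‖ₑ) ^ 2 + ‖MT (gt J) f x‖ₑ ^ 2) :=
        hbk_four_sq _ _ _ _
      _ ≤ 4 * (P x + 2 * Q x + 2 * R x + G x) := by
        gcongr
        · exact hbk_cs _ _
        · exact hbk_cs _ _
  have mP : Measurable P := Finset.measurable_sum _ fun l _ => hbk_meas _ _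
  have mg : ∀ g : Lp ℂ 2 (volume : Measure E2), Measurable fun x : E2 => ‖g x‖ₑ ^ 2 := fun g =>
    (Lp.stronglyMeasurable g).enorm.pow_const 2
  have mQ : Measurable Q := Finset.measurable_sum _ fun j _ => (mg _).const_mul _
  have mR : Measurable R := Finset.measurable_sum _ fun j _ => (mg _).const_mul _
  have iP : ∫⁻ x : E2, P x ≤ ENNReal.ofReal (C * 4 ^ 8) * I := by
    rw [hP, lintegral_finsetSum _ fun l _ => hbk_meas _ _]
    calc ∑ l ∈ Finset.range (J + 1), ∫⁻ x : E2,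
          (⨆ k ∈ K.filter (fun k => sb k = l), ‖MT (hs k) (MT (pb l) f) x‖ₑ) ^ 2
        ≤ ∑ l ∈ Finset.range (J + 1), ENNReal.ofReal (C * 4 ^ 8) * (((l : ℝ≥0∞) + 1) ^ 8 *
          ∫⁻ ξ : E2, ‖pb l ξ‖ₑ ^ 2 * ‖(𝓕 f : Lp ℂ 2 (volume : Measure E2)) ξ‖ₑ ^ 2) := by
          refine Finset.sum_le_sum fun l _ => ?_
          refine (h (K.filter (fun k => sb k = l)) (MT (pb l) f)).trans ?_
          rw [lp_sq, mt_norm (pb_measurable l) (pb_le l), ← mul_assoc]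
          gcongr
          set N : ℝ := ((K.filter (fun k => sb k = l)).card : ℝ) + 3 with hN
          have hN3 : (3 : ℝ) ≤ N := by
            rw [hN]
            have := Nat.cast_nonneg (α := ℝ) (K.filter (fun k => sb k = l)).card
            linarith
          have hb : 1 + Real.log (Real.log N) ≤ 4 * ((l : ℝ) + 1) :=
            blk_card fun k hk => (Finset.mem_filter.1 hk).2
          have hlog : 1 ≤ Real.log N := by
            rw [Real.le_log_iff_exp_le (by linarith)]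
            linarith [Real.exp_one_lt_d9]
          have h0 : 0 ≤ Real.log (Real.log N) := Real.log_nonneg hlog
          have h1 : C * (1 + Real.log (Real.log N)) ^ 8 ≤ C * 4 ^ 8 * ((l : ℝ) + 1) ^ 8 := by
            calc C * (1 + Real.log (Real.log N)) ^ 8 ≤ C * (4 * ((l : ℝ) + 1)) ^ 8 := by
                  gcongr
              _ = C * 4 ^ 8 * ((l : ℝ) + 1) ^ 8 := by ring
          calc ENNReal.ofReal (C * (1 + Real.log (Real.log N)) ^ 8)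
              ≤ ENNReal.ofReal (C * 4 ^ 8 * ((l : ℝ) + 1) ^ 8) := ENNReal.ofReal_le_ofReal h1
            _ = ENNReal.ofReal (C * 4 ^ 8) * ENNReal.ofReal (((l : ℝ) + 1) ^ 8) :=
                ENNReal.ofReal_mul (by positivity)
            _ = ENNReal.ofReal (C * 4 ^ 8) * ((l : ℝ≥0∞) + 1) ^ 8 := by
                congr 1
                rw [ENNReal.ofReal_pow (by positivity), ENNReal.ofReal_add (by positivity)
                  (by norm_num)]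
                simp
      _ = ENNReal.ofReal (C * 4 ^ 8) * ∑ l ∈ Finset.range (J + 1), ((l : ℝ≥0∞) + 1) ^ 8 *
          ∫⁻ ξ : E2, ‖pb l ξ‖ₑ ^ 2 * ‖(𝓕 f : Lp ℂ 2 (volume : Measure E2)) ξ‖ₑ ^ 2 := by
          rw [Finset.mul_sum]
      _ ≤ ENNReal.ofReal (C * 4 ^ 8) * I := by
          gcongr
          exact hbk_block f (J + 1) (fun l => ((l : ℝ≥0∞) + 1) ^ 8) fun l => le_rfl
  have hw : ∀ l : ℕ, ((l : ℝ≥0∞) + 1) ^ 2 ≤ ((l : ℝ≥0∞) + 1) ^ 8 := fun l =>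
    pow_le_pow_right₀ (by simp) (by norm_num)
  have iQ : ∫⁻ x : E2, Q x ≤ I := by
    rw [hQ, lintegral_finsetSum _ fun l _ => (mg _).const_mul _]
    calc ∑ l ∈ Finset.range (J + 1), ∫⁻ x : E2, ((l : ℝ≥0∞) + 1) ^ 2 * ‖MT (pb l) f x‖ₑ ^ 2
        = ∑ l ∈ Finset.range (J + 1), ((l : ℝ≥0∞) + 1) ^ 2 *
          ∫⁻ ξ : E2, ‖pb l ξ‖ₑ ^ 2 * ‖(𝓕 f : Lp ℂ 2 (volume : Measure E2)) ξ‖ₑ ^ 2 := by
          refine Finset.sum_congr rfl fun l _ => ?_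
          rw [lintegral_const_mul _ (mg _), mt_norm (pb_measurable l) (pb_le l)]
      _ ≤ I := hbk_block f (J + 1) (fun l => ((l : ℝ≥0∞) + 1) ^ 2) hw
  have iR : ∫⁻ x : E2, R x ≤ I := by
    rw [hR, lintegral_finsetSum _ fun l _ => (mg _).const_mul _]
    calc ∑ l ∈ Finset.range (J + 1), ∫⁻ x : E2, ((l : ℝ≥0∞) + 1) ^ 2 * ‖MT (pm l) f x‖ₑ ^ 2
        = ∑ l ∈ Finset.range (J + 1), ((l : ℝ≥0∞) + 1) ^ 2 *
          ∫⁻ ξ : E2, ‖pm l ξ‖ₑ ^ 2 * ‖(𝓕 f : Lp ℂ 2 (volume : Measure E2)) ξ‖ₑ ^ 2 := by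
          refine Finset.sum_congr rfl fun l _ => ?_
          rw [lintegral_const_mul _ (mg _), mt_norm (pm_measurable l) (pm_le l)]
      _ ≤ ∑ l ∈ Finset.range (J + 1), ((l : ℝ≥0∞) + 1) ^ 2 *
          ∫⁻ ξ : E2, ‖pb l ξ‖ₑ ^ 2 * ‖(𝓕 f : Lp ℂ 2 (volume : Measure E2)) ξ‖ₑ ^ 2 := by
          gcongr with l hl ξ
          unfold pm pb
          by_cases hb : bl ξ = l
          · simp only [hb, true_and, if_true]
            split_ifs <;> simp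
          · simp [hb]
      _ ≤ I := hbk_block f (J + 1) (fun l => ((l : ℝ≥0∞) + 1) ^ 2) hw
  have iG : ∫⁻ x : E2, G x ≤ I := by
    rw [hG, mt_norm (gt_measurable J) (gt_le J)]
    refine lintegral_mono fun ξ => ?_
    have h1 : ‖gt J ξ‖ₑ ^ 2 ≤ ((bl ξ : ℝ≥0∞) + 1) ^ 8 := by
      have h2 : ‖gt J ξ‖ₑ ^ 2 ≤ 1 := by
        unfold gt
        split_ifs <;> simp
      exact h2.trans (one_le_pow₀ (by simp))
    gcongr
  calc ∫⁻ x : E2, (⨆ k ∈ K, ‖MT (hs k) f x‖ₑ) ^ 2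
      ≤ ∫⁻ x : E2, 4 * (P x + 2 * Q x + 2 * R x + G x) := lintegral_mono_ae key
    _ = 4 * ((∫⁻ x : E2, P x) + 2 * (∫⁻ x : E2, Q x) + 2 * (∫⁻ x : E2, R x) +
          ∫⁻ x : E2, G x) := by
        have m2Q : Measurable fun x => 2 * Q x := mQ.const_mul 2
        have m2R : Measurable fun x => 2 * R x := mR.const_mul 2
        have m1 : Measurable fun x => P x + 2 * Q x := mP.add m2Q
        have m2 : Measurable fun x => P x + 2 * Q x + 2 * R x := m1.add m2R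
        have m3 : Measurable fun x => P x + 2 * Q x + 2 * R x + G x := m2.add (mg _)
        rw [lintegral_const_mul _ m3, lintegral_add_left m2, lintegral_add_left m1,
          lintegral_add_left mP, lintegral_const_mul _ mQ, lintegral_const_mul _ mR]
    _ ≤ 4 * (ENNReal.ofReal (C * 4 ^ 8) * I + 2 * I + 2 * I + I) := by gcongr
    _ = ENNReal.ofReal (4 * (C * 4 ^ 8 + 5)) * I := by
        have h6 : ENNReal.ofReal (4 * (C * 4 ^ 8 + 5)) = 4 * (ENNReal.ofReal (C * 4 ^ 8) + 5) := by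
          rw [ENNReal.ofReal_mul (p := 4) (by norm_num), ENNReal.ofReal_add (by positivity)
            (by norm_num)]
          norm_num
        rw [h6]
        ring

theorem hb_all : ∃ C : ℝ, 0 ≤ C ∧ ∀ f : Lp ℂ 2 (volume : Measure E2),
    ∫⁻ x : E2, (⨆ k : ℤ, ‖MT (hs k) f x‖ₑ) ^ 2 ≤
      ENNReal.ofReal C * ∫⁻ ξ : E2, ((bl ξ : ℝ≥0∞) + 1) ^ 8 *
        ‖(𝓕 f : Lp ℂ 2 (volume : Measure E2)) ξ‖ₑ ^ 2 := by
  obtain ⟨C, hC, h⟩ := hb_finite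
  refine ⟨C, hC, fun f => ?_⟩
  set u : ℕ → E2 → ℝ≥0∞ := fun M x =>
    (⨆ k ∈ Finset.Icc (-(M : ℤ)) M, ‖MT (hs k) f x‖ₑ) ^ 2 with hu
  have h1 : ∀ x, (⨆ k : ℤ, ‖MT (hs k) f x‖ₑ) ^ 2 ≤ ⨆ M, u M x := fun x => by
    refine hbk_iSup_sq _ _ fun k => ?_
    refine le_trans ?_ (le_iSup (fun M => u M x) k.natAbs)
    simp only [hu]
    gcongr
    refine le_iSup₂ (f := fun (k' : ℤ) (_ : k' ∈ Finset.Icc (-(k.natAbs : ℤ)) k.natAbs) =>
      ‖MT (hs k') f x‖ₑ) k ?_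
    rw [Finset.mem_Icc]
    omega
  have hm : Monotone u := by
    intro a b hab x
    simp only [hu]
    refine pow_le_pow_left₀ zero_le ?_ 2
    refine iSup₂_le fun k hk => le_iSup₂ (f := fun (k' : ℤ)
      (_ : k' ∈ Finset.Icc (-(b : ℤ)) b) => ‖MT (hs k') f x‖ₑ) k ?_
    rw [Finset.mem_Icc] at hk ⊢
    omega
  calc ∫⁻ x : E2, (⨆ k : ℤ, ‖MT (hs k) f x‖ₑ) ^ 2 ≤ ∫⁻ x : E2, ⨆ M, u M x :=
        lintegral_mono h1
    _ = ⨆ M, ∫⁻ x : E2, u M x := lintegral_iSup (fun M => hbk_meas _ _) hm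
    _ ≤ _ := iSup_le fun M => h _ f

end Pool.Agent.Hyp
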