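import Pool.Agent.Hyp.DefR

/-!
# Module LTw: the operators `T_t` on `L²`

**PROOF.** `symb Φ t` is continuous (`Φ` continuous) and bounded by `D` (`t > 0`, the argument of `Φ` is
`≥ 0`).
* `exists_isT`: `ξ ↦ symb Φ t ξ * (𝓕 f) ξ` is in `L²` (`MemLp` of the product of a bounded measurable
  function and an `L²` function: `MemLp.bdd_mul`/`MemLp.of_le_mul`), let `G` be its class and
  `g = 𝓕⁻ G`, `𝓕 g = G` (`FourierTransform.fourier_fourierInv_eq`), `MemLp.coeFn_toLp`.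
* `isT_unique`: `𝓕 g = 𝓕 g'` in `Lp` (`Lp.ext`), apply `𝓕⁻`.
* `isT_sub_le`: `‖g - g'‖ = ‖𝓕 g - 𝓕 g'‖` (`Lp.norm_fourier_eq`, `𝓕` is additive:
  `FourierTransform.fourier_sub` or via `Lp.fourierTransformₗᵢ`), and `𝓕 g - 𝓕 g'` is a.e. equal to
  `symb Φ t * (𝓕 f - 𝓕 f')`, so the norm is `≤ D ‖𝓕 f - 𝓕 f'‖ = D ‖f - f'‖`
  (`Lp.norm_le_mul_norm_of_ae_le_mul`).
* `isT_schwartz`: let `ψ : 𝓢(E2, ℂ)` have compact support.  `symb Φ t · ψ` is smooth with compact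
  support (`hΦ`; `ξ ↦ (ξ 0)^2 (ξ 1)^2/t` is a polynomial), so it is a Schwartz function `χ`
  (`HasCompactSupport.toSchwartzMap` or its current name).  `f = 𝓕⁻ (ψ.toLp 2) = (𝓕⁻ ψ).toLp 2`
  (`SchwartzMap.toLp_fourierInv_eq`), `g = 𝓕⁻ (χ.toLp 2) = (𝓕⁻ χ).toLp 2`; `𝓕 f = ψ.toLp 2`,
  `𝓕 g = χ.toLp 2`, a.e. equal to `ψ`, `χ = symb Φ t * ψ` (`SchwartzMap.coeFn_toLp`).  The function
  `g` is a.e. equal to `𝓕⁻ χ` and `(𝓕⁻ χ : 𝓢) x = 𝓕⁻ (χ : E2 → ℂ) x`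
  (`SchwartzMap.fourierInv_coe`).
-/

set_option autoImplicit false

namespace Pool.Agent.Hyp

open MeasureTheory FourierTransform SchwartzMap

theorem ltw_arg_nonneg {t : ℝ} (ht : 0 < t) (ξ : E2) : 0 ≤ (ξ 0) ^ 2 * (ξ 1) ^ 2 / t :=
  div_nonneg (mul_nonneg (sq_nonneg _) (sq_nonneg _)) ht.le

theorem ltw_norm_symb_le {Φ : ℝ → ℂ} {D : ℝ} (h1 : ∀ s, 0 ≤ s → ‖Φ s‖ ≤ D) {t : ℝ}
    (ht : 0 < t) (ξ : E2) : ‖symb Φ t ξ‖ ≤ D := h1 _ (ltw_arg_nonneg ht ξ)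

theorem ltw_continuous_symb {Φ : ℝ → ℂ} (hΦ : Continuous Φ) (t : ℝ) :
    Continuous (symb Φ t) := by
  unfold symb
  refine hΦ.comp ?_
  have h0 : Continuous fun ξ : E2 => ξ 0 := by fun_prop
  have h1 : Continuous fun ξ : E2 => ξ 1 := by fun_prop
  exact ((h0.pow 2).mul (h1.pow 2)).div_const t

theorem ltw_contDiff_symb {Φ : ℝ → ℂ} (hΦ : ContDiff ℝ (⊤ : ℕ∞) Φ) (t : ℝ) :
    ContDiff ℝ (⊤ : ℕ∞) (symb Φ t) := by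
  unfold symb
  refine hΦ.comp ?_
  have h0 : ContDiff ℝ (⊤ : ℕ∞) fun ξ : E2 => ξ 0 := by fun_prop
  have h1 : ContDiff ℝ (⊤ : ℕ∞) fun ξ : E2 => ξ 1 := by fun_prop
  exact ((h0.pow 2).mul (h1.pow 2)).div_const t

theorem exists_isT {Φ : ℝ → ℂ} (hΦ : Continuous Φ) {D : ℝ} (h1 : ∀ s, 0 ≤ s → ‖Φ s‖ ≤ D) {t : ℝ}
    (ht : 0 < t) (f : Lp ℂ 2 (volume : Measure E2)) : ∃ g, IsT Φ t f g := by
  have hm : MemLp (fun ξ : E2 => symb Φ t ξ * ((𝓕 f : Lp ℂ 2 (volume : Measure E2)) : E2 → ℂ) ξ)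
      2 volume := by
    refine (Lp.memLp (𝓕 f : Lp ℂ 2 (volume : Measure E2))).of_le_mul (c := D) ?_ ?_
    · exact (ltw_continuous_symb hΦ t).aestronglyMeasurable.mul (Lp.aestronglyMeasurable _)
    · refine Filter.Eventually.of_forall fun ξ => ?_
      rw [norm_mul]
      exact mul_le_mul_of_nonneg_right (ltw_norm_symb_le h1 ht ξ) (norm_nonneg _)
  refine ⟨𝓕⁻ (hm.toLp _), ?_⟩
  unfold IsT
  rw [FourierTransform.fourier_fourierInv_eq]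
  exact hm.coeFn_toLp

theorem isT_unique {Φ : ℝ → ℂ} {t : ℝ} {f g g' : Lp ℂ 2 (volume : Measure E2)}
    (h : IsT Φ t f g) (h' : IsT Φ t f g') : g = g' := by
  have h2 : (𝓕 g : Lp ℂ 2 (volume : Measure E2)) = 𝓕 g' := by
    refine Lp.ext ?_
    exact h.trans h'.symm
  have h3 := congrArg (fun u : Lp ℂ 2 (volume : Measure E2) => (𝓕⁻ u : Lp ℂ 2 (volume : Measure E2))) h2
  simpa using h3

theorem isT_sub_le {Φ : ℝ → ℂ} {D : ℝ} (hD : 0 ≤ D) (h1 : ∀ s, 0 ≤ s → ‖Φ s‖ ≤ D) {t : ℝ}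
    (ht : 0 < t) {f f' g g' : Lp ℂ 2 (volume : Measure E2)} (h : IsT Φ t f g)
    (h' : IsT Φ t f' g') : ‖g - g'‖ ≤ D * ‖f - f'‖ := by
  have e1 : ‖g - g'‖ = ‖(𝓕 g : Lp ℂ 2 (volume : Measure E2)) - 𝓕 g'‖ := by
    have h2 := (Lp.fourierTransformₗᵢ E2 ℂ).map_sub g g'
    have h3 := (Lp.fourierTransformₗᵢ E2 ℂ).norm_map (g - g')
    rw [← h3, h2]
    rfl
  have e2 : ‖f - f'‖ = ‖(𝓕 f : Lp ℂ 2 (volume : Measure E2)) - 𝓕 f'‖ := by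
    have h2 := (Lp.fourierTransformₗᵢ E2 ℂ).map_sub f f'
    have h3 := (Lp.fourierTransformₗᵢ E2 ℂ).norm_map (f - f')
    rw [← h3, h2]
    rfl
  rw [e1, e2]
  refine Lp.norm_le_mul_norm_of_ae_le_mul ?_
  have k1 := Lp.coeFn_sub (𝓕 g : Lp ℂ 2 (volume : Measure E2)) (𝓕 g')
  have k2 := Lp.coeFn_sub (𝓕 f : Lp ℂ 2 (volume : Measure E2)) (𝓕 f')
  have k3 := h
  have k4 := h'
  unfold IsT at k3 k4
  filter_upwards [k1, k2, k3, k4] with ξ a1 a2 a3 a4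
  rw [a1, a2, Pi.sub_apply, Pi.sub_apply, a3, a4, ← mul_sub, norm_mul]
  exact mul_le_mul_of_nonneg_right (ltw_norm_symb_le h1 ht ξ) (norm_nonneg _)

theorem isT_schwartz {Φ : ℝ → ℂ} (hΦ : ContDiff ℝ (⊤ : ℕ∞) Φ) {t : ℝ} (ht : 0 < t)
    (ψ : 𝓢(E2, ℂ)) (hψ : HasCompactSupport ψ) :
    ∃ g : Lp ℂ 2 (volume : Measure E2), IsT Φ t (𝓕⁻ (ψ.toLp 2)) g ∧
      (g : E2 → ℂ) =ᵐ[volume] 𝓕⁻ (fun ξ : E2 => symb Φ t ξ * ψ ξ) := by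
  have hs : ContDiff ℝ (⊤ : ℕ∞) (fun ξ : E2 => symb Φ t ξ * ψ ξ) :=
    (ltw_contDiff_symb hΦ t).mul (ψ.smooth ⊤)
  have hc : HasCompactSupport (fun ξ : E2 => symb Φ t ξ * ψ ξ) := hψ.mul_left
  set χ : 𝓢(E2, ℂ) := hc.toSchwartzMap hs with hχ
  have hχf : (χ : E2 → ℂ) = fun ξ : E2 => symb Φ t ξ * ψ ξ := rfl
  refine ⟨𝓕⁻ (χ.toLp 2), ?_, ?_⟩
  · unfold IsT
    rw [FourierTransform.fourier_fourierInv_eq, FourierTransform.fourier_fourierInv_eq]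
    filter_upwards [χ.coeFn_toLp 2 volume, ψ.coeFn_toLp 2 volume] with ξ a1 a2
    rw [a1, a2, hχf]
  · rw [SchwartzMap.toLp_fourierInv_eq]
    refine ((𝓕⁻ χ).coeFn_toLp 2 volume).trans ?_
    rw [SchwartzMap.fourierInv_coe, hχf]

end Pool.Agent.Hyp
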