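import Pool.Agent.Hyp.EuM
import Pool.Agent.Hyp.PhiB
import Pool.Agent.Hyp.LTw
import Pool.Agent.Hyp.Dens

/-!
# Module MainT: the maximal inequality for all functions in `L²`

**PROOF.** (1) For `ψ : 𝓢(E2, ℂ)` with compact support, `f0 = 𝓕⁻ (ψ.toLp 2)` and `g0 k` from
`isT_schwartz` (`t = 2^k`): `eLpNorm (⨆ k : K, ‖g0 k x‖) 2 ≤ ofReal (√(10^25 D^2 r^8) ‖f0‖)`: the
function is a.e. equal to `⨆ k : K, ‖𝓕⁻ (symb Φ (2^k) ψ) x‖` (finitely many `k`), `eLpNorm _ 2` of a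
nonnegative function is `(∫⁻ ofReal (u x ^2))^(1/2)`, `eu_main`, and
`∫ ‖ψ‖^2 = ‖ψ.toLp 2‖^2 = ‖f0‖^2` (`Lp.norm_fourier_eq`).  `√(10^25) ≤ 10^13`.
(2) General `f`: given `ε > 0` take `ψ` from `dens_schwartz`.  `‖g k x‖ ≤ ‖g0 k x‖ + ‖(g k - g0 k) x‖`, so
`⨆ ‖g k x‖ ≤ ⨆ ‖g0 k x‖ + ∑ k ∈ K, ‖(g k - g0 k) x‖` a.e., and
`eLpNorm ≤ ofReal (10^13 D r^4 ‖f0‖) + ∑ k ∈ K, ofReal (D ε)` (`isT_sub_le`), `‖f0‖ ≤ ‖f‖ + ε`.
Let `ε → 0`.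
-/

set_option autoImplicit false

namespace Pool.Agent.Hyp

open MeasureTheory ENNReal FourierTransform

theorem maint_norm_sq (h : Lp ℂ 2 (volume : Measure E2)) : ‖h‖ ^ 2 = ∫ ξ : E2, ‖h ξ‖ ^ 2 := by
  have h1 : ((‖h‖ ^ 2 : ℝ) : ℂ) = inner ℂ h h := by
    rw [inner_self_eq_norm_sq_to_K]
    simp
  have h2 : (inner ℂ h h : ℂ) = ((∫ ξ : E2, ‖h ξ‖ ^ 2 : ℝ) : ℂ) := by
    rw [MeasureTheory.L2.inner_def, ← integral_complex_ofReal]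
    apply integral_congr_ae
    filter_upwards with a
    rw [inner_self_eq_norm_sq_to_K]
    simp
  rw [h2] at h1
  exact_mod_cast h1

theorem maint_schwartz {Φ : ℝ → ℂ} (hΦ : ContDiff ℝ (⊤ : ℕ∞) Φ) {D : ℝ} (hD : 0 ≤ D)
    (h1 : ∀ s, 0 ≤ s → ‖Φ s‖ ≤ D) (h2 : ∀ s, 0 ≤ s → s * ‖Φ s‖ ≤ D)
    (h3 : ∀ s, 0 ≤ s → ‖Φ s - Φ 0‖ ≤ D * s) (K : Finset ℤ) (r : ℕ) (hr : 1 ≤ r)
    (hK : Real.log (K.card + 3) ≤ Real.exp r) (ψ : SchwartzMap E2 ℂ) (hψ : HasCompactSupport ψ)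
    (g0 : ℤ → Lp ℂ 2 (volume : Measure E2))
    (hg0 : ∀ k, (g0 k : E2 → ℂ) =ᵐ[volume] 𝓕⁻ (fun ξ : E2 => symb Φ (2 ^ k) ξ * ψ ξ)) :
    eLpNorm (fun x => ⨆ k : K, ‖g0 k x‖) 2 (volume : Measure E2) ≤
      ENNReal.ofReal (10 ^ 13 * D * (r : ℝ) ^ 4 *
        ‖(𝓕⁻ (ψ.toLp 2) : Lp ℂ 2 (volume : Measure E2))‖) := by
  have hnf : ‖(𝓕⁻ (ψ.toLp 2) : Lp ℂ 2 (volume : Measure E2))‖ ^ 2 = ∫ ξ : E2, ‖ψ ξ‖ ^ 2 := by
    rw [← Lp.norm_fourier_eq, FourierTransform.fourier_fourierInv_eq, maint_norm_sq]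
    apply integral_congr_ae
    filter_upwards [ψ.coeFn_toLp 2 (volume : Measure E2)] with a ha
    rw [ha]
  have hcongr : (fun x => ⨆ k : K, ‖g0 k x‖) =ᵐ[volume] fun x : E2 => ⨆ k : K,
        ‖𝓕⁻ (fun ξ : E2 => symb Φ (2 ^ (k : ℤ)) ξ * ψ ξ) x‖ := by
    have : ∀ᵐ x : E2, ∀ k : K, g0 k x = 𝓕⁻ (fun ξ : E2 => symb Φ (2 ^ (k : ℤ)) ξ * ψ ξ) x :=
      ae_all_iff.2 fun k => hg0 k
    filter_upwards [this] with x hx
    simp only [hx]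
  rw [eLpNorm_congr_ae hcongr, eLpNorm_eq_lintegral_rpow_enorm_toReal (by norm_num) (by norm_num)]
  have hmain := eu_main hΦ.continuous h1 h2 h3 K r hr hK ψ.continuous hψ
  have heq : ∀ x : E2, ‖(⨆ k : K, ‖𝓕⁻ (fun ξ : E2 => symb Φ (2 ^ (k : ℤ)) ξ * ψ ξ) x‖)‖ₑ ^
      (2 : ℝ≥0∞).toReal = ENNReal.ofReal ((⨆ k : K,
        ‖𝓕⁻ (fun ξ : E2 => symb Φ (2 ^ (k : ℤ)) ξ * ψ ξ) x‖) ^ 2) := by
    intro x
    have hnn : 0 ≤ (⨆ k : K, ‖𝓕⁻ (fun ξ : E2 => symb Φ (2 ^ (k : ℤ)) ξ * ψ ξ) x‖) :=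
      Real.iSup_nonneg fun _ => norm_nonneg _
    rw [Real.enorm_eq_ofReal hnn, ENNReal.ofReal_pow hnn]
    simp
  simp only [heq]
  rw [← hnf] at hmain
  refine (ENNReal.rpow_le_rpow hmain (by positivity)).trans ?_
  rw [ENNReal.ofReal_rpow_of_nonneg (by positivity) (by positivity)]
  apply ENNReal.ofReal_le_ofReal
  have : (1 / (2 : ℝ≥0∞).toReal) = (1 / 2 : ℝ) := by simp
  rw [this, ← Real.sqrt_eq_rpow]
  apply Real.sqrt_le_iff.2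
  refine ⟨by positivity, ?_⟩
  have hp : 0 ≤ D ^ 2 * (r : ℝ) ^ 8 * ‖(𝓕⁻ (ψ.toLp 2) : Lp ℂ 2 (volume : Measure E2))‖ ^ 2 := by
    positivity
  nlinarith

theorem maint_sup (K : Finset ℤ) (u v : ℤ → E2 → ℂ) (hu : ∀ k, AEStronglyMeasurable (u k) volume)
    (hv : ∀ k, AEStronglyMeasurable (v k) volume) :
    eLpNorm (fun x => ⨆ k : K, ‖u k x‖) 2 (volume : Measure E2) ≤
      eLpNorm (fun x => ⨆ k : K, ‖v k x‖) 2 (volume : Measure E2) +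
        ∑ k ∈ K, eLpNorm (u k - v k) 2 (volume : Measure E2) := by
  have hle : ∀ x : E2, ‖(⨆ k : K, ‖u k x‖)‖ ≤ (⨆ k : K, ‖v k x‖) + ∑ k ∈ K, ‖(u k - v k) x‖ := by
    intro x
    rw [Real.norm_of_nonneg (Real.iSup_nonneg fun _ => norm_nonneg _)]
    have hs0 : 0 ≤ ∑ k ∈ K, ‖(u k - v k) x‖ := Finset.sum_nonneg fun _ _ => norm_nonneg _
    apply Real.iSup_le _ (add_nonneg (Real.iSup_nonneg fun _ => norm_nonneg _) hs0)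
    intro k
    have e1 : ‖u k x‖ ≤ ‖v k x‖ + ‖(u k - v k) x‖ := by
      have := norm_add_le (v k x) (u k x - v k x)
      simpa using this
    have e2 : ‖v k x‖ ≤ ⨆ k : K, ‖v k x‖ :=
      le_ciSup (f := fun k : K => ‖v k x‖) (Set.finite_range _).bddAbove k
    have e3 : ‖(u k - v k) x‖ ≤ ∑ k ∈ K, ‖(u k - v k) x‖ :=
      Finset.single_le_sum (f := fun k => ‖(u k - v k) x‖) (fun _ _ => norm_nonneg _) k.2
    linarith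
  have hm0 : AEStronglyMeasurable (fun x : E2 => ⨆ k : K, ‖v k x‖) volume := by
    apply AEMeasurable.aestronglyMeasurable
    apply AEMeasurable.iSup
    intro k
    exact (hv k).norm.aemeasurable
  have hm1 : ∀ k ∈ K, AEStronglyMeasurable (fun x : E2 => ‖(u k - v k) x‖) volume := fun k _ =>
    ((hu k).sub (hv k)).norm
  have hm2 : AEStronglyMeasurable (∑ k ∈ K, (fun x : E2 => ‖(u k - v k) x‖)) volume :=
    Finset.aestronglyMeasurable_sum K hm1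
  have step1 : eLpNorm (fun x => ⨆ k : K, ‖u k x‖) 2 (volume : Measure E2) ≤
      eLpNorm ((fun x : E2 => ⨆ k : K, ‖v k x‖) +
        (∑ k ∈ K, (fun x : E2 => ‖(u k - v k) x‖))) 2 volume := by
    apply eLpNorm_mono_real
    intro x
    have := hle x
    rw [Pi.add_apply, Finset.sum_apply]
    exact this
  have step2 := eLpNorm_add_le hm0 hm2 (p := 2) (by norm_num)
  have step3 := eLpNorm_sum_le hm1 (p := 2) (by norm_num)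
  have step4 : (∑ k ∈ K, eLpNorm (fun x : E2 => ‖(u k - v k) x‖) 2 volume) =
      ∑ k ∈ K, eLpNorm (u k - v k) 2 (volume : Measure E2) :=
    Finset.sum_congr rfl fun k _ => eLpNorm_norm _
  rw [← step4]
  exact step1.trans (step2.trans (add_le_add le_rfl step3))

theorem maint_sub (g h : Lp ℂ 2 (volume : Measure E2)) :
    eLpNorm ((g : E2 → ℂ) - (h : E2 → ℂ)) 2 (volume : Measure E2) = ENNReal.ofReal ‖g - h‖ := by
  rw [← eLpNorm_congr_ae (Lp.coeFn_sub g h), Lp.norm_def, ENNReal.ofReal_toReal (Lp.eLpNorm_ne_top _)]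

theorem main_r {Φ : ℝ → ℂ} (hΦ : ContDiff ℝ (⊤ : ℕ∞) Φ) {D : ℝ} (hD : 0 ≤ D)
    (h1 : ∀ s, 0 ≤ s → ‖Φ s‖ ≤ D) (h2 : ∀ s, 0 ≤ s → s * ‖Φ s‖ ≤ D)
    (h3 : ∀ s, 0 ≤ s → ‖Φ s - Φ 0‖ ≤ D * s) (K : Finset ℤ) (r : ℕ) (hr : 1 ≤ r)
    (hK : Real.log (K.card + 3) ≤ Real.exp r) (f : Lp ℂ 2 (volume : Measure E2))
    (g : ℤ → Lp ℂ 2 (volume : Measure E2)) (hg : ∀ k ∈ K, IsT Φ (2 ^ k) f (g k)) :
    eLpNorm (fun x => ⨆ k : K, ‖g k x‖) 2 (volume : Measure E2) ≤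
      ENNReal.ofReal (10 ^ 13 * D * (r : ℝ) ^ 4 * ‖f‖) := by
  apply ENNReal.le_of_forall_pos_le_add
  intro δ hδ _
  obtain ⟨A, hA⟩ : ∃ A : ℝ, A = 10 ^ 13 * D * (r : ℝ) ^ 4 := ⟨_, rfl⟩
  have hA0 : 0 ≤ A := by rw [hA]; positivity
  obtain ⟨B, hB⟩ : ∃ B : ℝ, B = A + K.card * D := ⟨_, rfl⟩
  have hB0 : 0 ≤ B := by rw [hB]; positivity
  obtain ⟨ε, hε⟩ : ∃ ε : ℝ, ε = (δ : ℝ) / (B + 1) := ⟨_, rfl⟩
  have hδ' : (0 : ℝ) < δ := by exact_mod_cast hδ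
  have hε0 : 0 < ε := by rw [hε]; positivity
  have hBε : B * ε ≤ δ := by
    rw [hε, ← mul_div_assoc, div_le_iff₀ (by positivity)]
    nlinarith
  obtain ⟨ψ, hψc, hψ⟩ := dens_schwartz f hε0
  have hex : ∀ k : ℤ, ∃ g0 : Lp ℂ 2 (volume : Measure E2), IsT Φ (2 ^ k) (𝓕⁻ (ψ.toLp 2)) g0 ∧
      (g0 : E2 → ℂ) =ᵐ[volume] 𝓕⁻ (fun ξ : E2 => symb Φ (2 ^ k) ξ * ψ ξ) := fun k =>
    isT_schwartz hΦ (by positivity) ψ hψc
  choose g0 hg0 hg0' using hex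
  have hsch := maint_schwartz hΦ hD h1 h2 h3 K r hr hK ψ hψc g0 hg0'
  have hsub : ∀ k ∈ K, ‖g k - g0 k‖ ≤ D * ε := fun k hk =>
    (isT_sub_le hD h1 (by positivity) (hg k hk) (hg0 k)).trans (mul_le_mul_of_nonneg_left hψ hD)
  rw [← hA] at hsch ⊢
  generalize (𝓕⁻ (ψ.toLp 2) : Lp ℂ 2 (volume : Measure E2)) = f0 at *
  have hnf : ‖f0‖ ≤ ‖f‖ + ε := by
    have := norm_le_norm_add_norm_sub f f0
    linarith
  have step := maint_sup K (fun k => (g k : E2 → ℂ)) (fun k => (g0 k : E2 → ℂ))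
    (fun k => Lp.aestronglyMeasurable (g k)) (fun k => Lp.aestronglyMeasurable (g0 k))
  have step4 : (∑ k ∈ K, eLpNorm ((g k : E2 → ℂ) - (g0 k : E2 → ℂ)) 2 (volume : Measure E2)) ≤
      ENNReal.ofReal (K.card * (D * ε)) := by
    refine (Finset.sum_le_sum (g := fun _ => ENNReal.ofReal (D * ε)) ?_).trans ?_
    · intro k hk
      rw [maint_sub]
      exact ENNReal.ofReal_le_ofReal (hsub k hk)
    · rw [Finset.sum_const, nsmul_eq_mul, ENNReal.ofReal_mul (p := (K.card : ℝ)) (by positivity),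
        ENNReal.ofReal_natCast]
  have hA' : 0 ≤ A * ‖f0‖ := by positivity
  have hA'' : 0 ≤ A * ‖f‖ := by positivity
  have hKD : 0 ≤ (K.card : ℝ) * (D * ε) := by positivity
  refine step.trans ((add_le_add hsch step4).trans ?_)
  rw [← ENNReal.ofReal_add hA' hKD]
  have hfin : A * ‖f0‖ + K.card * (D * ε) ≤ A * ‖f‖ + δ := by
    have := mul_le_mul_of_nonneg_left hnf hA0
    have e : B * ε = A * ε + K.card * (D * ε) := by rw [hB]; ring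
    linarith
  refine (ENNReal.ofReal_le_ofReal hfin).trans ?_
  rw [ENNReal.ofReal_add hA'' hδ'.le]
  simp

end Pool.Agent.Hyp
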