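import Pool.Agent.Hyp.SqF
import Pool.Agent.Hyp.MainT

/-!
# Module HKf: sharp hyperbolic crosses, finitely many scales

**PROOF.** Fix `Φ : ℝ → ℂ` smooth with compact support and `Φ 0 = 1` (a `ContDiffBump` centred at `0`,
composed with the coercion `ℝ → ℂ`), and `D` from `phi_bounds`.  `symb Φ (2^k) = rs Φ k + hs k`, so
`MT (hs k) f = MT (symb Φ (2^k)) f - MT (rs Φ k) f` (`mt_add` with `hs = symb + (-1) rs`, `mt_smul`, or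
`mt_add` for `rs + hs`).  `IsT Φ (2^k) f (MT (symb Φ (2^k)) f)` (`mt_spec`), so `main_r` with
`r = ⌊log log (#K+3)⌋₊ + 1 ≤ 1 + log log (#K + 3)` bounds the `L²` norm of
`⨆ k : K, ‖MT (symb Φ (2^k)) f x‖` by `10^13 D r^4 ‖f‖`; `sqf` bounds the other part by
`√6 D ‖f‖`.  `(a + b)^2 ≤ 2 a^2 + 2 b^2`; the `ENNReal` supremum over the finite set is the `ENNReal`
of the real one (`K` empty is trivial), `eLpNorm _ 2 ^2 = ∫⁻ ‖·‖ₑ^2`.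
`C = 2 * (10^13 D)^2 + 2 * 6 D^2`.
-/

set_option autoImplicit false

namespace Pool.Agent.Hyp

open MeasureTheory FourierTransform ENNReal

private theorem hs_le (k : ℤ) (ξ : E2) : ‖hs k ξ‖ ≤ 1 := by
  unfold hs
  split_ifs <;> simp

private theorem exists_phi : ∃ Φ : ℝ → ℂ, ContDiff ℝ (⊤ : ℕ∞) Φ ∧ HasCompactSupport Φ ∧ Φ 0 = 1 := by
  let b : ContDiffBump (0 : ℝ) := ⟨1, 2, one_pos, by norm_num⟩
  refine ⟨fun s => ((b s : ℝ) : ℂ), ?_, ?_, ?_⟩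
  · exact Complex.ofRealCLM.contDiff.comp b.contDiff
  · exact b.hasCompactSupport.comp_left (g := fun t : ℝ => (t : ℂ)) (by simp)
  · have : b 0 = 1 := b.one_of_mem_closedBall (by simp [b])
    simp only [this, Complex.ofReal_one]

private theorem sup_real (K : Finset ℤ) (u : ℤ → ℝ) :
    ⨆ k ∈ K, ENNReal.ofReal (u k) ≤ ENNReal.ofReal (⨆ k : K, u k) := by
  refine iSup₂_le fun k hk => ENNReal.ofReal_le_ofReal ?_
  exact le_ciSup (f := fun k : K => u k) (Set.finite_range _).bddAbove ⟨k, hk⟩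

private theorem e_sq {g : E2 → ℝ} : eLpNorm g 2 (volume : Measure E2) ^ 2 = ∫⁻ x, ‖g x‖ₑ ^ 2 := by
  have h := eLpNorm_nnreal_pow_eq_lintegral (f := g) (μ := (volume : Measure E2)) (p := 2)
    (by norm_num)
  simpa using h

private theorem rs_add {Φ : ℝ → ℂ} (h0 : Φ 0 = 1) (k : ℤ) :
    (fun ξ => rs Φ k ξ + hs k ξ) = symb Φ (2 ^ k) := by
  funext ξ
  unfold rs
  rw [h0]
  ring

private theorem mt_hs {Φ : ℝ → ℂ} (hΦ : Continuous Φ) (h0 : Φ 0 = 1) {D : ℝ}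
    (h1 : ∀ s, 0 ≤ s → ‖Φ s‖ ≤ D) (k : ℤ) (f : Lp ℂ 2 (volume : Measure E2)) :
    MT (hs k) f = MT (symb Φ (2 ^ k)) f - MT (rs Φ k) f := by
  have hD : 0 ≤ D := (norm_nonneg _).trans (h1 0 le_rfl)
  have h := mt_add (μ := rs Φ k) (ν := hs k) (rs_measurable hΦ k) (hs_measurable k) (D := 2 * D + 1)
    (fun ξ => (rs_le h1 k ξ).trans (by linarith)) (fun ξ => (hs_le k ξ).trans (by linarith)) f
  rw [rs_add h0 k] at h
  rw [h, add_sub_cancel_left]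

private theorem symb_meas {Φ : ℝ → ℂ} (hΦ : Continuous Φ) (t : ℝ) : Measurable (symb Φ t) := by
  unfold symb
  apply Continuous.measurable
  fun_prop

private theorem isT_mt {Φ : ℝ → ℂ} (hΦ : Continuous Φ) {D : ℝ}
    (h1 : ∀ s, 0 ≤ s → ‖Φ s‖ ≤ D) (k : ℤ) (f : Lp ℂ 2 (volume : Measure E2)) :
    IsT Φ (2 ^ k) f (MT (symb Φ (2 ^ k)) f) := by
  refine mt_spec (symb_meas hΦ _) (D := D) (fun ξ => ?_) f
  unfold symb
  exact h1 _ (by positivity)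

private theorem r_bounds (N : ℕ) :
    0 ≤ Real.log (Real.log ((N : ℝ) + 3)) ∧
      Real.log ((N : ℝ) + 3) ≤ Real.exp ((⌊Real.log (Real.log ((N : ℝ) + 3))⌋₊ + 1 : ℕ) : ℝ) ∧
      ((⌊Real.log (Real.log ((N : ℝ) + 3))⌋₊ + 1 : ℕ) : ℝ) ≤
        1 + Real.log (Real.log ((N : ℝ) + 3)) := by
  have h0 : (0 : ℝ) ≤ N := Nat.cast_nonneg N
  have h1 : 1 ≤ Real.log ((N : ℝ) + 3) := by
    rw [Real.le_log_iff_exp_le (by linarith)]
    linarith [Real.exp_one_lt_d9]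
  have h2 : 0 ≤ Real.log (Real.log ((N : ℝ) + 3)) := Real.log_nonneg h1
  refine ⟨h2, ?_, ?_⟩
  · have h3 : Real.log ((N : ℝ) + 3) = Real.exp (Real.log (Real.log ((N : ℝ) + 3))) :=
      (Real.exp_log (by linarith)).symm
    rw [h3, Real.exp_le_exp, Real.log_exp]
    push_cast
    exact (Nat.lt_floor_add_one _).le
  · push_cast
    linarith [Nat.floor_le h2]

private theorem two_sq (a b : ℝ≥0∞) : (a + b) ^ 2 ≤ 2 * a ^ 2 + 2 * b ^ 2 := by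
  have h := ENNReal.rpow_add_le_mul_rpow_add_rpow a b (p := 2) (by norm_num)
  norm_num at h
  calc (a + b) ^ 2 ≤ 2 * (a ^ 2 + b ^ 2) := h
    _ = 2 * a ^ 2 + 2 * b ^ 2 := by ring

theorem hk_finite : ∃ C : ℝ, 0 ≤ C ∧ ∀ (K : Finset ℤ) (f : Lp ℂ 2 (volume : Measure E2)),
    ∫⁻ x : E2, (⨆ k ∈ K, ‖MT (hs k) f x‖ₑ) ^ 2 ≤
      ENNReal.ofReal (C * (1 + Real.log (Real.log ((K.card : ℝ) + 3))) ^ 8) * ‖f‖ₑ ^ 2 := by
  obtain ⟨Φ, hΦ, hc, h0⟩ := exists_phi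
  obtain ⟨D, hD, h1, h2, h3⟩ := phi_bounds hΦ hc
  refine ⟨2 * (10 ^ 13 * D) ^ 2 + 2 * (6 * D ^ 2), by positivity, fun K f => ?_⟩
  obtain ⟨hL, hexp, hr⟩ := r_bounds K.card
  have hmain := main_r hΦ hD h1 h2 h3 K (⌊Real.log (Real.log ((K.card : ℝ) + 3))⌋₊ + 1)
    (Nat.le_add_left 1 _) hexp f (fun k => MT (symb Φ (2 ^ k)) f)
    (fun k _ => isT_mt hΦ.continuous h1 k f)
  have hsq := sqf hΦ.continuous h1 h2 h3 f
  generalize Real.log (Real.log ((K.card : ℝ) + 3)) = L at hL hexp hr hmain ⊢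
  generalize (⌊L⌋₊ + 1 : ℕ) = r at hexp hr hmain
  -- the a.e. bound
  have hae : ∀ᵐ x : E2, ∀ k ∈ K, MT (hs k) f x = MT (symb Φ (2 ^ k)) f x - MT (rs Φ k) f x := by
    refine (ae_ball_iff (S := (K : Set ℤ)) K.countable_toSet (p := fun x k _ =>
      MT (hs k) f x = MT (symb Φ (2 ^ k)) f x - MT (rs Φ k) f x)).2 ?_
    intro k _
    rw [mt_hs hΦ.continuous h0 h1 k f]
    exact Lp.coeFn_sub _ _
  have hA : Measurable fun x : E2 => ⨆ k ∈ K, ‖MT (symb Φ (2 ^ k)) f x‖ₑ := by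
    refine Measurable.biSup _ K.countable_toSet fun k _ => ?_
    exact (Lp.stronglyMeasurable _).enorm
  have hpt : ∀ᵐ x : E2, (⨆ k ∈ K, ‖MT (hs k) f x‖ₑ) ^ 2 ≤
      2 * (⨆ k ∈ K, ‖MT (symb Φ (2 ^ k)) f x‖ₑ) ^ 2 + 2 * (⨆ k : ℤ, ‖MT (rs Φ k) f x‖ₑ) ^ 2 := by
    filter_upwards [hae] with x hx
    refine le_trans (pow_le_pow_left' ?_ 2) (two_sq _ _)
    refine iSup₂_le fun k hk => ?_
    rw [hx k hk]
    refine (enorm_sub_le).trans (add_le_add ?_ ?_)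
    · exact le_iSup₂ (f := fun k (_ : k ∈ K) => ‖MT (symb Φ (2 ^ k)) f x‖ₑ) k hk
    · exact le_iSup (fun k : ℤ => ‖MT (rs Φ k) f x‖ₑ) k
  have hAsq : ∫⁻ x : E2, (⨆ k ∈ K, ‖MT (symb Φ (2 ^ k)) f x‖ₑ) ^ 2 ≤
      ENNReal.ofReal ((10 ^ 13 * D) ^ 2 * (1 + L) ^ 8) * ‖f‖ₑ ^ 2 := by
    have h5 : ∫⁻ x : E2, (⨆ k ∈ K, ‖MT (symb Φ (2 ^ k)) f x‖ₑ) ^ 2 ≤
        eLpNorm (fun x => ⨆ k : K, ‖MT (symb Φ (2 ^ (k : ℤ))) f x‖) 2 (volume : Measure E2) ^ 2 := by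
      rw [e_sq]
      refine lintegral_mono fun x => pow_le_pow_left' ?_ 2
      have h6 := sup_real K (fun k => ‖MT (symb Φ (2 ^ k)) f x‖)
      simp only [ofReal_norm] at h6
      refine h6.trans ?_
      rw [← ofReal_norm]
      exact ENNReal.ofReal_le_ofReal (le_abs_self _)
    refine h5.trans ((pow_le_pow_left' hmain 2).trans ?_)
    rw [← ofReal_norm f, ← ENNReal.ofReal_pow (norm_nonneg f),
      ← ENNReal.ofReal_pow (by positivity), ← ENNReal.ofReal_mul (by positivity)]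
    apply ENNReal.ofReal_le_ofReal
    have h7 : ((r : ℝ) ^ 4) ^ 2 ≤ (1 + L) ^ 8 := by
      rw [← pow_mul]
      exact pow_le_pow_left₀ (Nat.cast_nonneg r) hr 8
    calc (10 ^ 13 * D * (r : ℝ) ^ 4 * ‖f‖) ^ 2
        = ((10 ^ 13 * D) ^ 2 * ‖f‖ ^ 2) * ((r : ℝ) ^ 4) ^ 2 := by ring
      _ ≤ ((10 ^ 13 * D) ^ 2 * ‖f‖ ^ 2) * (1 + L) ^ 8 :=
          mul_le_mul_of_nonneg_left h7 (by positivity)
      _ = (10 ^ 13 * D) ^ 2 * (1 + L) ^ 8 * ‖f‖ ^ 2 := by ring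
  have h1L : (1 : ℝ) ≤ (1 + L) ^ 8 := one_le_pow₀ (by linarith)
  calc ∫⁻ x : E2, (⨆ k ∈ K, ‖MT (hs k) f x‖ₑ) ^ 2
      ≤ ∫⁻ x : E2, (2 * (⨆ k ∈ K, ‖MT (symb Φ (2 ^ k)) f x‖ₑ) ^ 2 +
          2 * (⨆ k : ℤ, ‖MT (rs Φ k) f x‖ₑ) ^ 2) := lintegral_mono_ae hpt
    _ = 2 * (∫⁻ x : E2, (⨆ k ∈ K, ‖MT (symb Φ (2 ^ k)) f x‖ₑ) ^ 2) +
          2 * (∫⁻ x : E2, (⨆ k : ℤ, ‖MT (rs Φ k) f x‖ₑ) ^ 2) := by
        rw [lintegral_add_left ((hA.pow_const 2).const_mul 2), lintegral_const_mul _ (hA.pow_const 2),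
          lintegral_const_mul' _ _ (by norm_num)]
    _ ≤ 2 * (ENNReal.ofReal ((10 ^ 13 * D) ^ 2 * (1 + L) ^ 8) * ‖f‖ₑ ^ 2) +
          2 * (ENNReal.ofReal (6 * D ^ 2) * ‖f‖ₑ ^ 2) := by
        gcongr
    _ = ENNReal.ofReal (2 * ((10 ^ 13 * D) ^ 2 * (1 + L) ^ 8) + 2 * (6 * D ^ 2)) * ‖f‖ₑ ^ 2 := by
        have hu : 0 ≤ (10 ^ 13 * D) ^ 2 * (1 + L) ^ 8 := by positivity
        generalize (10 ^ 13 * D) ^ 2 * (1 + L) ^ 8 = u at hu ⊢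
        rw [ENNReal.ofReal_add (by positivity) (by positivity), ENNReal.ofReal_mul (p := 2) (by norm_num),
          ENNReal.ofReal_mul (p := 2) (q := 6 * D ^ 2) (by norm_num)]
        simp only [ENNReal.ofReal_ofNat]
        ring
    _ ≤ ENNReal.ofReal ((2 * (10 ^ 13 * D) ^ 2 + 2 * (6 * D ^ 2)) * (1 + L) ^ 8) * ‖f‖ₑ ^ 2 := by
        gcongr
        have : 2 * (6 * D ^ 2) * 1 ≤ 2 * (6 * D ^ 2) * (1 + L) ^ 8 :=
          mul_le_mul_of_nonneg_left h1L (by positivity)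
        linarith

end Pool.Agent.Hyp
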