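import Pool.Agent.Hyp.DefR

/-!
# Module LimA: convergence of the Riemann sums

**PROOF.** `rnd (h n) ξ → ξ` (`rnd_sub_le`).  Dominated convergence
(`tendsto_integral_filter_of_dominated_convergence`): eventually `h n ≤ 1`; `g` is bounded by some
`B` and vanishes outside the ball of radius `R` (`hc.isCompact.isBounded`), so
`ξ ↦ g (rnd (h n) ξ) * ex (x n) (rnd (h n) ξ)` is bounded by `B * indicator (closedBall 0 (R + 1))`
(`‖ex‖ = 1`, `norm_ex`; if `rnd h ξ` is in the support then `‖ξ‖ ≤ R + h`).  The integrand is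
measurable (`rnd h` is measurable: `Int.measurable_floor`; `g`, `ex` continuous) and converges
pointwise to `g ξ * ex x0 ξ` (continuity of `g` and of `ex` in both variables).  The same for
`‖g (rnd (h n) ξ)‖^2`.
-/

set_option autoImplicit false

namespace Pool.Agent.Hyp

open MeasureTheory Filter Topology

theorem measurable_rnd (h : ℝ) : Measurable (rnd h) := by
  have h1 : Measurable fun ξ : ℝ × ℝ => (⌊ξ.1 / h⌋ : ℝ) :=
    (measurable_from_top (f := fun n : ℤ => (n : ℝ))).comp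
      (Int.measurable_floor.comp (measurable_fst.div_const h))
  have h2 : Measurable fun ξ : ℝ × ℝ => (⌊ξ.2 / h⌋ : ℝ) :=
    (measurable_from_top (f := fun n : ℤ => (n : ℝ))).comp
      (Int.measurable_floor.comp (measurable_snd.div_const h))
  exact (h1.const_mul h).prodMk (h2.const_mul h)

theorem continuous_ex : Continuous fun p : (ℝ × ℝ) × (ℝ × ℝ) => ex p.1 p.2 := by
  unfold ex
  fun_prop

theorem rnd_tendsto {h : ℕ → ℝ} (hh : ∀ n, 0 < h n) (h0 : Tendsto h atTop (𝓝 0)) (ξ : ℝ × ℝ) :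
    Tendsto (fun n => rnd (h n) ξ) atTop (𝓝 ξ) := by
  rw [tendsto_iff_norm_sub_tendsto_zero]
  exact squeeze_zero (fun _ => norm_nonneg _) (fun n => rnd_sub_le (hh n) ξ) h0

/-- the value at the rounded point is bounded by a fixed integrable function -/
theorem exists_bound {g : ℝ × ℝ → ℂ} (hg : Continuous g) (hc : HasCompactSupport g) :
    ∃ R B : ℝ, 0 ≤ B ∧ ∀ h : ℝ, 0 < h → h ≤ 1 → ∀ ξ, ‖g (rnd h ξ)‖ ≤
      (Metric.closedBall (0 : ℝ × ℝ) R).indicator (fun _ => B) ξ := by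
  obtain ⟨B, hB⟩ := hc.exists_bound_of_continuous hg
  obtain ⟨R, hR⟩ := hc.isCompact.isBounded.subset_closedBall (0 : ℝ × ℝ)
  have hB0 : 0 ≤ B := (norm_nonneg _).trans (hB 0)
  refine ⟨R + 1, B, hB0, fun h hh h1 ξ => ?_⟩
  by_cases hξ : ξ ∈ Metric.closedBall (0 : ℝ × ℝ) (R + 1)
  · rw [Set.indicator_of_mem hξ]
    exact hB _
  · rw [Set.indicator_of_notMem hξ]
    have h2 : g (rnd h ξ) = 0 := by
      by_contra h3
      have h4 : rnd h ξ ∈ tsupport g := subset_tsupport g h3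
      have h5 := hR h4
      rw [mem_closedBall_zero_iff] at h5
      apply hξ
      rw [mem_closedBall_zero_iff]
      have h6 := rnd_sub_le hh ξ
      have h7 : ξ = rnd h ξ - (rnd h ξ - ξ) := by abel
      calc ‖ξ‖ = ‖rnd h ξ - (rnd h ξ - ξ)‖ := by rw [← h7]
        _ ≤ ‖rnd h ξ‖ + ‖rnd h ξ - ξ‖ := norm_sub_le _ _
        _ ≤ R + 1 := by linarith
    rw [h2, norm_zero]

theorem fd_tendsto {g : ℝ × ℝ → ℂ} (hg : Continuous g) (hc : HasCompactSupport g) {h : ℕ → ℝ}
    (hh : ∀ n, 0 < h n) (h0 : Tendsto h atTop (𝓝 0)) {x : ℕ → ℝ × ℝ} {x0 : ℝ × ℝ}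
    (hx : Tendsto x atTop (𝓝 x0)) :
    Tendsto (fun n => fd (h n) g (x n)) atTop (𝓝 (fi g x0)) := by
  obtain ⟨R, B, hB0, hb⟩ := exists_bound hg hc
  unfold fd fi
  refine tendsto_integral_filter_of_dominated_convergence
    ((Metric.closedBall (0 : ℝ × ℝ) R).indicator (fun _ => B)) ?_ ?_ ?_ ?_
  · refine Eventually.of_forall fun n => Measurable.aestronglyMeasurable ?_
    exact (hg.measurable.comp (measurable_rnd (h n))).mul
      ((continuous_ex.comp (continuous_const.prodMk continuous_id)).measurable.comp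
        (measurable_rnd (h n)))
  · have h1 : ∀ᶠ n in atTop, h n ≤ 1 := h0.eventually (eventually_le_nhds zero_lt_one)
    filter_upwards [h1] with n hn
    refine Eventually.of_forall fun ξ => ?_
    rw [norm_mul, norm_ex, mul_one]
    exact hb (h n) (hh n) hn ξ
  · rw [integrable_indicator_iff Metric.isClosed_closedBall.measurableSet]
    exact (continuous_const.continuousOn).integrableOn_compact (isCompact_closedBall _ _)
  · refine Eventually.of_forall fun ξ => ?_
    have h2 := rnd_tendsto hh h0 ξ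
    have h3 : Tendsto (fun n => g (rnd (h n) ξ)) atTop (𝓝 (g ξ)) := (hg.tendsto ξ).comp h2
    have h4 : Tendsto (fun n => ex (x n) (rnd (h n) ξ)) atTop (𝓝 (ex x0 ξ)) := by
      have h5 : Tendsto (fun n => (x n, rnd (h n) ξ)) atTop (𝓝 (x0, ξ)) := hx.prodMk_nhds h2
      have h6 : Tendsto (fun p : (ℝ × ℝ) × (ℝ × ℝ) => ex p.1 p.2) (𝓝 (x0, ξ)) (𝓝 (ex x0 ξ)) :=
        continuous_ex.tendsto (x0, ξ)
      have h7 := Filter.Tendsto.comp h6 h5
      simpa only [Function.comp_def] using h7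
    exact h3.mul h4

theorem sq_tendsto {g : ℝ × ℝ → ℂ} (hg : Continuous g) (hc : HasCompactSupport g) {h : ℕ → ℝ}
    (hh : ∀ n, 0 < h n) (h0 : Tendsto h atTop (𝓝 0)) :
    Tendsto (fun n => ∫ ξ : ℝ × ℝ, ‖g (rnd (h n) ξ)‖ ^ 2) atTop (𝓝 (∫ ξ : ℝ × ℝ, ‖g ξ‖ ^ 2)) := by
  obtain ⟨R, B, hB0, hb⟩ := exists_bound hg hc
  refine tendsto_integral_filter_of_dominated_convergence
    ((Metric.closedBall (0 : ℝ × ℝ) R).indicator (fun _ => B ^ 2)) ?_ ?_ ?_ ?_
  · refine Eventually.of_forall fun n => Measurable.aestronglyMeasurable ?_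
    have hm : Measurable fun ξ : ℝ × ℝ => ‖g (rnd (h n) ξ)‖ :=
      (hg.measurable.comp (measurable_rnd (h n))).norm
    exact hm.pow_const 2
  · have h1 : ∀ᶠ n in atTop, h n ≤ 1 := h0.eventually (eventually_le_nhds zero_lt_one)
    filter_upwards [h1] with n hn
    refine Eventually.of_forall fun ξ => ?_
    rw [Real.norm_of_nonneg (sq_nonneg _)]
    have h2 := pow_le_pow_left₀ (norm_nonneg _) (hb (h n) (hh n) hn ξ) 2
    refine h2.trans (le_of_eq ?_)
    by_cases hξ : ξ ∈ Metric.closedBall (0 : ℝ × ℝ) R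
    · rw [Set.indicator_of_mem hξ, Set.indicator_of_mem hξ]
    · rw [Set.indicator_of_notMem hξ, Set.indicator_of_notMem hξ, zero_pow two_ne_zero]
  · rw [integrable_indicator_iff Metric.isClosed_closedBall.measurableSet]
    exact (continuous_const.continuousOn).integrableOn_compact (isCompact_closedBall _ _)
  · refine Eventually.of_forall fun ξ => ?_
    have h2 := rnd_tendsto hh h0 ξ
    have h3 : Tendsto (fun n => ‖g (rnd (h n) ξ)‖) atTop (𝓝 ‖g ξ‖) :=
      ((hg.tendsto ξ).comp h2).norm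
    exact h3.pow 2

end Pool.Agent.Hyp
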