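import Pool.Agent.Hyp.StepI
import Pool.Agent.Hyp.DiscZ

/-!
# Module LimB: the discrete inequality in integral form

**PROOF.** Put `h = (1/2)^H`, `A = 2 H` (so `2^A = 4^H = h⁻²`), `B = ⌊R * 2^H⌋₊`,
`F = (Finset.Icc (-B) B) ×ˢ (Finset.Icc (-B) B)` (integers), `mk = sy Φ (2^k)`.
(1) If `(a, b) ∉ F` then `|h a| > R` or `|h b| > R`, so `ψ (h a, h b) = 0`.  By `integral_step` (for the
function `(a, b) ↦ mk (h a, h b) ψ (h a, h b) * ex x (h a, h b)`)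
`fd h (mk ψ) x = h^2 ∑ over (a,b) ∈ F of mk (h a, h b) ψ (h a, h b) ex x (h a, h b)`; similarly
`∫ ‖ψ (rnd h ξ)‖^2 = h^2 ∑ over (a,b) ∈ F of ‖ψ (h a, h b)‖^2`.
(2) `mk (h a, h b) = Φ (h^4 a^2 b^2 / 2^k) = Φ (a^2 b^2 / 2^(k + 4 H))`.  Put `K' = K.image (· + 4H)`
(same cardinality).  For integers `s, t` and `x = (h (s + s0), h (t + t0))`,
`ex x (h a, h b) = exp (2πi (a (s + s0) + b (t + t0)) / 2^A)` since `h^2 = 2^(-A)`.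
(3) `discZ` with `p (a, b) = h^2 ψ (h a, h b)`, `s0 = t0 = - 2^(2H-1)`, `F`: for `(a, b) ∈ F`,
`2 |a| ≤ 2 R 2^H < 2^H 2^H = 2^A`.  So
`∑ s ∑ t (⨆ k : K, ‖fd h (mk ψ) (h (s+s0), h (t+t0))‖)^2 ≤ 10^25 D^2 r^8 4^A ∑ h^4 ‖ψ‖^2`
and `4^A h^4 = 1` (`4^A = 2^(4H)`), so the right side is `10^25 D^2 r^8 * ∑ over F ‖ψ (h a, h b)‖^2`;
multiply by `h^2`.
(4) Left side: `x ∈ [-2^(H-1), 2^(H-1))^2` iff `⌊x.1/h⌋, ⌊x.2/h⌋ ∈ [-2^(2H-1), 2^(2H-1))`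
(`2^(H-1)/h = 2^(2H-1)` is an integer), and `rnd h x = (h ⌊x.1/h⌋, h ⌊x.2/h⌋)`; `lintegral_step` with
`G z = indicator of these z * ENNReal.ofReal ((⨆ k, ‖fd h (mk ψ) (h z.1, h z.2)‖)^2)`; the `tsum` is the
finite double sum over `s, t ∈ range (2^(2H))` shifted by `s0, t0`.
-/

set_option autoImplicit false

namespace Pool.Agent.Hyp

open MeasureTheory ENNReal

/-- the big square -/
def box (H : ℕ) : Set (ℝ × ℝ) :=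
  {x | (-(2 : ℝ) ^ ((H : ℤ) - 1) ≤ x.1 ∧ x.1 < (2 : ℝ) ^ ((H : ℤ) - 1)) ∧
    (-(2 : ℝ) ^ ((H : ℤ) - 1) ≤ x.2 ∧ x.2 < (2 : ℝ) ^ ((H : ℤ) - 1))}

theorem limB_inv (H : ℕ) : ((1 / 2 : ℝ)) ^ H = ((2 : ℝ) ^ H)⁻¹ := by
  rw [one_div, inv_pow]

theorem limB_sy (Φ : ℝ → ℂ) (H : ℕ) (k : ℤ) (a b : ℤ) :
    sy Φ (2 ^ k) ((1 / 2 : ℝ) ^ H * a, (1 / 2 : ℝ) ^ H * b) =
      Φ ((a : ℝ) ^ 2 * (b : ℝ) ^ 2 / 2 ^ (k + 4 * (H : ℤ))) := by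
  unfold sy
  congr 1
  have e1 : (2 : ℝ) ^ (4 * (H : ℤ)) = ((2 : ℝ) ^ H) ^ 4 := by
    rw [← pow_mul, ← zpow_natCast]
    congr 1
    push_cast
    ring
  rw [zpow_add₀ two_ne_zero, e1, limB_inv]
  field_simp

theorem limB_ex (H : ℕ) (u v a b : ℤ) :
    ex ((1 / 2 : ℝ) ^ H * (u : ℝ), (1 / 2 : ℝ) ^ H * (v : ℝ))
      ((1 / 2 : ℝ) ^ H * (a : ℝ), (1 / 2 : ℝ) ^ H * (b : ℝ)) =
      Complex.exp (2 * Real.pi * Complex.I * ((a : ℂ) * u + (b : ℂ) * v) / 2 ^ (2 * H)) := by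
  unfold ex
  congr 1
  have e1 : ((1 / 2 : ℝ) ^ H : ℝ) = ((2 : ℝ) ^ H)⁻¹ := limB_inv H
  simp only [e1]
  push_cast
  have e2 : (2 : ℂ) ^ (2 * H) = ((2 : ℂ) ^ H) ^ 2 := by rw [← pow_mul, mul_comm]
  rw [e2]
  field_simp

/-- shift of a summation range -/
theorem limB_shift (N : ℕ) (f : ℤ → ℝ) :
    ∑ a ∈ Finset.Ico (-(N : ℤ)) N, f a = ∑ s ∈ Finset.range (2 * N), f (s + -(N : ℤ)) := by
  refine Finset.sum_nbij' (fun a => (a + N).toNat) (fun s => (s : ℤ) + -(N : ℤ)) ?_ ?_ ?_ ?_ ?_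
  · intro a ha
    rw [Finset.mem_Ico] at ha
    rw [Finset.mem_range]
    omega
  · intro s hs
    rw [Finset.mem_range] at hs
    rw [Finset.mem_Ico]
    omega
  · intro a ha
    rw [Finset.mem_Ico] at ha
    show (((a + N).toNat : ℕ) : ℤ) + -(N : ℤ) = a
    omega
  · intro s hs
    show ((s : ℤ) + -(N : ℤ) + N).toNat = s
    omega
  · intro a ha
    rw [Finset.mem_Ico] at ha
    show f a = f ((((a + N).toNat : ℕ) : ℤ) + -(N : ℤ))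
    congr 1
    omega

theorem limB_box (H : ℕ) (y : ℝ) :
    (-(2 : ℝ) ^ (((H + 1 : ℕ) : ℤ) - 1) ≤ y ∧ y < (2 : ℝ) ^ (((H + 1 : ℕ) : ℤ) - 1)) ↔
      ⌊y / (1 / 2 : ℝ) ^ (H + 1)⌋ ∈ Finset.Ico (-((2 ^ (2 * H + 1) : ℕ) : ℤ))
        ((2 ^ (2 * H + 1) : ℕ) : ℤ) := by
  have e1 : (2 : ℝ) ^ (((H + 1 : ℕ) : ℤ) - 1) = 2 ^ H := by
    have : (((H + 1 : ℕ) : ℤ) - 1) = (H : ℤ) := by push_cast; ring
    rw [this, zpow_natCast]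
  have e2 : y / (1 / 2 : ℝ) ^ (H + 1) = y * 2 ^ (H + 1) := by
    rw [limB_inv, div_inv_eq_mul]
  have hp : (0 : ℝ) < 2 ^ (H + 1) := by positivity
  have e3 : (2 : ℝ) ^ (2 * H + 1) = 2 ^ H * 2 ^ (H + 1) := by
    rw [← pow_add]
    congr 1
    ring
  rw [e1, e2, Finset.mem_Ico, Int.le_floor, Int.floor_lt]
  push_cast
  rw [e3, ← neg_mul, mul_le_mul_iff_left₀ hp, mul_lt_mul_iff_left₀ hp]

theorem lim_step {Φ : ℝ → ℂ} {D : ℝ} (h1 : ∀ s, 0 ≤ s → ‖Φ s‖ ≤ D)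
    (h2 : ∀ s, 0 ≤ s → s * ‖Φ s‖ ≤ D) (h3 : ∀ s, 0 ≤ s → ‖Φ s - Φ 0‖ ≤ D * s)
    (K : Finset ℤ) (r : ℕ) (hr : 1 ≤ r) (hK : Real.log (K.card + 3) ≤ Real.exp r)
    {ψ : ℝ × ℝ → ℂ} {R : ℝ} (hR : 0 ≤ R) (hψ : ∀ ξ, ψ ξ ≠ 0 → |ξ.1| ≤ R ∧ |ξ.2| ≤ R)
    (H : ℕ) (hH : 1 ≤ H) (hHR : 2 * R < 2 ^ H) :
    ∫⁻ x in box H, ENNReal.ofReal ((⨆ k : K,
        ‖fd ((1 / 2) ^ H) (fun ξ => sy Φ (2 ^ (k : ℤ)) ξ * ψ ξ) (rnd ((1 / 2) ^ H) x)‖) ^ 2) ≤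
      ENNReal.ofReal (10 ^ 25 * D ^ 2 * (r : ℝ) ^ 8 *
        ∫ ξ : ℝ × ℝ, ‖ψ (rnd ((1 / 2) ^ H) ξ)‖ ^ 2) := by
  classical
  obtain ⟨H, rfl⟩ : ∃ H', H = H' + 1 := ⟨H - 1, by omega⟩
  have hpos : (0 : ℝ) < (1 / 2) ^ (H + 1) := by positivity
  have hmul : (1 / 2 : ℝ) ^ (H + 1) * 2 ^ (H + 1) = 1 := by
    rw [← mul_pow]
    norm_num
  set B : ℤ := ⌊R * 2 ^ (H + 1)⌋ with hB
  set F : Finset (ℤ × ℤ) := (Finset.Icc (-B) B) ×ˢ (Finset.Icc (-B) B) with hF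
  set h : ℝ := (1 / 2) ^ (H + 1) with hh
  have hout : ∀ z : ℤ × ℤ, z ∉ F → ψ (h * z.1, h * z.2) = 0 := by
    intro z hz
    by_contra hne
    apply hz
    obtain ⟨e1, e2⟩ := hψ _ hne
    have key : ∀ a : ℤ, |h * (a : ℝ)| ≤ R → a ∈ Finset.Icc (-B) B := by
      intro a ha
      have h5 : |(a : ℝ)| ≤ R * 2 ^ (H + 1) := by
        rw [abs_mul, abs_of_pos hpos] at ha
        calc |(a : ℝ)| = (h * 2 ^ (H + 1)) * |(a : ℝ)| := by rw [hmul, one_mul]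
          _ = (h * |(a : ℝ)|) * 2 ^ (H + 1) := by ring
          _ ≤ R * 2 ^ (H + 1) := mul_le_mul_of_nonneg_right ha (by positivity)
      have h6 := abs_le.1 h5
      rw [Finset.mem_Icc]
      constructor
      · have h7 : -a ≤ B := Int.le_floor.2 (by push_cast; linarith [h6.1])
        linarith
      · exact Int.le_floor.2 h6.2
    exact Finset.mem_product.2 ⟨key _ e1, key _ e2⟩
  have hfd : ∀ (k : ℤ) (x : ℝ × ℝ), fd h (fun ξ => sy Φ (2 ^ k) ξ * ψ ξ) x =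
      (h ^ 2) • ∑ z ∈ F, (sy Φ (2 ^ k) (h * z.1, h * z.2) * ψ (h * z.1, h * z.2)) *
        ex x (h * z.1, h * z.2) := by
    intro k x
    exact integral_step hpos F (fun z : ℤ × ℤ =>
      (sy Φ (2 ^ k) (h * z.1, h * z.2) * ψ (h * z.1, h * z.2)) * ex x (h * z.1, h * z.2))
      (fun z hz => by simp only [hout z hz, mul_zero, zero_mul])
  have hint : ∫ ξ : ℝ × ℝ, ‖ψ (rnd h ξ)‖ ^ 2 =
      (h ^ 2) • ∑ z ∈ F, ‖ψ (h * z.1, h * z.2)‖ ^ 2 := by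
    exact integral_step hpos F (fun z : ℤ × ℤ => ‖ψ (h * z.1, h * z.2)‖ ^ 2)
      (fun z hz => by simp only [hout z hz, norm_zero]; norm_num)
  set K' : Finset ℤ := K.image (fun k => k + 4 * ((H + 1 : ℕ) : ℤ)) with hK'
  have hK'c : Real.log (K'.card + 3) ≤ Real.exp r := by
    refine le_trans (Real.log_le_log (by positivity) ?_) hK
    have : (K'.card : ℝ) ≤ K.card := by exact_mod_cast Finset.card_image_le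
    linarith
  have hFb : ∀ ξ ∈ F, 2 * |ξ.1| < 2 ^ (2 * (H + 1)) ∧ 2 * |ξ.2| < 2 ^ (2 * (H + 1)) := by
    intro ξ hξ
    rw [hF, Finset.mem_product] at hξ
    have hBr : 2 * B < 2 ^ (2 * (H + 1)) := by
      have h5 : ((2 * B : ℤ) : ℝ) < ((2 ^ (2 * (H + 1)) : ℤ) : ℝ) := by
        push_cast
        have h6 : (B : ℝ) ≤ R * 2 ^ (H + 1) := Int.floor_le _
        have h7 : (2 : ℝ) ^ (2 * (H + 1)) = 2 ^ (H + 1) * 2 ^ (H + 1) := by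
          rw [← pow_add]
          congr 1
          ring
        rw [h7]
        have h8 : (2 * R) * 2 ^ (H + 1) < 2 ^ (H + 1) * 2 ^ (H + 1) :=
          mul_lt_mul_of_pos_right hHR (by positivity)
        linarith
      exact_mod_cast h5
    have key : ∀ a : ℤ, a ∈ Finset.Icc (-B) B → 2 * |a| < 2 ^ (2 * (H + 1)) := by
      intro a ha
      rw [Finset.mem_Icc] at ha
      have : |a| ≤ B := abs_le.2 ha
      linarith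
    exact ⟨key _ hξ.1, key _ hξ.2⟩
  set N : ℕ := 2 ^ (2 * H + 1) with hN
  have hNN : 2 * N = 2 ^ (2 * (H + 1)) := by
    rw [hN, ← pow_succ']
    congr 1
  have hd := discZ h1 h2 h3 (2 * (H + 1)) K' r hr hK'c F hFb
    (fun z => ((h : ℂ) ^ 2) * ψ (h * z.1, h * z.2)) (-(N : ℤ)) (-(N : ℤ))
  set J : ℤ → ℤ → ℝ := fun s t => ⨆ k : K,
    ‖fd h (fun ξ => sy Φ (2 ^ (k : ℤ)) ξ * ψ ξ) (h * s, h * t)‖ with hJ
  have hJ0 : ∀ s t, 0 ≤ J s t := fun s t => Real.iSup_nonneg fun _ => norm_nonneg _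
  have hterm : ∀ (k : ℤ) (s t : ℕ), fd h (fun ξ => sy Φ (2 ^ k) ξ * ψ ξ)
      (h * (((s : ℤ) + -(N : ℤ) : ℤ) : ℝ), h * (((t : ℤ) + -(N : ℤ) : ℤ) : ℝ)) =
      ∑ ξ ∈ F, Φ ((ξ.1 : ℝ) ^ 2 * (ξ.2 : ℝ) ^ 2 / 2 ^ (k + 4 * ((H + 1 : ℕ) : ℤ))) *
        (((h : ℂ) ^ 2) * ψ (h * ξ.1, h * ξ.2)) *
          Complex.exp (2 * Real.pi * Complex.I *
            ((ξ.1 : ℂ) * (s + ((-(N : ℤ) : ℤ) : ℂ)) + (ξ.2 : ℂ) * (t + ((-(N : ℤ) : ℤ) : ℂ))) /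
              2 ^ (2 * (H + 1))) := by
    intro k s t
    rw [hfd, Finset.smul_sum]
    refine Finset.sum_congr rfl fun ξ _ => ?_
    rw [hh, limB_sy, limB_ex, Complex.real_smul]
    push_cast
    ring
  have hA : ∑ s ∈ Finset.range (2 * N), ∑ t ∈ Finset.range (2 * N),
      J ((s : ℤ) + -(N : ℤ)) ((t : ℤ) + -(N : ℤ)) ^ 2 ≤
      10 ^ 25 * D ^ 2 * (r : ℝ) ^ 8 * 4 ^ (2 * (H + 1)) *
        ∑ ξ ∈ F, ‖((h : ℂ) ^ 2) * ψ (h * ξ.1, h * ξ.2)‖ ^ 2 := by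
    refine le_trans ?_ hd
    rw [hNN]
    refine Finset.sum_le_sum fun s _ => Finset.sum_le_sum fun t _ => ?_
    refine pow_le_pow_left₀ (hJ0 _ _) ?_ 2
    refine Real.iSup_le (fun k => ?_) (Real.iSup_nonneg fun _ => norm_nonneg _)
    rw [hterm k s t]
    exact le_ciSup (f := fun k' : K' => ‖∑ ξ ∈ F,
        Φ ((ξ.1 : ℝ) ^ 2 * (ξ.2 : ℝ) ^ 2 / 2 ^ (k' : ℤ)) *
          (((h : ℂ) ^ 2) * ψ (h * ξ.1, h * ξ.2)) *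
          Complex.exp (2 * Real.pi * Complex.I *
            ((ξ.1 : ℂ) * (s + ((-(N : ℤ) : ℤ) : ℂ)) + (ξ.2 : ℂ) * (t + ((-(N : ℤ) : ℤ) : ℂ))) /
              2 ^ (2 * (H + 1)))‖) (Set.finite_range _).bddAbove
      ⟨(k : ℤ) + 4 * ((H + 1 : ℕ) : ℤ), Finset.mem_image_of_mem _ k.2⟩
  set Z : Finset (ℤ × ℤ) := (Finset.Ico (-(N : ℤ)) N) ×ˢ (Finset.Ico (-(N : ℤ)) N) with hZ
  have hmem : ∀ x : ℝ × ℝ, x ∈ box (H + 1) ↔ (⌊x.1 / h⌋, ⌊x.2 / h⌋) ∈ Z := by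
    intro x
    rw [hZ, Finset.mem_product]
    exact and_congr (limB_box H x.1) (limB_box H x.2)
  have hbm : MeasurableSet (box (H + 1)) :=
    measurableSet_Ico.prod measurableSet_Ico
  set G : ℤ × ℤ → ℝ≥0∞ := fun z => if z ∈ Z then ENNReal.ofReal (J z.1 z.2 ^ 2) else 0 with hG
  have hL : ∫⁻ x in box (H + 1), ENNReal.ofReal ((⨆ k : K,
        ‖fd h (fun ξ => sy Φ (2 ^ (k : ℤ)) ξ * ψ ξ) (rnd h x)‖) ^ 2) =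
      ∫⁻ x : ℝ × ℝ, G (⌊x.1 / h⌋, ⌊x.2 / h⌋) := by
    rw [← lintegral_indicator hbm]
    refine lintegral_congr fun x => ?_
    by_cases hx : x ∈ box (H + 1)
    · rw [Set.indicator_of_mem hx, hG]
      simp only
      rw [if_pos ((hmem x).1 hx)]
      rfl
    · rw [Set.indicator_of_notMem hx, hG]
      simp only
      rw [if_neg (fun h0 => hx ((hmem x).2 h0))]
  rw [hL, lintegral_step hpos, tsum_eq_sum (s := Z) (fun z hz => if_neg hz)]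
  have hS : ∑ z ∈ Z, G z = ENNReal.ofReal (∑ z ∈ Z, J z.1 z.2 ^ 2) := by
    rw [ENNReal.ofReal_sum_of_nonneg fun z _ => sq_nonneg _]
    exact Finset.sum_congr rfl fun z hz => if_pos hz
  rw [hS, ← ENNReal.ofReal_mul (by positivity)]
  refine ENNReal.ofReal_le_ofReal ?_
  have hS2 : ∑ z ∈ Z, J z.1 z.2 ^ 2 = ∑ s ∈ Finset.range (2 * N), ∑ t ∈ Finset.range (2 * N),
      J ((s : ℤ) + -(N : ℤ)) ((t : ℤ) + -(N : ℤ)) ^ 2 := by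
    rw [hZ, Finset.sum_product, limB_shift N (fun a => ∑ b ∈ Finset.Ico (-(N : ℤ)) N, J a b ^ 2)]
    refine Finset.sum_congr rfl fun s _ => ?_
    exact limB_shift N (fun b => J ((s : ℤ) + -(N : ℤ)) b ^ 2)
  rw [hS2, hint, smul_eq_mul]
  have hn : ∀ ξ : ℤ × ℤ, ‖((h : ℂ) ^ 2) * ψ (h * ξ.1, h * ξ.2)‖ ^ 2 =
      h ^ 4 * ‖ψ (h * ξ.1, h * ξ.2)‖ ^ 2 := by
    intro ξ
    rw [norm_mul, norm_pow, Complex.norm_real, Real.norm_of_nonneg hpos.le]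
    ring
  simp only [hn] at hA
  rw [← Finset.mul_sum] at hA
  have h4 : (4 : ℝ) ^ (2 * (H + 1)) * h ^ 4 = 1 := by
    have e1 : (4 : ℝ) ^ (2 * (H + 1)) = (2 ^ (H + 1)) ^ 4 := by
      rw [show (4 : ℝ) = 2 ^ 2 by norm_num, ← pow_mul, ← pow_mul]
      congr 1
      ring
    rw [e1, ← mul_pow, mul_comm, hmul, one_pow]
  calc h ^ 2 * ∑ s ∈ Finset.range (2 * N), ∑ t ∈ Finset.range (2 * N),
      J ((s : ℤ) + -(N : ℤ)) ((t : ℤ) + -(N : ℤ)) ^ 2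
      ≤ h ^ 2 * (10 ^ 25 * D ^ 2 * (r : ℝ) ^ 8 * 4 ^ (2 * (H + 1)) *
        (h ^ 4 * ∑ ξ ∈ F, ‖ψ (h * ξ.1, h * ξ.2)‖ ^ 2)) :=
        mul_le_mul_of_nonneg_left hA (by positivity)
    _ = 10 ^ 25 * D ^ 2 * (r : ℝ) ^ 8 * ((4 ^ (2 * (H + 1)) * h ^ 4) *
        (h ^ 2 * ∑ ξ ∈ F, ‖ψ (h * ξ.1, h * ξ.2)‖ ^ 2)) := by ring
    _ = _ := by rw [h4, one_mul]

end Pool.Agent.Hyp
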