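import Pool.Agent.Hyp.LimA
import Pool.Agent.Hyp.LimB

/-!
# Module LimC: the maximal inequality on the plane for compactly supported Fourier transforms

**PROOF.** `ψ` has compact support: `ψ ξ ≠ 0 → |ξ.1| ≤ R ∧ |ξ.2| ≤ R` for some `R ≥ 0`.  For `n ∈ ℕ` put
`h n = (1/2)^n`.  For every `x` and `k ∈ K`: `rnd (h n) x → x` (`rnd_sub_le`) and
`fd (h n) (mk ψ) (rnd (h n) x) → fi (mk ψ) x` (`fd_tendsto`; `mk ψ = sy Φ (2^k) · ψ` is continuous
with compact support), and `x ∈ box n` for all large `n`.  So with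
`f n x = indicator (box n) (ofReal ((⨆ k : K, ‖fd (h n) (mk ψ) (rnd (h n) x)‖)^2))`, `f n x` converges to
`ofReal ((⨆ k : K, ‖fi (mk ψ) x‖)^2)` (finite supremum: `tendsto` of the supremum of finitely many
convergent sequences, e.g. by `|⨆ a_k - ⨆ b_k| ≤ ∑ |a_k - b_k|`; `K = ∅` trivial).  Fatou
(`lintegral_liminf_le`, `f n` is measurable: finite supremum of functions of `(⌊x.1/h⌋, ⌊x.2/h⌋)`, or
`rnd` measurable and `x ↦ fd h g x` continuous) gives
`∫⁻ lim ≤ liminf ∫⁻ f n ≤ liminf ofReal (C ∫ ‖ψ (rnd (h n) ξ)‖^2) = ofReal (C ∫ ‖ψ‖^2)` by `lim_step`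
(all large `n`) and `sq_tendsto`.
-/

set_option autoImplicit false

namespace Pool.Agent.Hyp

open MeasureTheory ENNReal Filter Topology

theorem limC_measurable_rnd (h : ℝ) : Measurable (rnd h) := by
  unfold rnd
  refine Measurable.prodMk ?_ ?_
  · have : Measurable (fun a : ℝ × ℝ => ⌊a.1 / h⌋) := by
      exact Int.measurable_floor.comp (measurable_fst.div_const h)
    exact (measurable_const).mul ((measurable_from_top (f := fun z : ℤ => (z : ℝ))).comp this)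
  · have : Measurable (fun a : ℝ × ℝ => ⌊a.2 / h⌋) := by
      exact Int.measurable_floor.comp (measurable_snd.div_const h)
    exact (measurable_const).mul ((measurable_from_top (f := fun z : ℤ => (z : ℝ))).comp this)

theorem limC_continuous_ex : Continuous (fun p : (ℝ × ℝ) × (ℝ × ℝ) => ex p.1 p.2) := by
  unfold ex
  fun_prop

theorem limC_measurable_fd (h : ℝ) {g : ℝ × ℝ → ℂ} (hg : Continuous g) :
    Measurable (fun x : ℝ × ℝ => fd h g x) := by
  have h1 : Measurable (fun p : (ℝ × ℝ) × (ℝ × ℝ) => g (rnd h p.2) * ex p.1 (rnd h p.2)) := by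
    refine Measurable.mul ?_ ?_
    · exact hg.measurable.comp ((limC_measurable_rnd h).comp measurable_snd)
    · have h2 : Measurable (fun p : (ℝ × ℝ) × (ℝ × ℝ) => (p.1, rnd h p.2)) :=
        measurable_fst.prodMk ((limC_measurable_rnd h).comp measurable_snd)
      exact limC_continuous_ex.measurable.comp h2
  have h3 := MeasureTheory.StronglyMeasurable.integral_prod_right
    (f := fun (x : ℝ × ℝ) (ξ : ℝ × ℝ) => g (rnd h ξ) * ex x (rnd h ξ))
    (ν := (volume : Measure (ℝ × ℝ))) h1.stronglyMeasurable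
  unfold fd
  exact h3.measurable

theorem limC_measurableSet_box (n : ℕ) : MeasurableSet (box n) := by
  unfold box
  refine MeasurableSet.inter ?_ ?_
  · exact MeasurableSet.inter (measurableSet_le measurable_const measurable_fst)
      (measurableSet_lt measurable_fst measurable_const)
  · exact MeasurableSet.inter (measurableSet_le measurable_const measurable_snd)
      (measurableSet_lt measurable_snd measurable_const)

theorem limC_two_zpow (n : ℕ) : (2 : ℝ) ^ ((n : ℤ) - 1) = 2 ^ n / 2 := by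
  rw [zpow_sub₀ (by norm_num), zpow_natCast, zpow_one]

theorem limC_mem_box (x : ℝ × ℝ) : ∀ᶠ n : ℕ in atTop, x ∈ box n := by
  have h2 : Tendsto (fun n : ℕ => (2 : ℝ) ^ n) atTop atTop :=
    tendsto_pow_atTop_atTop_of_one_lt (by norm_num)
  filter_upwards [h2.eventually_gt_atTop (2 * |x.1|), h2.eventually_gt_atTop (2 * |x.2|)] with n h3 h4
  unfold box
  simp only [Set.mem_ofPred_eq, limC_two_zpow]
  have a1 := neg_abs_le x.1
  have a2 := le_abs_self x.1
  have a3 := neg_abs_le x.2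
  have a4 := le_abs_self x.2
  refine ⟨⟨?_, ?_⟩, ?_, ?_⟩ <;> linarith

theorem limC_iSup {ι : Type} [Finite ι] {a : ℕ → ι → ℝ} {b : ι → ℝ}
    (h : ∀ i, Tendsto (fun n => a n i) atTop (𝓝 (b i))) :
    Tendsto (fun n => ⨆ i, a n i) atTop (𝓝 (⨆ i, b i)) := by
  classical
  have := Fintype.ofFinite ι
  rcases isEmpty_or_nonempty ι with he | hne
  · simp only [Real.iSup_of_isEmpty]
    exact tendsto_const_nhds
  · have h1 : ∀ f : ι → ℝ, ⨆ i, f i = Finset.univ.sup' Finset.univ_nonempty f := fun f =>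
      (Finset.sup'_univ_eq_ciSup f).symm
    simp only [h1]
    exact Filter.Tendsto.finset_sup'_nhds_apply Finset.univ_nonempty (fun i _ => h i)

theorem lim_main {Φ : ℝ → ℂ} (hΦ : Continuous Φ) {D : ℝ} (h1 : ∀ s, 0 ≤ s → ‖Φ s‖ ≤ D)
    (h2 : ∀ s, 0 ≤ s → s * ‖Φ s‖ ≤ D) (h3 : ∀ s, 0 ≤ s → ‖Φ s - Φ 0‖ ≤ D * s)
    (K : Finset ℤ) (r : ℕ) (hr : 1 ≤ r) (hK : Real.log (K.card + 3) ≤ Real.exp r)
    {ψ : ℝ × ℝ → ℂ} (hψ : Continuous ψ) (hc : HasCompactSupport ψ) :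
    ∫⁻ x : ℝ × ℝ, ENNReal.ofReal ((⨆ k : K,
        ‖fi (fun ξ => sy Φ (2 ^ (k : ℤ)) ξ * ψ ξ) x‖) ^ 2) ≤
      ENNReal.ofReal (10 ^ 25 * D ^ 2 * (r : ℝ) ^ 8 * ∫ ξ : ℝ × ℝ, ‖ψ ξ‖ ^ 2) := by
  classical
  set h : ℕ → ℝ := fun n => (1 / 2) ^ n with hh
  have hpos : ∀ n, 0 < h n := fun n => by positivity
  have h0 : Tendsto h atTop (𝓝 0) :=
    tendsto_pow_atTop_nhds_zero_of_lt_one (by norm_num) (by norm_num)
  -- the radius
  obtain ⟨R, hR⟩ := hc.isCompact.isBounded.subset_closedBall (0 : ℝ × ℝ)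
  have hψR : ∀ ξ, ψ ξ ≠ 0 → |ξ.1| ≤ max R 0 ∧ |ξ.2| ≤ max R 0 := by
    intro ξ hξ
    have h4 : ξ ∈ tsupport ψ := subset_tsupport ψ hξ
    have h5 := hR h4
    rw [mem_closedBall_zero_iff] at h5
    constructor
    · exact ((norm_fst_le ξ).trans h5).trans (le_max_left _ _)
    · exact ((norm_snd_le ξ).trans h5).trans (le_max_left _ _)
  -- the functions
  have hcont : ∀ k : ℤ, Continuous (fun ξ : ℝ × ℝ => sy Φ (2 ^ k) ξ * ψ ξ) := by
    intro k
    unfold sy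
    refine Continuous.mul (hΦ.comp ?_) hψ
    fun_prop
  have hcomp : ∀ k : ℤ, HasCompactSupport (fun ξ : ℝ × ℝ => sy Φ (2 ^ k) ξ * ψ ξ) := fun k =>
    hc.mul_left
  have hrnd : ∀ x : ℝ × ℝ, Tendsto (fun n => rnd (h n) x) atTop (𝓝 x) := by
    intro x
    rw [tendsto_iff_norm_sub_tendsto_zero]
    exact squeeze_zero (fun _ => norm_nonneg _) (fun n => rnd_sub_le (hpos n) x) h0
  have hfd : ∀ (k : ℤ) (x : ℝ × ℝ),
      Tendsto (fun n => fd (h n) (fun ξ => sy Φ (2 ^ k) ξ * ψ ξ) (rnd (h n) x)) atTop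
        (𝓝 (fi (fun ξ => sy Φ (2 ^ k) ξ * ψ ξ) x)) := fun k x =>
    fd_tendsto (hcont k) (hcomp k) hpos h0 (hrnd x)
  set F : ℕ → ℝ × ℝ → ℝ≥0∞ := fun n x => ENNReal.ofReal ((⨆ k : K,
        ‖fd (h n) (fun ξ => sy Φ (2 ^ (k : ℤ)) ξ * ψ ξ) (rnd (h n) x)‖) ^ 2) with hF
  have hFlim : ∀ x, Tendsto (fun n => (box n).indicator (F n) x) atTop
      (𝓝 (ENNReal.ofReal ((⨆ k : K, ‖fi (fun ξ => sy Φ (2 ^ (k : ℤ)) ξ * ψ ξ) x‖) ^ 2))) := by
    intro x
    have h4 : Tendsto (fun n => F n x) atTop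
        (𝓝 (ENNReal.ofReal ((⨆ k : K, ‖fi (fun ξ => sy Φ (2 ^ (k : ℤ)) ξ * ψ ξ) x‖) ^ 2))) := by
      simp only [hF]
      refine (ENNReal.continuous_ofReal.tendsto _).comp ?_
      refine Tendsto.pow ?_ 2
      exact limC_iSup (fun k : K => (hfd k x).norm)
    refine h4.congr' ?_
    filter_upwards [limC_mem_box x] with n hn
    rw [Set.indicator_of_mem hn]
  have hFmeas : ∀ n, Measurable (F n) := by
    intro n
    simp only [hF]
    refine ENNReal.measurable_ofReal.comp ?_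
    refine Measurable.pow_const ?_ 2
    refine Measurable.iSup (fun k => ?_)
    exact ((limC_measurable_fd (h n) (hcont k)).comp (limC_measurable_rnd (h n))).norm
  have hfatou := lintegral_liminf_le (u := (atTop : Filter ℕ)) (μ := (volume : Measure (ℝ × ℝ)))
    (fun n => (hFmeas n).indicator (limC_measurableSet_box n))
  have hleft : ∫⁻ x : ℝ × ℝ, ENNReal.ofReal ((⨆ k : K,
        ‖fi (fun ξ => sy Φ (2 ^ (k : ℤ)) ξ * ψ ξ) x‖) ^ 2) =
      ∫⁻ x : ℝ × ℝ, liminf (fun n => (box n).indicator (F n) x) atTop := by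
    refine lintegral_congr (fun x => ?_)
    exact (hFlim x).liminf_eq.symm
  rw [hleft]
  refine hfatou.trans ?_
  have hlim : Tendsto (fun n => ENNReal.ofReal (10 ^ 25 * D ^ 2 * (r : ℝ) ^ 8 *
      ∫ ξ : ℝ × ℝ, ‖ψ (rnd (h n) ξ)‖ ^ 2)) atTop
      (𝓝 (ENNReal.ofReal (10 ^ 25 * D ^ 2 * (r : ℝ) ^ 8 * ∫ ξ : ℝ × ℝ, ‖ψ ξ‖ ^ 2))) := by
    refine (ENNReal.continuous_ofReal.tendsto _).comp ?_
    exact (sq_tendsto hψ hc hpos h0).const_mul _
  rw [← hlim.liminf_eq]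
  refine liminf_le_liminf ?_
  have hbig : Tendsto (fun n : ℕ => (2 : ℝ) ^ n) atTop atTop :=
    tendsto_pow_atTop_atTop_of_one_lt (by norm_num)
  filter_upwards [eventually_ge_atTop 1, hbig.eventually_gt_atTop (2 * max R 0)] with n hn1 hn2
  rw [lintegral_indicator (limC_measurableSet_box n)]
  exact lim_step h1 h2 h3 K r hr hK (le_max_right _ _) hψR n hn1 hn2

end Pool.Agent.Hyp
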