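import Mathlib

/-!
# Module Marks: derandomised choice of marks (pure combinatorics)

**PROOF.** Both sides are values of the function
`Φ p = (∑ z, a z * ∏ i ∈ C z, (1 - p i)) + ∑ i, p i * b i`, which is affine in each coordinate: for
`p` the indicator function of `S` it is the left side (`∏ i ∈ C z, (1 - 1_S i)` is `1` if `S` and
`C z` are disjoint and `0` otherwise).  Show by induction on a finset `T ⊆ ι` (`Finset.induction_on`):
there is `p' : ι → ℝ` with `0 ≤ p' ≤ 1`, `p' i ∈ {0, 1}` for `i ∈ T`, and `Φ p' ≤ Φ p`.  Step: insert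
`i` in `T`: `Φ (Function.update p' i θ) = (1 - θ) Φ (update p' i 0) + θ Φ (update p' i 1)` for
every `θ`, so for `θ = p' i ∈ [0, 1]` one of the two endpoints is `≤ Φ p'`.  Take `T = univ` and
`S = {i | p' i = 1}`.
-/

set_option autoImplicit false

namespace Pool.Agent.Hyp

open Finset

theorem marks_exist {ι ζ : Type} [Fintype ι] [DecidableEq ι] [Fintype ζ] (p : ι → ℝ)
    (hp0 : ∀ i, 0 ≤ p i) (hp1 : ∀ i, p i ≤ 1) (a : ζ → ℝ) (C : ζ → Finset ι) (b : ι → ℝ) :
    ∃ S : Finset ι, (∑ z, a z * (if Disjoint S (C z) then 1 else 0)) + ∑ i ∈ S, b i ≤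
      (∑ z, a z * ∏ i ∈ C z, (1 - p i)) + ∑ i, p i * b i := by
  classical
  set Φ : (ι → ℝ) → ℝ := fun p => (∑ z, a z * ∏ i ∈ C z, (1 - p i)) + ∑ i, p i * b i with hΦ
  have aff : ∀ (p : ι → ℝ) (i : ι), ∃ A B : ℝ, ∀ θ, Φ (Function.update p i θ) = A + θ * B := by
    intro p i
    refine ⟨(∑ z, a z * ∏ j ∈ (C z).erase i, (1 - p j)) + ∑ j ∈ univ.erase i, p j * b j,
      (∑ z, a z * (if i ∈ C z then -∏ j ∈ (C z).erase i, (1 - p j) else 0)) + b i,
      fun θ => ?_⟩
    have h1 : ∀ z, ∏ j ∈ C z, (1 - Function.update p i θ j) = ∏ j ∈ (C z).erase i, (1 - p j) +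
        θ * (if i ∈ C z then -∏ j ∈ (C z).erase i, (1 - p j) else 0) := by
      intro z
      have h2 : ∏ j ∈ (C z).erase i, (1 - Function.update p i θ j) =
          ∏ j ∈ (C z).erase i, (1 - p j) :=
        Finset.prod_congr rfl fun j hj => by
          rw [Function.update_of_ne (Finset.ne_of_mem_erase hj)]
      by_cases hi : i ∈ C z
      · rw [← Finset.mul_prod_erase _ _ hi, h2, if_pos hi, Function.update_self]
        ring
      · rw [if_neg hi, ← h2, Finset.erase_eq_of_notMem hi]
        ring
    have h3 : ∑ j, Function.update p i θ j * b j =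
        θ * b i + ∑ j ∈ univ.erase i, p j * b j := by
      rw [← Finset.add_sum_erase _ _ (mem_univ i), Function.update_self]
      congr 1
      exact Finset.sum_congr rfl fun j hj => by
        rw [Function.update_of_ne (Finset.ne_of_mem_erase hj)]
    have h4 : ∑ z, a z * (θ * (if i ∈ C z then -∏ j ∈ (C z).erase i, (1 - p j) else 0)) =
        θ * ∑ z, a z * (if i ∈ C z then -∏ j ∈ (C z).erase i, (1 - p j) else 0) := by
      rw [Finset.mul_sum]
      exact Finset.sum_congr rfl fun z _ => by ring
    simp only [hΦ, h1, h3]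
    simp only [mul_add, Finset.sum_add_distrib]
    rw [h4]
    ring
  have main : ∀ T : Finset ι, ∃ p' : ι → ℝ, (∀ i, 0 ≤ p' i) ∧ (∀ i, p' i ≤ 1) ∧
      (∀ i ∈ T, p' i = 0 ∨ p' i = 1) ∧ Φ p' ≤ Φ p := by
    intro T
    induction T using Finset.induction_on with
    | empty => exact ⟨p, hp0, hp1, by simp, le_rfl⟩
    | insert i T hi ih =>
      obtain ⟨p', h0, h1, hT, hle⟩ := ih
      obtain ⟨A, B, hAB⟩ := aff p' i
      have hself : Φ p' = A + p' i * B := by rw [← hAB (p' i), Function.update_eq_self]
      obtain ⟨θ, hθ, hle2⟩ : ∃ θ : ℝ, (θ = 0 ∨ θ = 1) ∧ A + θ * B ≤ A + p' i * B := by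
        rcases le_total 0 B with hB | hB
        · exact ⟨0, Or.inl rfl, by nlinarith [mul_nonneg (h0 i) hB]⟩
        · exact ⟨1, Or.inr rfl, by nlinarith [h1 i]⟩
      refine ⟨Function.update p' i θ, ?_, ?_, ?_, ?_⟩
      · intro j
        by_cases hj : j = i
        · rw [hj, Function.update_self]
          rcases hθ with rfl | rfl <;> norm_num
        · rw [Function.update_of_ne hj]
          exact h0 j
      · intro j
        by_cases hj : j = i
        · rw [hj, Function.update_self]
          rcases hθ with rfl | rfl <;> norm_num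
        · rw [Function.update_of_ne hj]
          exact h1 j
      · intro j hj
        by_cases hji : j = i
        · rw [hji, Function.update_self]
          exact hθ
        · rw [Function.update_of_ne hji]
          exact hT j (Finset.mem_of_mem_insert_of_ne hj hji)
      · rw [hAB θ]
        linarith
  obtain ⟨p', _, _, h01, hle⟩ := main univ
  refine ⟨univ.filter fun i => p' i = 1, le_trans (le_of_eq ?_) hle⟩
  simp only [hΦ]
  congr 1
  · refine Finset.sum_congr rfl fun z _ => ?_
    congr 1
    by_cases hd : Disjoint (univ.filter fun i => p' i = 1) (C z)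
    · rw [if_pos hd]
      symm
      refine Finset.prod_eq_one fun i hi => ?_
      rcases h01 i (mem_univ i) with h | h
      · rw [h, sub_zero]
      · exact absurd hi (Finset.disjoint_left.1 hd (by simp [h]))
    · rw [if_neg hd]
      symm
      rw [Finset.not_disjoint_iff] at hd
      obtain ⟨i, hi, hiC⟩ := hd
      have hi1 : p' i = 1 := by simpa using hi
      exact Finset.prod_eq_zero hiC (by rw [hi1, sub_self])
  · rw [Finset.sum_filter]
    refine Finset.sum_congr rfl fun i _ => ?_
    rcases h01 i (mem_univ i) with h | h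
    · rw [h, if_neg (by norm_num), zero_mul]
    · rw [h, if_pos rfl, one_mul]

end Pool.Agent.Hyp
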