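import Pool.Agent.Hyp.Defs
import Pool.Agent.Hyp.Marks

/-!
# Module MarkEx: existence of good marks

**PROOF.** Let `D` be the number of pairs `(x, y)`, `D = card (Bits A) ^ 2`, so
`av2 f = (∑ x, ∑ y, f x y) / D`.  Apply `marks_exist` with `ι = Cell A`,
`ζ = Bits A × Bits A × K` (`K` as a subtype), `p (n, m, x', y') = min 1 (X * c n m x' y' ^2)`,
`a (x, y, k) = (α / D) * [w x y = 1 and ρ^2 < VW c 0 k x y]`,
`C (x, y, k) = {cell n m x y | n + m < k, VW c (n + m + 1) k x y ≤ ρ^2}` (image of a set of pairs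
`(n, m)`), `b (n, m, x', y') = (β / D) * ∑ over (x, y) with cell n m x y = (n, m, x', y') of
g n m x y`.
(1) Left side: if `Bad1 c w K ρ M x y` then `w x y = 1` and for some `k ∈ K`: `ρ^2 < VW c 0 k x y` and
`M` is disjoint from `C (x, y, k)` (negation of `Good`).  So the first sum is
`≥ α av2 (1_Bad1)`.  The second sum is `β av2 (∑ n ∑ m [cell n m x y ∈ M] g n m x y)` (each pair
`(n, m), (x, y)` belongs to exactly one cell; exchange the sums).
(2) Right side, second sum: `∑ R, p R b R = (β/D) ∑ over n, m, x, y of p (cell n m x y) g n m x y` and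
`p (cell n m x y) ≤ X c n m x y ^2` (`adc_cell`).
(3) Right side, first sum: if `w x y = 1` and `ρ^2 < VW c 0 k x y` then
`∏ R ∈ C (x, y, k), (1 - p R) ≤ exp (- X ρ^2)`: `1 - min 1 u ≤ exp (-u)` for `u ≥ 0`, and
`∑ over R ∈ C of c_R^2 ≥ ρ^2`: let `l` be the largest `l ≤ k` with `ρ^2 < VW c l k x y` (exists,
`l = 0` is possible; `l < k` because `VW_self`); every `(n, m)` with `l ≤ n + m < k` has
`VW c (n+m+1) k x y ≤ ρ^2`, so it is in `C`, and the sum over these is `VW c l k x y > ρ^2`.  (The map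
`(n, m) ↦ cell n m x y` is injective, `cell_inj`.)  Hence the first sum is
`≤ (α/D) * K.card * exp(-X ρ^2) * #{(x,y) | w x y = 1} = α K.card exp(-Xρ^2) av2 w`.
-/

set_option autoImplicit false

namespace Pool.Agent.Hyp

open Finset Classical

/-- `av2` as a normalised double sum -/
theorem markEx_av2 {A : ℕ} (f : Bits A → Bits A → ℝ) :
    av2 f = (∑ x, ∑ y, f x y) / ((Fintype.card (Bits A) : ℝ) * (Fintype.card (Bits A) : ℝ)) := by
  unfold av2 av
  rw [← Finset.sum_div, div_div]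

/-- the sum over all cells which contain `(x, y)` -/
theorem markEx_sum_cell {A : ℕ} (φ : Cell A → ℝ) (x y : Bits A)
    (g : Fin A → Fin A → ℝ) :
    (∑ R : Cell A, φ R * (if cell R.1 R.2.1 x y = R then g R.1 R.2.1 else 0)) =
      ∑ n : Fin A, ∑ m : Fin A, φ (cell n m x y) * g n m := by
  rw [Fintype.sum_prod_type]
  refine Finset.sum_congr rfl fun n _ => ?_
  rw [Fintype.sum_prod_type]
  refine Finset.sum_congr rfl fun m _ => ?_
  rw [Finset.sum_eq_single ((cell n m x y).2.2)]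
  · have h : cell (n, m, (cell n m x y).2.2).1 (n, m, (cell n m x y).2.2).2.1 x y =
        (n, m, (cell n m x y).2.2) := rfl
    rw [if_pos h]
    rfl
  · intro q _ hq
    rw [if_neg, mul_zero]
    intro h
    apply hq
    have h2 := congrArg (fun R : Cell A => R.2.2) h
    exact h2.symm
  · intro h
    exact absurd (Finset.mem_univ _) h

/-- the pairs `(n, m)` whose mark makes the time `k` good -/
noncomputable def markExF {A : ℕ} (c : Coef A) (ρ : ℝ) (k : ℕ) (x y : Bits A) :
    Finset (Fin A × Fin A) :=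
  Finset.univ.filter fun q => (q.1 : ℕ) + q.2 < k ∧ VW c ((q.1 : ℕ) + q.2 + 1) k x y ≤ ρ ^ 2

theorem markEx_energy {A : ℕ} (c : Coef A) {ρ : ℝ} (k : ℕ) (x y : Bits A)
    (h : ρ ^ 2 < VW c 0 k x y) : ρ ^ 2 ≤ ∑ q ∈ markExF c ρ k x y, c q.1 q.2 x y ^ 2 := by
  set P : ℕ → Prop := fun l => ρ ^ 2 < VW c l k x y with hP
  set l := Nat.findGreatest P k with hl
  have hPl : P l := Nat.findGreatest_spec (P := P) (Nat.zero_le k) h
  have hlk : l ≤ k := Nat.findGreatest_le k
  have hgt : ∀ j, l < j → j ≤ k → ¬ P j := fun j hj hjk =>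
    Nat.findGreatest_is_greatest hj hjk
  refine hPl.le.trans ?_
  unfold VW
  rw [← Fintype.sum_prod_type' (f := fun (n m : Fin A) =>
    if l ≤ (n : ℕ) + m ∧ (n : ℕ) + m < k then c n m x y ^ 2 else 0)]
  rw [← Finset.sum_filter]
  refine Finset.sum_le_sum_of_subset_of_nonneg ?_ fun _ _ _ => sq_nonneg _
  intro q hq
  unfold markExF
  rw [Finset.mem_filter] at hq ⊢
  refine ⟨Finset.mem_univ _, hq.2.2, ?_⟩
  have := hgt ((q.1 : ℕ) + q.2 + 1) (by omega) (by omega)
  exact not_lt.mp this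

theorem mark_ex {A : ℕ} {c : Coef A} (hc : AdC c) {w : Bits A → Bits A → ℝ} (hw : Ind w)
    (K : Finset ℕ) {ρ X α β : ℝ} (hρ : 0 < ρ) (hX : 0 ≤ X) (hα : 0 ≤ α) (hβ : 0 ≤ β)
    (g : Fin A → Fin A → Bits A → Bits A → ℝ) (hg : ∀ n m x y, 0 ≤ g n m x y) :
    ∃ M : Finset (Cell A),
      α * av2 (fun x y => if Bad1 c w K ρ M x y then (1 : ℝ) else 0) +
        β * av2 (fun x y => ∑ n : Fin A, ∑ m : Fin A,
          if cell n m x y ∈ M then g n m x y else 0) ≤
      α * (K.card * Real.exp (-(X * ρ ^ 2)) * av2 w) +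
        β * (X * av2 (fun x y => ∑ n : Fin A, ∑ m : Fin A, c n m x y ^ 2 * g n m x y)) := by
  classical
  set p : Cell A → ℝ := fun R => min 1 (X * c R.1 R.2.1 R.2.2.1 R.2.2.2 ^ 2) with hp
  have hp0 : ∀ R, 0 ≤ p R := fun R => le_min zero_le_one (mul_nonneg hX (sq_nonneg _))
  have hp1 : ∀ R, p R ≤ 1 := fun R => min_le_left _ _
  set a : Bits A × Bits A × K → ℝ := fun z =>
    α * (if w z.1 z.2.1 = 1 ∧ ρ ^ 2 < VW c 0 (z.2.2 : ℕ) z.1 z.2.1 then (1 : ℝ) else 0) with ha
  set C : Bits A × Bits A × K → Finset (Cell A) := fun z =>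
    (markExF c ρ (z.2.2 : ℕ) z.1 z.2.1).image (fun q => cell q.1 q.2 z.1 z.2.1) with hC
  set b : Cell A → ℝ := fun R =>
    β * ∑ x, ∑ y, (if cell R.1 R.2.1 x y = R then g R.1 R.2.1 x y else 0) with hb
  obtain ⟨M, hM⟩ := marks_exist p hp0 hp1 a C b
  refine ⟨M, ?_⟩
  set D : ℝ := (Fintype.card (Bits A) : ℝ) * (Fintype.card (Bits A) : ℝ) with hD
  have hDpos : 0 < D := by
    have : (0 : ℝ) < Fintype.card (Bits A) := by exact_mod_cast Fintype.card_pos
    rw [hD]
    positivity
  have ha0 : ∀ z, 0 ≤ a z := by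
    intro z
    simp only [ha]
    split_ifs <;> simp [hα]
  -- the left side
  have hL1 : α * ∑ x, ∑ y, (if Bad1 c w K ρ M x y then (1 : ℝ) else 0) ≤
      ∑ z, a z * (if Disjoint M (C z) then 1 else 0) := by
    rw [Fintype.sum_prod_type, Finset.mul_sum]
    refine Finset.sum_le_sum fun x _ => ?_
    rw [Fintype.sum_prod_type, Finset.mul_sum]
    refine Finset.sum_le_sum fun y _ => ?_
    have hnn : ∀ k ∈ (Finset.univ : Finset K),
        0 ≤ a (x, y, k) * (if Disjoint M (C (x, y, k)) then 1 else 0) := by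
      intro k _
      refine mul_nonneg (ha0 _) ?_
      split_ifs <;> norm_num
    by_cases hB : Bad1 c w K ρ M x y
    · rw [if_pos hB, mul_one]
      obtain ⟨hw1, k, hk, hG⟩ := hB
      refine le_trans ?_ (Finset.single_le_sum hnn (Finset.mem_univ (⟨k, hk⟩ : K)))
      unfold Good at hG
      push Not at hG
      have h1 : a (x, y, ⟨k, hk⟩) = α := by
        simp only [ha]
        rw [if_pos ⟨hw1, hG.1⟩, mul_one]
      have h2 : Disjoint M (C (x, y, ⟨k, hk⟩)) := by
        rw [Finset.disjoint_left]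
        intro R hR hRC
        simp only [hC, Finset.mem_image] at hRC
        obtain ⟨q, hq, rfl⟩ := hRC
        unfold markExF at hq
        rw [Finset.mem_filter] at hq
        exact absurd hq.2.2 (not_le.mpr (hG.2 q.1 q.2 hR hq.2.1))
      rw [h1, if_pos h2, mul_one]
    · rw [if_neg hB, mul_zero]
      exact Finset.sum_nonneg hnn
  have hswap : ∀ φ : Cell A → ℝ, ∑ R, φ R * b R =
      β * ∑ x, ∑ y, ∑ n : Fin A, ∑ m : Fin A, φ (cell n m x y) * g n m x y := by
    intro φ
    have h1 : ∀ R, φ R * b R =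
        β * ∑ x, ∑ y, φ R * (if cell R.1 R.2.1 x y = R then g R.1 R.2.1 x y else 0) := by
      intro R
      simp only [hb]
      rw [mul_left_comm]
      simp only [Finset.mul_sum]
    simp only [h1]
    rw [← Finset.mul_sum, Finset.sum_comm]
    congr 1
    refine Finset.sum_congr rfl fun x _ => ?_
    rw [Finset.sum_comm]
    refine Finset.sum_congr rfl fun y _ => ?_
    exact markEx_sum_cell φ x y (fun n m => g n m x y)
  have hL2 : ∑ i ∈ M, b i =
      β * ∑ x, ∑ y, ∑ n : Fin A, ∑ m : Fin A, (if cell n m x y ∈ M then g n m x y else 0) := by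
    have h1 := hswap (fun R => if R ∈ M then 1 else 0)
    have h2 : ∑ R, (if R ∈ M then (1 : ℝ) else 0) * b R = ∑ i ∈ M, b i := by
      simp only [ite_mul, one_mul, zero_mul]
      rw [Finset.sum_ite_mem, Finset.univ_inter]
    rw [← h2, h1]
    simp only [ite_mul, one_mul, zero_mul]
  have hR2 : ∑ i, p i * b i ≤
      β * (X * ∑ x, ∑ y, ∑ n : Fin A, ∑ m : Fin A, c n m x y ^ 2 * g n m x y) := by
    rw [hswap p]
    refine mul_le_mul_of_nonneg_left ?_ hβ
    simp only [Finset.mul_sum]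
    refine Finset.sum_le_sum fun x _ => Finset.sum_le_sum fun y _ => Finset.sum_le_sum fun n _ =>
      Finset.sum_le_sum fun m _ => ?_
    have h1 : p (cell n m x y) ≤ X * c n m x y ^ 2 := by
      have h2 : c (cell n m x y).1 (cell n m x y).2.1 (cell n m x y).2.2.1 (cell n m x y).2.2.2 =
        c n m x y := adc_cell hc n m x y
      simp only [hp]
      rw [h2]
      exact min_le_right _ _
    calc p (cell n m x y) * g n m x y ≤ (X * c n m x y ^ 2) * g n m x y :=
          mul_le_mul_of_nonneg_right h1 (hg n m x y)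
      _ = X * (c n m x y ^ 2 * g n m x y) := by ring
  have hprod : ∀ z : Bits A × Bits A × K, ρ ^ 2 < VW c 0 (z.2.2 : ℕ) z.1 z.2.1 →
      ∏ i ∈ C z, (1 - p i) ≤ Real.exp (-(X * ρ ^ 2)) := by
    rintro ⟨x, y, k⟩ hz
    have h1 : ∏ i ∈ C (x, y, k), (1 - p i) =
        ∏ q ∈ markExF c ρ (k : ℕ) x y, (1 - p (cell q.1 q.2 x y)) := by
      simp only [hC]
      rw [Finset.prod_image]
      intro q _ q' _ h
      have := cell_inj h
      exact Prod.ext this.1 this.2
    rw [h1]
    calc ∏ q ∈ markExF c ρ (k : ℕ) x y, (1 - p (cell q.1 q.2 x y))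
        ≤ ∏ q ∈ markExF c ρ (k : ℕ) x y, Real.exp (-(X * c q.1 q.2 x y ^ 2)) := by
          refine Finset.prod_le_prod (fun q _ => sub_nonneg.mpr (hp1 _)) fun q _ => ?_
          have h2 : c (cell q.1 q.2 x y).1 (cell q.1 q.2 x y).2.1 (cell q.1 q.2 x y).2.2.1
              (cell q.1 q.2 x y).2.2.2 = c q.1 q.2 x y := adc_cell hc q.1 q.2 x y
          simp only [hp]
          rw [h2]
          rcases le_total 1 (X * c q.1 q.2 x y ^ 2) with h3 | h3
          · rw [min_eq_left h3, sub_self]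
            exact (Real.exp_pos _).le
          · rw [min_eq_right h3]
            have := Real.add_one_le_exp (-(X * c q.1 q.2 x y ^ 2))
            linarith
      _ = Real.exp (∑ q ∈ markExF c ρ (k : ℕ) x y, -(X * c q.1 q.2 x y ^ 2)) :=
          (Real.exp_sum _ _).symm
      _ ≤ Real.exp (-(X * ρ ^ 2)) := by
          rw [Real.exp_le_exp, Finset.sum_neg_distrib, ← Finset.mul_sum]
          have := markEx_energy c (k : ℕ) x y hz
          have h4 := mul_le_mul_of_nonneg_left this hX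
          linarith
  have hR1 : ∑ z, a z * ∏ i ∈ C z, (1 - p i) ≤
      α * (K.card * Real.exp (-(X * ρ ^ 2)) * ∑ x, ∑ y, w x y) := by
    have h1 : ∀ z : Bits A × Bits A × K, a z * ∏ i ∈ C z, (1 - p i) ≤
        α * Real.exp (-(X * ρ ^ 2)) * w z.1 z.2.1 := by
      intro z
      have hw0 : 0 ≤ w z.1 z.2.1 := by
        rcases hw z.1 z.2.1 with h | h <;> rw [h]
        exact zero_le_one
      by_cases h2 : w z.1 z.2.1 = 1 ∧ ρ ^ 2 < VW c 0 (z.2.2 : ℕ) z.1 z.2.1
      · have h3 : a z = α := by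
          simp only [ha]
          rw [if_pos h2, mul_one]
        rw [h3, h2.1, mul_one]
        exact mul_le_mul_of_nonneg_left (hprod z h2.2) hα
      · have h3 : a z = 0 := by
          simp only [ha]
          rw [if_neg h2, mul_zero]
        rw [h3, zero_mul]
        exact mul_nonneg (mul_nonneg hα (Real.exp_pos _).le) hw0
    refine (Finset.sum_le_sum fun z _ => h1 z).trans (le_of_eq ?_)
    rw [Fintype.sum_prod_type]
    simp only [Fintype.sum_prod_type, Finset.sum_const, Finset.card_univ, nsmul_eq_mul,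
      Fintype.card_coe]
    simp only [← Finset.mul_sum]
    ring
  -- conclusion
  have hfin : α * ∑ x, ∑ y, (if Bad1 c w K ρ M x y then (1 : ℝ) else 0) +
      β * ∑ x, ∑ y, ∑ n : Fin A, ∑ m : Fin A, (if cell n m x y ∈ M then g n m x y else 0) ≤
      α * (K.card * Real.exp (-(X * ρ ^ 2)) * ∑ x, ∑ y, w x y) +
        β * (X * ∑ x, ∑ y, ∑ n : Fin A, ∑ m : Fin A, c n m x y ^ 2 * g n m x y) := by
    rw [hL2] at hM
    linarith
  rw [markEx_av2, markEx_av2, markEx_av2, markEx_av2]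
  rw [← hD]
  have e1 : ∀ S1 S2 : ℝ, α * (S1 / D) + β * (S2 / D) = (α * S1 + β * S2) / D := by
    intro S1 S2
    ring
  have e2 : ∀ S1 S2 : ℝ, α * (K.card * Real.exp (-(X * ρ ^ 2)) * (S1 / D)) +
      β * (X * (S2 / D)) =
      (α * (K.card * Real.exp (-(X * ρ ^ 2)) * S1) + β * (X * S2)) / D := by
    intro S1 S2
    ring
  rw [e1, e2]
  exact div_le_div_of_nonneg_right hfin hDpos.le

end Pool.Agent.Hyp
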