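import Mathlib

/-!
# Module Step: the one step inequality for powers (pure algebra)

**PROOF.** `t ↦ -t` changes nothing, so assume `t ≥ 0`.  Put `s = α + δ`.  Since
`t^2 ≤ 4 α δ ≤ (α + δ)^2` we have `0 ≤ t ≤ s`.  `A q = ((s+t)^q + (s-t)^q)/2`,
`B q = ((s+t)^q - (s-t)^q)/2`; `A (q+1) = s A q + t B q`.
(1) `0 ≤ B (q+1) ≤ (q+1) t (s+t)^q` (difference of powers; or induction `B (q+1) = s B q + t A q`,
`A q ≤ (s+t)^q`).
(2) `A (q+2) - s^(q+2) ≤ ((q+1)(q+2)/2) t^2 (s+t)^q` by induction on `q`: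
`A (q+3) - s^(q+3) = s (A (q+2) - s^(q+2)) + t B (q+2)
  ≤ s ((q+1)(q+2)/2) t^2 (s+t)^q + (q+2) t^2 (s+t)^(q+1) ≤ ((q+1)(q+2)/2 + (q+2)) t^2 (s+t)^(q+1)`,
and `A 2 - s^2 = t^2`.
(3) Since `t^2 ≤ 4 s δ` and `s ≤ s + t`: `A (q+2) - s^(q+2) ≤ 2 (q+1)(q+2) δ (s+t)^(q+1)
≤ 4 (q+1)(q+2) δ A (q+1)` because `(s+t)^(q+1) ≤ 2 A (q+1)` (`s - t ≥ 0`).
(4) `s^(q+2) - α^(q+2) ≤ (q+2) δ s^(q+1) ≤ (q+2) δ A (q+1)` (`s^(q+1) ≤ A (q+1)`, e.g. from (2)/its
nonnegative analogue or convexity).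
(5) Sum: `A (q+2) - α^(q+2) ≤ (q+2)(4 q + 5) δ A (q+1) ≤ 4 (q+2)^2 δ A (q+1)`: the claim for
`p = q + 1`.  For `p = 0`: `s - α = δ ≤ 4 δ`.
`pow_mid`: `α^p ≤ s^p ≤ A p` (convexity of `u ↦ u^p` on `[0, ∞)`, e.g. `inner_le_nnorm_mul_nnorm` is not
needed: `add_pow_le_pow_mul_pow_of_sq_le_sq`-type lemmas or induction `A (p+1) = s A p + t B p`).
-/

set_option autoImplicit false

namespace Pool.Agent.Hyp

private noncomputable def sA (s t : ℝ) (q : ℕ) : ℝ := ((s + t) ^ q + (s - t) ^ q) / 2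

private noncomputable def sB (s t : ℝ) (q : ℕ) : ℝ := ((s + t) ^ q - (s - t) ^ q) / 2

private theorem sA_succ (s t : ℝ) (q : ℕ) : sA s t (q + 1) = s * sA s t q + t * sB s t q := by
  unfold sA sB
  ring

private theorem sB_succ (s t : ℝ) (q : ℕ) : sB s t (q + 1) = s * sB s t q + t * sA s t q := by
  unfold sA sB
  ring

private theorem sAB {s t : ℝ} (ht : 0 ≤ t) (hts : t ≤ s) (q : ℕ) :
    s ^ q ≤ sA s t q ∧ 0 ≤ sB s t q ∧ sA s t q ≤ (s + t) ^ q := by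
  have hs : 0 ≤ s := ht.trans hts
  induction q with
  | zero => simp [sA, sB]
  | succ q ih =>
    obtain ⟨h1, h2, h3⟩ := ih
    have h4 : sA s t q + sB s t q = (s + t) ^ q := by
      unfold sA sB
      ring
    have h0 : 0 ≤ sA s t q := (pow_nonneg hs q).trans h1
    refine ⟨?_, ?_, ?_⟩
    · rw [sA_succ, pow_succ]
      nlinarith [mul_nonneg ht h2]
    · rw [sB_succ]
      positivity
    · rw [sA_succ, pow_succ, ← h4]
      nlinarith [mul_nonneg hs h2, mul_nonneg ht h0]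

private theorem sB_le {s t : ℝ} (ht : 0 ≤ t) (hts : t ≤ s) (q : ℕ) :
    sB s t (q + 1) ≤ ((q : ℝ) + 1) * t * (s + t) ^ q := by
  have hs : 0 ≤ s := ht.trans hts
  induction q with
  | zero =>
    simp only [sB, zero_add, pow_one, pow_zero, Nat.cast_zero]
    linarith
  | succ q ih =>
    obtain ⟨-, -, h3⟩ := sAB ht hts (q + 1)
    have h4 : 0 ≤ (s + t) ^ q := pow_nonneg (by linarith) q
    rw [sB_succ]
    have h5 : s * sB s t (q + 1) ≤ (s + t) * (((q : ℝ) + 1) * t * (s + t) ^ q) := by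
      refine mul_le_mul (by linarith) ih (sAB ht hts (q + 1)).2.1 (by linarith)
    have h6 : t * sA s t (q + 1) ≤ t * (s + t) ^ (q + 1) := mul_le_mul_of_nonneg_left h3 ht
    push_cast
    rw [pow_succ] at h6 ⊢
    linarith

private theorem sA_le {s t : ℝ} (ht : 0 ≤ t) (hts : t ≤ s) (q : ℕ) :
    sA s t (q + 2) - s ^ (q + 2) ≤ (((q : ℝ) + 1) * ((q : ℝ) + 2) / 2) * t ^ 2 * (s + t) ^ q := by
  have hs : 0 ≤ s := ht.trans hts
  induction q with
  | zero =>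
    simp only [sA, zero_add, pow_zero, Nat.cast_zero]
    nlinarith
  | succ q ih =>
    have h1 := sB_le ht hts (q + 1)
    have h2 : 0 ≤ (s + t) ^ q := pow_nonneg (by linarith) q
    have e : sA s t (q + 1 + 2) - s ^ (q + 1 + 2) =
        s * (sA s t (q + 2) - s ^ (q + 2)) + t * sB s t (q + 2) := by
      rw [show q + 1 + 2 = (q + 2) + 1 by ring, sA_succ]
      ring
    rw [e]
    have hq : (0 : ℝ) ≤ q := Nat.cast_nonneg q
    have h3 : s * (sA s t (q + 2) - s ^ (q + 2)) ≤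
        (s + t) * ((((q : ℝ) + 1) * ((q : ℝ) + 2) / 2) * t ^ 2 * (s + t) ^ q) := by
      refine mul_le_mul (by linarith) ih ?_ (by linarith)
      have := (sAB ht hts (q + 2)).1
      linarith
    have h4 : t * sB s t (q + 2) ≤ t * ((((q : ℝ) + 1) + 1) * t * (s + t) ^ (q + 1)) := by
      refine mul_le_mul_of_nonneg_left ?_ ht
      have := h1
      push_cast at this
      exact this
    push_cast
    have h5 : (s + t) ^ (q + 1) = (s + t) ^ q * (s + t) := pow_succ _ _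
    rw [h5] at h4 ⊢
    refine (add_le_add h3 h4).trans (le_of_eq ?_)
    ring

private theorem s_pow_sub {α δ : ℝ} (hα : 0 ≤ α) (hδ : 0 ≤ δ) (n : ℕ) :
    (α + δ) ^ (n + 1) - α ^ (n + 1) ≤ ((n : ℝ) + 1) * δ * (α + δ) ^ n := by
  induction n with
  | zero => simp
  | succ n ih =>
    have e : (α + δ) ^ (n + 1 + 1) - α ^ (n + 1 + 1) =
        (α + δ) * ((α + δ) ^ (n + 1) - α ^ (n + 1)) + δ * α ^ (n + 1) := by ring
    rw [e]
    have h1 : (α + δ) * ((α + δ) ^ (n + 1) - α ^ (n + 1)) ≤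
        (α + δ) * (((n : ℝ) + 1) * δ * (α + δ) ^ n) :=
      mul_le_mul_of_nonneg_left ih (by linarith)
    have h2 : δ * α ^ (n + 1) ≤ δ * (α + δ) ^ (n + 1) :=
      mul_le_mul_of_nonneg_left (pow_le_pow_left₀ hα (by linarith) _) hδ
    push_cast
    refine (add_le_add h1 h2).trans (le_of_eq ?_)
    ring

private theorem t_le {α t δ : ℝ} (hα : 0 ≤ α) (hδ : 0 ≤ δ) (ht : t ^ 2 ≤ 4 * α * δ) :
    |t| ≤ α + δ := by
  have h1 : t ^ 2 ≤ (α + δ) ^ 2 := by nlinarith [sq_nonneg (α - δ)]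
  exact abs_le_of_sq_le_sq h1 (by linarith)

private theorem step_pow_aux (p : ℕ) {α t δ : ℝ} (hα : 0 ≤ α) (hδ : 0 ≤ δ)
    (ht : t ^ 2 ≤ 4 * α * δ) (ht0 : 0 ≤ t) :
    sA (α + δ) t (p + 1) - α ^ (p + 1) ≤ 4 * ((p : ℝ) + 1) ^ 2 * δ * sA (α + δ) t p := by
  have hts : t ≤ α + δ := (le_abs_self t).trans (t_le hα hδ ht)
  have hs : 0 ≤ α + δ := by linarith
  rcases p with _ | q
  · simp only [sA, zero_add, pow_one, pow_zero, Nat.cast_zero]
    nlinarith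
  · obtain ⟨h1, h2, h3⟩ := sAB ht0 hts (q + 1)
    have hA := sA_le ht0 hts q
    have hP := s_pow_sub hα hδ (q + 1)
    have hq : (0 : ℝ) ≤ q := Nat.cast_nonneg q
    have h4 : ((α + δ) + t) ^ (q + 1) ≤ 2 * sA (α + δ) t (q + 1) := by
      unfold sA
      have : 0 ≤ ((α + δ) - t) ^ (q + 1) := pow_nonneg (by linarith) _
      linarith
    have h5 : 0 ≤ ((α + δ) + t) ^ q := pow_nonneg (by linarith) _
    have h6 : t ^ 2 * ((α + δ) + t) ^ q ≤ 4 * δ * ((α + δ) + t) ^ (q + 1) := by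
      rw [pow_succ ((α + δ) + t) q]
      have h7 : t ^ 2 ≤ 4 * δ * ((α + δ) + t) := by nlinarith [mul_nonneg hδ ht0, mul_nonneg hδ hδ]
      calc t ^ 2 * ((α + δ) + t) ^ q ≤ 4 * δ * ((α + δ) + t) * ((α + δ) + t) ^ q :=
            mul_le_mul_of_nonneg_right h7 h5
        _ = 4 * δ * (((α + δ) + t) ^ q * ((α + δ) + t)) := by ring
    have h8 : t ^ 2 * ((α + δ) + t) ^ q ≤ 8 * δ * sA (α + δ) t (q + 1) := by
      refine h6.trans ?_
      have := mul_le_mul_of_nonneg_left h4 (by linarith : 0 ≤ 4 * δ)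
      linarith
    have h9 : sA (α + δ) t (q + 2) - (α + δ) ^ (q + 2) ≤
        4 * (((q : ℝ) + 1) * ((q : ℝ) + 2)) * δ * sA (α + δ) t (q + 1) := by
      refine hA.trans ?_
      have h10 : 0 ≤ ((q : ℝ) + 1) * ((q : ℝ) + 2) / 2 := by positivity
      have := mul_le_mul_of_nonneg_left h8 h10
      calc ((q : ℝ) + 1) * ((q : ℝ) + 2) / 2 * t ^ 2 * ((α + δ) + t) ^ q
          = ((q : ℝ) + 1) * ((q : ℝ) + 2) / 2 * (t ^ 2 * ((α + δ) + t) ^ q) := by ring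
        _ ≤ ((q : ℝ) + 1) * ((q : ℝ) + 2) / 2 * (8 * δ * sA (α + δ) t (q + 1)) := this
        _ = _ := by ring
    have h11 : (α + δ) ^ (q + 2) - α ^ (q + 2) ≤ ((q : ℝ) + 2) * δ * sA (α + δ) t (q + 1) := by
      have h12 : (α + δ) ^ (q + 2) - α ^ (q + 2) ≤ ((q : ℝ) + 2) * δ * (α + δ) ^ (q + 1) := by
        refine hP.trans (le_of_eq ?_)
        push_cast
        ring
      refine h12.trans (mul_le_mul_of_nonneg_left h1 (by positivity))
    have h0 : 0 ≤ δ * sA (α + δ) t (q + 1) := mul_nonneg hδ ((pow_nonneg hs _).trans h1)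
    push_cast
    have e : sA (α + δ) t (q + 1 + 1) - α ^ (q + 1 + 1) =
        (sA (α + δ) t (q + 2) - (α + δ) ^ (q + 2)) + ((α + δ) ^ (q + 2) - α ^ (q + 2)) := by
      ring
    rw [e]
    refine (add_le_add h9 h11).trans ?_
    have h13 : 0 ≤ ((q : ℝ) + 2) * (δ * sA (α + δ) t (q + 1)) := mul_nonneg (by positivity) h0
    nlinarith

theorem step_pow (p : ℕ) {α t δ : ℝ} (hα : 0 ≤ α) (hδ : 0 ≤ δ) (ht : t ^ 2 ≤ 4 * α * δ) :
    ((α + δ + t) ^ (p + 1) + (α + δ - t) ^ (p + 1)) / 2 - α ^ (p + 1) ≤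
      4 * ((p : ℝ) + 1) ^ 2 * δ * (((α + δ + t) ^ p + (α + δ - t) ^ p) / 2) := by
  rcases le_total 0 t with h0 | h0
  · exact step_pow_aux p hα hδ ht h0
  · have h1 := step_pow_aux p (t := -t) hα hδ (by rwa [neg_sq]) (by linarith)
    unfold sA at h1
    simp only [← sub_eq_add_neg, sub_neg_eq_add] at h1
    rw [add_comm ((α + δ - t) ^ (p + 1)), add_comm ((α + δ - t) ^ p)] at h1
    exact h1

/-- convexity of powers -/
theorem pow_mid (p : ℕ) {α t δ : ℝ} (hα : 0 ≤ α) (hδ : 0 ≤ δ) (ht : t ^ 2 ≤ 4 * α * δ) :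
    α ^ p ≤ ((α + δ + t) ^ p + (α + δ - t) ^ p) / 2 := by
  have h1 := (sAB (abs_nonneg t) (t_le hα hδ ht) p).1
  have h2 : α ^ p ≤ (α + δ) ^ p := pow_le_pow_left₀ hα (by linarith) p
  have h3 : sA (α + δ) |t| p = ((α + δ + t) ^ p + (α + δ - t) ^ p) / 2 := by
    unfold sA
    rcases abs_choice t with h | h
    · rw [h]
    · rw [h]
      simp only [← sub_eq_add_neg, sub_neg_eq_add]
      rw [add_comm]
  rw [← h3]
  exact h2.trans h1

end Pool.Agent.Hyp
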