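import Pool.Agent.Hyp.Defs
import Pool.Agent.Hyp.Step

/-!
# Module Mom1: moments of vector valued dyadic martingales

**PROOF.** `p = 0` is trivial (`0 ^ 0 = 1`).  Let `p = q + 1`.  For `k ≤ A` put
`Y k x = ∑ i, (∑ n with n < k, sg (x n) c i n x)^2` and `d n x = ∑ i, c i n x ^2` (adapted to `n`).
One bit: for `n : Fin A`, `k = n`: with `a i x = ∑ n' < k, sg (x n') c i n' x` (adapted to `k`),
`α = ∑ a i ^2 = Y k x`, `δ = d n x`, `t = 2 ∑ i, a i c i n x`, one has
`∑ i, (a i + s c i n x)^2 = α + δ + s t` for `s = ±1` and `t^2 ≤ 4 α δ` (Cauchy-Schwarz).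
(i) `step_pow` and `av_sg` (applied to `Φ x s = (α + δ + s t)^(q+1)` and to
`Φ x s = δ (α + δ + s t)^q`) give
`av (Y (k+1) ^(q+1)) - av (Y k ^(q+1)) ≤ 4 (q+1)^2 av (d n x * Y (k+1) x ^ q)`.
(ii) `pow_mid` and `av_sg` give for every nonnegative `h` adapted to `k = n`:
`av (h x * Y k x ^ q) ≤ av (h x * Y (k+1) x ^ q)`; iterating (`d n` is adapted to all later levels,
`Adp.mono`): `av (d n x * Y (k+1) x ^ q) ≤ av (d n x * Y A x ^ q)`.
Sum over `n`: `av (Y A ^(q+1)) ≤ av (4 (q+1)^2 (∑ n, d n x) * Y A x ^ q)` and `close_le` (with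
`b = Y A`, `u = 4 (q+1)^2 ∑ n d n`) gives `av (Y A ^(q+1)) ≤ av (u ^(q+1))`.  `∑ n d n x =
∑ i ∑ n c i n x ^2` (`Finset.sum_comm`) and `Y A = ∑ i bm (c i) x ^2`.
-/

set_option autoImplicit false

namespace Pool.Agent.Hyp

open Finset

section mom1

variable {A : ℕ} {ι : Type} [Fintype ι]

private noncomputable def mak (c : ι → Fin A → Bits A → ℝ) (i : ι) (k : ℕ) (x : Bits A) : ℝ :=
  ∑ n ∈ (univ : Finset (Fin A)).filter (fun n : Fin A => (n : ℕ) < k), sg (x n) * c i n x

private noncomputable def mY (c : ι → Fin A → Bits A → ℝ) (k : ℕ) (x : Bits A) : ℝ :=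
  ∑ i, mak c i k x ^ 2

private noncomputable def mD (c : ι → Fin A → Bits A → ℝ) (n : Fin A) (x : Bits A) : ℝ :=
  ∑ i, c i n x ^ 2

private noncomputable def mT (c : ι → Fin A → Bits A → ℝ) (n : Fin A) (x : Bits A) : ℝ :=
  2 * ∑ i, mak c i n x * c i n x

private lemma mak_adp {c : ι → Fin A → Bits A → ℝ} (hc : ∀ i (n : Fin A), Adp (n : ℕ) (c i n))
    (i : ι) (k : ℕ) : Adp k (mak c i k) := by
  refine Adp.sum _ fun n hn => ?_
  rw [mem_filter] at hn
  exact ((adp_bit hn.2).comp sg).comp2 ((hc i n).mono hn.2.le) (fun a b => a * b)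

private lemma mak_succ (c : ι → Fin A → Bits A → ℝ) (i : ι) (n : Fin A) (x : Bits A) :
    mak c i ((n : ℕ) + 1) x = mak c i n x + sg (x n) * c i n x := by
  unfold mak
  have : (univ : Finset (Fin A)).filter (fun m : Fin A => (m : ℕ) < (n : ℕ) + 1) =
      insert n ((univ : Finset (Fin A)).filter (fun m : Fin A => (m : ℕ) < (n : ℕ))) := by
    ext m
    simp only [mem_filter, mem_univ, true_and, mem_insert, Fin.ext_iff]
    omega
  rw [this, Finset.sum_insert (by simp), add_comm]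

private lemma mY_adp {c : ι → Fin A → Bits A → ℝ} (hc : ∀ i (n : Fin A), Adp (n : ℕ) (c i n))
    (k : ℕ) : Adp k (mY c k) :=
  Adp.sum _ fun i _ => (mak_adp hc i k).comp (fun a => a ^ 2)

private lemma mD_adp {c : ι → Fin A → Bits A → ℝ} (hc : ∀ i (n : Fin A), Adp (n : ℕ) (c i n))
    (n : Fin A) : Adp (n : ℕ) (mD c n) :=
  Adp.sum _ fun i _ => (hc i n).comp (fun a => a ^ 2)

private lemma mT_adp {c : ι → Fin A → Bits A → ℝ} (hc : ∀ i (n : Fin A), Adp (n : ℕ) (c i n))
    (n : Fin A) : Adp (n : ℕ) (mT c n) := by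
  have h : Adp (n : ℕ) (fun x => ∑ i, mak c i n x * c i n x) :=
    Adp.sum _ fun i _ => (mak_adp hc i n).comp2 (hc i n) (fun a b => a * b)
  exact h.comp (fun a => 2 * a)

private lemma mY_nonneg (c : ι → Fin A → Bits A → ℝ) (k : ℕ) (x : Bits A) : 0 ≤ mY c k x :=
  Finset.sum_nonneg fun _ _ => sq_nonneg _

private lemma mD_nonneg (c : ι → Fin A → Bits A → ℝ) (n : Fin A) (x : Bits A) : 0 ≤ mD c n x :=
  Finset.sum_nonneg fun _ _ => sq_nonneg _

private lemma mY_succ (c : ι → Fin A → Bits A → ℝ) (n : Fin A) (x : Bits A) :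
    mY c ((n : ℕ) + 1) x = mY c n x + mD c n x + sg (x n) * mT c n x := by
  unfold mY mD mT
  rw [Finset.mul_sum, Finset.mul_sum, ← Finset.sum_add_distrib, ← Finset.sum_add_distrib]
  refine Finset.sum_congr rfl fun i _ => ?_
  rw [mak_succ]
  have h := sg_sq (x n)
  linear_combination (c i n x ^ 2) * h

private lemma mT_sq (c : ι → Fin A → Bits A → ℝ) (n : Fin A) (x : Bits A) :
    mT c n x ^ 2 ≤ 4 * mY c n x * mD c n x := by
  unfold mY mD mT
  have h := Finset.sum_mul_sq_le_sq_mul_sq (univ : Finset ι) (fun i => mak c i n x)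
    (fun i => c i n x)
  nlinarith [h]

private lemma mstep {c : ι → Fin A → Bits A → ℝ} (hc : ∀ i (n : Fin A), Adp (n : ℕ) (c i n))
    (q : ℕ) (n : Fin A) :
    av (fun x => mY c ((n : ℕ) + 1) x ^ (q + 1)) ≤ av (fun x => mY c n x ^ (q + 1)) +
      4 * ((q : ℝ) + 1) ^ 2 * av (fun x => mD c n x * mY c ((n : ℕ) + 1) x ^ q) := by
  have h1 : av (fun x => mY c ((n : ℕ) + 1) x ^ (q + 1)) =
      av (fun x => ((mY c n x + mD c n x + 1 * mT c n x) ^ (q + 1) +
        (mY c n x + mD c n x + (-1) * mT c n x) ^ (q + 1)) / 2) := by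
    rw [← av_sg n (fun x s => (mY c n x + mD c n x + s * mT c n x) ^ (q + 1))]
    · exact av_congr fun x => by rw [mY_succ]
    · intro s x b
      simp only [mY_adp hc n x b, mD_adp hc n x b, mT_adp hc n x b]
  have h2 : av (fun x => mD c n x * mY c ((n : ℕ) + 1) x ^ q) =
      av (fun x => (mD c n x * (mY c n x + mD c n x + 1 * mT c n x) ^ q +
        mD c n x * (mY c n x + mD c n x + (-1) * mT c n x) ^ q) / 2) := by
    rw [← av_sg n (fun x s => mD c n x * (mY c n x + mD c n x + s * mT c n x) ^ q)]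
    · exact av_congr fun x => by rw [mY_succ]
    · intro s x b
      simp only [mY_adp hc n x b, mD_adp hc n x b, mT_adp hc n x b]
  rw [h1, h2, ← av_const_mul, ← av_add]
  refine av_mono fun x => ?_
  have h := step_pow q (mY_nonneg c n x) (mD_nonneg c n x) (mT_sq c n x)
  have e1 : mY c n x + mD c n x + 1 * mT c n x = mY c n x + mD c n x + mT c n x := by ring
  have e2 : mY c n x + mD c n x + (-1) * mT c n x = mY c n x + mD c n x - mT c n x := by ring
  rw [e1, e2]
  linarith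

private lemma mstep2 {c : ι → Fin A → Bits A → ℝ} (hc : ∀ i (n : Fin A), Adp (n : ℕ) (c i n))
    (q : ℕ) (n : Fin A) {h : Bits A → ℝ} (hh : Adp (n : ℕ) h) (h0 : ∀ x, 0 ≤ h x) :
    av (fun x => h x * mY c n x ^ q) ≤ av (fun x => h x * mY c ((n : ℕ) + 1) x ^ q) := by
  have h2 : av (fun x => h x * mY c ((n : ℕ) + 1) x ^ q) =
      av (fun x => (h x * (mY c n x + mD c n x + 1 * mT c n x) ^ q +
        h x * (mY c n x + mD c n x + (-1) * mT c n x) ^ q) / 2) := by
    rw [← av_sg n (fun x s => h x * (mY c n x + mD c n x + s * mT c n x) ^ q)]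
    · exact av_congr fun x => by rw [mY_succ]
    · intro s x b
      simp only [mY_adp hc n x b, mD_adp hc n x b, mT_adp hc n x b, hh x b]
  rw [h2]
  refine av_mono fun x => ?_
  have h3 := pow_mid q (mY_nonneg c n x) (mD_nonneg c n x) (mT_sq c n x)
  have e1 : mY c n x + mD c n x + 1 * mT c n x = mY c n x + mD c n x + mT c n x := by ring
  have e2 : mY c n x + mD c n x + (-1) * mT c n x = mY c n x + mD c n x - mT c n x := by ring
  rw [e1, e2]
  have := mul_le_mul_of_nonneg_left h3 (h0 x)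
  linarith

private lemma miter {c : ι → Fin A → Bits A → ℝ} (hc : ∀ i (n : Fin A), Adp (n : ℕ) (c i n))
    (q : ℕ) (n : ℕ) {h : Bits A → ℝ} (hh : Adp n h) (h0 : ∀ x, 0 ≤ h x) (k : ℕ)
    (hk : n ≤ k) (hkA : k ≤ A) :
    av (fun x => h x * mY c n x ^ q) ≤ av (fun x => h x * mY c k x ^ q) := by
  induction k, hk using Nat.le_induction with
  | base => exact le_rfl
  | succ k hk ih =>
    refine (ih (by omega)).trans ?_
    exact mstep2 hc q ⟨k, by omega⟩ (hh.mono hk) h0

private lemma mtele {c : ι → Fin A → Bits A → ℝ} (hc : ∀ i (n : Fin A), Adp (n : ℕ) (c i n))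
    (q : ℕ) (k : ℕ) (hkA : k ≤ A) :
    av (fun x => mY c k x ^ (q + 1)) ≤ 4 * ((q : ℝ) + 1) ^ 2 *
      ∑ n ∈ (univ : Finset (Fin A)).filter (fun n : Fin A => (n : ℕ) < k),
        av (fun x => mD c n x * mY c A x ^ q) := by
  induction k with
  | zero =>
    have : ∀ x : Bits A, mY c 0 x ^ (q + 1) = 0 := by
      intro x
      simp [mY, mak]
    rw [av_congr this, av_zero]
    simp
  | succ k ih =>
    have hk : k < A := by omega
    have e : (univ : Finset (Fin A)).filter (fun m : Fin A => (m : ℕ) < k + 1) =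
      insert (⟨k, hk⟩ : Fin A) ((univ : Finset (Fin A)).filter (fun m : Fin A => (m : ℕ) < k)) := by
      ext m
      simp only [mem_filter, mem_univ, true_and, mem_insert, Fin.ext_iff]
      omega
    rw [e, Finset.sum_insert (by simp)]
    have h1 := mstep hc q ⟨k, hk⟩
    have h2 : av (fun x => mD c ⟨k, hk⟩ x * mY c (k + 1) x ^ q) ≤
        av (fun x => mD c ⟨k, hk⟩ x * mY c A x ^ q) :=
      miter hc q (k + 1) ((mD_adp hc ⟨k, hk⟩).mono (Nat.le_succ k)) (mD_nonneg c _) A hkA le_rfl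
    have h3 := ih (by omega)
    have h4 : 4 * ((q : ℝ) + 1) ^ 2 * av (fun x => mD c ⟨k, hk⟩ x * mY c (k + 1) x ^ q) ≤
        4 * ((q : ℝ) + 1) ^ 2 * av (fun x => mD c ⟨k, hk⟩ x * mY c A x ^ q) :=
      mul_le_mul_of_nonneg_left h2 (by positivity)
    simp only at h1
    rw [mul_add]
    linarith

end mom1

theorem moment {A : ℕ} {ι : Type} [Fintype ι] (c : ι → Fin A → Bits A → ℝ)
    (hc : ∀ i (n : Fin A), Adp (n : ℕ) (c i n)) (p : ℕ) :
    av (fun x => (∑ i, bm (c i) x ^ 2) ^ p) ≤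
      (4 * (p : ℝ) ^ 2) ^ p * av (fun x => (∑ i, ∑ n, c i n x ^ 2) ^ p) := by
  rcases p with _ | q
  · simp only [pow_zero, one_mul]
    exact le_rfl
  · have hY : ∀ x, ∑ i, bm (c i) x ^ 2 = mY c A x := by
      intro x
      unfold mY mak bm
      refine Finset.sum_congr rfl fun i _ => ?_
      rw [Finset.filter_true_of_mem (fun n _ => n.2)]
    have hD : ∀ x, ∑ i, ∑ n, c i n x ^ 2 = ∑ n, mD c n x := by
      intro x
      unfold mD
      exact Finset.sum_comm
    simp only [hY, hD]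
    have h1 := mtele hc q A le_rfl
    rw [Finset.filter_true_of_mem (fun n _ => n.2), ← av_sum, ← av_const_mul] at h1
    have h2 : av (fun x => mY c A x ^ (q + 1)) ≤
        av (fun x => (4 * ((q : ℝ) + 1) ^ 2 * ∑ n, mD c n x) * mY c A x ^ q) := by
      refine h1.trans (le_of_eq ?_)
      refine av_congr fun x => ?_
      rw [← Finset.sum_mul]
      ring
    have h3 := close_le q (u := fun x => 4 * ((q : ℝ) + 1) ^ 2 * ∑ n, mD c n x)
      (b := fun x => mY c A x)
      (fun x => mul_nonneg (by positivity) (Finset.sum_nonneg fun n _ => mD_nonneg c n x))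
      (fun x => mY_nonneg c A x) h2
    refine h3.trans (le_of_eq ?_)
    rw [← av_const_mul]
    refine av_congr fun x => ?_
    rw [mul_pow]
    push_cast
    ring

end Pool.Agent.Hyp
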