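import Pool.Agent.Hyp.Mom1

/-!
# Module Mom2: two parameter moments

**PROOF of `gmom`.** For fixed `x` apply `moment` in the variable `y` with index set `Fin A` and
coefficients `fun n m y => c n m x y` (adapted: `(hc n m).right x`), `GG c n x y = bm _ y`
(`GG_eq_bm`).  Average over `x`.
**PROOF of `fmom`.** For fixed `y` apply `moment` in the variable `x` with index set `Unit` and
coefficients `fun _ n x => GG c n x y` (adapted: `GG_adp`), `FF c x y = bm _ x` (`FF_eq_bm`).  Average
over `y` (`av_comm`), then use `gmom`; `(4 q^2)^q (4 q^2)^q = (16 q^4)^q`.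
-/

set_option autoImplicit false

namespace Pool.Agent.Hyp

open Finset

theorem gmom {A : ℕ} {c : Coef A} (hc : AdC c) (q : ℕ) :
    av2 (fun x y => (∑ n : Fin A, GG c n x y ^ 2) ^ q) ≤
      (4 * (q : ℝ) ^ 2) ^ q * av2 (fun x y => VV c x y ^ q) := by
  unfold av2
  rw [← av_const_mul]
  refine av_mono fun x => ?_
  have h := moment (fun (n m : Fin A) (y : Bits A) => c n m x y)
    (fun n m => (hc n m).right x) q
  exact h

theorem fmom {A : ℕ} {c : Coef A} (hc : AdC c) (q : ℕ) :
    av2 (fun x y => (FF c x y ^ 2) ^ q) ≤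
      (16 * (q : ℝ) ^ 4) ^ q * av2 (fun x y => VV c x y ^ q) := by
  have h1 : av2 (fun x y => (FF c x y ^ 2) ^ q) ≤
      (4 * (q : ℝ) ^ 2) ^ q * av2 (fun x y => (∑ n : Fin A, GG c n x y ^ 2) ^ q) := by
    unfold av2
    rw [av_comm, av_comm (fun x y => (∑ n : Fin A, GG c n x y ^ 2) ^ q), ← av_const_mul]
    refine av_mono fun y => ?_
    have h := moment (fun (_ : Unit) (n : Fin A) (x : Bits A) => GG c n x y)
      (fun _ n => GG_adp hc n y) q
    simp only [Finset.univ_unique, Finset.sum_singleton] at h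
    simp only [FF_eq_bm]
    exact h
  refine h1.trans ?_
  have h2 := gmom hc q
  have h3 : (0 : ℝ) ≤ (4 * (q : ℝ) ^ 2) ^ q := by positivity
  refine (mul_le_mul_of_nonneg_left h2 h3).trans (le_of_eq ?_)
  rw [← mul_assoc, ← mul_pow]
  congr 2
  ring

end Pool.Agent.Hyp
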