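import Pool.Agent.Hyp.Mom1

/-!
# Module MomW: the moment inequality with a weight which is known at the start

**PROOF.** Fix `x` and apply `moment` to the coefficients `c' i n b = c i n (glue n0 x b)` (functions
of `b`): for `n ≥ n0` they are adapted to `n` by `glue_glue_ge`
(`glue n0 x (glue n b b') = glue n (glue n0 x b) b'`), for `n < n0` they vanish (`hz`).  Also
`bm (c' i) b = bm (c i) (glue n0 x b)` because `(glue n0 x b) n = b n` for `n ≥ n0` (terms with
`n < n0` vanish).  So `ce n0 (fun x => (∑ i, bm (c i) x ^2)^p) x ≤ (4 p^2)^p *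
ce n0 (fun x => (∑ i, ∑ n, c i n x ^2)^p) x` for every `x` (definition of `ce`).  Multiply by
`W x ≥ 0`, average and use `av_mul_ce hW` on both sides.
-/

set_option autoImplicit false

namespace Pool.Agent.Hyp

open Finset

theorem moment_w {A : ℕ} {ι : Type} [Fintype ι] (n0 : ℕ) (W : Bits A → ℝ) (hW0 : ∀ x, 0 ≤ W x)
    (hW : Adp n0 W) (c : ι → Fin A → Bits A → ℝ) (hc : ∀ i (n : Fin A), Adp (n : ℕ) (c i n))
    (hz : ∀ i (n : Fin A) x, (n : ℕ) < n0 → c i n x = 0) (p : ℕ) :
    av (fun x => W x * (∑ i, bm (c i) x ^ 2) ^ p) ≤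
      (4 * (p : ℝ) ^ 2) ^ p * av (fun x => W x * (∑ i, ∑ n, c i n x ^ 2) ^ p) := by
  have key : ∀ x, ce n0 (fun x => (∑ i, bm (c i) x ^ 2) ^ p) x ≤
      (4 * (p : ℝ) ^ 2) ^ p * ce n0 (fun x => (∑ i, ∑ n, c i n x ^ 2) ^ p) x := by
    intro x
    have hc' : ∀ i (n : Fin A), Adp (n : ℕ) (fun b => c i n (glue n0 x b)) := by
      intro i n b b'
      rcases Nat.lt_or_ge (n : ℕ) n0 with hn | hn
      · simp only [hz i n _ hn]
      · change c i n (glue n0 x (glue n b b')) = c i n (glue n0 x b)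
        rw [← glue_glue_ge hn, hc]
    have h := moment (fun i n b => c i n (glue n0 x b)) hc' p
    have e1 : ∀ i b, bm (fun n b => c i n (glue n0 x b)) b = bm (c i) (glue n0 x b) := by
      intro i b
      unfold bm
      refine Finset.sum_congr rfl fun n _ => ?_
      change sg (b n) * c i n (glue n0 x b) = sg (glue n0 x b n) * c i n (glue n0 x b)
      rcases Nat.lt_or_ge (n : ℕ) n0 with hn | hn
      · rw [hz i n _ hn, mul_zero, mul_zero]
      · have e2 : glue n0 x b n = b n := by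
          unfold glue
          rw [if_neg (by omega)]
        rw [e2]
    have h2 : av (fun b => (∑ i, bm (c i) (glue n0 x b) ^ 2) ^ p) ≤
        (4 * (p : ℝ) ^ 2) ^ p * av (fun b => (∑ i, ∑ n, c i n (glue n0 x b) ^ 2) ^ p) := by
      simpa only [e1] using h
    exact h2
  calc av (fun x => W x * (∑ i, bm (c i) x ^ 2) ^ p)
      = av (fun x => W x * ce n0 (fun x => (∑ i, bm (c i) x ^ 2) ^ p) x) :=
        (av_mul_ce hW _).symm
    _ ≤ av (fun x => W x * ((4 * (p : ℝ) ^ 2) ^ p *
          ce n0 (fun x => (∑ i, ∑ n, c i n x ^ 2) ^ p) x)) :=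
        av_mono (fun x => mul_le_mul_of_nonneg_left (key x) (hW0 x))
    _ = (4 * (p : ℝ) ^ 2) ^ p *
          av (fun x => W x * ce n0 (fun x => (∑ i, ∑ n, c i n x ^ 2) ^ p) x) := by
        rw [← av_const_mul]
        exact av_congr fun x => by ring
    _ = (4 * (p : ℝ) ^ 2) ^ p * av (fun x => W x * (∑ i, ∑ n, c i n x ^ 2) ^ p) := by
        rw [av_mul_ce hW]

end Pool.Agent.Hyp
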