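import Pool.Agent.Hyp.DefM

set_option autoImplicit false

/-!
# Module MulL: multiplier operators on `L²`

**PROOF.** `ξ ↦ μ ξ * (𝓕 f) ξ` is in `L²` (`μ` measurable and bounded: `MemLp.of_le_mul` or
`MemLp.bdd_mul`), so `MT μ f = 𝓕⁻ (toLp _)` and `𝓕 (MT μ f) = toLp _`
(`FourierTransform.fourier_fourierInv_eq`), `MemLp.coeFn_toLp`: `mt_spec`.
Two elements of `Lp` with a.e. equal Fourier transforms are equal (`Lp.ext`, apply `𝓕⁻`,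
`FourierTransform.fourierInv_fourier_eq`); `𝓕` is additive and homogeneous
(`Lp.fourierTransformₗᵢ` or `FourierTransform.fourier_add`, `fourier_smul`), so `mt_add`, `mt_sub`,
`mt_smul`, `mt_sum`, `mt_comp` follow from `mt_spec` (`Lp.coeFn_add`, `Lp.coeFn_smul`, ...).
`mt_norm`: `‖MT μ f‖ₑ = ‖𝓕 (MT μ f)‖ₑ` (`Lp.norm_fourier_eq`) and `‖g‖ₑ^2 = ∫⁻ ‖g x‖ₑ^2` for
`g ∈ L²` (`Lp.enorm_def`, `eLpNorm_eq_lintegral_rpow_enorm`), `‖z w‖ₑ = ‖z‖ₑ ‖w‖ₑ`.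
-/

namespace Pool.Agent.Hyp

open MeasureTheory FourierTransform ENNReal

theorem mt_memLp {μ : E2 → ℂ} (hμ : Measurable μ) {D : ℝ} (hb : ∀ ξ, ‖μ ξ‖ ≤ D)
    (F : Lp ℂ 2 (volume : Measure E2)) :
    MemLp (fun ξ => μ ξ * F ξ) 2 (volume : Measure E2) := by
  refine MemLp.of_le_mul (c := D) (Lp.memLp F) ?_ (Filter.Eventually.of_forall fun ξ => ?_)
  · exact hμ.aestronglyMeasurable.mul (Lp.aestronglyMeasurable F)
  · rw [norm_mul]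
    exact mul_le_mul_of_nonneg_right (hb ξ) (norm_nonneg _)

theorem mt_spec {μ : E2 → ℂ} (hμ : Measurable μ) {D : ℝ} (hb : ∀ ξ, ‖μ ξ‖ ≤ D)
    (f : Lp ℂ 2 (volume : Measure E2)) :
    ((𝓕 (MT μ f) : Lp ℂ 2 (volume : Measure E2)) : E2 → ℂ) =ᵐ[volume]
      fun ξ => μ ξ * (𝓕 f : Lp ℂ 2 (volume : Measure E2)) ξ := by
  have h := mt_memLp hμ hb (𝓕 f)
  have h1 : MT μ f = 𝓕⁻ (h.toLp _) := by
    unfold MT
    rw [dif_pos h]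
  have h2 : (𝓕 (MT μ f) : Lp ℂ 2 (volume : Measure E2)) = h.toLp _ := by
    rw [h1]
    exact fourier_fourierInv_eq _
  rw [h2]
  exact MemLp.coeFn_toLp h

theorem mt_inj {f g : Lp ℂ 2 (volume : Measure E2)}
    (h : (𝓕 f : Lp ℂ 2 (volume : Measure E2)) = 𝓕 g) : f = g := by
  have h1 : (𝓕⁻ (𝓕 f : Lp ℂ 2 (volume : Measure E2)) : Lp ℂ 2 (volume : Measure E2)) = f :=
    fourierInv_fourier_eq f
  have h2 : (𝓕⁻ (𝓕 g : Lp ℂ 2 (volume : Measure E2)) : Lp ℂ 2 (volume : Measure E2)) = g :=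
    fourierInv_fourier_eq g
  rw [← h1, ← h2, h]

theorem mt_unique {μ : E2 → ℂ} (hμ : Measurable μ) {D : ℝ} (hb : ∀ ξ, ‖μ ξ‖ ≤ D)
    {f g : Lp ℂ 2 (volume : Measure E2)}
    (hg : ((𝓕 g : Lp ℂ 2 (volume : Measure E2)) : E2 → ℂ) =ᵐ[volume]
      fun ξ => μ ξ * (𝓕 f : Lp ℂ 2 (volume : Measure E2)) ξ) : g = MT μ f :=
  mt_inj (Lp.ext (hg.trans (mt_spec hμ hb f).symm))

theorem mt_fadd (f g : Lp ℂ 2 (volume : Measure E2)) :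
    (𝓕 (f + g) : Lp ℂ 2 (volume : Measure E2)) = 𝓕 f + 𝓕 g :=
  (Lp.fourierTransformₗᵢ E2 ℂ).map_add f g

theorem mt_fsmul (c : ℂ) (f : Lp ℂ 2 (volume : Measure E2)) :
    (𝓕 (c • f) : Lp ℂ 2 (volume : Measure E2)) = c • (𝓕 f : Lp ℂ 2 (volume : Measure E2)) :=
  (Lp.fourierTransformₗᵢ E2 ℂ).map_smul c f

theorem mt_fzero : (𝓕 (0 : Lp ℂ 2 (volume : Measure E2)) : Lp ℂ 2 (volume : Measure E2)) = 0 :=
  (Lp.fourierTransformₗᵢ E2 ℂ).map_zero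

theorem mt_add {μ ν : E2 → ℂ} (hμ : Measurable μ) (hν : Measurable ν) {D : ℝ}
    (hb : ∀ ξ, ‖μ ξ‖ ≤ D) (hb' : ∀ ξ, ‖ν ξ‖ ≤ D) (f : Lp ℂ 2 (volume : Measure E2)) :
    MT (fun ξ => μ ξ + ν ξ) f = MT μ f + MT ν f := by
  symm
  refine mt_unique (μ := fun ξ => μ ξ + ν ξ) (hμ.add hν) (D := D + D)
    (fun ξ => (norm_add_le _ _).trans (add_le_add (hb ξ) (hb' ξ))) ?_
  rw [mt_fadd]
  filter_upwards [Lp.coeFn_add (𝓕 (MT μ f) : Lp ℂ 2 (volume : Measure E2)) (𝓕 (MT ν f)),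
    mt_spec hμ hb f, mt_spec hν hb' f] with ξ h1 h2 h3
  rw [h1, Pi.add_apply, h2, h3]
  ring

theorem mt_smul {μ : E2 → ℂ} (hμ : Measurable μ) {D : ℝ} (hb : ∀ ξ, ‖μ ξ‖ ≤ D) (c : ℂ)
    (f : Lp ℂ 2 (volume : Measure E2)) : MT (fun ξ => c * μ ξ) f = c • MT μ f := by
  symm
  refine mt_unique (hμ.const_mul c) (D := ‖c‖ * D) (fun ξ => ?_) ?_
  · rw [norm_mul]
    exact mul_le_mul_of_nonneg_left (hb ξ) (norm_nonneg _)
  rw [mt_fsmul]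
  filter_upwards [Lp.coeFn_smul c (𝓕 (MT μ f) : Lp ℂ 2 (volume : Measure E2)),
    mt_spec hμ hb f] with ξ h1 h2
  rw [h1, Pi.smul_apply, h2, smul_eq_mul]
  ring

theorem mt_zero (f : Lp ℂ 2 (volume : Measure E2)) : MT (fun _ => 0) f = 0 := by
  symm
  refine mt_unique measurable_const (D := 0) (fun ξ => by simp) ?_
  rw [mt_fzero]
  filter_upwards [Lp.coeFn_zero ℂ 2 (volume : Measure E2)] with ξ h1
  rw [h1]
  simp

theorem mt_sum {ι : Type} (s : Finset ι) {μ : ι → E2 → ℂ} (hμ : ∀ i, Measurable (μ i)) {D : ℝ}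
    (hb : ∀ i ξ, ‖μ i ξ‖ ≤ D) (f : Lp ℂ 2 (volume : Measure E2)) :
    MT (fun ξ => ∑ i ∈ s, μ i ξ) f = ∑ i ∈ s, MT (μ i) f := by
  classical
  induction s using Finset.induction_on with
  | empty =>
    simp only [Finset.sum_empty]
    exact mt_zero f
  | insert a s ha ih =>
    have hD : 0 ≤ D := (norm_nonneg _).trans (hb a 0)
    have hs : ∀ ξ, ‖∑ i ∈ s, μ i ξ‖ ≤ (s.card + 1) * D := by
      intro ξ
      refine (norm_sum_le _ _).trans ?_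
      refine (Finset.sum_le_sum fun i _ => hb i ξ).trans ?_
      rw [Finset.sum_const, nsmul_eq_mul]
      nlinarith
    have ha' : ∀ ξ, ‖μ a ξ‖ ≤ (s.card + 1) * D := by
      intro ξ
      refine (hb a ξ).trans ?_
      have : (0 : ℝ) ≤ s.card := Nat.cast_nonneg _
      nlinarith
    simp only [Finset.sum_insert ha]
    rw [mt_add (hμ a) (Finset.measurable_fun_sum s fun i _ => hμ i) ha' hs, ih]

theorem mt_comp {μ ν : E2 → ℂ} (hμ : Measurable μ) (hν : Measurable ν) {D : ℝ}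
    (hb : ∀ ξ, ‖μ ξ‖ ≤ D) (hb' : ∀ ξ, ‖ν ξ‖ ≤ D) (f : Lp ℂ 2 (volume : Measure E2)) :
    MT μ (MT ν f) = MT (fun ξ => μ ξ * ν ξ) f := by
  refine mt_unique (μ := fun ξ => μ ξ * ν ξ) (hμ.mul hν) (D := D * D) (fun ξ => ?_) ?_
  · rw [norm_mul]
    exact mul_le_mul (hb ξ) (hb' ξ) (norm_nonneg _) ((norm_nonneg _).trans (hb ξ))
  filter_upwards [mt_spec hμ hb (MT ν f), mt_spec hν hb' f] with ξ h1 h2
  rw [h1, h2]
  ring

/-- the squared `L²` norm of an element of `Lp` -/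
theorem lp_sq (g : Lp ℂ 2 (volume : Measure E2)) :
    ‖g‖ₑ ^ 2 = ∫⁻ x : E2, ‖g x‖ₑ ^ 2 := by
  rw [Lp.enorm_def, eLpNorm_eq_lintegral_rpow_enorm_toReal (by norm_num) (by norm_num)]
  have h2 : (2 : ℝ≥0∞).toReal = 2 := by norm_num
  rw [h2, ← ENNReal.rpow_natCast, ← ENNReal.rpow_mul]
  norm_num

theorem lp_sq_fourier (g : Lp ℂ 2 (volume : Measure E2)) :
    ∫⁻ x : E2, ‖g x‖ₑ ^ 2 = ∫⁻ ξ : E2, ‖(𝓕 g : Lp ℂ 2 (volume : Measure E2)) ξ‖ₑ ^ 2 := by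
  rw [← lp_sq, ← lp_sq, ← ofReal_norm, ← ofReal_norm, Lp.norm_fourier_eq]

theorem mt_norm {μ : E2 → ℂ} (hμ : Measurable μ) {D : ℝ} (hb : ∀ ξ, ‖μ ξ‖ ≤ D)
    (f : Lp ℂ 2 (volume : Measure E2)) :
    ∫⁻ x : E2, ‖MT μ f x‖ₑ ^ 2 =
      ∫⁻ ξ : E2, ‖μ ξ‖ₑ ^ 2 * ‖(𝓕 f : Lp ℂ 2 (volume : Measure E2)) ξ‖ₑ ^ 2 := by
  rw [lp_sq_fourier]
  refine lintegral_congr_ae ?_
  filter_upwards [mt_spec hμ hb f] with ξ h1
  rw [h1, enorm_mul, mul_pow]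

end Pool.Agent.Hyp
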