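import Pool.Agent.Hyp.Defs

/-!
# Module VDoob: the vector valued maximal inequality

`mx g x = max over n ≤ A of ce n g x`.

**PROOF.** `q = 0` is trivial.  Let `q ≥ 1`.  For `t ≤ A` put `m t i x = max over s ≤ t of
ce s (g i) x` (a function adapted to `t`, nonnegative, nondecreasing in `t`; `m A i = mx (g i)`), and
`Φ t x = ∑ i, m t i x ^2`.  For `t ≥ 1`, pointwise:
`Φ t ^q - Φ (t-1) ^q ≤ q Φ t ^(q-1) (Φ t - Φ (t-1))`,
`Φ t - Φ (t-1) = ∑ i, (m t i ^2 - m (t-1) i ^2) ≤ ∑ i, 2 m t i (m t i - m (t-1) i)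
 = 2 ∑ i, ce t (g i) (m t i - m (t-1) i)`
(where the difference is not zero, `m t i = ce t (g i)`).  Since `Φ t ^(q-1) (m t i - m (t-1) i)` is
adapted to `t`, `av_mul_ce` gives
`av (Φ t ^q) - av (Φ (t-1) ^q) ≤ 2 q av (Φ t ^(q-1) ∑ i, g i (m t i - m (t-1) i))
 ≤ 2 q av (Φ A ^(q-1) ∑ i, g i (m t i - m (t-1) i))`.
The same estimate holds for `t = 0` with `m (-1) = 0`, `Φ (-1) = 0`.  Sum over `t = 0..A`:
`av (Φ A ^q) ≤ 2 q av (Φ A ^(q-1) ∑ i, g i m A i) ≤ 2 q av (Φ A ^(q-1) √G √(Φ A))`, `G = ∑ g i ^2`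
(Cauchy-Schwarz).  With `b = √(Φ A)`, `u = 2 q √G`: `av (b^(2q)) ≤ av (u b^(2q-1))`, so `close_le`
(exponent `2 q = (2q-1) + 1`) gives `av (b^(2q)) ≤ av (u^(2q)) = (4 q^2)^q av (G^q)`.
-/

set_option autoImplicit false

namespace Pool.Agent.Hyp

open Finset

namespace VDoobAux

variable {A : ℕ}

/-- running maxima -/
noncomputable def MM (g : Bits A → ℝ) : ℕ → Bits A → ℝ
  | 0 => fun _ => 0
  | t + 1 => fun x => max (MM g t x) (ce t g x)

theorem MM_nonneg (g : Bits A → ℝ) (t : ℕ) (x : Bits A) : 0 ≤ MM g t x := by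
  induction t with
  | zero => exact le_rfl
  | succ t ih => exact ih.trans (le_max_left _ _)

theorem MM_le_succ (g : Bits A → ℝ) (t : ℕ) (x : Bits A) : MM g t x ≤ MM g (t + 1) x :=
  le_max_left _ _

theorem MM_mono (g : Bits A → ℝ) {s t : ℕ} (h : s ≤ t) (x : Bits A) : MM g s x ≤ MM g t x := by
  induction t, h using Nat.le_induction with
  | base => exact le_rfl
  | succ t _ ih => exact ih.trans (MM_le_succ g t x)

theorem MM_adp (g : Bits A → ℝ) (t : ℕ) : Adp t (MM g (t + 1)) := by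
  induction t with
  | zero => exact Adp.comp2 (adp_const 0 0) (ce_adp 0 g) max
  | succ t ih => exact Adp.comp2 (Adp.mono (Nat.le_succ t) ih) (ce_adp (t + 1) g) max

theorem MM_adp' (g : Bits A → ℝ) (t : ℕ) : Adp t (MM g t) := by
  cases t with
  | zero => exact adp_const 0 0
  | succ t => exact Adp.mono (Nat.le_succ t) (MM_adp g t)

theorem MM_key (g : Bits A → ℝ) (t : ℕ) (x : Bits A) :
    MM g (t + 1) x * (MM g (t + 1) x - MM g t x) = ce t g x * (MM g (t + 1) x - MM g t x) := by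
  show max (MM g t x) (ce t g x) * (max (MM g t x) (ce t g x) - MM g t x) =
    ce t g x * (max (MM g t x) (ce t g x) - MM g t x)
  rcases le_total (MM g t x) (ce t g x) with h | h
  · rw [max_eq_right h]
  · rw [max_eq_left h]
    ring

theorem MM_le_mx (g : Bits A → ℝ) (hg : ∀ x, 0 ≤ g x) (t : ℕ) (x : Bits A) :
    MM g t x ≤ mx g x := by
  induction t with
  | zero => exact mx_nonneg hg x
  | succ t ih => exact max_le ih (le_mx g t x)

theorem MM_eq_mx (g : Bits A → ℝ) (hg : ∀ x, 0 ≤ g x) (x : Bits A) : MM g (A + 1) x = mx g x := by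
  refine le_antisymm (MM_le_mx g hg _ x) ?_
  obtain ⟨n, hn, h1⟩ := exists_mx g x
  rw [h1]
  exact (le_max_right _ _).trans (MM_mono g (show n + 1 ≤ A + 1 by omega) x)

theorem pow_sub_le (p : ℕ) {a b : ℝ} (hb : 0 ≤ b) (h : b ≤ a) :
    a ^ (p + 1) - b ^ (p + 1) ≤ (p + 1) * (a ^ p * (a - b)) := by
  induction p with
  | zero => simp
  | succ p ih =>
    have ha : 0 ≤ a := hb.trans h
    have h1 := mul_le_mul_of_nonneg_left ih ha
    have h2 : b ^ (p + 1) * (a - b) ≤ a ^ (p + 1) * (a - b) :=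
      mul_le_mul_of_nonneg_right (pow_le_pow_left₀ hb h _) (sub_nonneg.2 h)
    push_cast
    have e1 : a ^ (p + 1 + 1) - b ^ (p + 1 + 1) =
        a * (a ^ (p + 1) - b ^ (p + 1)) + b ^ (p + 1) * (a - b) := by ring
    have e2 : a * ((p + 1 : ℝ) * (a ^ p * (a - b))) = (p + 1 : ℝ) * (a ^ (p + 1) * (a - b)) := by
      ring
    rw [e1]
    rw [e2] at h1
    linarith

end VDoobAux

open VDoobAux

theorem vdoob {A : ℕ} {ι : Type} [Fintype ι] (g : ι → Bits A → ℝ) (hg : ∀ i x, 0 ≤ g i x)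
    (q : ℕ) :
    av (fun x => (∑ i, mx (g i) x ^ 2) ^ q) ≤
      (4 * (q : ℝ) ^ 2) ^ q * av (fun x => (∑ i, g i x ^ 2) ^ q) := by
  cases q with
  | zero => simp
  | succ p =>
    set Φ : ℕ → Bits A → ℝ := fun t x => ∑ i, MM (g i) t x ^ 2 with hΦ
    have hΦ0 : ∀ t x, 0 ≤ Φ t x := fun t x => Finset.sum_nonneg fun _ _ => sq_nonneg _
    have hΦm : ∀ s t x, s ≤ t → Φ s x ≤ Φ t x := fun s t x h =>
      Finset.sum_le_sum fun i _ => pow_le_pow_left₀ (MM_nonneg _ _ _) (MM_mono (g i) h x) 2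
    have hΦa : ∀ t, Adp t (Φ (t + 1)) := fun t =>
      Adp.sum Finset.univ fun i _ => (MM_adp (g i) t).comp (fun s => s ^ 2)
    -- one step
    have hstep : ∀ t ≤ A, av (fun x => Φ (t + 1) x ^ (p + 1)) - av (fun x => Φ t x ^ (p + 1)) ≤
        2 * (p + 1) * ∑ i, av (fun x => Φ (A + 1) x ^ p *
          (g i x * (MM (g i) (t + 1) x - MM (g i) t x))) := by
      intro t ht
      rw [← av_sub]
      have h1 : ∀ x, Φ (t + 1) x ^ (p + 1) - Φ t x ^ (p + 1) ≤
          2 * (p + 1) * ∑ i, (Φ (t + 1) x ^ p * (MM (g i) (t + 1) x - MM (g i) t x)) *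
            ce t (g i) x := by
        intro x
        refine (pow_sub_le p (hΦ0 t x) (hΦm t (t + 1) x (Nat.le_succ t))).trans ?_
        have h2 : Φ (t + 1) x - Φ t x ≤
            2 * ∑ i, ce t (g i) x * (MM (g i) (t + 1) x - MM (g i) t x) := by
          show (∑ i, MM (g i) (t + 1) x ^ 2) - ∑ i, MM (g i) t x ^ 2 ≤ _
          rw [← Finset.sum_sub_distrib, Finset.mul_sum]
          refine Finset.sum_le_sum fun i _ => ?_
          rw [← MM_key]
          nlinarith [sq_nonneg (MM (g i) (t + 1) x - MM (g i) t x)]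
        have h3 : Φ (t + 1) x ^ p * (Φ (t + 1) x - Φ t x) ≤ Φ (t + 1) x ^ p *
            (2 * ∑ i, ce t (g i) x * (MM (g i) (t + 1) x - MM (g i) t x)) :=
          mul_le_mul_of_nonneg_left h2 (pow_nonneg (hΦ0 _ _) _)
        refine (mul_le_mul_of_nonneg_left h3 (by positivity)).trans (le_of_eq ?_)
        rw [Finset.mul_sum, Finset.mul_sum, Finset.mul_sum, Finset.mul_sum]
        exact Finset.sum_congr rfl fun i _ => by ring
      refine (av_mono h1).trans ?_
      rw [av_const_mul, av_sum]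
      refine mul_le_mul_of_nonneg_left (Finset.sum_le_sum fun i _ => ?_) (by positivity)
      have hadp : Adp t (fun x => Φ (t + 1) x ^ p * (MM (g i) (t + 1) x - MM (g i) t x)) :=
        ((hΦa t).comp (fun s => s ^ p)).comp2
          ((MM_adp (g i) t).comp2 (MM_adp' (g i) t) (fun a b => a - b)) (fun a b => a * b)
      rw [av_mul_ce hadp]
      refine av_mono fun x => ?_
      have h4 : Φ (t + 1) x ^ p ≤ Φ (A + 1) x ^ p :=
        pow_le_pow_left₀ (hΦ0 _ _) (hΦm _ _ x (by omega)) p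
      have h5 : 0 ≤ g i x * (MM (g i) (t + 1) x - MM (g i) t x) :=
        mul_nonneg (hg i x) (sub_nonneg.2 (MM_le_succ _ _ _))
      have h6 := mul_le_mul_of_nonneg_right h4 h5
      calc Φ (t + 1) x ^ p * (MM (g i) (t + 1) x - MM (g i) t x) * g i x =
          Φ (t + 1) x ^ p * (g i x * (MM (g i) (t + 1) x - MM (g i) t x)) := by ring
        _ ≤ _ := h6
    -- the telescoping sum
    have hsum : ∀ T ≤ A + 1, av (fun x => Φ T x ^ (p + 1)) ≤
        2 * (p + 1) * ∑ i, av (fun x => Φ (A + 1) x ^ p * (g i x * MM (g i) T x)) := by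
      intro T
      induction T with
      | zero =>
        intro _
        have h1 : ∀ x, Φ 0 x ^ (p + 1) = 0 := by
          intro x
          have : Φ 0 x = 0 := by
            show ∑ i, MM (g i) 0 x ^ 2 = 0
            exact Finset.sum_eq_zero fun i _ => by
              show (0 : ℝ) ^ 2 = 0
              norm_num
          rw [this]
          exact zero_pow (Nat.succ_ne_zero p)
        rw [av_congr h1, av_zero]
        have : ∀ i, av (fun x => Φ (A + 1) x ^ p * (g i x * MM (g i) 0 x)) = 0 := by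
          intro i
          rw [av_congr (g := fun _ => 0), av_zero]
          intro x
          show Φ (A + 1) x ^ p * (g i x * 0) = 0
          ring
        rw [Finset.sum_eq_zero fun i _ => this i, mul_zero]
      | succ T ih =>
        intro hT
        have h1 := hstep T (by omega)
        have h2 := ih (by omega)
        have h3 : ∑ i, av (fun x => Φ (A + 1) x ^ p * (g i x * MM (g i) (T + 1) x)) =
            (∑ i, av (fun x => Φ (A + 1) x ^ p * (g i x * MM (g i) T x))) +
            ∑ i, av (fun x => Φ (A + 1) x ^ p *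
              (g i x * (MM (g i) (T + 1) x - MM (g i) T x))) := by
          rw [← Finset.sum_add_distrib]
          refine Finset.sum_congr rfl fun i _ => ?_
          rw [← av_add]
          exact av_congr fun x => by ring
        rw [h3, mul_add]
        linarith
    have hfin := hsum (A + 1) le_rfl
    -- Cauchy-Schwarz
    set G : Bits A → ℝ := fun x => ∑ i, g i x ^ 2 with hG
    have hG0 : ∀ x, 0 ≤ G x := fun x => Finset.sum_nonneg fun _ _ => sq_nonneg _
    have hcs : ∀ x, ∑ i, g i x * MM (g i) (A + 1) x ≤ √(G x) * √(Φ (A + 1) x) := by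
      intro x
      exact Real.sum_mul_le_sqrt_mul_sqrt Finset.univ (fun i => g i x)
        (fun i => MM (g i) (A + 1) x)
    have hb2 : ∀ x, √(Φ (A + 1) x) ^ 2 = Φ (A + 1) x := fun x => Real.sq_sqrt (hΦ0 _ _)
    have hg2 : ∀ x, √(G x) ^ 2 = G x := fun x => Real.sq_sqrt (hG0 _)
    have hcl := close_le (2 * p + 1) (u := fun x => 2 * (p + 1) * √(G x))
      (b := fun x => √(Φ (A + 1) x)) (fun x => by positivity) (fun x => Real.sqrt_nonneg _) (by
        have h1 : ∀ x, √(Φ (A + 1) x) ^ (2 * p + 1 + 1) = Φ (A + 1) x ^ (p + 1) := by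
          intro x
          rw [show 2 * p + 1 + 1 = 2 * (p + 1) by ring, pow_mul, hb2]
        rw [av_congr h1]
        refine hfin.trans ?_
        rw [← av_sum, ← av_const_mul]
        refine av_mono fun x => ?_
        have h2 : ∑ i, Φ (A + 1) x ^ p * (g i x * MM (g i) (A + 1) x) =
            Φ (A + 1) x ^ p * ∑ i, g i x * MM (g i) (A + 1) x := by
          rw [Finset.mul_sum]
        rw [h2]
        have h3 := mul_le_mul_of_nonneg_left (hcs x) (pow_nonneg (hΦ0 (A + 1) x) p)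
        have h4 : √(Φ (A + 1) x) ^ (2 * p + 1) = Φ (A + 1) x ^ p * √(Φ (A + 1) x) := by
          rw [pow_succ, pow_mul, hb2]
        rw [h4]
        have h5 := mul_le_mul_of_nonneg_left h3 (show (0 : ℝ) ≤ 2 * (p + 1) by positivity)
        refine h5.trans (le_of_eq (by ring)))
    have e1 : ∀ x, √(Φ (A + 1) x) ^ (2 * p + 1 + 1) = (∑ i, mx (g i) x ^ 2) ^ (p + 1) := by
      intro x
      rw [show 2 * p + 1 + 1 = 2 * (p + 1) by ring, pow_mul, hb2]
      show (∑ i, MM (g i) (A + 1) x ^ 2) ^ (p + 1) = _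
      simp only [MM_eq_mx (g _) (hg _)]
    have e2 : ∀ x, (2 * (p + 1) * √(G x)) ^ (2 * p + 1 + 1) =
        (4 * ((p + 1 : ℕ) : ℝ) ^ 2) ^ (p + 1) * (∑ i, g i x ^ 2) ^ (p + 1) := by
      intro x
      rw [show 2 * p + 1 + 1 = 2 * (p + 1) by ring, pow_mul, mul_pow, hg2, mul_pow, mul_pow]
      push_cast
      congr 2
      ring
    rw [av_congr e1, av_congr e2, av_const_mul] at hcl
    exact hcl

end Pool.Agent.Hyp
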