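import Pool.Agent.Hyp.Mom2
import Pool.Agent.Hyp.MomW
import Pool.Agent.Hyp.VDoob

/-!
# Module NetA: second part of the net estimate

**PROOF.** Put `q = p + 1`, `W = av2 w`, `h n' x y = ce (t n m n') (fun y' => GG c n' x y') y` and
`Ψ x y = ∑ n', mx (fun y' => |GG c n' x y'|) y ^2`; `|h n' x y| ≤ mx (|GG c n' x ·|) y`
(`abs_ce_le`, `le_mx`).
(1) Fix `y, n, m`.  `moment_w` in the variable `x` with `ι = Unit`, `n0 = n + 1`, weight
`c n m x y ^2` (adapted to `n`, hence to `n + 1`), coefficients `fun _ n' x => if n < n' then h n' x y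
else 0` (adapted to `n'`: `Adp.ce_param`, `GG_adp`; the sum over `n'` in the statement is `bm` of
them): `av_x (c^2 (∑ ..)^(2p)) ≤ (4 p^2)^p av_x (c^2 (∑ n' (if n < n' then h^2 else 0))^p)
≤ (4 p^2)^p av_x (c n m ^2 Ψ^p)`.
(2) Average over `y` and sum over `n, m`: the left side is `≤ (4 p^2)^p av2 (VV Ψ^p)`.
(3) `av2 (Ψ^q) ≤ (4 q^2)^q av2 ((∑ n', GG c n' ^2)^q)` (`vdoob` in `y` for fixed `x`, index set
`Fin A`, `|GG|^2 = GG^2`) `≤ (4 q^2)^q (4 q^2)^q av2 (VV^q)` (`gmom`) `≤ (512 q^6)^q W` (`Mom`).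
(4) Hölder (`av2_holder_le p`, `u = VV`, `b = Ψ`, `s = 32 q^2`, `t = 512 q^6`):
`av2 (VV Ψ^p) ≤ 32 q^2 (512 q^6)^p W`.  Total `≤ (4 q^2)^p 32 q^2 (512 q^6)^p W ≤ (2048 q^8)^q W`.

`net_b` is `net_a` for `swp c` (adapted by `swp_adc`, `VV (swp c) y x = VV c x y`, so
`Mom (swp c) (fun x y => w y x)` by `av2_comm`), with the variables exchanged.
-/

set_option autoImplicit false

namespace Pool.Agent.Hyp

open Finset

/-- the maximal square function of the `GG` -/
noncomputable def PsiA {A : ℕ} (c : Coef A) (x y : Bits A) : ℝ :=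
  ∑ n' : Fin A, mx (fun y' => |GG c n' x y'|) y ^ 2

theorem PsiA_nonneg {A : ℕ} (c : Coef A) (x y : Bits A) : 0 ≤ PsiA c x y :=
  Finset.sum_nonneg fun _ _ => sq_nonneg _

/-- step (1) -/
theorem net_a1 {A : ℕ} {c : Coef A} (hc : AdC c) (t : Fin A → Fin A → Fin A → ℕ) (p : ℕ)
    (n m : Fin A) :
    av2 (fun x y => c n m x y ^ 2 *
        (∑ n' : Fin A, if n < n' then
          sg (x n') * ce (t n m n') (fun y' => GG c n' x y') y else 0) ^ (2 * p)) ≤
      (4 * (p : ℝ) ^ 2) ^ p * av2 (fun x y => c n m x y ^ 2 * PsiA c x y ^ p) := by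
  rw [← av2_comm, ← av2_comm (fun x y => c n m x y ^ 2 * PsiA c x y ^ p)]
  unfold av2
  rw [← av_const_mul]
  refine av_mono fun y => ?_
  have hW : Adp ((n : ℕ) + 1) (fun x => c n m x y ^ 2) :=
    Adp.mono (Nat.le_succ _) (((hc n m).left y).comp (fun r => r ^ 2))
  have h1 := moment_w (ι := Unit) ((n : ℕ) + 1) (fun x => c n m x y ^ 2) (fun x => sq_nonneg _) hW
    (fun _ n' x => if n < n' then ce (t n m n') (fun y' => GG c n' x y') y else 0)
    (by
      intro _ n'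
      by_cases h : n < n'
      · simp only [if_pos h]
        exact Adp.ce_param (f := fun x y' => GG c n' x y') (fun y' => GG_adp hc n' y') y
      · simp only [if_neg h]
        exact adp_const _ _)
    (by
      intro _ n' x hn
      rw [if_neg]
      intro h
      have h2 : (n : ℕ) < (n' : ℕ) := h
      omega) p
  simp only [Finset.univ_unique, Finset.sum_singleton] at h1
  refine le_trans (le_of_eq ?_) (h1.trans (mul_le_mul_of_nonneg_left ?_ (by positivity)))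
  · refine av_congr fun x => ?_
    beta_reduce
    rw [pow_mul]
    congr 2
    unfold bm
    congr 1
    refine Finset.sum_congr rfl fun n' _ => ?_
    beta_reduce
    split_ifs
    · rfl
    · rw [mul_zero]
  · refine av_mono fun x => ?_
    refine mul_le_mul_of_nonneg_left ?_ (sq_nonneg _)
    refine pow_le_pow_left₀ (Finset.sum_nonneg fun _ _ => sq_nonneg _) ?_ p
    unfold PsiA
    refine Finset.sum_le_sum fun n' _ => ?_
    have h3 : |ce (t n m n') (fun y' => GG c n' x y') y| ≤ mx (fun y' => |GG c n' x y'|) y :=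
      (abs_ce_le _ _ _).trans (le_mx _ _ _)
    split_ifs
    · rw [← sq_abs (ce _ _ _)]
      exact pow_le_pow_left₀ (abs_nonneg _) h3 2
    · rw [zero_pow two_ne_zero]
      exact sq_nonneg _

/-- step (3) -/
theorem net_a3 {A : ℕ} {c : Coef A} (hc : AdC c) {w : Bits A → Bits A → ℝ}
    (hM : Mom c w) (p : ℕ) :
    av2 (fun x y => PsiA c x y ^ (p + 1)) ≤ (512 * ((p : ℝ) + 1) ^ 6) ^ (p + 1) * av2 w := by
  have h1 : av2 (fun x y => PsiA c x y ^ (p + 1)) ≤
      (4 * ((p : ℝ) + 1) ^ 2) ^ (p + 1) * av2 (fun x y => (∑ n : Fin A, GG c n x y ^ 2) ^ (p + 1)) := by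
    unfold av2
    rw [← av_const_mul]
    refine av_mono fun x => ?_
    have h2 := vdoob (fun n' : Fin A => fun y => |GG c n' x y|) (fun _ _ => abs_nonneg _) (p + 1)
    simp only [sq_abs] at h2
    push_cast at h2
    exact h2
  have h3 := gmom hc (p + 1)
  have h4 := hM (p + 1) (Nat.le_add_left 1 p)
  push_cast at h3 h4
  have hq : (0 : ℝ) ≤ (4 * ((p : ℝ) + 1) ^ 2) ^ (p + 1) := by positivity
  calc av2 (fun x y => PsiA c x y ^ (p + 1))
      ≤ (4 * ((p : ℝ) + 1) ^ 2) ^ (p + 1) * av2 (fun x y => (∑ n : Fin A, GG c n x y ^ 2) ^ (p + 1)) := h1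
    _ ≤ (4 * ((p : ℝ) + 1) ^ 2) ^ (p + 1) * ((4 * ((p : ℝ) + 1) ^ 2) ^ (p + 1) *
        ((32 * ((p : ℝ) + 1) ^ 2) ^ (p + 1) * av2 w)) :=
        mul_le_mul_of_nonneg_left (h3.trans (mul_le_mul_of_nonneg_left h4 hq)) hq
    _ = (512 * ((p : ℝ) + 1) ^ 6) ^ (p + 1) * av2 w := by
        rw [← mul_assoc, ← mul_assoc, ← mul_pow, ← mul_pow]
        congr 2
        ring

theorem net_a {A : ℕ} {c : Coef A} (hc : AdC c) {w : Bits A → Bits A → ℝ} (hw : Ind w)
    (hM : Mom c w) (t : Fin A → Fin A → Fin A → ℕ) (p : ℕ) :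
    av2 (fun x y => ∑ n : Fin A, ∑ m : Fin A, c n m x y ^ 2 *
        (∑ n' : Fin A, if n < n' then
          sg (x n') * ce (t n m n') (fun y' => GG c n' x y') y else 0) ^ (2 * p)) ≤
      (2048 * ((p : ℝ) + 1) ^ 8) ^ (p + 1) * av2 w := by
  have hW0 : 0 ≤ av2 w := by
    refine av2_nonneg fun x y => ?_
    rcases hw x y with h | h
    · rw [h]
    · rw [h]
      exact zero_le_one
  have h1 : av2 (fun x y => ∑ n : Fin A, ∑ m : Fin A, c n m x y ^ 2 *
        (∑ n' : Fin A, if n < n' then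
          sg (x n') * ce (t n m n') (fun y' => GG c n' x y') y else 0) ^ (2 * p)) ≤
      (4 * (p : ℝ) ^ 2) ^ p * av2 (fun x y => VV c x y * PsiA c x y ^ p) := by
    have h2 : av2 (fun x y => VV c x y * PsiA c x y ^ p) =
        ∑ n : Fin A, ∑ m : Fin A, av2 (fun x y => c n m x y ^ 2 * PsiA c x y ^ p) := by
      rw [Finset.sum_congr rfl (fun n _ => (av2_sum Finset.univ
        (fun m x y => c n m x y ^ 2 * PsiA c x y ^ p)).symm), ← av2_sum]
      refine av2_congr fun x y => ?_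
      unfold VV
      rw [Finset.sum_mul]
      exact Finset.sum_congr rfl fun n _ => Finset.sum_mul _ _ _
    rw [h2, av2_sum, Finset.mul_sum]
    refine Finset.sum_le_sum fun n _ => ?_
    rw [av2_sum, Finset.mul_sum]
    exact Finset.sum_le_sum fun m _ => net_a1 hc t p n m
  have h4 := hM (p + 1) (Nat.le_add_left 1 p)
  push_cast at h4
  have h5 := av2_holder_le p (u := VV c) (b := PsiA c) (VV_nonneg c) (PsiA_nonneg c)
    (s := 32 * ((p : ℝ) + 1) ^ 2) (t := 512 * ((p : ℝ) + 1) ^ 6) (W := av2 w)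
    (by positivity) (by positivity) h4 (net_a3 hc hM p)
  have h6 : (4 * (p : ℝ) ^ 2) ^ p ≤ (4 * ((p : ℝ) + 1) ^ 2) ^ p := by
    refine pow_le_pow_left₀ (by positivity) ?_ p
    nlinarith [(Nat.cast_nonneg p : (0 : ℝ) ≤ p)]
  have hp1 : (1 : ℝ) ≤ (p : ℝ) + 1 := by
    have := (Nat.cast_nonneg p : (0 : ℝ) ≤ p)
    linarith
  have h7 : 32 * ((p : ℝ) + 1) ^ 2 ≤ 2048 * ((p : ℝ) + 1) ^ 8 := by
    have h8 : ((p : ℝ) + 1) ^ 2 ≤ ((p : ℝ) + 1) ^ 8 := pow_le_pow_right₀ hp1 (by norm_num)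
    have h9 : (0 : ℝ) ≤ ((p : ℝ) + 1) ^ 2 := by positivity
    linarith
  calc _ ≤ (4 * (p : ℝ) ^ 2) ^ p * av2 (fun x y => VV c x y * PsiA c x y ^ p) := h1
    _ ≤ (4 * ((p : ℝ) + 1) ^ 2) ^ p *
        (32 * ((p : ℝ) + 1) ^ 2 * (512 * ((p : ℝ) + 1) ^ 6) ^ p * av2 w) := by
        refine mul_le_mul h6 h5 (av2_nonneg fun x y => ?_) (by positivity)
        exact mul_nonneg (VV_nonneg c x y) (pow_nonneg (PsiA_nonneg c x y) p)
    _ = (2048 * ((p : ℝ) + 1) ^ 8) ^ p * (32 * ((p : ℝ) + 1) ^ 2) * av2 w := by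
        have h10 : (2048 * ((p : ℝ) + 1) ^ 8) ^ p =
            (4 * ((p : ℝ) + 1) ^ 2) ^ p * (512 * ((p : ℝ) + 1) ^ 6) ^ p := by
          rw [← mul_pow]
          congr 1
          ring
        rw [h10]
        ring
    _ ≤ (2048 * ((p : ℝ) + 1) ^ 8) ^ p * (2048 * ((p : ℝ) + 1) ^ 8) * av2 w := by
        refine mul_le_mul_of_nonneg_right ?_ hW0
        exact mul_le_mul_of_nonneg_left h7 (by positivity)
    _ = (2048 * ((p : ℝ) + 1) ^ 8) ^ (p + 1) * av2 w := by
        rw [pow_succ (2048 * ((p : ℝ) + 1) ^ 8) p]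

theorem VV_swp {A : ℕ} (c : Coef A) (x y : Bits A) : VV (swp c) x y = VV c y x := by
  unfold VV swp
  exact Finset.sum_comm

theorem net_b {A : ℕ} {c : Coef A} (hc : AdC c) {w : Bits A → Bits A → ℝ} (hw : Ind w)
    (hM : Mom c w) (t : Fin A → Fin A → Fin A → ℕ) (p : ℕ) :
    av2 (fun x y => ∑ n : Fin A, ∑ m : Fin A, c n m x y ^ 2 *
        (∑ m' : Fin A, if m < m' then
          sg (y m') * ce (t n m m') (fun x' => GG (swp c) m' y x') x else 0) ^ (2 * p)) ≤
      (2048 * ((p : ℝ) + 1) ^ 8) ^ (p + 1) * av2 w := by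
  have hM' : Mom (swp c) (fun x y => w y x) := by
    intro q hq
    have h1 := hM q hq
    rw [← av2_comm, ← av2_comm w] at h1
    simp only [VV_swp]
    exact h1
  have h2 := net_a (swp_adc hc) (w := fun x y => w y x) (fun x y => hw y x) hM'
    (fun m n m' => t n m m') p
  rw [av2_comm w] at h2
  refine le_trans (le_of_eq ?_) h2
  rw [← av2_comm]
  refine av2_congr fun x y => ?_
  rw [Finset.sum_comm]
  rfl

end Pool.Agent.Hyp
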