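import Pool.Agent.Hyp.Mom2

/-!
# Module NetE: first part of the net estimate

**PROOF.** Put `q = p + 1`, `W = av2 w`.  Jensen (`av_pow_le`, on `av2` over pairs, for the function
`FF^2`; or Cauchy-Schwarz and `ce_pow_le`): `(ce2 N M (FF c) x y)^(2p) ≤
ce2 N M (fun x y => (FF c x y ^2)^p) x y` (`p = 0` trivial; `|ce2 f| ≤ ce2 |f|`,
`(ce2 |f|)^(2p) ≤ ce2 (|f|^(2p))`).  `c n m ^2` is adapted to `(n+1, m+1)`, so `av2_mul_ce2` gives
`av2 (c n m ^2 (ce2 (n+1) (m+1) FF)^(2p)) ≤ av2 (c n m ^2 (FF^2)^p)`.  Sum over `n, m`: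
the left side is `≤ av2 (VV (FF^2)^p)`.  Hölder (`av2_holder_le p` with `u = VV c`, `b = (FF c)^2`,
`s = 32 q^2`, `t = 512 q^6`): `av2 (VV^q) ≤ (32 q^2)^q W` (`Mom`), `av2 ((FF^2)^q) ≤ (16 q^4)^q
av2 (VV^q) ≤ (16 q^4 * 32 q^2)^q W = (512 q^6)^q W` (`fmom`).  Result
`32 q^2 (512 q^6)^p W ≤ (512 q^6)^q W` (`av2 w ≥ 0` as `Ind w`).
-/

set_option autoImplicit false

namespace Pool.Agent.Hyp

open Finset

theorem NetE_av {α : Type} [Fintype α] [Nonempty α] (g : α → ℝ) (p : ℕ) :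
    av g ^ (2 * p) ≤ av (fun x => (g x ^ 2) ^ p) := by
  rcases p with _ | k
  · simp only [mul_zero, pow_zero, av_const, le_refl]
  · have h0 : Even (2 * k + 1 + 1) := ⟨k + 1, by ring⟩
    have h1 : av g ^ (2 * (k + 1)) = |av g| ^ (2 * k + 1 + 1) := by
      rw [h0.pow_abs]
      congr 1
    rw [h1]
    calc |av g| ^ (2 * k + 1 + 1) ≤ (av fun x => |g x|) ^ (2 * k + 1 + 1) :=
          pow_le_pow_left₀ (abs_nonneg _) (abs_av_le g) _
      _ ≤ av (fun x => |g x| ^ (2 * k + 1 + 1)) := av_pow_le _ (fun _ => abs_nonneg _) _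
      _ = av (fun x => (g x ^ 2) ^ (k + 1)) := av_congr fun x => by
          rw [h0.pow_abs, ← pow_mul]
          congr 1

theorem NetE_ce {A : ℕ} (N M : ℕ) (f : Bits A → Bits A → ℝ) (p : ℕ) (x y : Bits A) :
    ce2 N M f x y ^ (2 * p) ≤ ce2 N M (fun x y => (f x y ^ 2) ^ p) x y := by
  have h1 : ∀ g : Bits A → Bits A → ℝ, ce2 N M g x y =
      av (fun z : Bits A × Bits A => g (glue N x z.1) (glue M y z.2)) := by
    intro g
    unfold ce2
    exact (av_prod (fun z : Bits A × Bits A => g (glue N x z.1) (glue M y z.2))).symm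
  rw [h1, h1]
  exact NetE_av (fun z : Bits A × Bits A => f (glue N x z.1) (glue M y z.2)) p

theorem net_e {A : ℕ} {c : Coef A} (hc : AdC c) {w : Bits A → Bits A → ℝ} (hw : Ind w)
    (hM : Mom c w) (p : ℕ) :
    av2 (fun x y => ∑ n : Fin A, ∑ m : Fin A,
        c n m x y ^ 2 * (ce2 ((n : ℕ) + 1) ((m : ℕ) + 1) (FF c) x y) ^ (2 * p)) ≤
      (512 * ((p : ℝ) + 1) ^ 6) ^ (p + 1) * av2 w := by
  have hW : 0 ≤ av2 w := av2_nonneg fun x y => by
    rcases hw x y with h | h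
    · rw [h]
    · rw [h]
      exact zero_le_one
  have h1 : av2 (fun x y => ∑ n : Fin A, ∑ m : Fin A,
        c n m x y ^ 2 * (ce2 ((n : ℕ) + 1) ((m : ℕ) + 1) (FF c) x y) ^ (2 * p)) ≤
      av2 (fun x y => VV c x y * (FF c x y ^ 2) ^ p) := by
    have e1 : av2 (fun x y => ∑ n : Fin A, ∑ m : Fin A,
        c n m x y ^ 2 * (ce2 ((n : ℕ) + 1) ((m : ℕ) + 1) (FF c) x y) ^ (2 * p)) =
        ∑ n : Fin A, ∑ m : Fin A, av2 (fun x y =>
          c n m x y ^ 2 * (ce2 ((n : ℕ) + 1) ((m : ℕ) + 1) (FF c) x y) ^ (2 * p)) := by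
      rw [av2_sum]
      exact Finset.sum_congr rfl fun n _ => av2_sum _ _
    have e2 : av2 (fun x y => VV c x y * (FF c x y ^ 2) ^ p) =
        ∑ n : Fin A, ∑ m : Fin A, av2 (fun x y => c n m x y ^ 2 * (FF c x y ^ 2) ^ p) := by
      have e3 : ∀ x y, VV c x y * (FF c x y ^ 2) ^ p =
          ∑ n : Fin A, ∑ m : Fin A, c n m x y ^ 2 * (FF c x y ^ 2) ^ p := by
        intro x y
        unfold VV
        rw [Finset.sum_mul]
        exact Finset.sum_congr rfl fun n _ => Finset.sum_mul _ _ _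
      rw [av2_congr e3, av2_sum]
      exact Finset.sum_congr rfl fun n _ => av2_sum _ _
    rw [e1, e2]
    refine Finset.sum_le_sum fun n _ => Finset.sum_le_sum fun m _ => ?_
    have hadp : Adp2 ((n : ℕ) + 1) ((m : ℕ) + 1) (fun x y => c n m x y ^ 2) := by
      intro x y b b'
      have h2 := (hc n m).mono (Nat.le_succ (n : ℕ)) (Nat.le_succ (m : ℕ)) x y b b'
      simp only [Nat.succ_eq_add_one] at h2
      simp only [h2]
    rw [← av2_mul_ce2 hadp (fun x y => (FF c x y ^ 2) ^ p)]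
    exact av2_mono fun x y => mul_le_mul_of_nonneg_left (NetE_ce _ _ _ p x y) (sq_nonneg _)
  have hq : (1 : ℝ) ≤ (p : ℝ) + 1 := by
    have : (0 : ℝ) ≤ (p : ℝ) := Nat.cast_nonneg p
    linarith
  have hq0 : (0 : ℝ) < (p : ℝ) + 1 := by linarith
  have hcast : ((p + 1 : ℕ) : ℝ) = (p : ℝ) + 1 := by push_cast; ring
  have hm1 : av2 (fun x y => VV c x y ^ (p + 1)) ≤
      (32 * ((p : ℝ) + 1) ^ 2) ^ (p + 1) * av2 w := by
    have := hM (p + 1) (by omega)
    rwa [hcast] at this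
  have hm2 : av2 (fun x y => (FF c x y ^ 2) ^ (p + 1)) ≤
      (512 * ((p : ℝ) + 1) ^ 6) ^ (p + 1) * av2 w := by
    have h2 := fmom hc (p + 1)
    rw [hcast] at h2
    refine h2.trans ?_
    refine (mul_le_mul_of_nonneg_left hm1 (by positivity)).trans (le_of_eq ?_)
    rw [← mul_assoc, ← mul_pow]
    congr 2
    ring
  have h3 := av2_holder_le p (u := VV c) (b := fun x y => FF c x y ^ 2)
    (fun x y => VV_nonneg c x y) (fun x y => sq_nonneg _)
    (s := 32 * ((p : ℝ) + 1) ^ 2) (t := 512 * ((p : ℝ) + 1) ^ 6) (W := av2 w)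
    (by positivity) (by positivity) hm1 hm2
  refine h1.trans (h3.trans ?_)
  apply mul_le_mul_of_nonneg_right _ hW
  rw [pow_succ' (512 * ((p : ℝ) + 1) ^ 6) p]
  apply mul_le_mul_of_nonneg_right _ (by positivity)
  have h4 : ((p : ℝ) + 1) ^ 2 ≤ ((p : ℝ) + 1) ^ 6 := pow_le_pow_right₀ hq (by norm_num)
  have h5 : 0 ≤ ((p : ℝ) + 1) ^ 6 := by positivity
  linarith

end Pool.Agent.Hyp
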