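import Pool.Agent.Hyp.NetS
import Pool.Agent.Hyp.NetE
import Pool.Agent.Hyp.NetA

/-!
# Module Net: the net estimate

**PROOF.** For every `n, m` use `S_split_net` with `k = k n m`: `SS = e + a + b`.
`(e + a + b)^(2p) ≤ 9^p (e^(2p) + a^(2p) + b^(2p))` (`|e + a + b| ≤ 3 max`).  Sum up, `net_e`,
`net_a` (`t n m n' = k n m - n'`), `net_b` (`t n m m' = min (n+1) (k n m - m')`), `q = p + 1`:
`9^p ((512 q^6)^q + 2 (2048 q^8)^q) ≤ 3 * 9^p (2048 q^8)^q ≤ (18432 q^8)^q ≤ (100000 q^8)^q`.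
-/

set_option autoImplicit false

namespace Pool.Agent.Hyp

open Finset

theorem Net_pow3 (x y z : ℝ) (p : ℕ) :
    (x + y + z) ^ (2 * p) ≤ 9 ^ p * (x ^ (2 * p) + y ^ (2 * p) + z ^ (2 * p)) := by
  have hx : 0 ≤ x ^ (2 * p) := by rw [pow_mul]; positivity
  have hy : 0 ≤ y ^ (2 * p) := by rw [pow_mul]; positivity
  have hz : 0 ≤ z ^ (2 * p) := by rw [pow_mul]; positivity
  have key : ∀ t : ℝ, |x| ≤ |t| → |y| ≤ |t| → |z| ≤ |t| →
      (x + y + z) ^ (2 * p) ≤ 9 ^ p * t ^ (2 * p) := by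
    intro t h1 h2 h3
    have h4 : |x + y + z| ≤ |3 * t| := by
      rw [abs_mul, abs_of_pos (by norm_num : (0 : ℝ) < 3)]
      have := abs_add_three x y z
      linarith
    have h5 : (x + y + z) ^ 2 ≤ (3 * t) ^ 2 := sq_le_sq.2 h4
    calc (x + y + z) ^ (2 * p) = ((x + y + z) ^ 2) ^ p := by rw [pow_mul]
      _ ≤ ((3 * t) ^ 2) ^ p := pow_le_pow_left₀ (sq_nonneg _) h5 p
      _ = 9 ^ p * t ^ (2 * p) := by
        rw [pow_mul t 2 p, ← mul_pow]
        congr 1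
        ring
  have h9 : (0 : ℝ) ≤ 9 ^ p := by positivity
  rcases le_total |x| |y| with h | h
  · rcases le_total |y| |z| with h' | h'
    · refine (key z (h.trans h') h' le_rfl).trans ?_
      exact mul_le_mul_of_nonneg_left (by linarith) h9
    · refine (key y h le_rfl h').trans ?_
      exact mul_le_mul_of_nonneg_left (by linarith) h9
  · rcases le_total |x| |z| with h' | h'
    · refine (key z h' (h.trans h') le_rfl).trans ?_
      exact mul_le_mul_of_nonneg_left (by linarith) h9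
    · refine (key x le_rfl h h').trans ?_
      exact mul_le_mul_of_nonneg_left (by linarith) h9

theorem net {A : ℕ} {c : Coef A} (hc : AdC c) {w : Bits A → Bits A → ℝ} (hw : Ind w)
    (hM : Mom c w) (k : Fin A → Fin A → ℕ) (hk : ∀ n m : Fin A, (n : ℕ) + m < k n m) (p : ℕ) :
    av2 (fun x y => ∑ n : Fin A, ∑ m : Fin A,
        c n m x y ^ 2 * SS c 0 (k n m) x y ^ (2 * p)) ≤
      (100000 * ((p : ℝ) + 1) ^ 8) ^ (p + 1) * av2 w := by
  have hW : 0 ≤ av2 w := av2_nonneg fun x y => by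
    rcases hw x y with h | h
    · rw [h]
    · rw [h]; exact zero_le_one
  have h1 := net_e hc hw hM p
  have h2 := net_a hc hw hM (fun n m n' => k n m - n') p
  have h3 := net_b hc hw hM (fun n m m' => min ((n : ℕ) + 1) (k n m - m')) p
  set E : Bits A → Bits A → ℝ := fun x y => ∑ n : Fin A, ∑ m : Fin A,
        c n m x y ^ 2 * (ce2 ((n : ℕ) + 1) ((m : ℕ) + 1) (FF c) x y) ^ (2 * p) with hE
  set Aa : Bits A → Bits A → ℝ := fun x y => ∑ n : Fin A, ∑ m : Fin A, c n m x y ^ 2 *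
        (∑ n' : Fin A, if n < n' then
          sg (x n') * ce (k n m - n') (fun y' => GG c n' x y') y else 0) ^ (2 * p) with hAa
  set B : Bits A → Bits A → ℝ := fun x y => ∑ n : Fin A, ∑ m : Fin A, c n m x y ^ 2 *
        (∑ m' : Fin A, if m < m' then
          sg (y m') * ce (min ((n : ℕ) + 1) (k n m - m')) (fun x' => GG (swp c) m' y x') x
          else 0) ^ (2 * p) with hB
  have hpt : ∀ x y, ∑ n : Fin A, ∑ m : Fin A, c n m x y ^ 2 * SS c 0 (k n m) x y ^ (2 * p) ≤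
      9 ^ p * (E x y + Aa x y + B x y) := by
    intro x y
    rw [hE, hAa, hB]
    simp only
    rw [← Finset.sum_add_distrib, ← Finset.sum_add_distrib, Finset.mul_sum]
    refine Finset.sum_le_sum fun n _ => ?_
    rw [← Finset.sum_add_distrib, ← Finset.sum_add_distrib, Finset.mul_sum]
    refine Finset.sum_le_sum fun m _ => ?_
    rw [S_split_net hc n m (k n m) (hk n m) x y, ← mul_add, ← mul_add, mul_left_comm]
    exact mul_le_mul_of_nonneg_left (Net_pow3 _ _ _ p) (sq_nonneg _)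
  have h4 : av2 (fun x y => ∑ n : Fin A, ∑ m : Fin A,
        c n m x y ^ 2 * SS c 0 (k n m) x y ^ (2 * p)) ≤ 9 ^ p * (av2 E + av2 Aa + av2 B) := by
    refine (av2_mono hpt).trans (le_of_eq ?_)
    rw [av2_const_mul, av2_add, av2_add]
  refine h4.trans ?_
  have hQ : (1 : ℝ) ≤ (p : ℝ) + 1 := by
    have : (0 : ℝ) ≤ p := Nat.cast_nonneg p
    linarith
  have h5 : (512 * ((p : ℝ) + 1) ^ 6) ^ (p + 1) ≤ (2048 * ((p : ℝ) + 1) ^ 8) ^ (p + 1) := by
    refine pow_le_pow_left₀ (by positivity) ?_ _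
    have := pow_le_pow_right₀ hQ (show 6 ≤ 8 by norm_num)
    have h0 : (0 : ℝ) ≤ ((p : ℝ) + 1) ^ 8 := by positivity
    linarith
  have h6 : (9 : ℝ) ^ p * 3 ≤ 9 ^ (p + 1) := by
    rw [pow_succ]
    have : (0 : ℝ) ≤ 9 ^ p := by positivity
    linarith
  have h7 : 0 ≤ (2048 * ((p : ℝ) + 1) ^ 8) ^ (p + 1) := by positivity
  calc 9 ^ p * (av2 E + av2 Aa + av2 B)
      ≤ 9 ^ p * ((512 * ((p : ℝ) + 1) ^ 6) ^ (p + 1) * av2 w +
        (2048 * ((p : ℝ) + 1) ^ 8) ^ (p + 1) * av2 w +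
        (2048 * ((p : ℝ) + 1) ^ 8) ^ (p + 1) * av2 w) := by
        refine mul_le_mul_of_nonneg_left ?_ (by positivity)
        exact add_le_add (add_le_add h1 h2) h3
    _ ≤ 9 ^ p * (3 * ((2048 * ((p : ℝ) + 1) ^ 8) ^ (p + 1) * av2 w)) := by
        refine mul_le_mul_of_nonneg_left ?_ (by positivity)
        have := mul_le_mul_of_nonneg_right h5 hW
        linarith
    _ = (9 ^ p * 3) * ((2048 * ((p : ℝ) + 1) ^ 8) ^ (p + 1) * av2 w) := by ring
    _ ≤ 9 ^ (p + 1) * ((2048 * ((p : ℝ) + 1) ^ 8) ^ (p + 1) * av2 w) :=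
        mul_le_mul_of_nonneg_right h6 (mul_nonneg h7 hW)
    _ = (9 * (2048 * ((p : ℝ) + 1) ^ 8)) ^ (p + 1) * av2 w := by rw [mul_pow 9]; ring
    _ ≤ (100000 * ((p : ℝ) + 1) ^ 8) ^ (p + 1) * av2 w := by
        refine mul_le_mul_of_nonneg_right (pow_le_pow_left₀ (by positivity) ?_ _) hW
        have h0 : (0 : ℝ) ≤ ((p : ℝ) + 1) ^ 8 := by positivity
        linarith

end Pool.Agent.Hyp
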