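import Pool.Agent.Hyp.Defs

set_option autoImplicit false

/-!
# Module NetS: splitting of a partial sum at a cell

**PROOF of `ce_GG`.** `GG c n x y' = ∑ m, sg (y' m) * c n m x y'`; `ce t` of the term `m` is the term
itself if `m < t` (`ce_sg_mul_of_lt`) and `0` if `t ≤ m` (`ce_sg_mul`), as `c n m x` is adapted to
`m` (`(hc n m).right x`); `ce_sum`.
**PROOF of `ce2_FF`.** `ce2 N M f x y = ce N (fun x' => ce M (f x') y) x` (`ce2_eq`), the same two
facts in both variables: the term `(n', m')` of `FF` survives iff `n' < N` and `m' < M`.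
**PROOF of `S_split_net`.** All three terms are sums of `dd c n' m' x y` over pairs: the first over
`n' ≤ n, m' ≤ m` (`ce2_FF`), the second over `n' > n`, `m' < k - n'` (`ce_GG`), the third over
`m' > m`, `n' < min (n+1) (k - m')` (`ce_GG` for `swp c`).  Since `n + m < k`, the three sets are
disjoint and their union is `{n' + m' < k}`.  (Compare term by term after writing all sums as
`∑ n', ∑ m', if _ then dd c n' m' x y else 0`.)
-/

namespace Pool.Agent.Hyp

open Finset

theorem ce_GG {A : ℕ} {c : Coef A} (hc : AdC c) (t : ℕ) (n : Fin A) (x y : Bits A) :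
    ce t (fun y' => GG c n x y') y =
      ∑ m : Fin A, if (m : ℕ) < t then sg (y m) * c n m x y else 0 := by
  unfold GG
  rw [ce_sum]
  refine sum_congr rfl fun m _ => ?_
  split_ifs with h
  · exact ce_sg_mul_of_lt m h ((hc n m).right x) y
  · exact ce_sg_mul m (not_lt.1 h) ((hc n m).right x) y

/-- the conditional average of `FF` in one variable -/
theorem ce_FF {A : ℕ} {c : Coef A} (hc : AdC c) (M : ℕ) (x y : Bits A) :
    ce M (fun y' => FF c x y') y =
      ∑ n : Fin A, sg (x n) * ∑ m : Fin A, if (m : ℕ) < M then sg (y m) * c n m x y else 0 := by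
  have e : (fun y' => FF c x y') = fun y' => ∑ n : Fin A, sg (x n) * GG c n x y' := by
    funext y'
    unfold FF GG dd
    refine sum_congr rfl fun n _ => ?_
    rw [mul_sum]
    exact sum_congr rfl fun m _ => by ring
  rw [e, ce_sum]
  refine sum_congr rfl fun n _ => ?_
  rw [ce_const_mul, ce_GG hc]

theorem ce2_FF {A : ℕ} {c : Coef A} (hc : AdC c) (N M : ℕ) (x y : Bits A) :
    ce2 N M (FF c) x y =
      ∑ n : Fin A, ∑ m : Fin A, if (n : ℕ) < N ∧ (m : ℕ) < M then dd c n m x y else 0 := by
  rw [ce2_eq]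
  simp only [ce_FF hc]
  rw [ce_sum]
  refine sum_congr rfl fun n _ => ?_
  have hadp : Adp (n : ℕ) (fun x : Bits A => ∑ m : Fin A,
      if (m : ℕ) < M then sg (y m) * c n m x y else 0) := by
    refine Adp.sum _ fun m _ => ?_
    intro x b
    simp only
    have := (hc n m).left y x b
    simp only at this
    rw [this]
  by_cases h : (n : ℕ) < N
  · rw [ce_sg_mul_of_lt n h hadp, mul_sum]
    refine sum_congr rfl fun m _ => ?_
    by_cases hm : (m : ℕ) < M
    · rw [if_pos hm, if_pos ⟨h, hm⟩]
      unfold dd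
      ring
    · rw [if_neg hm, if_neg (fun h' => hm h'.2), mul_zero]
  · rw [ce_sg_mul n (not_lt.1 h) hadp]
    symm
    exact sum_eq_zero fun m _ => if_neg (fun h' => h h'.1)

theorem S_split_net {A : ℕ} {c : Coef A} (hc : AdC c) (n m : Fin A) (k : ℕ)
    (hk : (n : ℕ) + m < k) (x y : Bits A) :
    SS c 0 k x y = ce2 ((n : ℕ) + 1) ((m : ℕ) + 1) (FF c) x y +
      (∑ n' : Fin A, if n < n' then sg (x n') * ce (k - n') (fun y' => GG c n' x y') y else 0) +
      (∑ m' : Fin A, if m < m' then
        sg (y m') * ce (min ((n : ℕ) + 1) (k - m')) (fun x' => GG (swp c) m' y x') x else 0) := by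
  have e2 : (∑ n' : Fin A, if n < n' then sg (x n') * ce (k - n') (fun y' => GG c n' x y') y
      else 0) = ∑ n' : Fin A, ∑ m' : Fin A,
        if n < n' ∧ (m' : ℕ) < k - n' then dd c n' m' x y else 0 := by
    refine sum_congr rfl fun n' _ => ?_
    by_cases h : n < n'
    · rw [if_pos h, ce_GG hc, mul_sum]
      refine sum_congr rfl fun m' _ => ?_
      by_cases h2 : (m' : ℕ) < k - n'
      · rw [if_pos h2, if_pos ⟨h, h2⟩]
        unfold dd
        ring
      · rw [if_neg h2, if_neg (fun h' => h2 h'.2), mul_zero]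
    · rw [if_neg h]
      symm
      exact sum_eq_zero fun m' _ => if_neg (fun h' => h h'.1)
  have e3 : (∑ m' : Fin A, if m < m' then
        sg (y m') * ce (min ((n : ℕ) + 1) (k - m')) (fun x' => GG (swp c) m' y x') x else 0) =
      ∑ n' : Fin A, ∑ m' : Fin A,
        if m < m' ∧ (n' : ℕ) < min ((n : ℕ) + 1) (k - m') then dd c n' m' x y else 0 := by
    rw [sum_comm]
    refine sum_congr rfl fun m' _ => ?_
    by_cases h : m < m'
    · rw [if_pos h, ce_GG (swp_adc hc), mul_sum]
      refine sum_congr rfl fun n' _ => ?_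
      by_cases h2 : (n' : ℕ) < min ((n : ℕ) + 1) (k - m')
      · rw [if_pos h2, if_pos ⟨h, h2⟩]
        unfold dd swp
        ring
      · rw [if_neg h2, if_neg (fun h' => h2 h'.2), mul_zero]
    · rw [if_neg h]
      symm
      exact sum_eq_zero fun n' _ => if_neg (fun h' => h h'.1)
  rw [e2, e3, ce2_FF hc]
  unfold SS
  rw [← sum_add_distrib, ← sum_add_distrib]
  refine sum_congr rfl fun n' _ => ?_
  rw [← sum_add_distrib, ← sum_add_distrib]
  refine sum_congr rfl fun m' _ => ?_
  generalize dd c n' m' x y = D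
  simp only [Fin.lt_def, lt_min_iff]
  by_cases a1 : (n' : ℕ) < (n : ℕ) + 1 <;> by_cases a2 : (m' : ℕ) < (m : ℕ) + 1 <;>
    by_cases a3 : (n' : ℕ) + m' < k
  · rw [if_pos ⟨Nat.zero_le _, a3⟩, if_pos ⟨a1, a2⟩, if_neg (fun h => by omega),
      if_neg (fun h => by omega)]
    ring
  · omega
  · rw [if_pos ⟨Nat.zero_le _, a3⟩, if_neg (fun h => by omega), if_neg (fun h => by omega),
      if_pos ⟨by omega, a1, by omega⟩]
    ring
  · rw [if_neg (fun h => by omega), if_neg (fun h => by omega), if_neg (fun h => by omega),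
      if_neg (fun h => by omega)]
    ring
  · rw [if_pos ⟨Nat.zero_le _, a3⟩, if_neg (fun h => by omega), if_pos ⟨by omega, by omega⟩,
      if_neg (fun h => by omega)]
    ring
  · rw [if_neg (fun h => by omega), if_neg (fun h => by omega), if_neg (fun h => by omega),
      if_neg (fun h => by omega)]
    ring
  · rw [if_pos ⟨Nat.zero_le _, a3⟩, if_neg (fun h => by omega), if_pos ⟨by omega, by omega⟩,
      if_neg (fun h => by omega)]
    ring
  · rw [if_neg (fun h => by omega), if_neg (fun h => by omega), if_neg (fun h => by omega),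
      if_neg (fun h => by omega)]
    ring

end Pool.Agent.Hyp
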