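import Mathlib

/-!
# Module Num: a numerical inequality

**PROOF.** `u ^ 3 ≤ exp (3 r) = (exp 3)^r ≤ 21^r` (`exp 1 < 2.7182818286`, `Real.exp_one_lt_d9`,
`exp 3 = (exp 1)^3 < 21`).  `2 r + 1 ≤ 3 r`, so `(2r+1)^8 ≤ 6561 r^8` and
`100000 * 6561 ≤ 10^9`: the last factor is `≤ (10^9 r^8)^(2r+1) = (10^18 r^16)^r * (10^9 r^8)`.
`r < 2^r`, so `r^8 ≤ 256^r`.  Left side
`≤ 16^r * 4000 * 21^r * (10^18 r^16)^r * 10^9 * 256^r = (16 * 21 * 256 * 10^18 r^16)^r * (4 * 10^12)`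
and `4 * 10^12 ≤ (4 * 10^12)^r`; `16 * 21 * 256 * 4 * 10^12 ≤ 10^20`.
-/

set_option autoImplicit false

namespace Pool.Agent.Hyp

theorem num_beta (r : ℕ) (hr : 1 ≤ r) (u : ℝ) (hu : 0 ≤ u) (hur : u ≤ Real.exp r) :
    16 ^ r * (4000 * u ^ 3) * (100000 * (((2 * r : ℕ) : ℝ) + 1) ^ 8) ^ (2 * r + 1) ≤
      (10 ^ 38 * (r : ℝ) ^ 16) ^ r := by
  have hR : (1 : ℝ) ≤ r := by exact_mod_cast hr
  have hR0 : (0 : ℝ) < r := by linarith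
  have h3 : Real.exp 3 ≤ 21 := by
    have h : Real.exp 3 = Real.exp 1 ^ 3 := by
      rw [← Real.exp_nat_mul]
      norm_num
    rw [h]
    calc Real.exp 1 ^ 3 ≤ (2.7182818286 : ℝ) ^ 3 :=
          pow_le_pow_left₀ (Real.exp_pos 1).le Real.exp_one_lt_d9.le 3
      _ ≤ 21 := by norm_num
  have hu3 : u ^ 3 ≤ 21 ^ r := by
    calc u ^ 3 ≤ Real.exp r ^ 3 := pow_le_pow_left₀ hu hur 3
      _ = Real.exp 3 ^ r := by
          rw [← Real.exp_nat_mul, ← Real.exp_nat_mul]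
          congr 1
          push_cast
          ring
      _ ≤ 21 ^ r := pow_le_pow_left₀ (Real.exp_pos 3).le h3 r
  have h2 : (100000 * (((2 * r : ℕ) : ℝ) + 1) ^ 8) ≤ 10 ^ 9 * (r : ℝ) ^ 8 := by
    have h4 : ((2 * r : ℕ) : ℝ) + 1 ≤ 3 * r := by
      push_cast
      linarith
    calc (100000 * (((2 * r : ℕ) : ℝ) + 1) ^ 8) ≤ 100000 * (3 * (r : ℝ)) ^ 8 := by
          gcongr
      _ = 656100000 * (r : ℝ) ^ 8 := by ring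
      _ ≤ 10 ^ 9 * (r : ℝ) ^ 8 := by
          have : (0 : ℝ) ≤ (r : ℝ) ^ 8 := by positivity
          nlinarith
  have h256 : (r : ℝ) ^ 8 ≤ 256 ^ r := by
    have h5 : (r : ℝ) ≤ 2 ^ r := by exact_mod_cast Nat.lt_two_pow_self.le
    calc (r : ℝ) ^ 8 ≤ ((2 : ℝ) ^ r) ^ 8 := pow_le_pow_left₀ hR0.le h5 8
      _ = 256 ^ r := by
          rw [← pow_mul, mul_comm, pow_mul]
          norm_num
  have hlast : (100000 * (((2 * r : ℕ) : ℝ) + 1) ^ 8) ^ (2 * r + 1) ≤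
      (10 ^ 18 * (r : ℝ) ^ 16) ^ r * (10 ^ 9 * 256 ^ r) := by
    calc (100000 * (((2 * r : ℕ) : ℝ) + 1) ^ 8) ^ (2 * r + 1)
        ≤ (10 ^ 9 * (r : ℝ) ^ 8) ^ (2 * r + 1) := pow_le_pow_left₀ (by positivity) h2 _
      _ = (10 ^ 18 * (r : ℝ) ^ 16) ^ r * (10 ^ 9 * (r : ℝ) ^ 8) := by
          rw [pow_succ, pow_mul]
          congr 2
          ring
      _ ≤ (10 ^ 18 * (r : ℝ) ^ 16) ^ r * (10 ^ 9 * 256 ^ r) := by gcongr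
  have h4 : (4 * 10 ^ 12 : ℝ) ≤ (4 * 10 ^ 12) ^ r := by
    calc (4 * 10 ^ 12 : ℝ) = (4 * 10 ^ 12) ^ 1 := (pow_one _).symm
      _ ≤ (4 * 10 ^ 12) ^ r := pow_le_pow_right₀ (by norm_num) hr
  calc 16 ^ r * (4000 * u ^ 3) * (100000 * (((2 * r : ℕ) : ℝ) + 1) ^ 8) ^ (2 * r + 1)
      ≤ 16 ^ r * (4000 * 21 ^ r) * ((10 ^ 18 * (r : ℝ) ^ 16) ^ r * (10 ^ 9 * 256 ^ r)) := by
        gcongr
    _ = (16 * 21 * 256 * (10 ^ 18 * (r : ℝ) ^ 16)) ^ r * (4 * 10 ^ 12) := by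
        have e : (16 * 21 * 256 * (10 ^ 18 * (r : ℝ) ^ 16)) ^ r =
            16 ^ r * 21 ^ r * 256 ^ r * (10 ^ 18 * (r : ℝ) ^ 16) ^ r := by
          rw [mul_pow, mul_pow, mul_pow]
        rw [e]
        generalize (10 ^ 18 * (r : ℝ) ^ 16) ^ r = t
        generalize (16 : ℝ) ^ r = t1
        generalize (21 : ℝ) ^ r = t2
        generalize (256 : ℝ) ^ r = t3
        ring
    _ ≤ (16 * 21 * 256 * (10 ^ 18 * (r : ℝ) ^ 16)) ^ r * (4 * 10 ^ 12) ^ r := by gcongr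
    _ = (16 * 21 * 256 * (10 ^ 18 * (r : ℝ) ^ 16) * (4 * 10 ^ 12)) ^ r := by rw [← mul_pow]
    _ ≤ (10 ^ 38 * (r : ℝ) ^ 16) ^ r := by
        refine pow_le_pow_left₀ (by positivity) ?_ r
        have : (0 : ℝ) ≤ (r : ℝ) ^ 16 := by positivity
        nlinarith

end Pool.Agent.Hyp
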