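import Pool.Agent.Hyp.Defs

/-!
# Module Ptw: pointwise bound of the maximal function off the bad sets

**PROOF.** If `w x y ≠ 1` then `TT c K x y = 0` (`TT_eq_zero`) and the right side is `≥ 0` (even
powers; `w x y = 0`), `0 ^ (2q) = 0` as `q ≥ 1`.  If `K = ∅`, `TT = 0` as well.  Otherwise `w x y = 1`;
let `k ∈ K` with `TT c K x y = |SS c 0 k x y|` (`exists_TT`).  Since not `Bad1`, `Good c ρ M k x y`:
(a) `VW c 0 k x y ≤ ρ^2`: since not `Bad2` (with `k' = 0`) `|SS c 0 k x y| < 1`, so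
`TT^(2q) ≤ 1 ≤ 4^q w x y`.
(b) there are `n, m` with `cell n m x y ∈ M`, `l := n + m + 1 ≤ k`, `VW c l k x y ≤ ρ^2`.  Put
`k' = nx K l ∈ K`, `l ≤ k' ≤ k` (`nx_mem`, `le_nx`, `nx_le`).  `VW c k' k x y ≤ VW c l k x y ≤ ρ^2`
(`VW_mono`), so since not `Bad2`: `|SS c k' k x y| < 1`; `SS c 0 k = SS c 0 k' + SS c k' k`
(`SS_split`), so `TT = |SS c 0 k| ≤ |SS c 0 k'| + 1 ≤ 2 max (|SS c 0 k'|) 1` and
`TT^(2q) ≤ 4^q (1 + SS c 0 k' x y ^(2q))`; the second term is one of the (nonnegative) terms of the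
sum over the marks.
-/

set_option autoImplicit false

namespace Pool.Agent.Hyp

open Finset Classical

theorem ptw {A : ℕ} {c : Coef A} {w : Bits A → Bits A → ℝ} (hw : Ind w) (hs : Sup c w)
    (K : Finset ℕ) {ρ : ℝ} (M : Finset (Cell A)) (q : ℕ) (hq : 1 ≤ q) (x y : Bits A)
    (h1 : ¬ Bad1 c w K ρ M x y) (h2 : ¬ Bad2 c K ρ x y) :
    TT c K x y ^ (2 * q) ≤ 4 ^ q * (w x y + ∑ n : Fin A, ∑ m : Fin A,
      if cell n m x y ∈ M then SS c 0 (nx K ((n : ℕ) + m + 1)) x y ^ (2 * q) else 0) := by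
  have hev : ∀ t : ℝ, 0 ≤ t ^ (2 * q) := fun t => by
    rw [pow_mul]
    positivity
  have hterm : ∀ n m : Fin A, 0 ≤
      (if cell n m x y ∈ M then SS c 0 (nx K ((n : ℕ) + m + 1)) x y ^ (2 * q) else 0) := by
    intro n m
    split_ifs
    · exact hev _
    · exact le_rfl
  have hsum : 0 ≤ ∑ n : Fin A, ∑ m : Fin A,
      (if cell n m x y ∈ M then SS c 0 (nx K ((n : ℕ) + m + 1)) x y ^ (2 * q) else 0) :=
    Finset.sum_nonneg fun n _ => Finset.sum_nonneg fun m _ => hterm n m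
  have hw0 : 0 ≤ w x y := by
    rcases hw x y with h | h <;> rw [h]
    exact zero_le_one
  have hR : 0 ≤ 4 ^ q * (w x y + ∑ n : Fin A, ∑ m : Fin A,
      if cell n m x y ∈ M then SS c 0 (nx K ((n : ℕ) + m + 1)) x y ^ (2 * q) else 0) := by
    positivity
  by_cases hwx : w x y = 1
  swap
  · rw [TT_eq_zero hs hwx, zero_pow (by omega)]
    exact hR
  rcases K.eq_empty_or_nonempty with rfl | hK
  · rw [TT_empty, zero_pow (by omega)]
    exact hR
  obtain ⟨k, hk, hT⟩ := exists_TT c hK x y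
  rw [hT, hwx]
  have hgood : Good c ρ M k x y := by
    by_contra hcon
    exact h1 ⟨hwx, k, hk, hcon⟩
  have hb : ∀ k' ∈ insert 0 K, VW c k' k x y ≤ ρ ^ 2 → |SS c k' k x y| < 1 := by
    intro k' hk' hv
    by_contra hcon
    push Not at hcon
    exact h2 ⟨k', hk', k, hk, hcon, hv⟩
  have h4 : (1 : ℝ) ≤ 4 ^ q := one_le_pow₀ (by norm_num)
  rcases hgood with hg | ⟨n, m, hM, hl, hv⟩
  · have hlt := hb 0 (Finset.mem_insert_self 0 K) hg
    calc |SS c 0 k x y| ^ (2 * q) ≤ 1 := pow_le_one₀ (abs_nonneg _) hlt.le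
      _ ≤ 4 ^ q * 1 := by linarith
      _ ≤ _ := mul_le_mul_of_nonneg_left (by linarith) (by positivity)
  · have hlk : (n : ℕ) + m + 1 ≤ k := hl
    set k' := nx K ((n : ℕ) + m + 1) with hk'
    have hk'K : k' ∈ K := nx_mem hk hlk
    have hlk' : (n : ℕ) + m + 1 ≤ k' := le_nx K _
    have hk'k : k' ≤ k := nx_le hk hlk
    have hlt := hb k' (Finset.mem_insert_of_mem hk'K)
      ((VW_mono c hlk' le_rfl x y).trans hv)
    have hle : |SS c 0 k x y| ≤ |SS c 0 k' x y| + 1 := by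
      rw [SS_split c (Nat.zero_le k') hk'k x y]
      exact (abs_add_le _ _).trans (by linarith)
    have hpow : |SS c 0 k x y| ^ (2 * q) ≤ 4 ^ q * (1 + SS c 0 k' x y ^ (2 * q)) := by
      have ha : 0 ≤ |SS c 0 k' x y| := abs_nonneg _
      have hmax : |SS c 0 k x y| ≤ 2 * max |SS c 0 k' x y| 1 := by
        have m1 := le_max_left |SS c 0 k' x y| 1
        have m2 := le_max_right |SS c 0 k' x y| 1
        linarith
      have e1 : SS c 0 k' x y ^ (2 * q) = |SS c 0 k' x y| ^ (2 * q) := by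
        rw [pow_mul, pow_mul, sq_abs]
      calc |SS c 0 k x y| ^ (2 * q) ≤ (2 * max |SS c 0 k' x y| 1) ^ (2 * q) :=
            pow_le_pow_left₀ (abs_nonneg _) hmax _
        _ = 4 ^ q * (max |SS c 0 k' x y| 1) ^ (2 * q) := by
            rw [mul_pow, pow_mul (2 : ℝ) 2 q]
            norm_num
        _ ≤ 4 ^ q * (1 + SS c 0 k' x y ^ (2 * q)) := by
            refine mul_le_mul_of_nonneg_left ?_ (by positivity)
            rcases max_cases |SS c 0 k' x y| 1 with ⟨h, _⟩ | ⟨h, _⟩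
            · rw [h, e1]
              linarith
            · rw [h, one_pow]
              linarith [hev (SS c 0 k' x y)]
    refine hpow.trans (mul_le_mul_of_nonneg_left ?_ (by positivity))
    have s1 : (if cell n m x y ∈ M then SS c 0 (nx K ((n : ℕ) + m + 1)) x y ^ (2 * q) else 0) ≤
        ∑ m : Fin A,
          (if cell n m x y ∈ M then SS c 0 (nx K ((n : ℕ) + m + 1)) x y ^ (2 * q) else 0) :=
      Finset.single_le_sum (f := fun m : Fin A =>
        (if cell n m x y ∈ M then SS c 0 (nx K ((n : ℕ) + m + 1)) x y ^ (2 * q) else 0))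
        (fun m _ => hterm n m) (Finset.mem_univ m)
    have s2 : (∑ m : Fin A,
          (if cell n m x y ∈ M then SS c 0 (nx K ((n : ℕ) + m + 1)) x y ^ (2 * q) else 0)) ≤
        ∑ n : Fin A, ∑ m : Fin A,
          (if cell n m x y ∈ M then SS c 0 (nx K ((n : ℕ) + m + 1)) x y ^ (2 * q) else 0) :=
      Finset.single_le_sum (f := fun n : Fin A => ∑ m : Fin A,
        (if cell n m x y ∈ M then SS c 0 (nx K ((n : ℕ) + m + 1)) x y ^ (2 * q) else 0))
        (fun n _ => Finset.sum_nonneg fun m _ => hterm n m) (Finset.mem_univ n)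
    rw [if_pos hM] at s1
    linarith

end Pool.Agent.Hyp
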