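import Pool.Agent.Hyp.Net
import Pool.Agent.Hyp.Apriori
import Pool.Agent.Hyp.MarkEx
import Pool.Agent.Hyp.Ptw
import Pool.Agent.Hyp.BadM
import Pool.Agent.Hyp.Num

/-!
# Module PropA: the main estimate for one piece

**PROOF.** Put `N = K.card`, `W = av2 w ≥ 0`, `u = log (N + 3) ≥ 1`, `N + 3 = exp u`,
`ρ = 1/(20 u)`, `X = 4000 u^3` (so `X ρ^2 = 10 u`, `1/(2ρ) = 10 u`), `η = exp (-2u) = (N+3)^(-2)`,
`τ = 10^38 r^16`, `q = 2 r` , `β = τ * (16/τ)^r` (`= 16^r / τ^(r-1)`), `α = η⁻¹ = (N+3)^2`.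
Take `M` from `mark_ex` with `g n m x y = SS c 0 (nx K (n + m + 1)) x y ^(2 q)` (`2 q = 4 r`).

POINTWISE: `TT^4 ≤ τ w + β (w + ∑ n ∑ m [cell ∈ M] g n m x y) + η TT^8 + η⁻¹ (1_Bad1 + 1_Bad2)`.
On `Bad1 ∪ Bad2`: `TT^4 ≤ η TT^8 + η⁻¹` (AM-GM), the other terms are `≥ 0`.  Off it:
if `w x y ≠ 1` then `TT = 0`; otherwise `T := TT^4 ≤ τ + T^r / τ^(r-1)` (if `T > τ` then
`T τ^(r-1) ≤ T^r`), and `T^r = TT^(4r) = TT^(2q) ≤ 4^q (w + ∑ ..) = 16^r (w + ∑ ..)` (`ptw`).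

AVERAGE: `av2 (TT^4) ≤ τ W + β W + [β av2 (∑ marks g) + α av2 1_Bad1] + η av2 (TT^8) + η⁻¹ av2 1_Bad2`.
* `β ≤ τ` (`16/τ ≤ 1`).
* `mark_ex`: the bracket is `≤ α N exp(-10u) W + β X av2 (∑ c^2 g)`; `α N exp (-10 u) ≤ 1`
  (`(N+3)^2 (N+3) (N+3)^(-10) ≤ 1`); `net` with `p = 2 r`, `k n m = nx K (n+m+1) > n + m` (`le_nx`):
  `av2 (∑ c^2 g) ≤ (100000 (2r+1)^8)^(2r+1) W`, and by `num_beta`
  `β X (100000 (2r+1)^8)^(2r+1) = τ * τ^(-r) * (16^r * 4000 u^3 * (..)^(2r+1)) ≤ τ`.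
* `apriori`: `η av2 (TT^8) ≤ (N+3)^(-2) N 2^84 W ≤ 2^84 W`.
* `bad2_le`: `η⁻¹ av2 1_Bad2 ≤ (N+3)^2 (N+1) N 4 (N+3)^(-10) W ≤ 4 W`.
Total `≤ (3 τ + 2^84 + 5) W ≤ 10^40 r^16 W`.
-/

set_option autoImplicit false

namespace Pool.Agent.Hyp

open Finset Classical

private theorem propA_exp {N : ℕ} {u : ℝ} (hu : Real.exp u = (N : ℝ) + 3) (hu1 : 1 ≤ u) :
    Real.exp (2 * u) * ((N : ℝ) * Real.exp (-(10 * u))) ≤ 1 ∧
      Real.exp (-(2 * u)) * (N : ℝ) ≤ 1 ∧
      Real.exp (2 * u) * (((N : ℝ) + 1) * N * (4 * Real.exp (-(10 * u)))) ≤ 4 := by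
  have hN : (0 : ℝ) ≤ N := Nat.cast_nonneg N
  have h1 : (N : ℝ) ≤ Real.exp u := by linarith
  have h1' : (N : ℝ) + 1 ≤ Real.exp u := by linarith
  have e0 := Real.exp_pos u
  refine ⟨?_, ?_, ?_⟩
  · calc Real.exp (2 * u) * ((N : ℝ) * Real.exp (-(10 * u)))
        ≤ Real.exp (2 * u) * (Real.exp u * Real.exp (-(10 * u))) := by gcongr
      _ = Real.exp (-(7 * u)) := by rw [← Real.exp_add, ← Real.exp_add]; ring_nf
      _ ≤ 1 := by rw [Real.exp_le_one_iff]; linarith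
  · calc Real.exp (-(2 * u)) * (N : ℝ) ≤ Real.exp (-(2 * u)) * Real.exp u := by gcongr
      _ = Real.exp (-u) := by rw [← Real.exp_add]; ring_nf
      _ ≤ 1 := by rw [Real.exp_le_one_iff]; linarith
  · calc Real.exp (2 * u) * (((N : ℝ) + 1) * N * (4 * Real.exp (-(10 * u))))
        ≤ Real.exp (2 * u) * (Real.exp u * Real.exp u * (4 * Real.exp (-(10 * u)))) := by gcongr
      _ = 4 * Real.exp (-(6 * u)) := by
          have : Real.exp (-(6 * u)) = Real.exp (2 * u) * (Real.exp u * Real.exp u * Real.exp (-(10 * u))) := by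
            rw [← Real.exp_add, ← Real.exp_add, ← Real.exp_add]; ring_nf
          rw [this]; ring
      _ ≤ 4 * 1 := by
          have : Real.exp (-(6 * u)) ≤ 1 := by rw [Real.exp_le_one_iff]; linarith
          linarith
      _ = 4 := by norm_num

private theorem propA_pow {T τ : ℝ} (hT : 0 ≤ T) (hτ : 0 < τ) {r : ℕ} (hr : 1 ≤ r) :
    T ≤ τ + T ^ r / τ ^ (r - 1) := by
  by_cases h : T ≤ τ
  · have : 0 ≤ T ^ r / τ ^ (r - 1) := by positivity
    linarith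
  · push Not at h
    have h1 : T ≤ T ^ r / τ ^ (r - 1) := by
      rw [le_div_iff₀ (by positivity)]
      calc T * τ ^ (r - 1) ≤ T * T ^ (r - 1) := by
            apply mul_le_mul_of_nonneg_left _ hT
            exact pow_le_pow_left₀ hτ.le h.le _
        _ = T ^ r := by rw [← pow_succ']; congr 1; omega
    linarith

theorem propA {A : ℕ} {c : Coef A} (hc : AdC c) {w : Bits A → Bits A → ℝ} (hw : Ind w)
    (hs : Sup c w) (hM : Mom c w) (K : Finset ℕ) (r : ℕ) (hr : 1 ≤ r)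
    (hK : Real.log (K.card + 3) ≤ Real.exp r) :
    av2 (fun x y => TT c K x y ^ 4) ≤ 10 ^ 40 * (r : ℝ) ^ 16 * av2 w := by
  set N := K.card with hN
  have hN0 : (0 : ℝ) ≤ (N : ℝ) := Nat.cast_nonneg N
  set u := Real.log ((N : ℝ) + 3) with hu
  have hexpu : Real.exp u = (N : ℝ) + 3 := Real.exp_log (by positivity)
  have hu1 : 1 ≤ u := by
    rw [hu, Real.le_log_iff_exp_le (by positivity)]
    have := Real.exp_one_lt_d9
    linarith
  have hu0 : 0 < u := by linarith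
  have hwn : ∀ x y, 0 ≤ w x y := fun x y => by rcases hw x y with h | h <;> rw [h] <;> norm_num
  have hW : 0 ≤ av2 w := av2_nonneg hwn
  have hr1 : (1 : ℝ) ≤ r := by exact_mod_cast hr
  have hr16 : (1 : ℝ) ≤ (r : ℝ) ^ 16 := one_le_pow₀ hr1
  obtain ⟨hE1, hE2, hE3⟩ := propA_exp (N := N) hexpu hu1
  set ρ : ℝ := 1 / (20 * u) with hρ
  have hρ0 : 0 < ρ := by positivity
  set X : ℝ := 4000 * u ^ 3 with hX
  have hX0 : 0 ≤ X := by positivity
  have hXρ : X * ρ ^ 2 = 10 * u := by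
    rw [hX, hρ]
    field_simp
    ring
  have hρ2 : 1 / (2 * ρ) = 10 * u := by
    rw [hρ]
    field_simp
    ring
  set τ : ℝ := 10 ^ 38 * (r : ℝ) ^ 16 with hτ
  have hτ0 : 0 < τ := by positivity
  have hτ16 : (16 : ℝ) ≤ τ := by
    rw [hτ]
    nlinarith
  set β : ℝ := 16 ^ r / τ ^ (r - 1) with hβ
  have hβ0 : 0 ≤ β := by positivity
  have hττ : τ ^ r = τ * τ ^ (r - 1) := by rw [← pow_succ']; congr 1; omega
  have hτp : 0 < τ ^ (r - 1) := by positivity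
  have hβτ : β ≤ τ := by
    rw [hβ, div_le_iff₀ hτp, ← hττ]
    exact pow_le_pow_left₀ (by norm_num) hτ16 r
  set η : ℝ := Real.exp (-(2 * u)) with hη
  have hη0 : 0 < η := Real.exp_pos _
  have hηi : η⁻¹ = Real.exp (2 * u) := by rw [hη, Real.exp_neg, inv_inv]
  set g : Fin A → Fin A → Bits A → Bits A → ℝ := fun n m x y =>
    SS c 0 (nx K ((n : ℕ) + m + 1)) x y ^ (2 * (2 * r)) with hg
  have hg0 : ∀ n m x y, 0 ≤ g n m x y := fun n m x y => by
    rw [hg]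
    simp only
    rw [pow_mul]
    positivity
  obtain ⟨M, hMex⟩ := mark_ex hc hw K hρ0 hX0 (inv_nonneg.mpr hη0.le) hβ0 g hg0
  set GS : Bits A → Bits A → ℝ := fun x y => ∑ n : Fin A, ∑ m : Fin A,
    if cell n m x y ∈ M then g n m x y else 0 with hGS
  have hGS0 : ∀ x y, 0 ≤ GS x y := fun x y => Finset.sum_nonneg fun n _ => Finset.sum_nonneg fun m _ => by
    split_ifs
    · exact hg0 n m x y
    · exact le_rfl
  -- the pointwise bound
  have hptw : ∀ x y, TT c K x y ^ 4 ≤ τ * w x y + (β * w x y + (β * GS x y + (η * TT c K x y ^ 8 +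
      (η⁻¹ * (if Bad1 c w K ρ M x y then (1 : ℝ) else 0) +
        η⁻¹ * (if Bad2 c K ρ x y then (1 : ℝ) else 0))))) := by
    intro x y
    have hT0 := TT_nonneg c K x y
    have hw0 := hwn x y
    have hS0 := hGS0 x y
    have a1 : 0 ≤ τ * w x y := mul_nonneg hτ0.le hw0
    have a2 : 0 ≤ β * w x y := mul_nonneg hβ0 hw0
    have a3 : 0 ≤ β * GS x y := mul_nonneg hβ0 hS0
    have a4 : 0 ≤ η * TT c K x y ^ 8 := mul_nonneg hη0.le (pow_nonneg hT0 8)
    have b1 : 0 ≤ η⁻¹ * (if Bad1 c w K ρ M x y then (1 : ℝ) else 0) := by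
      apply mul_nonneg (inv_nonneg.mpr hη0.le)
      split_ifs <;> norm_num
    have b2 : 0 ≤ η⁻¹ * (if Bad2 c K ρ x y then (1 : ℝ) else 0) := by
      apply mul_nonneg (inv_nonneg.mpr hη0.le)
      split_ifs <;> norm_num
    have hamgm : TT c K x y ^ 4 ≤ η * TT c K x y ^ 8 + η⁻¹ * 1 := by
      have h1 : 0 ≤ η * (TT c K x y ^ 4 - η⁻¹) ^ 2 := mul_nonneg hη0.le (sq_nonneg _)
      have h2 : η * η⁻¹ = 1 := mul_inv_cancel₀ hη0.ne'
      have h3 : η * (TT c K x y ^ 4 - η⁻¹) ^ 2 = η * TT c K x y ^ 8 - 2 * (η * η⁻¹) * TT c K x y ^ 4 +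
          (η * η⁻¹) * η⁻¹ := by ring
      rw [h3, h2] at h1
      have h4 : 0 ≤ TT c K x y ^ 4 := pow_nonneg hT0 4
      linarith
    by_cases hB1 : Bad1 c w K ρ M x y
    · rw [if_pos hB1]
      linarith
    by_cases hB2 : Bad2 c K ρ x y
    · rw [if_pos hB2]
      linarith
    by_cases hwxy : w x y = 1
    · have h1 := ptw hw hs K M (2 * r) (by omega) x y hB1 hB2
      have h2 := propA_pow (T := TT c K x y ^ 4) (pow_nonneg hT0 4) hτ0 hr
      have h3 : (TT c K x y ^ 4) ^ r = TT c K x y ^ (2 * (2 * r)) := by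
        rw [← pow_mul]
        congr 1
        ring
      have h4 : (4 : ℝ) ^ (2 * r) = 16 ^ r := by
        rw [pow_mul]
        norm_num
      rw [h3] at h2
      rw [h4] at h1
      have h5 : TT c K x y ^ (2 * (2 * r)) / τ ^ (r - 1) ≤ β * (w x y + GS x y) := by
        rw [div_le_iff₀ hτp, hβ]
        calc TT c K x y ^ (2 * (2 * r)) ≤ 16 ^ r * (w x y + GS x y) := h1
          _ = 16 ^ r / τ ^ (r - 1) * (w x y + GS x y) * τ ^ (r - 1) := by field_simp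
      have h6 : τ * w x y = τ := by rw [hwxy, mul_one]
      have h7 : β * (w x y + GS x y) = β * w x y + β * GS x y := by ring
      linarith
    · rw [TT_eq_zero hs hwxy K] at a4 ⊢
      have : (0 : ℝ) ^ 4 = 0 := by norm_num
      rw [this]
      linarith
  have hav := av2_mono hptw
  rw [av2_add (fun x y => τ * w x y), av2_add (fun x y => β * w x y), av2_add (fun x y => β * GS x y),
    av2_add (fun x y => η * TT c K x y ^ 8),
    av2_add (fun x y => η⁻¹ * (if Bad1 c w K ρ M x y then (1 : ℝ) else 0)),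
    av2_const_mul, av2_const_mul, av2_const_mul, av2_const_mul, av2_const_mul, av2_const_mul] at hav
  have hnet := net hc hw hM (fun n m : Fin A => nx K ((n : ℕ) + m + 1)) (fun n m => by
    have := le_nx K ((n : ℕ) + m + 1)
    omega) (2 * r)
  have hnum := num_beta r hr u hu0.le hK
  have hap := apriori hc hw hM K
  have hb2 := bad2_le hc hw hs K hρ0
  rw [hρ2, ← hN] at hb2
  rw [← hN] at hap
  rw [hXρ, ← hN] at hMex
  -- the five bounds
  have k1 : η⁻¹ * ((N : ℝ) * Real.exp (-(10 * u)) * av2 w) ≤ av2 w := by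
    rw [hηi]
    calc Real.exp (2 * u) * ((N : ℝ) * Real.exp (-(10 * u)) * av2 w)
        = Real.exp (2 * u) * ((N : ℝ) * Real.exp (-(10 * u))) * av2 w := by ring
      _ ≤ 1 * av2 w := mul_le_mul_of_nonneg_right hE1 hW
      _ = av2 w := one_mul _
  have k2 : β * (X * av2 (fun x y => ∑ n : Fin A, ∑ m : Fin A, c n m x y ^ 2 * g n m x y)) ≤ τ * av2 w := by
    have h1 : av2 (fun x y => ∑ n : Fin A, ∑ m : Fin A, c n m x y ^ 2 * g n m x y) ≤
        (100000 * (((2 * r : ℕ) : ℝ) + 1) ^ 8) ^ (2 * r + 1) * av2 w := hnet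
    calc β * (X * av2 (fun x y => ∑ n : Fin A, ∑ m : Fin A, c n m x y ^ 2 * g n m x y))
        ≤ β * (X * ((100000 * (((2 * r : ℕ) : ℝ) + 1) ^ 8) ^ (2 * r + 1) * av2 w)) := by
          apply mul_le_mul_of_nonneg_left _ hβ0
          exact mul_le_mul_of_nonneg_left h1 hX0
      _ = (16 ^ r * (4000 * u ^ 3) * (100000 * (((2 * r : ℕ) : ℝ) + 1) ^ 8) ^ (2 * r + 1)) / τ ^ (r - 1) * av2 w := by
          rw [hβ, hX]
          field_simp
      _ ≤ τ ^ r / τ ^ (r - 1) * av2 w := by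
          apply mul_le_mul_of_nonneg_right _ hW
          exact div_le_div_of_nonneg_right hnum hτp.le
      _ = τ * av2 w := by
          rw [hττ]
          field_simp
  have k3 : η * av2 (fun x y => TT c K x y ^ 8) ≤ 2 ^ 84 * av2 w := by
    calc η * av2 (fun x y => TT c K x y ^ 8) ≤ η * ((N : ℝ) * 2 ^ 84 * av2 w) :=
          mul_le_mul_of_nonneg_left hap hη0.le
      _ = (Real.exp (-(2 * u)) * (N : ℝ)) * (2 ^ 84 * av2 w) := by rw [hη]; ring
      _ ≤ 1 * (2 ^ 84 * av2 w) := mul_le_mul_of_nonneg_right hE2 (by positivity)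
      _ = 2 ^ 84 * av2 w := one_mul _
  have k4 : η⁻¹ * av2 (fun x y => if Bad2 c K ρ x y then (1 : ℝ) else 0) ≤ 4 * av2 w := by
    calc η⁻¹ * av2 (fun x y => if Bad2 c K ρ x y then (1 : ℝ) else 0)
        ≤ η⁻¹ * (((N : ℝ) + 1) * N * (4 * Real.exp (-(10 * u))) * av2 w) :=
          mul_le_mul_of_nonneg_left hb2 (inv_nonneg.mpr hη0.le)
      _ = (Real.exp (2 * u) * (((N : ℝ) + 1) * N * (4 * Real.exp (-(10 * u))))) * av2 w := by rw [hηi]; ring
      _ ≤ 4 * av2 w := mul_le_mul_of_nonneg_right hE3 hW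
  have k5 : β * av2 w ≤ τ * av2 w := mul_le_mul_of_nonneg_right hβτ hW
  have k6 : (3 * τ + 2 ^ 84 + 5) * av2 w ≤ 10 ^ 40 * (r : ℝ) ^ 16 * av2 w := by
    apply mul_le_mul_of_nonneg_right _ hW
    rw [hτ]
    nlinarith
  have hMex' : η⁻¹ * av2 (fun x y => if Bad1 c w K ρ M x y then (1 : ℝ) else 0) + β * av2 GS ≤
      η⁻¹ * ((N : ℝ) * Real.exp (-(10 * u)) * av2 w) +
        β * (X * av2 (fun x y => ∑ n : Fin A, ∑ m : Fin A, c n m x y ^ 2 * g n m x y)) := hMex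
  nlinarith

end Pool.Agent.Hyp
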