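import Mathlib

/-!
# Hyperbolic Riesz means, module RzA (helper25): profiles

`Prof φ A α`: `φ` is continuous, nonincreasing on `[0, ∞)`, `φ 0 = 1`, `φ = 0` on `[1, ∞)`, Hölder
continuous of order `α` with constant `A`, and `1 - φ u ≤ A u`.  The profile of the Riesz means
`(1 - u)_+ ^ lam` has these properties for every `lam > 0` (`rz_prof`).

`incr_sq`: for `v ≥ 0`, an integer `k` and the `2 ^ j` intervals of length `2 ^ k / 2 ^ j` of
`[2 ^ k, 2 ^ (k + 1)]` the sum of the squares of the increments of `t ↦ φ (v / t)` is at most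
`A (2 ^ -j) ^ α (φ (v / 2 ^ (k+1)) - φ (v / 2 ^ k))`; `tel_sum`: the sum of the last factor over `k`
is at most `1`.
-/

set_option autoImplicit false

namespace Pool.Agent.Hyp

open Finset

/-- profiles -/
structure Prof (φ : ℝ → ℝ) (A α : ℝ) : Prop where
  cont : Continuous φ
  anti : ∀ u u', 0 ≤ u → u ≤ u' → φ u' ≤ φ u
  zero : φ 0 = 1
  supp : ∀ u, 1 ≤ u → φ u = 0
  hoel : ∀ u u', 0 ≤ u → u ≤ u' → φ u - φ u' ≤ A * (u' - u) ^ α
  lip : ∀ u, 0 ≤ u → 1 - φ u ≤ A * u
  one_le : 1 ≤ A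
  pos : 0 < α

/-- the profile of the Riesz means -/
noncomputable def rz (lam : ℝ) (u : ℝ) : ℝ := (max (1 - u) 0) ^ lam

theorem rz_prof {lam : ℝ} (hl : 0 < lam) : ∃ A α : ℝ, Prof (rz lam) A α := by
  have hcont : Continuous (rz lam) := by
    unfold rz
    apply Continuous.rpow_const
    · fun_prop
    · intro x
      exact Or.inr hl.le
  have hanti : ∀ u u', 0 ≤ u → u ≤ u' → rz lam u' ≤ rz lam u := by
    intro u u' _ h
    unfold rz
    exact Real.rpow_le_rpow (le_max_right _ _) (max_le_max (by linarith) le_rfl) hl.le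
  have hzero : rz lam 0 = 1 := by
    unfold rz
    simp
  have hsupp : ∀ u, 1 ≤ u → rz lam u = 0 := by
    intro u hu
    unfold rz
    rw [max_eq_right (by linarith), Real.zero_rpow hl.ne']
  have hb : ∀ u : ℝ, 0 ≤ u → 0 ≤ max (1 - u) 0 ∧ max (1 - u) 0 ≤ 1 := fun u hu =>
    ⟨le_max_right _ _, max_le (by linarith) (by norm_num)⟩
  have hdiff : ∀ u u' : ℝ, 0 ≤ u → u ≤ u' → max (1 - u) 0 - max (1 - u') 0 ≤ u' - u := by
    intro u u' _ h
    rcases le_total (1 - u) 0 with h1 | h1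
    · rw [max_eq_right h1, max_eq_right (by linarith)]
      linarith
    · rw [max_eq_left h1]
      have := le_max_left (1 - u') 0
      linarith
  rcases le_total lam 1 with h1 | h1
  · refine ⟨1, lam, hcont, hanti, hzero, hsupp, ?_, ?_, le_rfl, hl⟩
    · intro u u' hu h
      rw [one_mul]
      have ha := hb u hu
      have hb' := hb u' (hu.trans h)
      have hle : max (1 - u') 0 ≤ max (1 - u) 0 := max_le_max (by linarith) le_rfl
      have h2 := Real.rpow_add_le_add_rpow (a := max (1 - u) 0 - max (1 - u') 0)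
        (b := max (1 - u') 0) (by linarith) hb'.1 hl.le h1
      rw [sub_add_cancel] at h2
      have h3 : (max (1 - u) 0 - max (1 - u') 0) ^ lam ≤ (u' - u) ^ lam :=
        Real.rpow_le_rpow (by linarith) (hdiff u u' hu h) hl.le
      unfold rz
      linarith
    · intro u hu
      rw [one_mul]
      rcases le_total 1 u with h2 | h2
      · rw [hsupp u h2]
        linarith
      · unfold rz
        rw [max_eq_left (by linarith)]
        have h3 : (1 - u) ^ (1 : ℝ) ≤ (1 - u) ^ lam :=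
          Real.rpow_le_rpow_of_exponent_ge' (by linarith) (by linarith) hl.le h1
        rw [Real.rpow_one] at h3
        linarith
  · have hh : ∀ u u', 0 ≤ u → u ≤ u' → rz lam u - rz lam u' ≤ lam * (u' - u) ^ (1 : ℝ) := by
      intro u u' hu h
      rw [Real.rpow_one]
      have ha := hb u hu
      have hb' := hb u' (hu.trans h)
      have hle : max (1 - u') 0 ≤ max (1 - u) 0 := max_le_max (by linarith) le_rfl
      unfold rz
      set a := max (1 - u) 0
      set b := max (1 - u') 0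
      have hd : a - b ≤ u' - u := hdiff u u' hu h
      rcases ha.1.eq_or_lt with h0 | h0
      · rw [← h0]
        have hb0 : b = 0 := le_antisymm (by rw [h0]; exact hle) hb'.1
        rw [hb0, sub_self]
        exact mul_nonneg hl.le (by linarith)
      · have hber := one_add_mul_self_le_rpow_one_add (s := b / a - 1)
          (by
            have : 0 ≤ b / a := div_nonneg hb'.1 h0.le
            linarith) h1
        have e1 : 1 + (b / a - 1) = b / a := by ring
        rw [e1, Real.div_rpow hb'.1 h0.le] at hber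
        have hapos : 0 < a ^ lam := Real.rpow_pos_of_pos h0 _
        have h4 : a ^ lam * (1 + lam * (b / a - 1)) ≤ b ^ lam := by
          have := mul_le_mul_of_nonneg_left hber hapos.le
          rwa [mul_div_cancel₀ _ hapos.ne'] at this
        have h5 : a ^ lam * (lam * (1 - b / a)) ≤ lam * (a - b) := by
          have h6 : a ^ lam ≤ a := by
            have := Real.rpow_le_rpow_of_exponent_ge' ha.1 ha.2 (by norm_num : (0 : ℝ) ≤ 1) h1
            rwa [Real.rpow_one] at this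
          have h7 : 0 ≤ lam * (1 - b / a) := by
            have : b / a ≤ 1 := by
              rw [div_le_one h0]
              exact hle
            exact mul_nonneg hl.le (by linarith)
          calc a ^ lam * (lam * (1 - b / a)) ≤ a * (lam * (1 - b / a)) :=
                mul_le_mul_of_nonneg_right h6 h7
            _ = lam * (a - b) := by
                field_simp
        have h8 : lam * (a - b) ≤ lam * (u' - u) := mul_le_mul_of_nonneg_left hd hl.le
        nlinarith
    refine ⟨lam, 1, hcont, hanti, hzero, hsupp, hh, ?_, h1, one_pos⟩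
    intro u hu
    have := hh 0 u le_rfl hu
    rw [hzero, Real.rpow_one, sub_zero] at this
    exact this

namespace Prof

variable {φ : ℝ → ℝ} {A α : ℝ}

theorem nonneg (h : Prof φ A α) {u : ℝ} (hu : 0 ≤ u) : 0 ≤ φ u := by
  rcases le_total 1 u with h1 | h1
  · rw [h.supp u h1]
  · have := h.anti u 1 hu h1
    rwa [h.supp 1 le_rfl] at this

theorem le_one (h : Prof φ A α) {u : ℝ} (hu : 0 ≤ u) : φ u ≤ 1 := by
  have := h.anti 0 u le_rfl hu
  rwa [h.zero] at this

theorem mono_t (h : Prof φ A α) {v t t' : ℝ} (hv : 0 ≤ v) (ht : 0 < t) (htt : t ≤ t') :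
    φ (v / t) ≤ φ (v / t') := by
  apply h.anti
  · exact div_nonneg hv (ht.le.trans htt)
  · exact div_le_div_of_nonneg_left hv ht htt

/-- increment of `t ↦ φ (v / t)` -/
theorem incr (h : Prof φ A α) {v t t' q : ℝ} (hv : 0 ≤ v) (ht : 0 < t) (htt : t ≤ t')
    (hq : t' - t ≤ q * t) : φ (v / t') - φ (v / t) ≤ A * q ^ α := by
  have ht' : 0 < t' := ht.trans_le htt
  have hA : 0 ≤ A := zero_le_one.trans h.one_le
  have hq0 : 0 ≤ q := by
    by_contra hcon
    push Not at hcon
    have : q * t < 0 := mul_neg_of_neg_of_pos hcon ht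
    linarith
  rcases le_total 1 (v / t') with h1 | h1
  · rw [h.supp _ h1, h.supp _ (h1.trans (div_le_div_of_nonneg_left hv ht htt)), sub_self]
    positivity
  · have h0 : 0 ≤ v / t' := div_nonneg hv ht'.le
    refine (h.hoel (v / t') (v / t) h0 (div_le_div_of_nonneg_left hv ht htt)).trans ?_
    refine mul_le_mul_of_nonneg_left ?_ hA
    apply Real.rpow_le_rpow _ _ h.pos.le
    · have := div_le_div_of_nonneg_left hv ht htt
      linarith
    · have e : v / t - v / t' = (v / t') * ((t' - t) / t) := by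
        field_simp
      rw [e]
      have h2 : (t' - t) / t ≤ q := by
        rw [div_le_iff₀ ht]
        exact hq
      have h3 : 0 ≤ (t' - t) / t := div_nonneg (by linarith) ht.le
      calc (v / t') * ((t' - t) / t) ≤ 1 * ((t' - t) / t) := mul_le_mul_of_nonneg_right h1 h3
        _ ≤ q := by rw [one_mul]; exact h2

/-- the point `2 ^ k (1 + i / 2 ^ j)` -/
noncomputable def gp (k : ℤ) (j i : ℕ) : ℝ := (2 : ℝ) ^ k * (1 + (i : ℝ) / 2 ^ j)

theorem gp_pos (k : ℤ) (j i : ℕ) : 0 < gp k j i := by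
  unfold gp
  positivity

theorem gp_zero (k : ℤ) (j : ℕ) : gp k j 0 = (2 : ℝ) ^ k := by
  unfold gp
  simp

theorem gp_last (k : ℤ) (j : ℕ) : gp k j (2 ^ j) = (2 : ℝ) ^ (k + 1) := by
  unfold gp
  rw [zpow_add₀ (by norm_num)]
  push_cast
  rw [div_self (by positivity)]
  norm_num

theorem gp_le (k : ℤ) (j i : ℕ) : gp k j i ≤ gp k j (i + 1) := by
  unfold gp
  have : (i : ℝ) / 2 ^ j ≤ ((i + 1 : ℕ) : ℝ) / 2 ^ j := by
    gcongr
    omega
  gcongr

theorem gp_diff (k : ℤ) (j i : ℕ) : gp k j (i + 1) - gp k j i ≤ (1 / 2) ^ j * gp k j i := by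
  unfold gp
  have h1 : (2 : ℝ) ^ k * (1 + ((i + 1 : ℕ) : ℝ) / 2 ^ j) - (2 : ℝ) ^ k * (1 + (i : ℝ) / 2 ^ j) =
      (1 / 2) ^ j * (2 : ℝ) ^ k := by
    push_cast
    rw [one_div, inv_pow]
    ring
  rw [h1]
  have h2 : (2 : ℝ) ^ k ≤ (2 : ℝ) ^ k * (1 + (i : ℝ) / 2 ^ j) := by
    have h3 : (0 : ℝ) ≤ (i : ℝ) / 2 ^ j := by positivity
    have h4 : (0 : ℝ) < (2 : ℝ) ^ k := by positivity
    nlinarith
  exact mul_le_mul_of_nonneg_left h2 (by positivity)

/-- the increments of the grid of order `j` -/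
theorem incr_gp (h : Prof φ A α) {v : ℝ} (hv : 0 ≤ v) (k : ℤ) (j i : ℕ) :
    φ (v / gp k j (i + 1)) - φ (v / gp k j i) ≤ A * ((1 / 2 : ℝ) ^ j) ^ α :=
  h.incr hv (gp_pos k j i) (gp_le k j i) (gp_diff k j i)

theorem incr_gp_nonneg (h : Prof φ A α) {v : ℝ} (hv : 0 ≤ v) (k : ℤ) (j i : ℕ) :
    0 ≤ φ (v / gp k j (i + 1)) - φ (v / gp k j i) := by
  have := h.mono_t hv (gp_pos k j i) (gp_le k j i)
  linarith

theorem incr_sq (h : Prof φ A α) {v : ℝ} (hv : 0 ≤ v) (k : ℤ) (j : ℕ) :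
    ∑ i ∈ range (2 ^ j), (φ (v / gp k j (i + 1)) - φ (v / gp k j i)) ^ 2 ≤
      A * ((1 / 2 : ℝ) ^ j) ^ α * (φ (v / 2 ^ (k + 1)) - φ (v / 2 ^ k)) := by
  calc ∑ i ∈ range (2 ^ j), (φ (v / gp k j (i + 1)) - φ (v / gp k j i)) ^ 2
      ≤ ∑ i ∈ range (2 ^ j), A * ((1 / 2 : ℝ) ^ j) ^ α *
          (φ (v / gp k j (i + 1)) - φ (v / gp k j i)) := by
        apply sum_le_sum
        intro i _
        rw [sq]
        exact mul_le_mul_of_nonneg_right (h.incr_gp hv k j i) (h.incr_gp_nonneg hv k j i)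
    _ = A * ((1 / 2 : ℝ) ^ j) ^ α * (φ (v / gp k j (2 ^ j)) - φ (v / gp k j 0)) := by
        rw [← mul_sum, sum_range_sub (fun i => φ (v / gp k j i))]
    _ = _ := by rw [gp_last, gp_zero]

/-- telescoping over the dyadic scales -/
theorem tel_sum (h : Prof φ A α) {v : ℝ} (hv : 0 ≤ v) (K : Finset ℤ) :
    ∑ k ∈ K, (φ (v / 2 ^ (k + 1)) - φ (v / 2 ^ k)) ≤ 1 := by
  have htel : ∀ (a : ℤ) (n : ℕ), ∑ k ∈ Ico a (a + n), (φ (v / 2 ^ (k + 1)) - φ (v / 2 ^ k)) =
      φ (v / 2 ^ (a + n)) - φ (v / 2 ^ a) := by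
    intro a n
    induction n with
    | zero => simp
    | succ n ih =>
      have e : Ico a (a + ((n + 1 : ℕ) : ℤ)) = insert (a + (n : ℤ)) (Ico a (a + n)) := by
        ext x
        simp only [mem_Ico, mem_insert]
        push_cast
        omega
      rw [e, sum_insert (by simp), ih]
      push_cast
      rw [show a + ((n : ℤ) + 1) = a + n + 1 by ring]
      ring
  have hnn : ∀ k : ℤ, 0 ≤ φ (v / 2 ^ (k + 1)) - φ (v / 2 ^ k) := by
    intro k
    have h1 : (0 : ℝ) < (2 : ℝ) ^ k := by positivity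
    have h2 : (2 : ℝ) ^ k ≤ (2 : ℝ) ^ (k + 1) := by
      rw [zpow_add₀ (by norm_num)]
      linarith [(by norm_num : (2 : ℝ) ^ (1 : ℤ) = 2)]
    have := h.mono_t hv h1 h2
    linarith
  obtain ⟨M, hM⟩ : ∃ M : ℕ, ∀ k ∈ K, -(M : ℤ) ≤ k ∧ k < M := by
    refine ⟨∑ k ∈ K, (k.natAbs + 1), fun k hk => ?_⟩
    have h1 : k.natAbs + 1 ≤ ∑ k ∈ K, (k.natAbs + 1) :=
      single_le_sum (f := fun k : ℤ => k.natAbs + 1) (fun _ _ => Nat.zero_le _) hk
    have h2 : (k.natAbs : ℤ) + 1 ≤ ((∑ k ∈ K, (k.natAbs + 1) : ℕ) : ℤ) := by exact_mod_cast h1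
    have h3 : k ≤ (k.natAbs : ℤ) := Int.le_natAbs
    have h4 : -(k.natAbs : ℤ) ≤ k := by omega
    omega
  have hsub : K ⊆ Ico (-(M : ℤ)) (-(M : ℤ) + ((2 * M : ℕ) : ℤ)) := by
    intro k hk
    have := hM k hk
    rw [mem_Ico]
    push_cast
    omega
  refine (sum_le_sum_of_subset_of_nonneg hsub fun k _ _ => hnn k).trans ?_
  rw [htel]
  have h1 := h.le_one (u := v / 2 ^ (-(M : ℤ) + ((2 * M : ℕ) : ℤ))) (by positivity)
  have h2 := h.nonneg (u := v / 2 ^ (-(M : ℤ))) (by positivity)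
  linarith

end Prof

end Pool.Agent.Hyp
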