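import Pool.Agent.Hyp.AllM
import Pool.Agent.Hyp.RzA

/-!
# Hyperbolic Riesz means, module RzB (helper25): the square function of the increments

`RG φ σ f k x = ∑_j σ^(-2 j) ∑_(i < 2^j) |MT (dk φ k j i) f x|^2`, `dk` = increment of the symbol
`φ (v / t)` over the interval `i` of the grid of order `j` of `[2^k, 2^(k+1)]`.
`gg_int`: `∫ ∑_k RG ≤ A / (1 - σ^2) ‖f‖^2` for `σ = (1/2)^(α/4)` (`incr_sq`, `tel_sum`).
-/

set_option autoImplicit false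

namespace Pool.Agent.Hyp

open MeasureTheory FourierTransform ENNReal

variable {φ : ℝ → ℝ} {A α : ℝ}

/-- the profile as a complex function -/
noncomputable def cp (φ : ℝ → ℝ) (u : ℝ) : ℂ := ((φ u : ℝ) : ℂ)

/-- symbol of an increment -/
noncomputable def dk (φ : ℝ → ℝ) (k : ℤ) (j i : ℕ) (ξ : E2) : ℂ :=
  symb (cp φ) (Prof.gp k j (i + 1)) ξ - symb (cp φ) (Prof.gp k j i) ξ

theorem cp_cont (h : Prof φ A α) : Continuous (cp φ) :=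
  Complex.continuous_ofReal.comp h.cont

theorem vv_nonneg (ξ : E2) : 0 ≤ (ξ 0) ^ 2 * (ξ 1) ^ 2 := by positivity

theorem symb_meas (h : Prof φ A α) (t : ℝ) : Measurable (symb (cp φ) t) := by
  unfold symb
  exact (cp_cont h).measurable.comp (by fun_prop)

theorem symb_le_one (h : Prof φ A α) {t : ℝ} (ht : 0 < t) (ξ : E2) : ‖symb (cp φ) t ξ‖ ≤ 1 := by
  unfold symb cp
  have hu : 0 ≤ (ξ 0) ^ 2 * (ξ 1) ^ 2 / t := div_nonneg (vv_nonneg ξ) ht.le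
  rw [Complex.norm_real, Real.norm_of_nonneg (h.nonneg hu)]
  exact h.le_one hu

/-- norm of a difference of symbols -/
theorem symb_sub_norm (h : Prof φ A α) {t t' : ℝ} (ht : 0 < t) (htt : t ≤ t') (ξ : E2) :
    ‖symb (cp φ) t' ξ - symb (cp φ) t ξ‖ =
      φ ((ξ 0) ^ 2 * (ξ 1) ^ 2 / t') - φ ((ξ 0) ^ 2 * (ξ 1) ^ 2 / t) := by
  unfold symb cp
  rw [← Complex.ofReal_sub, Complex.norm_real, Real.norm_of_nonneg]
  have := h.mono_t (vv_nonneg ξ) ht htt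
  linarith

theorem dk_norm (h : Prof φ A α) (k : ℤ) (j i : ℕ) (ξ : E2) :
    ‖dk φ k j i ξ‖ = φ ((ξ 0) ^ 2 * (ξ 1) ^ 2 / Prof.gp k j (i + 1)) -
      φ ((ξ 0) ^ 2 * (ξ 1) ^ 2 / Prof.gp k j i) :=
  symb_sub_norm h (Prof.gp_pos k j i) (Prof.gp_le k j i) ξ

theorem dk_meas (h : Prof φ A α) (k : ℤ) (j i : ℕ) : Measurable (dk φ k j i) :=
  (symb_meas h _).sub (symb_meas h _)

theorem dk_le_two (h : Prof φ A α) (k : ℤ) (j i : ℕ) (ξ : E2) : ‖dk φ k j i ξ‖ ≤ 2 := by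
  unfold dk
  refine (norm_sub_le _ _).trans ?_
  have h1 := symb_le_one h (Prof.gp_pos k j (i + 1)) ξ
  have h2 := symb_le_one h (Prof.gp_pos k j i) ξ
  linarith

theorem rz_mt_sub {μ ν : E2 → ℂ} (hμ : Measurable μ) (hν : Measurable ν) {D : ℝ}
    (hb : ∀ ξ, ‖μ ξ‖ ≤ D) (hb' : ∀ ξ, ‖ν ξ‖ ≤ D) (f : Lp ℂ 2 (volume : Measure E2)) :
    MT (fun ξ => μ ξ - ν ξ) f = MT μ f - MT ν f := by
  have hb2 : ∀ ξ, ‖μ ξ - ν ξ‖ ≤ D + D := fun ξ =>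
    (norm_sub_le _ _).trans (add_le_add (hb ξ) (hb' ξ))
  have hb3 : ∀ ξ, ‖ν ξ‖ ≤ D + D := fun ξ => by
    have := hb' ξ
    have h0 := norm_nonneg (ν ξ)
    linarith
  have h := mt_add (μ := fun ξ => μ ξ - ν ξ) (ν := ν) (hμ.sub hν) hν hb2 hb3 f
  have e : (fun ξ => μ ξ - ν ξ + ν ξ) = μ := by
    funext ξ
    ring
  rw [e] at h
  rw [h, add_sub_cancel_right]

/-- the square function of the increments at the scale `k` -/
noncomputable def RG (φ : ℝ → ℝ) (σ : ℝ) (f : Lp ℂ 2 (volume : Measure E2)) (k : ℤ) (x : E2) :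
    ℝ≥0∞ :=
  ∑' j : ℕ, ENNReal.ofReal ((σ⁻¹ ^ 2) ^ j) * ∑ i ∈ Finset.range (2 ^ j), ‖MT (dk φ k j i) f x‖ₑ ^ 2

theorem sg_pow (α : ℝ) (j : ℕ) : ((1 / 2 : ℝ) ^ j) ^ α = ((((1 / 2 : ℝ) ^ (α / 4)) ^ 4) ^ j) := by
  rw [← Real.rpow_natCast (((1 / 2 : ℝ) ^ (α / 4))) 4, ← Real.rpow_mul (by norm_num),
    ← Real.rpow_natCast (1 / 2 : ℝ) j, ← Real.rpow_natCast (((1 / 2 : ℝ)) ^ (α / 4 * ((4 : ℕ) : ℝ))) j,
    ← Real.rpow_mul (by norm_num), ← Real.rpow_mul (by norm_num)]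
  congr 1
  push_cast
  ring

theorem sg_pos (α : ℝ) : 0 < (1 / 2 : ℝ) ^ (α / 4) := Real.rpow_pos_of_pos (by norm_num) _

theorem sg_lt_one {α : ℝ} (hα : 0 < α) : (1 / 2 : ℝ) ^ (α / 4) < 1 :=
  Real.rpow_lt_one (by norm_num) (by norm_num) (by positivity)

/-- the sum of the squares of the symbols of the grid of order `j` -/
theorem dk_sum (h : Prof φ A α) (j : ℕ) (ξ : E2) :
    ∑' k : ℤ, ∑ i ∈ Finset.range (2 ^ j), ‖dk φ k j i ξ‖ₑ ^ 2 ≤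
      ENNReal.ofReal (A * ((((1 / 2 : ℝ) ^ (α / 4)) ^ 4) ^ j)) := by
  rw [ENNReal.tsum_eq_iSup_sum]
  apply iSup_le
  intro K
  have hv := vv_nonneg ξ
  have hA : 0 ≤ A := zero_le_one.trans h.one_le
  have e1 : ∀ k ∈ K, ∑ i ∈ Finset.range (2 ^ j), ‖dk φ k j i ξ‖ₑ ^ 2 ≤
      ENNReal.ofReal (A * ((1 / 2 : ℝ) ^ j) ^ α *
        (φ ((ξ 0) ^ 2 * (ξ 1) ^ 2 / 2 ^ (k + 1)) - φ ((ξ 0) ^ 2 * (ξ 1) ^ 2 / 2 ^ k))) := by
    intro k _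
    have e2 : ∑ i ∈ Finset.range (2 ^ j), ‖dk φ k j i ξ‖ₑ ^ 2 =
        ENNReal.ofReal (∑ i ∈ Finset.range (2 ^ j), ‖dk φ k j i ξ‖ ^ 2) := by
      rw [ENNReal.ofReal_sum_of_nonneg (fun i _ => by positivity)]
      refine Finset.sum_congr rfl fun i _ => ?_
      rw [← ofReal_norm, ENNReal.ofReal_pow (norm_nonneg _)]
    rw [e2]
    apply ENNReal.ofReal_le_ofReal
    have e3 : ∑ i ∈ Finset.range (2 ^ j), ‖dk φ k j i ξ‖ ^ 2 =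
        ∑ i ∈ Finset.range (2 ^ j), (φ ((ξ 0) ^ 2 * (ξ 1) ^ 2 / Prof.gp k j (i + 1)) -
          φ ((ξ 0) ^ 2 * (ξ 1) ^ 2 / Prof.gp k j i)) ^ 2 :=
      Finset.sum_congr rfl fun i _ => by rw [dk_norm h]
    rw [e3]
    exact h.incr_sq hv k j
  refine (Finset.sum_le_sum e1).trans ?_
  have hnn : ∀ k ∈ K, 0 ≤ A * ((1 / 2 : ℝ) ^ j) ^ α *
      (φ ((ξ 0) ^ 2 * (ξ 1) ^ 2 / 2 ^ (k + 1)) - φ ((ξ 0) ^ 2 * (ξ 1) ^ 2 / 2 ^ k)) := by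
    intro k _
    have h1 : (0 : ℝ) < (2 : ℝ) ^ k := by positivity
    have h2 : (2 : ℝ) ^ k ≤ (2 : ℝ) ^ (k + 1) := by
      rw [zpow_add₀ (by norm_num)]
      linarith [(by norm_num : (2 : ℝ) ^ (1 : ℤ) = 2)]
    have h3 := h.mono_t hv h1 h2
    have h4 : 0 ≤ φ ((ξ 0) ^ 2 * (ξ 1) ^ 2 / 2 ^ (k + 1)) - φ ((ξ 0) ^ 2 * (ξ 1) ^ 2 / 2 ^ k) := by
      linarith
    positivity
  rw [← ENNReal.ofReal_sum_of_nonneg hnn]
  apply ENNReal.ofReal_le_ofReal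
  rw [← Finset.mul_sum, sg_pow]
  have h5 := h.tel_sum hv K
  have h6 : 0 ≤ A * ((((1 / 2 : ℝ) ^ (α / 4)) ^ 4) ^ j) := by
    have := sg_pos α
    positivity
  exact mul_le_of_le_one_right h6 h5

theorem gg_int (h : Prof φ A α) (f : Lp ℂ 2 (volume : Measure E2)) :
    ∫⁻ x : E2, ∑' k : ℤ, RG φ ((1 / 2 : ℝ) ^ (α / 4)) f k x ≤
      ENNReal.ofReal (A / (1 - ((1 / 2 : ℝ) ^ (α / 4)) ^ 2)) * ‖f‖ₑ ^ 2 := by
  set σ : ℝ := (1 / 2 : ℝ) ^ (α / 4) with hσ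
  have hσ0 : 0 < σ := sg_pos α
  have hσ1 : σ < 1 := sg_lt_one h.pos
  have hA : 0 ≤ A := zero_le_one.trans h.one_le
  have hm0 : ∀ (k : ℤ) (j i : ℕ), Measurable (fun x : E2 => ‖MT (dk φ k j i) f x‖ₑ ^ 2) :=
    fun k j i => ((Lp.stronglyMeasurable (MT (dk φ k j i) f)).enorm).pow_const 2
  have hm1 : ∀ (k : ℤ) (j : ℕ), Measurable (fun x : E2 =>
      ENNReal.ofReal ((σ⁻¹ ^ 2) ^ j) * ∑ i ∈ Finset.range (2 ^ j), ‖MT (dk φ k j i) f x‖ₑ ^ 2) :=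
    fun k j => (Finset.measurable_sum _ fun i _ => hm0 k j i).const_mul _
  have hF : AEMeasurable (fun ξ : E2 => ‖(𝓕 f : Lp ℂ 2 (volume : Measure E2)) ξ‖ₑ ^ 2) volume :=
    ((Lp.aestronglyMeasurable (𝓕 f : Lp ℂ 2 (volume : Measure E2))).enorm).pow_const 2
  have e0 : ∫⁻ x : E2, ∑' k : ℤ, RG φ σ f k x =
      ∑' k : ℤ, ∑' j : ℕ, ENNReal.ofReal ((σ⁻¹ ^ 2) ^ j) *
        ∑ i ∈ Finset.range (2 ^ j), ∫⁻ x : E2, ‖MT (dk φ k j i) f x‖ₑ ^ 2 := by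
    unfold RG
    rw [lintegral_tsum fun k => (Measurable.tsum fun j => hm1 k j).aemeasurable]
    refine tsum_congr fun k => ?_
    rw [lintegral_tsum fun j => (hm1 k j).aemeasurable]
    refine tsum_congr fun j => ?_
    rw [lintegral_const_mul _ (Finset.measurable_sum _ fun i _ => hm0 k j i),
      lintegral_finsetSum _ fun i _ => hm0 k j i]
  rw [e0, ENNReal.tsum_comm]
  have e1 : ∀ j : ℕ, ∑' k : ℤ, ENNReal.ofReal ((σ⁻¹ ^ 2) ^ j) *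
      ∑ i ∈ Finset.range (2 ^ j), ∫⁻ x : E2, ‖MT (dk φ k j i) f x‖ₑ ^ 2 ≤
      ENNReal.ofReal (A * (σ ^ 2) ^ j) * ‖f‖ₑ ^ 2 := by
    intro j
    rw [ENNReal.tsum_mul_left]
    have e2 : ∑' k : ℤ, ∑ i ∈ Finset.range (2 ^ j), ∫⁻ x : E2, ‖MT (dk φ k j i) f x‖ₑ ^ 2 ≤
        ENNReal.ofReal (A * ((σ ^ 4) ^ j)) * ‖f‖ₑ ^ 2 := by
      calc ∑' k : ℤ, ∑ i ∈ Finset.range (2 ^ j), ∫⁻ x : E2, ‖MT (dk φ k j i) f x‖ₑ ^ 2
          = ∑' k : ℤ, ∫⁻ ξ : E2, (∑ i ∈ Finset.range (2 ^ j), ‖dk φ k j i ξ‖ₑ ^ 2) *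
              ‖(𝓕 f : Lp ℂ 2 (volume : Measure E2)) ξ‖ₑ ^ 2 := by
            refine tsum_congr fun k => ?_
            simp_rw [Finset.sum_mul]
            have hae : ∀ i ∈ Finset.range (2 ^ j), AEMeasurable (fun ξ : E2 =>
                ‖dk φ k j i ξ‖ₑ ^ 2 * ‖(𝓕 f : Lp ℂ 2 (volume : Measure E2)) ξ‖ₑ ^ 2) volume :=
              fun i _ => (((dk_meas h k j i).enorm.pow_const 2).aemeasurable).mul hF
            rw [lintegral_finsetSum' _ hae]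
            exact Finset.sum_congr rfl fun i _ => mt_norm (dk_meas h k j i) (dk_le_two h k j i) f
        _ = ∫⁻ ξ : E2, ∑' k : ℤ, (∑ i ∈ Finset.range (2 ^ j), ‖dk φ k j i ξ‖ₑ ^ 2) *
              ‖(𝓕 f : Lp ℂ 2 (volume : Measure E2)) ξ‖ₑ ^ 2 := by
            rw [lintegral_tsum fun k => ?_]
            exact ((Finset.measurable_sum _ fun i _ =>
              (dk_meas h k j i).enorm.pow_const 2).aemeasurable).mul hF
        _ ≤ ∫⁻ ξ : E2, ENNReal.ofReal (A * ((σ ^ 4) ^ j)) *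
              ‖(𝓕 f : Lp ℂ 2 (volume : Measure E2)) ξ‖ₑ ^ 2 := by
            refine lintegral_mono fun ξ => ?_
            rw [ENNReal.tsum_mul_right]
            gcongr
            exact dk_sum h j ξ
        _ = ENNReal.ofReal (A * ((σ ^ 4) ^ j)) * ‖f‖ₑ ^ 2 := by
            rw [lintegral_const_mul'' _ hF, ← lp_sq_fourier, ← lp_sq]
    refine (mul_le_mul_right e2 _).trans (le_of_eq ?_)
    rw [← mul_assoc, ← ENNReal.ofReal_mul (by positivity)]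
    congr 2
    have e3 : (σ⁻¹ ^ 2) ^ j * (A * (σ ^ 4) ^ j) = A * ((σ⁻¹ ^ 2 * σ ^ 4) ^ j) := by
      rw [mul_pow]
      ring
    rw [e3]
    congr 2
    field_simp
  refine (ENNReal.tsum_le_tsum e1).trans ?_
  rw [ENNReal.tsum_mul_right]
  gcongr
  have hq : σ ^ 2 < 1 := by nlinarith
  have e4 : ∑' j : ℕ, ENNReal.ofReal (A * (σ ^ 2) ^ j) = ENNReal.ofReal (∑' j : ℕ, A * (σ ^ 2) ^ j) := by
    rw [ENNReal.ofReal_tsum_of_nonneg]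
    · intro j
      positivity
    · exact (summable_geometric_of_lt_one (by positivity) hq).mul_left A
  rw [e4, tsum_mul_left, tsum_geometric_of_lt_one (by positivity) hq, div_eq_mul_inv]

end Pool.Agent.Hyp
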