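import Pool.Agent.Hyp.RzB

/-!
# Hyperbolic Riesz means, module RzC (helper25): chaining in the parameter

`rz_chain`: for `2^k ≤ t < 2^(k+1)` and `f ∈ L²`, for almost every `x`
`|MT (symb t) f x - MT (symb 2^k) f x|^2 ≤ (1 - σ)^(-2) RG f k x`.
Binary digits of `t / 2^k - 1`, one increment of every order `j ≥ 1`, each at most
`σ^j (RG f k x)^(1/2)`; the errors of the truncated digit sums are square summable in `L²`.
-/

set_option autoImplicit false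

namespace Pool.Agent.Hyp

open MeasureTheory FourierTransform ENNReal Filter

variable {φ : ℝ → ℝ} {A α : ℝ}

/-- the first `j` binary digits of `θ` -/
noncomputable def ix (θ : ℝ) (j : ℕ) : ℕ := ⌊θ * 2 ^ j⌋₊

theorem ix_lt {θ : ℝ} (h0 : 0 ≤ θ) (h1 : θ < 1) (j : ℕ) : ix θ j < 2 ^ j := by
  unfold ix
  rw [Nat.floor_lt (by positivity)]
  push_cast
  have : (0 : ℝ) < 2 ^ j := by positivity
  nlinarith

theorem ix_zero {θ : ℝ} (h0 : 0 ≤ θ) (h1 : θ < 1) : ix θ 0 = 0 := by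
  have := ix_lt h0 h1 0
  simpa using this

theorem ix_succ {θ : ℝ} (h0 : 0 ≤ θ) (j : ℕ) : ix θ (j + 1) = 2 * ix θ j ∨
    ix θ (j + 1) = 2 * ix θ j + 1 := by
  unfold ix
  have hy : 0 ≤ θ * 2 ^ j := by positivity
  have e : θ * 2 ^ (j + 1) = 2 * (θ * 2 ^ j) := by ring
  rw [e]
  have h1 := Nat.floor_le hy
  have h2 := Nat.lt_floor_add_one (θ * 2 ^ j)
  have h3 : 2 * ⌊θ * 2 ^ j⌋₊ ≤ ⌊2 * (θ * 2 ^ j)⌋₊ := by
    apply Nat.le_floor
    push_cast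
    linarith
  have h4 : ⌊2 * (θ * 2 ^ j)⌋₊ < 2 * ⌊θ * 2 ^ j⌋₊ + 2 := by
    rw [Nat.floor_lt (by positivity)]
    push_cast
    linarith
  omega

theorem gp_double (k : ℤ) (j i : ℕ) : Prof.gp k (j + 1) (2 * i) = Prof.gp k j i := by
  unfold Prof.gp
  push_cast
  rw [pow_succ]
  congr 2
  field_simp

/-- the truncated parameter -/
noncomputable def tj (k : ℤ) (θ : ℝ) (j : ℕ) : ℝ := Prof.gp k j (ix θ j)

theorem tj_pos (k : ℤ) (θ : ℝ) (j : ℕ) : 0 < tj k θ j := Prof.gp_pos _ _ _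

theorem tj_zero (k : ℤ) {θ : ℝ} (h0 : 0 ≤ θ) (h1 : θ < 1) : tj k θ 0 = 2 ^ k := by
  unfold tj
  rw [ix_zero h0 h1, Prof.gp_zero]

theorem tj_le (k : ℤ) {θ : ℝ} (h0 : 0 ≤ θ) (j : ℕ) : tj k θ j ≤ 2 ^ k * (1 + θ) := by
  unfold tj Prof.gp ix
  have h1 := Nat.floor_le (show 0 ≤ θ * 2 ^ j by positivity)
  have h2 : (⌊θ * 2 ^ j⌋₊ : ℝ) / 2 ^ j ≤ θ := by
    rw [div_le_iff₀ (by positivity)]
    exact h1
  gcongr

theorem tj_diff (k : ℤ) {θ : ℝ} (_h0 : 0 ≤ θ) (j : ℕ) :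
    2 ^ k * (1 + θ) - tj k θ j ≤ (1 / 2) ^ j * tj k θ j := by
  unfold tj Prof.gp ix
  have h2 := Nat.lt_floor_add_one (θ * 2 ^ j)
  have hp : (0 : ℝ) < 2 ^ j := by positivity
  have h3 : θ ≤ (⌊θ * 2 ^ j⌋₊ : ℝ) / 2 ^ j + (1 / 2) ^ j := by
    have e : (⌊θ * 2 ^ j⌋₊ : ℝ) / 2 ^ j + (1 / 2) ^ j = ((⌊θ * 2 ^ j⌋₊ : ℝ) + 1) / 2 ^ j := by
      rw [one_div, inv_pow]
      ring
    rw [e, le_div_iff₀ hp]
    exact h2.le
  have hk : (0 : ℝ) < (2 : ℝ) ^ k := by positivity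
  have hq : (0 : ℝ) ≤ (1 / 2 : ℝ) ^ j := by positivity
  have hn : (0 : ℝ) ≤ (⌊θ * 2 ^ j⌋₊ : ℝ) / 2 ^ j := by positivity
  calc (2 : ℝ) ^ k * (1 + θ) - 2 ^ k * (1 + (⌊θ * 2 ^ j⌋₊ : ℝ) / 2 ^ j)
      = 2 ^ k * (θ - (⌊θ * 2 ^ j⌋₊ : ℝ) / 2 ^ j) := by ring
    _ ≤ 2 ^ k * ((1 / 2) ^ j) := mul_le_mul_of_nonneg_left (by linarith) hk.le
    _ ≤ (1 / 2) ^ j * (2 ^ k * (1 + (⌊θ * 2 ^ j⌋₊ : ℝ) / 2 ^ j)) := by
        have : 0 ≤ (1 / 2 : ℝ) ^ j * (2 ^ k * ((⌊θ * 2 ^ j⌋₊ : ℝ) / 2 ^ j)) := by positivity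
        nlinarith

/-- one step of the chain -/
theorem chain_step (h : Prof φ A α) (k : ℤ) {θ : ℝ} (h0 : 0 ≤ θ) (j : ℕ)
    (f : Lp ℂ 2 (volume : Measure E2)) : ∀ᵐ x : E2,
    ‖MT (symb (cp φ) (tj k θ (j + 1))) f x - MT (symb (cp φ) (tj k θ j)) f x‖ₑ ≤
      ‖MT (dk φ k (j + 1) (2 * ix θ j)) f x‖ₑ := by
  rcases ix_succ h0 j with hs | hs
  · refine Eventually.of_forall fun x => ?_
    have : tj k θ (j + 1) = tj k θ j := by
      unfold tj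
      rw [hs, gp_double]
    rw [this, sub_self, enorm_zero]
    exact zero_le
  · have e : MT (dk φ k (j + 1) (2 * ix θ j)) f =
        MT (symb (cp φ) (tj k θ (j + 1))) f - MT (symb (cp φ) (tj k θ j)) f := by
      rw [← rz_mt_sub (symb_meas h _) (symb_meas h _) (symb_le_one h (tj_pos k θ (j + 1)))
        (symb_le_one h (tj_pos k θ j))]
      congr 1
      funext ξ
      unfold dk tj
      rw [gp_double, hs]
    filter_upwards [Lp.coeFn_sub (MT (symb (cp φ) (tj k θ (j + 1))) f)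
      (MT (symb (cp φ) (tj k θ j)) f)] with x hx
    rw [e, hx, Pi.sub_apply]

/-- the size of one increment -/
theorem incr_le {σ : ℝ} (hσ : 0 < σ) (f : Lp ℂ 2 (volume : Measure E2)) (k : ℤ) (j i : ℕ)
    (hi : i < 2 ^ j) (x : E2) :
    ‖MT (dk φ k j i) f x‖ₑ ≤ ENNReal.ofReal (σ ^ j) * (RG φ σ f k x) ^ (1 / 2 : ℝ) := by
  have h1 : ENNReal.ofReal ((σ⁻¹ ^ 2) ^ j) * ‖MT (dk φ k j i) f x‖ₑ ^ 2 ≤ RG φ σ f k x := by
    unfold RG
    refine le_trans ?_ (ENNReal.le_tsum j)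
    gcongr
    exact Finset.single_le_sum (f := fun i => ‖MT (dk φ k j i) f x‖ₑ ^ 2)
      (fun _ _ => zero_le) (Finset.mem_range.2 hi)
  have h2 : ‖MT (dk φ k j i) f x‖ₑ ^ 2 ≤ ENNReal.ofReal ((σ ^ 2) ^ j) * RG φ σ f k x := by
    calc ‖MT (dk φ k j i) f x‖ₑ ^ 2 = ENNReal.ofReal ((σ ^ 2) ^ j) *
          (ENNReal.ofReal ((σ⁻¹ ^ 2) ^ j) * ‖MT (dk φ k j i) f x‖ₑ ^ 2) := by
          rw [← mul_assoc, ← ENNReal.ofReal_mul (by positivity), ← mul_pow]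
          have : σ ^ 2 * σ⁻¹ ^ 2 = 1 := by
            field_simp
          rw [this, one_pow, ENNReal.ofReal_one, one_mul]
      _ ≤ _ := by gcongr
  have h3 := ENNReal.rpow_le_rpow h2 (by norm_num : (0 : ℝ) ≤ 1 / 2)
  rw [← ENNReal.rpow_natCast, ← ENNReal.rpow_mul, ENNReal.mul_rpow_of_nonneg _ _ (by norm_num)] at h3
  have e1 : ((2 : ℕ) : ℝ) * (1 / 2) = 1 := by norm_num
  rw [e1, ENNReal.rpow_one, ENNReal.ofReal_rpow_of_nonneg (by positivity) (by norm_num)] at h3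
  have e2 : ((σ ^ 2) ^ j) ^ (1 / 2 : ℝ) = σ ^ j := by
    rw [← pow_mul, mul_comm 2 j, pow_mul, ← Real.sqrt_eq_rpow, Real.sqrt_sq (by positivity)]
  rw [e2] at h3
  exact h3

/-- chains -/
theorem chain_part (h : Prof φ A α) (k : ℤ) {θ : ℝ} (h0 : 0 ≤ θ) (h1 : θ < 1)
    (f : Lp ℂ 2 (volume : Measure E2)) : ∀ᵐ x : E2, ∀ J : ℕ,
    ‖MT (symb (cp φ) (tj k θ J)) f x - MT (symb (cp φ) (2 ^ k)) f x‖ₑ ≤
      ENNReal.ofReal (1 / (1 - (1 / 2 : ℝ) ^ (α / 4))) *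
        (RG φ ((1 / 2 : ℝ) ^ (α / 4)) f k x) ^ (1 / 2 : ℝ) := by
  set σ : ℝ := (1 / 2 : ℝ) ^ (α / 4) with hσ
  have hσ0 : 0 < σ := sg_pos α
  have hσ1 : σ < 1 := sg_lt_one h.pos
  filter_upwards [ae_all_iff.2 fun j => chain_step h k h0 j f] with x hx
  have hpart : ∀ J : ℕ, ‖MT (symb (cp φ) (tj k θ J)) f x - MT (symb (cp φ) (2 ^ k)) f x‖ₑ ≤
      ENNReal.ofReal (∑ j ∈ Finset.range J, σ ^ j) * (RG φ σ f k x) ^ (1 / 2 : ℝ) := by
    intro J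
    induction J with
    | zero =>
      rw [tj_zero k h0 h1, sub_self, enorm_zero]
      exact zero_le
    | succ J ih =>
      have h2 : 2 * ix θ J < 2 ^ (J + 1) := by
        have := ix_lt h0 h1 J
        rw [pow_succ]
        omega
      have h3 := (hx J).trans (incr_le hσ0 f k (J + 1) (2 * ix θ J) h2 x)
      have h4 : ENNReal.ofReal (σ ^ (J + 1)) ≤ ENNReal.ofReal (σ ^ J) :=
        ENNReal.ofReal_le_ofReal (pow_le_pow_of_le_one hσ0.le hσ1.le (Nat.le_succ J))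
      have e : MT (symb (cp φ) (tj k θ (J + 1))) f x - MT (symb (cp φ) (2 ^ k)) f x =
          (MT (symb (cp φ) (tj k θ (J + 1))) f x - MT (symb (cp φ) (tj k θ J)) f x) +
          (MT (symb (cp φ) (tj k θ J)) f x - MT (symb (cp φ) (2 ^ k)) f x) := by ring
      rw [e, Finset.sum_range_succ, ENNReal.ofReal_add (Finset.sum_nonneg fun _ _ => by positivity)
        (by positivity), add_mul, add_comm (ENNReal.ofReal (∑ j ∈ Finset.range J, σ ^ j) * _)]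
      refine (enorm_add_le _ _).trans (add_le_add (h3.trans ?_) ih)
      gcongr
  intro J
  refine (hpart J).trans ?_
  gcongr
  have h5 := (summable_geometric_of_lt_one hσ0.le hσ1).sum_le_tsum (Finset.range J)
    (fun j _ => by positivity)
  rw [tsum_geometric_of_lt_one hσ0.le hσ1] at h5
  rw [one_div]
  exact h5

/-- square summable errors tend to `0` almost everywhere -/
theorem ae_tend {u : ℕ → E2 → ℝ≥0∞} (hm : ∀ n, Measurable (u n))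
    (hs : ∑' n, ∫⁻ x : E2, u n x ≠ ∞) : ∀ᵐ x : E2, Tendsto (fun n => u n x) atTop (nhds 0) := by
  have h1 : ∫⁻ x : E2, ∑' n, u n x ≠ ∞ := by
    rw [lintegral_tsum fun n => (hm n).aemeasurable]
    exact hs
  filter_upwards [ae_lt_top (Measurable.tsum fun n => hm n) h1] with x hx
  exact ENNReal.tendsto_atTop_zero_of_tsum_ne_top hx.ne

/-- the truncated parameters approximate -/
theorem tj_tend (h : Prof φ A α) (k : ℤ) {θ : ℝ} (h0 : 0 ≤ θ)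
    (f : Lp ℂ 2 (volume : Measure E2)) : ∀ᵐ x : E2, Tendsto (fun J : ℕ =>
      ‖MT (symb (cp φ) (2 ^ k * (1 + θ))) f x - MT (symb (cp φ) (tj k θ J)) f x‖ₑ ^ 2) atTop
        (nhds 0) := by
  have ht : (0 : ℝ) < 2 ^ k * (1 + θ) := by positivity
  have hA : 0 ≤ A := zero_le_one.trans h.one_le
  set σ : ℝ := (1 / 2 : ℝ) ^ (α / 4) with hσ
  have hσ0 : 0 < σ := sg_pos α
  have hσ1 : σ < 1 := sg_lt_one h.pos
  obtain ⟨μ, hμ⟩ : ∃ μ : ℕ → E2 → ℂ, ∀ J, μ J = fun ξ =>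
      symb (cp φ) (2 ^ k * (1 + θ)) ξ - symb (cp φ) (tj k θ J) ξ := ⟨_, fun _ => rfl⟩
  have hmu : ∀ J, Measurable (μ J) := fun J => by
    rw [hμ]
    exact (symb_meas h _).sub (symb_meas h _)
  have hb : ∀ J ξ, ‖μ J ξ‖ ≤ A * (σ ^ 4) ^ J := by
    intro J ξ
    rw [hμ, symb_sub_norm h (tj_pos k θ J) (tj_le k h0 J) ξ]
    refine (h.incr (vv_nonneg ξ) (tj_pos k θ J) (tj_le k h0 J) (tj_diff k h0 J)).trans ?_
    rw [sg_pow]
  have hMT : ∀ J, MT (μ J) f = MT (symb (cp φ) (2 ^ k * (1 + θ))) f -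
      MT (symb (cp φ) (tj k θ J)) f := by
    intro J
    rw [hμ]
    exact rz_mt_sub (symb_meas h _) (symb_meas h _) (symb_le_one h ht)
      (symb_le_one h (tj_pos k θ J)) f
  have hint : ∀ J, ∫⁻ x : E2, ‖MT (μ J) f x‖ₑ ^ 2 ≤
      ENNReal.ofReal ((A ^ 2) * (σ ^ 8) ^ J) * ‖f‖ₑ ^ 2 := by
    intro J
    rw [mt_norm (hmu J) (hb J) f, lp_sq, lp_sq_fourier]
    have hF : AEMeasurable (fun ξ : E2 => ‖(𝓕 f : Lp ℂ 2 (volume : Measure E2)) ξ‖ₑ ^ 2) volume :=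
      ((Lp.aestronglyMeasurable (𝓕 f : Lp ℂ 2 (volume : Measure E2))).enorm).pow_const 2
    rw [← lintegral_const_mul'' _ hF]
    refine lintegral_mono fun ξ => ?_
    gcongr
    rw [← ofReal_norm, ← ENNReal.ofReal_pow (norm_nonneg _)]
    apply ENNReal.ofReal_le_ofReal
    calc ‖μ J ξ‖ ^ 2 ≤ (A * (σ ^ 4) ^ J) ^ 2 := pow_le_pow_left₀ (norm_nonneg _) (hb J ξ) 2
      _ = A ^ 2 * (σ ^ 8) ^ J := by
          rw [mul_pow, ← pow_mul, ← pow_mul, ← pow_mul]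
          ring_nf
  have hsum : ∑' J, ∫⁻ x : E2, ‖MT (μ J) f x‖ₑ ^ 2 ≠ ∞ := by
    refine ne_top_of_le_ne_top ?_ (ENNReal.tsum_le_tsum hint)
    rw [ENNReal.tsum_mul_right]
    apply ENNReal.mul_ne_top
    · have hq : σ ^ 8 < 1 := pow_lt_one₀ hσ0.le hσ1 (by norm_num)
      rw [← ENNReal.ofReal_tsum_of_nonneg]
      · exact ENNReal.ofReal_ne_top
      · intro J
        positivity
      · exact (summable_geometric_of_lt_one (by positivity) hq).mul_left _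
    · exact ENNReal.pow_ne_top (by simp)
  have hT := ae_tend (u := fun J x => ‖MT (μ J) f x‖ₑ ^ 2)
    (fun J => ((Lp.stronglyMeasurable (MT (μ J) f)).enorm).pow_const 2) hsum
  have hae : ∀ᵐ x : E2, ∀ J, MT (μ J) f x = MT (symb (cp φ) (2 ^ k * (1 + θ))) f x -
      MT (symb (cp φ) (tj k θ J)) f x := by
    rw [ae_all_iff]
    intro J
    filter_upwards [Lp.coeFn_sub (MT (symb (cp φ) (2 ^ k * (1 + θ))) f)
      (MT (symb (cp φ) (tj k θ J)) f)] with x hx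
    rw [hMT, hx, Pi.sub_apply]
  filter_upwards [hT, hae] with x h2 h3
  simpa only [h3] using h2

/-- the whole chain -/
theorem rz_chain (h : Prof φ A α) (k : ℤ) {t : ℝ} (ht0 : (2 : ℝ) ^ k ≤ t)
    (ht1 : t < (2 : ℝ) ^ (k + 1)) (f : Lp ℂ 2 (volume : Measure E2)) : ∀ᵐ x : E2,
    ‖MT (symb (cp φ) t) f x - MT (symb (cp φ) (2 ^ k)) f x‖ₑ ^ 2 ≤
      ENNReal.ofReal ((1 / (1 - (1 / 2 : ℝ) ^ (α / 4))) ^ 2) *
        RG φ ((1 / 2 : ℝ) ^ (α / 4)) f k x := by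
  have hk : (0 : ℝ) < (2 : ℝ) ^ k := by positivity
  obtain ⟨θ, hθ⟩ : ∃ θ : ℝ, θ = t / 2 ^ k - 1 := ⟨_, rfl⟩
  have h0 : 0 ≤ θ := by
    rw [hθ, sub_nonneg, le_div_iff₀ hk, one_mul]
    exact ht0
  have h1 : θ < 1 := by
    rw [hθ, sub_lt_iff_lt_add, div_lt_iff₀ hk]
    rw [zpow_add₀ (by norm_num)] at ht1
    linarith [(by norm_num : (2 : ℝ) ^ (1 : ℤ) = 2)]
  have ht : t = 2 ^ k * (1 + θ) := by
    rw [hθ]
    field_simp
    ring
  filter_upwards [chain_part h k h0 h1 f, tj_tend h k h0 f] with x hx1 hx2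
  rw [ht]
  set σ : ℝ := (1 / 2 : ℝ) ^ (α / 4) with hσ
  set c : ℝ≥0∞ := ENNReal.ofReal (1 / (1 - σ)) * (RG φ σ f k x) ^ (1 / 2 : ℝ) with hc
  have hlim : Tendsto (fun J : ℕ => ‖MT (symb (cp φ) (2 ^ k * (1 + θ))) f x -
      MT (symb (cp φ) (tj k θ J)) f x‖ₑ) atTop (nhds 0) := by
    have h2 := hx2.ennrpow_const (1 / 2 : ℝ)
    have e : ∀ y : ℝ≥0∞, (y ^ 2) ^ (1 / 2 : ℝ) = y := by
      intro y
      rw [← ENNReal.rpow_natCast, ← ENNReal.rpow_mul]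
      norm_num
    simp only [e] at h2
    rwa [ENNReal.zero_rpow_of_pos (by norm_num)] at h2
  have h3 : ‖MT (symb (cp φ) (2 ^ k * (1 + θ))) f x - MT (symb (cp φ) (2 ^ k)) f x‖ₑ ≤ c := by
    have h4 : Tendsto (fun J : ℕ => ‖MT (symb (cp φ) (2 ^ k * (1 + θ))) f x -
      MT (symb (cp φ) (tj k θ J)) f x‖ₑ + c) atTop (nhds (0 + c)) := hlim.add_const c
    rw [zero_add] at h4
    refine ge_of_tendsto' h4 fun J => ?_
    have e : MT (symb (cp φ) (2 ^ k * (1 + θ))) f x - MT (symb (cp φ) (2 ^ k)) f x =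
        (MT (symb (cp φ) (2 ^ k * (1 + θ))) f x - MT (symb (cp φ) (tj k θ J)) f x) +
        (MT (symb (cp φ) (tj k θ J)) f x - MT (symb (cp φ) (2 ^ k)) f x) := by ring
    rw [e]
    exact (enorm_add_le _ _).trans (add_le_add le_rfl (hx1 J))
  calc ‖MT (symb (cp φ) (2 ^ k * (1 + θ))) f x - MT (symb (cp φ) (2 ^ k)) f x‖ₑ ^ 2 ≤ c ^ 2 := by
        gcongr
    _ = _ := by
        have hσ1 : σ < 1 := sg_lt_one h.pos
        rw [hc, mul_pow, ← ENNReal.ofReal_pow (by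
          have : 0 < 1 - σ := by linarith
          positivity)]
        congr 1
        rw [← ENNReal.rpow_natCast, ← ENNReal.rpow_mul]
        norm_num

end Pool.Agent.Hyp
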