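import Pool.Agent.Hyp.RzC

/-!
# Hyperbolic Riesz means, module RzD (helper25): the maximal inequality

`dy_max`: the dyadic maximal inequality of `AllM` (helper12) for continuous profiles with
`|Φ s| ≤ D`, `s |Φ s| ≤ D`, `|Φ s - Φ 0| ≤ D s` (the proof of `all_main`).
`rz_max`: the maximal inequality for every countable set of parameters (`rz_chain`, `gg_int`).
-/

set_option autoImplicit false

namespace Pool.Agent.Hyp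

open MeasureTheory FourierTransform ENNReal Filter AllMAux

/-- decomposition of the dyadic operators -/
theorem dy_dec {Φ : ℝ → ℂ} (hΦ : Continuous Φ) {D : ℝ}
    (h1 : ∀ s, 0 ≤ s → ‖Φ s‖ ≤ D) (f : Lp ℂ 2 (volume : Measure E2)) :
    ∀ᵐ x : E2, ∀ k : ℤ, MT (symb Φ (2 ^ k)) f x =
      MT (rs Φ k) f x + Φ 0 * MT (hs k) f x := by
  have hD0 : 0 ≤ D := (norm_nonneg _).trans (h1 0 le_rfl)
  have hdec : ∀ k : ℤ, MT (symb Φ (2 ^ k)) f = MT (rs Φ k) f + Φ 0 • MT (hs k) f := by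
    intro k
    have e1 : symb Φ (2 ^ k) = fun ξ => rs Φ k ξ + Φ 0 * hs k ξ := by
      funext ξ
      unfold rs
      ring
    rw [← mt_smul (hs_measurable k) (hs_le k) (Φ 0) f, e1]
    have hr : ∀ ξ, ‖rs Φ k ξ‖ ≤ 2 * D + ‖Φ 0‖ := fun ξ =>
      (rs_le h1 k ξ).trans (by linarith [norm_nonneg (Φ 0)])
    have hh : ∀ ξ, ‖Φ 0 * hs k ξ‖ ≤ 2 * D + ‖Φ 0‖ := fun ξ => by
      rw [norm_mul]
      have := mul_le_mul_of_nonneg_left (hs_le k ξ) (norm_nonneg (Φ 0))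
      linarith
    exact mt_add (rs_measurable hΦ k) ((hs_measurable k).const_mul (Φ 0)) hr hh f
  rw [ae_all_iff]
  intro k
  rw [hdec k]
  filter_upwards [Lp.coeFn_add (MT (rs Φ k) f) (Φ 0 • MT (hs k) f),
    Lp.coeFn_smul (Φ 0) (MT (hs k) f)] with x e1 e2
  rw [e1, Pi.add_apply, e2, Pi.smul_apply, smul_eq_mul]
theorem dy_max {Φ : ℝ → ℂ} (hΦ : Continuous Φ) {D : ℝ} (_hD0 : 0 ≤ D)
    (h1 : ∀ s, 0 ≤ s → ‖Φ s‖ ≤ D) (h2 : ∀ s, 0 ≤ s → s * ‖Φ s‖ ≤ D)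
    (h3 : ∀ s, 0 ≤ s → ‖Φ s - Φ 0‖ ≤ D * s) :
    ∃ C : ℝ, 0 ≤ C ∧ ∀ f : Lp ℂ 2 (volume : Measure E2),
      ∫⁻ x : E2, (⨆ k : ℤ, ‖MT (symb Φ (2 ^ k)) f x‖ₑ) ^ 2 ≤
        ENNReal.ofReal C * ∫⁻ ξ : E2, ENNReal.ofReal (wg ξ ^ 8) *
          ‖(𝓕 f : Lp ℂ 2 (volume : Measure E2)) ξ‖ₑ ^ 2 := by
  obtain ⟨C, hC0, hC⟩ := hb_all
  refine ⟨4 * (6 * D ^ 2 + ‖Φ 0‖ ^ 2 * (C * 5 ^ 8)), by positivity, fun f => ?_⟩
  obtain ⟨I, hI⟩ : ∃ I : ℝ≥0∞, I = ∫⁻ ξ : E2, ENNReal.ofReal (wg ξ ^ 8) *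
      ‖(𝓕 f : Lp ℂ 2 (volume : Measure E2)) ξ‖ₑ ^ 2 := ⟨_, rfl⟩
  rw [← hI]
  have hae := dy_dec hΦ h1 f
  have hpt : ∀ᵐ x : E2, (⨆ k : ℤ, ‖MT (symb Φ (2 ^ k)) f x‖ₑ) ^ 2 ≤
      4 * ((⨆ k : ℤ, ‖MT (rs Φ k) f x‖ₑ) ^ 2 +
        ‖Φ 0‖ₑ ^ 2 * (⨆ k : ℤ, ‖MT (hs k) f x‖ₑ) ^ 2) := by
    filter_upwards [hae] with x hx
    have h4 : (⨆ k : ℤ, ‖MT (symb Φ (2 ^ k)) f x‖ₑ) ≤
        (⨆ k : ℤ, ‖MT (rs Φ k) f x‖ₑ) + ‖Φ 0‖ₑ * (⨆ k : ℤ, ‖MT (hs k) f x‖ₑ) := by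
      apply iSup_le
      intro k
      rw [hx k]
      refine (enorm_add_le _ _).trans ?_
      rw [enorm_mul]
      gcongr
      · exact le_iSup (fun k : ℤ => ‖MT (rs Φ k) f x‖ₑ) k
      · exact le_iSup (fun k : ℤ => ‖MT (hs k) f x‖ₑ) k
    calc (⨆ k : ℤ, ‖MT (symb Φ (2 ^ k)) f x‖ₑ) ^ 2
        ≤ ((⨆ k : ℤ, ‖MT (rs Φ k) f x‖ₑ) + ‖Φ 0‖ₑ * (⨆ k : ℤ, ‖MT (hs k) f x‖ₑ)) ^ 2 := by
          gcongr
      _ ≤ _ := sq_add_le _ _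
      _ = _ := by rw [mul_pow]
  have hmeas : Measurable fun x : E2 => (⨆ k : ℤ, ‖MT (rs Φ k) f x‖ₑ) ^ 2 := by
    apply Measurable.pow_const
    apply Measurable.iSup
    intro k
    exact (Lp.stronglyMeasurable (MT (rs Φ k) f)).enorm
  have h5 : ∫⁻ x : E2, (⨆ k : ℤ, ‖MT (symb Φ (2 ^ k)) f x‖ₑ) ^ 2 ≤
      4 * ((∫⁻ x : E2, (⨆ k : ℤ, ‖MT (rs Φ k) f x‖ₑ) ^ 2) +
        ‖Φ 0‖ₑ ^ 2 * ∫⁻ x : E2, (⨆ k : ℤ, ‖MT (hs k) f x‖ₑ) ^ 2) := by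
    refine (lintegral_mono_ae hpt).trans_eq ?_
    rw [lintegral_const_mul' _ _ (by simp), lintegral_add_left hmeas,
      lintegral_const_mul' _ _ (by simp)]
  have h6 : ∫⁻ x : E2, (⨆ k : ℤ, ‖MT (rs Φ k) f x‖ₑ) ^ 2 ≤ ENNReal.ofReal (6 * D ^ 2) * I := by
    refine (sqf hΦ h1 h2 h3 f).trans ?_
    gcongr
    rw [lp_sq, lp_sq_fourier, hI]
    apply lintegral_mono
    intro ξ
    have : (1 : ℝ≥0∞) ≤ ENNReal.ofReal (wg ξ ^ 8) := by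
      rw [← ENNReal.ofReal_one]
      exact ENNReal.ofReal_le_ofReal (one_le_pow₀ (one_le_wg ξ))
    calc ‖(𝓕 f : Lp ℂ 2 (volume : Measure E2)) ξ‖ₑ ^ 2
        = 1 * ‖(𝓕 f : Lp ℂ 2 (volume : Measure E2)) ξ‖ₑ ^ 2 := by rw [one_mul]
      _ ≤ ENNReal.ofReal (wg ξ ^ 8) * ‖(𝓕 f : Lp ℂ 2 (volume : Measure E2)) ξ‖ₑ ^ 2 := by gcongr
  have h7 : ∫⁻ x : E2, (⨆ k : ℤ, ‖MT (hs k) f x‖ₑ) ^ 2 ≤
      ENNReal.ofReal (C * 5 ^ 8) * I := by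
    refine (hC f).trans ?_
    rw [ENNReal.ofReal_mul hC0, mul_assoc]
    gcongr
    rw [hI, ← lintegral_const_mul' _ _ (by simp)]
    apply lintegral_mono
    intro ξ
    have h8 : ((bl ξ : ℝ≥0∞) + 1) ^ 8 ≤ ENNReal.ofReal (5 ^ 8) * ENNReal.ofReal (wg ξ ^ 8) := by
      rw [← ENNReal.ofReal_mul (by positivity), ← mul_pow,
        ENNReal.ofReal_pow (by linarith [one_le_wg ξ])]
      gcongr
      have e : ((bl ξ : ℝ≥0∞) + 1) = ENNReal.ofReal ((bl ξ : ℝ) + 1) := by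
        rw [ENNReal.ofReal_add (by positivity) (by norm_num), ENNReal.ofReal_natCast,
          ENNReal.ofReal_one]
      rw [e]
      exact ENNReal.ofReal_le_ofReal (bl_le ξ)
    show ((bl ξ : ℝ≥0∞) + 1) ^ 8 * ‖(𝓕 f : Lp ℂ 2 (volume : Measure E2)) ξ‖ₑ ^ 2 ≤
      ENNReal.ofReal (5 ^ 8) * (ENNReal.ofReal (wg ξ ^ 8) *
        ‖(𝓕 f : Lp ℂ 2 (volume : Measure E2)) ξ‖ₑ ^ 2)
    rw [← mul_assoc]
    gcongr
  refine h5.trans ?_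
  have e9 : ENNReal.ofReal (4 * (6 * D ^ 2 + ‖Φ 0‖ ^ 2 * (C * 5 ^ 8))) * I =
      4 * (ENNReal.ofReal (6 * D ^ 2) * I + ‖Φ 0‖ₑ ^ 2 * (ENNReal.ofReal (C * 5 ^ 8) * I)) := by
    rw [ENNReal.ofReal_mul (by norm_num), ENNReal.ofReal_add (by positivity) (by positivity),
      ENNReal.ofReal_mul (p := ‖Φ 0‖ ^ 2) (by positivity), ENNReal.ofReal_pow (norm_nonneg _),
      ofReal_norm]
    have : ENNReal.ofReal 4 = 4 := by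
      rw [show (4 : ℝ) = ((4 : ℕ) : ℝ) by norm_num, ENNReal.ofReal_natCast]
      rfl
    rw [this]
    ring
  rw [e9]
  gcongr


theorem prof_bounds {φ : ℝ → ℝ} {A α : ℝ} (h : Prof φ A α) :
    (∀ s, 0 ≤ s → ‖cp φ s‖ ≤ A) ∧ (∀ s, 0 ≤ s → s * ‖cp φ s‖ ≤ A) ∧
      (∀ s, 0 ≤ s → ‖cp φ s - cp φ 0‖ ≤ A * s) := by
  have hn : ∀ s, 0 ≤ s → ‖cp φ s‖ = φ s := by
    intro s hs
    unfold cp
    rw [Complex.norm_real, Real.norm_of_nonneg (h.nonneg hs)]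
  refine ⟨fun s hs => ?_, fun s hs => ?_, fun s hs => ?_⟩
  · rw [hn s hs]
    exact (h.le_one hs).trans h.one_le
  · rw [hn s hs]
    rcases le_total 1 s with h1 | h1
    · rw [h.supp s h1, mul_zero]
      exact zero_le_one.trans h.one_le
    · have h2 := h.le_one hs
      have h3 := h.nonneg hs
      have h4 := h.one_le
      nlinarith
  · unfold cp
    rw [← Complex.ofReal_sub, Complex.norm_real, h.zero, Real.norm_eq_abs, abs_sub_comm,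
      abs_of_nonneg (by linarith [h.le_one hs])]
    exact h.lip s hs

theorem log_spec {t : ℝ} (ht : 0 < t) : (2 : ℝ) ^ (Int.log 2 t) ≤ t ∧
    t < (2 : ℝ) ^ (Int.log 2 t + 1) := by
  have h1 := Int.zpow_log_le_self (b := 2) (by norm_num) ht
  have h2 := Int.lt_zpow_succ_log_self (b := 2) (by norm_num) t
  exact ⟨by exact_mod_cast h1, by exact_mod_cast h2⟩

theorem rz_max {φ : ℝ → ℝ} {A α : ℝ} (h : Prof φ A α) : ∃ C : ℝ, 0 ≤ C ∧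
    ∀ S : Set ℝ, S.Countable → (∀ t ∈ S, 0 < t) → ∀ f : Lp ℂ 2 (volume : Measure E2),
      ∫⁻ x : E2, (⨆ t ∈ S, ‖MT (symb (cp φ) t) f x‖ₑ) ^ 2 ≤
        ENNReal.ofReal C * ∫⁻ ξ : E2, ENNReal.ofReal (wg ξ ^ 8) *
          ‖(𝓕 f : Lp ℂ 2 (volume : Measure E2)) ξ‖ₑ ^ 2 := by
  have hA : 0 ≤ A := zero_le_one.trans h.one_le
  obtain ⟨h1, h2, h3⟩ := prof_bounds h
  obtain ⟨C, hC0, hC⟩ := dy_max (cp_cont h) hA h1 h2 h3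
  obtain ⟨σ, hσ⟩ : ∃ σ : ℝ, σ = (1 / 2 : ℝ) ^ (α / 4) := ⟨_, rfl⟩
  have hσ0 : 0 < σ := by rw [hσ]; exact sg_pos α
  have hσ1 : σ < 1 := by rw [hσ]; exact sg_lt_one h.pos
  have hσ2 : 0 < 1 - σ ^ 2 := by nlinarith
  have hσ3 : 0 < 1 - σ := by linarith
  refine ⟨4 * (C + (1 / (1 - σ)) ^ 2 * (A / (1 - σ ^ 2))), by positivity, ?_⟩
  intro S hS hpos f
  obtain ⟨I, hI⟩ : ∃ I : ℝ≥0∞, I = ∫⁻ ξ : E2, ENNReal.ofReal (wg ξ ^ 8) *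
      ‖(𝓕 f : Lp ℂ 2 (volume : Measure E2)) ξ‖ₑ ^ 2 := ⟨_, rfl⟩
  rw [← hI]
  have hch : ∀ᵐ x : E2, ∀ t ∈ S, ‖MT (symb (cp φ) t) f x -
      MT (symb (cp φ) (2 ^ Int.log 2 t)) f x‖ₑ ^ 2 ≤
      ENNReal.ofReal ((1 / (1 - σ)) ^ 2) * RG φ σ f (Int.log 2 t) x := by
    rw [ae_ball_iff hS]
    intro t ht
    rw [hσ]
    exact rz_chain h (Int.log 2 t) (log_spec (hpos t ht)).1 (log_spec (hpos t ht)).2 f
  have hpt : ∀ᵐ x : E2, (⨆ t ∈ S, ‖MT (symb (cp φ) t) f x‖ₑ) ^ 2 ≤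
      4 * ((⨆ k : ℤ, ‖MT (symb (cp φ) (2 ^ k)) f x‖ₑ) ^ 2 +
        ENNReal.ofReal ((1 / (1 - σ)) ^ 2) * ∑' k : ℤ, RG φ σ f k x) := by
    filter_upwards [hch] with x hx
    obtain ⟨B, hB⟩ : ∃ B : ℝ≥0∞, B = 4 * ((⨆ k : ℤ, ‖MT (symb (cp φ) (2 ^ k)) f x‖ₑ) ^ 2 +
        ENNReal.ofReal ((1 / (1 - σ)) ^ 2) * ∑' k : ℤ, RG φ σ f k x) := ⟨_, rfl⟩
    rw [← hB]
    have hone : ∀ t ∈ S, ‖MT (symb (cp φ) t) f x‖ₑ ≤ B ^ (1 / 2 : ℝ) := by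
      intro t ht
      have e : MT (symb (cp φ) t) f x = MT (symb (cp φ) (2 ^ Int.log 2 t)) f x +
          (MT (symb (cp φ) t) f x - MT (symb (cp φ) (2 ^ Int.log 2 t)) f x) := by ring
      have h4 : ‖MT (symb (cp φ) t) f x‖ₑ ^ 2 ≤ B := by
        rw [hB, e]
        refine (pow_le_pow_left' (enorm_add_le _ _) 2).trans ((sq_add_le _ _).trans ?_)
        gcongr
        · exact le_iSup (fun k : ℤ => ‖MT (symb (cp φ) (2 ^ k)) f x‖ₑ) (Int.log 2 t)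
        · refine (hx t ht).trans ?_
          gcongr
          exact ENNReal.le_tsum (Int.log 2 t)
      have h5 := ENNReal.rpow_le_rpow h4 (by norm_num : (0 : ℝ) ≤ 1 / 2)
      rw [← ENNReal.rpow_natCast, ← ENNReal.rpow_mul] at h5
      have e1 : ((2 : ℕ) : ℝ) * (1 / 2) = 1 := by norm_num
      rw [e1, ENNReal.rpow_one] at h5
      exact h5
    have h6 : (⨆ t ∈ S, ‖MT (symb (cp φ) t) f x‖ₑ) ≤ B ^ (1 / 2 : ℝ) := iSup₂_le hone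
    calc (⨆ t ∈ S, ‖MT (symb (cp φ) t) f x‖ₑ) ^ 2 ≤ (B ^ (1 / 2 : ℝ)) ^ 2 := by gcongr
      _ = B := by
          rw [← ENNReal.rpow_natCast, ← ENNReal.rpow_mul]
          norm_num
  have hmeas : Measurable fun x : E2 => (⨆ k : ℤ, ‖MT (symb (cp φ) (2 ^ k)) f x‖ₑ) ^ 2 := by
    apply Measurable.pow_const
    apply Measurable.iSup
    intro k
    exact (Lp.stronglyMeasurable (MT (symb (cp φ) (2 ^ k)) f)).enorm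
  have hI1 : ‖f‖ₑ ^ 2 ≤ I := by
    rw [lp_sq, lp_sq_fourier, hI]
    apply lintegral_mono
    intro ξ
    have : (1 : ℝ≥0∞) ≤ ENNReal.ofReal (wg ξ ^ 8) := by
      rw [← ENNReal.ofReal_one]
      exact ENNReal.ofReal_le_ofReal (one_le_pow₀ (one_le_wg ξ))
    calc ‖(𝓕 f : Lp ℂ 2 (volume : Measure E2)) ξ‖ₑ ^ 2
        = 1 * ‖(𝓕 f : Lp ℂ 2 (volume : Measure E2)) ξ‖ₑ ^ 2 := by rw [one_mul]
      _ ≤ ENNReal.ofReal (wg ξ ^ 8) * ‖(𝓕 f : Lp ℂ 2 (volume : Measure E2)) ξ‖ₑ ^ 2 := by gcongr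
  refine (lintegral_mono_ae hpt).trans ?_
  rw [lintegral_const_mul' _ _ (by simp), lintegral_add_left hmeas,
    lintegral_const_mul' _ _ (by simp)]
  have h7 := hC f
  rw [← hI] at h7
  have h8 := gg_int h f
  rw [← hσ] at h8
  calc 4 * ((∫⁻ x : E2, (⨆ k : ℤ, ‖MT (symb (cp φ) (2 ^ k)) f x‖ₑ) ^ 2) +
        ENNReal.ofReal ((1 / (1 - σ)) ^ 2) * ∫⁻ x : E2, ∑' k : ℤ, RG φ σ f k x)
      ≤ 4 * (ENNReal.ofReal C * I + ENNReal.ofReal ((1 / (1 - σ)) ^ 2) *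
          (ENNReal.ofReal (A / (1 - σ ^ 2)) * I)) := by
        gcongr
        exact h8.trans (by gcongr)
    _ = ENNReal.ofReal (4 * (C + (1 / (1 - σ)) ^ 2 * (A / (1 - σ ^ 2)))) * I := by
        have e4 : ENNReal.ofReal 4 = 4 := by
          rw [show (4 : ℝ) = ((4 : ℕ) : ℝ) by norm_num, ENNReal.ofReal_natCast]
          rfl
        rw [ENNReal.ofReal_mul (by norm_num), ENNReal.ofReal_add hC0 (by positivity),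
          ENNReal.ofReal_mul (by positivity), e4]
        ring

end Pool.Agent.Hyp
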