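import Pool.Agent.Hyp.RzD

/-!
# Hyperbolic Riesz means, module RzE (helper25): convergence almost everywhere

`wp ξ = log (e + log (e + log⁺ (ξ₁² ξ₂²)))`.  If `∫ wp^8 |f̂|^2 < ∞` then `MT (hs k) f → f` a.e. as
`k → ∞` (`hs_tend`): for `k ≥ R`, `MT (hs k) f - f = MT (hs k) h - h`, `h = MT (1 - hs R) f`, and
`∫ (sup_k |MT (hs k) h| + |h|)^2 ≤ C ∫_(kap ≥ R) wp^8 |f̂|^2 → 0` (`hb_all`).
The differences `MT (symb t) f - MT (symb 2^k) f` (`rz_chain`) and `MT (rs k) f` tend to `0` a.e. for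
every `f ∈ L²` (convergent sums of squares).
-/

set_option autoImplicit false

namespace Pool.Agent.Hyp

open MeasureTheory FourierTransform ENNReal Filter AllMAux

/-- the weight, only for large `ξ₁² ξ₂²` -/
noncomputable def wp (ξ : E2) : ℝ :=
  Real.log (Real.exp 1 + Real.log (Real.exp 1 + max (Real.log ((ξ 0) ^ 2 * (ξ 1) ^ 2)) 0))

theorem one_le_wp (ξ : E2) : 1 ≤ wp ξ := by
  unfold wp
  apply one_le_log_exp_add
  have := one_le_log_exp_add (le_max_right (Real.log ((ξ 0) ^ 2 * (ξ 1) ^ 2)) 0)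
  linarith

/-- above level `0` the two weights agree -/
theorem bl_le_wp {ξ : E2} (h : 0 ≤ kap ξ) : (bl ξ : ℝ) + 1 ≤ 5 * wp ξ := by
  have h1 := bl_le ξ
  have e : wg ξ = wp ξ := by
    unfold wg wp
    have h2 : 0 ≤ Real.log ((ξ 0) ^ 2 * (ξ 1) ^ 2) := by
      rcases (vv_nonneg ξ).eq_or_lt with h3 | h3
      · rw [← h3, Real.log_zero]
      · apply Real.log_nonneg
        have h4 := (log_spec h3).1
        unfold kap at h
        have h5 : (1 : ℝ) ≤ 2 ^ Int.log 2 ((ξ 0) ^ 2 * (ξ 1) ^ 2) := one_le_zpow₀ (by norm_num) h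
        linarith
    rw [abs_of_nonneg h2, max_eq_left h2]
  rwa [e] at h1

/-- the symbol `1 - hs R` -/
noncomputable def hc (R : ℤ) (ξ : E2) : ℂ := 1 - hs R ξ

theorem hc_meas (R : ℤ) : Measurable (hc R) := measurable_const.sub (hs_measurable R)

theorem hc_eq (R : ℤ) (ξ : E2) : hc R ξ = if kap ξ < R then 0 else 1 := by
  unfold hc hs
  split_ifs <;> simp

theorem hc_le (R : ℤ) (ξ : E2) : ‖hc R ξ‖ ≤ 1 := by
  rw [hc_eq]
  split_ifs <;> simp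

theorem mt_one (f : Lp ℂ 2 (volume : Measure E2)) : MT (fun _ => (1 : ℂ)) f = f := by
  symm
  refine mt_unique measurable_const (D := 1) (fun ξ => by simp) ?_
  filter_upwards with ξ
  rw [one_mul]

theorem mt_hc (R : ℤ) (f : Lp ℂ 2 (volume : Measure E2)) : MT (hc R) f = f - MT (hs R) f := by
  have h := rz_mt_sub (μ := fun _ => (1 : ℂ)) (ν := hs R) measurable_const (hs_measurable R)
    (D := 1) (fun ξ => by simp) (hs_le R) f
  rw [mt_one] at h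
  exact h

/-- for `k ≥ R` the error of `hs k` is the error of the part of level at least `R` -/
theorem hs_err {R k : ℤ} (hk : R ≤ k) (f : Lp ℂ 2 (volume : Measure E2)) :
    MT (hs k) f - f = MT (hs k) (MT (hc R) f) - MT (hc R) f := by
  have h1 : MT (hc k) (MT (hc R) f) = MT (hc k) f := by
    rw [mt_comp (hc_meas k) (hc_meas R) (hc_le k) (hc_le R)]
    congr 1
    funext ξ
    rw [hc_eq, hc_eq]
    by_cases h2 : kap ξ < k
    · simp [h2]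
    · have h3 : ¬ kap ξ < R := by omega
      simp [h2, h3]
  rw [mt_hc k, mt_hc k] at h1
  have h4 : MT (hs k) (MT (hc R) f) - MT (hc R) f = -(MT (hc R) f - MT (hs k) (MT (hc R) f)) := by
    abel
  rw [h4, h1]
  abel

/-- the maximal function of the part of level at least `R` -/
theorem hc_bound : ∃ C : ℝ, 0 ≤ C ∧ ∀ (R : ℕ) (f : Lp ℂ 2 (volume : Measure E2)),
    ∫⁻ x : E2, ((⨆ k : ℤ, ‖MT (hs k) (MT (hc R) f) x‖ₑ) + ‖MT (hc R) f x‖ₑ) ^ 2 ≤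
      ENNReal.ofReal C * ∫⁻ ξ : E2, (if kap ξ < (R : ℤ) then 0 else
        ENNReal.ofReal (wp ξ ^ 8) * ‖(𝓕 f : Lp ℂ 2 (volume : Measure E2)) ξ‖ₑ ^ 2) := by
  obtain ⟨C, hC0, hC⟩ := hb_all
  refine ⟨4 * ((C + 1) * 5 ^ 8), by positivity, fun R f => ?_⟩
  obtain ⟨g, hg⟩ : ∃ g : Lp ℂ 2 (volume : Measure E2), g = MT (hc R) f := ⟨_, rfl⟩
  rw [← hg]
  have hmeas : Measurable fun x : E2 => (⨆ k : ℤ, ‖MT (hs k) g x‖ₑ) ^ 2 := by
    apply Measurable.pow_const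
    apply Measurable.iSup
    intro k
    exact (Lp.stronglyMeasurable (MT (hs k) g)).enorm
  have h1 : ∫⁻ x : E2, ((⨆ k : ℤ, ‖MT (hs k) g x‖ₑ) + ‖g x‖ₑ) ^ 2 ≤
      4 * ((∫⁻ x : E2, (⨆ k : ℤ, ‖MT (hs k) g x‖ₑ) ^ 2) + ∫⁻ x : E2, ‖g x‖ₑ ^ 2) := by
    refine (lintegral_mono fun x => sq_add_le _ _).trans ?_
    rw [lintegral_const_mul' _ _ (by simp), lintegral_add_left hmeas]
  have h2 : ∫⁻ x : E2, ‖g x‖ₑ ^ 2 ≤ ∫⁻ ξ : E2, ((bl ξ : ℝ≥0∞) + 1) ^ 8 *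
      ‖(𝓕 g : Lp ℂ 2 (volume : Measure E2)) ξ‖ₑ ^ 2 := by
    rw [lp_sq_fourier]
    refine lintegral_mono fun ξ => ?_
    have : (1 : ℝ≥0∞) ≤ ((bl ξ : ℝ≥0∞) + 1) ^ 8 := one_le_pow₀ le_add_self
    calc ‖(𝓕 g : Lp ℂ 2 (volume : Measure E2)) ξ‖ₑ ^ 2
        = 1 * ‖(𝓕 g : Lp ℂ 2 (volume : Measure E2)) ξ‖ₑ ^ 2 := by rw [one_mul]
      _ ≤ _ := by gcongr
  have h3 : ∫⁻ ξ : E2, ((bl ξ : ℝ≥0∞) + 1) ^ 8 *
      ‖(𝓕 g : Lp ℂ 2 (volume : Measure E2)) ξ‖ₑ ^ 2 ≤ ENNReal.ofReal (5 ^ 8) *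
      ∫⁻ ξ : E2, (if kap ξ < (R : ℤ) then 0 else
        ENNReal.ofReal (wp ξ ^ 8) * ‖(𝓕 f : Lp ℂ 2 (volume : Measure E2)) ξ‖ₑ ^ 2) := by
    rw [← lintegral_const_mul' _ _ (by simp)]
    apply lintegral_mono_ae
    have hsp := mt_spec (hc_meas R) (hc_le R) f
    rw [← hg] at hsp
    filter_upwards [hsp] with ξ hξ
    rw [hξ, hc_eq]
    by_cases h4 : kap ξ < (R : ℤ)
    · simp [h4]
    · rw [if_neg h4, if_neg h4, one_mul]
      have h5 : 0 ≤ kap ξ := by omega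
      have h8 : ((bl ξ : ℝ≥0∞) + 1) ^ 8 ≤ ENNReal.ofReal (5 ^ 8) * ENNReal.ofReal (wp ξ ^ 8) := by
        rw [← ENNReal.ofReal_mul (by positivity), ← mul_pow,
          ENNReal.ofReal_pow (by linarith [one_le_wp ξ])]
        gcongr
        have e : ((bl ξ : ℝ≥0∞) + 1) = ENNReal.ofReal ((bl ξ : ℝ) + 1) := by
          rw [ENNReal.ofReal_add (by positivity) (by norm_num), ENNReal.ofReal_natCast,
            ENNReal.ofReal_one]
        rw [e]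
        exact ENNReal.ofReal_le_ofReal (bl_le_wp h5)
      rw [← mul_assoc]
      gcongr
  obtain ⟨J, hJ⟩ : ∃ J : ℝ≥0∞, J = ∫⁻ ξ : E2, (if kap ξ < (R : ℤ) then 0 else
        ENNReal.ofReal (wp ξ ^ 8) * ‖(𝓕 f : Lp ℂ 2 (volume : Measure E2)) ξ‖ₑ ^ 2) := ⟨_, rfl⟩
  rw [← hJ] at h3 ⊢
  have h6 := (hC g).trans (mul_le_mul_right h3 _)
  have h7 := h2.trans h3
  refine h1.trans ?_
  calc 4 * ((∫⁻ x : E2, (⨆ k : ℤ, ‖MT (hs k) g x‖ₑ) ^ 2) + ∫⁻ x : E2, ‖g x‖ₑ ^ 2)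
      ≤ 4 * (ENNReal.ofReal C * (ENNReal.ofReal (5 ^ 8) * J) + ENNReal.ofReal (5 ^ 8) * J) := by
        gcongr
    _ = ENNReal.ofReal (4 * ((C + 1) * 5 ^ 8)) * J := by
        have e4 : ENNReal.ofReal 4 = 4 := by
          rw [show (4 : ℝ) = ((4 : ℕ) : ℝ) by norm_num, ENNReal.ofReal_natCast]
          rfl
        rw [ENNReal.ofReal_mul (by norm_num), ENNReal.ofReal_mul (by positivity),
          ENNReal.ofReal_add hC0 (by norm_num), e4, ENNReal.ofReal_one]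
        ring

/-- the sharp dyadic hyperbolic cross sums converge -/
theorem hs_tend (f : Lp ℂ 2 (volume : Measure E2))
    (hf : ∫⁻ ξ : E2, ENNReal.ofReal (wp ξ ^ 8) *
      ‖(𝓕 f : Lp ℂ 2 (volume : Measure E2)) ξ‖ₑ ^ 2 ≠ ∞) :
    ∀ᵐ x : E2, Tendsto (fun k : ℤ => ‖MT (hs k) f x - f x‖ₑ) atTop (nhds 0) := by
  obtain ⟨C, hC0, hC⟩ := hc_bound
  have hFm : AEMeasurable (fun ξ : E2 => ENNReal.ofReal (wp ξ ^ 8) *
      ‖(𝓕 f : Lp ℂ 2 (volume : Measure E2)) ξ‖ₑ ^ 2) volume := by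
    have h1 : Measurable fun ξ : E2 => ENNReal.ofReal (wp ξ ^ 8) := by
      unfold wp
      fun_prop
    exact h1.aemeasurable.mul
      (((Lp.aestronglyMeasurable (𝓕 f : Lp ℂ 2 (volume : Measure E2))).enorm).pow_const 2)
  -- the tails tend to zero
  have htail : Tendsto (fun R : ℕ => ∫⁻ ξ : E2, (if kap ξ < (R : ℤ) then 0 else
        ENNReal.ofReal (wp ξ ^ 8) * ‖(𝓕 f : Lp ℂ 2 (volume : Measure E2)) ξ‖ₑ ^ 2)) atTop
      (nhds 0) := by
    have h2 := tendsto_lintegral_of_dominated_convergence' (μ := (volume : Measure E2))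
      (F := fun (R : ℕ) (ξ : E2) => if kap ξ < (R : ℤ) then (0 : ℝ≥0∞) else
        ENNReal.ofReal (wp ξ ^ 8) * ‖(𝓕 f : Lp ℂ 2 (volume : Measure E2)) ξ‖ₑ ^ 2)
      (f := fun _ => 0)
      (fun ξ => ENNReal.ofReal (wp ξ ^ 8) * ‖(𝓕 f : Lp ℂ 2 (volume : Measure E2)) ξ‖ₑ ^ 2)
      (fun R => by
        have hs : MeasurableSet {ξ : E2 | kap ξ < (R : ℤ)} :=
          kap_measurable (measurableSet_Iio (a := (R : ℤ)))
        have h3 : AEMeasurable (fun ξ : E2 => Set.indicator {ξ : E2 | kap ξ < (R : ℤ)}ᶜ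
          (fun ξ => ENNReal.ofReal (wp ξ ^ 8) *
            ‖(𝓕 f : Lp ℂ 2 (volume : Measure E2)) ξ‖ₑ ^ 2) ξ) volume := hFm.indicator hs.compl
        refine h3.congr (Eventually.of_forall fun ξ => ?_)
        by_cases h4 : kap ξ < (R : ℤ)
        · simp only [h4, if_true]
          exact Set.indicator_of_notMem
            (show ξ ∉ {ξ : E2 | kap ξ < (R : ℤ)}ᶜ from fun h5 => h5 h4) _
        · simp only [h4, if_false]
          exact Set.indicator_of_mem (show ξ ∈ {ξ : E2 | kap ξ < (R : ℤ)}ᶜ from h4) _)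
      (fun R => Eventually.of_forall fun ξ => by
        by_cases h4 : kap ξ < (R : ℤ)
        · simp [h4]
        · simp [h4])
      hf
      (Eventually.of_forall fun ξ => by
        refine tendsto_const_nhds.congr' ?_
        filter_upwards [eventually_ge_atTop ((kap ξ).toNat + 1)] with R hR
        have h4 : kap ξ < (R : ℤ) := by
          have := Int.self_le_toNat (kap ξ)
          omega
        rw [if_pos h4])
    simpa using h2
  -- the errors after `R`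
  obtain ⟨U, hU⟩ : ∃ U : ℕ → E2 → ℝ≥0∞, ∀ R x, U R x =
      ⨆ n : ℕ, ‖MT (hs ((R : ℤ) + n)) f x - f x‖ₑ := ⟨_, fun _ _ => rfl⟩
  have hUm : ∀ R, Measurable (U R) := by
    intro R
    have : U R = fun x => ⨆ n : ℕ, ‖MT (hs ((R : ℤ) + n)) f x - f x‖ₑ := funext fun x => hU R x
    rw [this]
    apply Measurable.iSup
    intro n
    exact ((Lp.stronglyMeasurable (MT (hs ((R : ℤ) + n)) f)).sub (Lp.stronglyMeasurable f)).enorm
  have hUb : ∀ R : ℕ, ∫⁻ x : E2, U R x ^ 2 ≤ ENNReal.ofReal C *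
      ∫⁻ ξ : E2, (if kap ξ < (R : ℤ) then 0 else
        ENNReal.ofReal (wp ξ ^ 8) * ‖(𝓕 f : Lp ℂ 2 (volume : Measure E2)) ξ‖ₑ ^ 2) := by
    intro R
    refine le_trans ?_ (hC R f)
    apply lintegral_mono_ae
    have hae : ∀ᵐ x : E2, ∀ n : ℕ, MT (hs ((R : ℤ) + n)) f x - f x =
        MT (hs ((R : ℤ) + n)) (MT (hc R) f) x - MT (hc R) f x := by
      rw [ae_all_iff]
      intro n
      have e := hs_err (R := (R : ℤ)) (k := (R : ℤ) + n) (by omega) f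
      filter_upwards [Lp.coeFn_sub (MT (hs ((R : ℤ) + n)) f) f,
        Lp.coeFn_sub (MT (hs ((R : ℤ) + n)) (MT (hc R) f)) (MT (hc R) f)] with x h1 h2
      rw [← Pi.sub_apply, ← h1, e, h2, Pi.sub_apply]
    filter_upwards [hae] with x hx
    rw [hU]
    gcongr
    apply iSup_le
    intro n
    rw [hx n]
    refine (enorm_sub_le).trans ?_
    gcongr
    exact le_iSup (fun k : ℤ => ‖MT (hs k) (MT (hc R) f) x‖ₑ) ((R : ℤ) + n)
  have hzero : ∫⁻ x : E2, (⨅ R, U R x) ^ 2 = 0 := by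
    have h1 : ∀ R : ℕ, ∫⁻ x : E2, (⨅ R, U R x) ^ 2 ≤ ENNReal.ofReal C *
        ∫⁻ ξ : E2, (if kap ξ < (R : ℤ) then 0 else
          ENNReal.ofReal (wp ξ ^ 8) * ‖(𝓕 f : Lp ℂ 2 (volume : Measure E2)) ξ‖ₑ ^ 2) := by
      intro R
      refine le_trans (lintegral_mono fun x => ?_) (hUb R)
      gcongr
      exact iInf_le _ R
    have h2 : Tendsto (fun R : ℕ => ENNReal.ofReal C * ∫⁻ ξ : E2, (if kap ξ < (R : ℤ) then 0 else
        ENNReal.ofReal (wp ξ ^ 8) * ‖(𝓕 f : Lp ℂ 2 (volume : Measure E2)) ξ‖ₑ ^ 2)) atTop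
        (nhds (ENNReal.ofReal C * 0)) :=
      ENNReal.Tendsto.const_mul htail (Or.inr ENNReal.ofReal_ne_top)
    rw [mul_zero] at h2
    exact le_antisymm (ge_of_tendsto' h2 h1) zero_le
  have hm : Measurable fun x : E2 => (⨅ R, U R x) ^ 2 := (Measurable.iInf hUm).pow_const 2
  rw [lintegral_eq_zero_iff hm] at hzero
  filter_upwards [hzero] with x hx
  have hx0 : (⨅ R, U R x) = 0 := by
    have : (⨅ R, U R x) ^ 2 = 0 := hx
    exact pow_eq_zero_iff (by norm_num) |>.1 this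
  rw [ENNReal.tendsto_nhds_zero]
  intro ε hε
  obtain ⟨R, hR⟩ : ∃ R, U R x < ε := by
    rw [← iInf_lt_iff, hx0]
    exact hε
  filter_upwards [eventually_ge_atTop (R : ℤ)] with k hk
  obtain ⟨n, hn⟩ : ∃ n : ℕ, k = (R : ℤ) + n := ⟨(k - R).toNat, by omega⟩
  refine le_trans ?_ hR.le
  rw [hU, hn]
  exact le_iSup (fun n : ℕ => ‖MT (hs ((R : ℤ) + n)) f x - f x‖ₑ) n

end Pool.Agent.Hyp
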