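import Pool.Agent.Hyp.RzE

/-!
# Hyperbolic Riesz means, module RzF (helper25): convergence along every sequence
-/

set_option autoImplicit false

namespace Pool.Agent.Hyp

open MeasureTheory FourierTransform ENNReal Filter AllMAux

/-- the terms of an integrable series over `ℤ` tend to `0` at infinity -/
theorem ae_tend_int {u : ℤ → E2 → ℝ≥0∞} (hm : ∀ n, Measurable (u n))
    (hs : ∫⁻ x : E2, ∑' n, u n x ≠ ∞) : ∀ᵐ x : E2, Tendsto (fun n => u n x) atTop (nhds 0) := by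
  filter_upwards [ae_lt_top (Measurable.tsum fun n => hm n) hs] with x hx
  have h1 := ENNReal.tendsto_cofinite_zero_of_tsum_ne_top hx.ne
  refine h1.mono_left ?_
  rw [Int.cofinite_eq]
  exact le_sup_right

/-- the terms `MT (rs Φ k) f` tend to `0` -/
theorem rs_tend {Φ : ℝ → ℂ} (hΦ : Continuous Φ) {D : ℝ} (h1 : ∀ s, 0 ≤ s → ‖Φ s‖ ≤ D)
    (h2 : ∀ s, 0 ≤ s → s * ‖Φ s‖ ≤ D) (h3 : ∀ s, 0 ≤ s → ‖Φ s - Φ 0‖ ≤ D * s)
    (f : Lp ℂ 2 (volume : Measure E2)) :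
    ∀ᵐ x : E2, Tendsto (fun k : ℤ => ‖MT (rs Φ k) f x‖ₑ ^ 2) atTop (nhds 0) := by
  have hm : ∀ k : ℤ, Measurable (fun x : E2 => ‖MT (rs Φ k) f x‖ₑ ^ 2) := fun k =>
    ((Lp.stronglyMeasurable (MT (rs Φ k) f)).enorm).pow_const 2
  have hF : AEMeasurable (fun ξ : E2 => ‖(𝓕 f : Lp ℂ 2 (volume : Measure E2)) ξ‖ₑ ^ 2) volume :=
    ((Lp.aestronglyMeasurable (𝓕 f : Lp ℂ 2 (volume : Measure E2))).enorm).pow_const 2
  have hr : ∀ k : ℤ, AEMeasurable (fun ξ : E2 => ‖rs Φ k ξ‖ₑ ^ 2 *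
      ‖(𝓕 f : Lp ℂ 2 (volume : Measure E2)) ξ‖ₑ ^ 2) volume := fun k =>
    (((rs_measurable hΦ k).enorm.pow_const 2).aemeasurable).mul hF
  apply ae_tend_int hm
  refine ne_top_of_le_ne_top (b := ENNReal.ofReal (6 * D ^ 2) * ‖f‖ₑ ^ 2)
    (ENNReal.mul_ne_top ENNReal.ofReal_ne_top (ENNReal.pow_ne_top (by simp))) ?_
  calc ∫⁻ x : E2, ∑' k : ℤ, ‖MT (rs Φ k) f x‖ₑ ^ 2
      = ∑' k : ℤ, ∫⁻ x : E2, ‖MT (rs Φ k) f x‖ₑ ^ 2 :=
        lintegral_tsum fun k => (hm k).aemeasurable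
    _ = ∑' k : ℤ, ∫⁻ ξ : E2, ‖rs Φ k ξ‖ₑ ^ 2 *
          ‖(𝓕 f : Lp ℂ 2 (volume : Measure E2)) ξ‖ₑ ^ 2 :=
        tsum_congr fun k => mt_norm (rs_measurable hΦ k) (rs_le h1 k) f
    _ = ∫⁻ ξ : E2, ∑' k : ℤ, ‖rs Φ k ξ‖ₑ ^ 2 *
          ‖(𝓕 f : Lp ℂ 2 (volume : Measure E2)) ξ‖ₑ ^ 2 := (lintegral_tsum hr).symm
    _ ≤ ∫⁻ ξ : E2, ENNReal.ofReal (6 * D ^ 2) *
          ‖(𝓕 f : Lp ℂ 2 (volume : Measure E2)) ξ‖ₑ ^ 2 := by
        refine lintegral_mono_ae ?_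
        filter_upwards [ae_pos] with ξ hξ
        rw [ENNReal.tsum_mul_right]
        gcongr
        exact rs_tsum h1 h2 h3 hξ
    _ = ENNReal.ofReal (6 * D ^ 2) * ∫⁻ ξ : E2,
          ‖(𝓕 f : Lp ℂ 2 (volume : Measure E2)) ξ‖ₑ ^ 2 := lintegral_const_mul'' _ hF
    _ = ENNReal.ofReal (6 * D ^ 2) * ‖f‖ₑ ^ 2 := by
        rw [← lp_sq_fourier, ← lp_sq]

/-- the increments of a scale tend to `0` -/
theorem rg_tend {φ : ℝ → ℝ} {A α : ℝ} (h : Prof φ A α) (f : Lp ℂ 2 (volume : Measure E2)) :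
    ∀ᵐ x : E2, Tendsto (fun k : ℤ => RG φ ((1 / 2 : ℝ) ^ (α / 4)) f k x) atTop (nhds 0) := by
  apply ae_tend_int
  · intro k
    unfold RG
    exact Measurable.tsum fun j => (Finset.measurable_sum _ fun i _ =>
      ((Lp.stronglyMeasurable (MT (dk φ k j i) f)).enorm).pow_const 2).const_mul _
  · exact ne_top_of_le_ne_top (ENNReal.mul_ne_top ENNReal.ofReal_ne_top
      (ENNReal.pow_ne_top (by simp))) (gg_int h f)

theorem sqrt_tend {ι : Type*} {l : Filter ι} {u : ι → ℝ≥0∞}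
    (h : Tendsto (fun i => u i ^ 2) l (nhds 0)) : Tendsto u l (nhds 0) := by
  have h2 := h.ennrpow_const (1 / 2 : ℝ)
  have e : ∀ y : ℝ≥0∞, (y ^ 2) ^ (1 / 2 : ℝ) = y := by
    intro y
    rw [← ENNReal.rpow_natCast, ← ENNReal.rpow_mul]
    norm_num
  simp only [e] at h2
  rwa [ENNReal.zero_rpow_of_pos (by norm_num)] at h2

theorem rz_tend {φ : ℝ → ℝ} {A α : ℝ} (h : Prof φ A α) (f : Lp ℂ 2 (volume : Measure E2))
    (hf : ∫⁻ ξ : E2, ENNReal.ofReal (wp ξ ^ 8) *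
      ‖(𝓕 f : Lp ℂ 2 (volume : Measure E2)) ξ‖ₑ ^ 2 ≠ ∞)
    (t : ℕ → ℝ) (hpos : ∀ j, 0 < t j) (ht : Tendsto t atTop atTop) :
    ∀ᵐ x : E2, Tendsto (fun j => MT (symb (cp φ) (t j)) f x) atTop (nhds (f x)) := by
  obtain ⟨h1, h2, h3⟩ := prof_bounds h
  have hk : Tendsto (fun j => Int.log 2 (t j)) atTop atTop := by
    rw [tendsto_atTop]
    intro m
    filter_upwards [ht.eventually_ge_atTop ((2 : ℝ) ^ m)] with j hj
    exact (Int.zpow_le_iff_le_log (b := 2) (by norm_num) (hpos j)).1 (by exact_mod_cast hj)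
  have hch : ∀ᵐ x : E2, ∀ j, ‖MT (symb (cp φ) (t j)) f x -
      MT (symb (cp φ) (2 ^ Int.log 2 (t j))) f x‖ₑ ^ 2 ≤
      ENNReal.ofReal ((1 / (1 - (1 / 2 : ℝ) ^ (α / 4))) ^ 2) *
        RG φ ((1 / 2 : ℝ) ^ (α / 4)) f (Int.log 2 (t j)) x := by
    rw [ae_all_iff]
    intro j
    exact rz_chain h (Int.log 2 (t j)) (log_spec (hpos j)).1 (log_spec (hpos j)).2 f
  have h0 : cp φ 0 = 1 := by
    unfold cp
    rw [h.zero, Complex.ofReal_one]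
  filter_upwards [hch, rg_tend h f, rs_tend (cp_cont h) h1 h2 h3 f, dy_dec (cp_cont h) h1 f,
    hs_tend f hf] with x a1 a2 a3 a4 a5
  have b1 : Tendsto (fun j => ‖MT (symb (cp φ) (t j)) f x -
      MT (symb (cp φ) (2 ^ Int.log 2 (t j))) f x‖ₑ) atTop (nhds 0) := by
    apply sqrt_tend
    have c1 : Tendsto (fun j => ENNReal.ofReal ((1 / (1 - (1 / 2 : ℝ) ^ (α / 4))) ^ 2) *
        RG φ ((1 / 2 : ℝ) ^ (α / 4)) f (Int.log 2 (t j)) x) atTop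
        (nhds (ENNReal.ofReal ((1 / (1 - (1 / 2 : ℝ) ^ (α / 4))) ^ 2) * 0)) :=
      ENNReal.Tendsto.const_mul (a2.comp hk) (Or.inr ENNReal.ofReal_ne_top)
    rw [mul_zero] at c1
    exact tendsto_of_tendsto_of_tendsto_of_le_of_le tendsto_const_nhds c1
      (fun _ => zero_le) a1
  have b2 : Tendsto (fun j => ‖MT (rs (cp φ) (Int.log 2 (t j))) f x‖ₑ) atTop (nhds 0) :=
    (sqrt_tend a3).comp hk
  have b3 : Tendsto (fun j => ‖MT (hs (Int.log 2 (t j))) f x - f x‖ₑ) atTop (nhds 0) :=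
    a5.comp hk
  have b4 := (b1.add b2).add b3
  rw [add_zero, add_zero] at b4
  rw [tendsto_iff_edist_tendsto_0]
  refine tendsto_of_tendsto_of_tendsto_of_le_of_le tendsto_const_nhds b4 (fun _ => zero_le) ?_
  intro j
  beta_reduce
  rw [edist_eq_enorm_sub]
  have e : MT (symb (cp φ) (t j)) f x - f x =
      ((MT (symb (cp φ) (t j)) f x - MT (symb (cp φ) (2 ^ Int.log 2 (t j))) f x) +
        MT (rs (cp φ) (Int.log 2 (t j))) f x) + (MT (hs (Int.log 2 (t j))) f x - f x) := by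
    rw [a4 (Int.log 2 (t j)), h0, one_mul]
    ring
  rw [e]
  exact (enorm_add_le _ _).trans (add_le_add (enorm_add_le _ _) le_rfl)

end Pool.Agent.Hyp
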