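import Pool.Agent.Hyp.RzF

/-!
# Hyperbolic Riesz means, module RzG (helper25): a version continuous in the parameter

For `x` outside a null set the increments of `t ↦ MT (symb t) f x` over the intervals of the grids
satisfy `|increment| ≤ σ^j r_k` (`good_x`).  `FV t x` = limit of `MT (symb t_J) f x` along the
truncated parameters; for every `t > 0` it is `MT (symb t) f x` for almost every `x`
(`fv_ae`, by `tj_tend`), and for every good `x` it is continuous in `t ∈ (0, ∞)` (`fv_cont`).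
-/

set_option autoImplicit false

namespace Pool.Agent.Hyp

open MeasureTheory FourierTransform ENNReal Filter AllMAux

/-- `x` is good for `u`: increments over the grid of order `j` at most `σ ^ j r_k` -/
def GoodX (σ : ℝ) (u : ℝ → ℂ) : Prop := ∃ r : ℤ → ℝ, (∀ k, 0 ≤ r k) ∧
  ∀ (k : ℤ) (j i : ℕ), i < 2 ^ j → ‖u (Prof.gp k j (i + 1)) - u (Prof.gp k j i)‖ ≤ σ ^ j * r k

/-- the limit along the truncated parameters -/
noncomputable def FL (u : ℝ → ℂ) (t : ℝ) : ℂ :=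
  limUnder atTop fun J : ℕ => u (tj (Int.log 2 t) (t / 2 ^ Int.log 2 t - 1) J)

theorem th_spec {t : ℝ} (ht : 0 < t) : 0 ≤ t / 2 ^ Int.log 2 t - 1 ∧ t / 2 ^ Int.log 2 t - 1 < 1 := by
  have hk : (0 : ℝ) < (2 : ℝ) ^ Int.log 2 t := by positivity
  obtain ⟨h1, h2⟩ := log_spec ht
  constructor
  · rw [sub_nonneg, le_div_iff₀ hk, one_mul]
    exact h1
  · rw [sub_lt_iff_lt_add, div_lt_iff₀ hk]
    rw [zpow_add₀ (by norm_num)] at h2
    linarith [(by norm_num : (2 : ℝ) ^ (1 : ℤ) = 2)]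

theorem th_eq {t : ℝ} : (2 : ℝ) ^ Int.log 2 t * (1 + (t / 2 ^ Int.log 2 t - 1)) = t := by
  have hk : (2 : ℝ) ^ Int.log 2 t ≠ 0 := by positivity
  field_simp
  ring

/-- one step along the truncated parameters -/
theorem tj_step {σ : ℝ} {u : ℝ → ℂ} {r : ℤ → ℝ}
    (hr : ∀ (k : ℤ) (j i : ℕ), i < 2 ^ j →
      ‖u (Prof.gp k j (i + 1)) - u (Prof.gp k j i)‖ ≤ σ ^ j * r k)
    (hr0 : ∀ k, 0 ≤ r k) (hσ : 0 < σ) (k : ℤ) {θ : ℝ} (h0 : 0 ≤ θ) (h1 : θ < 1) (j : ℕ) :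
    ‖u (tj k θ (j + 1)) - u (tj k θ j)‖ ≤ σ ^ (j + 1) * r k := by
  rcases ix_succ h0 j with hs | hs
  · have : tj k θ (j + 1) = tj k θ j := by
      unfold tj
      rw [hs, gp_double]
    rw [this, sub_self, norm_zero]
    have := hr0 k
    positivity
  · have h2 : 2 * ix θ j < 2 ^ (j + 1) := by
      have := ix_lt h0 h1 j
      rw [pow_succ]
      omega
    have h3 := hr k (j + 1) (2 * ix θ j) h2
    unfold tj
    rw [hs]
    rwa [gp_double] at h3

/-- the truncated values converge, with the rate of the tail -/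
theorem fl_spec {σ : ℝ} (hσ : 0 < σ) (hσ1 : σ < 1) {u : ℝ → ℂ} {r : ℤ → ℝ}
    (hr : ∀ (k : ℤ) (j i : ℕ), i < 2 ^ j →
      ‖u (Prof.gp k j (i + 1)) - u (Prof.gp k j i)‖ ≤ σ ^ j * r k)
    (hr0 : ∀ k, 0 ≤ r k) {t : ℝ} (ht : 0 < t) (m : ℕ) :
    ‖FL u t - u (tj (Int.log 2 t) (t / 2 ^ Int.log 2 t - 1) m)‖ ≤
      σ ^ m * (r (Int.log 2 t) / (1 - σ)) := by
  obtain ⟨h0, h1⟩ := th_spec ht
  set k := Int.log 2 t with hk
  set θ := t / 2 ^ k - 1 with hθ
  have hσ2 : 0 < 1 - σ := by linarith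
  have hstep : ∀ n : ℕ, dist (u (tj k θ n)) (u (tj k θ (n + 1))) ≤ σ * r k * σ ^ n := by
    intro n
    rw [dist_comm, dist_eq_norm]
    refine (tj_step hr hr0 hσ k h0 h1 n).trans (le_of_eq ?_)
    ring
  have hc : CauchySeq fun J : ℕ => u (tj k θ J) := cauchySeq_of_le_geometric σ (σ * r k) hσ1 hstep
  have hlim : Tendsto (fun J : ℕ => u (tj k θ J)) atTop (nhds (FL u t)) := hc.tendsto_limUnder
  have h2 := dist_le_of_le_geometric_of_tendsto σ (σ * r k) hσ1 hstep hlim m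
  rw [dist_comm, dist_eq_norm] at h2
  refine h2.trans ?_
  have h3 : σ * r k * σ ^ m / (1 - σ) ≤ σ ^ m * (r k / (1 - σ)) := by
    have h4 : 0 ≤ σ ^ m * (r k / (1 - σ)) := by
      have := hr0 k
      positivity
    calc σ * r k * σ ^ m / (1 - σ) = σ * (σ ^ m * (r k / (1 - σ))) := by ring
      _ ≤ 1 * (σ ^ m * (r k / (1 - σ))) := mul_le_mul_of_nonneg_right hσ1.le h4
      _ = _ := one_mul _
  exact h3

/-- neighbours on the grid of order `m` -/
theorem ix_close {θ θ' : ℝ} (h0 : 0 ≤ θ) (h01 : θ ≤ θ') {m : ℕ} (h : θ' - θ ≤ (1 / 2) ^ m) :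
    ix θ' m = ix θ m ∨ ix θ' m = ix θ m + 1 := by
  unfold ix
  have hp : (0 : ℝ) < 2 ^ m := by positivity
  have hy : 0 ≤ θ * 2 ^ m := by positivity
  have h1 : θ * 2 ^ m ≤ θ' * 2 ^ m := mul_le_mul_of_nonneg_right h01 hp.le
  have h2 : θ' * 2 ^ m ≤ θ * 2 ^ m + 1 := by
    have h3 := mul_le_mul_of_nonneg_right h hp.le
    rw [← mul_pow] at h3
    norm_num at h3
    linarith
  have h4 := Nat.floor_mono h1
  have h5 := Nat.floor_mono h2
  rw [Nat.floor_add_one hy] at h5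
  omega

/-- continuity inside one dyadic interval -/
theorem fl_close {σ : ℝ} (hσ : 0 < σ) (hσ1 : σ < 1) {u : ℝ → ℂ} {r : ℤ → ℝ}
    (hr : ∀ (k : ℤ) (j i : ℕ), i < 2 ^ j →
      ‖u (Prof.gp k j (i + 1)) - u (Prof.gp k j i)‖ ≤ σ ^ j * r k)
    (hr0 : ∀ k, 0 ≤ r k) {t t' : ℝ} (ht : 0 < t) (htt : t ≤ t') (hk : Int.log 2 t' = Int.log 2 t)
    {m : ℕ} (h : t' - t ≤ 2 ^ Int.log 2 t * (1 / 2) ^ m) :
    ‖FL u t' - FL u t‖ ≤ σ ^ m * (3 * (r (Int.log 2 t) / (1 - σ))) := by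
  have ht' : 0 < t' := ht.trans_le htt
  have h2 := fl_spec hσ hσ1 hr hr0 ht m
  have h3 := fl_spec hσ hσ1 hr hr0 ht' m
  rw [hk] at h3
  obtain ⟨h0, h1⟩ := th_spec ht
  obtain ⟨h0', h1'⟩ := th_spec ht'
  rw [hk] at h0' h1'
  set k := Int.log 2 t with hkd
  have hkp : (0 : ℝ) < (2 : ℝ) ^ k := by positivity
  have hσ2 : 0 < 1 - σ := by linarith
  have hle : r k ≤ r k / (1 - σ) := by
    rw [le_div_iff₀ hσ2]
    have := hr0 k
    nlinarith
  have h4 : ‖u (tj k (t' / 2 ^ k - 1) m) - u (tj k (t / 2 ^ k - 1) m)‖ ≤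
      σ ^ m * (r k / (1 - σ)) := by
    have h5 : t / 2 ^ k - 1 ≤ t' / 2 ^ k - 1 := by
      have := div_le_div_of_nonneg_right htt hkp.le
      linarith
    have h6 : (t' / 2 ^ k - 1) - (t / 2 ^ k - 1) ≤ (1 / 2) ^ m := by
      have e : (t' / 2 ^ k - 1) - (t / 2 ^ k - 1) = (t' - t) / 2 ^ k := by ring
      rw [e, div_le_iff₀ hkp]
      linarith
    have h7 : 0 ≤ σ ^ m * (r k / (1 - σ)) := by
      have := hr0 k
      positivity
    rcases ix_close h0 h5 h6 with h8 | h8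
    · unfold tj
      rw [h8, sub_self, norm_zero]
      exact h7
    · unfold tj
      rw [h8]
      refine (hr k m (ix (t / 2 ^ k - 1) m) (ix_lt h0 h1 m)).trans ?_
      exact mul_le_mul_of_nonneg_left hle (by positivity)
  have e : FL u t' - FL u t = (FL u t' - u (tj k (t' / 2 ^ k - 1) m)) +
      (u (tj k (t' / 2 ^ k - 1) m) - u (tj k (t / 2 ^ k - 1) m)) -
      (FL u t - u (tj k (t / 2 ^ k - 1) m)) := by ring
  rw [e]
  refine (norm_sub_le _ _).trans ?_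
  have h9 := norm_add_le (FL u t' - u (tj k (t' / 2 ^ k - 1) m))
    (u (tj k (t' / 2 ^ k - 1) m) - u (tj k (t / 2 ^ k - 1) m))
  linarith

/-- values at the powers of `2` -/
theorem fl_pow {u : ℝ → ℂ} (k : ℤ) : FL u (2 ^ k) = u (2 ^ k) := by
  have hk : Int.log 2 ((2 : ℝ) ^ k) = k := by
    have := Int.log_zpow (R := ℝ) (b := 2) (by norm_num) k
    exact_mod_cast this
  unfold FL
  rw [hk, div_self (by positivity), sub_self]
  have e : ∀ J : ℕ, tj k 0 J = 2 ^ k := by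
    intro J
    unfold tj ix
    rw [zero_mul, Nat.floor_zero, Prof.gp_zero]
  simp only [e]
  exact tendsto_const_nhds.limUnder_eq

/-- continuity from the left at the powers of `2` -/
theorem fl_left {σ : ℝ} (hσ : 0 < σ) (hσ1 : σ < 1) {u : ℝ → ℂ} {r : ℤ → ℝ}
    (hr : ∀ (k : ℤ) (j i : ℕ), i < 2 ^ j →
      ‖u (Prof.gp k j (i + 1)) - u (Prof.gp k j i)‖ ≤ σ ^ j * r k)
    (hr0 : ∀ k, 0 ≤ r k) {t : ℝ} (ht : 0 < t) {m : ℕ}
    (h : 2 ^ (Int.log 2 t + 1) - t ≤ 2 ^ Int.log 2 t * (1 / 2) ^ m) :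
    ‖FL u (2 ^ (Int.log 2 t + 1)) - FL u t‖ ≤ σ ^ m * (3 * (r (Int.log 2 t) / (1 - σ))) := by
  have h2 := fl_spec hσ hσ1 hr hr0 ht m
  obtain ⟨h0, h1⟩ := th_spec ht
  rw [fl_pow]
  set k := Int.log 2 t with hkd
  have hkp : (0 : ℝ) < (2 : ℝ) ^ k := by positivity
  have hσ2 : 0 < 1 - σ := by linarith
  have hle : r k ≤ r k / (1 - σ) := by
    rw [le_div_iff₀ hσ2]
    have := hr0 k
    nlinarith
  have hix : ix (t / 2 ^ k - 1) m + 1 = 2 ^ m := by
    have h3 := ix_lt h0 h1 m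
    have h4 : 2 ^ m - 1 ≤ ix (t / 2 ^ k - 1) m := by
      unfold ix
      apply Nat.le_floor
      have h5 : (2 : ℝ) - t / 2 ^ k ≤ (1 / 2) ^ m := by
        rw [zpow_add₀ (by norm_num)] at h
        have e : (2 : ℝ) - t / 2 ^ k = (2 ^ k * 2 ^ (1 : ℤ) - t) / 2 ^ k := by
          have : (2 : ℝ) ^ (1 : ℤ) = 2 := by norm_num
          rw [this]
          field_simp
        rw [e, div_le_iff₀ hkp]
        linarith
      have hp : (0 : ℝ) < 2 ^ m := by positivity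
      have h6 := mul_le_mul_of_nonneg_right h5 hp.le
      rw [← mul_pow] at h6
      norm_num at h6
      rw [Nat.cast_sub Nat.one_le_two_pow]
      push_cast
      linarith
    omega
  have h7 := hr k m (ix (t / 2 ^ k - 1) m) (ix_lt h0 h1 m)
  rw [hix, Prof.gp_last] at h7
  have h8 : σ ^ m * r k ≤ σ ^ m * (r k / (1 - σ)) := mul_le_mul_of_nonneg_left hle (by positivity)
  have h9 : 0 ≤ σ ^ m * (r k / (1 - σ)) := by
    have := hr0 k
    positivity
  have e : u (2 ^ (k + 1)) - FL u t = (u (2 ^ (k + 1)) - u (tj k (t / 2 ^ k - 1) m)) -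
      (FL u t - u (tj k (t / 2 ^ k - 1) m)) := by ring
  rw [e]
  refine (norm_sub_le _ _).trans ?_
  have h10 : ‖u (2 ^ (k + 1)) - u (tj k (t / 2 ^ k - 1) m)‖ ≤ σ ^ m * r k := h7
  linarith

theorem fl_cont {σ : ℝ} (hσ : 0 < σ) (hσ1 : σ < 1) {u : ℝ → ℂ} (hu : GoodX σ u) :
    ContinuousOn (FL u) (Set.Ioi 0) := by
  obtain ⟨r, hr0, hr⟩ := hu
  have hσ2 : 0 < 1 - σ := by linarith
  intro t0 ht0
  have ht0 : 0 < t0 := ht0
  apply ContinuousAt.continuousWithinAt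
  obtain ⟨k, hk⟩ : ∃ k, k = Int.log 2 t0 := ⟨_, rfl⟩
  obtain ⟨hlo, hhi⟩ := log_spec ht0
  rw [← hk] at hlo hhi
  -- neighbourhood
  rw [Metric.continuousAt_iff]
  intro ε hε
  obtain ⟨B, hB⟩ : ∃ B : ℝ, B = 3 * (r k / (1 - σ)) + 3 * (r (k - 1) / (1 - σ)) := ⟨_, rfl⟩
  have hB0 : 0 ≤ B := by
    rw [hB]
    have h1 := hr0 k
    have h2 := hr0 (k - 1)
    positivity
  have hb1 : 3 * (r k / (1 - σ)) ≤ B := by
    rw [hB]
    have h2 := hr0 (k - 1)
    have : 0 ≤ 3 * (r (k - 1) / (1 - σ)) := by positivity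
    linarith
  have hb2 : 3 * (r (k - 1) / (1 - σ)) ≤ B := by
    rw [hB]
    have h2 := hr0 k
    have : 0 ≤ 3 * (r k / (1 - σ)) := by positivity
    linarith
  obtain ⟨m, hm⟩ : ∃ m : ℕ, σ ^ m * B < ε := by
    have h1 : Tendsto (fun m : ℕ => σ ^ m * B) atTop (nhds (0 * B)) :=
      (tendsto_pow_atTop_nhds_zero_of_lt_one hσ.le hσ1).mul_const B
    rw [zero_mul] at h1
    exact (h1.eventually_lt_const hε).exists
  have hkp : (0 : ℝ) < (2 : ℝ) ^ k := by positivity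
  have hkp1 : (0 : ℝ) < (2 : ℝ) ^ (k - 1) := by positivity
  have hkm : (2 : ℝ) ^ (k - 1) ≤ 2 ^ k := zpow_le_zpow_right₀ (by norm_num) (by omega)
  have hkk : (2 : ℝ) ^ k = 2 * 2 ^ (k - 1) := by
    rw [zpow_sub₀ (by norm_num), zpow_one]
    ring
  have hhalf : (0 : ℝ) < (1 / 2) ^ m := by positivity
  rcases hlo.eq_or_lt with hlo' | hlo'
  · -- `t0 = 2 ^ k`
    refine ⟨min (2 ^ (k - 1) * (1 / 2) ^ m) (2 ^ (k - 1)), by positivity, fun t ht => ?_⟩
    rw [Real.dist_eq, lt_min_iff] at ht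
    obtain ⟨ht1, ht2⟩ := ht
    rw [abs_lt] at ht1 ht2
    rw [dist_eq_norm]
    rcases le_total t0 t with hle | hle
    · have hlog : Int.log 2 t = Int.log 2 t0 := by
        rw [← hk]
        apply le_antisymm
        · have h1 : t < ((2 : ℕ) : ℝ) ^ (k + 1) := by
            push_cast
            rw [zpow_add₀ (by norm_num)]
            rw [← hlo'] at ht2
            linarith [(by norm_num : (2 : ℝ) ^ (1 : ℤ) = 2)]
          have := (Int.lt_zpow_iff_log_lt (b := 2) (by norm_num) (ht0.trans_le hle)).1 h1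
          omega
        · exact (Int.zpow_le_iff_le_log (b := 2) (by norm_num) (ht0.trans_le hle)).1
            (by push_cast; linarith)
      have h1 := fl_close hσ hσ1 hr hr0 ht0 hle hlog (m := m) (by
        rw [← hk]
        have : (2 : ℝ) ^ (k - 1) * (1 / 2) ^ m ≤ 2 ^ k * (1 / 2) ^ m :=
          mul_le_mul_of_nonneg_right hkm hhalf.le
        linarith [ht1.2])
      rw [← hk] at h1
      refine (h1.trans ?_).trans_lt hm
      exact mul_le_mul_of_nonneg_left hb1 (by positivity)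
    · rcases hle.eq_or_lt with heq | hlt
      · rw [heq, sub_self, norm_zero]
        exact hε
      have htpos : 0 < t := by
        have := ht2.1
        rw [← hlo'] at this
        linarith
      have hlog : Int.log 2 t = k - 1 := by
        apply le_antisymm
        · have h1 : t < ((2 : ℕ) : ℝ) ^ k := by
            push_cast
            rw [hlo']
            exact hlt
          have := (Int.lt_zpow_iff_log_lt (b := 2) (by norm_num) htpos).1 h1
          omega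
        · apply (Int.zpow_le_iff_le_log (b := 2) (by norm_num) htpos).1
          push_cast
          have := ht2.1
          rw [← hlo'] at this
          linarith
      have h1 := fl_left hσ hσ1 hr hr0 htpos (m := m) (by
        rw [hlog, sub_add_cancel, hlo']
        linarith [ht1.1])
      rw [hlog, sub_add_cancel, hlo'] at h1
      rw [norm_sub_rev]
      refine (h1.trans ?_).trans_lt hm
      exact mul_le_mul_of_nonneg_left hb2 (by positivity)
  · -- inner point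
    refine ⟨min (2 ^ k * (1 / 2) ^ m) (min (t0 - 2 ^ k) (2 ^ (k + 1) - t0)), ?_, fun t ht => ?_⟩
    · have h1 : 0 < t0 - 2 ^ k := by linarith
      have h2 : 0 < 2 ^ (k + 1) - t0 := by linarith
      positivity
    rw [Real.dist_eq, lt_min_iff, lt_min_iff] at ht
    obtain ⟨ht1, ht2, ht3⟩ := ht
    rw [abs_lt] at ht1 ht2 ht3
    have htpos : 0 < t := by linarith [ht2.1]
    have hlog : Int.log 2 t = k := by
      apply le_antisymm
      · have h1 : t < ((2 : ℕ) : ℝ) ^ (k + 1) := by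
          push_cast
          linarith [ht3.2]
        have := (Int.lt_zpow_iff_log_lt (b := 2) (by norm_num) htpos).1 h1
        omega
      · apply (Int.zpow_le_iff_le_log (b := 2) (by norm_num) htpos).1
        push_cast
        linarith [ht2.1]
    rw [dist_eq_norm]
    rcases le_total t0 t with hle | hle
    · have h1 := fl_close hσ hσ1 hr hr0 ht0 hle (by rw [hlog, hk]) (m := m) (by
        rw [← hk]
        linarith [ht1.2])
      rw [← hk] at h1
      refine (h1.trans ?_).trans_lt hm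
      exact mul_le_mul_of_nonneg_left hb1 (by positivity)
    · have h1 := fl_close hσ hσ1 hr hr0 htpos hle (by rw [hlog, hk]) (m := m) (by
        rw [hlog]
        linarith [ht1.1])
      rw [hlog] at h1
      rw [norm_sub_rev]
      refine (h1.trans ?_).trans_lt hm
      exact mul_le_mul_of_nonneg_left hb1 (by positivity)

/-- almost every point is good, with explicit bounds -/
theorem good_r {φ : ℝ → ℝ} {A α : ℝ} (h : Prof φ A α) (f : Lp ℂ 2 (volume : Measure E2)) :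
    ∀ᵐ x : E2, ∀ (k : ℤ) (j i : ℕ), i < 2 ^ j →
      ‖MT (symb (cp φ) (Prof.gp k j (i + 1))) f x - MT (symb (cp φ) (Prof.gp k j i)) f x‖ ≤
        ((1 / 2 : ℝ) ^ (α / 4)) ^ j *
          ((RG φ ((1 / 2 : ℝ) ^ (α / 4)) f k x) ^ (1 / 2 : ℝ)).toReal := by
  set σ : ℝ := (1 / 2 : ℝ) ^ (α / 4) with hσ
  have hσ0 : 0 < σ := sg_pos α
  have hfin : ∀ᵐ x : E2, ∑' k : ℤ, RG φ σ f k x < ∞ := by
    apply ae_lt_top
    · refine Measurable.tsum fun k => ?_
      unfold RG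
      exact Measurable.tsum fun j => (Finset.measurable_sum _ fun i _ =>
        ((Lp.stronglyMeasurable (MT (dk φ k j i) f)).enorm).pow_const 2).const_mul _
    · exact ne_top_of_le_ne_top (ENNReal.mul_ne_top ENNReal.ofReal_ne_top
        (ENNReal.pow_ne_top (by simp))) (gg_int h f)
  have hinc : ∀ᵐ x : E2, ∀ (k : ℤ) (j i : ℕ), MT (symb (cp φ) (Prof.gp k j (i + 1))) f x -
      MT (symb (cp φ) (Prof.gp k j i)) f x = MT (dk φ k j i) f x := by
    rw [ae_all_iff]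
    intro k
    rw [ae_all_iff]
    intro j
    rw [ae_all_iff]
    intro i
    have e : MT (dk φ k j i) f = MT (symb (cp φ) (Prof.gp k j (i + 1))) f -
        MT (symb (cp φ) (Prof.gp k j i)) f :=
      rz_mt_sub (symb_meas h _) (symb_meas h _) (symb_le_one h (Prof.gp_pos k j (i + 1)))
        (symb_le_one h (Prof.gp_pos k j i)) f
    filter_upwards [Lp.coeFn_sub (MT (symb (cp φ) (Prof.gp k j (i + 1))) f)
      (MT (symb (cp φ) (Prof.gp k j i)) f)] with x hx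
    rw [e, hx, Pi.sub_apply]
  filter_upwards [hfin, hinc] with x h1 h2
  intro k j i hi
  rw [h2 k j i]
  have h3 := incr_le (φ := φ) hσ0 f k j i hi x
  have h4 : RG φ σ f k x ≠ ∞ := ((ENNReal.le_tsum k).trans_lt h1).ne
  have h5 : (RG φ σ f k x) ^ (1 / 2 : ℝ) ≠ ∞ := ENNReal.rpow_ne_top_of_nonneg (by norm_num) h4
  have h6 := (ENNReal.toReal_le_toReal (by simp) (ENNReal.mul_ne_top ENNReal.ofReal_ne_top h5)).2 h3
  rw [ENNReal.toReal_mul, ENNReal.toReal_ofReal (by positivity), toReal_enorm] at h6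
  exact h6

/-- almost every point is good -/
theorem good_ae {φ : ℝ → ℝ} {A α : ℝ} (h : Prof φ A α) (f : Lp ℂ 2 (volume : Measure E2)) :
    ∀ᵐ x : E2, GoodX ((1 / 2 : ℝ) ^ (α / 4)) fun t => MT (symb (cp φ) t) f x := by
  filter_upwards [good_r h f] with x hx
  exact ⟨fun k => ((RG φ ((1 / 2 : ℝ) ^ (α / 4)) f k x) ^ (1 / 2 : ℝ)).toReal,
    fun k => ENNReal.toReal_nonneg, hx⟩

/-- the continuous version -/
noncomputable def FV (φ : ℝ → ℝ) (f : Lp ℂ 2 (volume : Measure E2)) (t : ℝ) (x : E2) : ℂ :=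
  FL (fun t => MT (symb (cp φ) t) f x) t

theorem fv_ae {φ : ℝ → ℝ} {A α : ℝ} (h : Prof φ A α) (f : Lp ℂ 2 (volume : Measure E2)) {t : ℝ}
    (ht : 0 < t) : ∀ᵐ x : E2, FV φ f t x = MT (symb (cp φ) t) f x := by
  obtain ⟨h0, h1⟩ := th_spec ht
  have h2 := tj_tend h (Int.log 2 t) h0 f
  rw [th_eq] at h2
  filter_upwards [h2] with x hx
  have h3 := sqrt_tend hx
  unfold FV FL
  apply Tendsto.limUnder_eq
  rw [tendsto_iff_edist_tendsto_0]
  refine h3.congr fun J => ?_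
  rw [edist_comm, edist_eq_enorm_sub]

theorem fv_cont {φ : ℝ → ℝ} {A α : ℝ} (h : Prof φ A α) (f : Lp ℂ 2 (volume : Measure E2)) :
    ∀ᵐ x : E2, ContinuousOn (fun t => FV φ f t x) (Set.Ioi 0) := by
  filter_upwards [good_ae h f] with x hx
  exact fl_cont (sg_pos α) (sg_lt_one h.pos) hx

/-- a bound on a dense set of parameters -/
theorem bd_dense {u : ℝ → ℂ} (hu : ContinuousOn u (Set.Ioi 0)) {S : Set (Set.Ioi (0 : ℝ))}
    (hS : Dense S) {B : ℝ≥0∞} (hB : ∀ s ∈ S, ‖u (s : ℝ)‖ₑ ≤ B) {t : ℝ} (ht : 0 < t) :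
    ‖u t‖ₑ ≤ B := by
  have h3 : Continuous fun s : Set.Ioi (0 : ℝ) => ‖u (s : ℝ)‖ₑ :=
    (continuousOn_iff_continuous_domRestrict.1 hu).enorm
  have h4 : IsClosed {s : Set.Ioi (0 : ℝ) | ‖u (s : ℝ)‖ₑ ≤ B} := isClosed_le h3 continuous_const
  have h6 := h4.closure_subset_iff.2 (show S ⊆ {s : Set.Ioi (0 : ℝ) | ‖u (s : ℝ)‖ₑ ≤ B} from
    fun s hs => hB s hs)
  rw [hS.closure_eq] at h6
  exact h6 (Set.mem_univ (⟨t, ht⟩ : Set.Ioi (0 : ℝ)))

/-- the maximal inequality for the continuous version, over all parameters -/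
theorem fv_max {φ : ℝ → ℝ} {A α : ℝ} (h : Prof φ A α) : ∃ C : ℝ, 0 ≤ C ∧
    ∀ f : Lp ℂ 2 (volume : Measure E2),
      ∫⁻ x : E2, (⨆ t ∈ Set.Ioi (0 : ℝ), ‖FV φ f t x‖ₑ) ^ 2 ≤
        ENNReal.ofReal C * ∫⁻ ξ : E2, ENNReal.ofReal (wg ξ ^ 8) *
          ‖(𝓕 f : Lp ℂ 2 (volume : Measure E2)) ξ‖ₑ ^ 2 := by
  obtain ⟨C, hC0, hC⟩ := rz_max h
  refine ⟨C, hC0, fun f => ?_⟩
  obtain ⟨S, hSc, hSd⟩ := TopologicalSpace.exists_countable_dense (Set.Ioi (0 : ℝ))
  obtain ⟨Q, hQ⟩ : ∃ Q : Set ℝ, Q = Subtype.val '' S := ⟨_, rfl⟩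
  have hQc : Q.Countable := by
    rw [hQ]
    exact hSc.image _
  have hQpos : ∀ t ∈ Q, 0 < t := by
    rw [hQ]
    rintro t ⟨s, -, rfl⟩
    exact s.2
  have hSQ : ∀ s ∈ S, (s : ℝ) ∈ Q := by
    intro s hs
    rw [hQ]
    exact ⟨s, hs, rfl⟩
  refine le_trans (lintegral_mono_ae ?_) (hC Q hQc hQpos f)
  have hall : ∀ᵐ x : E2, ∀ t ∈ Q, FV φ f t x = MT (symb (cp φ) t) f x := by
    rw [ae_ball_iff hQc]
    intro t ht
    exact fv_ae h f (hQpos t ht)
  filter_upwards [hall, fv_cont h f] with x h1 h2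
  refine pow_le_pow_left' ?_ 2
  apply iSup₂_le
  intro t ht
  refine bd_dense h2 hSd (fun s hs => ?_) ht
  have h3 := h1 s (hSQ s hs)
  beta_reduce
  rw [h3]
  exact le_iSup₂ (f := fun t (_ : t ∈ Q) => ‖MT (symb (cp φ) t) f x‖ₑ) (s : ℝ) (hSQ s hs)

end Pool.Agent.Hyp
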