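import Pool.Agent.Hyp.RzG

/-!
# Hyperbolic Riesz means, module RzH (helper25): the continuous version converges at infinity
-/

set_option autoImplicit false

namespace Pool.Agent.Hyp

open MeasureTheory FourierTransform ENNReal Filter AllMAux

/-- `Int.log 2` tends to infinity -/
theorem log_tend : Tendsto (fun t : ℝ => Int.log 2 t) atTop atTop := by
  rw [tendsto_atTop]
  intro m
  filter_upwards [eventually_ge_atTop ((2 : ℝ) ^ m)] with t ht
  have hpos : 0 < t := lt_of_lt_of_le (by positivity) ht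
  exact (Int.zpow_le_iff_le_log (b := 2) (by norm_num) hpos).1 (by exact_mod_cast ht)

/-- for `f` with finite weighted norm the continuous version tends to `f` almost everywhere as the
parameter tends to infinity through all real numbers -/
theorem fv_tend {φ : ℝ → ℝ} {A α : ℝ} (h : Prof φ A α) (f : Lp ℂ 2 (volume : Measure E2))
    (hf : ∫⁻ ξ : E2, ENNReal.ofReal (wp ξ ^ 8) *
      ‖(𝓕 f : Lp ℂ 2 (volume : Measure E2)) ξ‖ₑ ^ 2 ≠ ∞) :
    ∀ᵐ x : E2, Tendsto (fun t => FV φ f t x) atTop (nhds (f x)) := by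
  obtain ⟨h1, h2, h3⟩ := prof_bounds h
  have h0 : cp φ 0 = 1 := by
    unfold cp
    rw [h.zero, Complex.ofReal_one]
  filter_upwards [good_r h f, rg_tend h f, rs_tend (cp_cont h) h1 h2 h3 f,
    dy_dec (cp_cont h) h1 f, hs_tend f hf] with x a1 a2 a3 a4 a5
  set σ : ℝ := (1 / 2 : ℝ) ^ (α / 4) with hσ
  have hσ0 : 0 < σ := sg_pos α
  have hσ1 : σ < 1 := sg_lt_one h.pos
  have hr : Tendsto (fun k : ℤ => ((RG φ σ f k x) ^ (1 / 2 : ℝ)).toReal / (1 - σ)) atTop
      (nhds 0) := by
    have c1 := a2.ennrpow_const (1 / 2 : ℝ)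
    rw [ENNReal.zero_rpow_of_pos (by norm_num)] at c1
    have c2 := (ENNReal.tendsto_toReal ENNReal.zero_ne_top).comp c1
    have c3 := c2.div_const (1 - σ)
    rw [ENNReal.toReal_zero, zero_div] at c3
    exact c3
  have hpow : Tendsto (fun k : ℤ => ‖MT (symb (cp φ) (2 ^ k)) f x - f x‖) atTop (nhds 0) := by
    have b4 := (sqrt_tend a3).add a5
    rw [add_zero] at b4
    have b5 : Tendsto (fun k : ℤ => ‖MT (symb (cp φ) (2 ^ k)) f x - f x‖ₑ) atTop (nhds 0) := by
      refine tendsto_of_tendsto_of_tendsto_of_le_of_le tendsto_const_nhds b4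
        (fun _ => zero_le) ?_
      intro k
      beta_reduce
      have e : MT (symb (cp φ) (2 ^ k)) f x - f x =
          MT (rs (cp φ) k) f x + (MT (hs k) f x - f x) := by
        rw [a4 k, h0, one_mul]
        ring
      rw [e]
      exact enorm_add_le _ _
    have b6 := (ENNReal.tendsto_toReal ENNReal.zero_ne_top).comp b5
    rw [ENNReal.toReal_zero] at b6
    refine b6.congr fun k => ?_
    exact toReal_enorm _
  have hsum := (hr.comp log_tend).add (hpow.comp log_tend)
  rw [add_zero] at hsum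
  rw [tendsto_iff_norm_sub_tendsto_zero]
  refine squeeze_zero' (Eventually.of_forall fun t => norm_nonneg _) ?_ hsum
  filter_upwards [eventually_gt_atTop (0 : ℝ)] with t ht
  have h4 := fl_spec hσ0 hσ1 (u := fun t => MT (symb (cp φ) t) f x)
    (r := fun k => ((RG φ σ f k x) ^ (1 / 2 : ℝ)).toReal) a1
    (fun k => ENNReal.toReal_nonneg) ht 0
  obtain ⟨t0, t1⟩ := th_spec ht
  rw [tj_zero _ t0 t1, pow_zero, one_mul] at h4
  have e : FV φ f t x - f x = (FL (fun t => MT (symb (cp φ) t) f x) t -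
      MT (symb (cp φ) (2 ^ Int.log 2 t)) f x) +
        (MT (symb (cp φ) (2 ^ Int.log 2 t)) f x - f x) := by
    unfold FV
    ring
  rw [e]
  refine (norm_add_le _ _).trans ?_
  exact add_le_add h4 le_rfl

end Pool.Agent.Hyp
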