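import Pool.Agent.Hyp.MulL

/-!
# Module SqF: square function for the comparison with the sharp hyperbolic cross

`rs Φ k ξ = Φ(v/2^k) - Φ 0 * [kap ξ < k]`, `v = (ξ 0)^2 (ξ 1)^2`, `kap ξ = ⌊log₂ v⌋`.

**PROOF of `rs_sum`.** If `v = 0` then `symb = Φ 0`, `kap ξ = Int.log 2 0 = 0`; this set is excluded by
the hypothesis.  Let `v > 0`: `2^(kap) ≤ v < 2^(kap + 1)` (`Int.zpow_log_le_self`,
`Int.lt_zpow_succ_log_self`).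
`k ≤ kap`: `s = v/2^k ≥ 1`, `rs = Φ s`, `‖Φ s‖^2 ≤ D * (D/s) = D^2 2^k/v ≤ D^2 2^(k - kap)`; the sum
over `k ≤ kap` is `≤ 2 D^2`.
`k > kap`: `rs = Φ s - Φ 0`, `s = v/2^k < 2^(kap + 1 - k)`, `‖rs‖^2 ≤ (2D)(D s) ≤ 2 D^2 2^(kap+1-k)`;
the sum over `k ≥ kap + 1` is `≤ 4 D^2`.  (Write `k = kap - i` resp. `k = kap + 1 + i`, `i ∈ ℕ`:
`∑ (1/2)^i = 2`; for finite sets of `k` it is enough to prove the bound for every finite set.)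
**PROOF of `sqf`.** `(⨆ k, ‖R k x‖ₑ)^2 ≤ ∑' k, ‖R k x‖ₑ^2`; `∫⁻ ∑' = ∑' ∫⁻` (`lintegral_tsum`,
countable), `mt_norm`, `∑' k, ‖rs Φ k ξ‖ₑ^2 ≤ ofReal (6 D^2)` for a.e. `ξ` (`rs_sum`; the axes
`{v = 0}` are a null set), and `∫⁻ ‖𝓕 f‖ₑ^2 = ‖f‖ₑ^2` (`lp_sq`, `lp_sq_fourier`).
Measurability of `rs Φ k`: `Φ` is continuous and `Int.log` is measurable (it is monotone; or
`{kap ξ < k} = {v < 2^k}` for `v > 0` by `Int.lt_zpow_iff_log_lt`).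
-/

set_option autoImplicit false

namespace Pool.Agent.Hyp

open MeasureTheory FourierTransform ENNReal

theorem kap_measurable : Measurable kap := by
  have hv : Measurable (fun ξ : E2 => (ξ 0) ^ 2 * (ξ 1) ^ 2) := by fun_prop
  refine measurable_to_countable' fun k => ?_
  have : kap ⁻¹' {k} = {ξ : E2 | 0 < (ξ 0) ^ 2 * (ξ 1) ^ 2 ∧ (2 : ℝ) ^ k ≤ (ξ 0) ^ 2 * (ξ 1) ^ 2 ∧
      (ξ 0) ^ 2 * (ξ 1) ^ 2 < (2 : ℝ) ^ (k + 1)} ∪ {ξ : E2 | (ξ 0) ^ 2 * (ξ 1) ^ 2 ≤ 0 ∧ 0 = k} := by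
    ext ξ
    simp only [Set.mem_preimage, Set.mem_singleton_iff, Set.mem_union, kap]
    have e1 : (ξ ∈ {ξ : E2 | 0 < (ξ 0) ^ 2 * (ξ 1) ^ 2 ∧ (2 : ℝ) ^ k ≤ (ξ 0) ^ 2 * (ξ 1) ^ 2 ∧
      (ξ 0) ^ 2 * (ξ 1) ^ 2 < (2 : ℝ) ^ (k + 1)}) ↔ (0 < (ξ 0) ^ 2 * (ξ 1) ^ 2 ∧ (2 : ℝ) ^ k ≤ (ξ 0) ^ 2 * (ξ 1) ^ 2 ∧
      (ξ 0) ^ 2 * (ξ 1) ^ 2 < (2 : ℝ) ^ (k + 1)) := Set.mem_ofPred_eq ▸ Iff.rfl
    have e2 : (ξ ∈ {ξ : E2 | (ξ 0) ^ 2 * (ξ 1) ^ 2 ≤ 0 ∧ 0 = k}) ↔ ((ξ 0) ^ 2 * (ξ 1) ^ 2 ≤ 0 ∧ 0 = k) := Set.mem_ofPred_eq ▸ Iff.rfl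
    rw [e1, e2]
    rcases lt_or_ge 0 ((ξ 0) ^ 2 * (ξ 1) ^ 2) with h | h
    · constructor
      · intro hk
        left
        refine ⟨h, ?_, ?_⟩
        · have := Int.zpow_log_le_self (b := 2) (by norm_num) h
          rw [hk] at this
          exact_mod_cast this
        · have := Int.lt_zpow_succ_log_self (b := 2) (by norm_num) ((ξ 0) ^ 2 * (ξ 1) ^ 2)
          rw [hk] at this
          exact_mod_cast this
      · rintro (⟨_, h1, h2⟩ | ⟨h1, _⟩)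
        · have h3 : k ≤ Int.log 2 ((ξ 0) ^ 2 * (ξ 1) ^ 2) :=
            (Int.zpow_le_iff_le_log (b := 2) (by norm_num) h).1 (by exact_mod_cast h1)
          have h4 : Int.log 2 ((ξ 0) ^ 2 * (ξ 1) ^ 2) < k + 1 :=
            (Int.lt_zpow_iff_log_lt (b := 2) (by norm_num) h).1 (by exact_mod_cast h2)
          omega
        · exact absurd h1 (not_le.2 h)
    · have h0 : Int.log 2 ((ξ 0) ^ 2 * (ξ 1) ^ 2) = 0 := Int.log_of_right_le_zero _ h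
      rw [h0]
      constructor
      · intro hk
        exact Or.inr ⟨h, hk⟩
      · rintro (⟨h1, _⟩ | ⟨_, h1⟩)
        · exact absurd h1 (not_lt.2 h)
        · exact h1
  rw [this]
  refine MeasurableSet.union ?_ ?_
  · exact (measurableSet_lt measurable_const hv).inter
      ((measurableSet_le measurable_const hv).inter (measurableSet_lt hv measurable_const))
  · exact (measurableSet_le hv measurable_const).inter (MeasurableSet.const _)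

theorem hs_measurable (k : ℤ) : Measurable (hs k) := by
  unfold hs
  refine Measurable.ite ?_ measurable_const measurable_const
  exact kap_measurable (measurableSet_Iio (a := k))

theorem rs_measurable {Φ : ℝ → ℂ} (hΦ : Continuous Φ) (k : ℤ) : Measurable (rs Φ k) := by
  unfold rs
  refine Measurable.sub ?_ ((hs_measurable k).const_mul _)
  unfold symb
  exact hΦ.measurable.comp (by fun_prop)

theorem rs_le {Φ : ℝ → ℂ} {D : ℝ} (h1 : ∀ s, 0 ≤ s → ‖Φ s‖ ≤ D) (k : ℤ) (ξ : E2) :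
    ‖rs Φ k ξ‖ ≤ 2 * D := by
  unfold rs
  have h2 : ‖symb Φ (2 ^ k) ξ‖ ≤ D := h1 _ (by positivity)
  have h3 : ‖Φ 0 * hs k ξ‖ ≤ D := by
    unfold hs
    have h4 := h1 0 le_rfl
    split_ifs
    · simpa using h4
    · simpa using (norm_nonneg _).trans h4
  calc _ ≤ _ := norm_sub_le _ _
    _ ≤ _ := by linarith

theorem sum_zpow_le (K : Finset ℤ) (κ : ℤ) (hK : ∀ k ∈ K, k ≤ κ) :
    ∑ k ∈ K, (2 : ℝ) ^ (k - κ) ≤ 2 := by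
  have hinj : Set.InjOn (fun k : ℤ => (κ - k).toNat) K := by
    intro a ha b hb hab
    have h1 := hK a ha
    have h2 := hK b hb
    simp only at hab
    omega
  have h1 : ∑ k ∈ K, (2 : ℝ) ^ (k - κ) = ∑ i ∈ K.image (fun k : ℤ => (κ - k).toNat),
      (1 / 2 : ℝ) ^ i := by
    rw [Finset.sum_image hinj]
    refine Finset.sum_congr rfl fun k hk => ?_
    have h2 := hK k hk
    have h3 : k - κ = -(((κ - k).toNat : ℕ) : ℤ) := by omega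
    rw [h3, zpow_neg, zpow_natCast]
    simp
  rw [h1]
  have h4 : Summable (fun i : ℕ => (1 / 2 : ℝ) ^ i) := summable_geometric_two
  calc _ ≤ ∑' i : ℕ, (1 / 2 : ℝ) ^ i := h4.sum_le_tsum _ (fun i _ => by positivity)
    _ = 2 := tsum_geometric_two

theorem sum_zpow_le' (K : Finset ℤ) (κ : ℤ) (hK : ∀ k ∈ K, κ < k) :
    ∑ k ∈ K, (2 : ℝ) ^ (κ + 1 - k) ≤ 2 := by
  have hinj : Set.InjOn (fun k : ℤ => (k - κ - 1).toNat) K := by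
    intro a ha b hb hab
    have h1 := hK a ha
    have h2 := hK b hb
    simp only at hab
    omega
  have h1 : ∑ k ∈ K, (2 : ℝ) ^ (κ + 1 - k) = ∑ i ∈ K.image (fun k : ℤ => (k - κ - 1).toNat),
      (1 / 2 : ℝ) ^ i := by
    rw [Finset.sum_image hinj]
    refine Finset.sum_congr rfl fun k hk => ?_
    have h2 := hK k hk
    have h3 : κ + 1 - k = -(((k - κ - 1).toNat : ℕ) : ℤ) := by omega
    rw [h3, zpow_neg, zpow_natCast]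
    simp
  rw [h1]
  have h4 : Summable (fun i : ℕ => (1 / 2 : ℝ) ^ i) := summable_geometric_two
  calc _ ≤ ∑' i : ℕ, (1 / 2 : ℝ) ^ i := h4.sum_le_tsum _ (fun i _ => by positivity)
    _ = 2 := tsum_geometric_two

theorem rs_sum {Φ : ℝ → ℂ} {D : ℝ} (h1 : ∀ s, 0 ≤ s → ‖Φ s‖ ≤ D)
    (h2 : ∀ s, 0 ≤ s → s * ‖Φ s‖ ≤ D) (h3 : ∀ s, 0 ≤ s → ‖Φ s - Φ 0‖ ≤ D * s) (K : Finset ℤ)
    {ξ : E2} (hξ : 0 < (ξ 0) ^ 2 * (ξ 1) ^ 2) : ∑ k ∈ K, ‖rs Φ k ξ‖ ^ 2 ≤ 6 * D ^ 2 := by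
  have hD : 0 ≤ D := (norm_nonneg _).trans (h1 0 le_rfl)
  set v := (ξ 0) ^ 2 * (ξ 1) ^ 2 with hvdef
  have hκ : kap ξ = Int.log 2 v := rfl
  have hlo : (2 : ℝ) ^ (kap ξ) ≤ v := by
    have := Int.zpow_log_le_self (b := 2) (by norm_num) hξ
    rw [hκ]
    exact_mod_cast this
  have hhi : v < (2 : ℝ) ^ (kap ξ + 1) := by
    have := Int.lt_zpow_succ_log_self (b := 2) (by norm_num) v
    rw [hκ]
    exact_mod_cast this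
  have hA : ∀ k : ℤ, k ≤ kap ξ → ‖rs Φ k ξ‖ ^ 2 ≤ D ^ 2 * (2 : ℝ) ^ (k - kap ξ) := by
    intro k hk
    have hp : (0 : ℝ) < 2 ^ k := by positivity
    have hs0 : hs k ξ = 0 := by
      unfold hs
      rw [if_neg (not_lt.2 hk)]
    have e : rs Φ k ξ = Φ (v / 2 ^ k) := by
      unfold rs symb
      rw [hs0, mul_zero, sub_zero]
    rw [e]
    have hs : 0 < v / 2 ^ k := by positivity
    have a1 := h1 _ hs.le
    have a2 := h2 _ hs.le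
    have a3 : (2 : ℝ) ^ (k - kap ξ) * (v / 2 ^ k) ≥ 1 := by
      rw [zpow_sub₀ (by norm_num)]
      rw [ge_iff_le]
      have hq : (0 : ℝ) < 2 ^ (kap ξ) := by positivity
      have : (2 : ℝ) ^ k / 2 ^ kap ξ * (v / 2 ^ k) = v / 2 ^ kap ξ := by
        field_simp
      rw [this, one_le_div hq]
      exact hlo
    have a4 : ‖Φ (v / 2 ^ k)‖ ≤ D * 2 ^ (k - kap ξ) := by
      have hpp : (0 : ℝ) < 2 ^ (k - kap ξ) := by positivity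
      calc ‖Φ (v / 2 ^ k)‖ ≤ (2 : ℝ) ^ (k - kap ξ) * (v / 2 ^ k) * ‖Φ (v / 2 ^ k)‖ :=
            le_mul_of_one_le_left (norm_nonneg _) a3
        _ = 2 ^ (k - kap ξ) * (v / 2 ^ k * ‖Φ (v / 2 ^ k)‖) := by ring
        _ ≤ 2 ^ (k - kap ξ) * D := by gcongr
        _ = _ := by ring
    calc ‖Φ (v / 2 ^ k)‖ ^ 2 = ‖Φ (v / 2 ^ k)‖ * ‖Φ (v / 2 ^ k)‖ := by ring
      _ ≤ D * (D * 2 ^ (k - kap ξ)) := mul_le_mul a1 a4 (norm_nonneg _) hD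
      _ = _ := by ring
  have hB : ∀ k : ℤ, kap ξ < k → ‖rs Φ k ξ‖ ^ 2 ≤ 2 * D ^ 2 * (2 : ℝ) ^ (kap ξ + 1 - k) := by
    intro k hk
    have hs1 : hs k ξ = 1 := by
      unfold hs
      rw [if_pos hk]
    have e : rs Φ k ξ = Φ (v / 2 ^ k) - Φ 0 := by
      unfold rs symb
      rw [hs1, mul_one]
    have b1 : ‖rs Φ k ξ‖ ≤ 2 * D := rs_le h1 k ξ
    rw [e] at b1 ⊢
    have hs : 0 < v / 2 ^ k := by positivity
    have b2 := h3 _ hs.le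
    have b3 : v / 2 ^ k ≤ 2 ^ (kap ξ + 1 - k) := by
      rw [zpow_sub₀ (by norm_num)]
      gcongr
    calc ‖Φ (v / 2 ^ k) - Φ 0‖ ^ 2 = ‖Φ (v / 2 ^ k) - Φ 0‖ * ‖Φ (v / 2 ^ k) - Φ 0‖ := by ring
      _ ≤ (2 * D) * (D * 2 ^ (kap ξ + 1 - k)) :=
        mul_le_mul b1 (b2.trans (by gcongr)) (norm_nonneg _) (by positivity)
      _ = _ := by ring
  rw [← Finset.sum_filter_add_sum_filter_not K (fun k => k ≤ kap ξ)]
  have s1 : ∑ k ∈ K.filter (fun k => k ≤ kap ξ), ‖rs Φ k ξ‖ ^ 2 ≤ 2 * D ^ 2 := by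
    calc _ ≤ ∑ k ∈ K.filter (fun k => k ≤ kap ξ), D ^ 2 * (2 : ℝ) ^ (k - kap ξ) :=
          Finset.sum_le_sum fun k hk => hA k (Finset.mem_filter.1 hk).2
      _ = D ^ 2 * ∑ k ∈ K.filter (fun k => k ≤ kap ξ), (2 : ℝ) ^ (k - kap ξ) := by
          rw [Finset.mul_sum]
      _ ≤ D ^ 2 * 2 := by
          gcongr
          exact sum_zpow_le _ _ fun k hk => (Finset.mem_filter.1 hk).2
      _ = _ := by ring
  have s2 : ∑ k ∈ K.filter (fun k => ¬ k ≤ kap ξ), ‖rs Φ k ξ‖ ^ 2 ≤ 4 * D ^ 2 := by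
    calc _ ≤ ∑ k ∈ K.filter (fun k => ¬ k ≤ kap ξ), 2 * D ^ 2 * (2 : ℝ) ^ (kap ξ + 1 - k) :=
          Finset.sum_le_sum fun k hk => hB k (not_le.1 (Finset.mem_filter.1 hk).2)
      _ = 2 * D ^ 2 * ∑ k ∈ K.filter (fun k => ¬ k ≤ kap ξ), (2 : ℝ) ^ (kap ξ + 1 - k) := by
          rw [Finset.mul_sum]
      _ ≤ 2 * D ^ 2 * 2 := by
          gcongr
          exact sum_zpow_le' _ _ fun k hk => not_le.1 (Finset.mem_filter.1 hk).2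
      _ = _ := by ring
  linarith

theorem rs_tsum {Φ : ℝ → ℂ} {D : ℝ} (h1 : ∀ s, 0 ≤ s → ‖Φ s‖ ≤ D)
    (h2 : ∀ s, 0 ≤ s → s * ‖Φ s‖ ≤ D) (h3 : ∀ s, 0 ≤ s → ‖Φ s - Φ 0‖ ≤ D * s)
    {ξ : E2} (hξ : 0 < (ξ 0) ^ 2 * (ξ 1) ^ 2) :
    ∑' k : ℤ, ‖rs Φ k ξ‖ₑ ^ 2 ≤ ENNReal.ofReal (6 * D ^ 2) := by
  rw [ENNReal.tsum_eq_iSup_sum]
  refine iSup_le fun K => ?_
  have : ∑ k ∈ K, ‖rs Φ k ξ‖ₑ ^ 2 = ENNReal.ofReal (∑ k ∈ K, ‖rs Φ k ξ‖ ^ 2) := by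
    rw [ENNReal.ofReal_sum_of_nonneg (fun k _ => by positivity)]
    refine Finset.sum_congr rfl fun k _ => ?_
    rw [ENNReal.ofReal_pow (norm_nonneg _), ofReal_norm]
  rw [this]
  exact ENNReal.ofReal_le_ofReal (rs_sum h1 h2 h3 K hξ)

theorem coord_null (i : Fin 2) : volume {ξ : E2 | ξ i = 0} = 0 := by
  have h : MeasurePreserving (MeasurableEquiv.toLp 2 (Fin 2 → ℝ)).symm
      (volume : Measure E2) volume := EuclideanSpace.volume_preserving_symm_measurableEquiv_toLp (Fin 2)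
  have e : {ξ : E2 | ξ i = 0} = (MeasurableEquiv.toLp 2 (Fin 2 → ℝ)).symm ⁻¹'
      {x : Fin 2 → ℝ | x i = 0} := rfl
  rw [e, h.measure_preimage_equiv]
  exact Measure.pi_hyperplane (μ := fun _ : Fin 2 => (volume : Measure ℝ)) i 0

theorem ae_pos : ∀ᵐ ξ : E2, 0 < (ξ 0) ^ 2 * (ξ 1) ^ 2 := by
  have h0 : ∀ᵐ ξ : E2, ξ 0 ≠ 0 := by
    rw [ae_iff]
    simpa using coord_null 0
  have h1 : ∀ᵐ ξ : E2, ξ 1 ≠ 0 := by
    rw [ae_iff]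
    simpa using coord_null 1
  filter_upwards [h0, h1] with ξ a b
  positivity

theorem sqf {Φ : ℝ → ℂ} (hΦ : Continuous Φ) {D : ℝ} (h1 : ∀ s, 0 ≤ s → ‖Φ s‖ ≤ D)
    (h2 : ∀ s, 0 ≤ s → s * ‖Φ s‖ ≤ D) (h3 : ∀ s, 0 ≤ s → ‖Φ s - Φ 0‖ ≤ D * s)
    (f : Lp ℂ 2 (volume : Measure E2)) :
    ∫⁻ x : E2, (⨆ k : ℤ, ‖MT (rs Φ k) f x‖ₑ) ^ 2 ≤ ENNReal.ofReal (6 * D ^ 2) * ‖f‖ₑ ^ 2 := by
  have hm : ∀ k : ℤ, AEMeasurable (fun x : E2 => ‖MT (rs Φ k) f x‖ₑ ^ 2) volume := fun k =>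
    ((Lp.aestronglyMeasurable (MT (rs Φ k) f)).enorm).pow_const 2
  have hF : AEMeasurable (fun ξ : E2 => ‖(𝓕 f : Lp ℂ 2 (volume : Measure E2)) ξ‖ₑ ^ 2) volume :=
    ((Lp.aestronglyMeasurable (𝓕 f : Lp ℂ 2 (volume : Measure E2))).enorm).pow_const 2
  have hr : ∀ k : ℤ, AEMeasurable (fun ξ : E2 => ‖rs Φ k ξ‖ₑ ^ 2 *
      ‖(𝓕 f : Lp ℂ 2 (volume : Measure E2)) ξ‖ₑ ^ 2) volume := fun k =>
    (((rs_measurable hΦ k).enorm.pow_const 2).aemeasurable).mul hF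
  calc ∫⁻ x : E2, (⨆ k : ℤ, ‖MT (rs Φ k) f x‖ₑ) ^ 2
      ≤ ∫⁻ x : E2, ∑' k : ℤ, ‖MT (rs Φ k) f x‖ₑ ^ 2 := by
        refine lintegral_mono fun x => ?_
        rw [ENNReal.iSup_pow]
        exact iSup_le fun k => ENNReal.le_tsum k
    _ = ∑' k : ℤ, ∫⁻ x : E2, ‖MT (rs Φ k) f x‖ₑ ^ 2 := lintegral_tsum hm
    _ = ∑' k : ℤ, ∫⁻ ξ : E2, ‖rs Φ k ξ‖ₑ ^ 2 *
          ‖(𝓕 f : Lp ℂ 2 (volume : Measure E2)) ξ‖ₑ ^ 2 :=
        tsum_congr fun k => mt_norm (rs_measurable hΦ k) (rs_le h1 k) f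
    _ = ∫⁻ ξ : E2, ∑' k : ℤ, ‖rs Φ k ξ‖ₑ ^ 2 *
          ‖(𝓕 f : Lp ℂ 2 (volume : Measure E2)) ξ‖ₑ ^ 2 := (lintegral_tsum hr).symm
    _ ≤ ∫⁻ ξ : E2, ENNReal.ofReal (6 * D ^ 2) *
          ‖(𝓕 f : Lp ℂ 2 (volume : Measure E2)) ξ‖ₑ ^ 2 := by
        refine lintegral_mono_ae ?_
        filter_upwards [ae_pos] with ξ hξ
        rw [ENNReal.tsum_mul_right]
        gcongr
        exact rs_tsum h1 h2 h3 hξ
    _ = ENNReal.ofReal (6 * D ^ 2) * ∫⁻ ξ : E2,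
          ‖(𝓕 f : Lp ℂ 2 (volume : Measure E2)) ξ‖ₑ ^ 2 := lintegral_const_mul'' _ hF
    _ = ENNReal.ofReal (6 * D ^ 2) * ‖f‖ₑ ^ 2 := by
        rw [← lp_sq_fourier, ← lp_sq]

end Pool.Agent.Hyp
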