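import Pool.Agent.Hyp.DefR

/-!
# Module StepI: integrals of step functions on the plane

**PROOF.** The map `φ x = (⌊x.1/h⌋, ⌊x.2/h⌋)` to the countable discrete space `ℤ × ℤ` is measurable
and the preimage of `(a, b)` is the square `[h a, h (a+1)) × [h b, h (b+1))` of area `h^2`
(`Measure.prod_prod`, `Real.volume_Ico`).  So `volume.map φ = h^2 • count`
(`Measure.ext_of_singleton`-type lemma on a countable space) and `lintegral_map`,
`lintegral_count`; `integral_step`: `x ↦ g (φ x)` is the finite sum over `z ∈ F` of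
`indicator (φ ⁻¹' {z}) (g z)`; `integral_finset_sum`, `integral_indicator_const`.
-/

set_option autoImplicit false

namespace Pool.Agent.Hyp

open MeasureTheory ENNReal

theorem StepI_meas (h : ℝ) : Measurable (fun x : ℝ × ℝ => (⌊x.1 / h⌋, ⌊x.2 / h⌋)) :=
  (Int.measurable_floor.comp (measurable_fst.div_const h)).prodMk
    (Int.measurable_floor.comp (measurable_snd.div_const h))

theorem StepI_floor {h : ℝ} (hh : 0 < h) (a : ℤ) (t : ℝ) :
    ⌊t / h⌋ = a ↔ t ∈ Set.Ico (h * a) (h * (a + 1)) := by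
  rw [Int.floor_eq_iff, Set.mem_Ico, le_div_iff₀ hh, div_lt_iff₀ hh, mul_comm (a : ℝ) h,
    mul_comm ((a : ℝ) + 1) h]

theorem StepI_vol {h : ℝ} (hh : 0 < h) (z : ℤ × ℤ) :
    volume ((fun x : ℝ × ℝ => (⌊x.1 / h⌋, ⌊x.2 / h⌋)) ⁻¹' {z}) = ENNReal.ofReal (h ^ 2) := by
  have h1 : (fun x : ℝ × ℝ => (⌊x.1 / h⌋, ⌊x.2 / h⌋)) ⁻¹' {z} =
      Set.Ico (h * z.1) (h * (z.1 + 1)) ×ˢ Set.Ico (h * z.2) (h * (z.2 + 1)) := by
    ext x
    rw [Set.mem_preimage, Set.mem_singleton_iff, Prod.ext_iff, Set.mem_prod]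
    exact and_congr (StepI_floor hh z.1 x.1) (StepI_floor hh z.2 x.2)
  have h2 : ∀ a : ℤ, h * ((a : ℝ) + 1) - h * a = h := fun a => by ring
  rw [h1, Measure.volume_eq_prod, Measure.prod_prod, Real.volume_Ico, Real.volume_Ico, h2, h2,
    ← ENNReal.ofReal_mul hh.le, pow_two]

theorem lintegral_step {h : ℝ} (hh : 0 < h) (G : ℤ × ℤ → ℝ≥0∞) :
    ∫⁻ x : ℝ × ℝ, G (⌊x.1 / h⌋, ⌊x.2 / h⌋) = ENNReal.ofReal (h ^ 2) * ∑' z, G z := by
  have hG : Measurable G := Measurable.of_discrete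
  have h1 : ∫⁻ x : ℝ × ℝ, G (⌊x.1 / h⌋, ⌊x.2 / h⌋) =
      ∫⁻ z, G z ∂(Measure.map (fun x : ℝ × ℝ => (⌊x.1 / h⌋, ⌊x.2 / h⌋)) volume) :=
    (lintegral_map hG (StepI_meas h)).symm
  rw [h1, lintegral_countable', ← ENNReal.tsum_mul_left]
  refine tsum_congr fun z => ?_
  rw [Measure.map_apply (StepI_meas h) (measurableSet_singleton z), StepI_vol hh, mul_comm]

theorem integral_step {E : Type} [NormedAddCommGroup E] [NormedSpace ℝ E] [CompleteSpace E]
    {h : ℝ} (hh : 0 < h) (F : Finset (ℤ × ℤ)) (g : ℤ × ℤ → E) (hg : ∀ z, z ∉ F → g z = 0) :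
    ∫ x : ℝ × ℝ, g (⌊x.1 / h⌋, ⌊x.2 / h⌋) = (h ^ 2) • ∑ z ∈ F, g z := by
  have h1 : ∀ x : ℝ × ℝ, g (⌊x.1 / h⌋, ⌊x.2 / h⌋) =
      ∑ z ∈ F, ((fun x : ℝ × ℝ => (⌊x.1 / h⌋, ⌊x.2 / h⌋)) ⁻¹' {z}).indicator
        (fun _ => g z) x := by
    intro x
    by_cases hx : (⌊x.1 / h⌋, ⌊x.2 / h⌋) ∈ F
    · rw [Finset.sum_eq_single (⌊x.1 / h⌋, ⌊x.2 / h⌋)]
      · rw [Set.indicator_of_mem]
        exact Set.mem_singleton _
      · intro z _ hz
        rw [Set.indicator_of_notMem]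
        intro h2
        exact hz (Set.mem_singleton_iff.1 h2).symm
      · intro h2
        exact absurd hx h2
    · rw [hg _ hx, Finset.sum_eq_zero]
      intro z hz
      rw [Set.indicator_of_notMem]
      intro h2
      apply hx
      have h3 : (⌊x.1 / h⌋, ⌊x.2 / h⌋) = z := Set.mem_singleton_iff.1 h2
      rw [h3]
      exact hz
  have hms : ∀ z : ℤ × ℤ, MeasurableSet
      ((fun x : ℝ × ℝ => (⌊x.1 / h⌋, ⌊x.2 / h⌋)) ⁻¹' {z}) := fun z =>
    (StepI_meas h) (measurableSet_singleton z)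
  simp_rw [h1]
  rw [integral_finsetSum]
  · rw [Finset.smul_sum]
    refine Finset.sum_congr rfl fun z _ => ?_
    rw [integral_indicator_const _ (hms z), Measure.real, StepI_vol hh,
      ENNReal.toReal_ofReal (sq_nonneg h)]
  · intro z _
    rw [integrable_indicator_iff (hms z)]
    refine integrableOn_const ?_
    rw [StepI_vol hh]
    exact ENNReal.ofReal_ne_top

end Pool.Agent.Hyp
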