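import Pool.Agent.Hyp.TailW

/-!
# Module Tail2: tail bound for one window (two parameters)

**PROOF.** Put `c0 = rc c k' k`; `SS c k' k = FF c0` (`SS_eq_FF`), `VW c k' k = VV c0` (`VW_eq_VV`),
`c0` is adapted (`rc_adc`) and supported in `w`.  The event is contained in the union of
`E1 = {ρ ≤ ∑ n, GG c0 n x y ^2 and VV c0 x y ≤ ρ^2}` and
`E2 = {1 ≤ FF c0 x y ^2 and ∑ n, GG c0 n x y ^2 ≤ ρ}`.
`E1`: for fixed `x` apply `tail_w` in the variable `y` with index set `Fin A`, coefficients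
`fun n m y => c0 n m x y` (adapted: `(hc n m).right x`), `GG c0 n x y = bm _ y` (`GG_eq_bm`),
`s = √ρ`, `δ = ρ^2`, support `w x`: the average over `y` is `≤ 2 exp (-(ρ/(2ρ^2))) av (w x)`,
`ρ/(2ρ^2) = 1/(2ρ)`.  Average over `x`.
`E2`: for fixed `y` apply `tail_w` in the variable `x` with index set `Unit`, coefficients
`fun _ n x => GG c0 n x y` (adapted: `GG_adp`; if it is nonzero then some `c0 n m x y ≠ 0`, so
`w x y = 1`), `FF c0 x y = bm _ x` (`FF_eq_bm`), `s = 1`, `δ = ρ`.  Average over `y` and exchange the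
averages (`av_comm`).
-/

set_option autoImplicit false

namespace Pool.Agent.Hyp

open Finset

theorem tail2 {A : ℕ} {c : Coef A} (hc : AdC c) {w : Bits A → Bits A → ℝ} (hw : Ind w)
    (hs : Sup c w) (k' k : ℕ) {ρ : ℝ} (hρ : 0 < ρ) :
    av2 (fun x y => if 1 ≤ |SS c k' k x y| ∧ VW c k' k x y ≤ ρ ^ 2 then (1 : ℝ) else 0) ≤
      4 * Real.exp (-(1 / (2 * ρ))) * av2 w := by
  set c0 : Coef A := rc c k' k with hc0def
  have hc0 : AdC c0 := rc_adc hc k' k
  have hs0 : Sup c0 w := by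
    intro n m x y h
    apply hs n m x y
    intro h1
    apply h
    rw [hc0def]
    unfold rc
    rw [h1, ite_self]
  have hsq : √ρ ^ 2 = ρ := Real.sq_sqrt hρ.le
  -- the two events
  set E1 : Bits A → Bits A → ℝ := fun x y =>
    if √ρ ^ 2 ≤ ∑ n : Fin A, bm (fun m y' => c0 n m x y') y ^ 2 ∧
      ∑ n : Fin A, ∑ m : Fin A, c0 n m x y ^ 2 ≤ ρ ^ 2 then (1 : ℝ) else 0 with hE1
  set E2 : Bits A → Bits A → ℝ := fun x y =>
    if (1 : ℝ) ^ 2 ≤ ∑ _i : Unit, bm (fun n x' => GG c0 n x' y) x ^ 2 ∧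
      ∑ _i : Unit, ∑ n : Fin A, GG c0 n x y ^ 2 ≤ ρ then (1 : ℝ) else 0 with hE2
  have h1 : ∀ x, av (fun y => E1 x y) ≤ 2 * Real.exp (-(1 / (2 * ρ))) * av (w x) := by
    intro x
    have h := tail_w (fun (n : Fin A) (m : Fin A) (y : Bits A) => c0 n m x y)
      (fun n m => (hc0 n m).right x) (w x) (hw x) (fun n m y hne => hs0 n m x y hne)
      (Real.sqrt_pos.2 hρ) (pow_pos hρ 2)
    have e : √ρ ^ 2 / (2 * ρ ^ 2) = 1 / (2 * ρ) := by
      rw [hsq]
      field_simp
    rw [e] at h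
    exact h
  have h2 : ∀ y, av (fun x => E2 x y) ≤
      2 * Real.exp (-(1 / (2 * ρ))) * av (fun x => w x y) := by
    intro y
    have h := tail_w (fun (_ : Unit) (n : Fin A) (x : Bits A) => GG c0 n x y)
      (fun _ n => GG_adp hc0 n y) (fun x => w x y) (fun x => hw x y) (fun _ n x hne => by
        by_contra hcon
        apply hne
        unfold GG
        refine Finset.sum_eq_zero fun m _ => ?_
        rw [dd_eq_zero hs0 hcon, mul_zero]) (one_pos) hρ
    have e : (1 : ℝ) ^ 2 / (2 * ρ) = 1 / (2 * ρ) := by rw [one_pow]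
    rw [e] at h
    exact h
  have h3 : ∀ x y, (if 1 ≤ |SS c k' k x y| ∧ VW c k' k x y ≤ ρ ^ 2 then (1 : ℝ) else 0) ≤
      E1 x y + E2 x y := by
    intro x y
    have n1 : 0 ≤ E1 x y := by
      simp only [hE1]
      split_ifs <;> norm_num
    have n2 : 0 ≤ E2 x y := by
      simp only [hE2]
      split_ifs <;> norm_num
    by_cases hev : 1 ≤ |SS c k' k x y| ∧ VW c k' k x y ≤ ρ ^ 2
    · rw [if_pos hev]
      obtain ⟨ha, hb⟩ := hev
      rw [SS_eq_FF] at ha
      rw [VW_eq_VV] at hb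
      by_cases hg : ∑ n : Fin A, GG c0 n x y ^ 2 ≤ ρ
      · have : E2 x y = 1 := by
          simp only [hE2]
          rw [if_pos]
          refine ⟨?_, ?_⟩
          · rw [Fintype.sum_unique, ← FF_eq_bm, ← sq_abs (FF c0 x y)]
            exact pow_le_pow_left₀ zero_le_one ha 2
          · rw [Fintype.sum_unique]
            exact hg
        linarith
      · have : E1 x y = 1 := by
          simp only [hE1]
          rw [if_pos]
          refine ⟨?_, hb⟩
          rw [hsq]
          push Not at hg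
          exact hg.le
        linarith
    · rw [if_neg hev]
      linarith
  have h4 : av2 E1 ≤ 2 * Real.exp (-(1 / (2 * ρ))) * av2 w := by
    unfold av2
    rw [← av_const_mul]
    exact av_mono h1
  have h5 : av2 E2 ≤ 2 * Real.exp (-(1 / (2 * ρ))) * av2 w := by
    rw [← av2_comm E2, ← av2_comm w]
    unfold av2
    rw [← av_const_mul]
    exact av_mono h2
  have h6 := av2_mono h3
  rw [av2_add] at h6
  refine h6.trans ?_
  linarith

end Pool.Agent.Hyp
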