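import Pool.Agent.Hyp.Cosh

/-!
# Module TailW: tail bound for vector valued dyadic martingales, with a support

**PROOF.** Put `l = s / δ`, `B x = ∑ i, bm (c i) x ^2`, `Q x = ∑ i, ∑ n, c i n x ^2`,
`Z x = cosh (l √(B x)) * exp (-(l^2 Q x / 2))`; `av Z ≤ 1` by `cosh_av`.  If `w x ≠ 1` then all
`c i n x = 0`, so `B x = 0`, `Q x = 0`, `Z x = 1`.  Since `w` is `0` or `1`:
`Z x = Z x * w x + (1 - w x)` for every `x`, hence `av (Z w) = av Z - av (1 - w) ≤ av w`.
If `s^2 ≤ B x` and `Q x ≤ δ` then `w x = 1` (otherwise `B x = 0 < s^2`) and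
`Z x ≥ cosh (l s) exp (- l^2 δ / 2) ≥ (exp (l s) / 2) exp (- l^2 δ / 2) = exp (s^2/(2 δ)) / 2`
(`cosh` is increasing on `[0, ∞)`: `Real.cosh_le_cosh`, `√(B x) ≥ s`).  So the indicator function of
the event is `≤ 2 exp (-(s^2/(2δ))) Z x w x`.  Take averages.
-/

set_option autoImplicit false

namespace Pool.Agent.Hyp

open Finset

theorem tail_w {A : ℕ} {ι : Type} [Fintype ι] (c : ι → Fin A → Bits A → ℝ)
    (hc : ∀ i (n : Fin A), Adp (n : ℕ) (c i n)) (w : Bits A → ℝ) (hw : ∀ x, w x = 0 ∨ w x = 1)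
    (hs : ∀ i n x, c i n x ≠ 0 → w x = 1) {s δ : ℝ} (hs0 : 0 < s) (hδ : 0 < δ) :
    av (fun x => if s ^ 2 ≤ ∑ i, bm (c i) x ^ 2 ∧ ∑ i, ∑ n, c i n x ^ 2 ≤ δ then (1 : ℝ) else 0) ≤
      2 * Real.exp (-(s ^ 2 / (2 * δ))) * av w := by
  set l : ℝ := s / δ with hl
  have hl0 : 0 < l := div_pos hs0 hδ
  let Z : Bits A → ℝ := fun x => Real.cosh (l * √(∑ i, bm (c i) x ^ 2)) *
      Real.exp (-(l ^ 2 * (∑ i, ∑ n, c i n x ^ 2) / 2))
  have hZav : av Z ≤ 1 := cosh_av c hc l
  have hZ0 : ∀ x, 0 ≤ Z x := fun x =>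
    mul_nonneg (Real.cosh_pos _).le (Real.exp_pos _).le
  have hzero : ∀ x, w x = 0 → ∀ i n, c i n x = 0 := by
    intro x hx i n
    by_contra h
    have := hs i n x h
    rw [hx] at this
    exact zero_ne_one this
  have hB : ∀ x, w x = 0 → ∑ i, bm (c i) x ^ 2 = 0 := by
    intro x hx
    apply Finset.sum_eq_zero
    intro i _
    have : bm (c i) x = 0 := by
      unfold bm
      apply Finset.sum_eq_zero
      intro n _
      rw [hzero x hx i n, mul_zero]
    rw [this]
    norm_num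
  have hQ : ∀ x, w x = 0 → ∑ i, ∑ n, c i n x ^ 2 = 0 := by
    intro x hx
    apply Finset.sum_eq_zero
    intro i _
    apply Finset.sum_eq_zero
    intro n _
    rw [hzero x hx i n]
    norm_num
  have hZw : ∀ x, Z x * w x = Z x - (1 - w x) := by
    intro x
    rcases hw x with h | h
    · have : Z x = 1 := by
        simp only [Z]
        rw [hB x h, hQ x h]
        simp
      rw [this, h]
      ring
    · rw [h]
      ring
  have hav : av (fun x => Z x * w x) ≤ av w := by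
    rw [av_congr hZw, av_sub Z (fun x => 1 - w x), av_sub (fun _ => (1 : ℝ)) w, av_const]
    linarith
  have hpt : ∀ x, (if s ^ 2 ≤ ∑ i, bm (c i) x ^ 2 ∧ ∑ i, ∑ n, c i n x ^ 2 ≤ δ
      then (1 : ℝ) else 0) ≤ 2 * Real.exp (-(s ^ 2 / (2 * δ))) * (Z x * w x) := by
    intro x
    split_ifs with h
    · have hw1 : w x = 1 := by
        rcases hw x with h0 | h1
        · exfalso
          rw [hB x h0] at h
          have : 0 < s ^ 2 := by positivity
          linarith [h.1]
        · exact h1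
      rw [hw1, mul_one]
      have h1 : s ≤ √(∑ i, bm (c i) x ^ 2) := Real.le_sqrt_of_sq_le h.1
      have h2 : Real.cosh (l * s) ≤ Real.cosh (l * √(∑ i, bm (c i) x ^ 2)) := by
        rw [Real.cosh_le_cosh, abs_of_nonneg (mul_nonneg hl0.le hs0.le),
          abs_of_nonneg (mul_nonneg hl0.le (Real.sqrt_nonneg _))]
        exact mul_le_mul_of_nonneg_left h1 hl0.le
      have h3 : Real.exp (l * s) / 2 ≤ Real.cosh (l * s) := by
        rw [Real.cosh_eq]
        have := Real.exp_pos (-(l * s))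
        linarith
      have h4 : Real.exp (-(l ^ 2 * δ / 2)) ≤
          Real.exp (-(l ^ 2 * (∑ i, ∑ n, c i n x ^ 2) / 2)) := by
        apply Real.exp_le_exp.2
        have : l ^ 2 * (∑ i, ∑ n, c i n x ^ 2) ≤ l ^ 2 * δ :=
          mul_le_mul_of_nonneg_left h.2 (by positivity)
        linarith
      have h5 : Real.exp (l * s) / 2 * Real.exp (-(l ^ 2 * δ / 2)) ≤ Z x := by
        simp only [Z]
        exact mul_le_mul (h3.trans h2) h4 (Real.exp_pos _).le (Real.cosh_pos _).le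
      have h6 : Real.exp (l * s) / 2 * Real.exp (-(l ^ 2 * δ / 2)) =
          Real.exp (s ^ 2 / (2 * δ)) / 2 := by
        have e1 : l * s + -(l ^ 2 * δ / 2) = s ^ 2 / (2 * δ) := by
          rw [hl]
          field_simp
          ring
        rw [div_mul_eq_mul_div, ← Real.exp_add, e1]
      rw [h6] at h5
      have h7 : Real.exp (-(s ^ 2 / (2 * δ))) * Real.exp (s ^ 2 / (2 * δ)) = 1 := by
        rw [← Real.exp_add, neg_add_cancel, Real.exp_zero]
      calc (1 : ℝ) = 2 * Real.exp (-(s ^ 2 / (2 * δ))) * (Real.exp (s ^ 2 / (2 * δ)) / 2) := by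
            linarith
        _ ≤ 2 * Real.exp (-(s ^ 2 / (2 * δ))) * Z x :=
            mul_le_mul_of_nonneg_left h5 (by positivity)
    · apply mul_nonneg (by positivity)
      apply mul_nonneg (hZ0 x)
      rcases hw x with h0 | h1
      · rw [h0]
      · rw [h1]; norm_num
  calc av (fun x => if s ^ 2 ≤ ∑ i, bm (c i) x ^ 2 ∧ ∑ i, ∑ n, c i n x ^ 2 ≤ δ
        then (1 : ℝ) else 0)
      ≤ av (fun x => 2 * Real.exp (-(s ^ 2 / (2 * δ))) * (Z x * w x)) := av_mono hpt
    _ = 2 * Real.exp (-(s ^ 2 / (2 * δ))) * av (fun x => Z x * w x) := av_const_mul _ _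
    _ ≤ 2 * Real.exp (-(s ^ 2 / (2 * δ))) * av w :=
        mul_le_mul_of_nonneg_left hav (by positivity)

end Pool.Agent.Hyp
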